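import Pool.Agent.Helper24.WH.St1

/-! Modules of project WH / WL merged into one file to shorten the build. -/

section

/-!
# PROJECT WH, module BT: trees over a better quasi order
-/

set_option autoImplicit false

namespace Pool.Agent.Helper24.WH

open Set TopologicalSpace Ordinal Topology

private theorem cont_sh_BT : Continuous Inc.sh := by
  refine continuous_induced_rng.2 ?_
  refine continuous_pi fun n => ?_
  exact (continuous_apply (n + 1)).comp continuous_induced_dom

/-- the child number `i` (a leaf is its own child) -/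
private def chd_BT {A : Type} (i : ℕ) : Tr A → Tr A
  | .leaf a => .leaf a
  | .node _ F => F i

open Classical in
/-- one step of the tree argument -/
private noncomputable def stp_BT {A : Type} (r : A → A → Prop) (t u : Tr A) : Tr A :=
  if h : r t.lab u.lab ∧ ∃ i, ¬ Tr.Le r (chd_BT i t) u then chd_BT (Nat.find h.2) t else t

private theorem stp_eq_BT {A : Type} (r : A → A → Prop) (t u : Tr A) :
    stp_BT r t u = t ∨ ∃ i, stp_BT r t u = chd_BT i t := by
  classical
  unfold stp_BT
  split_ifs with h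
  · exact Or.inr ⟨_, rfl⟩
  · exact Or.inl rfl

private theorem child_ex_BT {A : Type} (r : A → A → Prop) (t u : Tr A) (h : ¬ Tr.Le r t u)
    (hl : r t.lab u.lab) : (∃ a F, t = Tr.node a F) ∧ ∃ i, ¬ Tr.Le r (chd_BT i t) u := by
  cases t with
  | leaf a => exact absurd (Tr.Le.leaf a u hl) h
  | node a F =>
    refine ⟨⟨a, F, rfl⟩, ?_⟩
    by_contra hcon
    push Not at hcon
    exact h (Tr.Le.node a F u hl fun i => hcon i)

private theorem stp_not_BT {A : Type} (r : A → A → Prop) (t u : Tr A) (h : ¬ Tr.Le r t u) :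
    ¬ Tr.Le r (stp_BT r t u) u := by
  classical
  unfold stp_BT
  split_ifs with h1
  · exact Nat.find_spec h1.2
  · exact h

private theorem le_chd_BT {A : Type} (r : A → A → Prop) (s u : Tr A) (i : ℕ)
    (h : Tr.Le r s (chd_BT i u)) : Tr.Le r s u := by
  cases u with
  | leaf a => exact h
  | node a F => exact Tr.Le.sub s a F i h

/-- no tree is its own child -/
private theorem irr_BT {A : Type} : ∀ (t : Tr A) (a : A) (F : ℕ → Tr A) (i : ℕ), t = Tr.node a F → F i ≠ t := by
  intro t
  induction t with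
  | leaf b =>
    intro a F i h
    exact absurd h (by simp)
  | node b G ih =>
    intro a F i h hF
    injection h with h1 h2
    subst h1
    subst h2
    exact ih i b G i hF rfl

/-- a sequence which moves to children is eventually constant -/
private theorem lim_BT {A : Type} : ∀ (t : Tr A) (x : ℕ → Tr A), x 0 = t →
    (∀ k, x (k + 1) = x k ∨ ∃ i, x (k + 1) = chd_BT i (x k)) → ∃ K, ∀ k ≥ K, x k = x K := by
  intro t
  induction t with
  | leaf b =>
    intro x h0 hx
    refine ⟨0, fun k _ => ?_⟩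
    induction k with
    | zero => rfl
    | succ k ih =>
      have ih' : x k = x 0 := ih (Nat.zero_le _)
      rcases hx k with h | ⟨i, h⟩
      · rw [h, ih']
      · rw [h, ih', h0]
        rfl
  | node b G ih =>
    intro x h0 hx
    by_cases hall : ∀ k, x k = Tr.node b G
    · exact ⟨0, fun k _ => by rw [hall k, hall 0]⟩
    · push Not at hall
      classical
      have hm := Nat.find_spec hall
      obtain ⟨m, hm1⟩ : ∃ m, Nat.find hall = m + 1 := by
        rcases Nat.eq_zero_or_eq_succ_pred (Nat.find hall) with h | h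
        · rw [h] at hm
          exact absurd h0 hm
        · exact ⟨_, h⟩
      have hmin : x m = Tr.node b G := by
        have := Nat.find_min hall (m := m) (by omega)
        push Not at this
        exact this
      rw [hm1] at hm
      rcases hx m with h | ⟨i, h⟩
      · exact absurd (h.trans hmin) hm
      · rw [hmin] at h
        have h' : x (m + 1) = G i := h
        obtain ⟨K, hK⟩ := ih i (fun k => x (m + 1 + k)) h' (fun k => hx (m + 1 + k))
        refine ⟨m + 1 + K, fun k hk => ?_⟩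
        have h9 : x (m + 1 + (k - (m + 1))) = x (m + 1 + K) := hK (k - (m + 1)) (by omega)
        rw [show m + 1 + (k - (m + 1)) = k by omega] at h9
        exact h9

/-- the arrays of the argument -/
private noncomputable def cs_BT {A : Type} (r : A → A → Prop) (c : Inc → Tr A) : ℕ → Inc → Tr A
  | 0 => c
  | (k + 1) => fun X => stp_BT r (cs_BT r c k X) (cs_BT r c k X.sh)

/-- iterated children -/
private def D_BT {A : Type} (S : Set (Tr A)) : ℕ → Set (Tr A)
  | 0 => S
  | (k + 1) => D_BT S k ∪ ⋃ i, chd_BT i '' D_BT S k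

private theorem D_count_BT {A : Type} (S : Set (Tr A)) (hS : S.Countable) : ∀ k, (D_BT S k).Countable
  | 0 => hS
  | (k + 1) => (D_count_BT S hS k).union (countable_iUnion fun _ => (D_count_BT S hS k).image _)

private theorem cs_mem_BT {A : Type} (r : A → A → Prop) (c : Inc → Tr A) : ∀ k X,
    cs_BT r c k X ∈ D_BT (range c) k
  | 0, X => ⟨X, rfl⟩
  | (k + 1), X => by
      have h := cs_mem_BT r c k X
      rcases stp_eq_BT r (cs_BT r c k X) (cs_BT r c k X.sh) with h1 | ⟨i, h1⟩
      · left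
        show stp_BT r (cs_BT r c k X) (cs_BT r c k X.sh) ∈ _
        rw [h1]
        exact h
      · right
        show stp_BT r (cs_BT r c k X) (cs_BT r c k X.sh) ∈ _
        rw [h1]
        exact mem_iUnion.2 ⟨i, mem_image_of_mem _ h⟩

private theorem cs_meas_BT {A : Type} (r : A → A → Prop) (c : Inc → Tr A) (hc : (range c).Countable)
    (hm : ∀ q, MeasurableSet (c ⁻¹' {q})) : ∀ k q, MeasurableSet (cs_BT r c k ⁻¹' {q})
  | 0, q => hm q
  | (k + 1), q => by
      have ih := cs_meas_BT r c hc hm k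
      have hset : cs_BT r c (k + 1) ⁻¹' {q} =
          ⋃ p ∈ {p : Tr A × Tr A | (p.1 ∈ D_BT (range c) k ∧ p.2 ∈ D_BT (range c) k) ∧ stp_BT r p.1 p.2 = q},
            (cs_BT r c k ⁻¹' {p.1}) ∩ Inc.sh ⁻¹' (cs_BT r c k ⁻¹' {p.2}) := by
        ext X
        simp only [mem_preimage, mem_singleton_iff, mem_ofPred_eq, mem_iUnion, mem_inter_iff, exists_prop,
          Prod.exists]
        constructor
        · intro h
          exact ⟨cs_BT r c k X, cs_BT r c k X.sh, ⟨⟨cs_mem_BT r c k X, cs_mem_BT r c k X.sh⟩, h⟩, rfl, rfl⟩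
        · rintro ⟨t, u, ⟨_, h1⟩, h2, h3⟩
          show stp_BT r (cs_BT r c k X) (cs_BT r c k X.sh) = q
          rw [h2, h3, h1]
      rw [hset]
      refine MeasurableSet.biUnion ?_ fun p _ => (ih p.1).inter (cont_sh_BT.measurable (ih p.2))
      refine Set.Countable.mono ?_ ((D_count_BT _ hc k).prod (D_count_BT _ hc k))
      rintro p ⟨h1, _⟩
      exact mem_prod.2 h1

private theorem cs_bad_BT {A : Type} (r : A → A → Prop) (c : Inc → Tr A)
    (hb : ∀ X : Inc, ¬ Tr.Le r (c X) (c X.sh)) : ∀ k X, ¬ Tr.Le r (cs_BT r c k X) (cs_BT r c k X.sh)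
  | 0, X => hb X
  | (k + 1), X => by
      intro h
      have h1 := stp_not_BT r _ _ (cs_bad_BT r c hb k X)
      apply h1
      change Tr.Le r (stp_BT r (cs_BT r c k X) (cs_BT r c k X.sh))
        (stp_BT r (cs_BT r c k X.sh) (cs_BT r c k X.sh.sh)) at h
      rcases stp_eq_BT r (cs_BT r c k X.sh) (cs_BT r c k X.sh.sh) with h2 | ⟨i, h2⟩
      · rw [h2] at h
        exact h
      · rw [h2] at h
        exact le_chd_BT r _ _ i h

/-- trees over a better quasi order -/
theorem hBT : StBT := by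
  intro A r _ _ hr c hc hm
  by_contra hcon
  push Not at hcon
  have hbad := cs_bad_BT r c hcon
  -- the limit
  have hlim : ∀ X, ∃ K, ∀ k ≥ K, cs_BT r c k X = cs_BT r c K X := by
    intro X
    exact lim_BT _ (fun k => cs_BT r c k X) rfl (fun k => stp_eq_BT r _ _)
  choose K hK using hlim
  set ci : Inc → Tr A := fun X => cs_BT r c (K X) X with hci
  have hci1 : ∀ X, ∀ k ≥ K X, cs_BT r c k X = ci X := fun X k hk => hK X k hk
  have hnr : ∀ X : Inc, ¬ r (ci X).lab (ci X.sh).lab := by
    intro X hX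
    set k := max (K X) (K X.sh) with hk
    have e1 : cs_BT r c k X = ci X := hci1 X k (le_max_left _ _)
    have e2 : cs_BT r c k X.sh = ci X.sh := hci1 X.sh k (le_max_right _ _)
    have e3 : cs_BT r c (k + 1) X = ci X := hci1 X (k + 1) ((le_max_left _ _).trans (Nat.le_succ _))
    have e4 : stp_BT r (ci X) (ci X.sh) = ci X := by
      rw [← e1, ← e2]
      rw [← e1] at e3
      exact e3
    have hb : ¬ Tr.Le r (ci X) (ci X.sh) := by
      rw [← e1, ← e2]
      exact hbad k X
    obtain ⟨⟨a, F, hF⟩, hi⟩ := child_ex_BT r _ _ hb hX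
    classical
    have h5 : stp_BT r (ci X) (ci X.sh) = chd_BT (Nat.find hi) (ci X) := by
      unfold stp_BT
      rw [dif_pos ⟨hX, hi⟩]
    rw [h5] at e4
    have h6 : ∀ n, chd_BT n (ci X) = F n := by
      intro n
      rw [hF]
      rfl
    exact irr_BT (ci X) a F (Nat.find hi) hF ((h6 _).symm.trans e4)
  -- countable range
  have hDc : (⋃ k, D_BT (range c) k).Countable := countable_iUnion fun k => D_count_BT _ hc k
  have hciD : ∀ X, ci X ∈ ⋃ k, D_BT (range c) k := fun X => mem_iUnion.2 ⟨K X, cs_mem_BT r c (K X) X⟩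
  have hcim : ∀ q, MeasurableSet (ci ⁻¹' {q}) := by
    intro q
    have hset : ci ⁻¹' {q} = ⋃ n : ℕ, ⋂ j : ℕ, cs_BT r c (n + j) ⁻¹' {q} := by
      ext X
      simp only [mem_preimage, mem_singleton_iff, mem_iUnion, mem_iInter]
      constructor
      · intro h
        exact ⟨K X, fun j => by rw [hci1 X (K X + j) (Nat.le_add_right _ _)]; exact h⟩
      · rintro ⟨n, h⟩
        rw [← hci1 X (n + K X) (Nat.le_add_left _ _)]
        exact h (K X)
    rw [hset]
    exact MeasurableSet.iUnion fun n => MeasurableSet.iInter fun j => cs_meas_BT r c hc hm (n + j) q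
  obtain ⟨X, hX⟩ := hr (fun X => (ci X).lab) (by
      refine Set.Countable.mono ?_ (hDc.image Tr.lab)
      rintro _ ⟨X, rfl⟩
      exact mem_image_of_mem _ (hciD X)) (by
      intro a
      have hset : (fun X => (ci X).lab) ⁻¹' {a} =
          ⋃ t ∈ {t : Tr A | t ∈ ⋃ k, D_BT (range c) k ∧ t.lab = a}, ci ⁻¹' {t} := by
        ext X
        simp only [mem_preimage, mem_singleton_iff, mem_iUnion, mem_ofPred_eq, exists_prop]
        constructor
        · intro h
          exact ⟨ci X, ⟨mem_iUnion.1 (hciD X), h⟩, rfl⟩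
        · rintro ⟨t, ⟨_, h1⟩, h2⟩
          rw [h2, h1]
      rw [hset]
      refine MeasurableSet.biUnion ?_ fun t _ => hcim t
      refine Set.Countable.mono ?_ hDc
      intro t ht
      exact ht.1)
  exact hnr X hX

end Pool.Agent.Helper24.WH

end

section

/-!
# WH module BW: better quasi orders are well quasi orders, also for sequences under domination
-/

set_option autoImplicit false

namespace Pool.Agent.Helper24.WH

open Set TopologicalSpace Ordinal Topology

private theorem cont_BW (n : ℕ) : Continuous fun X : Inc => X.1 n :=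
  (continuous_apply n).comp (continuous_subtype_val (p := fun X : ℕ → ℕ => StrictMono X))

private theorem array_BW {Q : Type} {r : Q → Q → Prop} (h : BQ r) (g : ℕ × ℕ → Q) :
    ∃ X : Inc, r (g (X.1 0, X.1 1)) (g (X.1 1, X.1 2)) := by
  have hc : Continuous fun X : Inc => (X.1 0, X.1 1) := (cont_BW 0).prodMk (cont_BW 1)
  obtain ⟨X, hX⟩ := h (fun X => g (X.1 0, X.1 1))
    ((countable_range g).mono (by rintro _ ⟨X, rfl⟩; exact ⟨_, rfl⟩)) (by
      intro q
      have h1 : (fun X : Inc => g (X.1 0, X.1 1)) ⁻¹' {q} =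
          (fun X : Inc => (X.1 0, X.1 1)) ⁻¹' (g ⁻¹' {q}) := rfl
      rw [h1]
      exact ((isOpen_discrete (g ⁻¹' {q})).preimage hc).measurableSet)
  exact ⟨X, hX⟩

theorem hBW : StBW := by
  intro Q r h
  constructor
  · intro f
    obtain ⟨X, hX⟩ := array_BW h (fun p => f p.1)
    exact ⟨X.1 0, X.1 1, X.2 one_pos, hX⟩
  · intro F
    by_contra hcon
    have h1 : ∀ i j : ℕ, ∃ k : ℕ, i < j → ∀ l, ¬ r (F i k) (F j l) := by
      intro i j
      by_cases hij : i < j
      · by_contra h2
        push Not at h2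
        exact hcon ⟨i, j, hij, fun k => (h2 k).2⟩
      · exact ⟨0, fun h2 => absurd h2 hij⟩
    choose k hk using h1
    obtain ⟨X, hX⟩ := array_BW h (fun p => F p.1 (k p.1 p.2))
    exact hk (X.1 0) (X.1 1) (X.2 one_pos) _ hX

end Pool.Agent.Helper24.WH

end

section

namespace Pool.Agent.Helper24.WH

/-- **FB (1.6)** finite basis property -/
theorem hFB : StFB := by
  intro Q r _ _ hw A
  by_contra hcon
  have key : ∀ s : Finset Q, (∀ x ∈ s, x ∈ A) → ∃ y, y ∈ A ∧ ∀ x ∈ s, ¬ r x y := by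
    intro s hs
    by_contra hno
    apply hcon
    refine ⟨(s : Set Q), s.finite_toSet, fun x hx => hs x (by simpa using hx), ?_⟩
    intro a ha
    by_contra hbad
    apply hno
    refine ⟨a, ha, ?_⟩
    intro x hx hrx
    exact hbad ⟨x, by simpa using hx, hrx⟩
  obtain ⟨f, _, hf2⟩ :=
    exists_seq_of_forall_finset_exists (fun x => x ∈ A) (fun x y => ¬ r x y) key
  obtain ⟨m, n, hmn, hr⟩ := hw f
  exact hf2 m n hmn hr

end Pool.Agent.Helper24.WH

end

section

set_option autoImplicit false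

namespace Pool.Agent.Helper24.WH

open Set TopologicalSpace Ordinal Topology

variable {X : Type}

private theorem iter_eq_IL (d : Set X → Set X) (B : Set X) (α : Ordinal.{0}) :
    iter d B α = B ∩ ⋂ β : Iio α, d (iter d B β.1) := by
  rw [iter]

private theorem mem_iter_IL (d : Set X → Set X) (B : Set X) (α : Ordinal.{0}) (x : X) :
    x ∈ iter d B α ↔ x ∈ B ∧ ∀ β, β < α → x ∈ d (iter d B β) := by
  rw [iter_eq_IL]
  constructor
  · rintro ⟨h1, h2⟩
    refine ⟨h1, fun β hβ => ?_⟩
    exact (mem_iInter.1 h2) ⟨β, hβ⟩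
  · rintro ⟨h1, h2⟩
    exact ⟨h1, mem_iInter.2 (fun β => h2 β.1 β.2)⟩

private theorem mono_IL (d : Set X → Set X) (hd : ∀ A B, A ⊆ B → d A ⊆ d B) (A B : Set X)
    (h : A ⊆ B) (α : Ordinal.{0}) : iter d A α ⊆ iter d B α := by
  induction α using WellFoundedLT.induction with
  | ind α ih =>
    intro x hx
    rw [mem_iter_IL] at hx ⊢
    exact ⟨h hx.1, fun β hβ => hd _ _ (ih β hβ) (hx.2 β hβ)⟩

private theorem loc_IL (τ : TopologicalSpace X) (d : Set X → Set X) (hd : IsDer τ d) (O B : Set X)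
    (hO : Clp τ O) (α : Ordinal.{0}) : iter d (B ∩ O) α = iter d B α ∩ O := by
  induction α using WellFoundedLT.induction with
  | ind α ih =>
    ext x
    rw [mem_inter_iff, mem_iter_IL, mem_iter_IL]
    constructor
    · rintro ⟨⟨h1, h2⟩, h3⟩
      refine ⟨⟨h1, fun β hβ => ?_⟩, h2⟩
      have := h3 β hβ
      rw [ih β hβ, hd.loc O _ hO] at this
      exact this.1
    · rintro ⟨⟨h1, h3⟩, h2⟩
      refine ⟨⟨h1, h2⟩, fun β hβ => ?_⟩
      rw [ih β hβ, hd.loc O _ hO]
      exact ⟨h3 β hβ, h2⟩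

private theorem closed_IL (τ : TopologicalSpace X) (d : Set X → Set X) (hd : IsDer τ d) (B : Set X)
    (hB : IsClosed[τ] B) (α : Ordinal.{0}) : IsClosed[τ] (iter d B α) := by
  induction α using WellFoundedLT.induction with
  | ind α ih =>
    rw [iter_eq_IL]
    exact @IsClosed.inter X B _ τ hB
      (@isClosed_iInter X _ τ _ (fun β => hd.closed _ (ih β.1 β.2)))

theorem hIL : StIL := by
  intro X τ d hd α
  refine ⟨fun A B h => mono_IL d hd.mono A B h α, fun B x hx => ((mem_iter_IL d B α x).1 hx).1,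
    fun O B hO => loc_IL τ d hd O B hO α, fun B hB => closed_IL τ d hd B hB α⟩

end Pool.Agent.Helper24.WH

end

section

set_option autoImplicit false

namespace Pool.Agent.Helper24.WH

open Set Ordinal Order

/-- natural sum -/
noncomputable def nat_NS (a b : Ordinal.{0}) : Ordinal.{0} :=
  max (⨆ x : Iio a, succ (nat_NS x.1 b)) (⨆ x : Iio b, succ (nat_NS a x.1))
termination_by (a, b)
decreasing_by
  · exact Prod.Lex.left _ _ x.2
  · exact Prod.Lex.right _ x.2

private theorem le_NS (a b c : Ordinal.{0}) :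
    nat_NS a b ≤ c ↔ (∀ a' < a, nat_NS a' b < c) ∧ ∀ b' < b, nat_NS a b' < c := by
  rw [nat_NS, max_le_iff, Ordinal.iSup_le_iff, Ordinal.iSup_le_iff]
  simp only [succ_le_iff, Subtype.forall, mem_Iio]

private theorem left_NS {a a' : Ordinal.{0}} (b : Ordinal.{0}) (h : a < a') :
    nat_NS a b < nat_NS a' b := ((le_NS a' b _).1 le_rfl).1 a h

private theorem right_NS (a : Ordinal.{0}) {b b' : Ordinal.{0}} (h : b < b') :
    nat_NS a b < nat_NS a b' := ((le_NS a b' _).1 le_rfl).2 b h

private theorem key_NS (y : Ordinal.{0})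
    (ih : ∀ a b : Ordinal.{0}, a < ω ^ y → b < ω ^ y → nat_NS a b < ω ^ y) :
    ∀ (a b : Ordinal.{0}) (i j : ℕ) (c d : Ordinal.{0}), c < ω ^ y → d < ω ^ y →
      a = ω ^ y * i + c → b = ω ^ y * j + d →
      nat_NS a b ≤ ω ^ y * ((i + j : ℕ) : Ordinal.{0}) + nat_NS c d := by
  have hpos : (0 : Ordinal.{0}) < ω ^ y := opow_pos _ omega0_pos
  -- one sided step
  have dec : ∀ (i : ℕ) (c a' : Ordinal.{0}), c < ω ^ y → a' < ω ^ y * i + c →
      ∃ (i' : ℕ) (c' : Ordinal.{0}), c' < ω ^ y ∧ a' = ω ^ y * i' + c' ∧ ((i' = i ∧ c' < c) ∨ i' < i) := by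
    intro i c a' hc h
    have h1 : a' < ω ^ y * ((i : Ordinal.{0}) + 1) := by
      refine h.trans_le ?_
      rw [mul_add_one]
      exact add_le_add_right hc.le _
    have h2 : a' / ω ^ y < (i : Ordinal.{0}) + 1 := (Ordinal.lt_mul_iff_div_lt hpos.ne').1 h1
    have h3 : a' / ω ^ y < ω := h2.trans (by exact_mod_cast natCast_lt_omega0 (i + 1))
    obtain ⟨k, hk⟩ := lt_omega0.1 h3
    have hk' : k < i + 1 := by
      rw [hk] at h2
      exact_mod_cast h2
    refine ⟨k, a' % ω ^ y, Ordinal.mod_lt _ hpos.ne', ?_, ?_⟩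
    · rw [← hk]; exact (Ordinal.div_add_mod a' (ω ^ y)).symm
    · rcases Nat.lt_succ_iff_lt_or_eq.1 hk' with h4 | h4
      · exact Or.inr h4
      · refine Or.inl ⟨h4, ?_⟩
        have h5 : a' = ω ^ y * i + a' % ω ^ y := by
          rw [← h4, ← hk]; exact (Ordinal.div_add_mod a' (ω ^ y)).symm
        rw [h5] at h
        exact (add_lt_add_iff_left _).1 h
  intro a
  induction a using WellFoundedLT.induction with
  | _ a iha =>
  intro b
  induction b using WellFoundedLT.induction with
  | _ b ihb =>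
  intro i j c d hc hd ha hb
  rw [le_NS]
  constructor
  · intro a' ha'
    obtain ⟨i', c', hc', e', hcase⟩ := dec i c a' hc (ha ▸ ha')
    have h1 := iha a' ha' b i' j c' d hc' hd e' hb
    refine h1.trans_lt ?_
    rcases hcase with ⟨h2, h3⟩ | h2
    · rw [h2]
      exact (add_lt_add_iff_left _).2 (left_NS d h3)
    · have h3 : ω ^ y * ((i' + j : ℕ) : Ordinal.{0}) + nat_NS c' d <
          ω ^ y * ((i' + j : ℕ) : Ordinal.{0}) + ω ^ y := (add_lt_add_iff_left _).2 (ih c' d hc' hd)
      refine h3.trans_le ?_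
      rw [← mul_add_one]
      refine le_trans ?_ le_self_add
      refine mul_le_mul_right ?_ _
      have : i' + j + 1 ≤ i + j := by omega
      exact_mod_cast this
  · intro b' hb'
    obtain ⟨j', d', hd', e', hcase⟩ := dec j d b' hd (hb ▸ hb')
    have h1 := ihb b' hb' i j' c d' hc hd' ha e'
    refine h1.trans_lt ?_
    rcases hcase with ⟨h2, h3⟩ | h2
    · rw [h2]
      exact (add_lt_add_iff_left _).2 (right_NS c h3)
    · have h3 : ω ^ y * ((i + j' : ℕ) : Ordinal.{0}) + nat_NS c d' <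
          ω ^ y * ((i + j' : ℕ) : Ordinal.{0}) + ω ^ y := (add_lt_add_iff_left _).2 (ih c d' hc hd')
      refine h3.trans_le ?_
      rw [← mul_add_one]
      refine le_trans ?_ le_self_add
      refine mul_le_mul_right ?_ _
      have : i + j' + 1 ≤ i + j := by omega
      exact_mod_cast this

private theorem main_NS : ∀ x a b : Ordinal.{0}, a < ω ^ x → b < ω ^ x → nat_NS a b < ω ^ x := by
  intro x
  induction x using Ordinal.limitRecOn with
  | zero =>
    intro a b ha hb
    rw [opow_zero, Order.lt_one_iff] at *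
    subst ha hb
    refine nonpos_iff_eq_zero.1 ?_
    rw [le_NS]
    exact ⟨fun a' h => absurd h not_lt_zero, fun a' h => absurd h not_lt_zero⟩
  | add_one y ih =>
    intro a b ha hb
    have hpos : (0 : Ordinal.{0}) < ω ^ y := opow_pos _ omega0_pos
    rw [← succ_eq_add_one, opow_succ] at ha hb ⊢
    obtain ⟨i, hi⟩ := lt_omega0.1 ((Ordinal.lt_mul_iff_div_lt hpos.ne').1 ha)
    obtain ⟨j, hj⟩ := lt_omega0.1 ((Ordinal.lt_mul_iff_div_lt hpos.ne').1 hb)
    have h1 := key_NS y ih a b i j (a % ω ^ y) (b % ω ^ y) (Ordinal.mod_lt _ hpos.ne')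
      (Ordinal.mod_lt _ hpos.ne') (by rw [← hi]; exact (Ordinal.div_add_mod a _).symm)
      (by rw [← hj]; exact (Ordinal.div_add_mod b _).symm)
    refine h1.trans_lt ?_
    have h2 : ω ^ y * ((i + j : ℕ) : Ordinal.{0}) + nat_NS (a % ω ^ y) (b % ω ^ y) <
        ω ^ y * ((i + j : ℕ) : Ordinal.{0}) + ω ^ y := (add_lt_add_iff_left _).2
      (ih _ _ (Ordinal.mod_lt _ hpos.ne') (Ordinal.mod_lt _ hpos.ne'))
    refine h2.trans ?_
    rw [← mul_add_one]
    refine (mul_lt_mul_iff_right₀ hpos).2 ?_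
    exact_mod_cast natCast_lt_omega0 (i + j + 1)
  | limit x hx ih =>
    intro a b ha hb
    rw [lt_opow_of_isSuccLimit omega0_ne_zero hx] at ha hb
    obtain ⟨u, hu, ha⟩ := ha
    obtain ⟨v, hv, hb⟩ := hb
    have h1 := ih (max u v) (max_lt hu hv) a b
      (ha.trans_le (opow_le_opow_right omega0_pos (le_max_left _ _)))
      (hb.trans_le (opow_le_opow_right omega0_pos (le_max_right _ _)))
    exact h1.trans ((opow_lt_opow_iff_right one_lt_omega0).2 (max_lt hu hv))

/-- the version with an ordinal exponent -/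
theorem hNSo : ∃ N : Ordinal.{0} → Ordinal.{0} → Ordinal.{0},
    (∀ a a' b, a < a' → N a b < N a' b) ∧ (∀ a b b', b < b' → N a b < N a b') ∧
    ∀ x a b : Ordinal.{0}, a < ω ^ x → b < ω ^ x → N a b < ω ^ x :=
  ⟨nat_NS, fun _ _ b h => left_NS b h, fun a _ _ h => right_NS a h, main_NS⟩

theorem hNS : StNS := by
  first
  | exact hNSo
  | exact ⟨nat_NS, fun _ _ b h => left_NS b h, fun a _ _ h => right_NS a h,
      fun x a b ha hb => by
        have := main_NS (x : Ordinal.{0}) a b (by simpa using ha) (by simpa using hb)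
        simpa using this⟩

end Pool.Agent.Helper24.WH

end

section

/-!
# PROJECT WH (MP_76577a_lc), module TB: all terms (combination of BF, BP, BT, BW)
-/

set_option autoImplicit false

namespace Pool.Agent.Helper24.WH

private theorem bq_TB (h1 : StBF) (h3 : StBT) (h5 : StTP) (S : Type) [Finite S] :
    ∀ m : ℕ, BQ (TT.Le (S := S) m)
  | 0 => h1 S
  | (m + 1) => by
      have ih := bq_TB h1 h3 h5 S m
      have hr := (h5.2.1 S m).1
      have ht := (h5.2.1 S m).2
      exact h3 (TT S m) (TT.Le m) hr ht ih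

theorem hTB (h1 : StBF) (h2 : StBP) (h3 : StBT) (h4 : StBW) (h5 : StTP) : StTB := by
  intro S _ m k
  have hb := bq_TB h1 h3 h5 S m
  exact ⟨(h4 _ _ hb).1, (h4 _ _ hb).2, (h4 _ _ (h2 _ _ k hb)).2⟩

end Pool.Agent.Helper24.WH

end

section

set_option autoImplicit false

namespace Pool.Agent.Helper24.WH

private theorem refl_TP {A : Type} {r : A → A → Prop} (hr : ∀ a, r a a) :
    ∀ t : Tr A, Tr.Le r t t := by
  intro t
  induction t with
  | leaf U => exact Tr.Le.leaf U _ (hr U)
  | node U F ih =>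
    exact Tr.Le.node U F _ (hr U) (fun i => Tr.Le.sub _ U F i (ih i))

private theorem inner_TP {A : Type} {r : A → A → Prop}
    (ht : ∀ a b c, r a b → r b c → r a c) (u v : Tr A) (hlab : r u.lab v.lab)
    (hch : ∀ U F, u = Tr.node U F → ∀ (i : ℕ) (t : Tr A), Tr.Le r t (F i) → Tr.Le r t v) :
    ∀ t u' : Tr A, Tr.Le r t u' → u' = u → Tr.Le r t v := by
  intro t u' h
  induction h with
  | sub t U' F' j h ih =>
    intro e
    exact hch U' F' e.symm j t h
  | leaf U t' h =>
    intro e
    subst e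
    exact Tr.Le.leaf U v (ht _ _ _ h hlab)
  | node U F t' h hF ih =>
    intro e
    have h2 : r U v.lab := by
      subst e
      exact ht _ _ _ h hlab
    exact Tr.Le.node U F v h2 (fun i => ih i e)

private theorem trans_TP {A : Type} {r : A → A → Prop}
    (ht : ∀ a b c, r a b → r b c → r a c) :
    ∀ u v : Tr A, Tr.Le r u v → ∀ t, Tr.Le r t u → Tr.Le r t v := by
  intro u v h
  induction h with
  | sub u U' F' j h ih =>
    intro t htu
    exact Tr.Le.sub t U' F' j (ih t htu)
  | leaf U v h =>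
    intro t htu
    refine inner_TP ht (Tr.leaf U) v h ?_ t _ htu rfl
    intro U' F' e
    cases e
  | node U F v h hF ih =>
    intro t htu
    refine inner_TP ht (Tr.node U F) v h ?_ t _ htu rfl
    intro U' F' e i t' h'
    cases e
    exact ih i t' h'

private theorem lab_map_TP {A B : Type} (G : A → B) (t : Tr A) : (t.map G).lab = G t.lab := by
  cases t <;> rfl

private theorem map_TP {A B : Type} {r : A → A → Prop} {r' : B → B → Prop} (G : A → B)
    (hG : ∀ a b, r a b → r' (G a) (G b)) :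
    ∀ t u : Tr A, Tr.Le r t u → Tr.Le r' (t.map G) (u.map G) := by
  intro t u h
  induction h with
  | sub t U' F' j h ih =>
    exact Tr.Le.sub _ _ (fun i => (F' i).map G) j ih
  | leaf U t' h =>
    refine Tr.Le.leaf _ _ ?_
    rw [lab_map_TP]
    exact hG _ _ h
  | node U F t' h hF ih =>
    refine Tr.Le.node _ _ _ ?_ ih
    rw [lab_map_TP]
    exact hG _ _ h

private theorem tt_TP (S : Type) (m : ℕ) : (∀ t : TT S m, TT.Le m t t) ∧
    (∀ t u v : TT S m, TT.Le m t u → TT.Le m u v → TT.Le m t v) := by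
  induction m with
  | zero =>
    constructor
    · intro t
      exact rfl
    · intro t u v h1 h2
      exact Eq.trans (α := S) h1 h2
  | succ m ih =>
    constructor
    · intro t
      exact refl_TP ih.1 t
    · intro t u v h1 h2
      exact trans_TP ih.2 u v h2 t h1

theorem hTP : StTP := by
  refine ⟨?_, ?_, ?_⟩
  · intro A r hr ht
    exact ⟨refl_TP hr, fun t u v h1 h2 => trans_TP ht u v h2 t h1⟩
  · intro S m
    exact tt_TP S m
  · intro S' S G m
    induction m with
    | zero =>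
      intro t u h
      exact congrArg G (show (t : S') = u from h)
    | succ m ih =>
      intro t u h
      exact map_TP (TT.map G m) (fun a b hab => ih a b hab) t u h

end Pool.Agent.Helper24.WH

end

section

set_option autoImplicit false

namespace Pool.Agent.Helper24.WH

open Set TopologicalSpace Ordinal Topology


/-! ### The natural sum -/

private noncomputable def nsum_UN (a b : Ordinal.{0}) : Ordinal.{0} :=
  max (⨆ a' : Iio a, nsum_UN a'.1 b + 1) (⨆ b' : Iio b, nsum_UN a b'.1 + 1)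
termination_by (a, b)
decreasing_by
  · exact Prod.Lex.left _ _ a'.2
  · exact Prod.Lex.right _ b'.2

private theorem nsum_le_UN (a b c : Ordinal.{0}) (h1 : ∀ a' < a, nsum_UN a' b < c)
    (h2 : ∀ b' < b, nsum_UN a b' < c) : nsum_UN a b ≤ c := by
  rw [nsum_UN]
  refine max_le ?_ ?_
  · refine (ciSup_le_iff' bddAbove_of_small).mpr fun a' => ?_
    exact Order.add_one_le_iff.mpr (h1 a'.1 a'.2)
  · refine (ciSup_le_iff' bddAbove_of_small).mpr fun b' => ?_
    exact Order.add_one_le_iff.mpr (h2 b'.1 b'.2)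

private theorem nsum_lt_left_UN (a a' b : Ordinal.{0}) (h : a < a') :
    nsum_UN a b < nsum_UN a' b := by
  rw [nsum_UN.eq_1 a' b]
  apply lt_max_of_lt_left
  refine lt_of_lt_of_le (Order.lt_add_one_iff.mpr le_rfl) ?_
  exact le_ciSup (f := fun a'' : Iio a' => nsum_UN a''.1 b + 1) bddAbove_of_small ⟨a, h⟩

private theorem nsum_lt_right_UN (a b b' : Ordinal.{0}) (h : b < b') :
    nsum_UN a b < nsum_UN a b' := by
  rw [nsum_UN.eq_1 a b']
  apply lt_max_of_lt_right
  refine lt_of_lt_of_le (Order.lt_add_one_iff.mpr le_rfl) ?_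
  exact le_ciSup (f := fun b'' : Iio b' => nsum_UN a b''.1 + 1) bddAbove_of_small ⟨b, h⟩

private theorem nsum_bound_UN (w : Ordinal.{0}) (hw : w ≠ 0)
    (hH : ∀ c d, c < w → d < w → nsum_UN c d < w) (a b : Ordinal.{0}) :
    ∀ (i j : ℕ) (c d : Ordinal.{0}), c < w → d < w → a = w * i + c → b = w * j + d →
      nsum_UN a b ≤ w * ((i + j : ℕ) : Ordinal.{0}) + nsum_UN c d := by
  induction a using WellFoundedLT.induction generalizing b with
  | ind a iha =>
  induction b using WellFoundedLT.induction with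
  | ind b ihb =>
  intro i j c d hc hd ha hb
  have hnat : ∀ m n : ℕ, m < n → w * (m : Ordinal.{0}) + w ≤ w * (n : Ordinal.{0}) := by
    intro m n hmn
    have h1 : w * (m : Ordinal.{0}) + w = w * ((m + 1 : ℕ) : Ordinal.{0}) := by
      push_cast
      rw [mul_add, mul_one]
    rw [h1]
    exact mul_le_mul_right (by exact_mod_cast hmn) w
  have hdec : ∀ (n : ℕ) (x : Ordinal.{0}), x < w * (n : Ordinal.{0}) →
      ∃ m : ℕ, m < n ∧ ∃ e < w, x = w * (m : Ordinal.{0}) + e := by
    intro n x hx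
    have h1 : x / w < (n : Ordinal.{0}) := (Ordinal.lt_mul_iff_div_lt hw).mp hx
    obtain ⟨m, hm⟩ := Ordinal.lt_omega0.mp (h1.trans (Ordinal.natCast_lt_omega0 n))
    refine ⟨m, ?_, x % w, Ordinal.mod_lt x hw, ?_⟩
    · rw [hm] at h1
      exact_mod_cast h1
    · rw [← hm]
      exact (Ordinal.div_add_mod x w).symm
  apply nsum_le_UN
  · intro a' ha'
    rcases lt_or_ge a' (w * (i : Ordinal.{0})) with h | h
    · obtain ⟨m, hmi, e, he, hxe⟩ := hdec i a' h
      refine lt_of_le_of_lt (iha a' ha' b m j e d he hd hxe hb) ?_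
      calc w * ((m + j : ℕ) : Ordinal.{0}) + nsum_UN e d
          < w * ((m + j : ℕ) : Ordinal.{0}) + w := by
            exact (add_lt_add_iff_left _).mpr (hH e d he hd)
        _ ≤ w * ((i + j : ℕ) : Ordinal.{0}) := hnat _ _ (by omega)
        _ ≤ w * ((i + j : ℕ) : Ordinal.{0}) + nsum_UN c d := le_add_of_nonneg_right bot_le
    · obtain ⟨e, he⟩ := exists_add_of_le h
      have hec : e < c := by
        rw [he, ha] at ha'
        exact (add_lt_add_iff_left _).mp ha'
      refine lt_of_le_of_lt (iha a' ha' b i j e d (hec.trans hc) hd he hb) ?_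
      exact (add_lt_add_iff_left _).mpr (nsum_lt_left_UN e c d hec)
  · intro b' hb'
    rcases lt_or_ge b' (w * (j : Ordinal.{0})) with h | h
    · obtain ⟨m, hmj, e, he, hxe⟩ := hdec j b' h
      refine lt_of_le_of_lt (ihb b' hb' i m c e hc he ha hxe) ?_
      calc w * ((i + m : ℕ) : Ordinal.{0}) + nsum_UN c e
          < w * ((i + m : ℕ) : Ordinal.{0}) + w := by
            exact (add_lt_add_iff_left _).mpr (hH c e hc he)
        _ ≤ w * ((i + j : ℕ) : Ordinal.{0}) := hnat _ _ (by omega)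
        _ ≤ w * ((i + j : ℕ) : Ordinal.{0}) + nsum_UN c d := le_add_of_nonneg_right bot_le
    · obtain ⟨e, he⟩ := exists_add_of_le h
      have hed : e < d := by
        rw [he, hb] at hb'
        exact (add_lt_add_iff_left _).mp hb'
      refine lt_of_le_of_lt (ihb b' hb' i j c e hc (hed.trans hd) ha he) ?_
      exact (add_lt_add_iff_left _).mpr (nsum_lt_right_UN c e d hed)

private theorem nsum_principal_UN (x : Ordinal.{0}) :
    ∀ a b : Ordinal.{0}, a < ω ^ x → b < ω ^ x → nsum_UN a b < ω ^ x := by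
  induction x using Ordinal.limitRecOn with
  | zero =>
    intro a b ha hb
    rw [Ordinal.opow_zero] at ha hb ⊢
    have ha0 : a = 0 := Order.lt_one_iff.mp ha
    have hb0 : b = 0 := Order.lt_one_iff.mp hb
    subst ha0 hb0
    refine lt_of_le_of_lt (nsum_le_UN 0 0 0 ?_ ?_) zero_lt_one
    · intro a' ha'; exact absurd ha' not_lt_bot
    · intro a' ha'; exact absurd ha' not_lt_bot
  | add_one y ih =>
    intro a b ha hb
    have hw : (ω ^ y : Ordinal.{0}) ≠ 0 := (Ordinal.opow_pos y Ordinal.omega0_pos).ne'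
    rw [Ordinal.opow_add_one] at ha hb ⊢
    have hdec : ∀ (z : Ordinal.{0}), z < ω ^ y * ω →
        ∃ m : ℕ, ∃ e < ω ^ y, z = ω ^ y * (m : Ordinal.{0}) + e := by
      intro z hz
      have h1 : z / ω ^ y < ω := (Ordinal.lt_mul_iff_div_lt hw).mp hz
      obtain ⟨m, hm⟩ := Ordinal.lt_omega0.mp h1
      refine ⟨m, z % ω ^ y, Ordinal.mod_lt z hw, ?_⟩
      rw [← hm]
      exact (Ordinal.div_add_mod z (ω ^ y)).symm
    obtain ⟨i, c, hc, hac⟩ := hdec a ha
    obtain ⟨j, d, hd, hbd⟩ := hdec b hb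
    refine lt_of_le_of_lt (nsum_bound_UN _ hw ih a b i j c d hc hd hac hbd) ?_
    calc ω ^ y * ((i + j : ℕ) : Ordinal.{0}) + nsum_UN c d
        < ω ^ y * ((i + j : ℕ) : Ordinal.{0}) + ω ^ y :=
          (add_lt_add_iff_left _).mpr (ih c d hc hd)
      _ = ω ^ y * ((i + j + 1 : ℕ) : Ordinal.{0}) := by
          rw [Nat.cast_add_one, mul_add, mul_one]
      _ ≤ ω ^ y * ω := mul_le_mul_right (Ordinal.natCast_lt_omega0 _).le _
  | limit x hx ih =>
    intro a b ha hb
    obtain ⟨y, hy, hay⟩ := (Ordinal.lt_opow_of_isSuccLimit Ordinal.omega0_ne_zero hx).mp ha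
    obtain ⟨z, hz, hbz⟩ := (Ordinal.lt_opow_of_isSuccLimit Ordinal.omega0_ne_zero hx).mp hb
    have hm : max y z < x := max_lt hy hz
    have h1 : a < ω ^ max y z :=
      lt_of_lt_of_le hay (Ordinal.opow_le_opow_right Ordinal.omega0_pos (le_max_left _ _))
    have h2 : b < ω ^ max y z :=
      lt_of_lt_of_le hbz (Ordinal.opow_le_opow_right Ordinal.omega0_pos (le_max_right _ _))
    exact lt_of_lt_of_le (ih _ hm a b h1 h2)
      (Ordinal.opow_le_opow_right Ordinal.omega0_pos hm.le)

/-- The natural sum (ordinal exponents). -/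
theorem NS_UN : ∃ N : Ordinal.{0} → Ordinal.{0} → Ordinal.{0},
    (∀ a a' b, a < a' → N a b < N a' b) ∧ (∀ a b b', b < b' → N a b < N a b') ∧
    ∀ x a b : Ordinal.{0}, a < ω ^ x → b < ω ^ x → N a b < ω ^ x :=
  ⟨nsum_UN, nsum_lt_left_UN, nsum_lt_right_UN, nsum_principal_UN⟩

variable {X : Type}

/-- `z` has rank `a` for `d` over `B`. -/
private def Rk (d : Set X → Set X) (B : Set X) (z : X) (a : Ordinal.{0}) : Prop :=
  z ∈ iter d B a ∧ z ∉ iter d B (a + 1)

private theorem exists_Rk_UN (hIT : StIT) (d : Set X → Set X) (hm : ∀ A B, A ⊆ B → d A ⊆ d B)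
    (hl : ∀ B, d B ⊆ B) (B : Set X) (z : X) (hz : z ∈ B) (c : Ordinal.{0}) (hc : z ∉ iter d B c) :
    ∃ a, a < c ∧ Rk d B z a := by
  obtain ⟨h0, -, hanti, -, -, -, hlim, -, -, -⟩ := hIT X d hm hl
  have hex : ∃ c, z ∉ iter d B c := ⟨c, hc⟩
  set m := WellFounded.min Ordinal.lt_wf {c | z ∉ iter d B c} hex with hmdef
  have hmem : z ∉ iter d B m := WellFounded.min_mem Ordinal.lt_wf {c | z ∉ iter d B c} hex
  have hmin : ∀ b, b < m → z ∈ iter d B b := by
    intro b hb
    by_contra hcon
    exact WellFounded.not_lt_min Ordinal.lt_wf {c | z ∉ iter d B c} hcon hb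
  have hmc : m ≤ c := by
    by_contra hcon
    exact hc (hmin c (not_le.mp hcon))
  rcases Ordinal.zero_or_succ_or_isSuccLimit m with h | ⟨b, h⟩ | h
  · rw [h, h0] at hmem
    exact absurd hz hmem
  · have h' : b + 1 = m := by rw [← h, Order.succ_eq_add_one]
    have hb : b < m := by rw [← h']; exact Order.lt_add_one_iff.mpr le_rfl
    refine ⟨b, lt_of_lt_of_le hb hmc, hmin b hb, ?_⟩
    rw [h']
    exact hmem
  · exfalso
    apply hmem
    rw [hlim B m h]
    refine mem_iInter.mpr fun β => hmin β.1 β.2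

private theorem IsDer_union_UN (τ : TopologicalSpace X) (d₁ d₂ : Set X → Set X)
    (h₁ : IsDer τ d₁) (h₂ : IsDer τ d₂) : IsDer τ (fun B => d₁ B ∪ d₂ B) := by
  refine ⟨?_, ?_, ?_, ?_⟩
  · intro A B h
    exact union_subset_union (h₁.mono A B h) (h₂.mono A B h)
  · intro B
    exact union_subset (h₁.le B) (h₂.le B)
  · intro O B hO
    show d₁ (B ∩ O) ∪ d₂ (B ∩ O) = (d₁ B ∪ d₂ B) ∩ O
    rw [h₁.loc O B hO, h₂.loc O B hO, union_inter_distrib_right]
  · intro B hB
    exact (h₁.closed B hB).union (h₂.closed B hB)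

private theorem core_UN (hIT : StIT) (hIL : StIL) (τ : TopologicalSpace X) (hZ : ZD τ)
    (N : Ordinal.{0} → Ordinal.{0} → Ordinal.{0})
    (hN1 : ∀ a a' b, a < a' → N a b < N a' b) (hN2 : ∀ a b b', b < b' → N a b < N a b')
    (d₁ d₂ : Set X → Set X) (h₁ : IsDer τ d₁) (h₂ : IsDer τ d₂) (B : Set X)
    (hB : IsClosed[τ] B) (β : Ordinal.{0}) :
    ∀ (z : X) (a b : Ordinal.{0}), z ∈ iter (fun B => d₁ B ∪ d₂ B) B β → Rk d₁ B z a →
      Rk d₂ B z b → β ≤ N a b := by
  have hD := IsDer_union_UN τ d₁ d₂ h₁ h₂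
  obtain ⟨-, hDs, hDa, -, -, hDB, -, -, -, -⟩ := hIT X (fun B => d₁ B ∪ d₂ B) hD.mono hD.le
  obtain ⟨-, h1s, -, -, -, -, -, -, -, -⟩ := hIT X d₁ h₁.mono h₁.le
  obtain ⟨-, h2s, -, -, -, -, -, -, -, -⟩ := hIT X d₂ h₂.mono h₂.le
  have hNle1 : ∀ a a' b, a ≤ a' → N a b ≤ N a' b := by
    intro a a' b h
    rcases h.lt_or_eq with h | h
    · exact (hN1 a a' b h).le
    · rw [h]
  have hNle2 : ∀ a b b', b ≤ b' → N a b ≤ N a b' := by
    intro a b b' h
    rcases h.lt_or_eq with h | h
    · exact (hN2 a b b' h).le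
    · rw [h]
  induction β using Ordinal.limitRecOn with
  | zero => intro z a b _ _ _; exact bot_le
  | add_one β ih =>
    intro z a b hz ha hb
    have hz' : z ∈ iter (fun B => d₁ B ∪ d₂ B) B β := hDa B β (β + 1) (le_add_of_nonneg_right zero_le_one) (by simpa using hz)
    have hle : β ≤ N a b := ih z a b hz' ha hb
    have hlt : β < N a b := by
      rcases hle.lt_or_eq with h | h
      · exact h
      exfalso
      have hc1 : IsClosed[τ] (iter d₁ B (a + 1)) := (hIL X τ d₁ h₁ (a + 1)).closed B hB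
      have hc2 : IsClosed[τ] (iter d₂ B (b + 1)) := (hIL X τ d₂ h₂ (b + 1)).closed B hB
      have hopen : IsOpen[τ] (iter d₁ B (a + 1) ∪ iter d₂ B (b + 1))ᶜ :=
        (IsClosed.union hc1 hc2).isOpen_compl
      obtain ⟨O, hO, hzO, hOs⟩ := hZ z _ hopen (by
        intro h
        rcases h with h | h
        · exact ha.2 h
        · exact hb.2 h)
      have key : ∀ w ∈ iter (fun B => d₁ B ∪ d₂ B) B β ∩ O, w ∈ iter d₁ B a ∧ w ∈ iter d₂ B b := by
        rintro w ⟨hw, hwO⟩
        have hwB : w ∈ B := hDB B β hw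
        have hwc := hOs hwO
        have hw1 : w ∉ iter d₁ B (a + 1) := fun h => hwc (Or.inl h)
        have hw2 : w ∉ iter d₂ B (b + 1) := fun h => hwc (Or.inr h)
        obtain ⟨a', ha'a, ha'⟩ := exists_Rk_UN hIT d₁ h₁.mono h₁.le B w hwB _ hw1
        obtain ⟨b', hb'b, hb'⟩ := exists_Rk_UN hIT d₂ h₂.mono h₂.le B w hwB _ hw2
        have ha'a : a' ≤ a := Order.lt_add_one_iff.mp ha'a
        have hb'b : b' ≤ b := Order.lt_add_one_iff.mp hb'b
        have hβ : β ≤ N a' b' := ih w a' b' hw ha' hb'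
        have haa : a' = a := by
          rcases ha'a.lt_or_eq with hlt | heq
          · exfalso
            have : N a' b' < N a b := lt_of_lt_of_le (hN1 a' a b' hlt) (hNle2 a b' b hb'b)
            rw [← h] at this
            exact absurd hβ (not_le.mpr this)
          · exact heq
        have hbb : b' = b := by
          rcases hb'b.lt_or_eq with hlt | heq
          · exfalso
            have : N a' b' < N a b := lt_of_lt_of_le (hN2 a' b' b hlt) (hNle1 a' a b ha'a)
            rw [← h] at this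
            exact absurd hβ (not_le.mpr this)
          · exact heq
        rw [← haa, ← hbb]
        exact ⟨ha'.1, hb'.1⟩
      have hzD : z ∈ d₁ (iter (fun B => d₁ B ∪ d₂ B) B β) ∪ d₂ (iter (fun B => d₁ B ∪ d₂ B) B β) := by
        have h3 := hDs B β
        have h4 : z ∈ iter (fun B => d₁ B ∪ d₂ B) B (β + 1) := by simpa using hz
        rw [h3] at h4
        exact h4
      rcases hzD with h3 | h3
      · apply ha.2
        rw [h1s]
        have h4 : z ∈ d₁ (iter (fun B => d₁ B ∪ d₂ B) B β ∩ O) := by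
          rw [h₁.loc O _ hO]; exact ⟨h3, hzO⟩
        exact h₁.mono _ _ (fun w hw => (key w hw).1) h4
      · apply hb.2
        rw [h2s]
        have h4 : z ∈ d₂ (iter (fun B => d₁ B ∪ d₂ B) B β ∩ O) := by
          rw [h₂.loc O _ hO]; exact ⟨h3, hzO⟩
        exact h₂.mono _ _ (fun w hw => (key w hw).2) h4
    exact Order.add_one_le_iff.mpr hlt
  | limit β hβ ih =>
    intro z a b hz ha hb
    refine (hβ.le_iff_forall_le).mpr ?_
    intro γ hγ
    exact ih γ hγ z a b (hDa B γ β hγ.le hz) ha hb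

private theorem UN_of (hIT : StIT) (hIL : StIL) : StUN := by
  intro X τ hZ d₁ d₂ h₁ h₂
  refine ⟨IsDer_union_UN τ d₁ d₂ h₁ h₂, ?_⟩
  intro B x hB
  have hD := IsDer_union_UN τ d₁ d₂ h₁ h₂
  obtain ⟨N, hN1, hN2, hN3⟩ := NS_UN
  apply Subset.antisymm
  · intro y hy
    by_contra hcon
    have hy1 : y ∉ iter d₁ B (ω ^ x) := fun h => hcon (Or.inl h)
    have hy2 : y ∉ iter d₂ B (ω ^ x) := fun h => hcon (Or.inr h)
    obtain ⟨-, -, -, -, -, hDB, -, -, -, -⟩ := hIT X (fun B => d₁ B ∪ d₂ B) hD.mono hD.le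
    have hyB : y ∈ B := hDB B _ hy
    obtain ⟨a, hax, ha⟩ := exists_Rk_UN hIT d₁ h₁.mono h₁.le B y hyB _ hy1
    obtain ⟨b, hbx, hb⟩ := exists_Rk_UN hIT d₂ h₂.mono h₂.le B y hyB _ hy2
    exact absurd (core_UN hIT hIL τ hZ N hN1 hN2 d₁ d₂ h₁ h₂ B hB (ω ^ x) y a b hy ha hb)
      (not_le.mpr (hN3 x a b hax hbx))
  · obtain ⟨-, -, -, -, -, -, -, -, -, hlast⟩ := hIT X (fun B => d₁ B ∪ d₂ B) hD.mono hD.le
    apply union_subset
    · exact hlast d₁ (fun B => subset_union_left) B _
    · exact hlast d₂ (fun B => subset_union_right) B _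

theorem hUN : StIT → StIL → StUN := UN_of

end Pool.Agent.Helper24.WH

end

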