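import Pool.Agent.Helper24.WH.St2

/-! Modules of project WH / WL merged into one file to shorten the build. -/

section

set_option autoImplicit false

namespace Pool.Agent.Helper24.WH

open Set TopologicalSpace Ordinal Topology

/-- finite basis property for reverse inclusion -/
private lemma fb_CT {X : Type} {𝓕 : Set (Set X)}
    (hw : ∀ f : ℕ → Set X, (∀ i, f i ∈ 𝓕) → ∃ i j, i < j ∧ f j ⊆ f i)
    (𝓐 : Set (Set X)) (hA : 𝓐 ⊆ 𝓕) :
    ∃ 𝓑 : Set (Set X), 𝓑.Finite ∧ 𝓑 ⊆ 𝓐 ∧ ∀ F ∈ 𝓐, ∃ G ∈ 𝓑, F ⊆ G := by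
  by_contra hcon
  have h : ∀ s : Finset (Set X), (∀ x ∈ s, x ∈ 𝓐) → ∃ y, y ∈ 𝓐 ∧ ∀ x ∈ s, ¬ y ⊆ x := by
    intro s hs
    by_contra h2
    apply hcon
    refine ⟨↑s, s.finite_toSet, hs, ?_⟩
    intro F hF
    by_contra h3
    apply h2
    refine ⟨F, hF, ?_⟩
    intro x hx hFx
    exact h3 ⟨x, hx, hFx⟩
  obtain ⟨f, hf1, hf2⟩ := exists_seq_of_forall_finset_exists (fun x => x ∈ 𝓐)
    (fun x y => ¬ y ⊆ x) h
  obtain ⟨i, j, hij, hsub⟩ := hw f fun i => hA (hf1 i)
  exact hf2 i j hij hsub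

/-- a family of closed sets of a second countable space, well quasi ordered by reverse inclusion,
is countable -/
theorem hCT : StCT := by
  intro X τ hτ 𝓕 hcl hw
  letI := τ
  haveI := hτ
  have hB := isBasis_countableBasis X
  -- the finite sets of minimal elements
  have h1 : ∀ b : Set X, ∃ 𝓑 : Set (Set X), 𝓑.Finite ∧ 𝓑 ⊆ {F | F ∈ 𝓕 ∧ Disjoint b F} ∧
      ∀ F ∈ {F | F ∈ 𝓕 ∧ Disjoint b F}, ∃ G ∈ 𝓑, F ⊆ G :=
    fun b => fb_CT hw _ fun F hF => hF.1
  choose M hMf hMs hMe using h1
  let MM : Set (Set X) := ⋃ b ∈ countableBasis X, M b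
  have hMM : MM.Countable :=
    (countable_countableBasis X).biUnion fun b _ => (hMf b).countable
  have hMMF : MM ⊆ 𝓕 := by
    intro G hG
    simp only [MM, mem_iUnion] at hG
    obtain ⟨b, _, hb⟩ := hG
    exact (hMs b hb).1
  have h2 : ∀ F : Set X, ∃ 𝓑 : Set (Set X), 𝓑.Finite ∧ 𝓑 ⊆ {G | G ∈ MM ∧ ¬ F ⊆ G} ∧
      ∀ G ∈ {G | G ∈ MM ∧ ¬ F ⊆ G}, ∃ W ∈ 𝓑, G ⊆ W :=
    fun F => fb_CT hw _ fun G hG => hMMF hG.1
  choose N hNf hNs hNe using h2
  -- `F` is the intersection of the members of `MM` containing it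
  have h3 : ∀ F ∈ 𝓕, ∀ x, x ∉ F → ∃ G ∈ MM, F ⊆ G ∧ x ∉ G := by
    intro F hF x hx
    have ho : IsOpen Fᶜ := (hcl F hF).isOpen_compl
    obtain ⟨b, hb, hxb, hbF⟩ := hB.exists_subset_of_mem_open (a := x) hx ho
    have hd : Disjoint b F := Set.disjoint_left.2 fun y hy hyF => hbF hy hyF
    obtain ⟨G, hG, hFG⟩ := hMe b F ⟨hF, hd⟩
    refine ⟨G, ?_, hFG, ?_⟩
    · simp only [MM, mem_iUnion]
      exact ⟨b, hb, hG⟩
    · exact Set.disjoint_left.1 (hMs b hG).2 hxb
  have h4 : ∀ F ∈ 𝓕, ∀ F' ∈ 𝓕, N F = N F' → F' ⊆ F := by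
    intro F hF F' hF' hN x hx
    by_contra hxF
    obtain ⟨G, hG, hFG, hxG⟩ := h3 F hF x hxF
    have h5 : ¬ F' ⊆ G := fun h => hxG (h hx)
    obtain ⟨W, hW, hGW⟩ := hNe F' G ⟨hG, h5⟩
    rw [← hN] at hW
    exact (hNs F hW).2 (hFG.trans hGW)
  have h6 : {t : Set (Set X) | t.Finite ∧ t ⊆ MM}.Countable := countable_setOf_finite_subset hMM
  refine MapsTo.countable_of_injOn (f := N) (t := {t : Set (Set X) | t.Finite ∧ t ⊆ MM})
    ?_ ?_ h6
  · intro F _
    exact ⟨hNf F, fun G hG => (hNs F hG).1⟩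
  · intro F hF F' hF' hN
    exact Subset.antisymm (h4 F' hF' F hF hN.symm) (h4 F hF F' hF' hN)

end Pool.Agent.Helper24.WH

end

section

/-!
# PROJECT WH (MP_76577a_lc), module EC: monotone families of topologies are eventually constant
-/

set_option autoImplicit false

namespace Pool.Agent.Helper24.WH

open Set TopologicalSpace Ordinal Topology

theorem hEC : StEC := by
  intro X τ hτ
  have hb : BddAbove (Set.range fun v : ℕ → TopologicalSpace X => sInf {i : Ordinal.{0} | τ i = v}) :=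
    Ordinal.bddAbove_of_small
  obtain ⟨i₀, hi₀⟩ := hb
  refine ⟨i₀, fun i hi => ?_⟩
  have hne : ({j : Ordinal.{0} | τ j = τ i}).Nonempty := ⟨i, rfl⟩
  have hj : τ (sInf {j : Ordinal.{0} | τ j = τ i}) = τ i := csInf_mem hne
  have hle : sInf {j : Ordinal.{0} | τ j = τ i} ≤ i₀ := hi₀ ⟨τ i, rfl⟩
  funext m
  refine le_antisymm (hτ i₀ i hi m) ?_
  have h := hτ _ i₀ hle m
  rw [hj] at h
  exact h

end Pool.Agent.Helper24.WH

end

section

/-!
# PROJECT WH, module GE: the gap embedding is reflexive and transitive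
-/

set_option autoImplicit false

namespace Pool.Agent.Helper24.WH

universe u v

section GE

variable {L : Type u} {A : Type v} {rl : L → L → Prop} {ra : A → A → Prop} {ht : L → ℕ}

private theorem findA_mono_GE {a b : A} (htr : ∀ a b c, ra a b → ra b c → ra a c) (hab : ra a b) :
    ∀ K : Fo L A, Fo.FindA ra b K → Fo.FindA ra a K
  | .nil, h => h
  | .leaf a' rest, h => by
      rcases h with h | h
      · exact Or.inl (htr _ _ _ hab h)
      · exact Or.inr (findA_mono_GE htr hab rest h)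
  | .cons _ kids rest, h => by
      rcases h with h | h
      · exact Or.inl (findA_mono_GE htr hab kids h)
      · exact Or.inr (findA_mono_GE htr hab rest h)

private theorem findA_of_findT_GE {a : A} {l : L} {P : Fo L A → Prop}
    (hP : ∀ K, P K → Fo.FindA ra a K) :
    ∀ K : Fo L A, Fo.FindT rl ht l P K → Fo.FindA ra a K
  | .nil, h => h.elim
  | .leaf _ rest, h => Or.inr (findA_of_findT_GE hP rest h)
  | .cons _ kids rest, h => by
      rcases h with h | h | h
      · exact Or.inl (hP _ h.2)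
      · exact Or.inl (findA_of_findT_GE hP kids h.2)
      · exact Or.inr (findA_of_findT_GE hP rest h)

private theorem findA_emb_GE {a : A} (htr : ∀ a b c, ra a b → ra b c → ra a c) :
    ∀ N K : Fo L A, Fo.FindA ra a N → Fo.Emb rl ra ht N K → Fo.FindA ra a K
  | .nil, _, h, _ => h.elim
  | .leaf _ rest, K, h, he => by
      rcases h with h | h
      · exact findA_mono_GE htr h K he.1
      · exact findA_emb_GE htr rest K h he.2
  | .cons _ kids rest, K, h, he => by
      rcases h with h | h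
      · exact findA_of_findT_GE (fun K' hK' => findA_emb_GE htr kids K' h hK') K he.1
      · exact findA_emb_GE htr rest K h he.2

private theorem findT_mono_GE {l l' : L} {P Q : Fo L A → Prop}
    (htr : ∀ a b c, rl a b → rl b c → rl a c) (hht : ∀ a b, rl a b → ht a = ht b)
    (hll : rl l l') (hPQ : ∀ K, Q K → P K) :
    ∀ K : Fo L A, Fo.FindT rl ht l' Q K → Fo.FindT rl ht l P K
  | .nil, h => h.elim
  | .leaf _ rest, h => findT_mono_GE htr hht hll hPQ rest h
  | .cons _ kids rest, h => by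
      rcases h with h | h | h
      · exact Or.inl ⟨htr _ _ _ hll h.1, hPQ _ h.2⟩
      · refine Or.inr (Or.inl ⟨?_, findT_mono_GE htr hht hll hPQ kids h.2⟩)
        rw [hht _ _ hll]
        exact h.1
      · exact Or.inr (Or.inr (findT_mono_GE htr hht hll hPQ rest h))

private theorem findT_skip_GE {l l' : L} {P Q : Fo L A → Prop}
    (hht : ∀ a b, rl a b → ht a = ht b) (hle : ht l' ≤ ht l)
    (hPQ : ∀ K, Q K → Fo.FindT rl ht l P K) :
    ∀ K : Fo L A, Fo.FindT rl ht l' Q K → Fo.FindT rl ht l P K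
  | .nil, h => h.elim
  | .leaf _ rest, h => findT_skip_GE hht hle hPQ rest h
  | .cons _ kids rest, h => by
      rcases h with h | h | h
      · refine Or.inr (Or.inl ⟨?_, hPQ _ h.2⟩)
        rw [← hht _ _ h.1]
        exact hle
      · exact Or.inr (Or.inl ⟨le_trans h.1 hle, findT_skip_GE hht hle hPQ kids h.2⟩)
      · exact Or.inr (Or.inr (findT_skip_GE hht hle hPQ rest h))

private theorem findT_emb_GE {l : L} {P : Fo L A → Prop}
    (htr : ∀ a b c, rl a b → rl b c → rl a c) (hht : ∀ a b, rl a b → ht a = ht b)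
    (hP : ∀ N K, P N → Fo.Emb rl ra ht N K → P K) :
    ∀ N K : Fo L A, Fo.FindT rl ht l P N → Fo.Emb rl ra ht N K → Fo.FindT rl ht l P K
  | .nil, _, h, _ => h.elim
  | .leaf _ rest, K, h, he => findT_emb_GE htr hht hP rest K h he.2
  | .cons _ kids rest, K, h, he => by
      rcases h with h | h | h
      · exact findT_mono_GE htr hht h.1 (fun K' hK' => hP _ _ h.2 hK') K he.1
      · exact findT_skip_GE hht h.1
          (fun K' hK' => findT_emb_GE htr hht hP kids K' h.2 hK') K he.1
      · exact findT_emb_GE htr hht hP rest K h he.2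

private theorem emb_trans_GE (htl : ∀ a b c, rl a b → rl b c → rl a c)
    (hta : ∀ a b c, ra a b → ra b c → ra a c) (hht : ∀ a b, rl a b → ht a = ht b) :
    ∀ M N K : Fo L A, Fo.Emb rl ra ht M N → Fo.Emb rl ra ht N K → Fo.Emb rl ra ht M K
  | .nil, _, _, _, _ => trivial
  | .leaf _ rest, N, K, h, he =>
      ⟨findA_emb_GE hta N K h.1 he, emb_trans_GE htl hta hht rest N K h.2 he⟩
  | .cons _ kids rest, N, K, h, he =>
      ⟨findT_emb_GE htl hht (fun N' K' h1 h2 => emb_trans_GE htl hta hht kids N' K' h1 h2) N K h.1 he,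
        emb_trans_GE htl hta hht rest N K h.2 he⟩

private theorem emb_leaf_GE (a : A) (N : Fo L A) :
    ∀ M : Fo L A, Fo.Emb rl ra ht M N → Fo.Emb rl ra ht M (.leaf a N)
  | .nil, _ => trivial
  | .leaf _ rest, h => ⟨Or.inr h.1, emb_leaf_GE a N rest h.2⟩
  | .cons _ _ rest, h => ⟨h.1, emb_leaf_GE a N rest h.2⟩

private theorem emb_cons_GE (l : L) (k N : Fo L A) :
    ∀ M : Fo L A, Fo.Emb rl ra ht M N → Fo.Emb rl ra ht M (.cons l k N)
  | .nil, _ => trivial
  | .leaf _ rest, h => ⟨Or.inr h.1, emb_cons_GE l k N rest h.2⟩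
  | .cons _ _ rest, h => ⟨Or.inr (Or.inr h.1), emb_cons_GE l k N rest h.2⟩

private theorem emb_refl_GE (hrl : ∀ a, rl a a) (hra : ∀ a, ra a a) :
    ∀ N : Fo L A, Fo.Emb rl ra ht N N
  | .nil => trivial
  | .leaf a rest => ⟨Or.inl (hra a), emb_leaf_GE a rest rest (emb_refl_GE hrl hra rest)⟩
  | .cons l kids rest =>
      ⟨Or.inl ⟨hrl l, emb_refl_GE hrl hra kids⟩,
        emb_cons_GE l kids rest rest (emb_refl_GE hrl hra rest)⟩

end GE

theorem hGE : StGE.{u, v} := by
  intro L A rl ra ht hrl htl hra hta hht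
  exact ⟨emb_refl_GE hrl hra, fun N₁ N₂ N₃ h1 h2 => emb_trans_GE htl hta hht N₁ N₂ N₃ h1 h2⟩

end Pool.Agent.Helper24.WH

end

section

/-!
# PROJECT WH, module PR: adding countably many closed sets to a Polish topology
-/

set_option autoImplicit false

namespace Pool.Agent.Helper24.WH

open Set TopologicalSpace Ordinal Topology

/-- the refinement of a Polish topology by one closed set is the topology of a disjoint sum -/
private theorem one_PR {X : Type} (τ : TopologicalSpace X) (hτ : @PolishSpace X τ) (F : Set X)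
    (hF : IsClosed[τ] F) : @PolishSpace X (τ ⊓ generateFrom {F}) := by
  classical
  have hs : IsClosed F := hF
  have : PolishSpace F := hs.polishSpace
  let t : Set X := Fᶜ
  have : PolishSpace t := hs.isOpen_compl.polishSpace
  let f : F ⊕ t ≃ X := Equiv.Set.sumCompl F
  have hle : TopologicalSpace.coinduced f instTopologicalSpaceSum ≤ τ := by
    simp only [instTopologicalSpaceSum, coinduced_sup, coinduced_compose, sup_le_iff,
      ← continuous_iff_coinduced_le]
    exact ⟨continuous_subtype_val, continuous_subtype_val⟩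
  have hpol : @PolishSpace X (TopologicalSpace.coinduced f instTopologicalSpaceSum) := by
    rw [← f.induced_symm]
    exact f.symm.polishSpace_induced
  have hopen : IsOpen[TopologicalSpace.coinduced f instTopologicalSpaceSum] F := by
    rw [isOpen_coinduced, isOpen_sum_iff]
    simp [preimage_preimage, f, t]
  have heq : TopologicalSpace.coinduced f instTopologicalSpaceSum = τ ⊓ generateFrom {F} := by
    apply le_antisymm
    · refine le_inf hle ?_
      rw [le_generateFrom_iff_subset_isOpen]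
      intro U hU
      rw [mem_singleton_iff] at hU
      rw [hU]
      exact hopen
    · intro U hU
      have hU' : IsOpen[TopologicalSpace.coinduced f instTopologicalSpaceSum] U := hU
      rw [isOpen_coinduced, isOpen_sum_iff] at hU'
      obtain ⟨h1, h2⟩ := hU'
      obtain ⟨V, hV, hV'⟩ := isOpen_induced_iff.1 h1
      obtain ⟨W, hW, hW'⟩ := isOpen_induced_iff.1 h2
      have hUeq : U = (V ∩ F) ∪ (W ∩ Fᶜ) := by
        ext x
        by_cases hx : x ∈ F
        · have h3 : x ∈ V ↔ x ∈ U := Set.ext_iff.1 hV' ⟨x, hx⟩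
          simp [hx, h3]
        · have h3 : x ∈ W ↔ x ∈ U := Set.ext_iff.1 hW' ⟨x, hx⟩
          simp [hx, h3]
      have hFo : IsOpen[τ ⊓ generateFrom {F}] F :=
        (inf_le_right : τ ⊓ generateFrom {F} ≤ generateFrom {F}) _
          (isOpen_generateFrom_of_mem (mem_singleton F))
      have hin : ∀ V : Set X, IsOpen[τ] V → IsOpen[τ ⊓ generateFrom {F}] V := fun V hV =>
        (inf_le_left : τ ⊓ generateFrom {F} ≤ τ) _ hV
      rw [hUeq]
      exact @IsOpen.union X _ _ (τ ⊓ generateFrom {F})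
        (@IsOpen.inter X (τ ⊓ generateFrom {F}) _ _ (hin V hV) hFo)
        (@IsOpen.inter X (τ ⊓ generateFrom {F}) _ _ (hin W hW) (hin _ hs.isOpen_compl))
  rw [← heq]
  exact hpol

/-- **PR** adding countably many closed sets as open sets to a Polish topology gives a Polish
topology. -/
theorem hPR : StPR := by
  intro X τ hτ 𝓕 hc hcl
  have : Countable 𝓕 := hc.to_subtype
  have heq : τ ⊓ generateFrom 𝓕 = ⨅ i : Option 𝓕, i.elim τ
      (fun F : 𝓕 => τ ⊓ generateFrom {(F : Set X)}) := by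
    apply le_antisymm
    · refine le_iInf ?_
      rw [Option.forall]
      refine ⟨inf_le_left, fun F => le_inf inf_le_left (le_trans inf_le_right ?_)⟩
      exact generateFrom_anti (singleton_subset_iff.2 F.2)
    · refine le_inf (iInf_le _ none) ?_
      rw [le_generateFrom_iff_subset_isOpen]
      intro F hF
      have h1 : (⨅ i : Option 𝓕, i.elim τ (fun F : 𝓕 => τ ⊓ generateFrom {(F : Set X)})) ≤
          τ ⊓ generateFrom {F} := iInf_le (fun i : Option 𝓕 => i.elim τ
            (fun F : 𝓕 => τ ⊓ generateFrom {(F : Set X)})) (some ⟨F, hF⟩)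
      exact (h1.trans inf_le_right) _ (isOpen_generateFrom_of_mem (mem_singleton F))
  rw [heq]
  refine PolishSpace.iInf ⟨none, Option.forall.2 ⟨le_rfl, fun _ => inf_le_left⟩⟩ ?_
  exact Option.forall.2 ⟨hτ, fun F => one_PR τ hτ F (hcl F F.2)⟩

end Pool.Agent.Helper24.WH

end

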