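import Pool.Agent.Helper24.WH.St3

/-! Modules of project WH / WL merged into one file to shorten the build. -/

section

/-!
# WH module EZ: clopen embeddings commute with all operators
-/

set_option autoImplicit false

namespace Pool.Agent.Helper24.WH

open Set TopologicalSpace Ordinal Topology

private lemma closure_EZ {X Y : Type} {τX : TopologicalSpace X} {τY : TopologicalSpace Y} {e : X → Y}
    (h : CE τX τY e) (A : Set X) : closure[τY] (e '' A) = e '' closure[τX] A := by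
  have hce : @IsClosedEmbedding X Y τX τY e := by
    let := τX
    let := τY
    exact ⟨⟨⟨h.2.1⟩, h.1⟩, h.2.2.1⟩
  exact hce.closure_image_eq A

private lemma homOp_EZ {X Y : Type} {τX : TopologicalSpace X} {τY : TopologicalSpace Y} {e : X → Y}
    (h : CE τX τY e) (zX : Set X → Set X) (zY : Set Y → Set Y)
    (hz : ∀ W, zY (e '' W) = e '' zX W) (B : Set X) :
    HomOp τY zY (e '' B) = e '' HomOp τX zX B := by
  apply Subset.antisymm
  · rintro y ⟨W, ⟨hWB, hW⟩, hy⟩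
    obtain ⟨x, hx, rfl⟩ := hWB hy
    have hWe : e '' (e ⁻¹' W) = W := by
      rw [image_preimage_eq_inter_range]
      exact inter_eq_left.mpr (hWB.trans (image_subset_range _ _))
    refine ⟨x, ⟨e ⁻¹' W, ⟨?_, ?_⟩, hy⟩, rfl⟩
    · intro x' hx'
      obtain ⟨x'', hx'', he⟩ := hWB hx'
      rw [← h.1 he]
      exact hx''
    · intro x' hx'
      have h1 : e x' ∈ closure[τY] (zY (e '' (e ⁻¹' W))) := by
        rw [hWe]
        exact hW hx'
      rw [hz, closure_EZ h] at h1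
      exact (h.1.mem_set_image).mp h1
  · rintro y ⟨x, ⟨W, ⟨hWB, hW⟩, hx⟩, rfl⟩
    refine ⟨e '' W, ⟨image_mono hWB, ?_⟩, mem_image_of_mem e hx⟩
    rw [hz, closure_EZ h]
    exact image_mono hW

private lemma iInter_EZ {X Y : Type} {e : X → Y} (he : Function.Injective e) (F : ℕ → Set X) :
    ⋂ i, e '' F i = e '' ⋂ i, F i :=
  (InjOn.image_iInter_eq he.injOn).symm

private lemma zTr_EZ {X Y A : Type} {e : X → Y} (he : Function.Injective e)
    (hX : A → Set X → Set X) (hY : A → Set Y → Set Y) (h : ∀ U B, hY U (e '' B) = e '' hX U B)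
    (t : Tr A) (B : Set X) : ZTr hY t (e '' B) = e '' ZTr hX t B := by
  induction t with
  | leaf U => exact h U B
  | node U F ih =>
    change hY U (⋂ i, ZTr hY (F i) (e '' B)) = e '' hX U (⋂ i, ZTr hX (F i) B)
    rw [iInter_congr ih, iInter_EZ he, h]

private lemma iter_EZ {X Y : Type} {e : X → Y} (he : Function.Injective e)
    (dX : Set X → Set X) (dY : Set Y → Set Y) (h : ∀ B, dY (e '' B) = e '' dX B) (B : Set X)
    (α : Ordinal.{0}) : iter dY (e '' B) α = e '' iter dX B α := by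
  induction α using WellFoundedLT.induction with
  | ind α ih =>
    rw [iter, iter]
    apply Subset.antisymm
    · rintro y ⟨⟨x, hx, rfl⟩, hy⟩
      refine ⟨x, ⟨hx, ?_⟩, rfl⟩
      refine mem_iInter.mpr fun β => ?_
      have h1 := mem_iInter.mp hy β
      rw [ih β.1 β.2, h] at h1
      exact (he.mem_set_image).mp h1
    · rintro y ⟨x, ⟨hx, hx2⟩, rfl⟩
      refine ⟨mem_image_of_mem e hx, mem_iInter.mpr fun β => ?_⟩
      rw [ih β.1 β.2, h]
      exact mem_image_of_mem e (mem_iInter.mp hx2 β)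

private lemma z_EZ {X Y S : Type} (τX : ℕ → TopologicalSpace X) (τY : ℕ → TopologicalSpace Y)
    (g : Y → S) (e : X → Y) (h : ∀ m, CE (τX m) (τY m) e) (m : ℕ) :
    ∀ (t : TT S m) (B : Set X), Z τY g m t (e '' B) = e '' Z τX (g ∘ e) m t B := by
  induction m with
  | zero =>
    intro t B
    change e '' B ∩ g ⁻¹' {(t : S)} = e '' (B ∩ (g ∘ e) ⁻¹' {(t : S)})
    rw [preimage_comp, image_inter_preimage]
  | succ m ih =>
    intro t B
    exact zTr_EZ (h 0).1 (fun U => HomOp (τX (m + 1)) (Z τX (g ∘ e) m U))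
      (fun U => HomOp (τY (m + 1)) (Z τY g m U))
      (fun U B => homOp_EZ (h (m + 1)) _ _ (ih U) B) t B

/-- Module EZ. -/
theorem hEZ : StEZ := by
  intro X Y S τX τY g e h m
  have hhom : ∀ (U : TT S m) (B : Set X),
      hom τY g m U (e '' B) = e '' hom τX (g ∘ e) m U B :=
    fun U B => homOp_EZ (h (m + 1)) _ _ (z_EZ τX τY g e h m U) B
  refine ⟨z_EZ τX τY g e h m, hhom, fun L B α => ?_⟩
  refine iter_EZ (h 0).1 _ _ (fun B => ?_) B α
  change ⋂ i, hom τY g m (L i) (e '' B) = e '' ⋂ i, hom τX (g ∘ e) m (L i) B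
  rw [iInter_congr fun i => hhom (L i) B, iInter_EZ (h 0).1]

end Pool.Agent.Helper24.WH

end

section

/-!
# PROJECT WH (MP_76577a_lc), module HA: additivity of `HomOp` on finite unions of closed sets (3.4)
-/

set_option autoImplicit false

namespace Pool.Agent.Helper24.WH

open Set TopologicalSpace Ordinal Topology

private theorem sub_cl_HA {X : Type} (τ : TopologicalSpace X) (z : Set X → Set X)
    (hz : ∀ A B, A ⊆ B → z A ⊆ z B) (B : Set X) :
    HomOp τ z B ⊆ closure[τ] (z (HomOp τ z B)) := by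
  rintro x ⟨W, ⟨hWB, hW⟩, hx⟩
  have h1 : W ⊆ HomOp τ z B := fun y hy => ⟨W, ⟨hWB, hW⟩, hy⟩
  exact Set.mem_of_subset_of_mem (@closure_mono X τ _ _ (hz _ _ h1)) (hW hx)

private theorem le_HA {X : Type} (τ : TopologicalSpace X) (z : Set X → Set X) (B : Set X) :
    HomOp τ z B ⊆ B := by
  rintro x ⟨W, ⟨hWB, hW⟩, hx⟩
  exact hWB hx

private theorem mono_HA {X : Type} (τ : TopologicalSpace X) (z : Set X → Set X) (A B : Set X)
    (h : A ⊆ B) : HomOp τ z A ⊆ HomOp τ z B := by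
  rintro x ⟨W, ⟨hWB, hW⟩, hx⟩
  exact ⟨W, ⟨hWB.trans h, hW⟩, hx⟩

/-- membership in the closure by clopen neighbourhoods -/
private theorem mem_cl_HA {X : Type} (τ : TopologicalSpace X) (hzd : ZD τ) (A : Set X) (x : X)
    (h : ∀ O, Clp τ O → x ∈ O → (O ∩ A).Nonempty) : x ∈ closure[τ] A := by
  rw [@mem_closure_iff X τ]
  intro U hU hx
  obtain ⟨O, hO, hxO, hOU⟩ := hzd x U hU hx
  obtain ⟨y, hyO, hyA⟩ := h O hO hxO
  exact ⟨y, hOU hyO, hyA⟩

private theorem two_HA {X : Type} (τ : TopologicalSpace X) (z : Set X → Set X) (hzd : ZD τ)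
    (hz : MCL τ z) (B₁ B₂ : Set X) (h₁ : IsClosed[τ] B₁) (h₂ : IsClosed[τ] B₂) :
    HomOp τ z (B₁ ∪ B₂) ⊆ HomOp τ z B₁ ∪ HomOp τ z B₂ := by
  set W := HomOp τ z (B₁ ∪ B₂) with hW
  have hWle : W ⊆ B₁ ∪ B₂ := le_HA τ z _
  have hWcl : W ⊆ closure[τ] (z W) := sub_cl_HA τ z hz.mono _
  -- for clopen `O` meeting ..
  have key : ∀ x ∈ W, ∀ O, Clp τ O → x ∈ O → (O ∩ z (W ∩ O)).Nonempty := by
    intro x hx O hO hxO
    have hx' := hWcl hx
    rw [@mem_closure_iff X τ] at hx'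
    obtain ⟨y, hyO, hyz⟩ := hx' O hO.2 hxO
    refine ⟨y, hyO, ?_⟩
    rw [hz.loc O W hO]
    exact ⟨hyz, hyO⟩
  intro x hx
  by_cases hx1 : x ∈ closure[τ] (W \ B₂)
  · left
    refine ⟨closure[τ] (W \ B₂), ⟨?_, ?_⟩, hx1⟩
    · refine @closure_minimal X τ _ _ ?_ h₁
      rintro y ⟨hyW, hyB⟩
      exact (hWle hyW).resolve_right hyB
    · refine @closure_minimal X τ _ _ ?_ (@isClosed_closure X τ _)
      rintro y ⟨hyW, hyB⟩
      refine mem_cl_HA τ hzd _ _ fun O hO hyO => ?_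
      obtain ⟨O', hO', hyO', hOB⟩ := hzd y B₂ᶜ ((@isOpen_compl_iff X _ τ).2 h₂) hyB
      obtain ⟨w, hw1, hw2⟩ := key y hyW (O ∩ O') (@IsClopen.inter X τ _ _ hO hO') ⟨hyO, hyO'⟩
      refine ⟨w, hw1.1, hz.mono _ _ ?_ hw2⟩
      rintro v ⟨hvW, hvO, hvO'⟩
      exact @subset_closure X τ _ _ ⟨hvW, hOB hvO'⟩
  · right
    refine ⟨{y | y ∈ W ∧ ∃ O, Clp τ O ∧ y ∈ O ∧ O ∩ W ⊆ B₂}, ⟨?_, ?_⟩, ?_⟩
    · rintro y ⟨hyW, O, hO, hyO, hOB⟩
      exact hOB ⟨hyO, hyW⟩
    · rintro y ⟨hyW, O, hO, hyO, hOB⟩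
      refine mem_cl_HA τ hzd _ _ fun O' hO' hyO' => ?_
      obtain ⟨w, hw1, hw2⟩ := key y hyW (O ∩ O') (@IsClopen.inter X τ _ _ hO hO') ⟨hyO, hyO'⟩
      refine ⟨w, hw1.2, hz.mono _ _ ?_ hw2⟩
      rintro v ⟨hvW, hvO, hvO'⟩
      exact ⟨hvW, O, hO, hvO, hOB⟩
    · refine ⟨hx, ?_⟩
      have hop : IsOpen[τ] (closure[τ] (W \ B₂))ᶜ :=
        (@isOpen_compl_iff X _ τ).2 (@isClosed_closure X τ _)
      obtain ⟨O, hO, hxO, hOC⟩ := hzd x _ hop hx1
      refine ⟨O, hO, hxO, ?_⟩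
      rintro y ⟨hyO, hyW⟩
      by_contra hyB
      exact hOC hyO (@subset_closure X τ _ _ ⟨hyW, hyB⟩)

theorem hHA : StHA := by
  classical
  intro X τ z hzd hz ι _ B hB
  have : Fintype ι := Fintype.ofFinite ι
  have key : ∀ s : Finset ι, HomOp τ z (⋃ i ∈ s, B i) ⊆ ⋃ i ∈ s, HomOp τ z (B i) := by
    intro s
    induction s using Finset.induction_on with
    | empty =>
      intro x hx
      have := le_HA τ z _ hx
      simp at this
    | insert a s ha ih =>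
      rw [Finset.set_biUnion_insert, Finset.set_biUnion_insert]
      have hcl : IsClosed[τ] (⋃ i ∈ s, B i) :=
        @isClosed_biUnion_finset X ι τ s B (fun i _ => hB i)
      exact (two_HA τ z hzd hz _ _ (hB a) hcl).trans (union_subset_union_right _ ih)
  refine Subset.antisymm ?_ ?_
  · have := key Finset.univ
    simpa using this
  · exact iUnion_subset fun i => mono_HA τ z _ _ (subset_iUnion B i)

end Pool.Agent.Helper24.WH

end

section

set_option autoImplicit false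

namespace Pool.Agent.Helper24.WH

open Set TopologicalSpace Ordinal Topology

private theorem sub_HO {X : Type} (τ : TopologicalSpace X) (z : Set X → Set X) (B : Set X) :
    HomOp τ z B ⊆ B := by
  rintro x ⟨W, ⟨hW, -⟩, hx⟩
  exact hW hx

private theorem mem_HO {X : Type} (τ : TopologicalSpace X) (z : Set X → Set X) {W B : Set X}
    (h1 : W ⊆ B) (h2 : W ⊆ closure[τ] (z W)) : W ⊆ HomOp τ z B :=
  fun _ hx => ⟨W, ⟨h1, h2⟩, hx⟩

private theorem cl_HO {X : Type} (τ : TopologicalSpace X) (z : Set X → Set X)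
    (hz : ∀ A B, A ⊆ B → z A ⊆ z B) (B : Set X) :
    HomOp τ z B ⊆ closure[τ] (z (HomOp τ z B)) := by
  rintro x ⟨W, ⟨hW, hW2⟩, hx⟩
  have h1 : W ⊆ HomOp τ z B := mem_HO τ z hW hW2
  exact @closure_mono X τ _ _ (hz _ _ h1) _ (hW2 hx)

theorem hHO : StHO := by
  intro X τ z hz
  refine ⟨sub_HO τ z, ?_, cl_HO τ z hz, fun W B => mem_HO τ z, ?_, ?_, ?_, ?_⟩
  · rintro A B hAB x ⟨W, ⟨hW, hW2⟩, hx⟩
    exact ⟨W, ⟨hW.trans hAB, hW2⟩, hx⟩
  · intro B hB
    have h1 : closure[τ] (HomOp τ z B) ⊆ HomOp τ z B := by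
      refine mem_HO τ z ?_ ?_
      · exact @closure_minimal X τ _ _ (sub_HO τ z B) hB
      · refine (@closure_minimal X τ _ _ (cl_HO τ z hz B) (@isClosed_closure X τ _)).trans ?_
        exact @closure_mono X τ _ _ (hz _ _ (@subset_closure X τ _))
    exact @isClosed_of_closure_subset X τ _ h1
  · intro B
    exact Set.Subset.antisymm (sub_HO τ z _) (mem_HO τ z subset_rfl (cl_HO τ z hz B))
  · intro hloc O B hO
    refine Set.Subset.antisymm ?_ ?_
    · rintro x ⟨W, ⟨hW, hW2⟩, hx⟩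
      exact ⟨⟨W, ⟨hW.trans inter_subset_left, hW2⟩, hx⟩, (hW hx).2⟩
    · refine mem_HO τ z (inter_subset_inter_left _ (sub_HO τ z B)) ?_
      rintro x ⟨hx, hxO⟩
      have h1 := cl_HO τ z hz B hx
      have hop : IsOpen[τ] O := @IsClopen.isOpen X τ _ hO
      have h2 : x ∈ closure[τ] (z (HomOp τ z B) ∩ O) := by
        rw [inter_comm]
        exact @IsOpen.inter_closure X τ _ _ hop _ ⟨hxO, h1⟩
      rwa [← hloc O _ hO] at h2
  · intro τ' z' hτ hz' B
    rintro x ⟨W, ⟨hW, hW2⟩, hx⟩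
    refine ⟨W, ⟨hW, ?_⟩, hx⟩
    exact (hW2.trans (@closure_mono X τ' _ _ (hz' W))).trans (closure.mono hτ)

end Pool.Agent.Helper24.WH

end

section

/-! WH module HU (helper58): finite unions of operators. -/

set_option autoImplicit false

namespace Pool.Agent.Helper24.WH

open Set TopologicalSpace Topology

variable {X : Type}

private theorem le_HU (τ : TopologicalSpace X) (z : Set X → Set X) (B : Set X) : HomOp τ z B ⊆ B := by
  rintro x ⟨W, hW, hx⟩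
  exact hW.1 hx

private theorem max_HU (τ : TopologicalSpace X) (z : Set X → Set X) (W B : Set X) (h : W ⊆ B)
    (h2 : W ⊆ closure[τ] (z W)) : W ⊆ HomOp τ z B := fun _ hx => ⟨W, ⟨h, h2⟩, hx⟩

private theorem mono_HU (τ : TopologicalSpace X) (z : Set X → Set X) (A B : Set X) (h : A ⊆ B) :
    HomOp τ z A ⊆ HomOp τ z B := by
  rintro x ⟨W, hW, hx⟩
  exact ⟨W, ⟨hW.1.trans h, hW.2⟩, hx⟩

private theorem cl_HU (τ : TopologicalSpace X) (z : Set X → Set X) (hz : ∀ A B, A ⊆ B → z A ⊆ z B)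
    (B : Set X) : HomOp τ z B ⊆ closure[τ] (z (HomOp τ z B)) := by
  rintro x ⟨W, hW, hx⟩
  have h1 : W ⊆ HomOp τ z B := max_HU τ z W B hW.1 hW.2
  letI := τ
  exact closure_mono (hz _ _ h1) (hW.2 hx)

private theorem closed_HU (τ : TopologicalSpace X) (z : Set X → Set X)
    (hz : ∀ A B, A ⊆ B → z A ⊆ z B) (B : Set X) (hB : IsClosed[τ] B) :
    IsClosed[τ] (HomOp τ z B) := by
  letI := τ
  have h1 : closure (HomOp τ z B) ⊆ B := closure_minimal (le_HU τ z B) hB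
  have h2 : closure (HomOp τ z B) ⊆ closure (z (closure (HomOp τ z B))) := by
    have h3 : closure (HomOp τ z B) ⊆ closure (z (HomOp τ z B)) :=
      closure_minimal (cl_HU τ z hz B) isClosed_closure
    exact h3.trans (closure_mono (hz _ _ subset_closure))
  have h4 : closure (HomOp τ z B) ⊆ HomOp τ z B := max_HU τ z _ B h1 h2
  exact closure_subset_iff_isClosed.mp h4

theorem hHU : StHU := by
  intro X τ z hzd hz ι hι zi hzi hun B hB
  letI := τ
  apply Subset.antisymm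
  · intro x hx
    by_contra hxn
    have hWc : IsClosed (HomOp τ z B) := closed_HU τ z hz.mono B hB
    have hUc : IsClosed (⋃ i, HomOp τ (zi i) B) :=
      isClosed_iUnion_of_finite (fun i => closed_HU τ (zi i) (hzi i).mono B hB)
    obtain ⟨O, hO, hxO, hOsub⟩ := hzd x (⋃ i, HomOp τ (zi i) B)ᶜ hUc.isOpen_compl hxn
    have hOcl : IsClopen O := hO
    -- the sets
    have hempty : ∀ i, ∀ V, V ⊆ HomOp τ z B ∩ O → HomOp τ (zi i) V = ∅ := by
      intro i V hV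
      apply eq_empty_of_forall_notMem
      intro y hy
      have h1 : y ∈ V := le_HU τ (zi i) V hy
      have h2 : y ∈ O := (hV h1).2
      have h3 : V ⊆ B := fun w hw => le_HU τ z B (hV hw).1
      have h4 : y ∈ HomOp τ (zi i) B := mono_HU τ (zi i) V B h3 hy
      exact hOsub h2 (mem_iUnion.mpr ⟨i, h4⟩)
    have key : ∀ s : Set ι, s.Finite → ∃ P, IsClopen P ∧ (HomOp τ z B ∩ O ∩ P).Nonempty ∧
        ∀ i ∈ s, zi i (HomOp τ z B ∩ O ∩ P) = ∅ := by
      intro s hs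
      induction s, hs using Set.Finite.induction_on with
      | empty =>
        exact ⟨univ, isClopen_univ, ⟨x, ⟨hx, hxO⟩, mem_univ x⟩, fun i hi => absurd hi (notMem_empty i)⟩
      | @insert j s hj hs ih =>
        obtain ⟨P, hP, hne, hPs⟩ := ih
        have h1 : ¬ (HomOp τ z B ∩ O ∩ P ⊆ closure (zi j (HomOp τ z B ∩ O ∩ P))) := by
          intro h2
          have h3 := max_HU τ (zi j) _ _ (Subset.refl _) h2
          rw [hempty j _ inter_subset_left] at h3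
          obtain ⟨y, hy⟩ := hne
          exact h3 hy
        rw [not_subset] at h1
        obtain ⟨y, hy, hyn⟩ := h1
        obtain ⟨Q, hQ, hyQ, hQsub⟩ := hzd y (closure (zi j (HomOp τ z B ∩ O ∩ P)))ᶜ
          isClosed_closure.isOpen_compl hyn
        have hQc : IsClopen Q := hQ
        refine ⟨P ∩ Q, hP.inter hQc, ⟨y, hy.1, hy.2, hyQ⟩, ?_⟩
        have h5 : HomOp τ z B ∩ O ∩ (P ∩ Q) = HomOp τ z B ∩ O ∩ P ∩ Q := by
          rw [inter_assoc (HomOp τ z B ∩ O) P Q]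
        intro i hi
        rw [h5, (hzi i).loc Q _ hQ]
        rcases hi with hi | hi
        · subst hi
          apply eq_empty_of_forall_notMem
          rintro w ⟨hw1, hw2⟩
          exact hQsub hw2 (subset_closure hw1)
        · rw [hPs i hi, empty_inter]
    obtain ⟨P, hP, hne, hPs⟩ := key univ (toFinite univ)
    have h6 : z (HomOp τ z B ∩ O ∩ P) = ∅ := by
      rw [hun _ ((hWc.inter hOcl.isClosed).inter hP.isClosed)]
      apply eq_empty_of_forall_notMem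
      intro y hy
      obtain ⟨i, hi⟩ := mem_iUnion.mp hy
      rw [hPs i (mem_univ i)] at hi
      exact hi
    obtain ⟨y, ⟨hy1, hy2⟩, hy3⟩ := hne
    have h7 : z (HomOp τ z B ∩ (O ∩ P)) = z (HomOp τ z B) ∩ (O ∩ P) :=
      hz.loc (O ∩ P) _ (hOcl.inter hP)
    rw [← inter_assoc, h6] at h7
    have h8 : y ∈ closure (z (HomOp τ z B)) := cl_HU τ z hz.mono B hy1
    rw [mem_closure_iff] at h8
    obtain ⟨w, hw1, hw2⟩ := h8 (O ∩ P) (hOcl.inter hP).isOpen ⟨hy2, hy3⟩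
    have h9 : w ∈ z (HomOp τ z B) ∩ (O ∩ P) := ⟨hw2, hw1⟩
    rw [← h7] at h9
    exact h9
  · intro x hx
    obtain ⟨i, hi⟩ := mem_iUnion.mp hx
    have hVc : IsClosed (HomOp τ (zi i) B) := closed_HU τ (zi i) (hzi i).mono B hB
    refine max_HU τ z _ B (le_HU τ (zi i) B) ?_ hi
    refine (cl_HU τ (zi i) (hzi i).mono B).trans (closure_mono ?_)
    rw [hun _ hVc]
    exact subset_iUnion (fun i => zi i (HomOp τ (zi _) B)) i

end Pool.Agent.Helper24.WH

end

section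

set_option autoImplicit false

namespace Pool.Agent.Helper24.WH

open Set TopologicalSpace Ordinal Topology

private theorem clp_prod_PT {X Y : Type} (τ : TopologicalSpace X) (τ' : TopologicalSpace Y)
    (A : Set X) (B : Set Y) (hA : Clp τ A) (hB : Clp τ' B) :
    Clp (@instTopologicalSpaceProd X Y τ τ') (A ×ˢ B) := by
  letI := τ
  letI := τ'
  exact IsClopen.prod hA hB

private theorem zd_prod_PT {X Y : Type} (τ : TopologicalSpace X) (τ' : TopologicalSpace Y)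
    (h : ZD τ) (h' : ZD τ') : ZD (@instTopologicalSpaceProd X Y τ τ') := by
  rintro ⟨x, y⟩ U hU hxU
  letI := τ
  letI := τ'
  obtain ⟨u, v, hu, hv, hxu, hyv, huv⟩ := isOpen_prod_iff.mp hU x y hxU
  obtain ⟨O, hO, hxO, hOu⟩ := h x u hu hxu
  obtain ⟨O', hO', hyO, hOv⟩ := h' y v hv hyv
  exact ⟨O ×ˢ O', clp_prod_PT τ τ' O O' hO hO', ⟨hxO, hyO⟩, (Set.prod_mono hOu hOv).trans huv⟩

theorem hPT : StPT := by
  intro X Y S S' τ τ' g g' hτ hτ' hg hg'
  refine ⟨⟨?_, ?_⟩, ?_⟩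
  · intro m
    exact inf_le_inf (induced_mono (hτ.mono m)) (induced_mono (hτ'.mono m))
  · intro m
    exact zd_prod_PT _ _ (hτ.zd m) (hτ'.zd m)
  · rintro ⟨s, s'⟩
    have h : Prod.map g g' ⁻¹' {(s, s')} = (g ⁻¹' {s}) ×ˢ (g' ⁻¹' {s'}) := by
      ext ⟨x, y⟩
      simp [Prod.map]
    rw [h]
    exact clp_prod_PT _ _ _ _ (hg s) (hg' s')

end Pool.Agent.Helper24.WH

end

section

/-!
# PROJECT WH (MP_76577a_lc), module PZ: exact product formula (3.7)
-/

set_option autoImplicit false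

namespace Pool.Agent.Helper24.WH

open Set TopologicalSpace Ordinal Topology

private theorem tree_PZ {X Y A A₁ A₂ : Type} (f₁ : A → A₁) (f₂ : A → A₂)
    (h : A → Set (X × Y) → Set (X × Y)) (h₁ : A₁ → Set X → Set X) (h₂ : A₂ → Set Y → Set Y)
    (hh : ∀ U P Q, h U (P ×ˢ Q) = h₁ (f₁ U) P ×ˢ h₂ (f₂ U) Q) (P : Set X) (Q : Set Y) :
    ∀ t : Tr A, ZTr h t (P ×ˢ Q) = ZTr h₁ (Tr.map f₁ t) P ×ˢ ZTr h₂ (Tr.map f₂ t) Q := by
  intro t
  induction t with
  | leaf U =>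
    simp only [ZTr, Tr.map]
    exact hh U P Q
  | node U F ih =>
    simp only [ZTr, Tr.map]
    rw [← hh]
    congr 1
    ext ⟨x, y⟩
    simp only [ih, mem_iInter, mem_prod]
    exact forall_and

private theorem homOp_PZ {X Y : Type} (τ : TopologicalSpace X) (τ' : TopologicalSpace Y)
    (z : Set (X × Y) → Set (X × Y)) (z₁ : Set X → Set X) (z₂ : Set Y → Set Y)
    (hz : ∀ P Q, P ⊆ Q → z P ⊆ z Q) (hz₁ : ∀ P Q, P ⊆ Q → z₁ P ⊆ z₁ Q)
    (hz₂ : ∀ P Q, P ⊆ Q → z₂ P ⊆ z₂ Q) (h : ∀ P Q, z (P ×ˢ Q) = z₁ P ×ˢ z₂ Q)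
    (P : Set X) (Q : Set Y) :
    HomOp (@instTopologicalSpaceProd X Y τ τ') z (P ×ˢ Q) = HomOp τ z₁ P ×ˢ HomOp τ' z₂ Q := by
  have hcl : ∀ (T : Type) (σ : TopologicalSpace T) (y : Set T → Set T) (_ : ∀ P Q, P ⊆ Q → y P ⊆ y Q)
      (B : Set T), HomOp σ y B ⊆ closure[σ] (y (HomOp σ y B)) := by
    intro T σ y hy B
    rintro x ⟨W, ⟨hWB, hW⟩, hx⟩
    have h1 : W ⊆ HomOp σ y B := fun v hv => ⟨W, ⟨hWB, hW⟩, hv⟩
    exact Set.mem_of_subset_of_mem (@closure_mono T σ _ _ (hy _ _ h1)) (hW hx)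
  have hle : ∀ (T : Type) (σ : TopologicalSpace T) (y : Set T → Set T) (B : Set T),
      HomOp σ y B ⊆ B := by
    rintro T σ y B x ⟨W, ⟨hWB, hW⟩, hx⟩
    exact hWB hx
  refine Subset.antisymm ?_ ?_
  · rintro ⟨x, y⟩ ⟨W, ⟨hWB, hW⟩, hxy⟩
    have hsub : W ⊆ (Prod.fst '' W) ×ˢ (Prod.snd '' W) := fun p hp =>
      ⟨⟨p, hp, rfl⟩, ⟨p, hp, rfl⟩⟩
    have h1 : W ⊆ closure[τ] (z₁ (Prod.fst '' W)) ×ˢ closure[τ'] (z₂ (Prod.snd '' W)) := by
      intro p hp
      have h2 := Set.mem_of_subset_of_mem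
        (@closure_mono _ (@instTopologicalSpaceProd X Y τ τ') _ _ (hz _ _ hsub)) (hW hp)
      rw [h, @closure_prod_eq X Y τ τ'] at h2
      exact h2
    refine ⟨⟨Prod.fst '' W, ⟨?_, ?_⟩, ⟨(x, y), hxy, rfl⟩⟩, ⟨Prod.snd '' W, ⟨?_, ?_⟩, ⟨(x, y), hxy, rfl⟩⟩⟩
    · rintro _ ⟨p, hp, rfl⟩
      exact (hWB hp).1
    · rintro _ ⟨p, hp, rfl⟩
      exact (h1 hp).1
    · rintro _ ⟨p, hp, rfl⟩
      exact (hWB hp).2
    · rintro _ ⟨p, hp, rfl⟩
      exact (h1 hp).2
  · rintro ⟨x, y⟩ ⟨hx, hy⟩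
    refine ⟨HomOp τ z₁ P ×ˢ HomOp τ' z₂ Q, ⟨prod_mono (hle _ _ _ _) (hle _ _ _ _), ?_⟩, ⟨hx, hy⟩⟩
    rw [h, @closure_prod_eq X Y τ τ']
    exact prod_mono (hcl _ _ _ hz₁ _) (hcl _ _ _ hz₂ _)

private theorem iter_PZ {X Y : Type} (d : Set (X × Y) → Set (X × Y)) (d₁ : Set X → Set X)
    (d₂ : Set Y → Set Y) (h : ∀ P Q, d (P ×ˢ Q) = d₁ P ×ˢ d₂ Q) (P : Set X) (Q : Set Y)
    (α : Ordinal.{0}) : iter d (P ×ˢ Q) α = iter d₁ P α ×ˢ iter d₂ Q α := by
  induction α using WellFoundedLT.induction with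
  | ind α ih =>
    rw [iter, iter, iter]
    have h1 : ∀ β : Iio α, d (iter d (P ×ˢ Q) β.1) = d₁ (iter d₁ P β.1) ×ˢ d₂ (iter d₂ Q β.1) := by
      intro β
      rw [ih β.1 β.2, h]
    ext ⟨x, y⟩
    simp only [h1, mem_inter_iff, mem_iInter, mem_prod, forall_and]
    tauto

theorem hPZ (hZA : StZA) : StPZ := by
  intro X Y S S' τ τ' g g' m
  have hom_of : ∀ m, (∀ (t : TT (S × S') m) (A : Set X) (B : Set Y),
      Z (prodT τ τ') (Prod.map g g') m t (A ×ˢ B) =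
        Z τ g m (TT.map Prod.fst m t) A ×ˢ Z τ' g' m (TT.map Prod.snd m t) B) →
      ∀ (U : TT (S × S') m) (A : Set X) (B : Set Y),
        HomOp (prodT τ τ' (m + 1)) (Z (prodT τ τ') (Prod.map g g') m U) (A ×ˢ B) =
        HomOp (τ (m + 1)) (Z τ g m (TT.map Prod.fst m U)) A ×ˢ
          HomOp (τ' (m + 1)) (Z τ' g' m (TT.map Prod.snd m U)) B := by
    intro m hm U A B
    exact homOp_PZ (τ (m + 1)) (τ' (m + 1)) _ _ _
      ((hZA (X × Y) (S × S') (prodT τ τ') (Prod.map g g') m).2.2.2 U)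
      ((hZA X S τ g m).2.2.2 _) ((hZA Y S' τ' g' m).2.2.2 _) (fun P Q => hm U P Q) A B
  have hZm : ∀ m, ∀ (t : TT (S × S') m) (A : Set X) (B : Set Y),
      Z (prodT τ τ') (Prod.map g g') m t (A ×ˢ B) =
        Z τ g m (TT.map Prod.fst m t) A ×ˢ Z τ' g' m (TT.map Prod.snd m t) B := by
    intro m
    induction m with
    | zero =>
      intro t A B
      ext ⟨x, y⟩
      obtain ⟨s, s'⟩ := t
      show (_ ∧ (g x, g' y) = (s, s')) ↔ ((x ∈ A ∧ g x = s) ∧ (y ∈ B ∧ g' y = s'))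
      rw [Prod.mk.injEq]
      simp only [mem_prod]
      tauto
    | succ m ih =>
      intro t A B
      exact tree_PZ (TT.map Prod.fst m) (TT.map Prod.snd m)
        (fun U => HomOp (prodT τ τ' (m + 1)) (Z (prodT τ τ') (Prod.map g g') m U))
        (fun U => HomOp (τ (m + 1)) (Z τ g m U)) (fun U => HomOp (τ' (m + 1)) (Z τ' g' m U))
        (hom_of m ih) A B t
  refine ⟨hZm m, hom_of m (hZm m), ?_⟩
  intro L A B α
  refine iter_PZ _ _ _ (fun P Q => ?_) A B α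
  ext ⟨x, y⟩
  have h1 : ∀ i, hom (prodT τ τ') (Prod.map g g') m (L i) (P ×ˢ Q) =
      hom τ g m (TT.map Prod.fst m (L i)) P ×ˢ hom τ' g' m (TT.map Prod.snd m (L i)) Q :=
    fun i => hom_of m (hZm m) (L i) P Q
  simp only [dL, h1, mem_iInter, mem_prod, forall_and]

end Pool.Agent.Helper24.WH

end

section

/-!
# PROJECT WH (MP_76577a_lc), module RD: relabelling of `d_L` and of its iterates
-/

set_option autoImplicit false

namespace Pool.Agent.Helper24.WH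

open Set TopologicalSpace Ordinal Topology

/-- a clopen set stays clopen in a finer topology -/
private theorem clp_mono_RD {X : Type} {τ τ' : TopologicalSpace X} (h : τ ≤ τ') {O : Set X}
    (hO : Clp τ' O) : Clp τ O :=
  ⟨IsClosed.mono hO.1 h, IsOpen.mono hO.2 h⟩

/-- the composed labelling has clopen fibres -/
private theorem fib_comp_RD {X S' S : Type} [Finite S'] (G : S' → S) {τ : ℕ → TopologicalSpace X}
    {g' : X → S'} (h : Fib τ g') : Fib τ (G ∘ g') := by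
  intro s
  have h1 : (G ∘ g') ⁻¹' {s} = ⋃ s' : {s' : S' // G s' = s}, g' ⁻¹' {s'.1} := by
    ext x
    simp only [mem_preimage, Function.comp_apply, mem_singleton_iff, mem_iUnion, Subtype.exists,
      exists_prop]
    constructor
    · intro hx
      exact ⟨g' x, hx, rfl⟩
    · rintro ⟨s', hs', hx⟩
      rw [hx]
      exact hs'
  rw [h1]
  let _ : TopologicalSpace X := τ 0
  exact isClopen_iUnion_of_finite (fun s' => h s'.1)

/-- the operators of height `m` are monotone, contractive and local for the next topology -/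
private theorem mcl_RD (hZM : StZM) {X S : Type} {τ : ℕ → TopologicalSpace X} {g : X → S}
    (hT : Tow τ) (hF : Fib τ g) (m : ℕ) (t : TT S m) : MCL (τ (m + 1)) (Z τ g m t) := by
  have h := (hZM X S τ g hT hF m).1 t
  exact ⟨h.mono, h.le, fun O B hO => h.loc O B (clp_mono_RD (hT.mono m) hO)⟩

/-- operators which agree on closed sets have the same iterates -/
private theorem iter_congr_RD {X : Type} (τ : TopologicalSpace X) (d d' : Set X → Set X)
    (h : ∀ B, IsClosed[τ] B → d B = d' B) (hd : ∀ B, IsClosed[τ] B → IsClosed[τ] (d B))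
    (B : Set X) (hB : IsClosed[τ] B) (α : Ordinal.{0}) :
    iter d B α = iter d' B α ∧ IsClosed[τ] (iter d B α) := by
  induction α using WellFoundedLT.induction with
  | ind α ih =>
    have hc : IsClosed[τ] (iter d B α) := by
      rw [iter]
      exact @IsClosed.inter X _ _ τ hB
        (@isClosed_iInter X _ τ _ (fun β => hd _ (ih β.1 β.2).2))
    refine ⟨?_, hc⟩
    rw [iter, iter]
    congr 1
    refine iInter_congr fun β => ?_
    rw [← (ih β.1 β.2).1]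
    exact h _ (ih β.1 β.2).2

/-- **RD** relabelling of `d_L` and of its iterates -/
theorem hRD (hRL : StRL) (hHU : StHU) (hUF : StUF) (hFN : StFN) (hTB : StTB) (hTP : StTP)
    (hZM : StZM) (hZA : StZA) : StRD := by
  intro S' S _ G m L
  choose M hMf _ hM using fun i => hRL S' S G m (L i)
  have hhom : ∀ (X : Type) (τ : ℕ → TopologicalSpace X) (g' : X → S'), Tow τ → Fib τ g' →
      ∀ B : Set X, IsClosed[τ (m + 1)] B → ∀ i,
        hom τ (G ∘ g') m (L i) B = ⋃ t' ∈ M i, hom τ g' m t' B := by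
    intro X τ g' hT hF B hB i
    have hfin : Finite (M i) := (hMf i).to_subtype
    have h1 := hHU X (τ (m + 1)) (Z τ (G ∘ g') m (L i)) (hT.zd (m + 1))
      (mcl_RD hZM hT (fib_comp_RD G hF) m (L i)) (M i) (fun t' => Z τ g' m t'.1)
      (fun t' => mcl_RD hZM hT hF m t'.1)
      (fun W hW => by
        rw [hM i X τ g' hT hF W (IsClosed.mono hW (hT.mono m)), biUnion_eq_iUnion])
      B hB
    rw [biUnion_eq_iUnion]
    exact h1
  refine ⟨⟨M, hMf, hhom⟩, ?_⟩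
  obtain ⟨C, hCf, -, hC⟩ := hFN (TT S' m) (TT.Le m) (hTP.2.1 S' m).1 (hTP.2.1 S' m).2
    (hTB S' m 0).2.1 M hMf
  refine ⟨C, hCf, ?_⟩
  intro X τ g' hT hF B hB
  have hdL : ∀ B : Set X, IsClosed[τ (m + 1)] B →
      dL τ (G ∘ g') m L B = ⋃ L' ∈ C, dL τ g' m L' B := by
    intro B hB
    have h1 : dL τ (G ∘ g') m L B = ⋂ i, ⋃ t' ∈ M i, hom τ g' m t' B :=
      iInter_congr fun i => hhom X τ g' hT hF B hB i
    rw [h1]
    exact hC X (fun t' => hom τ g' m t' B) (fun a b hab => (hZA X S' τ g' m).2.1 a b hab B)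
  refine ⟨hdL B hB, ?_⟩
  intro x
  have hfin : Finite C := hCf.to_subtype
  have hder := (hZM X S' τ g' hT hF m).2.2
  have h2 := (hUF X (τ (m + 1)) (hT.zd (m + 1)) C).1 (fun L' => dL τ g' m L'.1)
    (fun L' => hder L'.1)
  rw [biUnion_eq_iUnion, ← h2.2 B x hB]
  refine (iter_congr_RD (τ (m + 1)) _ _ ?_ ?_ B hB (ω ^ x)).1
  · intro B hB
    rw [hdL B hB, biUnion_eq_iUnion]
  · exact ((hZM X S τ (G ∘ g') hT (fib_comp_RD G hF) m).2.2 L).closed

end Pool.Agent.Helper24.WH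

end

section

/-!
# WH module RL (3.6): relabelling of the operators `Z_m^t`
-/

set_option autoImplicit false

namespace Pool.Agent.Helper24.WH

open Set TopologicalSpace Ordinal Topology

private theorem clp_mono_RL {X : Type} {τ τ' : TopologicalSpace X} (h : τ' ≤ τ) {O : Set X} (hO : Clp τ O) :
    Clp τ' O :=
  ⟨IsClosed.mono hO.1 h, IsOpen.mono hO.2 h⟩

private theorem mcl_RL {X : Type} {τ τ' : TopologicalSpace X} (h : τ ≤ τ') {z : Set X → Set X}
    (hz : IsDer τ z) : MCL τ' z :=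
  ⟨hz.mono, hz.le, fun O B hO => hz.loc O B (clp_mono_RL h hO)⟩

private theorem fib_RL {X S' S : Type} [Finite S'] (G : S' → S) {τ : ℕ → TopologicalSpace X} {g' : X → S'}
    (h : Fib τ g') : Fib τ (G ∘ g') := by
  intro s
  have h1 : (G ∘ g') ⁻¹' {s} = ⋃ s' ∈ G ⁻¹' {s}, g' ⁻¹' {s'} := by
    ext x
    simp
  rw [h1]
  letI := τ 0
  exact (Set.toFinite (G ⁻¹' {s})).isClopen_biUnion fun s' _ => h s'

/-- relabelling of `hom` on closed sets -/
theorem hom_RL (hZM : StZM) (hHU : StHU) {S' S : Type} [Finite S'] (G : S' → S) (m : ℕ) (U : TT S m)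
    (M : Set (TT S' m)) (hM : M.Finite) {X : Type} (τ : ℕ → TopologicalSpace X) (g' : X → S')
    (hT : Tow τ) (hg : Fib τ g')
    (h : ∀ B : Set X, IsClosed[τ m] B → Z τ (G ∘ g') m U B = ⋃ t' ∈ M, Z τ g' m t' B)
    (B : Set X) (hB : IsClosed[τ (m + 1)] B) :
    hom τ (G ∘ g') m U B = ⋃ t' ∈ M, hom τ g' m t' B := by
  haveI : Finite M := hM
  have h1 := hHU X (τ (m + 1)) (Z τ (G ∘ g') m U) (hT.zd _)
    (mcl_RL (hT.mono m) ((hZM X S τ (G ∘ g') hT (fib_RL G hg) m).1 U)) M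
    (fun t' => Z τ g' m t'.1) (fun t' => mcl_RL (hT.mono m) ((hZM X S' τ g' hT hg m).1 t'.1))
    (fun W hW => by
      rw [h W (IsClosed.mono hW (hT.mono m)), Set.biUnion_eq_iUnion]) B hB
  unfold hom
  rw [h1, Set.biUnion_eq_iUnion]

theorem hRL (hTP : StTP) (hTB : StTB) (hFN : StFN) (hZM : StZM) (hZA : StZA) (hHA : StHA) (hHU : StHU) :
    StRL := by
  intro S' S _ G m
  induction m with
  | zero =>
    intro s
    have hfin : ({s' : S' | G s' = s} : Set S').Finite := Set.toFinite _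
    refine ⟨{s' : S' | G s' = s}, hfin, fun s' hs' => hs'.symm, ?_⟩
    intro X τ g' _ _ B _
    ext x
    simp only [Z, Set.mem_inter_iff, Set.mem_preimage, Set.mem_singleton_iff, Function.comp_apply,
      Set.mem_iUnion, Set.mem_ofPred_eq, exists_prop]
    constructor
    · rintro ⟨h1, h2⟩
      exact ⟨g' x, h2, h1, rfl⟩
    · rintro ⟨s', h1, h2, h3⟩
      exact ⟨h2, by rw [h3]; exact h1⟩
  | succ m ihm =>
    intro t
    change Tr (TT S m) at t
    induction t with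
    | leaf U =>
      obtain ⟨M, hM, hle, hZ⟩ := ihm U
      refine ⟨(fun U' => (Tr.leaf U' : Tr (TT S' m))) '' M, hM.image _, ?_, ?_⟩
      · rintro _ ⟨U', hU', rfl⟩
        exact Tr.Le.leaf U _ (hle U' hU')
      · intro X τ g' hT hg B hB
        rw [Set.biUnion_image]
        exact hom_RL hZM hHU G m U M hM τ g' hT hg (fun W hW => hZ X τ g' hT hg W hW) B hB
    | node U F ih =>
      obtain ⟨M, hM, hle, hZ⟩ := ihm U
      choose N hN hNle hNZ using ih
      obtain ⟨C, hC, hCN, hCH⟩ := hFN (TT S' (m + 1)) (TT.Le (m + 1)) ((hTP.2.1 S' (m + 1)).1)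
        ((hTP.2.1 S' (m + 1)).2) (hTB S' (m + 1) 0).2.1 N hN
      refine ⟨(fun p : TT S' m × (ℕ → TT S' (m + 1)) => (Tr.node p.1 p.2 : Tr (TT S' m))) '' (M ×ˢ C),
        (hM.prod hC).image _, ?_, ?_⟩
      · rintro _ ⟨⟨U', c⟩, ⟨hU', hc⟩, rfl⟩
        refine Tr.Le.node U F _ (hle U' hU') fun i => ?_
        exact Tr.Le.sub _ _ _ i (hNle i (c i) (hCN c hc i))
      · intro X τ g' hT hg B hB
        haveI : Finite C := hC
        -- the closed sets
        have hcl : ∀ t' : TT S' (m + 1), IsClosed[τ (m + 1)] (Z τ g' (m + 1) t' B) := fun t' =>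
          ((hZM X S' τ g' hT hg (m + 1)).1 t').closed B hB
        have hcl2 : ∀ c : ℕ → TT S' (m + 1), IsClosed[τ (m + 1)] (⋂ i, Z τ g' (m + 1) (c i) B) := fun c =>
          @isClosed_iInter X ℕ (τ (m + 1)) _ fun i => hcl (c i)
        have e1 : (⋂ i, Z τ (G ∘ g') (m + 1) (F i) B) = ⋃ c : C, ⋂ i, Z τ g' (m + 1) (c.1 i) B := by
          have e2 := hCH X (fun t' => Z τ g' (m + 1) t' B)
            (fun a b hab => (hZA X S' τ g' (m + 1)).1 a b hab B)
          rw [Set.biUnion_eq_iUnion] at e2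
          rw [← e2]
          exact Set.iInter_congr fun i => hNZ i X τ g' hT hg B hB
        have hcl3 : IsClosed[τ (m + 1)] (⋃ c : C, ⋂ i, Z τ g' (m + 1) (c.1 i) B) :=
          @isClosed_iUnion_of_finite X C (τ (m + 1)) _ _ fun c => hcl2 c.1
        have e3 : Z τ (G ∘ g') (m + 1) (Tr.node U F) B =
            hom τ (G ∘ g') m U (⋂ i, Z τ (G ∘ g') (m + 1) (F i) B) := rfl
        rw [e3, e1, hom_RL hZM hHU G m U M hM τ g' hT hg (fun W hW => hZ X τ g' hT hg W hW) _ hcl3,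
          Set.biUnion_image, Set.biUnion_prod']
        refine Set.iUnion₂_congr fun U' hU' => ?_
        have e4 := hHA X (τ (m + 1)) (Z τ g' m U') (hT.zd _)
          (mcl_RL (hT.mono m) ((hZM X S' τ g' hT hg m).1 U')) C
          (fun c => ⋂ i, Z τ g' (m + 1) (c.1 i) B) (fun c => hcl2 c.1)
        have e5 : hom τ g' m U' (⋃ c : C, ⋂ i, Z τ g' (m + 1) (c.1 i) B) =
          ⋃ c : C, HomOp (τ (m + 1)) (Z τ g' m U') (⋂ i, Z τ g' (m + 1) (c.1 i) B) := e4
        rw [e5, Set.biUnion_eq_iUnion]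
        rfl

end Pool.Agent.Helper24.WH

end

section

/-!
# PROJECT WH, module SC: splitting of the closure operators
-/

set_option autoImplicit false

namespace Pool.Agent.Helper24.WH

open Set TopologicalSpace Ordinal Topology

/-- splitting of the closure operators -/
theorem hSC : StSC := by
  intro X S _ τ g e G hG hCE s k B₀ B₁ B hB
  obtain ⟨hinj, hind, hcl⟩ := hCE
  have hemb : IsClosedEmbedding e := ⟨⟨⟨hind⟩, hinj⟩, hcl.1⟩
  have hopen : IsOpen (range e) := hcl.2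
  have h1 : closure (g ⁻¹' {s} ∩ B) ∩ range e = closure ((g ⁻¹' {s} ∩ B) ∩ range e) := by
    apply Subset.antisymm
    · exact hopen.closure_inter
    · refine subset_inter (closure_mono inter_subset_left) ?_
      exact closure_minimal inter_subset_right hcl.1
  have h2 : (g ⁻¹' {s} ∩ B) ∩ range e = ⋃ q, ⋃ p ∈ {p : S × S | G p = s},
      e '' ((g ⁻¹' {p.1} ∩ B₀ q) ×ˢ (g ⁻¹' {p.2} ∩ B₁ q)) := by
    rw [inter_assoc, hB]
    ext y
    simp only [mem_inter_iff, mem_preimage, mem_singleton_iff, mem_iUnion, mem_image, mem_prod,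
      mem_ofPred_eq, exists_prop, Prod.exists]
    constructor
    · rintro ⟨hy, q, x, z, ⟨hx, hz⟩, rfl⟩
      exact ⟨q, g x, g z, by rw [← hy, hG], x, z, ⟨⟨rfl, hx⟩, ⟨rfl, hz⟩⟩, rfl⟩
    · rintro ⟨q, a, c, hac, x, z, ⟨⟨hx1, hx2⟩, ⟨hz1, hz2⟩⟩, rfl⟩
      exact ⟨by rw [hG, hx1, hz1, hac], q, x, z, ⟨hx2, hz2⟩, rfl⟩
  have h3 : closure[τ] (g ⁻¹' {s} ∩ B) ∩ range e = closure ((g ⁻¹' {s} ∩ B) ∩ range e) := h1
  rw [h3, h2, closure_iUnion_of_finite]
  refine iUnion_congr fun q => ?_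
  rw [(Set.toFinite {p : S × S | G p = s}).closure_biUnion]
  refine iUnion₂_congr fun p _ => ?_
  rw [hemb.closure_image_eq, closure_prod_eq]

end Pool.Agent.Helper24.WH

end

section

/-!
# PROJECT WH (MP_76577a_lc), module SD: splitting of the operators `D` (3.9)
-/

set_option autoImplicit false

namespace Pool.Agent.Helper24.WH

open Set TopologicalSpace Ordinal Topology

/-- reindexing a finite union by `Fin N` -/
private theorem reindex_SD {X A : Type} {k : ℕ} (ι : Type) [Finite ι]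
    (F₀ F₁ : (ℕ → A) → Fin k → Set X) (D : Set (X × X))
    (J : ι → Set (Fin k)) (L₀ L₁ : ι → Fin k → ℕ → A) (hJ : ∀ r, (J r).Nonempty)
    (h : D = ⋃ r, (⋂ q ∈ J r, F₀ (L₀ r q) q) ×ˢ (⋂ q ∈ J r, F₁ (L₁ r q) q)) :
    ∃ (N : ℕ) (J : Fin N → Set (Fin k)) (L₀ L₁ : Fin N → Fin k → ℕ → A), (∀ r, (J r).Nonempty) ∧
      D = ⋃ r, (⋂ q ∈ J r, F₀ (L₀ r q) q) ×ˢ (⋂ q ∈ J r, F₁ (L₁ r q) q) := by
  obtain ⟨N, ⟨f⟩⟩ := Finite.exists_equiv_fin ι
  refine ⟨N, J ∘ f.symm, L₀ ∘ f.symm, L₁ ∘ f.symm, fun r => hJ _, ?_⟩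
  rw [h]
  exact (f.symm.iSup_comp
    (g := fun r => (⋂ q ∈ J r, F₀ (L₀ r q) q) ×ˢ (⋂ q ∈ J r, F₁ (L₁ r q) q))).symm

/-- regrouping a countable intersection by a colouring of the indices with finitely many colours -/
private theorem regroup_SD {X T : Type} {k : ℕ} (c : ℕ → T × Fin k) (H : T → Fin k → Set X) :
    ∃ φ : Fin k → ℕ → ℕ,
      ⋂ i, H (c i).1 (c i).2 = ⋂ q ∈ range (fun i => (c i).2), ⋂ n, H (c (φ q n)).1 q := by
  classical
  have hch : ∀ q : Fin k, ∃ i : ℕ, q ∈ range (fun i => (c i).2) → (c i).2 = q := by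
    intro q
    by_cases hq : q ∈ range (fun i => (c i).2)
    · obtain ⟨i, hi⟩ := hq
      exact ⟨i, fun _ => hi⟩
    · exact ⟨0, fun h => absurd h hq⟩
  choose j hj using hch
  refine ⟨fun q n => if (c n).2 = q then n else j q, ?_⟩
  ext y
  simp only [mem_iInter]
  constructor
  · intro h q hq n
    by_cases hn : (c n).2 = q
    · have := h n
      simp only [hn, if_true]
      rw [hn] at this
      exact this
    · have h1 := h (j q)
      rw [hj q hq] at h1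
      simp only [hn, if_false]
      exact h1
  · intro h i
    have := h (c i).2 ⟨i, rfl⟩ i
    simpa using this

/-- the operator `z = Z m t` as an operator for the coarser topology -/
private theorem mcl_SD {X S : Type} (hZM : StZM) (τ : ℕ → TopologicalSpace X) (g : X → S)
    (hT : Tow τ) (hF : Fib τ g) (m : ℕ) (t : TT S m) : MCL (τ (m + 1)) (Z τ g m t) := by
  have h := (hZM X S τ g hT hF m).1 t
  refine ⟨h.mono, h.le, fun O B hO => h.loc O B ?_⟩
  exact ⟨IsClosed.mono hO.1 (hT.mono m), IsOpen.mono hO.2 (hT.mono m)⟩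

/-- iteration of one step -/
private theorem iter_one_SD {X : Type} (hIT : StIT) (d : Set X → Set X)
    (hm : ∀ A B, A ⊆ B → d A ⊆ d B) (hle : ∀ B, d B ⊆ B) (B : Set X) : iter d B 1 = d B := by
  obtain ⟨h0, h1, -⟩ := hIT X d hm hle
  have := h1 B 0
  rw [h0, zero_add] at this
  exact this

/-- the case `x = 0` -/
private theorem core_zero_SD (hRD : StRD) (hPZ : StPZ) (hZM : StZM) (hZA : StZA)
    (hHA : StHA) (hTB : StTB) (hFN : StFN) (hTP : StTP)
    (X S : Type) [Finite S] (τ : ℕ → TopologicalSpace X) (g : X → S) (G : S × S → S)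
    (hPTow : Tow (prodT τ τ)) (hPFib : Fib (prodT τ τ) (Prod.map g g))
    (m : ℕ) (L : ℕ → TT S m) (k : ℕ) (B₀ B₁ : Fin k → Set X)
    (hB₀ : ∀ q, IsClosed[τ (m + 1)] (B₀ q)) (hB₁ : ∀ q, IsClosed[τ (m + 1)] (B₁ q)) :
    ∃ (N : ℕ) (J : Fin N → Set (Fin k)) (L₀ L₁ : Fin N → Fin k → ℕ → TT S m), (∀ r, (J r).Nonempty) ∧
      dL (prodT τ τ) (G ∘ Prod.map g g) m L (⋃ q, B₀ q ×ˢ B₁ q) =
        ⋃ r, (⋂ q ∈ J r, dL τ g m (L₀ r q) (B₀ q)) ×ˢ (⋂ q ∈ J r, dL τ g m (L₁ r q) (B₁ q)) := by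
  classical
  have hCq : ∀ q, IsClosed[prodT τ τ (m + 1)] (B₀ q ×ˢ B₁ q) := fun q =>
    @IsClosed.prod X X (τ (m + 1)) (τ (m + 1)) _ _ (hB₀ q) (hB₁ q)
  have hC : IsClosed[prodT τ τ (m + 1)] (⋃ q, B₀ q ×ˢ B₁ q) :=
    @isClosed_iUnion_of_finite _ _ (prodT τ τ (m + 1)) _ _ hCq
  obtain ⟨M, hMf, hM⟩ := (hRD (S × S) S G m L).1
  have hM' := hM (X × X) (prodT τ τ) (Prod.map g g) hPTow hPFib _ hC
  -- step 1
  have h1 : ∀ i, hom (prodT τ τ) (G ∘ Prod.map g g) m (L i) (⋃ q, B₀ q ×ˢ B₁ q) =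
      ⋃ t ∈ M i, ⋃ q, hom (prodT τ τ) (Prod.map g g) m t (B₀ q ×ˢ B₁ q) := by
    intro i
    rw [hM' i]
    refine iUnion₂_congr fun t _ => ?_
    exact hHA (X × X) (prodT τ τ (m + 1)) (Z (prodT τ τ) (Prod.map g g) m t) (hPTow.zd _)
      (mcl_SD hZM _ _ hPTow hPFib m t) (Fin k) (fun q => B₀ q ×ˢ B₁ q) hCq
  -- step 2
  obtain ⟨-, htp, -⟩ := hTP
  obtain ⟨hrefl, htrans⟩ := htp (S × S) m
  obtain ⟨-, -, hwqo⟩ := hTB (S × S) m k
  obtain ⟨𝒞, h𝒞f, h𝒞m, h𝒞⟩ := hFN (TT (S × S) m × Fin k) (fun a b => TT.Le m a.1 b.1 ∧ a.2 = b.2)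
    (fun a => ⟨hrefl _, rfl⟩) (fun a b c hab hbc => ⟨htrans _ _ _ hab.1 hbc.1, hab.2.trans hbc.2⟩)
    hwqo (fun i => M i ×ˢ (univ : Set (Fin k))) (fun i => (hMf i).prod finite_univ)
  have h2 := h𝒞 (X × X) (fun a => hom (prodT τ τ) (Prod.map g g) m a.1 (B₀ a.2 ×ˢ B₁ a.2))
    (fun a b hab => by
      obtain ⟨hab1, hab2⟩ := hab
      show hom _ _ _ b.1 (B₀ b.2 ×ˢ B₁ b.2) ⊆ hom _ _ _ a.1 (B₀ a.2 ×ˢ B₁ a.2)
      rw [hab2]
      exact (hZA (X × X) (S × S) (prodT τ τ) (Prod.map g g) m).2.1 _ _ hab1 _)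
  have h3 : dL (prodT τ τ) (G ∘ Prod.map g g) m L (⋃ q, B₀ q ×ˢ B₁ q) =
      ⋃ c ∈ 𝒞, ⋂ i, hom (prodT τ τ) (Prod.map g g) m (c i).1 (B₀ (c i).2 ×ˢ B₁ (c i).2) := by
    rw [← h2]
    show ⋂ i, hom (prodT τ τ) (G ∘ Prod.map g g) m (L i) (⋃ q, B₀ q ×ˢ B₁ q) = _
    refine iInter_congr fun i => ?_
    rw [h1 i]
    ext y
    simp only [mem_iUnion, exists_prop, mem_prod, mem_univ, and_true, Prod.exists]
    constructor
    · rintro ⟨t, ht, q, hy⟩
      exact ⟨t, q, ht, hy⟩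
    · rintro ⟨t, q, ht, hy⟩
      exact ⟨t, ht, q, hy⟩
  -- step 3
  have h4 : ∀ c : ℕ → TT (S × S) m × Fin k, ∃ L₀ L₁ : Fin k → ℕ → TT S m,
      ⋂ i, hom (prodT τ τ) (Prod.map g g) m (c i).1 (B₀ (c i).2 ×ˢ B₁ (c i).2) =
        (⋂ q ∈ range (fun i => (c i).2), dL τ g m (L₀ q) (B₀ q)) ×ˢ
        (⋂ q ∈ range (fun i => (c i).2), dL τ g m (L₁ q) (B₁ q)) := by
    intro c
    obtain ⟨φ₀, hφ₀⟩ := regroup_SD c (fun t q => hom τ g m (TT.map Prod.fst m t) (B₀ q))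
    obtain ⟨φ₁, hφ₁⟩ := regroup_SD c (fun t q => hom τ g m (TT.map Prod.snd m t) (B₁ q))
    refine ⟨fun q n => TT.map Prod.fst m (c (φ₀ q n)).1, fun q n => TT.map Prod.snd m (c (φ₁ q n)).1, ?_⟩
    have e1 : ∀ i, hom (prodT τ τ) (Prod.map g g) m (c i).1 (B₀ (c i).2 ×ˢ B₁ (c i).2) =
        hom τ g m (TT.map Prod.fst m (c i).1) (B₀ (c i).2) ×ˢ
        hom τ g m (TT.map Prod.snd m (c i).1) (B₁ (c i).2) := fun i =>
      (hPZ X X S S τ τ g g m).2.1 (c i).1 _ _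
    have e2 : ⋂ i, hom (prodT τ τ) (Prod.map g g) m (c i).1 (B₀ (c i).2 ×ˢ B₁ (c i).2) =
        (⋂ i, hom τ g m (TT.map Prod.fst m (c i).1) (B₀ (c i).2)) ×ˢ
        (⋂ i, hom τ g m (TT.map Prod.snd m (c i).1) (B₁ (c i).2)) := by
      ext ⟨y, z⟩
      simp only [e1, mem_iInter, mem_prod]
      exact forall_and
    rw [e2]
    congr 1
  choose L₀ L₁ hL using h4
  have hfin : Finite 𝒞 := h𝒞f.to_subtype
  refine reindex_SD (ι := 𝒞) (fun l q => dL τ g m l (B₀ q)) (fun l q => dL τ g m l (B₁ q)) _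
    (fun c => range (fun i => (c.1 i).2)) (fun c => L₀ c.1) (fun c => L₁ c.1)
    (fun c => ⟨_, ⟨0, rfl⟩⟩) ?_
  rw [h3, biUnion_eq_iUnion]
  exact iUnion_congr fun c => hL c.1

/-- the case `x ≥ 1` -/
private theorem core_pos_SD (hUF : StUF) (hRD : StRD) (hPZ : StPZ) (hZM : StZM)
    (X S : Type) [Finite S] (τ : ℕ → TopologicalSpace X) (g : X → S) (G : S × S → S)
    (hPTow : Tow (prodT τ τ)) (hPFib : Fib (prodT τ τ) (Prod.map g g))
    (m : ℕ) (L : ℕ → TT S m) (k : ℕ) (B₀ B₁ : Fin k → Set X)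
    (hB₀ : ∀ q, IsClosed[τ (m + 1)] (B₀ q)) (hB₁ : ∀ q, IsClosed[τ (m + 1)] (B₁ q))
    (x : Ordinal.{0}) (hx : 1 ≤ x) :
    ∃ (N : ℕ) (J : Fin N → Set (Fin k)) (L₀ L₁ : Fin N → Fin k → ℕ → TT S m), (∀ r, (J r).Nonempty) ∧
      iter (dL (prodT τ τ) (G ∘ Prod.map g g) m L) (⋃ q, B₀ q ×ˢ B₁ q) (ω ^ x) =
        ⋃ r, (⋂ q ∈ J r, iter (dL τ g m (L₀ r q)) (B₀ q) (ω ^ x)) ×ˢ
          (⋂ q ∈ J r, iter (dL τ g m (L₁ r q)) (B₁ q) (ω ^ x)) := by
  classical
  have hCq : ∀ q, IsClosed[prodT τ τ (m + 1)] (B₀ q ×ˢ B₁ q) := fun q =>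
    @IsClosed.prod X X (τ (m + 1)) (τ (m + 1)) _ _ (hB₀ q) (hB₁ q)
  have hC : IsClosed[prodT τ τ (m + 1)] (⋃ q, B₀ q ×ˢ B₁ q) :=
    @isClosed_iUnion_of_finite _ _ (prodT τ τ (m + 1)) _ _ hCq
  obtain ⟨𝒞, h𝒞f, h𝒞⟩ := (hRD (S × S) S G m L).2
  have h1 := (h𝒞 (X × X) (prodT τ τ) (Prod.map g g) hPTow hPFib _ hC).2 x
  have h2 : ∀ L' : ℕ → TT (S × S) m,
      iter (dL (prodT τ τ) (Prod.map g g) m L') (⋃ q, B₀ q ×ˢ B₁ q) (ω ^ x) =
        ⋃ q, iter (dL τ g m (fun i => TT.map Prod.fst m (L' i))) (B₀ q) (ω ^ x) ×ˢ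
          iter (dL τ g m (fun i => TT.map Prod.snd m (L' i))) (B₁ q) (ω ^ x) := by
    intro L'
    have := (hUF (X × X) (prodT τ τ (m + 1)) (hPTow.zd _) (Fin k)).2 (dL (prodT τ τ) (Prod.map g g) m L')
      ((hZM (X × X) (S × S) (prodT τ τ) (Prod.map g g) hPTow hPFib m).2.2 L')
      (fun q => B₀ q ×ˢ B₁ q) x hCq hx
    rw [this]
    exact iUnion_congr fun q => (hPZ X X S S τ τ g g m).2.2 L' (B₀ q) (B₁ q) (ω ^ x)
  have hfin : Finite 𝒞 := h𝒞f.to_subtype
  refine reindex_SD (ι := 𝒞 × Fin k) (fun l q => iter (dL τ g m l) (B₀ q) (ω ^ x))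
    (fun l q => iter (dL τ g m l) (B₁ q) (ω ^ x)) _
    (fun r => {r.2}) (fun r _ i => TT.map Prod.fst m (r.1.1 i))
    (fun r _ i => TT.map Prod.snd m (r.1.1 i)) (fun r => ⟨_, rfl⟩) ?_
  rw [h1]
  ext y
  simp only [h2, mem_iUnion, exists_prop, Prod.exists, biInter_singleton, Subtype.exists]

theorem hSD (hUF : StUF) (hRD : StRD) (hPZ : StPZ) (hEZ : StEZ) (hPT : StPT) (hZM : StZM)
    (hZA : StZA) (hHA : StHA) (hTB : StTB) (hFN : StFN) (hTP : StTP) (hIT : StIT) (hIL : StIL) :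
    StSD := by
  intro X S _ τ g e G hT hF hg hCE m L x k B₀ B₁ B hB₀ hB₁ hB hBe
  obtain ⟨hPTow, hPFib⟩ := hPT X X S S τ τ g g hT hT hF hF
  have hcl : Clp (τ (m + 1)) (range e) := (hCE (m + 1)).2.2
  have hder := (hZM X S τ g hT hF m).2.2 L
  have hloc := (hIL X (τ (m + 1)) (dL τ g m L) hder (ω ^ (x : Ordinal.{0}))).loc (range e) B hcl
  have hBC : B ∩ range e = e '' (⋃ q, B₀ q ×ˢ B₁ q) := by rw [hBe, image_iUnion]
  have hcomp : g ∘ e = G ∘ Prod.map g g := by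
    funext p
    exact hg p
  have h1 : iter (dL τ g m L) B (ω ^ (x : Ordinal.{0})) ∩ range e =
      e '' iter (dL (prodT τ τ) (G ∘ Prod.map g g) m L) (⋃ q, B₀ q ×ˢ B₁ q)
        (ω ^ (x : Ordinal.{0})) := by
    have h := (hEZ (X × X) X S (prodT τ τ) τ g e hCE m).2.2 L (⋃ q, B₀ q ×ˢ B₁ q)
      (ω ^ (x : Ordinal.{0}))
    rw [hcomp] at h
    rw [← h, ← hBC]
    exact hloc.symm
  suffices h : ∃ (N : ℕ) (J : Fin N → Set (Fin k)) (L₀ L₁ : Fin N → Fin k → ℕ → TT S m),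
      (∀ r, (J r).Nonempty) ∧
      iter (dL (prodT τ τ) (G ∘ Prod.map g g) m L) (⋃ q, B₀ q ×ˢ B₁ q) (ω ^ (x : Ordinal.{0})) =
        ⋃ r, (⋂ q ∈ J r, iter (dL τ g m (L₀ r q)) (B₀ q) (ω ^ (x : Ordinal.{0}))) ×ˢ
          (⋂ q ∈ J r, iter (dL τ g m (L₁ r q)) (B₁ q) (ω ^ (x : Ordinal.{0}))) by
    obtain ⟨N, J, L₀, L₁, hJ, h⟩ := h
    exact ⟨N, J, L₀, L₁, hJ, by rw [h1, h, image_iUnion]⟩
  rcases Nat.eq_zero_or_pos x with rfl | hx
  · obtain ⟨N, J, L₀, L₁, hJ, h⟩ := core_zero_SD hRD hPZ hZM hZA hHA hTB hFN hTP X S τ g G hPTow hPFib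
      m L k B₀ B₁ hB₀ hB₁
    refine ⟨N, J, L₀, L₁, hJ, ?_⟩
    have e0 : ω ^ ((0 : ℕ) : Ordinal.{0}) = 1 := by simp
    have e1 : ∀ (l : ℕ → TT S m) (D : Set X), iter (dL τ g m l) D 1 = dL τ g m l D := fun l D =>
      iter_one_SD hIT _ ((hZM X S τ g hT hF m).2.2 l).mono ((hZM X S τ g hT hF m).2.2 l).le D
    have hPF2 : Fib (prodT τ τ) (G ∘ Prod.map g g) := by
      rw [← hcomp]
      intro s
      have hc := hF s
      have hE := (hCE 0).2.1
      constructor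
      · have := hc.1
        rw [preimage_comp]
        rw [hE]
        exact (@isClosed_induced_iff _ _ (τ 0) _ e).2 ⟨_, hc.1, rfl⟩
      · rw [preimage_comp]
        rw [hE]
        exact (@isOpen_induced_iff _ _ (τ 0) _ e).2 ⟨_, hc.2, rfl⟩
    have hderP := (hZM (X × X) S (prodT τ τ) (G ∘ Prod.map g g) hPTow hPF2 m).2.2 L
    rw [e0, iter_one_SD hIT _ hderP.mono hderP.le]
    simp only [e1]
    exact h
  · have hx' : (1 : Ordinal.{0}) ≤ (x : Ordinal.{0}) := by exact_mod_cast hx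
    exact core_pos_SD hUF hRD hPZ hZM X S τ g G hPTow hPFib m L k B₀ B₁ hB₀ hB₁ _ hx'

end Pool.Agent.Helper24.WH

end

section

/-!
# WH module ZA (3.2): the operators are antitone in the term
-/

set_option autoImplicit false

namespace Pool.Agent.Helper24.WH

open Set TopologicalSpace Ordinal Topology

private theorem clm_ZA {X : Type} (τ : TopologicalSpace X) {A B : Set X} (h : A ⊆ B) :
    closure[τ] A ⊆ closure[τ] B :=
  closure_mono h

private theorem hop_le_ZA {X : Type} (τ : TopologicalSpace X) (z : Set X → Set X) (B : Set X) :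
    HomOp τ z B ⊆ B := by
  rintro x ⟨W, ⟨h1, _⟩, hx⟩
  exact h1 hx

private theorem hop_mono_ZA {X : Type} (τ : TopologicalSpace X) (z : Set X → Set X) {A B : Set X}
    (h : A ⊆ B) : HomOp τ z A ⊆ HomOp τ z B := by
  rintro x ⟨W, ⟨h1, h2⟩, hx⟩
  exact ⟨W, ⟨h1.trans h, h2⟩, hx⟩

private theorem hop_anti_ZA {X : Type} (τ : TopologicalSpace X) {z z' : Set X → Set X}
    (h : ∀ B, z' B ⊆ z B) (B : Set X) : HomOp τ z' B ⊆ HomOp τ z B := by
  rintro x ⟨W, ⟨h1, h2⟩, hx⟩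
  exact ⟨W, ⟨h1, h2.trans (closure_mono (h W))⟩, hx⟩

private theorem hop_self_ZA {X : Type} (τ : TopologicalSpace X) {z : Set X → Set X}
    (hz : ∀ A B, A ⊆ B → z A ⊆ z B) (B : Set X) :
    HomOp τ z B ⊆ closure[τ] (z (HomOp τ z B)) := by
  rintro x ⟨W, hW, hx⟩
  exact closure_mono (hz _ _ (subset_sUnion_of_mem hW)) (hW.2 hx)

private theorem hop_in_ZA {X : Type} (τ : TopologicalSpace X) (z : Set X → Set X) {W B : Set X}
    (h1 : W ⊆ B) (h2 : W ⊆ closure[τ] (z W)) : W ⊆ HomOp τ z B :=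
  fun _ hx => ⟨W, ⟨h1, h2⟩, hx⟩

private theorem mono_ZA {X S : Type} (τ : ℕ → TopologicalSpace X) (g : X → S) : ∀ (m : ℕ) (t : TT S m)
    (A B : Set X), A ⊆ B → Z τ g m t A ⊆ Z τ g m t B := by
  intro m
  cases m with
  | zero => exact fun t A B h => inter_subset_inter_left _ h
  | succ m =>
    intro t
    change Tr (TT S m) at t
    induction t with
    | leaf U => exact fun A B h => hop_mono_ZA _ _ h
    | node U F ih => exact fun A B h => hop_mono_ZA _ _ (iInter_mono fun i => ih i A B h)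

private theorem le_ZA {X S : Type} (τ : ℕ → TopologicalSpace X) (g : X → S) (m : ℕ) (t : Tr (TT S m))
    (B : Set X) : Z τ g (m + 1) t B ⊆ B := by
  induction t with
  | leaf U => exact hop_le_ZA _ _ _
  | node U F ih => exact (hop_le_ZA _ _ _).trans ((iInter_subset _ 0).trans (ih 0))

private theorem val_ZA {X S : Type} (τ : ℕ → TopologicalSpace X) (g : X → S) (m : ℕ) (t : Tr (TT S m))
    (B : Set X) : Z τ g (m + 1) t B ⊆ closure[τ (m + 1)] (Z τ g m t.lab (Z τ g (m + 1) t B)) := by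
  cases t with
  | leaf U => exact hop_self_ZA _ (mono_ZA τ g m U) _
  | node U F => exact hop_self_ZA _ (mono_ZA τ g m U) _

private theorem anti_ZA {X S : Type} (τ : ℕ → TopologicalSpace X) (g : X → S) : ∀ (m : ℕ)
    (t t' : TT S m), TT.Le m t t' → ∀ B : Set X, Z τ g m t' B ⊆ Z τ g m t B := by
  intro m
  induction m with
  | zero =>
    intro t t' h B
    change t = t' at h
    rw [h]
  | succ m ihm =>
    intro t t' h B
    change Tr (TT S m) at t t'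
    change Tr.Le (TT.Le m) t t' at h
    induction h with
    | sub t U' F' j _ ih =>
      exact (hop_le_ZA _ _ _).trans ((iInter_subset _ j).trans ih)
    | leaf U t' hU =>
      exact hop_in_ZA _ _ (le_ZA τ g m t' B)
        ((val_ZA τ g m t' B).trans (clm_ZA (τ (m + 1)) (ihm U t'.lab hU _)))
    | node U F t' hU _ ih =>
      exact hop_in_ZA _ _ (subset_iInter fun i => ih i)
        ((val_ZA τ g m t' B).trans (clm_ZA (τ (m + 1)) (ihm U t'.lab hU _)))

theorem hZA : StZA := by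
  intro X S τ g m
  have h2 : ∀ (t t' : TT S m), TT.Le m t t' → ∀ B : Set X, hom τ g m t' B ⊆ hom τ g m t B :=
    fun t t' h B => hop_anti_ZA _ (fun W => anti_ZA τ g m t t' h W) B
  refine ⟨anti_ZA τ g m, h2, ?_, mono_ZA τ g m⟩
  intro L L' h B
  refine subset_iInter fun i => ?_
  obtain ⟨j, hj⟩ := h i
  exact (iInter_subset _ j).trans (h2 _ _ hj B)

end Pool.Agent.Helper24.WH

end

section

set_option autoImplicit false

namespace Pool.Agent.Helper24.WH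

open Set TopologicalSpace Ordinal Topology

private lemma closure_ZF {X : Type} {τ τ' : TopologicalSpace X} (h : τ' ≤ τ) (A : Set X) :
    closure[τ'] A ⊆ closure[τ] A := by
  have h1 : IsClosed[τ'] (closure[τ] A) := (@isClosed_closure X τ A).mono h
  exact closure_minimal (@subset_closure X τ A) h1

private lemma homOp_mono_ZF {X : Type} (τ : TopologicalSpace X) (z : Set X → Set X) {A B : Set X}
    (h : A ⊆ B) : HomOp τ z A ⊆ HomOp τ z B :=
  sUnion_subset_sUnion fun _ hW => ⟨hW.1.trans h, hW.2⟩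

private lemma homOp_le_ZF {X : Type} {τ τ' : TopologicalSpace X} (h : τ' ≤ τ)
    {z z' : Set X → Set X} (hz : ∀ B, z' B ⊆ z B) (B : Set X) :
    HomOp τ' z' B ⊆ HomOp τ z B :=
  sUnion_subset_sUnion fun W hW =>
    ⟨hW.1, hW.2.trans ((closure_ZF h _).trans (@closure_mono X τ _ _ (hz W)))⟩

private lemma ztr_ZF {X A : Type} (h h' : A → Set X → Set X) (hm : ∀ U B C, B ⊆ C → h U B ⊆ h U C)
    (hh : ∀ U B, h' U B ⊆ h U B) : ∀ (t : Tr A) (B : Set X), ZTr h' t B ⊆ ZTr h t B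
  | .leaf U, B => hh U B
  | .node U F, B =>
      (hh U _).trans (hm U _ _ (iInter_mono fun i => ztr_ZF h h' hm hh (F i) B))

private lemma z_ZF {X S : Type} (τ τ' : ℕ → TopologicalSpace X) (g : X → S)
    (h : ∀ m, τ' m ≤ τ m) : ∀ (m : ℕ) (t : TT S m) (B : Set X), Z τ' g m t B ⊆ Z τ g m t B
  | 0, _, _ => Subset.rfl
  | (m + 1), t, B => by
      change ZTr (fun U => HomOp (τ' (m + 1)) (Z τ' g m U)) t B ⊆
        ZTr (fun U => HomOp (τ (m + 1)) (Z τ g m U)) t B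
      exact ztr_ZF (fun U => HomOp (τ (m + 1)) (Z τ g m U)) (fun U => HomOp (τ' (m + 1)) (Z τ' g m U))
        (fun U B C hBC => homOp_mono_ZF _ _ hBC)
        (fun U B => homOp_le_ZF (h (m + 1)) (z_ZF τ τ' g h m U) B) t B

private lemma dL_ZF {X S : Type} (τ τ' : ℕ → TopologicalSpace X) (g : X → S)
    (h : ∀ m, τ' m ≤ τ m) (m : ℕ) (L : ℕ → TT S m) (B : Set X) :
    dL τ' g m L B ⊆ dL τ g m L B :=
  iInter_mono fun i => homOp_le_ZF (h (m + 1)) (z_ZF τ τ' g h m (L i)) B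

private lemma dL_mono_ZF {X S : Type} (τ : ℕ → TopologicalSpace X) (g : X → S) (m : ℕ)
    (L : ℕ → TT S m) {A B : Set X} (h : A ⊆ B) : dL τ g m L A ⊆ dL τ g m L B :=
  iInter_mono fun _ => homOp_mono_ZF _ _ h

private lemma iter_ZF {X : Type} (d d' : Set X → Set X) (hm : ∀ A B, A ⊆ B → d A ⊆ d B)
    (hh : ∀ B, d' B ⊆ d B) (B : Set X) (α : Ordinal.{0}) : iter d' B α ⊆ iter d B α := by
  induction α using WellFoundedLT.induction with
  | ind α ih =>
    rw [iter, iter]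
    intro x hx
    refine ⟨hx.1, ?_⟩
    rw [mem_iInter]
    intro β
    have h1 := mem_iInter.1 hx.2 β
    exact hm _ _ (ih β.1 β.2) (hh _ h1)

/-- a finer tower gives smaller sets -/
theorem hZF : StZF := by
  intro X S τ τ' g h m
  refine ⟨z_ZF τ τ' g h m, dL_ZF τ τ' g h m, fun L B α => ?_⟩
  exact iter_ZF _ _ (fun A B hAB => dL_mono_ZF τ g m L hAB) (dL_ZF τ τ' g h m L) B α

end Pool.Agent.Helper24.WH

end

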