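import Pool.Agent.Helper24.WH.St4

/-! Modules of project WH / WL merged into one file to shorten the build. -/

section

set_option autoImplicit false

namespace Pool.Agent.Helper24.WH

open Set TopologicalSpace Topology
open Ordinal hiding univ

private theorem nil_CN {S : Type} (n : ℕ) (ok : ℕ → Set S → Prop) (N : Nm S) (i : Ordinal.{0})
    (hg : Good n ok N (n + 1) i) : N = .nil := by
  cases N with
  | nil => rfl
  | leaf a rest => exact a.elim
  | cons l kids rest =>
    exfalso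
    cases l with
    | base M K =>
      obtain ⟨h1, h2, h3, h4, h5, h6⟩ := hg
      omega
    | cl M s j =>
      obtain ⟨h1, h2, h3, h4, h5, h6⟩ := hg
      omega
    | dd m L x j =>
      obtain ⟨h1, h2, h3, h4, h5⟩ := hg
      omega

theorem hCN (hNV : StNV) (hCT : StCT) (hEC : StEC) (hSU : StSU) (hSG : StSG) (hNT : StNT) :
    StCN := by
  intro A S _ _ n g Ga hH
  obtain ⟨s1, s2, s3, s4, s5, s6, s7, s8, s9⟩ := hSU A S n g
  obtain ⟨i₀, hi₀⟩ := hEC (Tre A) (stg n g) (fun i j hij m => s4 i j m hij)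
  obtain ⟨g1, g2⟩ := hSG A S n g Ga hH
  have hwqo : ∀ (h : ℕ) (f : ℕ → Set (Tre A)),
      (∀ k, f k ∈ {F | ∃ N i, GN n g N h i ∧ F = vl n g N}) → ∃ i j, i < j ∧ f j ⊆ f i := by
    intro h f hf
    choose N i hN using hf
    obtain ⟨⟨k, l, hkl, hsub⟩, _⟩ := hNV A S n g Ga hH N (fun k => ⟨h, i k, (hN k).1⟩)
    refine ⟨k, l, hkl, ?_⟩
    rw [(hN k).2, (hN l).2]
    exact hsub
  have hmain : ∀ (k h : ℕ), h + k = n + 1 →
      {F : Set (Tre A) | ∃ N i, GN n g N h i ∧ F = vl n g N}.Countable := by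
    intro k
    induction k with
    | zero =>
      intro h hk
      have hh : h = n + 1 := by omega
      subst hh
      apply (Set.countable_singleton (univ : Set (Tre A))).mono
      rintro F ⟨N, i, hN, rfl⟩
      have : N = .nil := nil_CN n _ N i hN
      subst this
      rw [mem_singleton_iff]
      rfl
    | succ k ih =>
      intro h hk
      have hc := ih (h + 1) (by omega)
      have hsc : @SecondCountableTopology (Tre A) (stg n g i₀ h) := by
        rw [s1 i₀ h]
        apply (hNT A).2.2.2.2.2.2.1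
        apply hc.mono
        rintro F ⟨N, hN, rfl⟩
        exact ⟨N, i₀, hN, rfl⟩
      apply hCT (Tre A) (stg n g i₀ h) hsc _ _ (hwqo h)
      rintro F ⟨N, i, hN, rfl⟩
      have hcl := (g2 N h i hN).1
      rcases le_total i i₀ with hi | hi
      · exact hcl.mono (s4 i i₀ h hi)
      · rw [hi₀ i hi] at hcl
        exact hcl
  apply (hmain (n + 1) 0 (by omega)).mono
  rintro F ⟨N, h, i, hN, rfl⟩
  exact ⟨N, i, s2 N h 0 i i (Nat.zero_le _) le_rfl hN, rfl⟩

end Pool.Agent.Helper24.WH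

end

section

set_option autoImplicit false

namespace Pool.Agent.Helper24.WH

theorem hFO : StFO := by
  intro Q r E _ _ φ hr hφ
  by_contra hinf
  have hinf' : (Set.range φ).Infinite := hinf
  let f := hinf'.natEmbedding
  choose q hq using fun n => (f n).2
  obtain ⟨g, h | h⟩ := exists_increasing_or_nonincreasing_subseq (fun a b : E => a < b)
    (fun n => (f n : E))
  · obtain ⟨i, j, hij, hr'⟩ := hr (fun n => q (g n))
    have h1 := hφ _ _ hr'
    have h2 := h i j hij
    simp only [hq] at h1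
    exact absurd h2 (not_lt.mpr h1)
  · have h3 : StrictAnti (fun n => (f (g n) : E)) := by
      intro m n hmn
      refine lt_of_le_of_ne (not_lt.mp (h m n hmn)) ?_
      intro he
      have h4 : f (g n) = f (g m) := Subtype.ext he
      exact absurd (g.injective (f.injective h4)) hmn.ne'
    exact not_strictAnti_of_wellFoundedLT _ h3

end Pool.Agent.Helper24.WH

end

section

set_option autoImplicit false

namespace Pool.Agent.Helper24.WH

open Set TopologicalSpace Topology
open Ordinal hiding univ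

theorem hPL (hPR : StPR) (hNT : StNT) (hCN : StCN) (hSU : StSU) (hSG : StSG) : StPL := by
  intro A S _ _ n g Ga hyp i
  obtain ⟨-, -, hcont, -, -, -, -, -, -, hpol, -⟩ := hNT A
  obtain ⟨hstg, -, -, -, hmono, -, htop, -, -⟩ := hSU A S n g
  have hname := (hSG A S n g Ga hyp).2
  have hcnt := hCN A S n g Ga hyp
  have hbig : ∀ M, n ≤ M → @PolishSpace _ (stg n g i M) := by
    intro M hM
    rw [htop i M hM]
    exact hpol
  have hstep : ∀ M, @PolishSpace _ (stg n g i (M + 1)) → @PolishSpace _ (stg n g i M) := by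
    intro M hM
    set 𝓕 : Set (Set (Tre A)) := {U | ∃ F ∈ {F | ∃ N : Nm S, GN n g N (M + 1) i ∧ F = vl n g N},
      ∃ u : List Bool, U = {t : Tre A | t.sub u ∈ F}} with h𝓕
    have hc : 𝓕.Countable := by
      have h1 : ({F | ∃ N h i, GN n g N h i ∧ F = vl n g N} ×ˢ (univ : Set (List Bool))).Countable :=
        hcnt.prod (countable_univ)
      refine (h1.image (fun p : Set (Tre A) × List Bool => {t : Tre A | t.sub p.2 ∈ p.1})).mono ?_
      rintro U ⟨F, ⟨N, hN, hF⟩, u, rfl⟩
      exact ⟨(F, u), ⟨⟨N, M + 1, i, hN, hF⟩, mem_univ _⟩, rfl⟩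
    have hcl : ∀ F ∈ 𝓕, IsClosed[stg n g i (M + 1)] F := by
      rintro U ⟨F, ⟨N, hN, rfl⟩, u, rfl⟩
      have h1 : IsClosed[stg n g i (M + 1)] (vl n g N) := (hname N (M + 1) i hN).1
      have h2 := hcont {F | ∃ N : Nm S, GN n g N (M + 1 + 1) i ∧ F = vl n g N} u
      rw [← hstg i (M + 1)] at h2
      exact @IsClosed.preimage _ _ (stg n g i (M + 1)) (stg n g i (M + 1)) _ h2 _ h1
    have hP := hPR (Tre A) (stg n g i (M + 1)) hM 𝓕 hc hcl
    have he : stg n g i M = stg n g i (M + 1) ⊓ generateFrom 𝓕 := by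
      apply le_antisymm
      · refine le_inf (hmono i M) ?_
        rw [hstg i M, le_generateFrom_iff_subset_isOpen]
        intro U hU
        exact isOpen_generateFrom_of_mem (Or.inr hU)
      · rw [hstg i M, le_generateFrom_iff_subset_isOpen]
        rintro U (⟨u, a, rfl⟩ | hU)
        · have h1 : IsOpen[stg n g i (M + 1)] {t : Tre A | t u = a} := by
            rw [hstg i (M + 1)]
            exact isOpen_generateFrom_of_mem (Or.inl ⟨u, a, rfl⟩)
          exact (inf_le_left : stg n g i (M + 1) ⊓ generateFrom 𝓕 ≤ stg n g i (M + 1)) _ h1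
        · have h1 : IsOpen[generateFrom 𝓕] U := isOpen_generateFrom_of_mem hU
          exact (inf_le_right : stg n g i (M + 1) ⊓ generateFrom 𝓕 ≤ generateFrom 𝓕) _ h1
    rw [he]
    exact hP
  intro M
  by_cases h : n ≤ M
  · exact hbig M h
  · obtain ⟨k, rfl⟩ : ∃ k, n = M + k := ⟨n - M, by omega⟩
    clear h
    have : ∀ j M', M + k = M' + j → @PolishSpace _ (stg (M + k) g i M') := by
      intro j
      induction j with
      | zero => intro M' hM'; exact hbig M' (by omega)
      | succ j ih => intro M' hM'; exact hstep M' (ih (M' + 1) (by omega))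
    exact this k M rfl

end Pool.Agent.Helper24.WH

end

section

/-!
# PROJECT WH (MP_76577a_lc), module RS: the rich system (4.6, 4.7)
-/

set_option autoImplicit false

namespace Pool.Agent.Helper24.WH

open Set TopologicalSpace Topology
open Ordinal hiding univ

variable {A S : Type}

/-- finite unions of pieces -/
private theorem pcBUnion_RS {n : ℕ} {g : Tre A → S} {h : ℕ} {ι : Type*} (s : Set ι) (hs : s.Finite)
    (f : ι → Set (Tre A)) (hf : ∀ i ∈ s, Pc n g h (f i)) : Pc n g h (⋃ i ∈ s, f i) := by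
  induction s, hs using Set.Finite.induction_on with
  | empty =>
    rw [biUnion_empty]
    exact Pc.empty
  | insert _ _ ih =>
    rw [biUnion_insert]
    exact Pc.union _ _ (hf _ (mem_insert _ _)) (ih fun i hi => hf i (mem_insert_of_mem _ hi))

private theorem pcUnion_RS {n : ℕ} {g : Tre A → S} {h : ℕ} {ι : Type*} [Finite ι]
    (f : ι → Set (Tre A)) (hf : ∀ i, Pc n g h (f i)) : Pc n g h (⋃ i, f i) := by
  have := pcBUnion_RS (n := n) (g := g) (h := h) univ (finite_univ) f (fun i _ => hf i)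
  rwa [biUnion_univ] at this

private theorem pcUniv_RS {n : ℕ} {g : Tre A → S} {h : ℕ} : Pc n g h univ := by
  have := Pc.nm (n := n) (g := g) (h := h) Fo.nil 0 (by unfold GN Good; trivial)
  have e : vl n g (Fo.nil : Nm S) = univ := by unfold vl val; rfl
  rwa [e] at this

/-- pieces of height `0` are pieces of height `1` -/
private theorem pc01_RS [Finite A] [Finite S] (hSU : StSU) {n : ℕ} {g : Tre A → S} {B : Set (Tre A)}
    (h : Pc n g 0 B) : Pc n g 1 B := by
  induction h with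
  | nm N i hN => exact Pc.nm N i ((hSU A S n g).2.2.1 N i hN)
  | mk a C₀ C₁ _ _ ih₀ ih₁ => exact Pc.mk a C₀ C₁ ih₀ ih₁
  | union C₀ C₁ _ _ ih₀ ih₁ => exact Pc.union C₀ C₁ ih₀ ih₁
  | empty => exact Pc.empty

/-- `Z` depends only on the topologies of index at most `m` -/
private theorem zCongr_RS {X : Type} (τ τ' : ℕ → TopologicalSpace X) (g : X → S) (m : ℕ)
    (h : ∀ k ≤ m, τ k = τ' k) : ∀ t : TT S m, Z τ g m t = Z τ' g m t := by
  induction m with
  | zero =>
    intro s
    funext B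
    simp only [Z]
  | succ m ih =>
    intro t
    funext B
    have e : (fun U => HomOp (τ (m + 1)) (Z τ g m U)) = (fun U => HomOp (τ' (m + 1)) (Z τ' g m U)) := by
      funext U
      rw [h (m + 1) le_rfl, ih (fun k hk => h k (by omega)) U]
    show ZTr (fun U => HomOp (τ (m + 1)) (Z τ g m U)) t B = ZTr (fun U => HomOp (τ' (m + 1)) (Z τ' g m U)) t B
    rw [e]

private theorem dLCongr_RS {X : Type} (τ τ' : ℕ → TopologicalSpace X) (g : X → S) (m : ℕ)
    (h : ∀ k ≤ m + 1, τ k = τ' k) (L : ℕ → TT S m) : dL τ g m L = dL τ' g m L := by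
  funext B
  unfold dL hom
  refine iInter_congr fun i => ?_
  rw [h (m + 1) le_rfl, zCongr_RS τ τ' g m (fun k hk => h k (by omega)) (L i)]

/-- the name `cl` -/
private theorem pcCl_RS {n : ℕ} {g : Tre A → S} {i₀ : Ordinal.{0}}
    (h₀ : ∀ i, i₀ ≤ i → stg n g i = stg n g i₀) (hSUm : ∀ (N : Nm S) h h' i i', h' ≤ h → i ≤ i' →
      GN n g N h i → GN n g N h' i') (N : Nm S) (i : Ordinal.{0}) (hN : GN n g N 0 i)
    (M : ℕ) (hM1 : 1 ≤ M) (hMn : M ≤ n) (s : S) :
    Pc n g M (closure[stg n g i₀ M] (g ⁻¹' {s} ∩ vl n g N)) := by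
  have hN' : GN n g (Fo.cons (Lab.cl M s (max i i₀)) N Fo.nil) M (max i i₀ + 1) := by
    refine ⟨le_rfl, hM1, hMn, ?_, hSUm N 0 0 i _ le_rfl (le_max_left _ _) hN, trivial⟩
    exact Order.lt_succ _
  have := Pc.nm (n := n) (g := g) (h := M) _ _ hN'
  have e : vl n g (Fo.cons (Lab.cl M s (max i i₀)) N Fo.nil) =
      closure[stg n g i₀ M] (g ⁻¹' {s} ∩ vl n g N) := by
    show closure[stg n g (max i i₀) M] (g ⁻¹' {s} ∩ vl n g N) ∩ univ = _
    rw [h₀ _ (le_max_right _ _), inter_univ]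
  rwa [e] at this

/-- the name `dd` -/
private theorem pcDd_RS {n : ℕ} {g : Tre A → S} {i₀ : Ordinal.{0}}
    (h₀ : ∀ i, i₀ ≤ i → stg n g i = stg n g i₀) (hSUm : ∀ (N : Nm S) h h' i i', h' ≤ h → i ≤ i' →
      GN n g N h i → GN n g N h' i') (m : ℕ) (hm : m + 1 ≤ n) (N : Nm S) (i : Ordinal.{0})
    (hN : GN n g N (m + 1) i) (L : ℕ → TT S m) (x : ℕ) :
    Pc n g (m + 1) (iter (dL (stg n g i₀) g m L) (vl n g N) (ω ^ (x : Ordinal.{0}))) := by
  have hN' : GN n g (Fo.cons (Lab.dd m L x (max i i₀)) N Fo.nil) (m + 1) (max i i₀ + 1) := by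
    refine ⟨le_rfl, hm, ?_, hSUm N _ _ i _ le_rfl (le_max_left _ _) hN, trivial⟩
    exact Order.lt_succ _
  have := Pc.nm (n := n) (g := g) (h := m + 1) _ _ hN'
  have e : vl n g (Fo.cons (Lab.dd m L x (max i i₀)) N Fo.nil) =
      iter (dL (stg n g i₀) g m L) (vl n g N) (ω ^ (x : Ordinal.{0})) := by
    show iter (dL (stg n g (max i i₀)) g m L) (vl n g N) (ω ^ (x : Ordinal.{0})) ∩ univ = _
    rw [h₀ _ (le_max_right _ _), inter_univ]
  rwa [e] at this


private theorem closedMono_RS {X : Type} {τ τ' : TopologicalSpace X} (h : τ ≤ τ') {B : Set X}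
    (hB : IsClosed[τ'] B) : IsClosed[τ] B :=
  @IsClosed.mk X τ B (h _ (@IsClosed.isOpen_compl X τ' B hB))

/-- closures of fibres in a piece -/
private theorem pcClo_RS [Finite A] [Finite S] (hSC : StSC) {n : ℕ} {g : Tre A → S}
    {Ga : A → S × S → S} (hH : Hyp n g Ga) {i₀ : Ordinal.{0}}
    (h₀ : ∀ i, i₀ ≤ i → stg n g i = stg n g i₀) (hSUm : ∀ (N : Nm S) h h' i i', h' ≤ h → i ≤ i' →
      GN n g N h i → GN n g N h' i')
    (hCE : ∀ (a : A) (M : ℕ), CE (prodT (stg n g i₀) (stg n g i₀) M) (stg n g i₀ M) (Tre.mk a))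
    (M : ℕ) (hM1 : 1 ≤ M) (hMn : M ≤ n) {C : Set (Tre A)} (hC : Pc n g 0 C) :
    ∀ s, Pc n g M (closure[stg n g i₀ M] (g ⁻¹' {s} ∩ C)) := by
  induction hC with
  | nm N i hN => exact fun s => pcCl_RS h₀ hSUm N i hN M hM1 hMn s
  | mk a C₀ C₁ _ _ ih₀ ih₁ =>
    intro s
    have h1 := hSC (Tre A) S (stg n g i₀ M) g (Tre.mk a) (Ga a) (fun p => hH.hom a p) (hCE a M) s 1
      (fun _ => C₀) (fun _ => C₁) (Tre.mk a '' (C₀ ×ˢ C₁))
      (by rw [inter_eq_left.2 (image_subset_range _ _), iUnion_const])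
    have h2 : closure[stg n g i₀ M] (g ⁻¹' {s} ∩ (Tre.mk a '' (C₀ ×ˢ C₁))) ⊆ range (Tre.mk a) :=
      @closure_minimal _ (stg n g i₀ M) _ _ (inter_subset_right.trans (image_subset_range _ _))
        (hCE a M).2.2.1
    rw [inter_eq_left.2 h2] at h1
    rw [h1]
    exact pcUnion_RS _ fun q => pcBUnion_RS _ (Set.toFinite _) _ fun p _ =>
      Pc.mk _ _ _ (ih₀ p.1) (ih₁ p.2)
  | union C₀ C₁ _ _ ih₀ ih₁ =>
    intro s
    rw [inter_union_distrib_left, @closure_union _ (stg n g i₀ M)]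
    exact Pc.union _ _ (ih₀ s) (ih₁ s)
  | empty =>
    intro s
    rw [inter_empty, @closure_empty _ (stg n g i₀ M)]
    exact Pc.empty

/-- finite intersections of pieces -/
private theorem pcBInter_RS {n : ℕ} {g : Tre A → S} {h : ℕ}
    (hI : ∀ B B', Pc n g h B → Pc n g h B' → Pc n g h (B ∩ B')) {ι : Type*} (s : Set ι) (hs : s.Finite)
    (f : ι → Set (Tre A)) (hf : ∀ i ∈ s, Pc n g h (f i)) : Pc n g h (⋂ i ∈ s, f i) := by
  induction s, hs using Set.Finite.induction_on with
  | empty =>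
    rw [biInter_empty]
    exact pcUniv_RS
  | insert _ _ ih =>
    rw [biInter_insert]
    exact hI _ _ (hf _ (mem_insert _ _)) (ih fun i hi => hf i (mem_insert_of_mem _ hi))

/-- regrouping a countable intersection by a colouring of the indices with finitely many colours -/
private theorem regroup_RS {X T : Type} {k : ℕ} (c : ℕ → T × Fin k) (H : T → Fin k → Set X) :
    ∃ φ : Fin k → ℕ → ℕ,
      ⋂ i, H (c i).1 (c i).2 = ⋂ q ∈ range (fun i => (c i).2), ⋂ n, H (c (φ q n)).1 q := by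
  classical
  have hch : ∀ q : Fin k, ∃ i : ℕ, q ∈ range (fun i => (c i).2) → (c i).2 = q := by
    intro q
    by_cases hq : q ∈ range (fun i => (c i).2)
    · obtain ⟨i, hi⟩ := hq
      exact ⟨i, fun _ => hi⟩
    · exact ⟨0, fun h => absurd h hq⟩
  choose j hj using hch
  refine ⟨fun q n => if (c n).2 = q then n else j q, ?_⟩
  ext y
  simp only [mem_iInter]
  constructor
  · intro h q hq n
    by_cases hn : (c n).2 = q
    · have := h n
      simp only [hn, if_true]
      rw [hn] at this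
      exact this
    · have h1 := h (j q)
      rw [hj q hq] at h1
      simp only [hn, if_false]
      exact h1
  · intro h i
    have := h (c i).2 ⟨i, rfl⟩ i
    simpa using this

/-- the operator `z = Z m t` as an operator for the coarser topology -/
private theorem mcl_RS {X : Type} (hZM : StZM) (τ : ℕ → TopologicalSpace X) (g : X → S)
    (hT : Tow τ) (hF : Fib τ g) (m : ℕ) (t : TT S m) : MCL (τ (m + 1)) (Z τ g m t) := by
  have h := (hZM X S τ g hT hF m).1 t
  refine ⟨h.mono, h.le, fun O B hO => h.loc O B ?_⟩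
  exact ⟨closedMono_RS (hT.mono m) hO.1, (hT.mono m) _ hO.2⟩

/-- `d_L` of a finite union of pieces is a piece -/
private theorem pcD0_RS [Finite S] (hTB : StTB) (hTP : StTP) (hFN : StFN) (hHA : StHA) (hZM : StZM)
    (hZA : StZA) {n : ℕ} {g : Tre A → S} {τ : ℕ → TopologicalSpace (Tre A)} (hT : Tow τ) (hF : Fib τ g)
    (m : ℕ) {k : ℕ} (C : Fin k → Set (Tre A)) (hcl : ∀ q, IsClosed[τ (m + 1)] (C q))
    (hI : ∀ B B', Pc n g (m + 1) B → Pc n g (m + 1) B' → Pc n g (m + 1) (B ∩ B'))
    (ih : ∀ q (L : ℕ → TT S m), Pc n g (m + 1) (dL τ g m L (C q))) (L : ℕ → TT S m) :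
    Pc n g (m + 1) (dL τ g m L (⋃ q, C q)) := by
  have h1 : ∀ i, hom τ g m (L i) (⋃ q, C q) = ⋃ q, hom τ g m (L i) (C q) := fun i =>
    hHA (Tre A) (τ (m + 1)) (Z τ g m (L i)) (hT.zd (m + 1)) (mcl_RS hZM τ g hT hF m (L i)) (Fin k) C hcl
  obtain ⟨hrefl, htrans⟩ := hTP.2.1 S m
  obtain ⟨Cs, hCs, -, hCeq⟩ := hFN (TT S m × Fin k) (fun a b => TT.Le m a.1 b.1 ∧ a.2 = b.2)
    (fun a => ⟨hrefl a.1, rfl⟩) (fun a b c hab hbc => ⟨htrans _ _ _ hab.1 hbc.1, hab.2.trans hbc.2⟩)
    (hTB S m k).2.2 (fun i => {L i} ×ˢ univ) (fun i => (finite_singleton _).prod finite_univ)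
  have h2 := hCeq (Tre A) (fun e => hom τ g m e.1 (C e.2)) (by
    rintro ⟨a, q⟩ ⟨b, q'⟩ ⟨hab, hq⟩
    simp only at hab hq
    subst hq
    exact (hZA (Tre A) S τ g m).2.1 a b hab (C q))
  have h3 : dL τ g m L (⋃ q, C q) = ⋂ i, ⋃ e ∈ ({L i} ×ˢ univ : Set (TT S m × Fin k)),
      hom τ g m e.1 (C e.2) := by
    unfold dL
    refine iInter_congr fun i => ?_
    rw [h1 i]
    ext y
    simp only [mem_iUnion, mem_prod, mem_singleton_iff, mem_univ, and_true, exists_prop, Prod.exists]
    constructor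
    · rintro ⟨q, hq⟩
      exact ⟨L i, q, rfl, hq⟩
    · rintro ⟨_, q, rfl, hq⟩
      exact ⟨q, hq⟩
  rw [h3, h2]
  refine pcBUnion_RS _ hCs _ fun c _ => ?_
  obtain ⟨φ, hφ⟩ := regroup_RS c (fun t q => hom τ g m t (C q))
  rw [hφ]
  exact pcBInter_RS hI _ (Set.toFinite _) _ fun q _ => ih q (fun n => (c (φ q n)).1)


/-- the iterates of `d_L` of a piece are pieces -/
private theorem pcDL_RS [Finite A] [Finite S] (hIT : StIT) (hEZ : StEZ) (hRD : StRD) (hPZ : StPZ)
    (hPT : StPT) (hAD : StAD) (hTB : StTB) (hTP : StTP) (hFN : StFN) (hHA : StHA) (hZM : StZM)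
    (hZA : StZA) {n : ℕ} {g : Tre A → S} {Ga : A → S × S → S} (hH : Hyp n g Ga) {i₀ : Ordinal.{0}}
    (h₀ : ∀ i, i₀ ≤ i → stg n g i = stg n g i₀) (hSUm : ∀ (N : Nm S) h h' i i', h' ≤ h → i ≤ i' →
      GN n g N h i → GN n g N h' i') (hT : Tow (stg n g i₀)) (hF : Fib (stg n g i₀) g)
    (hCE : ∀ (a : A) (M : ℕ), CE (prodT (stg n g i₀) (stg n g i₀) M) (stg n g i₀ M) (Tre.mk a))
    (m : ℕ) (hm : m + 1 ≤ n)
    (hI : ∀ B B', Pc n g (m + 1) B → Pc n g (m + 1) B' → Pc n g (m + 1) (B ∩ B'))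
    (hcl : ∀ B, Pc n g (m + 1) B → IsClosed[stg n g i₀ (m + 1)] B)
    {C : Set (Tre A)} (hC : Pc n g (m + 1) C) :
    ∀ (L : ℕ → TT S m) (x : ℕ),
      Pc n g (m + 1) (iter (dL (stg n g i₀) g m L) C (ω ^ (x : Ordinal.{0}))) := by
  induction hC with
  | nm N i hN => exact fun L x => pcDd_RS h₀ hSUm m hm N i hN L x
  | mk a C₀ C₁ hC₀ hC₁ ih₀ ih₁ =>
    intro L x
    have h1 := (hEZ (Tre A × Tre A) (Tre A) S (prodT (stg n g i₀) (stg n g i₀)) (stg n g i₀) g
      (Tre.mk a) (fun M => hCE a M) m).2.2 L (C₀ ×ˢ C₁) (ω ^ (x : Ordinal.{0}))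
    have h2 : g ∘ Tre.mk a = Ga a ∘ Prod.map g g := by
      funext p
      exact hH.hom a p
    obtain ⟨Cs, hCs, hCeq⟩ := (hRD (S × S) S (Ga a) m L).2
    obtain ⟨hT', hF'⟩ := hPT (Tre A) (Tre A) S S (stg n g i₀) (stg n g i₀) g g hT hT hF hF
    have hcl' : IsClosed[prodT (stg n g i₀) (stg n g i₀) (m + 1)] (C₀ ×ˢ C₁) :=
      @IsClosed.prod _ _ (stg n g i₀ (m + 1)) (stg n g i₀ (m + 1)) _ _ (hcl _ hC₀) (hcl _ hC₁)
    have h3 := (hCeq (Tre A × Tre A) (prodT (stg n g i₀) (stg n g i₀)) (Prod.map g g) hT' hF'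
      (C₀ ×ˢ C₁) hcl').2 (x : Ordinal.{0})
    rw [h1, h2, h3, image_iUnion₂]
    refine pcBUnion_RS _ hCs _ fun L' _ => ?_
    rw [(hPZ (Tre A) (Tre A) S S (stg n g i₀) (stg n g i₀) g g m).2.2 L' C₀ C₁]
    exact Pc.mk _ _ _ (ih₀ _ _) (ih₁ _ _)
  | union C₀ C₁ hC₀ hC₁ ih₀ ih₁ =>
    intro L x
    have hd := (hZM (Tre A) S (stg n g i₀) g hT hF m).2.2 L
    rcases Nat.eq_zero_or_pos x with rfl | hx
    · have hone : ∀ (L : ℕ → TT S m) (B : Set (Tre A)),
          iter (dL (stg n g i₀) g m L) B (ω ^ ((0 : ℕ) : Ordinal.{0})) = dL (stg n g i₀) g m L B := by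
        intro L B
        have hd := (hZM (Tre A) S (stg n g i₀) g hT hF m).2.2 L
        obtain ⟨h0, h1, -⟩ := hIT (Tre A) _ hd.mono hd.le
        have h2 := h1 B 0
        rw [h0 B, zero_add] at h2
        rw [Nat.cast_zero, Ordinal.opow_zero]
        exact h2
      have hU : C₀ ∪ C₁ = ⋃ q : Fin 2, ![C₀, C₁] q := by
        ext y
        simp [Fin.exists_fin_two]
      rw [hone, hU]
      refine pcD0_RS hTB hTP hFN hHA hZM hZA hT hF m _ ?_ hI ?_ L
      · intro q
        fin_cases q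
        · exact hcl _ hC₀
        · exact hcl _ hC₁
      · intro q L
        fin_cases q
        · have := ih₀ L 0
          rwa [hone] at this
        · have := ih₁ L 0
          rwa [hone] at this
    · have h1 : (1 : Ordinal.{0}) ≤ (x : Ordinal.{0}) := by exact_mod_cast hx
      rw [hAD (Tre A) (stg n g i₀ (m + 1)) (hT.zd (m + 1)) _ hd C₀ C₁ x (hcl _ hC₀) (hcl _ hC₁) h1]
      exact Pc.union _ _ (ih₀ L x) (ih₁ L x)
  | empty =>
    intro L x
    have hd := (hZM (Tre A) S (stg n g i₀) g hT hF m).2.2 L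
    obtain ⟨-, -, -, -, -, h6, -⟩ := hIT (Tre A) _ hd.mono hd.le
    rw [subset_empty_iff.1 (h6 ∅ (ω ^ (x : Ordinal.{0})))]
    exact Pc.empty

/-- the indiscrete topology -/
private theorem zdTop_RS {X : Type} : ZD (⊤ : TopologicalSpace X) := by
  intro x U hU hx
  refine ⟨univ, @isClopen_univ _ ⊤, mem_univ _, ?_⟩
  rcases (TopologicalSpace.isOpen_top_iff U).1 hU with h | h
  · rw [h] at hx
    exact absurd hx (by simp)
  · rw [h]

theorem hRS (hSG : StSG) (hSU : StSU) (hPI : StPI) (hEC : StEC) (hPL : StPL) (hSC : StSC)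
    (hEZ : StEZ) (hRD : StRD) (hPZ : StPZ) (hPT : StPT) (hAD : StAD) (hFN : StFN) (hTB : StTB)
    (hTP : StTP) (hIT : StIT) (hZM : StZM) (hZA : StZA) (hHA : StHA) : StRS := by
  intro A S _ _ _ n g Ga hH
  obtain ⟨-, hSUm, -, hmono, -, -, hnt, -, -⟩ := hSU A S n g
  obtain ⟨i₀, h₀⟩ := hEC (Tre A) (stg n g) (fun i j hij m => hmono i j m hij)
  obtain ⟨hst, -⟩ := hSG A S n g Ga hH
  obtain ⟨hT, hF, hCE⟩ := hst i₀
  have hPIh := fun h => hPI A S n g Ga hH h
  have hcl : ∀ h B, Pc n g h B → IsClosed[stg n g i₀ h] B := by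
    intro h B hB
    obtain ⟨i, hi⟩ := (hPIh h).2.2.2.2.1 B hB
    rw [← h₀ (max i i₀) (le_max_right _ _)]
    exact closedMono_RS (hmono _ _ _ (le_max_left _ _)) hi
  have hop : ∀ h B, Pc n g (h + 1) B → IsOpen[stg n g i₀ h] B := by
    intro h B hB
    obtain ⟨i, hi⟩ := (hPIh h).2.2.2.2.2.1 B hB
    rw [← h₀ (max i i₀) (le_max_right _ _)]
    exact (hmono _ _ _ (le_max_left _ _)) _ hi
  have hfT : ∀ M, M ≤ n → fT n g i₀ M = stg n g i₀ M := fun M hM => if_pos hM
  have hfT' : ∀ M, n < M → fT n g i₀ M = ⊤ := fun M hM => if_neg (by omega)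
  refine ⟨i₀, ?_, ?_, h₀⟩
  swap
  · rw [hfT n le_rfl]
    exact hnt i₀ n le_rfl
  have hanti : ∀ M, PP n g (M + 1) ⊆ PP n g M := by
    intro M B hB
    cases M with
    | zero =>
      refine ⟨fun _ => B, fun _ => (hPIh 0).2.1 B hB, ?_⟩
      rw [← inter_iUnion]
      have : (⋃ s : S, g ⁻¹' {s}) = univ := by
        ext t
        simp
      rw [this, inter_univ]
    | succ M => exact (hPIh (M + 1)).2.1 B hB
  have hcl' : ∀ M, M ≤ n → ∀ B ∈ PP n g M, IsClosed[fT n g i₀ M] B := by
    intro M hM B hB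
    rw [hfT M hM]
    cases M with
    | zero =>
      obtain ⟨c, hc, rfl⟩ := hB
      refine @isClosed_iUnion_of_finite _ _ (stg n g i₀ 0) _ _ fun s => ?_
      exact @IsClosed.inter _ _ _ (stg n g i₀ 0) (hcl 0 _ (hc s)) (hF s).1
    | succ M => exact hcl _ _ hB
  constructor
  case tow =>
    constructor
    · intro M
      by_cases hM : M + 1 ≤ n
      · rw [hfT _ hM, hfT M (by omega)]
        exact hT.mono M
      · rw [hfT' (M + 1) (by omega)]
        exact le_top
    · intro M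
      by_cases hM : M ≤ n
      · rw [hfT _ hM]
        exact hT.zd M
      · rw [hfT' M (by omega)]
        exact zdTop_RS
  case fib =>
    intro s
    rw [hfT 0 (Nat.zero_le _)]
    exact hF s
  case top => exact hfT'
  case anti => exact hanti
  case cl => exact hcl'
  case op =>
    intro M hM B hB
    rw [hfT M hM]
    exact hop M B hB
  case op0 =>
    intro B hB
    rw [hfT 0 (Nat.zero_le _)]
    obtain ⟨c, hc, rfl⟩ := hB
    refine @isOpen_iUnion _ _ (stg n g i₀ 0) _ fun s => ?_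
    exact @IsOpen.inter _ (stg n g i₀ 0) _ _ (hop 0 _ (pc01_RS hSU (hc s))) (hF s).2
  case basis =>
    intro M hM x U hU hx
    rw [hfT M hM, (hSU A S n g).1 i₀ M] at hU
    induction hU with
    | basic s hs =>
      refine ⟨s, ?_, hx, subset_rfl⟩
      rcases hs with ⟨u, a, rfl⟩ | ⟨F, ⟨N, hN, rfl⟩, u, rfl⟩
      · exact (hPIh (M + 1)).2.2.2.2.2.2 u a
      · exact (hPIh (M + 1)).2.2.2.1 _ (Pc.nm N i₀ hN) u
    | univ => exact ⟨univ, pcUniv_RS, hx, subset_rfl⟩
    | inter s t _ _ ihs iht =>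
      obtain ⟨O, hO, hxO, hOs⟩ := ihs hx.1
      obtain ⟨O', hO', hxO', hOt⟩ := iht hx.2
      exact ⟨O ∩ O', (hPIh (M + 1)).1 _ _ hO hO', ⟨hxO, hxO'⟩, inter_subset_inter hOs hOt⟩
    | sUnion T _ ih =>
      obtain ⟨s, hs, hxs⟩ := hx
      obtain ⟨O, hO, hxO, hOs⟩ := ih s hs hxs
      exact ⟨O, hO, hxO, hOs.trans (subset_sUnion_of_mem hs)⟩
  case cnt =>
    intro M
    cases M with
    | zero =>
      have h1 : {c : S → Set (Tre A) | ∀ s, c s ∈ {B | Pc n g 0 B}}.Countable :=
        Set.countable_pi (fun _ => (hPIh 0).2.2.1)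
      refine (h1.image (fun c => ⋃ s, c s ∩ g ⁻¹' {s})).mono ?_
      rintro _ ⟨c, hc, rfl⟩
      exact ⟨c, hc, rfl⟩
    | succ M => exact (hPIh (M + 1)).2.2.1
  case univ =>
    intro M
    cases M with
    | zero => exact hanti 0 pcUniv_RS
    | succ M => exact pcUniv_RS
  case empty =>
    intro M
    cases M with
    | zero => exact hanti 0 Pc.empty
    | succ M => exact Pc.empty
  case inter =>
    intro M B hB B' hB'
    cases M with
    | zero =>
      obtain ⟨c, hc, rfl⟩ := hB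
      obtain ⟨c', hc', rfl⟩ := hB'
      refine ⟨fun s => c s ∩ c' s, fun s => (hPIh 0).1 _ _ (hc s) (hc' s), ?_⟩
      ext t
      simp only [mem_inter_iff, mem_iUnion, mem_preimage, mem_singleton_iff]
      constructor
      · rintro ⟨⟨s, h1, h2⟩, ⟨s', h3, h4⟩⟩
        subst h2
        subst h4
        exact ⟨_, ⟨h1, h3⟩, rfl⟩
      · rintro ⟨s, ⟨h1, h3⟩, h2⟩
        exact ⟨⟨s, h1, h2⟩, ⟨s, h3, h2⟩⟩
    | succ M => exact (hPIh (M + 1)).1 _ _ hB hB'
  case union =>
    intro M B hB B' hB'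
    cases M with
    | zero =>
      obtain ⟨c, hc, rfl⟩ := hB
      obtain ⟨c', hc', rfl⟩ := hB'
      refine ⟨fun s => c s ∪ c' s, fun s => Pc.union _ _ (hc s) (hc' s), ?_⟩
      rw [← iUnion_union_distrib]
      refine iUnion_congr fun s => ?_
      rw [union_inter_distrib_right]
    | succ M => exact Pc.union _ _ hB hB'
  case clo =>
    intro M hM B hB
    rcases Nat.lt_or_ge n M with hnM | hMn
    · rw [hfT' M hnM]
      obtain ⟨M', rfl⟩ : ∃ M', M = M' + 1 := ⟨M - 1, by omega⟩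
      rcases B.eq_empty_or_nonempty with rfl | hne
      · rw [@closure_empty _ ⊤]
        exact Pc.empty
      · have : closure[(⊤ : TopologicalSpace (Tre A))] B = univ := by
          have h1 : IsOpen[(⊤ : TopologicalSpace (Tre A))] (closure[(⊤ : TopologicalSpace (Tre A))] B)ᶜ :=
            @IsClosed.isOpen_compl _ ⊤ _ (@isClosed_closure _ ⊤ B)
          rcases (TopologicalSpace.isOpen_top_iff _).1 h1 with h | h
          · exact compl_empty_iff.1 h
          · exfalso
            rw [compl_univ_iff] at h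
            obtain ⟨t, ht⟩ := hne
            have := @subset_closure _ ⊤ B t ht
            rw [h] at this
            exact this
        rw [this]
        exact pcUniv_RS
    · cases M with
      | zero =>
        rw [@IsClosed.closure_eq _ (fT n g i₀ 0) _ (hcl' 0 hMn B hB)]
        exact hB
      | succ M =>
        rw [hfT _ hMn]
        obtain ⟨c, hc, rfl⟩ := hB
        rw [@closure_iUnion_of_finite _ (stg n g i₀ (M + 1)) S _]
        refine pcUnion_RS _ fun s => ?_
        rw [inter_comm]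
        exact pcClo_RS hSC hH h₀ hSUm hCE (M + 1) (by omega) hMn (hc s) s
  case fibP =>
    classical
    rintro B ⟨c, hc, rfl⟩ s
    refine ⟨fun s' => if s' = s then c s else ∅, fun s' => ?_, ?_⟩
    · dsimp only
      split_ifs
      · exact hc s
      · exact Pc.empty
    · ext t
      simp only [mem_inter_iff, mem_iUnion, mem_preimage, mem_singleton_iff]
      constructor
      · rintro ⟨⟨s', h1, h2⟩, h3⟩
        have : s' = s := h2.symm.trans h3
        subst this
        exact ⟨s', by simpa using h1, h2⟩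
      · rintro ⟨s', h1, h2⟩
        by_cases h : s' = s
        · subst h
          rw [if_pos rfl] at h1
          exact ⟨⟨s', h1, h2⟩, h2⟩
        · rw [if_neg h] at h1
          exact absurd h1 (by simp)
  case dd =>
    intro m hm L x B hB
    rw [dLCongr_RS (fT n g i₀) (stg n g i₀) g m (fun k hk => hfT k (by omega)) L]
    exact pcDL_RS hIT hEZ hRD hPZ hPT hAD hTB hTP hFN hHA hZM hZA hH h₀ hSUm hT hF hCE m hm
      (hPIh (m + 1)).1 (hcl (m + 1)) hB L x
  case pol =>
    intro M hM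
    rw [hfT M hM]
    exact hPL A S n g Ga hH i₀ M

end Pool.Agent.Helper24.WH

end

section

/-!
# Project WH, module SG
-/

set_option autoImplicit false

namespace Pool.Agent.Helper24.WH

theorem hSG (h1 : StSA) (h2 : StSB) : StSG := by
  intro A S _ _ n g Ga hyp
  have hst : ∀ i : Ordinal.{0}, StageOK n g i := by
    intro i
    induction i using WellFoundedLT.induction with
    | ind i ih =>
      exact h2 A S n g Ga hyp i fun N h hN => h1 A S n g Ga hyp N h i ih hN
  exact ⟨hst, fun N h i hN => h1 A S n g Ga hyp N h i (fun j _ => hst j) hN⟩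

end Pool.Agent.Helper24.WH

end

section

/-!
# PROJECT WH (MP_76577a_lc), module SU: unfolding of the stage topologies, monotonicity
-/

set_option autoImplicit false

namespace Pool.Agent.Helper24.WH

open Set TopologicalSpace Topology
open Ordinal hiding univ

/-! ## node topologies -/

theorem nt_anti_SU {A : Type} {G G' : Set (Set (Tre A))} (h : G ⊆ G') : nt G' ≤ nt G := by
  apply generateFrom_anti
  apply union_subset_union_right
  rintro U ⟨F, hF, u, rfl⟩
  exact ⟨F, h hF, u, rfl⟩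

theorem sub_nil_SU {A : Type} (t : Tre A) : t.sub [] = t := rfl

theorem nt_open_SU {A : Type} {G : Set (Set (Tre A))} {F : Set (Tre A)} (hF : F ∈ G) : IsOpen[nt G] F := by
  apply isOpen_generateFrom_of_mem
  right
  refine ⟨F, hF, [], ?_⟩
  ext t
  rfl

theorem nt_univ_SU {A : Type} : nt ({univ} : Set (Set (Tre A))) = nt ∅ := by
  apply le_antisymm
  · exact nt_anti_SU (empty_subset _)
  · apply le_generateFrom
    rintro U (⟨u, a, rfl⟩ | ⟨F, hF, u, rfl⟩)
    · apply isOpen_generateFrom_of_mem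
      left
      exact ⟨u, a, rfl⟩
    · have hF' : F = univ := hF
      subst hF'
      have : {t : Tre A | t.sub u ∈ (univ : Set (Tre A))} = univ := by
        ext t
        simp
      rw [this]
      exact @isOpen_univ _ (nt ∅)

/-! ## names -/

theorem good_mono_SU {S : Type} (n : ℕ) (ok : ℕ → Set S → Prop) : ∀ (N : Nm S) (h h' : ℕ) (i i' : Ordinal.{0}),
    h' ≤ h → i ≤ i' → Good n ok N h i → Good n ok N h' i' := by
  intro N
  induction N with
  | nil => intro h h' i i' _ _ _; exact trivial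
  | leaf a rest _ => exact a.elim
  | cons l kids rest ihk ihr =>
    intro h h' i i' hh hi hG
    cases l with
    | base M K =>
      simp only [Good] at hG ⊢
      obtain ⟨h1, h2, h3, h4, h5, h6⟩ := hG
      exact ⟨hh.trans h1, h2, h3, h4, h5, ihr h h' i i' hh hi h6⟩
    | cl M s j =>
      simp only [Good] at hG ⊢
      obtain ⟨h1, h2, h3, h4, h5, h6⟩ := hG
      exact ⟨hh.trans h1, h2, h3, h4.trans_le hi, h5, ihr h h' i i' hh hi h6⟩
    | dd m L x j =>
      simp only [Good] at hG ⊢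
      obtain ⟨h1, h2, h3, h4, h5⟩ := hG
      exact ⟨hh.trans h1, h2, h3.trans_le hi, h4, ihr h h' i i' hh hi h5⟩

theorem good_one_SU {S : Type} (n : ℕ) (ok : ℕ → Set S → Prop) : ∀ (N : Nm S) (i : Ordinal.{0}),
    Good n ok N 0 i → Good n ok N 1 i := by
  intro N
  induction N with
  | nil => intro i _; exact trivial
  | leaf a rest _ => exact a.elim
  | cons l kids rest ihk ihr =>
    intro i hG
    cases l with
    | base M K =>
      simp only [Good] at hG ⊢
      obtain ⟨h1, h2, h3, h4, h5, h6⟩ := hG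
      exact ⟨h2, h2, h3, h4, h5, ihr i h6⟩
    | cl M s j =>
      simp only [Good] at hG ⊢
      obtain ⟨h1, h2, h3, h4, h5, h6⟩ := hG
      exact ⟨h2, h2, h3, h4, h5, ihr i h6⟩
    | dd m L x j =>
      simp only [Good] at hG ⊢
      obtain ⟨h1, h2, h3, h4, h5⟩ := hG
      exact ⟨Nat.le_add_left 1 m, h2, h3, h4, ihr i h5⟩

/-- the value of a good name of stage below `i` depends only on the topologies of the stages below `i` -/
theorem val_congr_SU {A S : Type} (n : ℕ) (ok : ℕ → Set S → Prop) (g : Tre A → S)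
    (τ τ' : Ordinal.{0} → ℕ → TopologicalSpace (Tre A)) : ∀ (N : Nm S) (h : ℕ) (i : Ordinal.{0}),
    (∀ j, j < i → τ j = τ' j) → Good n ok N h i → val g τ N = val g τ' N := by
  intro N
  induction N with
  | nil => intro h i _ _; rfl
  | leaf a rest _ => exact a.elim
  | cons l kids rest ihk ihr =>
    intro h i hτ hG
    cases l with
    | base M K =>
      simp only [Good] at hG
      obtain ⟨h1, h2, h3, h4, h5, h6⟩ := hG
      simp only [val]
      rw [ihr h i hτ h6]
    | cl M s j =>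
      simp only [Good] at hG
      obtain ⟨h1, h2, h3, h4, h5, h6⟩ := hG
      simp only [val]
      rw [ihr h i hτ h6, ihk 0 j (fun j' hj' => hτ j' (hj'.trans h4)) h5, hτ j h4]
    | dd m L x j =>
      simp only [Good] at hG
      obtain ⟨h1, h2, h3, h4, h5⟩ := hG
      simp only [val]
      rw [ihr h i hτ h5, ihk (m + 1) j (fun j' hj' => hτ j' (hj'.trans h3)) h4, hτ j h3]

/-- concatenation of names -/
def app_SU {S : Type} : Nm S → Nm S → Nm S
  | .nil, N' => N'
  | .leaf a _, _ => a.elim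
  | .cons l kids rest, N' => .cons l kids (app_SU rest N')

theorem good_app_SU {S : Type} (n : ℕ) (ok : ℕ → Set S → Prop) (N' : Nm S) : ∀ (N : Nm S) (h : ℕ) (i : Ordinal.{0}),
    Good n ok N h i → Good n ok N' h i → Good n ok (app_SU N N') h i := by
  intro N
  induction N with
  | nil => intro h i _ h2; exact h2
  | leaf a rest _ => exact a.elim
  | cons l kids rest _ ihr =>
    intro h i hG hG'
    cases l with
    | base M K =>
      simp only [Good, app_SU] at hG ⊢
      obtain ⟨h1, h2, h3, h4, h5, h6⟩ := hG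
      exact ⟨h1, h2, h3, h4, h5, ihr h i h6 hG'⟩
    | cl M s j =>
      simp only [Good, app_SU] at hG ⊢
      obtain ⟨h1, h2, h3, h4, h5, h6⟩ := hG
      exact ⟨h1, h2, h3, h4, h5, ihr h i h6 hG'⟩
    | dd m L x j =>
      simp only [Good, app_SU] at hG ⊢
      obtain ⟨h1, h2, h3, h4, h5⟩ := hG
      exact ⟨h1, h2, h3, h4, ihr h i h5 hG'⟩

theorem val_app_SU {A S : Type} (g : Tre A → S) (τ : Ordinal.{0} → ℕ → TopologicalSpace (Tre A)) (N' : Nm S) :
    ∀ N : Nm S, val g τ (app_SU N N') = val g τ N ∩ val g τ N' := by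
  intro N
  induction N with
  | nil => simp only [app_SU, val, univ_inter]
  | leaf a rest _ => exact a.elim
  | cons l kids rest _ ihr =>
    cases l with
    | base M K => simp only [app_SU, val, ihr, inter_assoc]
    | cl M s j => simp only [app_SU, val, ihr, inter_assoc]
    | dd m L x j => simp only [app_SU, val, ihr, inter_assoc]

/-- above height `n` only the empty name is good -/
theorem good_top_SU {S : Type} (n : ℕ) (ok : ℕ → Set S → Prop) (N : Nm S) (h : ℕ) (i : Ordinal.{0}) (hn : n < h)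
    (hG : Good n ok N h i) : N = .nil := by
  cases N with
  | nil => rfl
  | leaf a rest => exact a.elim
  | cons l kids rest =>
    exfalso
    cases l with
    | base M K =>
      simp only [Good] at hG
      obtain ⟨h1, h2, h3, -⟩ := hG
      omega
    | cl M s j =>
      simp only [Good] at hG
      obtain ⟨h1, h2, h3, -⟩ := hG
      omega
    | dd m L x j =>
      simp only [Good] at hG
      obtain ⟨h1, h2, -⟩ := hG
      omega

/-! ## stages -/

theorem stg_eq_SU {A S : Type} (n : ℕ) (g : Tre A → S) (i : Ordinal.{0}) (M : ℕ) :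
    stg n g i M = nt {F | ∃ N : Nm S, GN n g N (M + 1) i ∧ F = vl n g N} := by
  conv_lhs => rw [stg]
  congr 1
  ext F
  constructor
  · rintro ⟨N, hN, rfl⟩
    refine ⟨N, hN, ?_⟩
    refine val_congr_SU n (okb n g) g _ _ N (M + 1) i ?_ hN
    intro j hj
    rw [dif_pos hj]
  · rintro ⟨N, hN, rfl⟩
    refine ⟨N, hN, ?_⟩
    refine val_congr_SU n (okb n g) g _ _ N (M + 1) i ?_ hN
    intro j hj
    rw [dif_pos hj]

theorem hSU : StSU := by
  intro A S _ _ n g
  refine ⟨stg_eq_SU n g, fun N h h' i i' => good_mono_SU n (okb n g) N h h' i i', good_one_SU n (okb n g),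
    ?_, ?_, ?_, ?_, ?_, ?_⟩
  · intro i i' M hi
    rw [stg_eq_SU, stg_eq_SU]
    apply nt_anti_SU
    rintro F ⟨N, hN, rfl⟩
    exact ⟨N, good_mono_SU n (okb n g) N _ _ i i' le_rfl hi hN, rfl⟩
  · intro i M
    rw [stg_eq_SU, stg_eq_SU]
    apply nt_anti_SU
    rintro F ⟨N, hN, rfl⟩
    exact ⟨N, good_mono_SU n (okb n g) N _ _ i i (Nat.le_succ _) le_rfl hN, rfl⟩
  · intro i M hM
    rw [stg_eq_SU]
    obtain hj | ⟨j, hj⟩ : n - M = 0 ∨ ∃ j, n - M = j + 1 := by
      rcases Nat.eq_zero_or_pos (n - M) with h | h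
      · exact Or.inl h
      · exact Or.inr ⟨n - M - 1, by omega⟩
    · rw [hj]
      exact nt_anti_SU (empty_subset _)
    · rw [hj]
      show nt _ ≤ nt _
      apply nt_anti_SU
      rintro F ⟨K, rfl, hK⟩
      refine ⟨.cons (.base (M + 1) K) .nil .nil, ?_, ?_⟩
      · show Good n (okb n g) _ _ _
        simp only [Good]
        refine ⟨le_rfl, Nat.le_add_left 1 M, by omega, ?_, trivial, trivial⟩
        show IsClosed[bT g (n - (M + 1))] (g ⁻¹' K)
        have : n - (M + 1) = j := by omega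
        rw [this]
        exact hK
      · show _ = val g (stg n g) _
        simp only [val, inter_univ]
  · intro i M hM
    rw [stg_eq_SU]
    have : {F | ∃ N : Nm S, GN n g N (M + 1) i ∧ F = vl n g N} = {univ} := by
      ext F
      constructor
      · rintro ⟨N, hN, rfl⟩
        rw [good_top_SU n (okb n g) N (M + 1) i (by omega) hN]
        rfl
      · rintro rfl
        exact ⟨.nil, trivial, rfl⟩
    rw [this, nt_univ_SU]
  · intro N i M hN
    rw [stg_eq_SU]
    exact nt_open_SU ⟨N, hN, rfl⟩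
  · intro N N' h i hN hN'
    exact ⟨app_SU N N', good_app_SU n (okb n g) N' N h i hN hN', val_app_SU g (stg n g) N' N⟩

end Pool.Agent.Helper24.WH

end

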