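import Pool.Agent.Helper24.WH.St4

/-! Modules of project WH / WL merged into one file to shorten the build. -/

section

/-!
# PROJECT WH (MP_76577a_lc), module BB: the base tower
-/

set_option autoImplicit false

namespace Pool.Agent.Helper24.WH

open Set TopologicalSpace Topology
open Ordinal hiding univ

theorem closed_mono_BB {X : Type} {τ τ' : TopologicalSpace X} (h : τ' ≤ τ) {F : Set X}
    (hF : IsClosed[τ] F) : IsClosed[τ'] F := by
  rw [← @isOpen_compl_iff X F τ'] 
  rw [← @isOpen_compl_iff X F τ] at hF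
  exact h _ hF

/-- the least closed definable set above `s` -/
def Cl_BB {A S : Type} (τ : TopologicalSpace (Tre A)) (g : Tre A → S) (s : S) : Set S :=
  {x | ∀ K : Set S, IsClosed[τ] (g ⁻¹' K) → s ∈ K → x ∈ K}

theorem Cl_closed_BB {A S : Type} (τ : TopologicalSpace (Tre A)) (g : Tre A → S) (s : S) :
    IsClosed[τ] (g ⁻¹' (Cl_BB τ g s)) := by
  letI := τ
  have e : g ⁻¹' (Cl_BB τ g s) =
      ⋂ K : {K : Set S // IsClosed[τ] (g ⁻¹' K) ∧ s ∈ K}, g ⁻¹' K.1 := by
    ext x
    simp only [mem_preimage, Cl_BB, mem_setOf_eq, mem_iInter, Subtype.forall]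
    exact ⟨fun h K hK => h K hK.1 hK.2, fun h K h1 h2 => h K ⟨h1, h2⟩⟩
  rw [e]
  exact isClosed_iInter fun K => K.2.1

theorem mem_Cl_BB {A S : Type} (τ : TopologicalSpace (Tre A)) (g : Tre A → S) (s : S) :
    s ∈ Cl_BB τ g s := fun _ _ h => h

theorem split_BB {A S : Type} [Finite S] (τ : TopologicalSpace (Tre A)) (g : Tre A → S)
    (Ga : A → S × S → S) (hg : ∀ a p, g (Tre.mk a p) = Ga a (g p.1, g p.2)) (a : A)
    (hCE : CE (@instTopologicalSpaceProd _ _ τ τ) τ (Tre.mk a)) (K : Set S)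
    (hK : IsClosed[τ] (g ⁻¹' K)) :
    ∃ (k : ℕ) (K₀ K₁ : Fin k → Set S),
      (∀ q, IsClosed[τ] (g ⁻¹' (K₀ q))) ∧ (∀ q, IsClosed[τ] (g ⁻¹' (K₁ q))) ∧
      g ⁻¹' K ∩ range (Tre.mk a) = ⋃ q, Tre.mk a '' ((g ⁻¹' (K₀ q)) ×ˢ (g ⁻¹' (K₁ q))) := by
  classical
  letI := τ
  have hcont : Continuous (Tre.mk a : Tre A × Tre A → Tre A) := by
    rw [continuous_iff_le_induced]
    exact hCE.2.1.le
  -- sections
  have sec1 : ∀ y : Tre A, IsClosed (g ⁻¹' {s : S | Ga a (s, g y) ∈ K}) := by
    intro y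
    have h1 : Continuous fun x : Tre A => Tre.mk a (x, y) := hcont.comp (by fun_prop)
    have h2 := hK.preimage h1
    have e : (fun x : Tre A => Tre.mk a (x, y)) ⁻¹' (g ⁻¹' K) =
        g ⁻¹' {s : S | Ga a (s, g y) ∈ K} := by
      ext x
      simp only [mem_preimage, mem_setOf_eq, hg]
    rw [e] at h2
    exact h2
  have sec2 : ∀ x : Tre A, IsClosed (g ⁻¹' {s : S | Ga a (g x, s) ∈ K}) := by
    intro x
    have h1 : Continuous fun y : Tre A => Tre.mk a (x, y) := hcont.comp (by fun_prop)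
    have h2 := hK.preimage h1
    have e : (fun y : Tre A => Tre.mk a (x, y)) ⁻¹' (g ⁻¹' K) =
        g ⁻¹' {s : S | Ga a (g x, s) ∈ K} := by
      ext y
      simp only [mem_preimage, mem_setOf_eq, hg]
    rw [e] at h2
    exact h2
  have key : ∀ x₀ y₀ : Tre A, Ga a (g x₀, g y₀) ∈ K → ∀ x y : Tre A,
      g x ∈ Cl_BB τ g (g x₀) → g y ∈ Cl_BB τ g (g y₀) → Ga a (g x, g y) ∈ K := by
    intro x₀ y₀ h x y hx hy
    have h1 : Ga a (g x, g y₀) ∈ K := hx _ (sec1 y₀) h
    exact hy _ (sec2 x) h1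
  let I := {p : S × S // p.1 ∈ range g ∧ p.2 ∈ range g ∧ Ga a p ∈ K}
  let e : I ≃ Fin (Nat.card I) := Finite.equivFin I
  refine ⟨Nat.card I, fun q => Cl_BB τ g (e.symm q).1.1, fun q => Cl_BB τ g (e.symm q).1.2,
    fun q => Cl_closed_BB τ g _, fun q => Cl_closed_BB τ g _, ?_⟩
  ext t
  constructor
  · rintro ⟨ht, ⟨⟨x, y⟩, rfl⟩⟩
    rw [mem_preimage, hg] at ht
    rw [mem_iUnion]
    refine ⟨e ⟨(g x, g y), ⟨x, rfl⟩, ⟨y, rfl⟩, ht⟩, (x, y), ⟨?_, ?_⟩, rfl⟩
    · show g x ∈ Cl_BB τ g _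
      rw [Equiv.symm_apply_apply]
      exact mem_Cl_BB τ g _
    · show g y ∈ Cl_BB τ g _
      rw [Equiv.symm_apply_apply]
      exact mem_Cl_BB τ g _
  · rw [mem_iUnion]
    rintro ⟨q, ⟨x, y⟩, ⟨hx, hy⟩, rfl⟩
    refine ⟨?_, ⟨(x, y), rfl⟩⟩
    rw [mem_preimage, hg]
    have hx' : g x ∈ Cl_BB τ g (e.symm q).1.1 := hx
    have hy' : g y ∈ Cl_BB τ g (e.symm q).1.2 := hy
    obtain ⟨x₀, hx₀⟩ := (e.symm q).2.1
    obtain ⟨y₀, hy₀⟩ := (e.symm q).2.2.1
    have hR : Ga a ((e.symm q).1.1, (e.symm q).1.2) ∈ K := (e.symm q).2.2.2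
    rw [← hx₀] at hx' hR
    rw [← hy₀] at hy' hR
    exact key x₀ y₀ hR x y hx' hy'

theorem hBB (hNT : StNT) : StBB := by
  intro A S _ _ g Ga hg
  obtain ⟨n1, n2, -, n4, -, n6, -⟩ := hNT A
  have step : ∀ j, bT g (j + 1) ≤ bT g j ∧
      ∀ a, CE (@instTopologicalSpaceProd _ _ (bT g j) (bT g j)) (bT g j) (Tre.mk a) := by
    intro j
    induction j with
    | zero =>
      refine ⟨n1 ∅ _ (empty_subset _), fun a => n6 ∅ (fun F hF => absurd hF (notMem_empty F)) a⟩
    | succ j ih =>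
      refine ⟨n1 _ _ ?_, fun a => n6 _ ?_ a⟩
      · rintro F ⟨K, hF, hcl⟩
        exact ⟨K, hF, closed_mono_BB ih.1 hcl⟩
      · rintro F ⟨K, hF, hcl⟩ a
        rw [hF] at hcl
        obtain ⟨k, K₀, K₁, h0, h1, h2⟩ := split_BB (bT g j) g Ga hg a (ih.2 a) K hcl
        refine ⟨k, fun q => g ⁻¹' (K₀ q), fun q => g ⁻¹' (K₁ q), fun q => ?_, fun q => ?_, ?_⟩
        · exact n2 _ _ ⟨K₀ q, rfl, h0 q⟩
        · exact n2 _ _ ⟨K₁ q, rfl, h1 q⟩
        · rw [hF]
          exact h2
  intro j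
  refine ⟨(step j).1, ?_, (step j).2, fun K hK a => split_BB (bT g j) g Ga hg a ((step j).2 a) K hK⟩
  rcases j with _ | j
  · exact n4 ∅ fun F hF => absurd hF (notMem_empty F)
  · refine n4 _ ?_
    rintro F ⟨K, hF, hcl⟩
    exact closed_mono_BB (step j).1 hcl

end Pool.Agent.Helper24.WH

end

section

/-!
# PROJECT WH (MP_76577a_lc), module LW: labels of bounded height are well quasi ordered
-/

set_option autoImplicit false

namespace Pool.Agent.Helper24.WH

open Set

private def code_LW {S : Type} (n : ℕ) : Lab S → Fin (n + 1) × (Set S ⊕ S ⊕ Unit)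
  | .base M K => (⟨min M n, by omega⟩, Sum.inl K)
  | .cl M s _ => (⟨min M n, by omega⟩, Sum.inr (Sum.inl s))
  | .dd m _ _ _ => (⟨min (m + 1) n, by omega⟩, Sum.inr (Sum.inr ()))

private theorem wqo_LW {Q : Type*} [LinearOrder Q] [WellFoundedLT Q] :
    WellQuasiOrdered (fun a b : Q => a ≤ b) := by
  intro f
  by_contra h
  push Not at h
  have h2 : ∀ m n, m < n → f n < f m := h
  obtain ⟨x, ⟨m, rfl⟩, hx⟩ := WellFounded.has_min (wellFounded_lt (α := Q)) (range f) ⟨f 0, 0, rfl⟩
  exact hx (f (m + 1)) ⟨m + 1, rfl⟩ (h2 m (m + 1) (Nat.lt_succ_self m))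

theorem hLW (hTB : StTB) (hTP : StTP) : StLW := by
  intro S _ n
  refine ⟨?_, ?_, ?_, ?_⟩
  · rintro (⟨M, K⟩ | ⟨M, s, j⟩ | ⟨m, L, x, j⟩)
    · exact .base M K
    · exact .cl M s j j le_rfl
    · exact .dd m L L x x j j (fun i => ⟨i, (hTP.2.1 S m).1 _⟩) le_rfl le_rfl
  · intro a b c hab hbc
    cases hab with
    | base M K => exact hbc
    | cl M s j j' hj =>
      cases hbc with
      | cl _ _ _ j'' hj' => exact .cl M s j j'' (hj.trans hj')
    | dd m L L' x x' j j' hL hx hj =>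
      cases hbc with
      | dd _ _ L'' _ x'' _ j'' hL' hx' hj' =>
        refine .dd m L L'' x x'' j j'' (fun i => ?_) (hx.trans hx') (hj.trans hj')
        obtain ⟨p, hp⟩ := hL i
        obtain ⟨q, hq⟩ := hL' p
        exact ⟨q, (hTP.2.1 S m).2 _ _ _ hp hq⟩
  · intro a b hab
    cases hab <;> rfl
  · intro f hf
    classical
    obtain ⟨κ, hκ⟩ := Finite.exists_infinite_fiber (fun i => code_LW n (f i))
    have hinf : ((fun i => code_LW n (f i)) ⁻¹' {κ}).Infinite := infinite_coe_iff.mp hκ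
    have := hinf.to_subtype
    set e := Nat.orderEmbeddingOfSet ((fun i => code_LW n (f i)) ⁻¹' {κ}) with he
    have hmem : ∀ i, code_LW n (f (e i)) = κ := fun i => by
      have := (Nat.orderEmbeddingOfSet_range ((fun i => code_LW n (f i)) ⁻¹' {κ})).le ⟨i, rfl⟩
      exact this
    obtain ⟨h, d⟩ := κ
    -- it suffices to find two good indices of the subsequence
    suffices ∃ i j, i < j ∧ Lab.Le (f (e i)) (f (e j)) by
      obtain ⟨i, j, hij, h⟩ := this
      exact ⟨e i, e j, e.strictMono hij, h⟩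
    rcases d with K | s | u
    · have key : ∀ i, f (e i) = .base h K := by
        intro i
        have h1 := hmem i
        have h2 := hf (e i)
        generalize f (e i) = l at h1 h2
        rcases l with ⟨M, K'⟩ | ⟨M, s, j⟩ | ⟨m, L, x, j⟩
        · simp only [code_LW, Prod.mk.injEq, Sum.inl.injEq] at h1
          have h3 := congrArg Fin.val h1.1
          simp only [Lab.ht] at h2
          simp only at h3
          rw [h1.2, ← h3, min_eq_left h2]
        · simp [code_LW] at h1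
        · simp [code_LW] at h1
      refine ⟨0, 1, Nat.zero_lt_one, ?_⟩
      rw [key, key]
      exact .base _ _
    · have key : ∀ i, ∃ j, f (e i) = .cl h s j := by
        intro i
        have h1 := hmem i
        have h2 := hf (e i)
        generalize f (e i) = l at h1 h2
        rcases l with ⟨M, K'⟩ | ⟨M, s', j⟩ | ⟨m, L, x, j⟩
        · simp [code_LW] at h1
        · simp only [code_LW, Prod.mk.injEq, Sum.inr.injEq, Sum.inl.injEq] at h1
          have h3 := congrArg Fin.val h1.1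
          simp only [Lab.ht] at h2
          simp only at h3
          exact ⟨j, by rw [h1.2, ← h3, min_eq_left h2]⟩
        · simp [code_LW] at h1
      choose j hj using key
      obtain ⟨a, b, hab, hle⟩ := wqo_LW j
      refine ⟨a, b, hab, ?_⟩
      rw [hj, hj]
      exact .cl _ _ _ _ hle
    · have key0 : ∀ i, ∃ m L x j, f (e i) = .dd m L x j ∧ m + 1 = (h : ℕ) := by
        intro i
        have h1 := hmem i
        have h2 := hf (e i)
        generalize f (e i) = l at h1 h2
        rcases l with ⟨M, K'⟩ | ⟨M, s', j⟩ | ⟨m, L, x, j⟩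
        · simp [code_LW] at h1
        · simp [code_LW] at h1
        · simp only [code_LW, Prod.mk.injEq] at h1
          have h3 := congrArg Fin.val h1.1
          simp only [Lab.ht] at h2
          simp only at h3
          exact ⟨m, L, x, j, rfl, by rw [← h3, min_eq_left h2]⟩
      obtain ⟨m, hm⟩ : ∃ m, m + 1 = (h : ℕ) := by
        obtain ⟨m, _, _, _, _, hm⟩ := key0 0
        exact ⟨m, hm⟩
      have key : ∀ i, ∃ (L : ℕ → TT S m) (x : ℕ) (j : Ordinal.{0}), f (e i) = .dd m L x j := by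
        intro i
        obtain ⟨m', L, x, j, h1, h2⟩ := key0 i
        obtain rfl : m' = m := by omega
        exact ⟨L, x, j, h1⟩
      choose L x j hj using key
      have w1 := (hTB S m 0).2.1
      have : Std.Refl (Dom (TT.Le (S := S) m)) := ⟨fun F i => ⟨i, (hTP.2.1 S m).1 _⟩⟩
      have : IsTrans (ℕ → TT S m) (Dom (TT.Le m)) := ⟨fun F F' F'' h1 h2 i => by
        obtain ⟨p, hp⟩ := h1 i
        obtain ⟨q, hq⟩ := h2 p
        exact ⟨q, (hTP.2.1 S m).2 _ _ _ hp hq⟩⟩
      have : IsPreorder (ℕ → TT S m) (Dom (TT.Le m)) := {}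
      have w2 := w1.prod (WellQuasiOrdered.prod (wqo_LW (Q := ℕ)) (wqo_LW (Q := Ordinal.{0})))
      obtain ⟨a, b, hab, hle⟩ := w2 (fun i => (L i, x i, j i))
      refine ⟨a, b, hab, ?_⟩
      rw [hj, hj]
      exact .dd _ _ _ _ _ _ _ hle.1 hle.2.1 hle.2.2

end Pool.Agent.Helper24.WH

end

section

/-!
# PROJECT WH (MP_76577a_lc), module NT: basic facts on node topologies
-/

set_option autoImplicit false

namespace Pool.Agent.Helper24.WH

open Set TopologicalSpace Topology
open Ordinal hiding univ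

section NT

variable {A : Type}

private theorem sub_nil_NT (t : Tre A) : t.sub [] = t := rfl

private theorem sub_sub_NT (t : Tre A) (u v : List Bool) : (t.sub u).sub v = t.sub (u ++ v) := by
  funext w
  simp only [Tre.sub, List.append_assoc]

private theorem mk_sub_false_NT (a : A) (p : Tre A × Tre A) (v : List Bool) :
    (Tre.mk a p).sub (false :: v) = p.1.sub v := rfl

private theorem mk_sub_true_NT (a : A) (p : Tre A × Tre A) (v : List Bool) :
    (Tre.mk a p).sub (true :: v) = p.2.sub v := rfl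

private theorem mk_inj_NT (a : A) : Function.Injective (Tre.mk a) := by
  intro p p' h
  refine Prod.ext ?_ ?_
  · funext v
    exact congrFun h (false :: v)
  · funext v
    exact congrFun h (true :: v)

private theorem range_mk_NT (a : A) : range (Tre.mk a) = {t : Tre A | t [] = a} := by
  ext t
  constructor
  · rintro ⟨p, rfl⟩
    rfl
  · intro h
    refine ⟨(fun v => t (false :: v), fun v => t (true :: v)), ?_⟩
    funext w
    match w with
    | [] => exact h.symm
    | false :: v => rfl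
    | true :: v => rfl

private theorem anti_NT (G G' : Set (Set (Tre A))) (h : G ⊆ G') : nt G' ≤ nt G := by
  apply generateFrom_anti
  refine union_subset_union_right _ ?_
  rintro U ⟨F, hF, u, rfl⟩
  exact ⟨F, h hF, u, rfl⟩

private theorem open_node_NT (G : Set (Set (Tre A))) (u : List Bool) (a : A) :
    IsOpen[nt G] {t : Tre A | t u = a} :=
  isOpen_generateFrom_of_mem (Or.inl ⟨u, a, rfl⟩)

private theorem open_sub_NT (G : Set (Set (Tre A))) {F : Set (Tre A)} (hF : F ∈ G) (u : List Bool) :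
    IsOpen[nt G] {t : Tre A | t.sub u ∈ F} :=
  isOpen_generateFrom_of_mem (Or.inr ⟨F, hF, u, rfl⟩)

private theorem open_mem_NT (G : Set (Set (Tre A))) {F : Set (Tre A)} (hF : F ∈ G) :
    IsOpen[nt G] F := open_sub_NT G hF []

private theorem cont_sub_NT (G : Set (Set (Tre A))) (u : List Bool) :
    @Continuous _ _ (nt G) (nt G) (fun t : Tre A => t.sub u) := by
  let _ := nt G
  refine continuous_generateFrom_iff.2 ?_
  rintro U (⟨v, a, rfl⟩ | ⟨F, hF, v, rfl⟩)
  · exact open_node_NT G (u ++ v) a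
  · have : (fun t : Tre A => t.sub u) ⁻¹' {t : Tre A | t.sub v ∈ F} =
        {t : Tre A | t.sub (u ++ v) ∈ F} := by
      ext t
      simp only [mem_preimage, mem_ofPred_eq, sub_sub_NT]
    rw [this]
    exact open_sub_NT G hF (u ++ v)

private theorem clp_node_NT (G : Set (Set (Tre A))) (u : List Bool) (a : A) :
    Clp (nt G) {t : Tre A | t u = a} := by
  let _ := nt G
  refine ⟨⟨?_⟩, open_node_NT G u a⟩
  have : {t : Tre A | t u = a}ᶜ = ⋃ b ∈ {b : A | b ≠ a}, {t : Tre A | t u = b} := by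
    ext t
    simp only [mem_compl_iff, mem_ofPred_eq, mem_iUnion, exists_prop]
    constructor
    · intro h
      exact ⟨t u, h, rfl⟩
    · rintro ⟨b, hb, h⟩ h'
      exact hb (h.symm.trans h')
  rw [this]
  exact isOpen_biUnion fun b _ => open_node_NT G u b

private theorem zd_NT (G : Set (Set (Tre A))) (hG : ∀ F ∈ G, IsClosed[nt G] F) : ZD (nt G) := by
  let _ := nt G
  have key : ∀ U : Set (Tre A), IsOpen U → ∀ x ∈ U, ∃ O : Set (Tre A), IsClopen O ∧ x ∈ O ∧ O ⊆ U := by
    intro U hU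
    change GenerateOpen _ U at hU
    induction hU with
    | basic s hs =>
      intro x hx
      refine ⟨s, ?_, hx, subset_rfl⟩
      rcases hs with ⟨u, a, rfl⟩ | ⟨F, hF, u, rfl⟩
      · exact clp_node_NT G u a
      · refine ⟨?_, open_sub_NT G hF u⟩
        exact (hG F hF).preimage (cont_sub_NT G u)
    | univ => intro x _; exact ⟨Set.univ, isClopen_univ, mem_univ x, subset_rfl⟩
    | inter s t _ _ ihs iht =>
      intro x hx
      obtain ⟨O, hO, hxO, hOs⟩ := ihs x hx.1
      obtain ⟨O', hO', hxO', hOt⟩ := iht x hx.2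
      exact ⟨O ∩ O', hO.inter hO', ⟨hxO, hxO'⟩, inter_subset_inter hOs hOt⟩
    | sUnion S _ ih =>
      intro x hx
      obtain ⟨s, hs, hxs⟩ := hx
      obtain ⟨O, hO, hxO, hOs⟩ := ih s hs x hxs
      exact ⟨O, hO, hxO, hOs.trans (subset_sUnion_of_mem hs)⟩
  intro x U hU hx
  exact key U hU x hx

private theorem clp_range_NT (G : Set (Set (Tre A))) (a : A) : Clp (nt G) (range (Tre.mk a)) := by
  rw [range_mk_NT]
  exact clp_node_NT G [] a

private theorem ce_NT (G : Set (Set (Tre A)))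
    (h : ∀ F ∈ G, ∀ a : A, ∃ (k : ℕ) (F₀ F₁ : Fin k → Set (Tre A)),
      (∀ q, IsOpen[nt G] (F₀ q)) ∧ (∀ q, IsOpen[nt G] (F₁ q)) ∧
      F ∩ range (Tre.mk a) = ⋃ q, Tre.mk a '' (F₀ q ×ˢ F₁ q)) (a : A) :
    CE (@instTopologicalSpaceProd _ _ (nt G) (nt G)) (nt G) (Tre.mk a) := by
  let _ := nt G
  refine ⟨mk_inj_NT a, le_antisymm ?_ ?_, clp_range_NT G a⟩
  · rw [← continuous_iff_le_induced]
    refine continuous_generateFrom_iff.2 ?_
    have hfst : Continuous (Prod.fst : Tre A × Tre A → Tre A) := continuous_fst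
    have hsnd : Continuous (Prod.snd : Tre A × Tre A → Tre A) := continuous_snd
    rintro U (⟨u, b, rfl⟩ | ⟨F, hF, u, rfl⟩)
    · match u with
      | [] =>
        by_cases hab : a = b
        · have : Tre.mk a ⁻¹' {t : Tre A | t [] = b} = Set.univ := by
            ext p
            simp only [mem_preimage, mem_ofPred_eq, mem_univ, iff_true]
            exact hab
          rw [this]
          exact isOpen_univ
        · have : Tre.mk a ⁻¹' {t : Tre A | t [] = b} = ∅ := by
            ext p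
            simp only [mem_preimage, mem_ofPred_eq, mem_empty_iff_false, iff_false]
            exact hab
          rw [this]
          exact isOpen_empty
      | false :: v => exact (open_node_NT G v b).preimage hfst
      | true :: v => exact (open_node_NT G v b).preimage hsnd
    · match u with
      | [] =>
        obtain ⟨k, F₀, F₁, h0, h1, he⟩ := h F hF a
        have : Tre.mk a ⁻¹' {t : Tre A | t.sub [] ∈ F} = ⋃ q, (F₀ q ×ˢ F₁ q) := by
          ext p
          simp only [mem_preimage, mem_ofPred_eq, sub_nil_NT]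
          have h2 : Tre.mk a p ∈ F ↔ Tre.mk a p ∈ F ∩ range (Tre.mk a) :=
            ⟨fun hp => ⟨hp, mem_range_self p⟩, fun hp => hp.1⟩
          rw [h2, he]
          simp only [mem_iUnion, (mk_inj_NT a).mem_set_image]
        rw [this]
        exact isOpen_iUnion fun q => (h0 q).prod (h1 q)
      | false :: v => exact (open_sub_NT G hF v).preimage hfst
      | true :: v => exact (open_sub_NT G hF v).preimage hsnd
  · have hc : Continuous[(nt G).induced (Tre.mk a), nt G] (Tre.mk a) := continuous_induced_dom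
    refine le_inf ?_ ?_
    · rw [← continuous_iff_le_induced]
      exact @Continuous.comp _ _ _ ((nt G).induced (Tre.mk a)) (nt G) (nt G) _ _
        (cont_sub_NT G [false]) hc
    · rw [← continuous_iff_le_induced]
      exact @Continuous.comp _ _ _ ((nt G).induced (Tre.mk a)) (nt G) (nt G) _ _
        (cont_sub_NT G [true]) hc

private theorem sc_NT [Finite A] (G : Set (Set (Tre A))) (hG : G.Countable) :
    @SecondCountableTopology _ (nt G) := by
  let _ := nt G
  refine ⟨⟨_, ?_, rfl⟩⟩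
  refine Countable.union ?_ ?_
  · have : {U : Set (Tre A) | ∃ (u : List Bool) (a : A), U = {t : Tre A | t u = a}} =
        range (fun q : List Bool × A => {t : Tre A | t q.1 = q.2}) := by
      ext U
      constructor
      · rintro ⟨u, a, rfl⟩
        exact ⟨(u, a), rfl⟩
      · rintro ⟨q, rfl⟩
        exact ⟨q.1, q.2, rfl⟩
    rw [this]
    exact countable_range _
  · have : {U : Set (Tre A) | ∃ F ∈ G, ∃ u : List Bool, U = {t : Tre A | t.sub u ∈ F}} =
        ⋃ u : List Bool, (fun F : Set (Tre A) => {t : Tre A | t.sub u ∈ F}) '' G := by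
      ext U
      simp only [mem_ofPred_eq, mem_iUnion, mem_image]
      constructor
      · rintro ⟨F, hF, u, rfl⟩
        exact ⟨u, F, hF, rfl⟩
      · rintro ⟨u, F, hF, rfl⟩
        exact ⟨F, hF, u, rfl⟩
    rw [this]
    exact countable_iUnion fun u => hG.image _

private theorem pi_NT : nt (∅ : Set (Set (Tre A))) =
    @Pi.topologicalSpace (List Bool) (fun _ => A) (fun _ => ⊥) := by
  let _ : TopologicalSpace A := ⊥
  have _ : DiscreteTopology A := ⟨rfl⟩
  apply le_antisymm
  · refine le_iInf fun u => ?_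
    let _ := nt (∅ : Set (Set (Tre A)))
    refine continuous_iff_le_induced.1 (?_ : @Continuous (Tre A) A (nt ∅) ⊥ (fun t => t u))
    refine ⟨fun s _ => ?_⟩
    have : (fun t : Tre A => t u) ⁻¹' s = ⋃ b ∈ s, {t : Tre A | t u = b} := by
      ext t
      simp
    change IsOpen ((fun t : Tre A => t u) ⁻¹' s)
    rw [this]
    exact isOpen_biUnion fun b _ => open_node_NT ∅ u b
  · refine le_generateFrom ?_
    rintro U (⟨u, a, rfl⟩ | ⟨F, hF, _⟩)
    · have h1 : @Continuous (List Bool → A) A (@Pi.topologicalSpace (List Bool) (fun _ => A) (fun _ => ⊥)) _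
        (fun t => t u) := continuous_apply u
      exact (isOpen_discrete ({a} : Set A)).preimage h1
    · exact hF.elim

private theorem pol_NT (A : Type) [Finite A] [TopologicalSpace A] [DiscreteTopology A] :
    PolishSpace (List Bool → A) ∧ CompactSpace (List Bool → A) := by
  have h : PolishSpace A := inferInstance
  have h2 : IsCompletelyMetrizableSpace (List Bool → A) := inferInstance
  have h3 : SeparableSpace A := inferInstance
  have h4 : SeparableSpace (List Bool → A) := inferInstance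
  exact ⟨inferInstance, inferInstance⟩

theorem hNT : StNT := by
  intro A _
  refine ⟨anti_NT, fun G F hF => open_mem_NT G hF, cont_sub_NT, zd_NT, clp_range_NT, ce_NT, sc_NT,
    pi_NT, ?_, ?_⟩
  · apply le_antisymm (anti_NT _ _ (empty_subset _))
    refine le_generateFrom ?_
    rintro U (⟨u, a, rfl⟩ | ⟨F, hF, u, rfl⟩)
    · exact open_node_NT ∅ u a
    · rw [mem_singleton_iff] at hF
      subst hF
      simp only [mem_univ]
      exact @isOpen_univ _ (nt ∅)
  · rw [pi_NT]
    let _ : TopologicalSpace A := ⊥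
    have _ : DiscreteTopology A := ⟨rfl⟩
    exact pol_NT A

end NT

end Pool.Agent.Helper24.WH

end

section

set_option autoImplicit false

namespace Pool.Agent.Helper24.WH

open Set TopologicalSpace Topology
open Ordinal hiding univ

private theorem hb_NV {S : Type} (n : ℕ) (ok : ℕ → Set S → Prop) (N : Nm S) :
    ∀ (h : ℕ) (i : Ordinal.{0}), Good n ok N h i → Fo.HB Lab.ht n N := by
  induction N with
  | nil => intro h i _; trivial
  | leaf a rest ih => exact a.elim
  | cons l kids rest ihk ihr =>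
    intro h i hg
    cases l with
    | base M K =>
      obtain ⟨h1, h2, h3, h4, h5, h6⟩ := hg
      refine ⟨h3, ?_, ihr h i h6⟩
      rw [h5]; trivial
    | cl M s j =>
      obtain ⟨h1, h2, h3, h4, h5, h6⟩ := hg
      exact ⟨h3, ihk 0 j h5, ihr h i h6⟩
    | dd m L x j =>
      obtain ⟨h1, h2, h3, h4, h5⟩ := hg
      exact ⟨h2, ihk (m + 1) j h4, ihr h i h5⟩

theorem hNV (hGW : StGW.{1, 0}) (hLW : StLW) (hSO : StSO) (hTB : StTB) : StNV := by
  intro A S _ _ n g Ga hH
  have key : ∀ f : ℕ → Nm S, (∀ k, ∃ h i, GN n g (f k) h i) →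
      ∃ k l, k < l ∧ vl n g (f l) ⊆ vl n g (f k) := by
    intro f hf
    obtain ⟨l1, l2, l3, l4⟩ := hLW S n
    obtain ⟨i, j, hij, hemb⟩ := hGW (Lab S) Empty Lab.Le (fun _ _ => True) Lab.ht n l1 l2
      (fun _ => trivial) (fun _ _ _ _ _ => trivial) l3 l4 (fun φ => (φ 0).elim) f
      (fun k => by
        obtain ⟨h, i, hg⟩ := hf k
        exact hb_NV n _ (f k) h i hg)
    obtain ⟨h, i', hg⟩ := hf i
    obtain ⟨h2, i2, hg2⟩ := hf j
    exact ⟨i, j, hij, hSO A S n g Ga hH (f i) (f j) h h2 i' i2 hg hg2 hemb⟩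
  intro f hf
  refine ⟨key f hf, ?_⟩
  intro m L
  let Q : Type 1 := {N : Nm S // ∃ h i, GN n g N h i}
  let r : Q → Q → Prop := fun a b => vl n g b.1 ⊆ vl n g a.1
  have hpre : IsPreorder Q r :=
    { refl := fun a => Subset.rfl
      trans := fun a b c h1 h2 => h2.trans h1 }
  have hr : WellQuasiOrdered r := by
    intro φ
    exact key (fun k => (φ k).1) (fun k => (φ k).2)
  have hs : WellQuasiOrdered (Dom (TT.Le (S := S) m)) := (hTB S m 0).2.1
  obtain ⟨k, l, hkl, h1, h2⟩ := hr.prod hs (fun k => (⟨f k, hf k⟩, L k))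
  exact ⟨k, l, hkl, h2, h1⟩

end Pool.Agent.Helper24.WH

end

section

/-!
# Project WH, module PI: closure properties of the pieces
-/

set_option autoImplicit false

namespace Pool.Agent.Helper24.WH

open Set TopologicalSpace Topology
open Ordinal hiding univ

private lemma mkinj_PI {A : Type} {a b : A} {p q : Tre A × Tre A} (h : Tre.mk a p = Tre.mk b q) :
    a = b ∧ p = q := by
  refine ⟨congrFun h [], Prod.ext ?_ ?_⟩
  · funext v
    exact congrFun h (false :: v)
  · funext v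
    exact congrFun h (true :: v)

private lemma inj_PI {A : Type} (a : A) : Function.Injective (Tre.mk a) :=
  fun _ _ h => (mkinj_PI h).2

private lemma mk_eta_PI {A : Type} (t : Tre A) :
    Tre.mk (t []) (t.sub [false], t.sub [true]) = t := by
  funext v
  rcases v with _ | ⟨_ | _, v⟩ <;> rfl

private lemma univ_PI {A S : Type} (n : ℕ) (g : Tre A → S) (h : ℕ) : Pc n g h univ := by
  have h1 : GN n g (.nil : Nm S) h 0 := by
    simp only [GN, Good]
  have h2 := Pc.nm (n := n) (g := g) (h := h) (.nil : Nm S) 0 h1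
  have h3 : vl n g (.nil : Nm S) = univ := by
    simp only [vl, val]
  rwa [h3] at h2

private lemma iUnion_PI {A S : Type} {n : ℕ} {g : Tre A → S} {h : ℕ} {ι : Type} [Finite ι]
    (C : ι → Set (Tre A)) (hC : ∀ q, Pc n g h (C q)) : Pc n g h (⋃ q, C q) := by
  have key : ∀ s : Set ι, s.Finite → Pc n g h (⋃ q ∈ s, C q) := by
    intro s hs
    refine Set.Finite.induction_on s hs ?_ ?_
    · simpa using Pc.empty
    · intro a s _ _ ih
      rw [biUnion_insert]
      exact Pc.union _ _ (hC a) ih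
  simpa using key univ finite_univ

private lemma nmInter_PI (hSG : StSG) (hSU : StSU) {A S : Type} [Finite A] [Finite S] {n : ℕ}
    {g : Tre A → S} {Ga : A → S × S → S} (hyp : Hyp n g Ga) {h : ℕ} {B : Set (Tre A)}
    (hB : Pc n g h B) : ∀ (N : Nm S) (i : Ordinal.{0}), GN n g N h i → Pc n g h (vl n g N ∩ B) := by
  obtain ⟨-, hmon, -, -, -, -, -, -, hint⟩ := hSU A S n g
  obtain ⟨-, hname⟩ := hSG A S n g Ga hyp
  induction hB with
  | nm N' i' hN' =>
    intro N i hN
    obtain ⟨N'', h1, h2⟩ := hint N N' h (max i i') (hmon N h h i _ le_rfl (le_max_left _ _) hN)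
      (hmon N' h h i' _ le_rfl (le_max_right _ _) hN')
    rw [← h2]
    exact Pc.nm N'' _ h1
  | mk a C₀ C₁ _ _ ih₀ ih₁ =>
    intro N i hN
    obtain ⟨-, hsp⟩ := hname N h i hN
    obtain ⟨k, N₀, N₁, hGN, hsplit⟩ := hsp a
    have h3 : vl n g N ∩ Tre.mk a '' (C₀ ×ˢ C₁) =
        ⋃ q, Tre.mk a '' ((vl n g (N₀ q) ∩ C₀) ×ˢ (vl n g (N₁ q) ∩ C₁)) := by
      have e1 : vl n g N ∩ Tre.mk a '' (C₀ ×ˢ C₁) =
          (vl n g N ∩ range (Tre.mk a)) ∩ Tre.mk a '' (C₀ ×ˢ C₁) := by
        rw [inter_assoc, inter_eq_right.mpr (image_subset_range (Tre.mk a) (C₀ ×ˢ C₁))]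
      rw [e1, hsplit, iUnion_inter]
      refine iUnion_congr fun q => ?_
      rw [← image_inter (inj_PI a), prod_inter_prod]
    rw [h3]
    exact iUnion_PI _ fun q => Pc.mk a _ _ (ih₀ (N₀ q) i (hGN q).1) (ih₁ (N₁ q) i (hGN q).2)
  | union C₀ C₁ _ _ ih₀ ih₁ =>
    intro N i hN
    rw [inter_union_distrib_left]
    exact Pc.union _ _ (ih₀ N i hN) (ih₁ N i hN)
  | empty =>
    intro N i hN
    rw [inter_empty]
    exact Pc.empty

private lemma inter_PI (hSG : StSG) (hSU : StSU) {A S : Type} [Finite A] [Finite S] {n : ℕ}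
    {g : Tre A → S} {Ga : A → S × S → S} (hyp : Hyp n g Ga) {h : ℕ} {B : Set (Tre A)}
    (hB : Pc n g h B) : ∀ B', Pc n g h B' → Pc n g h (B ∩ B') := by
  induction hB with
  | nm N i hN => exact fun B' hB' => nmInter_PI hSG hSU hyp hB' N i hN
  | mk a C₀ C₁ h₀ h₁ ih₀ ih₁ =>
    intro B' hB'
    induction hB' with
    | nm N i hN =>
      rw [inter_comm]
      exact nmInter_PI hSG hSU hyp (Pc.mk a C₀ C₁ h₀ h₁) N i hN
    | mk b D₀ D₁ k₀ k₁ _ _ =>
      by_cases hab : a = b
      · subst hab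
        rw [← image_inter (inj_PI a), prod_inter_prod]
        exact Pc.mk a _ _ (ih₀ _ k₀) (ih₁ _ k₁)
      · have h4 : Tre.mk a '' (C₀ ×ˢ C₁) ∩ Tre.mk b '' (D₀ ×ˢ D₁) = ∅ := by
          refine eq_empty_iff_forall_notMem.mpr ?_
          rintro t ⟨⟨p, _, rfl⟩, ⟨q, _, hq⟩⟩
          exact hab (mkinj_PI hq).1.symm
        rw [h4]
        exact Pc.empty
    | union D₀ D₁ _ _ jh₀ jh₁ =>
      rw [inter_union_distrib_left]
      exact Pc.union _ _ jh₀ jh₁
    | empty =>
      rw [inter_empty]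
      exact Pc.empty
  | union C₀ C₁ _ _ ih₀ ih₁ =>
    intro B' hB'
    rw [union_inter_distrib_right]
    exact Pc.union _ _ (ih₀ B' hB') (ih₁ B' hB')
  | empty =>
    intro B' _
    rw [empty_inter]
    exact Pc.empty

private lemma anti_PI (hSU : StSU) {A S : Type} [Finite A] [Finite S] {n : ℕ}
    {g : Tre A → S} {h : ℕ} {B : Set (Tre A)}
    (hB : Pc n g (h + 1) B) : Pc n g h B := by
  obtain ⟨-, hmon, -⟩ := hSU A S n g
  induction hB with
  | nm N i hN => exact Pc.nm N i (hmon N (h + 1) h i i (Nat.le_succ h) le_rfl hN)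
  | mk a C₀ C₁ _ _ ih₀ ih₁ => exact Pc.mk a _ _ ih₀ ih₁
  | union C₀ C₁ _ _ ih₀ ih₁ => exact Pc.union _ _ ih₀ ih₁
  | empty => exact Pc.empty

/-- levels of the closure of a family under unions and `mk` -/
private def lev_PI {A : Type} (V : Set (Set (Tre A))) : ℕ → Set (Set (Tre A))
  | 0 => V ∪ {∅}
  | (k + 1) => lev_PI V k ∪ (image2 (fun C D => C ∪ D) (lev_PI V k) (lev_PI V k) ∪
      ⋃ a : A, image2 (fun C D => Tre.mk a '' (C ×ˢ D)) (lev_PI V k) (lev_PI V k))

private lemma lev_cnt_PI {A : Type} [Finite A] {V : Set (Set (Tre A))} (hV : V.Countable) (k : ℕ) :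
    (lev_PI V k).Countable := by
  induction k with
  | zero => exact hV.union (countable_singleton _)
  | succ k ih =>
    have hc : Countable A := Finite.to_countable
    exact ih.union ((ih.image2 ih _).union (countable_iUnion fun a => ih.image2 ih _))

private lemma lev_mono_PI {A : Type} (V : Set (Set (Tre A))) {k l : ℕ} (hkl : k ≤ l) :
    lev_PI V k ⊆ lev_PI V l := by
  induction l, hkl using Nat.le_induction with
  | base => exact Subset.rfl
  | succ l _ ih => exact ih.trans subset_union_left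

private lemma countable_PI (hCN : StCN) {A S : Type} [Finite A] [Finite S] {n : ℕ}
    {g : Tre A → S} {Ga : A → S × S → S} (hyp : Hyp n g Ga) (h : ℕ) :
    {B | Pc n g h B}.Countable := by
  have hV := hCN A S n g Ga hyp
  refine Countable.mono ?_ (countable_iUnion fun k => lev_cnt_PI hV k)
  intro B hB
  replace hB : Pc n g h B := hB
  rw [mem_iUnion]
  induction hB with
  | nm N i hN => exact ⟨0, Or.inl ⟨N, h, i, hN, rfl⟩⟩
  | mk a C₀ C₁ _ _ ih₀ ih₁ =>
    obtain ⟨k₀, h₀⟩ := ih₀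
    obtain ⟨k₁, h₁⟩ := ih₁
    refine ⟨max k₀ k₁ + 1, Or.inr (Or.inr (mem_iUnion.mpr ⟨a, ?_⟩))⟩
    exact mem_image2_of_mem (lev_mono_PI _ (le_max_left _ _) h₀)
      (lev_mono_PI _ (le_max_right _ _) h₁)
  | union C₀ C₁ _ _ ih₀ ih₁ =>
    obtain ⟨k₀, h₀⟩ := ih₀
    obtain ⟨k₁, h₁⟩ := ih₁
    refine ⟨max k₀ k₁ + 1, Or.inr (Or.inl ?_)⟩
    exact mem_image2_of_mem (lev_mono_PI _ (le_max_left _ _) h₀)
      (lev_mono_PI _ (le_max_right _ _) h₁)
  | empty => exact ⟨0, Or.inr rfl⟩

private lemma sub1_PI {A S : Type} [Finite A] {n : ℕ} {g : Tre A → S} {h : ℕ} {B : Set (Tre A)}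
    (hB : Pc n g h B) (b : Bool) : Pc n g h {t : Tre A | t.sub [b] ∈ B} := by
  cases b with
  | false =>
    have h1 : {t : Tre A | t.sub [false] ∈ B} = ⋃ a : A, Tre.mk a '' (B ×ˢ univ) := by
      ext t
      simp only [mem_iUnion]
      constructor
      · intro ht
        exact ⟨t [], (t.sub [false], t.sub [true]), ⟨ht, mem_univ _⟩, mk_eta_PI t⟩
      · rintro ⟨a, p, ⟨hp, -⟩, rfl⟩
        exact hp
    rw [h1]
    exact iUnion_PI _ fun a => Pc.mk a _ _ hB (univ_PI n g h)
  | true =>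
    have h1 : {t : Tre A | t.sub [true] ∈ B} = ⋃ a : A, Tre.mk a '' (univ ×ˢ B) := by
      ext t
      simp only [mem_iUnion]
      constructor
      · intro ht
        exact ⟨t [], (t.sub [false], t.sub [true]), ⟨mem_univ _, ht⟩, mk_eta_PI t⟩
      · rintro ⟨a, p, ⟨-, hp⟩, rfl⟩
        exact hp
    rw [h1]
    exact iUnion_PI _ fun a => Pc.mk a _ _ (univ_PI n g h) hB

private lemma sub_PI {A S : Type} [Finite A] {n : ℕ} {g : Tre A → S} {h : ℕ} (u : List Bool) :
    ∀ {B : Set (Tre A)}, Pc n g h B → Pc n g h {t : Tre A | t.sub u ∈ B} := by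
  induction u with
  | nil => exact fun hB => hB
  | cons b u ih => exact fun hB => sub1_PI (ih hB) b

private lemma closed_PI {X Y : Type} {τX : TopologicalSpace X} {τY : TopologicalSpace Y} {e : X → Y}
    (h : CE τX τY e) {B : Set X} (hB : IsClosed[τX] B) : IsClosed[τY] (e '' B) := by
  let := τX
  let := τY
  have h1 : IsClosedEmbedding e := ⟨⟨⟨h.2.1⟩, h.1⟩, h.2.2.1⟩
  exact h1.isClosedMap B hB

private lemma open_PI {X Y : Type} {τX : TopologicalSpace X} {τY : TopologicalSpace Y} {e : X → Y}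
    (h : CE τX τY e) {B : Set X} (hB : IsOpen[τX] B) : IsOpen[τY] (e '' B) := by
  let := τX
  let := τY
  have h1 : IsOpenEmbedding e := ⟨⟨⟨h.2.1⟩, h.1⟩, h.2.2.2⟩
  exact h1.isOpenMap B hB

private lemma prodClosed_PI {X : Type} (τ : TopologicalSpace X) {B C : Set X}
    (hB : IsClosed[τ] B) (hC : IsClosed[τ] C) :
    IsClosed[@instTopologicalSpaceProd X X τ τ] (B ×ˢ C) := by
  let := τ
  exact IsClosed.prod hB hC

private lemma prodOpen_PI {X : Type} (τ : TopologicalSpace X) {B C : Set X}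
    (hB : IsOpen[τ] B) (hC : IsOpen[τ] C) :
    IsOpen[@instTopologicalSpaceProd X X τ τ] (B ×ˢ C) := by
  let := τ
  exact IsOpen.prod hB hC

private lemma unionClosed_PI {X : Type} (τ : TopologicalSpace X) {B C : Set X}
    (hB : IsClosed[τ] B) (hC : IsClosed[τ] C) : IsClosed[τ] (B ∪ C) := by
  let := τ
  exact IsClosed.union hB hC

private lemma unionOpen_PI {X : Type} (τ : TopologicalSpace X) {B C : Set X}
    (hB : IsOpen[τ] B) (hC : IsOpen[τ] C) : IsOpen[τ] (B ∪ C) := by
  let := τ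
  exact IsOpen.union hB hC

private lemma cl_PI (hSG : StSG) (hSU : StSU) {A S : Type} [Finite A] [Finite S] {n : ℕ}
    {g : Tre A → S} {Ga : A → S × S → S} (hyp : Hyp n g Ga) {h : ℕ} {B : Set (Tre A)}
    (hB : Pc n g h B) : ∃ i, IsClosed[stg n g i h] B := by
  obtain ⟨-, -, -, hstg, -⟩ := hSU A S n g
  obtain ⟨hst, hname⟩ := hSG A S n g Ga hyp
  have up : ∀ (i j : Ordinal.{0}) (C : Set (Tre A)), i ≤ j → IsClosed[stg n g i h] C →
      IsClosed[stg n g j h] C := by
    intro i j C hij hC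
    have h1 := (@isOpen_compl_iff _ C (stg n g i h)).mpr hC
    exact (@isOpen_compl_iff _ C (stg n g j h)).mp (hstg i j h hij _ h1)
  induction hB with
  | nm N i hN => exact ⟨i, (hname N h i hN).1⟩
  | mk a C₀ C₁ _ _ ih₀ ih₁ =>
    obtain ⟨i₀, h₀⟩ := ih₀
    obtain ⟨i₁, h₁⟩ := ih₁
    refine ⟨max i₀ i₁, closed_PI ((hst (max i₀ i₁)).2.2 a h) (prodClosed_PI _ ?_ ?_)⟩
    · exact up _ _ _ (le_max_left _ _) h₀
    · exact up _ _ _ (le_max_right _ _) h₁
  | union C₀ C₁ _ _ ih₀ ih₁ =>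
    obtain ⟨i₀, h₀⟩ := ih₀
    obtain ⟨i₁, h₁⟩ := ih₁
    refine ⟨max i₀ i₁, unionClosed_PI _ ?_ ?_⟩
    · exact up _ _ _ (le_max_left _ _) h₀
    · exact up _ _ _ (le_max_right _ _) h₁
  | empty => exact ⟨0, @isClosed_empty _ (stg n g 0 h)⟩

private lemma op_PI (hSG : StSG) (hSU : StSU) {A S : Type} [Finite A] [Finite S] {n : ℕ}
    {g : Tre A → S} {Ga : A → S × S → S} (hyp : Hyp n g Ga) {h : ℕ} {B : Set (Tre A)}
    (hB : Pc n g (h + 1) B) : ∃ i, IsOpen[stg n g i h] B := by
  obtain ⟨-, -, -, hstg, -, -, -, hop, -⟩ := hSU A S n g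
  obtain ⟨hst, -⟩ := hSG A S n g Ga hyp
  have up : ∀ (i j : Ordinal.{0}) (C : Set (Tre A)), i ≤ j → IsOpen[stg n g i h] C →
      IsOpen[stg n g j h] C := fun i j C hij hC => hstg i j h hij _ hC
  induction hB with
  | nm N i hN => exact ⟨i, hop N i h hN⟩
  | mk a C₀ C₁ _ _ ih₀ ih₁ =>
    obtain ⟨i₀, h₀⟩ := ih₀
    obtain ⟨i₁, h₁⟩ := ih₁
    refine ⟨max i₀ i₁, open_PI ((hst (max i₀ i₁)).2.2 a h) (prodOpen_PI _ ?_ ?_)⟩
    · exact up _ _ _ (le_max_left _ _) h₀
    · exact up _ _ _ (le_max_right _ _) h₁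
  | union C₀ C₁ _ _ ih₀ ih₁ =>
    obtain ⟨i₀, h₀⟩ := ih₀
    obtain ⟨i₁, h₁⟩ := ih₁
    refine ⟨max i₀ i₁, unionOpen_PI _ ?_ ?_⟩
    · exact up _ _ _ (le_max_left _ _) h₀
    · exact up _ _ _ (le_max_right _ _) h₁
  | empty => exact ⟨0, @isOpen_empty _ (stg n g 0 h)⟩

private lemma cyl_PI {A S : Type} [Finite A] {n : ℕ} {g : Tre A → S} {h : ℕ} (u : List Bool)
    (a : A) : Pc n g h {t : Tre A | t u = a} := by
  have h1 : Pc n g h {t : Tre A | t [] = a} := by
    have h2 : {t : Tre A | t [] = a} = Tre.mk a '' (univ ×ˢ univ) := by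
      ext t
      constructor
      · intro ht
        refine ⟨(t.sub [false], t.sub [true]), ⟨mem_univ _, mem_univ _⟩, ?_⟩
        have h3 := mk_eta_PI t
        replace ht : t [] = a := ht
        rwa [ht] at h3
      · rintro ⟨p, -, rfl⟩
        rfl
    rw [h2]
    exact Pc.mk a _ _ (univ_PI n g h) (univ_PI n g h)
  have h4 := sub_PI u h1
  have h5 : {t : Tre A | t.sub u ∈ {t : Tre A | t [] = a}} = {t : Tre A | t u = a} := by
    ext t
    change t (u ++ []) = a ↔ t u = a
    rw [List.append_nil]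
  rwa [h5] at h4

/-- **PI (4.7)** closure properties of the pieces -/
theorem hPI (hSG : StSG) (hSU : StSU) (hCN : StCN) : StPI := by
  intro A S _ _ n g Ga hyp h
  refine ⟨fun B B' hB hB' => inter_PI hSG hSU hyp hB B' hB', fun B hB => anti_PI hSU hB,
    countable_PI hCN hyp h, fun B hB u => sub_PI u hB, fun B hB => cl_PI hSG hSU hyp hB,
    fun B hB => op_PI hSG hSU hyp hB, fun u a => cyl_PI u a⟩

end Pool.Agent.Helper24.WH

end

section

/-!
# Project WH, module SB
-/

set_option autoImplicit false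

namespace Pool.Agent.Helper24.WH

open Set TopologicalSpace Topology
open Ordinal hiding univ

private theorem isClosed_mono_SB {X : Type} {τ τ' : TopologicalSpace X} (h : τ ≤ τ') {F : Set X}
    (hF : IsClosed[τ'] F) : IsClosed[τ] F :=
  @IsClosed.mk X τ F (h _ (@IsClosed.isOpen_compl X τ' F hF))

private theorem isOpen_mono_SB {X : Type} {τ τ' : TopologicalSpace X} (h : τ ≤ τ') {F : Set X}
    (hF : IsOpen[τ'] F) : IsOpen[τ] F :=
  h _ hF

theorem hSB (hNT : StNT) (hSU : StSU) : StSB := by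
  intro A S _ _ n g Ga hyp i hN
  obtain ⟨-, -, -, nzd, -, nce, -, -, -, -⟩ := hNT A
  obtain ⟨sun, -, -, -, sM, sb, -, so, -⟩ := hSU A S n g
  have hcl : ∀ M, ∀ F ∈ {F | ∃ N : Nm S, GN n g N (M + 1) i ∧ F = vl n g N},
      IsClosed[stg n g i M] F := by
    rintro M F ⟨N, hg, rfl⟩
    exact isClosed_mono_SB (sM i M) (hN N (M + 1) hg).1
  refine ⟨⟨fun M => sM i M, fun M => ?_⟩, fun s => ?_, fun a M => ?_⟩
  · rw [sun i M]
    refine nzd _ ?_
    rw [← sun i M]
    exact hcl M
  · have h := hyp.cont s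
    have h2 := sb i 0 (Nat.zero_le n)
    rw [Nat.sub_zero] at h2
    exact ⟨isClosed_mono_SB h2 h.1, isOpen_mono_SB h2 h.2⟩
  · have key := nce {F | ∃ N : Nm S, GN n g N (M + 1) i ∧ F = vl n g N} (by
      rintro F ⟨N, hg, rfl⟩ b
      obtain ⟨k, N₀, N₁, hk, he⟩ := (hN N (M + 1) hg).2 b
      refine ⟨k, fun q => vl n g (N₀ q), fun q => vl n g (N₁ q), fun q => ?_, fun q => ?_, he⟩
      · rw [← sun i M]
        exact so _ _ _ (hk q).1
      · rw [← sun i M]
        exact so _ _ _ (hk q).2) a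
    rw [← sun i M] at key
    exact key

end Pool.Agent.Helper24.WH

end

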