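import Pool.Agent.Helper24.WH.St5

/-! Modules of project WH / WL merged into one file to shorten the build. -/

section

/-!
# PROJECT WH, module CA: combinatorics of codes I
-/

set_option autoImplicit false

namespace Pool.Agent.Helper24.WH

open Set TopologicalSpace Topology
open Ordinal hiding univ

/-! ## Lists over a linear order -/

private theorem lt_split_CA {α : Type} [LinearOrder α] (l l' : List α) (h : l < l') :
    (∃ (e : α) (r : List α), l' = l ++ e :: r) ∨
    (∃ (p : List α) (e e' : α) (r r' : List α), l = p ++ e :: r ∧ l' = p ++ e' :: r' ∧ e < e') := by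
  have h' : List.Lex (· < ·) l l' := h
  clear h
  induction h' with
  | nil => exact Or.inl ⟨_, _, rfl⟩
  | @cons a as bs _ ih =>
    rcases ih with ⟨e, r, hr⟩ | ⟨p, e, e', r, r', h1, h2, h3⟩
    · exact Or.inl ⟨e, r, by rw [hr]; rfl⟩
    · exact Or.inr ⟨a :: p, e, e', r, r', by rw [h1]; rfl, by rw [h2]; rfl, h3⟩
  | @rel a as b bs hab => exact Or.inr ⟨[], a, b, as, bs, rfl, rfl, hab⟩

private theorem lt_app_CA {α : Type} [LinearOrder α] (l : List α) (e : α) (r : List α) :
    l < l ++ e :: r := by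
  have : List.Lex (· < ·) (l ++ []) (l ++ e :: r) := List.Lex.append_left _ List.Lex.nil l
  rw [List.append_nil] at this
  exact this

private theorem lt_rel_CA {α : Type} [LinearOrder α] (p : List α) (e e' : α) (r r' : List α) (h : e < e') :
    p ++ e :: r < p ++ e' :: r' := by
  have : List.Lex (· < ·) (p ++ e :: r) (p ++ e' :: r') :=
    List.Lex.append_left _ (List.Lex.rel h) p
  exact this

private theorem nil_le_CA {α : Type} [LinearOrder α] (l : List α) : [] ≤ l := by
  cases l with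
  | nil => exact le_rfl
  | cons a as => exact le_of_lt (lt_app_CA [] a as)

private theorem app_le_CA {α : Type} [LinearOrder α] (l : List α) (o e : α) (r : List α) (h : o ≤ e) :
    l ++ [o] ≤ l ++ e :: r := by
  rcases lt_or_eq_of_le h with h | h
  · exact le_of_lt (lt_rel_CA l o e [] r h)
  · subst h
    cases r with
    | nil => exact le_rfl
    | cons a as =>
      have := lt_app_CA (l ++ [o]) a as
      rw [List.append_assoc] at this
      exact le_of_lt this

/-! ## The least nonzero code -/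

private def one_CA : (m : ℕ) → Cd m
  | 0 => true
  | (m + 1) => Cd.of [toLex (one_CA m, 0)]

private theorem one_ne_CA : ∀ m : ℕ, one_CA m ≠ Cd.bot m
  | 0 => by
    intro h
    have : (true : Bool) = false := h
    exact absurd this (by decide)
  | (m + 1) => by
    intro h
    have : ([toLex (one_CA m, 0)] : List (Cd m ×ₗ ℕ)) = [] := h
    exact absurd this (by simp)

private theorem one_wf_CA : ∀ m : ℕ, Cd.wf m (one_CA m)
  | 0 => trivial
  | (m + 1) => by
    refine ⟨List.pairwise_singleton _ _, ?_⟩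
    intro e he
    have : e = toLex (one_CA m, 0) := by simpa [one_CA] using he
    subst this
    exact ⟨one_wf_CA m, one_ne_CA m⟩

private theorem one_vd_CA : ∀ m : ℕ, Cd.vd m (one_CA m)
  | 0 => rfl
  | (m + 1) => ⟨[], one_CA m, rfl, one_vd_CA m⟩

private theorem toLex_le_CA {m : ℕ} (c : Cd m) (e : Cd m ×ₗ ℕ) (h : c ≤ (ofLex e).1) :
    toLex (c, 0) ≤ e := by
  rw [Prod.Lex.le_iff]
  rcases lt_or_eq_of_le h with h | h
  · exact Or.inl h
  · exact Or.inr ⟨h, Nat.zero_le _⟩

private theorem bot_le_CA : ∀ (m : ℕ) (c : Cd m), Cd.bot m ≤ c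
  | 0, c => Bool.false_le c
  | (_ + 1), l => nil_le_CA (Cd.L l)

private theorem one_min_CA : ∀ (m : ℕ) (c : Cd m), Cd.wf m c → c ≠ Cd.bot m → one_CA m ≤ c
  | 0, c => by
    intro _ hc
    have hb : Cd.B c = true := by
      cases hB : Cd.B c with
      | true => rfl
      | false => exact absurd hB hc
    have : (true : Bool) ≤ Cd.B c := by rw [hb]
    exact this
  | (m + 1), l => by
    intro hw hl
    have key : ∀ l' : List (Cd m ×ₗ ℕ), l' = Cd.L l → [toLex (one_CA m, 0)] ≤ l' := by
      intro l' hl'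
      cases l' with
      | nil => exact absurd hl'.symm hl
      | cons e r =>
        have he : e ∈ Cd.L l := by rw [← hl']; exact List.mem_cons_self
        have h1 := hw.2 e he
        have h2 := one_min_CA m _ h1.1 h1.2
        exact app_le_CA [] _ e r (toLex_le_CA _ e h2)
    exact key _ rfl

private theorem next_CA (m : ℕ) (c c' : Cd (m + 1)) (hc : Cd.wf (m + 1) c) (hc' : Cd.wf (m + 1) c')
    (h : c < c') : ∃ r, Cd.wf (m + 1) r ∧ Cd.vd (m + 1) r ∧ c < r ∧ r ≤ c' := by
  refine ⟨Cd.of (Cd.L c ++ [toLex (one_CA m, 0)]), ⟨?_, ?_⟩, ⟨Cd.L c, one_CA m, rfl, one_vd_CA m⟩, ?_, ?_⟩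
  · rw [List.pairwise_append]
    refine ⟨hc.1, List.pairwise_singleton _ _, ?_⟩
    intro a ha b hb
    have : b = toLex (one_CA m, 0) := by simpa using hb
    subst this
    have h1 := hc.2 a ha
    exact toLex_le_CA _ a (one_min_CA m _ h1.1 h1.2)
  · intro e he
    rcases List.mem_append.1 he with he | he
    · exact hc.2 e he
    · have : e = toLex (one_CA m, 0) := by simpa using he
      subst this
      exact ⟨one_wf_CA m, one_ne_CA m⟩
  · exact lt_app_CA (Cd.L c) _ []
  · have h' : Cd.L c < Cd.L c' := h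
    have goal : Cd.L c ++ [toLex (one_CA m, 0)] ≤ Cd.L c' := by
      rcases lt_split_CA _ _ h' with ⟨e, r, hr⟩ | ⟨p, e, e', r, r', h1, h2, h3⟩
      · rw [hr]
        have he : e ∈ Cd.L c' := by rw [hr]; simp
        have h1 := hc'.2 e he
        exact app_le_CA _ _ e r (toLex_le_CA _ e (one_min_CA m _ h1.1 h1.2))
      · rw [h1, h2, List.append_assoc]
        exact le_of_lt (lt_rel_CA p e e' _ r' h3)
    exact goal

private theorem countable_CA : ∀ m : ℕ, Countable (Cd m)
  | 0 => inferInstanceAs (Countable Bool)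
  | (m + 1) => by
    haveI := countable_CA m
    haveI : Countable (Cd m ×ₗ ℕ) := inferInstanceAs (Countable (Cd m × ℕ))
    exact inferInstanceAs (Countable (List (Cd m ×ₗ ℕ)))

private theorem bot_wf_CA : ∀ m : ℕ, Cd.wf m (Cd.bot m)
  | 0 => trivial
  | (m + 1) => ⟨List.Pairwise.nil, fun e he => absurd he (by simp [Cd.bot])⟩

private theorem bot_vd_CA : ∀ m : ℕ, ¬ Cd.vd m (Cd.bot m)
  | 0 => fun h => by
    have : (false : Bool) = true := h
    exact absurd this (by decide)
  | (m + 1) => fun ⟨l₀, c, h, _⟩ => by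
    have : ([] : List (Cd m ×ₗ ℕ)) = l₀ ++ [toLex (c, 0)] := h
    exact absurd this (by simp)

/-- **CA** -/
theorem hCA : StCA := by
  intro m
  refine ⟨countable_CA m, bot_le_CA m, bot_wf_CA m, bot_vd_CA m, ?_, ?_, ?_, ?_, ?_, ?_⟩
  · cases m with
    | zero =>
      intro c c' _ _ h
      exact ⟨c', trivial, by
        have h' : Cd.B c < Cd.B c' := h
        change Cd.B c' = true
        cases hB : Cd.B c' with
        | true => rfl
        | false => rw [hB] at h'; exact absurd h' (by simp), h, le_rfl⟩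
    | succ m => exact fun c c' hc hc' h => next_CA m c c' hc hc' h
  · intro l c x hw
    have hw1 : List.Pairwise (fun a b : Cd m ×ₗ ℕ => b ≤ a) (Cd.L l ++ [toLex (c, x)]) := hw.1
    have hw2 : ∀ e ∈ Cd.L l ++ [toLex (c, x)], Cd.wf m (ofLex e).1 ∧ (ofLex e).1 ≠ Cd.bot m := hw.2
    have hlast := hw2 (toLex (c, x)) (by simp)
    refine ⟨⟨(List.pairwise_append.1 hw1).1, fun e he => hw2 e (List.mem_append_left _ he)⟩,
      hlast.1, hlast.2, ?_⟩
    exact lt_app_CA (Cd.L l) _ []
  · intro l c c' x x' hw hc' hb hle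
    have hw1 : List.Pairwise (fun a b : Cd m ×ₗ ℕ => b ≤ a) (Cd.L l ++ [toLex (c, x)]) := hw.1
    have hw2 : ∀ e ∈ Cd.L l ++ [toLex (c, x)], Cd.wf m (ofLex e).1 ∧ (ofLex e).1 ≠ Cd.bot m := hw.2
    have goal1 : List.Pairwise (fun a b : Cd m ×ₗ ℕ => b ≤ a) (Cd.L l ++ [toLex (c', x')]) := by
      rw [List.pairwise_append] at hw1 ⊢
      refine ⟨hw1.1, List.pairwise_singleton _ _, ?_⟩
      intro a ha b hbb
      have : b = toLex (c', x') := by simpa using hbb
      subst this
      exact le_trans hle (hw1.2.2 a ha _ (by simp))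
    have goal2 : ∀ e ∈ Cd.L l ++ [toLex (c', x')], Cd.wf m (ofLex e).1 ∧ (ofLex e).1 ≠ Cd.bot m := by
      intro e he
      rcases List.mem_append.1 he with he | he
      · exact hw2 e (List.mem_append_left _ he)
      · have : e = toLex (c', x') := by simpa using he
        subst this
        exact ⟨hc', hb⟩
    exact ⟨goal1, goal2⟩
  · intro l c c' x x' h
    exact lt_rel_CA (Cd.L l) _ _ [] [] h
  · intro l hl
    have hl' : Cd.L l ≠ [] := hl
    refine ⟨Cd.of ((Cd.L l).dropLast), (ofLex ((Cd.L l).getLast hl')).1, (ofLex ((Cd.L l).getLast hl')).2, ?_⟩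
    exact (List.dropLast_append_getLast hl').symm
  · intro l l' h
    exact lt_split_CA (Cd.L l) (Cd.L l') h

end Pool.Agent.Helper24.WH

end

section

/-!
# Project WH, module CB: combinatorics of codes II, the ordinal map
-/

set_option autoImplicit false

namespace Pool.Agent.Helper24.WH

open Set TopologicalSpace Topology
open Ordinal hiding univ

/-! ### Height zero -/

private def one_CB : Cd 0 := (true : Bool)

private theorem cases0_CB (P : Cd 0 → Prop) (h1 : P (Cd.bot 0)) (h2 : P one_CB) (c : Cd 0) :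
    P c := @Bool.rec (fun b => P b) h1 h2 c

private theorem up_bot_CB : Cd.up 0 (Cd.bot 0) = Cd.of [] := rfl

private theorem up_one_CB : Cd.up 0 one_CB = Cd.of [toLex (one_CB, 0)] := rfl

private theorem pi_bot_CB : Cd.pi 0 (Cd.bot 0) = 0 := by
  change (if (false : Bool) = true then (1 : Ordinal.{0}) else 0) = 0
  rw [if_neg (by decide)]

private theorem pi_one_CB : Cd.pi 0 one_CB = 1 := by
  change (if (true : Bool) = true then (1 : Ordinal.{0}) else 0) = 1
  rw [if_pos rfl]

private theorem bot_lt_one_CB : Cd.bot 0 < one_CB := by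
  change (false : Bool) < true
  decide

private theorem bot_ne_one_CB : Cd.bot 0 ≠ one_CB := bot_lt_one_CB.ne

/-! ### The ordinal map -/

/-- the exponent of an entry -/
private noncomputable def E_CB {m : ℕ} (e : Cd m ×ₗ ℕ) : Ordinal.{0} :=
  ω * (Cd.pi m (ofLex e).1 - 1) + ((ofLex e).2 : Ordinal.{0})

/-- the value of a list -/
private noncomputable def S_CB {m : ℕ} (l : List (Cd m ×ₗ ℕ)) : Ordinal.{0} :=
  (l.map (fun e => ω ^ E_CB e)).sum

private theorem pi_succ_CB {m : ℕ} (l : Cd (m + 1)) : Cd.pi (m + 1) l = S_CB (Cd.L l) := rfl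

private theorem S_nil_CB {m : ℕ} : S_CB ([] : List (Cd m ×ₗ ℕ)) = 0 := rfl

private theorem S_cons_CB {m : ℕ} (e : Cd m ×ₗ ℕ) (l : List (Cd m ×ₗ ℕ)) :
    S_CB (e :: l) = ω ^ E_CB e + S_CB l := by
  unfold S_CB
  rw [List.map_cons, List.sum_cons]

/-- (4) without well-formedness -/
private theorem one_le_CB (m : ℕ) (c : Cd m) (h : c ≠ Cd.bot m) : 1 ≤ Cd.pi m c := by
  cases m with
  | zero =>
    revert h
    refine cases0_CB (fun c => c ≠ Cd.bot 0 → 1 ≤ Cd.pi 0 c) ?_ ?_ c
    · intro h
      exact absurd rfl h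
    · intro _
      rw [pi_one_CB]
  | succ m =>
    rw [pi_succ_CB]
    have h' : Cd.L c ≠ [] := h
    revert h'
    generalize Cd.L c = l
    intro h'
    cases l with
    | nil => exact absurd rfl h'
    | cons e l =>
      rw [S_cons_CB]
      refine le_trans ?_ (le_self_add)
      rw [Order.one_le_iff_pos]
      exact opow_pos _ omega0_pos

private theorem E_lt_CB {m : ℕ} (ih : ∀ c c' : Cd m, Cd.wf m c → Cd.wf m c' → c < c' →
    Cd.pi m c < Cd.pi m c') {e e' : Cd m ×ₗ ℕ} (h1 : Cd.wf m (ofLex e).1)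
    (h2 : (ofLex e).1 ≠ Cd.bot m) (h3 : Cd.wf m (ofLex e').1) (h4 : (ofLex e').1 ≠ Cd.bot m)
    (h : e < e') : E_CB e < E_CB e' := by
  unfold E_CB
  rw [Prod.Lex.lt_iff] at h
  rcases h with h | ⟨h5, h6⟩
  · have h5 := ih _ _ h1 h3 h
    have h6 := Ordinal.add_sub_cancel_of_le (one_le_CB m _ h2)
    have h7 := Ordinal.add_sub_cancel_of_le (one_le_CB m _ h4)
    have h8 : Cd.pi m (ofLex e).1 - 1 < Cd.pi m (ofLex e').1 - 1 := by
      rw [← h6, ← h7] at h5
      exact lt_of_add_lt_add_left h5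
    calc ω * (Cd.pi m (ofLex e).1 - 1) + ((ofLex e).2 : Ordinal.{0})
        < ω * (Cd.pi m (ofLex e).1 - 1) + ω := by
          gcongr
          exact natCast_lt_omega0 _
      _ = ω * (Cd.pi m (ofLex e).1 - 1 + 1) := by rw [mul_add, mul_one]
      _ ≤ ω * (Cd.pi m (ofLex e').1 - 1) := by
          gcongr
          rw [← Order.succ_eq_add_one]
          exact Order.succ_le_of_lt h8
      _ ≤ ω * (Cd.pi m (ofLex e').1 - 1) + ((ofLex e').2 : Ordinal.{0}) := le_self_add
  · have h5' : (ofLex e).1 = (ofLex e').1 := h5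
    rw [h5']
    gcongr

/-- a list with small entries has a small value -/
private theorem S_lt_CB {m : ℕ} (x : Ordinal.{0}) (l : List (Cd m ×ₗ ℕ))
    (h : ∀ e ∈ l, E_CB e < x) : S_CB l < ω ^ x := by
  induction l with
  | nil =>
    rw [S_nil_CB]
    exact opow_pos _ omega0_pos
  | cons e l ih =>
    rw [S_cons_CB]
    refine isPrincipal_add_omega0_opow x ?_ (ih fun e' he' => h e' (List.mem_cons_of_mem _ he'))
    exact (opow_lt_opow_iff_right one_lt_omega0).2 (h e List.mem_cons_self)

private theorem S_mono_CB {m : ℕ} (ih : ∀ c c' : Cd m, Cd.wf m c → Cd.wf m c' → c < c' →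
    Cd.pi m c < Cd.pi m c') {l l' : List (Cd m ×ₗ ℕ)} (h : List.Lex (· < ·) l l') :
    (∀ e ∈ l, Cd.wf m (ofLex e).1 ∧ (ofLex e).1 ≠ Cd.bot m) →
    (∀ e ∈ l', Cd.wf m (ofLex e).1 ∧ (ofLex e).1 ≠ Cd.bot m) →
    l.Pairwise (fun a b => b ≤ a) → S_CB l < S_CB l' := by
  induction h with
  | @nil b l' =>
    intro _ _ _
    rw [S_nil_CB, S_cons_CB]
    exact lt_of_lt_of_le (opow_pos _ omega0_pos) le_self_add
  | @cons a l l' h ihl =>
    intro h1 h2 h3
    rw [S_cons_CB, S_cons_CB]
    have h4 := ihl (fun e he => h1 e (List.mem_cons_of_mem _ he))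
      (fun e he => h2 e (List.mem_cons_of_mem _ he)) (List.pairwise_cons.1 h3).2
    gcongr
  | @rel a l b l' hab =>
    intro h1 h2 h3
    have h4 : S_CB (a :: l) < ω ^ E_CB b := by
      refine S_lt_CB _ _ fun e he => ?_
      have hb := h2 b List.mem_cons_self
      refine E_lt_CB ih (h1 e he).1 (h1 e he).2 hb.1 hb.2 ?_
      rcases List.mem_cons.1 he with rfl | he
      · exact hab
      · exact lt_of_le_of_lt ((List.pairwise_cons.1 h3).1 e he) hab
    rw [S_cons_CB b]
    exact lt_of_lt_of_le h4 le_self_add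

/-- (1) -/
private theorem pi_mono_CB (m : ℕ) : ∀ c c' : Cd m, Cd.wf m c → Cd.wf m c' → c < c' →
    Cd.pi m c < Cd.pi m c' := by
  induction m with
  | zero =>
    intro c c' _ _ h
    revert h
    refine cases0_CB (fun c => c < c' → Cd.pi 0 c < Cd.pi 0 c') ?_ ?_ c
    · refine cases0_CB (fun c' => Cd.bot 0 < c' → Cd.pi 0 (Cd.bot 0) < Cd.pi 0 c') ?_ ?_ c'
      · intro h
        exact absurd h (lt_irrefl _)
      · intro _
        rw [pi_bot_CB, pi_one_CB]
        exact zero_lt_one
    · refine cases0_CB (fun c' => one_CB < c' → Cd.pi 0 one_CB < Cd.pi 0 c') ?_ ?_ c'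
      · intro h
        exact absurd (h.trans bot_lt_one_CB) (lt_irrefl _)
      · intro h
        exact absurd h (lt_irrefl _)
  | succ m ih =>
    intro c c' h1 h2 h
    rw [pi_succ_CB, pi_succ_CB]
    exact S_mono_CB ih h h1.2 h2.2 h1.1

/-! ### Values below `ε₀` -/

private theorem eps_add_CB {a b : Ordinal.{0}} (ha : a < Ordinal.epsilon 0)
    (hb : b < Ordinal.epsilon 0) : a + b < Ordinal.epsilon 0 := by
  have h := isPrincipal_add_omega0_opow (Ordinal.epsilon 0)
  rw [omega0_opow_epsilon] at h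
  exact h ha hb

private theorem eps_mul_CB {a b : Ordinal.{0}} (ha : a < Ordinal.epsilon 0)
    (hb : b < Ordinal.epsilon 0) : a * b < Ordinal.epsilon 0 := by
  have h := isPrincipal_mul_omega0_opow_opow (Ordinal.epsilon 0)
  rw [omega0_opow_epsilon, omega0_opow_epsilon] at h
  exact h ha hb

private theorem eps_pow_CB {a : Ordinal.{0}} (ha : a < Ordinal.epsilon 0) :
    ω ^ a < Ordinal.epsilon 0 := by
  rw [← omega0_opow_epsilon 0]
  exact (opow_lt_opow_iff_right one_lt_omega0).2 ha

/-- (2) -/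
private theorem pi_lt_CB (m : ℕ) : ∀ c : Cd m, Cd.pi m c < Ordinal.epsilon 0 := by
  induction m with
  | zero =>
    refine cases0_CB _ ?_ ?_
    · rw [pi_bot_CB]
      exact epsilon_pos _
    · rw [pi_one_CB]
      exact_mod_cast natCast_lt_epsilon 1 0
  | succ m ih =>
    intro c
    rw [pi_succ_CB]
    generalize Cd.L c = l
    induction l with
    | nil =>
      rw [S_nil_CB]
      exact epsilon_pos _
    | cons e l ihl =>
      rw [S_cons_CB]
      refine eps_add_CB (eps_pow_CB ?_) ihl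
      unfold E_CB
      refine eps_add_CB (eps_mul_CB (omega0_lt_epsilon 0) ?_) (natCast_lt_epsilon _ 0)
      exact lt_of_le_of_lt (Ordinal.sub_le_self _ _) (ih _)

/-- (3) -/
private theorem pi_zero_CB (m : ℕ) : Cd.pi m (Cd.bot m) = 0 := by
  cases m with
  | zero => exact pi_bot_CB
  | succ m => rfl

/-! ### The embedding `up` -/

/-- `up` on entries -/
private def g_CB (m : ℕ) (e : Cd m ×ₗ ℕ) : Cd (m + 1) ×ₗ ℕ :=
  toLex (Cd.up m (ofLex e).1, (ofLex e).2)

private theorem up_succ_CB (m : ℕ) (l : Cd (m + 1)) :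
    Cd.up (m + 1) l = Cd.of ((Cd.L l).map (g_CB m)) := rfl

/-- (5) -/
private theorem pi_up_CB (m : ℕ) : ∀ c : Cd m, Cd.pi (m + 1) (Cd.up m c) = Cd.pi m c := by
  induction m with
  | zero =>
    refine cases0_CB _ ?_ ?_
    · rw [pi_bot_CB]
      rfl
    · rw [pi_one_CB, pi_succ_CB, up_one_CB]
      change S_CB [toLex (one_CB, 0)] = 1
      rw [S_cons_CB, S_nil_CB, add_zero]
      unfold E_CB
      have e1 : (ofLex (toLex (one_CB, 0) : Cd 0 ×ₗ ℕ)).1 = one_CB := rfl
      have e2 : (ofLex (toLex (one_CB, 0) : Cd 0 ×ₗ ℕ)).2 = 0 := rfl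
      rw [e1, e2, pi_one_CB, Ordinal.sub_self, mul_zero, Nat.cast_zero, add_zero, opow_zero]
  | succ m ih =>
    intro c
    rw [pi_succ_CB, pi_succ_CB, up_succ_CB]
    change S_CB ((Cd.L c).map (g_CB m)) = S_CB (Cd.L c)
    generalize Cd.L c = l
    induction l with
    | nil => rfl
    | cons e l ihl =>
      rw [List.map_cons, S_cons_CB, S_cons_CB, ihl]
      congr 2
      unfold E_CB
      have e1 : (ofLex (g_CB m e)).1 = Cd.up m (ofLex e).1 := rfl
      have e2 : (ofLex (g_CB m e)).2 = (ofLex e).2 := rfl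
      rw [e1, e2, ih]

private theorem g_mono_CB {m : ℕ} (ih : StrictMono (Cd.up m)) : StrictMono (g_CB m) := by
  intro e e' h
  rw [Prod.Lex.lt_iff] at h ⊢
  rcases h with h | ⟨h1, h2⟩
  · exact Or.inl (ih h)
  · refine Or.inr ⟨?_, h2⟩
    have h1' : (ofLex e).1 = (ofLex e').1 := h1
    change Cd.up m (ofLex e).1 = Cd.up m (ofLex e').1
    rw [h1']

private theorem lex_map_CB {α β : Type} [LT α] [LT β] {g : α → β} (hg : ∀ a b, a < b → g a < g b)
    {l l' : List α} (h : List.Lex (· < ·) l l') : List.Lex (· < ·) (l.map g) (l'.map g) := by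
  induction h with
  | nil => exact List.Lex.nil
  | cons _ ih => exact List.Lex.cons ih
  | rel h => exact List.Lex.rel (hg _ _ h)

/-- (6), one direction -/
private theorem up_mono_CB (m : ℕ) : StrictMono (Cd.up m) := by
  induction m with
  | zero =>
    intro c c'
    refine cases0_CB (fun c => c < c' → Cd.up 0 c < Cd.up 0 c') ?_ ?_ c
    · refine cases0_CB (fun c' => Cd.bot 0 < c' → Cd.up 0 (Cd.bot 0) < Cd.up 0 c') ?_ ?_ c'
      · intro h
        exact absurd h (lt_irrefl _)
      · intro _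
        exact (List.Lex.nil : List.Lex (· < ·) ([] : List (Cd 0 ×ₗ ℕ)) [toLex (one_CB, 0)])
    · refine cases0_CB (fun c' => one_CB < c' → Cd.up 0 one_CB < Cd.up 0 c') ?_ ?_ c'
      · intro h
        exact absurd (h.trans bot_lt_one_CB) (lt_irrefl _)
      · intro h
        exact absurd h (lt_irrefl _)
  | succ m ih =>
    intro l l' h
    exact lex_map_CB (g := g_CB m) (fun a b hab => g_mono_CB ih hab) h

/-- (9) -/
private theorem up_bot'_CB (m : ℕ) : Cd.up m (Cd.bot m) = Cd.bot (m + 1) := by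
  cases m with
  | zero => rfl
  | succ m => rfl

private theorem up_ne_CB {m : ℕ} {c : Cd m} (h : c ≠ Cd.bot m) : Cd.up m c ≠ Cd.bot (m + 1) := by
  intro h1
  rw [← up_bot'_CB] at h1
  exact h ((up_mono_CB m).injective h1)

/-- (7) -/
private theorem up_wf_CB (m : ℕ) : ∀ c : Cd m, Cd.wf m c → Cd.wf (m + 1) (Cd.up m c) := by
  induction m with
  | zero =>
    intro c _
    refine cases0_CB (fun c => Cd.wf 1 (Cd.up 0 c)) ?_ ?_ c
    · exact ⟨List.Pairwise.nil, fun e he => absurd he List.not_mem_nil⟩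
    · refine ⟨List.pairwise_singleton _ _, fun e he => ?_⟩
      have he' : e ∈ [(toLex (one_CB, 0) : Cd 0 ×ₗ ℕ)] := he
      rw [List.mem_singleton.1 he']
      exact ⟨trivial, bot_ne_one_CB.symm⟩
  | succ m ih =>
    intro l hl
    refine ⟨?_, ?_⟩
    · change List.Pairwise _ ((Cd.L l).map (g_CB m))
      rw [List.pairwise_map]
      exact hl.1.imp fun {a b} hab => (g_mono_CB (up_mono_CB m)).monotone hab
    · intro e he
      have he' : e ∈ (Cd.L l).map (g_CB m) := he
      obtain ⟨e₀, h0, rfl⟩ := List.mem_map.1 he'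
      exact ⟨ih _ (hl.2 e₀ h0).1, up_ne_CB (hl.2 e₀ h0).2⟩

/-- (8) -/
private theorem up_vd_CB (m : ℕ) : ∀ c : Cd m, Cd.vd m c ↔ Cd.vd (m + 1) (Cd.up m c) := by
  induction m with
  | zero =>
    refine cases0_CB _ ?_ ?_
    · constructor
      · intro h
        have h' : (false : Bool) = true := h
        exact absurd h' (by decide)
      · rintro ⟨l₀, c, h, _⟩
        have h' : ([] : List (Cd 0 ×ₗ ℕ)) = l₀ ++ [toLex (c, 0)] := h
        simp at h'
    · constructor
      · intro h
        exact ⟨[], one_CB, rfl, h⟩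
      · intro _
        exact (rfl : (true : Bool) = true)
  | succ m ih =>
    intro l
    constructor
    · rintro ⟨l₀, c, h, hc⟩
      refine ⟨l₀.map (g_CB m), Cd.up m c, ?_, (ih c).1 hc⟩
      change (Cd.L l).map (g_CB m) = _
      rw [h, List.map_append]
      rfl
    · rintro ⟨l₁, c₁, h, hc⟩
      have h' : (Cd.L l).map (g_CB m) = l₁ ++ [toLex (c₁, 0)] := h
      rw [List.map_eq_append_iff] at h'
      obtain ⟨l₂, l₃, h1, h2, h3⟩ := h'
      rw [List.map_eq_singleton_iff] at h3
      obtain ⟨e, h4, h5⟩ := h3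
      have h6 : Cd.up m (ofLex e).1 = c₁ := congrArg (fun z => (ofLex z).1) h5
      have h7 : (ofLex e).2 = 0 := congrArg (fun z => (ofLex z).2) h5
      refine ⟨l₂, (ofLex e).1, ?_, ?_⟩
      · rw [h1, h4]
        congr 1
        have h8 : e = toLex ((ofLex e).1, (ofLex e).2) := rfl
        rw [h7] at h8
        rw [← h8]
      · rw [ih, h6]
        exact hc

/-- (10) -/
private theorem up_init_CB (m : ℕ) : ∀ (c : Cd m) (c' : Cd (m + 1)), Cd.wf m c →
    Cd.wf (m + 1) c' → c' ≤ Cd.up m c → ∃ c₀ : Cd m, Cd.wf m c₀ ∧ c' = Cd.up m c₀ := by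
  -- an empty or nonempty list below another list
  have A : ∀ (k : ℕ) (a b : Cd (k + 1)), a ≤ b → ∀ (e : Cd k ×ₗ ℕ) (r : List (Cd k ×ₗ ℕ)),
      Cd.L a = e :: r → ∃ (e' : Cd k ×ₗ ℕ) (r' : List (Cd k ×ₗ ℕ)), Cd.L b = e' :: r' ∧
        e ≤ e' ∧ (e = e' → ¬ List.Lex (· < ·) r' r) := by
    intro k a b hab e r ha
    have hnot : ¬ List.Lex (· < ·) (Cd.L b) (Cd.L a) := not_lt_of_ge hab
    rw [ha] at hnot
    cases hb : Cd.L b with
    | nil =>
      rw [hb] at hnot
      exact absurd List.Lex.nil hnot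
    | cons e' r' =>
      rw [hb] at hnot
      refine ⟨e', r', rfl, ?_, ?_⟩
      · exact le_of_not_gt fun h => hnot (List.Lex.rel h)
      · rintro rfl h
        exact hnot (List.Lex.cons h)
  induction m with
  | zero =>
    intro c c' _ hw hle
    cases hc' : Cd.L c' with
    | nil =>
      refine ⟨Cd.bot 0, trivial, ?_⟩
      exact hc'
    | cons e r =>
      obtain ⟨e', r', h1, h2, h3⟩ := A 0 c' (Cd.up 0 c) hle e r hc'
      have hce := (hw.2 e (by rw [hc']; exact List.mem_cons_self)).2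
      have he1 : (ofLex e).1 = one_CB := by
        revert hce
        refine cases0_CB (fun z => z ≠ Cd.bot 0 → z = one_CB) ?_ ?_ (ofLex e).1
        · intro h
          exact absurd rfl h
        · intro _
          rfl
      revert h1
      refine cases0_CB (fun c => Cd.L (Cd.up 0 c) = e' :: r' →
        ∃ c₀ : Cd 0, Cd.wf 0 c₀ ∧ c' = Cd.up 0 c₀) ?_ ?_ c
      · intro h1
        have h1' : ([] : List (Cd 0 ×ₗ ℕ)) = e' :: r' := h1
        exact absurd h1' (by simp)
      · intro h1
        have h1' : [(toLex (one_CB, 0) : Cd 0 ×ₗ ℕ)] = e' :: r' := h1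
        have h4 : toLex (one_CB, 0) = e' := (List.cons.inj h1').1
        have h5 : [] = r' := (List.cons.inj h1').2
        have h6 : e = e' := by
          rw [← h4] at h2 ⊢
          rw [Prod.Lex.le_iff] at h2
          rcases h2 with h2 | h2
          · rw [he1] at h2
            exact absurd h2 (lt_irrefl _)
          · have h7 : (ofLex e).2 = 0 := Nat.le_zero.1 h2.2
            have h8 : e = toLex ((ofLex e).1, (ofLex e).2) := rfl
            rw [he1, h7] at h8
            exact h8
        have h7 := h3 h6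
        have h8 : r = [] := by
          cases r with
          | nil => rfl
          | cons a r =>
            rw [← h5] at h7
            exact absurd List.Lex.nil h7
        refine ⟨one_CB, trivial, ?_⟩
        rw [h8, h6, ← h4] at hc'
        exact hc'
  | succ m ih =>
    intro l l' hl hl' hle
    have B : ∀ e ∈ Cd.L l', ∃ e₀ : Cd m ×ₗ ℕ, g_CB m e₀ = e ∧ Cd.wf m (ofLex e₀).1 ∧
        (ofLex e₀).1 ≠ Cd.bot m := by
      intro e he
      cases hc' : Cd.L l' with
      | nil =>
        rw [hc'] at he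
        exact absurd he List.not_mem_nil
      | cons a r =>
        obtain ⟨a', r', h1, h2, _⟩ := A (m + 1) l' (Cd.up (m + 1) l) hle a r hc'
        have h1' : (Cd.L l).map (g_CB m) = a' :: r' := h1
        rw [List.map_eq_cons_iff] at h1'
        obtain ⟨b, t, h3, h4, _⟩ := h1'
        have h5 : e ≤ a' := by
          rw [hc'] at he
          rcases List.mem_cons.1 he with rfl | he
          · exact h2
          · have h6 := hl'.1
            rw [hc'] at h6
            exact ((List.pairwise_cons.1 h6).1 e he).trans h2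
        have h6 : (ofLex e).1 ≤ Cd.up m (ofLex b).1 := by
          rw [← h4, Prod.Lex.le_iff] at h5
          rcases h5 with h5 | h5
          · exact h5.le
          · exact h5.1.le
        have hb := hl.2 b (by rw [h3]; exact List.mem_cons_self)
        have hwe := hl'.2 e he
        obtain ⟨c₀, h7, h8⟩ := ih (ofLex b).1 (ofLex e).1 hb.1 hwe.1 h6
        refine ⟨toLex (c₀, (ofLex e).2), ?_, h7, ?_⟩
        · change toLex (Cd.up m c₀, (ofLex e).2) = e
          rw [← h8]
          rfl
        · intro h9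
          have h10 : c₀ = Cd.bot m := h9
          rw [h10, up_bot'_CB] at h8
          exact hwe.2 h8
    have C : ∀ l' : List (Cd (m + 1) ×ₗ ℕ), (∀ e ∈ l', ∃ e₀ : Cd m ×ₗ ℕ, g_CB m e₀ = e ∧
        Cd.wf m (ofLex e₀).1 ∧ (ofLex e₀).1 ≠ Cd.bot m) → ∃ l₀ : List (Cd m ×ₗ ℕ),
        l' = l₀.map (g_CB m) ∧ ∀ e ∈ l₀, Cd.wf m (ofLex e).1 ∧ (ofLex e).1 ≠ Cd.bot m := by
      intro l'
      induction l' with
      | nil =>
        intro _
        exact ⟨[], rfl, fun e he => absurd he List.not_mem_nil⟩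
      | cons a l' ihl =>
        intro h
        obtain ⟨l₀, h1, h2⟩ := ihl fun e he => h e (List.mem_cons_of_mem _ he)
        obtain ⟨e₀, h3, h4⟩ := h a List.mem_cons_self
        refine ⟨e₀ :: l₀, ?_, ?_⟩
        · rw [List.map_cons, h3, ← h1]
        · intro e he
          rcases List.mem_cons.1 he with rfl | he
          · exact h4
          · exact h2 e he
    obtain ⟨l₀, h1, h2⟩ := C (Cd.L l') B
    refine ⟨Cd.of l₀, ⟨?_, h2⟩, h1⟩
    have h3 := hl'.1
    rw [h1, List.pairwise_map] at h3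
    exact h3.imp fun {a b} hab => (g_mono_CB (up_mono_CB m)).le_iff_le.1 hab

/-- **CB** -/
theorem hCB : StCB := by
  intro m
  refine ⟨pi_mono_CB m, pi_lt_CB m, pi_zero_CB m, fun c _ h => one_le_CB m c h, pi_up_CB m,
    fun c c' => (up_mono_CB m).lt_iff_lt.symm, up_wf_CB m, up_vd_CB m, up_bot'_CB m,
    up_init_CB m, ?_⟩
  exact Subrelation.wf (r := InvImage (fun a b : Ordinal.{0} => a < b)
    (fun c : {c : Cd m // Cd.wf m c} => Cd.pi m c.1))
    (fun {c c'} h => pi_mono_CB m c.1 c'.1 c.2 c'.2 h) (InvImage.wf _ wellFounded_lt)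

end Pool.Agent.Helper24.WH

end

section

/-!
# Project WH, module HC
-/

set_option autoImplicit false

namespace Pool.Agent.Helper24.WH

open Set TopologicalSpace Topology
open Ordinal hiding univ

theorem hHC (hRB : StRB) (hHO : StHO) : StHC := by
  intro X n τ P f R m hm r hr hv s B hB
  have hmn : m ≤ n := Nat.le_of_succ_le hm
  obtain ⟨-, hZ, -, -⟩ := hRB X τ f R.tow R.fib m
  have hz : IsDer (τ m) (Zo τ f m r s) := hZ r s
  obtain ⟨hO1, -, hO3, hO4, -, -, -, -⟩ := hHO X (τ (m + 1)) (Zo τ f m r s) hz.mono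
  apply Subset.antisymm
  · refine (hO3 B).trans ?_
    exact @closure_mono X (τ (m + 1)) _ _ (hz.mono _ _ (hO1 B))
  · have h0 : ∀ k, P k ⊆ P 0 := by
      intro k
      induction k with
      | zero => exact Subset.rfl
      | succ k ih => exact (R.anti k).trans ih
    have hzP : Zo τ f m r s B ∈ P m := R.ZP m hmn r hr hv s B (R.anti m hB)
    have hC : closure[τ (m + 1)] (Zo τ f m r s B) ∈ P (m + 1) :=
      R.clo (m + 1) (by omega) _ (h0 m hzP)
    have hCB : closure[τ (m + 1)] (Zo τ f m r s B) ⊆ B :=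
      @closure_minimal X (τ (m + 1)) _ _ (hz.le B) (R.cl (m + 1) hm B hB)
    have hCc : Clp (τ m) (closure[τ (m + 1)] (Zo τ f m r s B)) :=
      ⟨R.cl m hmn _ (R.anti m hC), R.op m hmn _ hC⟩
    have hzC : Zo τ f m r s (closure[τ (m + 1)] (Zo τ f m r s B)) = Zo τ f m r s B := by
      have h := hz.loc _ B hCc
      rw [inter_eq_self_of_subset_right hCB, inter_eq_self_of_subset_left
        (@subset_closure X (τ (m + 1)) _)] at h
      exact h
    refine hO4 _ B hCB ?_
    rw [hzC]

end Pool.Agent.Helper24.WH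

end

section

/-!
# PROJECT WH (MP_76577a_lc), module RI: from rich systems of finite type to rich structures
-/

set_option autoImplicit false

namespace Pool.Agent.Helper24.WH

open Set TopologicalSpace Topology
open Ordinal hiding univ

private theorem preimage_RI {X S : Type} (h : S → Bool) (g : X → S) (s : Bool) :
    (h ∘ g) ⁻¹' {s} = ⋃ t ∈ {t : S | h t = s}, g ⁻¹' {t} := by
  ext x
  simp only [mem_preimage, Function.comp_apply, mem_singleton_iff, mem_iUnion, mem_ofPred_eq,
    exists_prop, exists_eq_right']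

theorem hRI (h1 : StVP) (h2 : StUS) (h3 : StTM) : StRI := by
  intro X S _ n N τ g h P hS hN hN1
  obtain ⟨hVP, hZP, -, -⟩ := h1 S h X n N τ g P hS hN hN1
  have hfib : ∀ s, Clp (τ 0) ((h ∘ g) ⁻¹' {s}) := by
    intro s
    rw [preimage_RI]
    let _ := τ 0
    exact (Set.toFinite {t : S | h t = s}).isClopen_biUnion fun t _ => hS.fib t
  have hfP : ∀ B ∈ P 0, ∀ s, B ∩ (h ∘ g) ⁻¹' {s} ∈ P 0 := by
    intro B hB s
    rw [preimage_RI, inter_iUnion₂]
    have key : ∀ T : Set S, T.Finite → (⋃ t ∈ T, B ∩ g ⁻¹' {t}) ∈ P 0 := by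
      intro T hT
      induction T, hT using Set.Finite.induction_on with
      | empty =>
        rw [biUnion_empty]
        exact hS.empty 0
      | insert _ _ ih =>
        rw [biUnion_insert]
        exact hS.union 0 _ (hS.fibP B hB _) _ ih
    exact key _ (Set.toFinite _)
  exact {
    tow := hS.tow
    fib := hfib
    top := hS.top
    anti := hS.anti
    cl := hS.cl
    op := hS.op
    op0 := hS.op0
    basis := hS.basis
    cnt := hS.cnt
    univ := hS.univ
    empty := hS.empty
    inter := hS.inter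
    union := hS.union
    clo := hS.clo
    fP := hfP
    VP := hVP
    ZP := hZP
    us := h2 X S n N τ g h P hS hN hN1
    tm := h3 X S n N τ g h P hS hN hN1
    pol := hS.pol 0 (Nat.zero_le n) }

end Pool.Agent.Helper24.WH

end

section

/-!
# PROJECT WH (MP_76577a_lc), module TM: termination
-/

set_option autoImplicit false

namespace Pool.Agent.Helper24.WH

open Set TopologicalSpace Topology
open Ordinal hiding univ

/-- **TM (6.5)** termination -/
theorem hTM (hVP : StVP) (hBA : StBA) (hUZ : StUZ) : StTM := by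
  intro X S _ n N τ g h P hsys hft hN m
  obtain ⟨u1, u2, u3, u4, u5, u6, u7, u8, u9⟩ := hUZ X τ (h ∘ g)
  obtain ⟨v1, v2, v3, v4⟩ := hVP S h X n N τ g P hsys hft hN
  induction m with
  | zero =>
    intro _
    exact ⟨(true : Bool), trivial, fun B _ => u2 _ _ rfl⟩
  | succ m ih =>
    intro hm
    obtain ⟨c, hwf, hc⟩ := ih (by omega)
    by_cases hbot : c = Cd.bot m
    · -- the space is empty
      have huniv : (Set.univ : Set X) = ∅ := by
        have := hc Set.univ (hsys.univ m)
        rwa [hbot, u5] at this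
      refine ⟨Cd.bot (m + 1), ⟨List.Pairwise.nil, fun e he => absurd he List.not_mem_nil⟩,
        fun B _ => ?_⟩
      rw [u4]
      exact Set.eq_empty_of_subset_empty (huniv ▸ Set.subset_univ B)
    · refine ⟨Cd.ext (Cd.bot (m + 1)) c N, ?_, fun B hB => ?_⟩
      · refine ⟨List.pairwise_singleton _ _, fun e he => ?_⟩
        have he' : e = toLex (c, N) := List.mem_singleton.1 he
        subst he'
        exact ⟨hwf, hbot⟩
      · rw [u6, u4]
        have hW := v3 m hm c hwf N B hB
        have hfix := v4 m hm c hwf B hB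
        set W := iter (del τ (h ∘ g) m c) B (ω ^ (N : Ordinal.{0})) with hWdef
        have h1 := hBA X S n τ g h P hsys m hm c hwf W (hsys.cl (m + 1) hm W hW) hfix
        rw [hc W (hsys.anti m hW)] at h1
        rw [@closure_empty X (τ (m + 1))] at h1
        exact Set.eq_empty_of_subset_empty h1

end Pool.Agent.Helper24.WH

end

section

/-!
# PROJECT WH, module VP: closure of the classes `P` under the rank operators
-/

set_option autoImplicit false

namespace Pool.Agent.Helper24.WH

open Set TopologicalSpace Topology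
open Ordinal hiding univ

private theorem fin_union_VP {X ι : Type*} {P : Set (Set X)} (he : ∅ ∈ P)
    (hu : ∀ B ∈ P, ∀ B' ∈ P, B ∪ B' ∈ P) (F : ι → Set X) (C : Set ι) (hC : C.Finite) :
    (∀ L ∈ C, F L ∈ P) → (⋃ L ∈ C, F L) ∈ P := by
  refine Set.Finite.induction_on C hC ?_ ?_
  · intro _
    simpa using he
  · intro a s _ _ ih h
    rw [Set.biUnion_insert]
    exact hu _ (h a (Set.mem_insert _ _)) _ (ih fun L hL => h L (Set.mem_insert_of_mem _ hL))

private theorem del_bot_VP (CA : StCA) {X : Type} (τ : ℕ → TopologicalSpace X) (f : X → Bool) (m : ℕ)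
    (Y : Set X) : del τ f m (Cd.bot m) Y = Y := by
  refine Set.Subset.antisymm Set.inter_subset_left ?_
  intro x hx
  refine ⟨hx, ?_⟩
  rw [Set.mem_iInter₂]
  intro c' hc'
  exfalso
  obtain ⟨_, h1, _, h2, _⟩ := CA m
  have : c' = Cd.bot m := le_antisymm hc'.2.2 (h1 c')
  exact h2 (this ▸ hc'.2.1)

private theorem iter_one_VP (IT : StIT) {X : Type} (d : Set X → Set X) (h1 : ∀ A B, A ⊆ B → d A ⊆ d B)
    (h2 : ∀ B, d B ⊆ B) (B : Set X) : iter d B (ω ^ ((0 : ℕ) : Ordinal.{0})) = d B := by
  obtain ⟨i0, i1, _⟩ := IT X d h1 h2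
  have : (ω ^ ((0 : ℕ) : Ordinal.{0}) : Ordinal.{0}) = 0 + 1 := by simp
  rw [this, i1, i0]

theorem hVP (RP : StRP) (UZ : StUZ) (CA : StCA) (IT : StIT) (ZM : StZM) : StVP := by
  intro S _ h X n N τ g P hS hF hN
  have hIT0 : ∀ m, (∀ B : Set X, iter (del τ (h ∘ g) m (Cd.bot m)) B = fun _ => B) := by
    intro m B
    funext α
    have e : del τ (h ∘ g) m (Cd.bot m) = fun Y => Y := by
      funext Y
      exact del_bot_VP CA τ (h ∘ g) m Y
    rw [e]
    obtain ⟨_, _, _, _, _, _, _, i7, _⟩ := IT X (fun Y => Y) (fun A B hh => hh) (fun B => le_rfl)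
    exact i7 B α le_rfl
  have hfin : ∀ (M : ℕ) {ι : Type} (F : ι → Set X) (C : Set ι), C.Finite → (∀ L ∈ C, F L ∈ P M) →
      (⋃ L ∈ C, F L) ∈ P M := fun M ι F C hC =>
    fin_union_VP (hS.empty M) (fun B hB B' hB' => hS.union M B hB B' hB') F C hC
  -- third claim
  have h3 : ∀ m, m + 1 ≤ n → ∀ c : Cd m, Cd.wf m c → ∀ (x : ℕ), ∀ B ∈ P (m + 1),
      iter (del τ (h ∘ g) m c) B (ω ^ (x : Ordinal.{0})) ∈ P (m + 1) := by
    intro m hm c hc x B hB
    by_cases hcb : c = Cd.bot m
    · rw [hcb, hIT0 m B]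
      exact hB
    · obtain ⟨C, hC, hC2⟩ := (RP S h X τ g hS.tow hS.fib m).2.2 c hc hcb
      rw [(hC2 B (hS.cl (m + 1) hm B hB)).2]
      exact hfin (m + 1) _ C hC fun L _ => hS.dd m hm L x B hB
  -- first claim
  have h1 : ∀ m, m ≤ n → ∀ c : Cd m, Cd.wf m c → ∀ B ∈ P m, Vo τ (h ∘ g) m c B ∈ P m := by
    intro m
    cases m with
    | zero =>
      intro _ c _ B hB
      by_cases hcv : Cd.vd 0 c
      · rw [(UZ X τ (h ∘ g)).2.1 c B hcv]
        exact hS.empty 0
      · have : c = Cd.bot 0 := by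
          show c = false
          have h4 : ¬ (Cd.B c = true) := hcv
          exact Bool.eq_false_iff.2 h4
        rw [this, (UZ X τ (h ∘ g)).1 B]
        exact hB
    | succ m =>
      intro hm c
      have key : ∀ l : List (Cd m ×ₗ ℕ), Cd.wf (m + 1) (Cd.of l) → ∀ B ∈ P (m + 1),
          Vo τ (h ∘ g) (m + 1) (Cd.of l) B ∈ P (m + 1) := by
        intro l
        induction l using List.reverseRecOn with
        | nil =>
          intro _ B hB
          have := (UZ X τ (h ∘ g)).2.2.2.1 m B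
          exact this ▸ hB
        | append_singleton l e ih =>
          intro hwf B hB
          obtain ⟨_, _, _, _, _, h6, _⟩ := CA m
          have e1 : Cd.of (l ++ [e]) = Cd.ext (Cd.of l) (ofLex e).1 (ofLex e).2 := rfl
          rw [e1] at hwf ⊢
          obtain ⟨w1, w2, _, _⟩ := h6 (Cd.of l) (ofLex e).1 (ofLex e).2 hwf
          rw [(UZ X τ (h ∘ g)).2.2.2.2.2.1 m (Cd.of l) (ofLex e).1 (ofLex e).2 B]
          exact h3 m hm _ w2 _ _ (ih w1 B hB)
      exact key c
  refine ⟨h1, ?_, h3, ?_⟩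
  · -- second claim
    intro m
    cases m with
    | zero =>
      intro _ c _ _ s B hB
      rw [(UZ X τ (h ∘ g)).2.2.1 c s B]
      have e1 : B ∩ (h ∘ g) ⁻¹' {s} = ⋃ t ∈ {t : S | h t = s}, (B ∩ g ⁻¹' {t}) := by
        ext x
        simp only [Set.mem_inter_iff, Set.mem_preimage, Set.mem_singleton_iff, Function.comp_apply,
          Set.mem_iUnion, exists_prop]
        constructor
        · rintro ⟨a1, a2⟩
          exact ⟨g x, a2, a1, rfl⟩
        · rintro ⟨t, a1, a2, a3⟩
          refine ⟨a2, ?_⟩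
          rw [a3]
          exact a1
      rw [e1]
      exact hfin 0 _ _ (Set.toFinite _) fun t _ => hS.fibP B hB t
    | succ m =>
      intro hm c hwf hvd s B hB
      obtain ⟨l₀, c', hc1, hc2⟩ := hvd
      have e1 : c = Cd.ext (Cd.of l₀) c' 0 := hc1
      obtain ⟨_, _, _, _, _, h6, _⟩ := CA m
      rw [e1] at hwf
      obtain ⟨w1, w2, w3, _⟩ := h6 (Cd.of l₀) c' 0 hwf
      rw [e1, (UZ X τ (h ∘ g)).2.2.2.2.2.2.2.2 m (Cd.of l₀) c' 0 s B]
      have hY := h1 (m + 1) hm (Cd.of l₀) w1 B hB
      obtain ⟨M, hM, hM2⟩ := (RP S h X τ g hS.tow hS.fib m).2.1 c' s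
      rw [hM2 _ (hS.cl (m + 1) hm _ hY)]
      refine hfin (m + 1) _ M hM fun t _ => ?_
      have hd := (ZM X S τ g hS.tow hS.fib m).2.2 (fun _ => t)
      have h7 := hS.dd m hm (fun _ => t) 0 _ hY
      rw [iter_one_VP IT _ hd.mono hd.le] at h7
      have h8 : dL τ g m (fun _ => t) (Vo τ (h ∘ g) (m + 1) (Cd.of l₀) B) =
          hom τ g m t (Vo τ (h ∘ g) (m + 1) (Cd.of l₀) B) := by
        unfold dL
        rw [Set.iInter_const]
      rwa [h8] at h7
  · -- fourth claim
    intro m hm c hc B hB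
    by_cases hcb : c = Cd.bot m
    · rw [hcb, hIT0 m B, del_bot_VP CA]
    · obtain ⟨C, hC, hC2⟩ := (RP S h X τ g hS.tow hS.fib m).2.2 c hc hcb
      have hK := h3 m hm c hc N B hB
      have hcl := hS.cl (m + 1) hm _ hK
      rw [(hC2 _ hcl).1]
      have e2 := (hC2 B (hS.cl (m + 1) hm B hB)).2 (N : Ordinal.{0})
      intro x hx
      rw [e2] at hx
      rw [Set.mem_iUnion₂] at hx
      obtain ⟨L, hL, hx2⟩ := hx
      rw [Set.mem_iUnion₂]
      refine ⟨L, hL, ?_⟩
      have h9 := hF m hm L B hB hx2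
      refine ((ZM X S τ g hS.tow hS.fib m).2.2 L).mono _ _ ?_ h9
      rw [e2]
      exact Set.subset_biUnion_of_mem (u := fun L => iter (dL τ g m L) B (ω ^ (N : Ordinal.{0}))) hL

end Pool.Agent.Helper24.WH

end

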