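import Pool.Agent.Helper24.WH.St5

/-! Modules of project WH / WL merged into one file to shorten the build. -/

section

/-!
# Module PA of project WH: padding
-/

set_option autoImplicit false

namespace Pool.Agent.Helper24.WH

open Set TopologicalSpace Topology
open Ordinal hiding univ

/-- `HomOp` for the intersection with a clopen set -/
private theorem hom_clp_PA {X : Type} (τ : TopologicalSpace X) (F : Set X) (hF : IsClosed[τ] F) (B : Set X) :
    HomOp τ (fun Y => Y ∩ F) B = B ∩ F := by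
  apply Set.Subset.antisymm
  · rintro x ⟨W, ⟨hWB, hW⟩, hx⟩
    refine ⟨hWB hx, ?_⟩
    have h1 : closure[τ] (W ∩ F) ⊆ F := by
      have := @closure_mono X τ _ _ (Set.inter_subset_right : W ∩ F ⊆ F)
      rwa [@IsClosed.closure_eq X τ _ hF] at this
    exact h1 (hW hx)
  · intro x hx
    refine ⟨B ∩ F, ⟨Set.inter_subset_left, ?_⟩, hx⟩
    intro y hy
    apply @subset_closure X τ
    exact ⟨hy, hy.2⟩

private theorem iter_zero_PA {X : Type} (d : Set X → Set X) (B : Set X) : iter d B 0 = B := by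
  rw [iter]
  ext x
  constructor
  · exact fun h => h.1
  · intro h
    refine ⟨h, ?_⟩
    rw [Set.mem_iInter]
    rintro ⟨β, hβ⟩
    exact absurd (Set.mem_Iio.mp hβ) (not_lt.mpr zero_le)

private theorem iter_one_PA {X : Type} (d : Set X → Set X) (hd : ∀ B, d B ⊆ B) (B : Set X) :
    iter d B 1 = d B := by
  rw [iter]
  ext x
  constructor
  · rintro ⟨h1, h2⟩
    rw [Set.mem_iInter] at h2
    have := h2 ⟨0, by simp⟩
    simpa [iter_zero_PA] using this
  · intro h
    refine ⟨hd B h, ?_⟩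
    rw [Set.mem_iInter]
    rintro ⟨β, hβ⟩
    have hβ0 : β = 0 := Order.lt_one_iff.mp hβ
    subst hβ0
    simpa [iter_zero_PA] using h

private theorem delOf_congr_PA {X : Type} (τ : TopologicalSpace X) (m : ℕ)
    (z' : Cd (m + 1) → Bool → Set X → Set X) (z : Cd m → Bool → Set X → Set X) (HCB : StCB)
    (hz : ∀ c : Cd m, Cd.wf m c → Cd.vd m c → ∀ s, z' (Cd.up m c) s = z c s)
    (c : Cd m) (hc : Cd.wf m c) (Y : Set X) :
    delOf τ (m + 1) z' (Cd.up m c) Y = delOf τ m z c Y := by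
  obtain ⟨-, -, -, -, -, hlt, hwf, hvd, -, hinit, -⟩ := HCB m
  have hle : ∀ a b : Cd m, a ≤ b ↔ Cd.up m a ≤ Cd.up m b := by
    intro a b
    rw [← not_lt, ← not_lt, hlt]
  unfold delOf
  ext x
  constructor
  · rintro ⟨h1, h2⟩
    refine ⟨h1, ?_⟩
    simp only [Set.mem_iInter] at h2 ⊢
    intro c₀ hc₀ s
    have := h2 (Cd.up m c₀) ⟨hwf c₀ hc₀.1, (hvd c₀).1 hc₀.2.1, (hle _ _).1 hc₀.2.2⟩ s
    rwa [hz c₀ hc₀.1 hc₀.2.1 s] at this
  · rintro ⟨h1, h2⟩
    refine ⟨h1, ?_⟩
    simp only [Set.mem_iInter] at h2 ⊢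
    intro c' hc' s
    obtain ⟨c₀, hc₀, rfl⟩ := hinit c c' hc hc'.1 hc'.2.2
    rw [hz c₀ hc₀ ((hvd c₀).2 hc'.2.1) s]
    exact h2 c₀ ⟨hc₀, (hvd c₀).2 hc'.2.1, (hle _ _).2 hc'.2.2⟩ s

private theorem foldV_congr_PA {X : Type} (τ : TopologicalSpace X) (m : ℕ)
    (z' : Cd (m + 1) → Bool → Set X → Set X) (z : Cd m → Bool → Set X → Set X) (HCB : StCB)
    (hz : ∀ c : Cd m, Cd.wf m c → Cd.vd m c → ∀ s, z' (Cd.up m c) s = z c s)
    (l : List (Cd m ×ₗ ℕ)) : (∀ e ∈ l, Cd.wf m (ofLex e).1) → ∀ B : Set X,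
    foldV τ (m + 1) z' (l.map (fun e => (toLex (Cd.up m (ofLex e).1, (ofLex e).2) : Cd (m + 1) ×ₗ ℕ))) B =
      foldV τ m z l B := by
  induction l with
  | nil => intro _ B; rfl
  | cons e l ih =>
    intro hl B
    have h1 : delOf τ (m + 1) z' (Cd.up m (ofLex e).1) = delOf τ m z (ofLex e).1 := by
      funext Y
      exact delOf_congr_PA τ m z' z HCB hz _ (hl e (by simp)) Y
    have h2 := ih (fun e' he' => hl e' (by simp [he']))
    unfold foldV at h2 ⊢
    simp only [List.map_cons, List.foldl_cons]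
    rw [h2]
    have h3 : (ofLex (toLex (Cd.up m (ofLex e).1, (ofLex e).2) : Cd (m + 1) ×ₗ ℕ)).1 = Cd.up m (ofLex e).1 := rfl
    have h4 : (ofLex (toLex (Cd.up m (ofLex e).1, (ofLex e).2) : Cd (m + 1) ×ₗ ℕ)).2 = (ofLex e).2 := rfl
    rw [h3, h4, h1]

/-- the operators of the padded tower -/
private theorem pad_ops_PA (HCB : StCB) {X : Type} (τ : ℕ → TopologicalSpace X) (f : X → Bool)
    (hf : ∀ s, Clp (τ 0) (f ⁻¹' {s})) : ∀ (m : ℕ) (c : Cd m), Cd.wf m c →
    (∀ B : Set X, Vo (padT τ) f (m + 1) (Cd.up m c) B = Vo τ f m c B) ∧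
      (Cd.vd m c → ∀ s, Zo (padT τ) f (m + 1) (Cd.up m c) s = Zo τ f m c s) := by
  intro m
  induction m with
  | zero =>
    intro c _
    have hH : ∀ s, ∀ B : Set X, HomOp (padT τ 1) ((VZ (padT τ) f 0).2 c s) B = B ∩ f ⁻¹' {s} := by
      intro s B
      exact hom_clp_PA (τ 0) (f ⁻¹' {s}) (hf s).1 B
    have hH' : ∀ (c : Cd 0) s, ∀ B : Set X, HomOp (padT τ 1) ((VZ (padT τ) f 0).2 c s) B = B ∩ f ⁻¹' {s} := by
      intro c s B
      exact hom_clp_PA (τ 0) (f ⁻¹' {s}) (hf s).1 B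
    cases hcb : Cd.B c with
    | false =>
      have hup : Cd.up 0 c = Cd.of [] := by
        simp [Cd.up, hcb]
      refine ⟨?_, ?_⟩
      · intro B
        rw [hup]
        have h1 : Vo (padT τ) f (0 + 1) (Cd.of []) B = B := rfl
        rw [h1]
        show B = {x ∈ B | Cd.B c = false}
        ext x
        simp [hcb]
      · intro hv
        exact absurd hv (by simp [Cd.vd, hcb])
    | true =>
      have hup : Cd.up 0 c = Cd.of [toLex (c, 0)] := by
        simp [Cd.up, hcb]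
      refine ⟨?_, ?_⟩
      · intro B
        rw [hup]
        have h1 : Vo (padT τ) f (0 + 1) (Cd.of [toLex (c, 0)]) B =
          iter (delOf (padT τ 1) 0 (VZ (padT τ) f 0).2 c) B (ω ^ ((0 : ℕ) : Ordinal.{0})) := rfl
        have h2 : (ω ^ ((0 : ℕ) : Ordinal.{0}) : Ordinal.{0}) = 1 := by simp
        rw [h1, h2, iter_one_PA _ (fun Y => by unfold delOf; exact Set.inter_subset_left)]
        have h3 : Vo τ f 0 c B = ∅ := by
          show {x ∈ B | Cd.B c = false} = ∅
          ext x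
          simp [hcb]
        rw [h3]
        unfold delOf
        rw [Set.eq_empty_iff_forall_notMem]
        rintro x ⟨hx, hx2⟩
        simp only [Set.mem_iInter] at hx2
        have h4 := hx2 c ⟨trivial, hcb, le_refl _⟩ false
        have h5 := hx2 c ⟨trivial, hcb, le_refl _⟩ true
        rw [hH] at h4 h5
        have h6 : f x = false := h4.2
        have h7 : f x = true := h5.2
        rw [h6] at h7
        exact Bool.noConfusion h7
      · intro _ s
        funext B
        rw [hup]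
        have h1 : Zo (padT τ) f (0 + 1) (Cd.of [toLex (c, 0)]) s B =
          HomOp (padT τ 1) ((VZ (padT τ) f 0).2 c s) B := rfl
        rw [h1, hH]
        rfl
  | succ m ih =>
    intro l hl
    have hz : ∀ c : Cd m, Cd.wf m c → Cd.vd m c → ∀ s,
        (VZ (padT τ) f (m + 1)).2 (Cd.up m c) s = (VZ τ f m).2 c s := by
      intro c hc hv s
      exact (ih c hc).2 hv s
    have hl2 : ∀ e ∈ Cd.L l, Cd.wf m (ofLex e).1 := fun e he => (hl.2 e he).1
    refine ⟨?_, ?_⟩
    · intro B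
      exact foldV_congr_PA (τ (m + 1)) m _ _ HCB hz (Cd.L l) hl2 B
    · rintro ⟨l₀, c, hlc, hcv⟩ s
      funext B
      have hcw : Cd.wf m c := by
        have := hl2 (toLex (c, 0)) (by rw [hlc]; simp)
        exact this
      have hl0 : ∀ e ∈ l₀, Cd.wf m (ofLex e).1 := fun e he => hl2 e (by rw [hlc]; simp [he])
      have hup : Cd.L (Cd.up (m + 1) l) =
          l₀.map (fun e => (toLex (Cd.up m (ofLex e).1, (ofLex e).2) : Cd (m + 1) ×ₗ ℕ)) ++
            [(toLex (Cd.up m c, 0) : Cd (m + 1) ×ₗ ℕ)] := by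
        show (Cd.L l).map (fun e => (toLex (Cd.up m (ofLex e).1, (ofLex e).2) : Cd (m + 1) ×ₗ ℕ)) = _
        rw [hlc, List.map_append]
        rfl
      have h1 : Zo (padT τ) f (m + 1 + 1) (Cd.up (m + 1) l) s B =
        HomOp (τ (m + 1)) ((VZ (padT τ) f (m + 1)).2 (lastc (Cd.L (Cd.up (m + 1) l))) s)
          (foldV (τ (m + 1)) (m + 1) (VZ (padT τ) f (m + 1)).2 ((Cd.L (Cd.up (m + 1) l)).dropLast) B) := rfl
      have h2 : Zo τ f (m + 1) l s B =
        HomOp (τ (m + 1)) ((VZ τ f m).2 (lastc (Cd.L l)) s)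
          (foldV (τ (m + 1)) m (VZ τ f m).2 ((Cd.L l).dropLast) B) := rfl
      rw [h1, h2, hup, hlc]
      have h3 : lastc (l₀ ++ [(toLex (c, 0) : Cd m ×ₗ ℕ)]) = c := by
        unfold lastc
        rw [List.getLast?_append]
        rfl
      have h4 : lastc (l₀.map (fun e => (toLex (Cd.up m (ofLex e).1, (ofLex e).2) : Cd (m + 1) ×ₗ ℕ)) ++
            [(toLex (Cd.up m c, 0) : Cd (m + 1) ×ₗ ℕ)]) = Cd.up m c := by
        unfold lastc
        rw [List.getLast?_append]
        rfl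
      rw [h3, h4, List.dropLast_concat, List.dropLast_concat, hz c hcw hcv s,
        foldV_congr_PA (τ (m + 1)) m _ _ HCB hz l₀ hl0 B]

theorem hPA (HRA : StRA) (HCB : StCB) : StPA := by
  intro X n τ P f R
  have hops := pad_ops_PA HCB τ f R.fib
  have hfb : ∀ (m : ℕ) (c : Cd m) (B : Set X), Cd.wf m c → Vo (padT τ) f (m + 1) (Cd.up m c) B = Vo τ f m c B ∧
    (Cd.vd m c → ∀ s, Zo (padT τ) f (m + 1) (Cd.up m c) s B = Zo τ f m c s B) := by
    intro m c B hc
    exact ⟨(hops m c hc).1 B, fun hv s => congrFun ((hops m c hc).2 hv s) B⟩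
  refine ⟨?_, hfb⟩
  -- dichotomy
  have hdi : ∀ (m : ℕ) (c₀ : Cd m) (c : Cd (m + 1)), Cd.wf m c₀ → Cd.wf (m + 1) c →
      (∃ c₁ : Cd m, Cd.wf m c₁ ∧ c = Cd.up m c₁) ∨ Cd.up m c₀ < c := by
    intro m c₀ c h0 hc
    rcases lt_or_ge (Cd.up m c₀) c with h | h
    · exact Or.inr h
    · exact Or.inl ((HCB m).2.2.2.2.2.2.2.2.2.1 c₀ c h0 hc h)
  have hwf : ∀ (m : ℕ) (c : Cd m), Cd.wf m c → Cd.wf (m + 1) (Cd.up m c) := fun m => (HCB m).2.2.2.2.2.2.1
  have hvd : ∀ (m : ℕ) (c : Cd m), Cd.vd m c ↔ Cd.vd (m + 1) (Cd.up m c) := fun m => (HCB m).2.2.2.2.2.2.2.1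
  have hlt : ∀ (m : ℕ) (c c' : Cd m), c < c' ↔ Cd.up m c < Cd.up m c' := fun m => (HCB m).2.2.2.2.2.1
  have hVm : ∀ (m : ℕ) (c c' : Cd m) (B : Set X), Cd.wf m c → Cd.wf m c' → c ≤ c' →
      Vo (padT τ) f m c' B ⊆ Vo (padT τ) f m c B := fun m => (HRA X (padT τ) f m).2.2.2.2.2.2.2.1
  have hZV : ∀ (m : ℕ) (r c : Cd m) (s : Bool) (B : Set X), Cd.wf m r → Cd.vd m r → Cd.wf m c → c < r →
      Zo (padT τ) f m r s B ⊆ Vo (padT τ) f m c B := fun m => (HRA X (padT τ) f m).2.2.2.2.2.2.2.2.1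
  exact {
    tow := by
      refine ⟨?_, ?_⟩
      · intro m
        cases m with
        | zero => exact le_refl _
        | succ m => exact R.tow.mono m
      · intro m
        cases m with
        | zero => exact R.tow.zd 0
        | succ m => exact R.tow.zd m
    fib := R.fib
    top := by
      intro M hM
      cases M with
      | zero => exact absurd hM (by omega)
      | succ M => exact R.top M (by omega)
    anti := by
      intro M
      cases M with
      | zero => exact Set.Subset.refl _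
      | succ M => exact R.anti M
    cl := by
      intro M hM B hB
      cases M with
      | zero => exact R.cl 0 (by omega) B hB
      | succ M => exact R.cl M (by omega) B hB
    op := by
      intro M hM B hB
      cases M with
      | zero => exact R.op0 B hB
      | succ M => exact R.op M (by omega) B hB
    op0 := R.op0
    basis := by
      intro M hM x U hU hx
      cases M with
      | zero =>
        obtain ⟨O, hO, h1, h2⟩ := R.basis 0 (by omega) x U hU hx
        exact ⟨O, R.anti 0 hO, h1, h2⟩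
      | succ M => exact R.basis M (by omega) x U hU hx
    cnt := by
      intro M
      cases M with
      | zero => exact R.cnt 0
      | succ M => exact R.cnt M
    univ := by
      intro M
      cases M with
      | zero => exact R.univ 0
      | succ M => exact R.univ M
    empty := by
      intro M
      cases M with
      | zero => exact R.empty 0
      | succ M => exact R.empty M
    inter := by
      intro M B hB B' hB'
      cases M with
      | zero => exact R.inter 0 B hB B' hB'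
      | succ M => exact R.inter M B hB B' hB'
    union := by
      intro M B hB B' hB'
      cases M with
      | zero => exact R.union 0 B hB B' hB'
      | succ M => exact R.union M B hB B' hB'
    clo := by
      intro M hM B hB
      cases M with
      | zero => exact R.clo 0 (by omega) B hB
      | succ M => exact R.clo M (by omega) B hB
    fP := R.fP
    VP := by
      intro m hm c hc B hB
      cases m with
      | zero => exact R.VP 0 (by omega) c hc B hB
      | succ m =>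
        obtain ⟨c₀, hc₀, hemp⟩ := R.tm m (by omega)
        rcases hdi m c₀ c hc₀ hc with ⟨c₁, hc₁, rfl⟩ | h
        · rw [(hfb m c₁ B hc₁).1]
          exact R.VP m (by omega) c₁ hc₁ B hB
        · have h1 : Vo (padT τ) f (m + 1) c B ⊆ ∅ := by
            rw [← hemp B hB, ← (hfb m c₀ B hc₀).1]
            exact hVm (m + 1) _ _ B (hwf m c₀ hc₀) hc h.le
          rw [Set.subset_empty_iff] at h1
          rw [h1]
          exact R.empty m
    ZP := by
      intro m hm c hc hv s B hB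
      cases m with
      | zero => exact R.ZP 0 (by omega) c hc hv s B hB
      | succ m =>
        obtain ⟨c₀, hc₀, hemp⟩ := R.tm m (by omega)
        rcases hdi m c₀ c hc₀ hc with ⟨c₁, hc₁, rfl⟩ | h
        · have hv1 := (hvd m c₁).2 hv
          rw [(hfb m c₁ B hc₁).2 hv1 s]
          exact R.ZP m (by omega) c₁ hc₁ hv1 s B hB
        · have h1 : Zo (padT τ) f (m + 1) c s B ⊆ ∅ := by
            rw [← hemp B hB, ← (hfb m c₀ B hc₀).1]
            exact hZV (m + 1) _ _ s B hc hv (hwf m c₀ hc₀) h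
          rw [Set.subset_empty_iff] at h1
          rw [h1]
          exact R.empty m
    us := by
      intro m hm r hr hv
      cases m with
      | zero => exact R.us 0 (by omega) r hr hv
      | succ m =>
        obtain ⟨c₀, hc₀, hemp⟩ := R.tm m (by omega)
        rcases hdi m c₀ r hc₀ hr with ⟨r₁, hr₁, rfl⟩ | h
        · have hv1 := (hvd m r₁).2 hv
          obtain ⟨c, hc, hcr, hV⟩ := R.us m (by omega) r₁ hr₁ hv1
          refine ⟨Cd.up m c, hwf m c hc, (hlt m c r₁).1 hcr, ?_⟩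
          intro B hB
          rw [(hfb m c B hc).1, (hfb m r₁ B hr₁).2 hv1 false, (hfb m r₁ B hr₁).2 hv1 true]
          exact hV B hB
        · refine ⟨Cd.up m c₀, hwf m c₀ hc₀, h, ?_⟩
          intro B hB
          rw [(hfb m c₀ B hc₀).1, hemp B hB]
          exact Set.empty_subset _
    tm := by
      intro m hm
      cases m with
      | zero => exact R.tm 0 (by omega)
      | succ m =>
        obtain ⟨c₀, hc₀, hemp⟩ := R.tm m (by omega)
        refine ⟨Cd.up m c₀, hwf m c₀ hc₀, ?_⟩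
        intro B hB
        rw [(hfb m c₀ B hc₀).1, hemp B hB]
    pol := R.pol }

end Pool.Agent.Helper24.WH

end

section

/-!
# PROJECT WH (MP_76577a_lc), module RP: representation of the rank operators by terms (6.2)
-/

set_option autoImplicit false

namespace Pool.Agent.Helper24.WH

open Set TopologicalSpace Topology
open Ordinal hiding univ

variable {X S : Type}

/-- the operator of an optional term (`none` = identity) -/
private def zp_RP (τ : ℕ → TopologicalSpace X) (g : X → S) (m : ℕ) : Option (TT S (m + 1)) → Set X → Set X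
  | none, B => B
  | some t, B => Z τ g (m + 1) t B

/-- countable intersections of operators of optional terms -/
private def pf_RP (τ : ℕ → TopologicalSpace X) (g : X → S) (m : ℕ) (F : ℕ → Option (TT S (m + 1)))
    (B : Set X) : Set X := ⋂ i, zp_RP τ g m (F i) B

section

variable (τ : ℕ → TopologicalSpace X) (g : X → S) (hT : Tow τ) (hF : Fib τ g) (hZM : StZM)
include hT hF hZM

private theorem closedPf_RP (m : ℕ) (F : ℕ → Option (TT S (m + 1))) (B : Set X)
    (hB : IsClosed[τ (m + 1)] B) : IsClosed[τ (m + 1)] (pf_RP τ g m F B) := by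
  refine @isClosed_iInter _ _ (τ (m + 1)) _ fun i => ?_
  cases h : F i with
  | none => exact hB
  | some t => exact ((hZM X S τ g hT hF (m + 1)).1 t).closed B hB

/-- `hom e` of an element of the class is a single term -/
private theorem homPf_RP (m : ℕ) (e : TT S m) (F : ℕ → Option (TT S (m + 1))) :
    ∃ t : TT S (m + 1), ∀ B : Set X, hom τ g m e (pf_RP τ g m F B) = Z τ g (m + 1) t B := by
  by_cases hall : ∀ i, F i = none
  · refine ⟨Tr.leaf e, fun B => ?_⟩
    have h1 : pf_RP τ g m F B = B := by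
      unfold pf_RP
      have : ∀ i, zp_RP τ g m (F i) B = B := fun i => by rw [hall i]; rfl
      rw [iInter_congr this, iInter_const]
    rw [h1]
    rfl
  · push Not at hall
    obtain ⟨i₀, hi₀⟩ := hall
    obtain ⟨t₀, ht₀⟩ := Option.ne_none_iff_exists'.1 hi₀
    refine ⟨Tr.node e (fun i => (F i).getD t₀), fun B => ?_⟩
    have h1 : pf_RP τ g m F B = ⋂ i, Z τ g (m + 1) ((F i).getD t₀) B := by
      unfold pf_RP
      ext y
      simp only [mem_iInter]
      constructor
      · intro hy i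
        cases h : F i with
        | none =>
          have := hy i₀
          rw [ht₀] at this
          exact this
        | some t =>
          have := hy i
          rw [h] at this
          exact this
      · intro hy i
        have := hy i
        cases h : F i with
        | none => exact ((hZM X S τ g hT hF (m + 1)).1 _).le B this
        | some t =>
          rw [h] at this
          exact this
    rw [h1]
    rfl

omit hT hF hZM in
/-- countable intersections -/
private theorem interPf_RP (m : ℕ) (Fs : ℕ → ℕ → Option (TT S (m + 1))) :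
    ∃ F, ∀ B : Set X, pf_RP τ g m F B = ⋂ n, pf_RP τ g m (Fs n) B := by
  refine ⟨fun i => Fs (Nat.unpair i).1 (Nat.unpair i).2, fun B => ?_⟩
  unfold pf_RP
  ext y
  simp only [mem_iInter]
  constructor
  · intro h n i
    have := h (Nat.pair n i)
    simpa using this
  · intro h i
    exact h _ _

/-- `d_L` preserves the class -/
private theorem dlPf_RP (m : ℕ) (L : ℕ → TT S m) (F : ℕ → Option (TT S (m + 1))) :
    ∃ F', ∀ B : Set X, dL τ g m L (pf_RP τ g m F B) = pf_RP τ g m F' B := by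
  choose t ht using fun i => homPf_RP τ g hT hF hZM m (L i) F
  refine ⟨fun i => some (t i), fun B => ?_⟩
  unfold dL
  conv_rhs => unfold pf_RP
  exact iInter_congr fun i => ht i B

/-- countable intersections of `hom` of elements of the class -/
private theorem homsPf_RP (m : ℕ) (L : ℕ → TT S m) (Fs : ℕ → ℕ → Option (TT S (m + 1))) :
    ∃ F', ∀ B : Set X, ⋂ i, hom τ g m (L i) (pf_RP τ g m (Fs i) B) = pf_RP τ g m F' B := by
  choose t ht using fun i => homPf_RP τ g hT hF hZM m (L i) (Fs i)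
  refine ⟨fun i => some (t i), fun B => ?_⟩
  conv_rhs => unfold pf_RP
  exact iInter_congr fun i => ht i B

/-- iterates of `d_L` preserve the class -/
private theorem iterPf_RP (hIT : StIT) (m : ℕ) (L : ℕ → TT S m) (x : ℕ) :
    ∀ F : ℕ → Option (TT S (m + 1)),
    ∃ F', ∀ B : Set X, iter (dL τ g m L) (pf_RP τ g m F B) (ω ^ (x : Ordinal.{0})) = pf_RP τ g m F' B := by
  have hd := (hZM X S τ g hT hF m).2.2 L
  obtain ⟨h0, h1, h2, -, h4, -, h6, -⟩ := hIT X _ hd.mono hd.le
  induction x with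
  | zero =>
    intro F
    obtain ⟨F', hF'⟩ := dlPf_RP τ g hT hF hZM m L F
    refine ⟨F', fun B => ?_⟩
    have := h1 (pf_RP τ g m F B) 0
    rw [h0, zero_add] at this
    rw [Nat.cast_zero, Ordinal.opow_zero, this, hF' B]
  | succ x ih =>
    intro F
    have key : ∀ k : ℕ, ∃ F', ∀ B : Set X,
        iter (dL τ g m L) (pf_RP τ g m F B) (ω ^ (x : Ordinal.{0}) * (k : Ordinal.{0})) = pf_RP τ g m F' B := by
      intro k
      induction k with
      | zero =>
        refine ⟨F, fun B => ?_⟩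
        rw [Nat.cast_zero, mul_zero, h0]
      | succ k ihk =>
        obtain ⟨F₁, hF₁⟩ := ihk
        obtain ⟨F₂, hF₂⟩ := ih F₁
        refine ⟨F₂, fun B => ?_⟩
        rw [Nat.cast_succ, mul_add, mul_one, h4, hF₁, hF₂]
    choose Fs hFs using key
    obtain ⟨F', hF'⟩ := interPf_RP τ g m Fs
    refine ⟨F', fun B => ?_⟩
    have hlim : Order.IsSuccLimit (ω ^ ((x + 1 : ℕ) : Ordinal.{0})) := by
      have hx : ((x + 1 : ℕ) : Ordinal.{0}) ≠ 0 := by exact_mod_cast Nat.succ_ne_zero x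
      exact isSuccLimit_opow_left isSuccLimit_omega0 hx
    rw [h6 _ _ hlim, hF' B]
    apply subset_antisymm
    · refine subset_iInter fun k => ?_
      rw [← hFs k B]
      have hlt : ω ^ (x : Ordinal.{0}) * (k : Ordinal.{0}) < ω ^ ((x + 1 : ℕ) : Ordinal.{0}) := by
        rw [Nat.cast_succ, opow_add, opow_one]
        exact mul_lt_mul_of_pos_left (natCast_lt_omega0 k) (opow_pos _ omega0_pos)
      exact iInter_subset (fun β : Iio (ω ^ ((x + 1 : ℕ) : Ordinal.{0})) =>
        iter (dL τ g m L) (pf_RP τ g m F B) β.1) ⟨_, hlt⟩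
    · refine subset_iInter ?_
      rintro ⟨β, hβ'⟩
      have hβ : β < ω ^ (x : Ordinal.{0}) * ω := by
        have := mem_Iio.1 hβ'
        rw [Nat.cast_succ, opow_add, opow_one] at this
        exact this
      obtain ⟨c, hc, hβc⟩ := (lt_mul_iff_of_isSuccLimit isSuccLimit_omega0).1 hβ
      obtain ⟨k, rfl⟩ := lt_omega0.1 hc
      refine (iInter_subset _ k).trans ?_
      rw [← hFs k B]
      exact h2 _ _ _ hβc.le


/-- the operator `Z m t` for the coarser topology -/
private theorem mcl_RP (m : ℕ) (t : TT S m) : MCL (τ (m + 1)) (Z τ g m t) := by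
  have h := (hZM X S τ g hT hF m).1 t
  refine ⟨h.mono, h.le, fun O B hO => h.loc O B ?_⟩
  exact ⟨@IsClosed.mk X (τ m) O ((hT.mono m) _ (@IsClosed.isOpen_compl X (τ (m + 1)) O hO.1)),
    (hT.mono m) _ hO.2⟩

/-- `hom e` of a finite union of closed sets -/
private theorem homU_RP (hHA : StHA) (m : ℕ) (e : TT S m) {ι : Type} [Finite ι] (C : ι → Set X)
    (hC : ∀ i, IsClosed[τ (m + 1)] (C i)) :
    hom τ g m e (⋃ i, C i) = ⋃ i, hom τ g m e (C i) :=
  hHA X (τ (m + 1)) (Z τ g m e) (hT.zd (m + 1)) (mcl_RP τ g hT hF hZM m e) ι C hC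

omit hT hF hZM in
/-- reindexing by `Fin k` -/
private theorem toFin_RP (m : ℕ) {ι : Type*} [Finite ι] (Q : ι → ℕ → Option (TT S (m + 1))) :
    ∃ (k : ℕ) (P : Fin k → ℕ → Option (TT S (m + 1))),
      ∀ B : Set X, ⋃ i, pf_RP τ g m (Q i) B = ⋃ q, pf_RP τ g m (P q) B := by
  obtain ⟨k, ⟨f⟩⟩ := Finite.exists_equiv_fin ι
  refine ⟨k, Q ∘ f.symm, fun B => ?_⟩
  exact (f.symm.iSup_comp (g := fun i => pf_RP τ g m (Q i) B)).symm

/-- one application of `iter (dL L) _ (ω ^ x)` to a finite union of members of the class -/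
private theorem step_RP [Finite S] (hIT : StIT) (hUF : StUF) (hHA : StHA) (hFN : StFN) (hTB : StTB)
    (hTP : StTP) (hZA : StZA) (m : ℕ) (L : ℕ → TT S m) (x k : ℕ)
    (P : Fin k → ℕ → Option (TT S (m + 1))) :
    ∃ (k' : ℕ) (P' : Fin k' → ℕ → Option (TT S (m + 1))), ∀ B, IsClosed[τ (m + 1)] B →
      iter (dL τ g m L) (⋃ q, pf_RP τ g m (P q) B) (ω ^ (x : Ordinal.{0})) =
        ⋃ q, pf_RP τ g m (P' q) B := by
  have hd := (hZM X S τ g hT hF m).2.2 L
  rcases Nat.eq_zero_or_pos x with rfl | hx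
  · obtain ⟨hrefl, htrans⟩ := hTP.2.1 S m
    obtain ⟨Cs, hCs, -, hCeq⟩ := hFN (TT S m × Fin k) (fun a b => TT.Le m a.1 b.1 ∧ a.2 = b.2)
      (fun a => ⟨hrefl a.1, rfl⟩) (fun a b c hab hbc => ⟨htrans _ _ _ hab.1 hbc.1, hab.2.trans hbc.2⟩)
      (hTB S m k).2.2 (fun i => {L i} ×ˢ univ) (fun i => (finite_singleton _).prod finite_univ)
    choose F' hF' using fun c : ℕ → TT S m × Fin k =>
      homsPf_RP τ g hT hF hZM m (fun i => (c i).1) (fun i => P (c i).2)
    have : Finite Cs := hCs.to_subtype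
    obtain ⟨k', P', hP'⟩ := toFin_RP τ g m (fun c : Cs => F' c.1)
    refine ⟨k', P', fun B hB => ?_⟩
    have hcl : ∀ q, IsClosed[τ (m + 1)] (pf_RP τ g m (P q) B) := fun q =>
      closedPf_RP τ g hT hF hZM m (P q) B hB
    have h2 := hCeq X (fun e => hom τ g m e.1 (pf_RP τ g m (P e.2) B)) (by
      rintro ⟨a, q⟩ ⟨b, q'⟩ ⟨hab, hq⟩
      simp only at hab hq
      subst hq
      exact (hZA X S τ g m).2.1 a b hab _)
    have h3 : dL τ g m L (⋃ q, pf_RP τ g m (P q) B) = ⋂ i, ⋃ e ∈ ({L i} ×ˢ univ : Set (TT S m × Fin k)),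
        hom τ g m e.1 (pf_RP τ g m (P e.2) B) := by
      unfold dL
      refine iInter_congr fun i => ?_
      rw [homU_RP τ g hT hF hZM hHA m (L i) _ hcl]
      ext y
      simp only [mem_iUnion, mem_prod, mem_singleton_iff, mem_univ, and_true, exists_prop, Prod.exists]
      constructor
      · rintro ⟨q, hq⟩
        exact ⟨L i, q, rfl, hq⟩
      · rintro ⟨_, q, rfl, hq⟩
        exact ⟨q, hq⟩
    obtain ⟨h0, h1, -⟩ := hIT X _ hd.mono hd.le
    have h4 := h1 (⋃ q, pf_RP τ g m (P q) B) 0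
    rw [h0, zero_add] at h4
    rw [Nat.cast_zero, Ordinal.opow_zero, h4, h3, h2, ← hP' B, biUnion_eq_iUnion]
    exact iUnion_congr fun c => hF' c.1 B
  · choose F' hF' using fun q => iterPf_RP τ g hT hF hZM hIT m L x (P q)
    refine ⟨k, F', fun B hB => ?_⟩
    have hcl : ∀ q, IsClosed[τ (m + 1)] (pf_RP τ g m (P q) B) := fun q =>
      closedPf_RP τ g hT hF hZM m (P q) B hB
    have h1 : (1 : Ordinal.{0}) ≤ (x : Ordinal.{0}) := by exact_mod_cast hx
    rw [(hUF X (τ (m + 1)) (hT.zd (m + 1)) (Fin k)).2 _ hd _ (x : Ordinal.{0}) hcl h1]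
    exact iUnion_congr fun q => hF' q B


/-- from `Zo` to `HomOp` -/
private theorem two_RP (hHU : StHU) (m : ℕ) (z : Set X → Set X) (hz : MCL (τ (m + 1)) z)
    (M : Set (TT S m)) (hM : M.Finite) (h : ∀ B, IsClosed[τ m] B → z B = ⋃ t ∈ M, Z τ g m t B) :
    ∀ B, IsClosed[τ (m + 1)] B → HomOp (τ (m + 1)) z B = ⋃ t ∈ M, hom τ g m t B := by
  intro B hB
  have : Finite M := hM.to_subtype
  have h1 := hHU X (τ (m + 1)) z (hT.zd _) hz M (fun t => Z τ g m t.1)
    (fun t => mcl_RP τ g hT hF hZM m t.1) (fun W hW => by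
      rw [h W (@IsClosed.mk X (τ m) W ((hT.mono m) _ (@IsClosed.isOpen_compl X (τ (m + 1)) W hW))),
        biUnion_eq_iUnion]) B hB
  rw [h1, biUnion_eq_iUnion]
  rfl

end

/-- iterates of two operators that agree on closed sets -/
private theorem iterCongr_RP (hIL : StIL) (τ : TopologicalSpace X) (d d' : Set X → Set X)
    (hd' : IsDer τ d') (h : ∀ B, IsClosed[τ] B → d B = d' B) (B : Set X) (hB : IsClosed[τ] B)
    (α : Ordinal.{0}) : iter d B α = iter d' B α := by
  induction α using WellFoundedLT.induction with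
  | ind α ih =>
    rw [iter, iter]
    congr 1
    refine iInter_congr fun β => ?_
    rw [ih β.1 β.2]
    exact h _ ((hIL X τ d' hd' β.1).closed B hB)

/-- from `HomOp` to `del` -/
private theorem three_RP [Finite S] (hIL : StIL) (hUF : StUF) (hFN : StFN) (hTB : StTB) (hTP : StTP)
    (hZM : StZM) (hZA : StZA) (hCA : StCA) (τ : ℕ → TopologicalSpace X) (g : X → S) (hT : Tow τ)
    (hF : Fib τ g) (f : X → Bool) (m : ℕ)
    (h2 : ∀ (c : Cd m) (s : Bool), ∃ M : Set (TT S m), M.Finite ∧ ∀ B, IsClosed[τ (m + 1)] B →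
      HomOp (τ (m + 1)) (Zo τ f m c s) B = ⋃ t ∈ M, hom τ g m t B)
    (hle : ∀ (c : Cd m) s B, HomOp (τ (m + 1)) (Zo τ f m c s) B ⊆ B)
    (c : Cd m) (hne : {p : Cd m × Bool | Cd.wf m p.1 ∧ Cd.vd m p.1 ∧ p.1 ≤ c}.Nonempty) :
    ∃ C : Set (ℕ → TT S m), C.Finite ∧ ∀ B, IsClosed[τ (m + 1)] B →
      del τ f m c B = ⋃ L ∈ C, dL τ g m L B ∧
      ∀ x : Ordinal.{0}, iter (del τ f m c) B (ω ^ x) = ⋃ L ∈ C, iter (dL τ g m L) B (ω ^ x) := by
  have hct : Countable (Cd m) := (hCA m).1
  obtain ⟨e, he⟩ := (Set.to_countable {p : Cd m × Bool | Cd.wf m p.1 ∧ Cd.vd m p.1 ∧ p.1 ≤ c}).exists_eq_range hne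
  have hdel : ∀ Y, del τ f m c Y = ⋂ n, HomOp (τ (m + 1)) (Zo τ f m (e n).1 (e n).2) Y := by
    intro Y
    unfold del delOf
    ext y
    simp only [mem_inter_iff, mem_iInter]
    constructor
    · rintro ⟨-, h⟩ n
      have hn : e n ∈ {p : Cd m × Bool | Cd.wf m p.1 ∧ Cd.vd m p.1 ∧ p.1 ≤ c} := he ▸ mem_range_self n
      exact h _ hn _
    · intro h
      refine ⟨hle _ _ _ (h 0), fun c' hc' s => ?_⟩
      have : (c', s) ∈ range e := he ▸ hc'
      obtain ⟨n, hn⟩ := this
      have := h n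
      rwa [hn] at this
  choose M hM hMeq using h2
  obtain ⟨hrefl, htrans⟩ := hTP.2.1 S m
  obtain ⟨Cs, hCs, -, hCeq⟩ := hFN (TT S m) (TT.Le m) hrefl htrans (hTB S m 0).2.1
    (fun i => M (e i).1 (e i).2) (fun i => hM _ _)
  have hrep : ∀ B, IsClosed[τ (m + 1)] B → del τ f m c B = ⋃ L ∈ Cs, dL τ g m L B := by
    intro B hB
    have h3 := hCeq X (fun t => hom τ g m t B) (fun a b hab => (hZA X S τ g m).2.1 a b hab B)
    rw [hdel B, iInter_congr fun n => hMeq (e n).1 (e n).2 B hB, h3]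
    rfl
  refine ⟨Cs, hCs, fun B hB => ⟨hrep B hB, fun x => ?_⟩⟩
  have : Finite Cs := hCs.to_subtype
  obtain ⟨hd', hit⟩ := (hUF X (τ (m + 1)) (hT.zd _) Cs).1 (fun L => dL τ g m L.1)
    (fun L => (hZM X S τ g hT hF m).2.2 L.1)
  rw [iterCongr_RP hIL (τ (m + 1)) _ _ hd' (fun B hB => by rw [hrep B hB, biUnion_eq_iUnion]) B hB,
    hit B x hB, biUnion_eq_iUnion]

theorem hRP (hRB : StRB) (hCA : StCA) (hHA : StHA) (hHU : StHU) (hUF : StUF) (hFN : StFN)
    (hTB : StTB) (hTP : StTP) (hZM : StZM) (hZA : StZA) (hIT : StIT) (hIL : StIL) : StRP := by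
  intro S _ h X τ g hT hF m
  have hfib : ∀ s, Clp (τ 0) ((h ∘ g) ⁻¹' {s}) := by
    intro s
    have e : (h ∘ g) ⁻¹' {s} = ⋃ t ∈ {t : S | h t = s}, g ⁻¹' {t} := by
      ext y
      simp
    rw [e]
    exact @Set.Finite.isClopen_biUnion X (τ 0) _ _ _ (Set.toFinite _) (fun t _ => hF t)
  have hRBm := hRB X τ (h ∘ g) hT hfib
  have hle : ∀ m (c : Cd m) s B, HomOp (τ (m + 1)) (Zo τ (h ∘ g) m c s) B ⊆ B := fun m c s B =>
    ((hRBm m).2.2.2 c s).le B
  -- `HomOp`
  have two : ∀ m, (∀ (c : Cd m) (s : Bool), ∃ M : Set (TT S m), M.Finite ∧ ∀ B, IsClosed[τ m] B →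
      Zo τ (h ∘ g) m c s B = ⋃ t ∈ M, Z τ g m t B) →
      ∀ (c : Cd m) (s : Bool), ∃ M : Set (TT S m), M.Finite ∧ ∀ B, IsClosed[τ (m + 1)] B →
        HomOp (τ (m + 1)) (Zo τ (h ∘ g) m c s) B = ⋃ t ∈ M, hom τ g m t B := by
    intro m h1 c s
    obtain ⟨M, hM, hMeq⟩ := h1 c s
    refine ⟨M, hM, two_RP τ g hT hF hZM hHU m _ ?_ M hM hMeq⟩
    have hd := (hRBm m).2.1 c s
    refine ⟨hd.mono, hd.le, fun O B hO => hd.loc O B ?_⟩
    exact ⟨@IsClosed.mk X (τ m) O ((hT.mono m) _ (@IsClosed.isOpen_compl X (τ (m + 1)) O hO.1)),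
      (hT.mono m) _ hO.2⟩
  -- `Vo`
  have list : ∀ m, (∀ (c : Cd m) (s : Bool), ∃ M : Set (TT S m), M.Finite ∧ ∀ B, IsClosed[τ (m + 1)] B →
        HomOp (τ (m + 1)) (Zo τ (h ∘ g) m c s) B = ⋃ t ∈ M, hom τ g m t B) →
      ∀ l : List (Cd m ×ₗ ℕ), ∃ (k : ℕ) (P : Fin k → ℕ → Option (TT S (m + 1))),
        ∀ B, IsClosed[τ (m + 1)] B →
          Vo τ (h ∘ g) (m + 1) (Cd.of l) B = ⋃ q, pf_RP τ g m (P q) B := by
    intro m h2 l
    induction l using List.reverseRecOn with
    | nil =>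
      refine ⟨1, fun _ _ => none, fun B _ => ?_⟩
      have e : ∀ q : Fin 1, pf_RP τ g m ((fun _ _ => none : Fin 1 → ℕ → Option (TT S (m + 1))) q) B = B := by
        intro q
        unfold pf_RP
        exact iInter_const B
      rw [iUnion_congr e, iUnion_const]
      rfl
    | append_singleton l e ih =>
      obtain ⟨k, P, hP⟩ := ih
      have hV : ∀ B, Vo τ (h ∘ g) (m + 1) (Cd.of (l ++ [e])) B =
          iter (del τ (h ∘ g) m (ofLex e).1) (Vo τ (h ∘ g) (m + 1) (Cd.of l) B)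
            (ω ^ ((ofLex e).2 : Ordinal.{0})) := by
        intro B
        show foldV (τ (m + 1)) m (VZ τ (h ∘ g) m).2 (l ++ [e]) B = _
        unfold foldV
        rw [List.foldl_append]
        rfl
      have hcl : ∀ B, IsClosed[τ (m + 1)] B → IsClosed[τ (m + 1)] (Vo τ (h ∘ g) (m + 1) (Cd.of l) B) :=
        fun B hB => ((hRBm (m + 1)).1 _).closed B hB
      rcases {p : Cd m × Bool | Cd.wf m p.1 ∧ Cd.vd m p.1 ∧ p.1 ≤ (ofLex e).1}.eq_empty_or_nonempty
        with hem | hne
      · refine ⟨k, P, fun B hB => ?_⟩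
        have hd := (hRBm m).2.2.1 (ofLex e).1
        have h8 := (hIT X _ hd.mono hd.le).2.2.2.2.2.2.2.1
        rw [hV B, h8 _ _ ?_, hP B hB]
        intro y hy
        unfold del delOf
        refine ⟨hy, ?_⟩
        simp only [mem_iInter]
        intro c' hc' s
        have : (c', s) ∈ {p : Cd m × Bool | Cd.wf m p.1 ∧ Cd.vd m p.1 ∧ p.1 ≤ (ofLex e).1} := hc'
        rw [hem] at this
        exact absurd this (by simp)
      · obtain ⟨Cs, hCs, hCeq⟩ := three_RP hIL hUF hFN hTB hTP hZM hZA hCA τ g hT hF (h ∘ g) m h2 (hle m)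
          (ofLex e).1 hne
        have : Finite Cs := hCs.to_subtype
        choose k' P' hP' using fun L : Cs => step_RP τ g hT hF hZM hIT hUF hHA hFN hTB hTP hZA m L.1
          (ofLex e).2 k P
        obtain ⟨k'', P'', hP''⟩ := toFin_RP τ g m (fun p : (Σ L : Cs, Fin (k' L)) => P' p.1 p.2)
        refine ⟨k'', P'', fun B hB => ?_⟩
        rw [hV B, (hCeq _ (hcl B hB)).2, hP B hB, ← hP'' B, iUnion_sigma, biUnion_eq_iUnion]
        exact iUnion_congr fun L => hP' L B hB
  have one : ∀ m, ∀ (c : Cd m) (s : Bool), ∃ M : Set (TT S m), M.Finite ∧ ∀ B, IsClosed[τ m] B →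
      Zo τ (h ∘ g) m c s B = ⋃ t ∈ M, Z τ g m t B := by
    intro m
    induction m with
    | zero =>
      intro c s
      have hfin : Finite (TT S 0) := inferInstanceAs (Finite S)
      refine ⟨{t : TT S 0 | h t = s}, Set.toFinite _, fun B _ => ?_⟩
      show B ∩ (h ∘ g) ⁻¹' {s} = ⋃ t ∈ {t : TT S 0 | h t = s}, B ∩ g ⁻¹' {(t : S)}
      ext y
      simp only [mem_inter_iff, mem_preimage, Function.comp_apply, mem_singleton_iff, Set.mem_ofPred_eq,
        mem_iUnion, exists_prop]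
      constructor
      · rintro ⟨h1, h2⟩
        exact ⟨g y, h2, h1, rfl⟩
      · rintro ⟨t, h1, h2, h3⟩
        refine ⟨h2, ?_⟩
        rw [h3]
        exact h1
    | succ m ih =>
      intro c s
      obtain ⟨M, hM, hMeq⟩ := two m ih (lastc c.L) s
      obtain ⟨k, P, hP⟩ := list m (two m ih) c.L.dropLast
      choose T hTT using fun (e : TT S m) (F : ℕ → Option (TT S (m + 1))) =>
        homPf_RP τ g hT hF hZM m e F
      refine ⟨(fun p : TT S m × Fin k => T p.1 (P p.2)) '' (M ×ˢ univ),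
        (hM.prod finite_univ).image _, fun B hB => ?_⟩
      have hcl : ∀ q, IsClosed[τ (m + 1)] (pf_RP τ g m (P q) B) := fun q =>
        closedPf_RP τ g hT hF hZM m (P q) B hB
      have hclV : IsClosed[τ (m + 1)] (⋃ q, pf_RP τ g m (P q) B) :=
        @isClosed_iUnion_of_finite _ _ (τ (m + 1)) _ _ hcl
      show HomOp (τ (m + 1)) (Zo τ (h ∘ g) m (lastc c.L) s) (Vo τ (h ∘ g) (m + 1) (Cd.of c.L.dropLast) B) = _
      rw [hP B hB, hMeq _ hclV]
      have e1 : ∀ t : TT S m, hom τ g m t (⋃ q, pf_RP τ g m (P q) B) =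
          ⋃ q, Z τ g (m + 1) (T t (P q)) B := by
        intro t
        rw [homU_RP τ g hT hF hZM hHA m t _ hcl]
        exact iUnion_congr fun q => hTT t (P q) B
      simp only [e1]
      ext y
      simp only [mem_iUnion, mem_image, mem_prod, mem_univ, and_true, Prod.exists, exists_prop]
      constructor
      · rintro ⟨t, ht, q, hq⟩
        exact ⟨_, ⟨t, q, ht, rfl⟩, hq⟩
      · rintro ⟨_, ⟨t, q, ht, rfl⟩, hq⟩
        exact ⟨t, ht, q, hq⟩
  refine ⟨one m, two m (one m), fun c hc hb => ?_⟩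
  refine three_RP hIL hUF hFN hTB hTP hZM hZA hCA τ g hT hF (h ∘ g) m (two m (one m)) (hle m) c ?_
  obtain ⟨-, hbot, hwb, -, hr, -⟩ := hCA m
  obtain ⟨r, h1, h2, -, h3⟩ := hr _ c hwb hc (lt_of_le_of_ne (hbot c) (Ne.symm hb))
  exact ⟨(r, true), h1, h2, h3⟩

end Pool.Agent.Helper24.WH

end

section

/-!
# PROJECT WH (MP_76577a_lc), module RX: every point has a rank
-/

set_option autoImplicit false

namespace Pool.Agent.Helper24.WH

open Set TopologicalSpace Topology
open Ordinal hiding univ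

theorem hRX (hRA : StRA) (hUZ : StUZ) (hCB : StCB) : StRX := by
  intro X n τ P f hR m hm A hA x hx
  obtain ⟨-, -, -, -, -, -, -, -, -, hVZ, hlim, -⟩ := hRA X τ f m
  obtain ⟨-, -, -, -, hbot, -⟩ := hUZ X τ f
  obtain ⟨-, -, -, -, -, -, -, -, -, -, hwfd⟩ := hCB m
  obtain ⟨c₀, hc₀, hc₀E⟩ := hR.tm m hm
  have hne : ({c : {c : Cd m // Cd.wf m c} | x ∉ Vo τ f m c.1 A}).Nonempty :=
    ⟨⟨c₀, hc₀⟩, by rw [mem_ofPred_eq, hc₀E A hA]; exact notMem_empty x⟩
  obtain ⟨r, hrx, hmin⟩ := hwfd.has_min _ hne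
  have hlt : ∀ c, Cd.wf m c → c < r.1 → x ∈ Vo τ f m c A := by
    intro c hc hcr
    by_contra h
    exact hmin ⟨c, hc⟩ h hcr
  have hrb : r.1 ≠ Cd.bot m := by
    intro h
    apply hrx
    rw [h, hbot m A]
    exact hx
  have hrv : Cd.vd m r.1 := by
    by_contra h
    exact hrx (hlim r.1 A r.2 h hrb x hlt)
  obtain ⟨c, hcw, hcr, hcZ⟩ := hR.us m hm r.1 r.2 hrv
  have hxZ := hcZ A hA (hlt c hcw hcr)
  have hVx : x ∉ Zo τ f m r.1 false A ∩ Zo τ f m r.1 true A := by
    rw [← hVZ r.1 A r.2 hrv]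
    exact hrx
  rcases hxZ with h | h
  · exact ⟨r.1, false, r.2, hrv, hrx, hlt, h, fun h' => hVx ⟨h, h'⟩⟩
  · exact ⟨r.1, true, r.2, hrv, hrx, hlt, h, fun h' => hVx ⟨h', h⟩⟩

end Pool.Agent.Helper24.WH

end

section

/-!
# PROJECT WH (MP_76577a_lc), module US: uniform stabilisation
-/

set_option autoImplicit false

namespace Pool.Agent.Helper24.WH

open Set TopologicalSpace Topology
open Ordinal hiding univ

private theorem homOp_mono_US {X : Type} (τ : TopologicalSpace X) (z : Set X → Set X) {A B : Set X} (h : A ⊆ B) :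
    HomOp τ z A ⊆ HomOp τ z B := by
  apply sUnion_subset_sUnion
  rintro W ⟨h1, h2⟩
  exact ⟨h1.trans h, h2⟩

private theorem le_homOp_US {X : Type} (τ : TopologicalSpace X) (z : Set X → Set X) {W B : Set X} (h1 : W ⊆ B)
    (h2 : W ⊆ closure[τ] (z W)) : W ⊆ HomOp τ z B :=
  subset_sUnion_of_mem (show W ∈ {W | W ⊆ B ∧ W ⊆ closure[τ] (z W)} from ⟨h1, h2⟩)

private theorem fib_US {X S : Type} [Finite S] (τ : TopologicalSpace X) (g : X → S) (h : S → Bool)
    (hf : ∀ s, Clp τ (g ⁻¹' {s})) (s : Bool) : Clp τ ((h ∘ g) ⁻¹' {s}) := by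
  have h1 : (h ∘ g) ⁻¹' {s} = ⋃ t ∈ h ⁻¹' {s}, g ⁻¹' {t} := by
    ext x
    simp only [mem_preimage, Function.comp_apply, mem_singleton_iff, mem_iUnion, exists_prop]
    constructor
    · exact fun hx => ⟨g x, hx, rfl⟩
    · rintro ⟨t, ht, hx⟩
      rw [hx]
      exact ht
  rw [h1]
  exact @Set.Finite.isClopen_biUnion X τ _ _ _ (Set.toFinite _) fun t _ => hf t

/-- the last step: two operators of height `m` whose union is dense -/
private theorem last_US {X : Type} (hHU : StHU) (τ : TopologicalSpace X) (z : Bool → Set X → Set X)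
    (hzd : ZD τ) (hz : ∀ s, MCL τ (z s)) (W : Set X) (hW : IsClosed[τ] W)
    (h : W ⊆ closure[τ] (z false W ∪ z true W)) :
    W ⊆ HomOp τ (z false) W ∪ HomOp τ (z true) W := by
  have hu : ∀ B, (z false B ∪ z true B) = ⋃ s, z s B := by
    intro B
    ext x
    simp only [mem_union, mem_iUnion, Bool.exists_bool]
  have hM : MCL τ (fun B => z false B ∪ z true B) := by
    refine ⟨fun A B hAB => union_subset_union ((hz false).mono A B hAB) ((hz true).mono A B hAB),
      fun B => union_subset ((hz false).le B) ((hz true).le B), fun O B hO => ?_⟩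
    show z false (B ∩ O) ∪ z true (B ∩ O) = (z false B ∪ z true B) ∩ O
    rw [(hz false).loc O B hO, (hz true).loc O B hO, union_inter_distrib_right]
  have h1 := hHU X τ (fun B => z false B ∪ z true B) hzd hM Bool z hz (fun B _ => hu B) W hW
  have h2 : W ⊆ HomOp τ (fun B => z false B ∪ z true B) W := le_homOp_US τ _ Subset.rfl h
  rw [h1] at h2
  intro x hx
  have h3 := h2 hx
  simp only [mem_iUnion, Bool.exists_bool] at h3
  exact h3

/-- **US (6.4)** uniform stabilisation -/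
theorem hUS (hVP : StVP) (hBA : StBA) (hHU : StHU) (hUZ : StUZ) (hRB : StRB) (hCA : StCA) : StUS := by
  intro X S _ n N τ g h P hsys hft hN m
  obtain ⟨u1, u2, u3, u4, u5, u6, u7, u8, u9⟩ := hUZ X τ (h ∘ g)
  obtain ⟨v1, v2, v3, v4⟩ := hVP S h X n N τ g P hsys hft hN
  have hfib := fib_US (τ 0) g h hsys.fib
  induction m with
  | zero =>
    intro _ r _ hvd
    obtain ⟨-, hb, hwb, hnb, -⟩ := hCA 0
    refine ⟨Cd.bot 0, hwb, lt_of_le_of_ne (hb r) ?_, fun B _ => ?_⟩
    · intro he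
      rw [he] at hnb
      exact hnb hvd
    · rw [u1, u3, u3]
      intro x hx
      cases hfx : (h ∘ g) x with
      | false => exact Or.inl ⟨hx, hfx⟩
      | true => exact Or.inr ⟨hx, hfx⟩
  | succ m ih =>
    intro hm r hwf hvd
    obtain ⟨l, r', hr, hvd'⟩ := hvd
    have hr' : r = Cd.ext (Cd.of l) r' 0 := hr
    subst hr'
    clear hr
    obtain ⟨-, hb, hwb, hnb, -, hext, hext2, hextlt, -, -⟩ := hCA m
    obtain ⟨hwl, hwr, hrb, hllt⟩ := hext _ _ _ hwf
    obtain ⟨c, hwc, hclt, hc⟩ := ih (by omega) r' hwr hvd'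
    obtain ⟨-, hdz, -, -⟩ := hRB X τ (h ∘ g) hsys.tow hfib m
    have hmcl : ∀ s, MCL (τ (m + 1)) (Zo τ (h ∘ g) m r' s) := by
      intro s
      refine ⟨(hdz r' s).mono, (hdz r' s).le, fun O B hO => (hdz r' s).loc O B ?_⟩
      exact ⟨hO.1.mono (hsys.tow.mono m), hsys.tow.mono m _ hO.2⟩
    by_cases hcb : c = Cd.bot m
    · refine ⟨Cd.of l, hwl, hllt, fun B hB => ?_⟩
      rw [u9, u9]
      have hW := v1 (m + 1) hm (Cd.of l) hwl B hB
      refine last_US hHU (τ (m + 1)) (Zo τ (h ∘ g) m r') (hsys.tow.zd _) hmcl _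
        (hsys.cl (m + 1) hm _ hW) ?_
      have h1 := hc _ (hsys.anti m hW)
      rw [hcb, u5] at h1
      exact h1.trans (@subset_closure X (τ (m + 1)) _)
    · have hlex : (toLex (c, N) : Cd m ×ₗ ℕ) < toLex (r', 0) := Prod.Lex.left _ _ hclt
      refine ⟨Cd.ext (Cd.of l) c N, hext2 _ _ _ _ _ hwf hwc hcb hlex.le, hextlt _ _ _ _ _ hlex, fun B hB => ?_⟩
      rw [u9, u9]
      have hB' := v1 (m + 1) hm (Cd.of l) hwl B hB
      have hW := v1 (m + 1) hm (Cd.ext (Cd.of l) c N) (hext2 _ _ _ _ _ hwf hwc hcb hlex.le) B hB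
      have hfix := v4 m hm c hwc _ hB'
      rw [← u6] at hfix
      have hcl := hsys.cl (m + 1) hm _ hW
      have h1 := hBA X S n τ g h P hsys m hm c hwc _ hcl hfix
      have h2 := hc _ (hsys.anti m hW)
      have h3 := last_US hHU (τ (m + 1)) (Zo τ (h ∘ g) m r') (hsys.tow.zd _) hmcl _ hcl
        (h1.trans (@closure_mono X (τ (m + 1)) _ _ h2))
      have h4 : Vo τ (h ∘ g) (m + 1) (Cd.ext (Cd.of l) c N) B ⊆ Vo τ (h ∘ g) (m + 1) (Cd.of l) B := by
        rw [u6]
        rw [iter]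
        exact inter_subset_left
      exact h3.trans (union_subset_union (homOp_mono_US _ _ h4) (homOp_mono_US _ _ h4))

end Pool.Agent.Helper24.WH

end

section

/-!
# PROJECT WH, module UZ: unfolding rules
-/

set_option autoImplicit false

namespace Pool.Agent.Helper24.WH

open Set TopologicalSpace Topology
open Ordinal hiding univ

private theorem lastc_UZ {m : ℕ} (l : List (Cd m ×ₗ ℕ)) (c : Cd m) (x : ℕ) :
    lastc (l ++ [toLex (c, x)]) = c := by
  unfold lastc
  rw [List.getLast?_concat]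
  rfl

/-- unfolding rules -/
theorem hUZ : StUZ := by
  intro X τ f
  have h1 : ∀ B, Vo τ f 0 (Cd.bot 0) B = B := by
    intro B
    show {x ∈ B | (false : Bool) = false} = B
    ext x
    simp
  have h4 : ∀ m B, Vo τ f (m + 1) (Cd.bot (m + 1)) B = B := fun m B => rfl
  refine ⟨h1, ?_, fun c s B => rfl, h4, ?_, ?_, ?_, ?_, ?_⟩
  · intro c B hc
    have hc' : Cd.B c = true := hc
    show {x ∈ B | Cd.B c = false} = ∅
    ext x
    rw [hc']
    simp
  · intro m B
    cases m with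
    | zero => exact h1 B
    | succ m => exact h4 m B
  · intro m l c x B
    show foldV (τ (m + 1)) m (VZ τ f m).2 (Cd.L l ++ [toLex (c, x)]) B = _
    unfold foldV
    rw [List.foldl_append]
    rfl
  · intro m l r B
    show foldV (τ (m + 1)) m (VZ τ f m).2 (l ++ r) B = _
    unfold foldV
    rw [List.foldl_append]
    rfl
  · intro m e r B
    rfl
  · intro m l c x s B
    show HomOp (τ (m + 1)) ((VZ τ f m).2 (lastc (Cd.L l ++ [toLex (c, x)])) s)
        (foldV (τ (m + 1)) m (VZ τ f m).2 ((Cd.L l ++ [toLex (c, x)]).dropLast) B) = _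
    rw [lastc_UZ, List.dropLast_concat]
    rfl

end Pool.Agent.Helper24.WH

end

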