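import Pool.Agent.Helper24.WH.St6

/-! Modules of project WH / WL merged into one file to shorten the build. -/

section

/-!
# PROJECT WH, module C0: the case `M = 0` of the comparison theorem
-/

set_option autoImplicit false

namespace Pool.Agent.Helper24.WH

open Set TopologicalSpace Topology

/-- a strategy built from single steps which see the length of the history and the current set -/
noncomputable def strat_C0 {X Y : Type} (Q : Set Y)
    (step : Set X × Set Y → ℕ → Set Y → Set Y) : Hist X Y → Set Y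
  | [] => Q
  | mv :: h => step mv h.length (strat_C0 Q step h)

private theorem length_hist_C0 {X Y : Type} (p : ℕ → Set X × Set Y) : ∀ l, (hist p l).length = l
  | 0 => rfl
  | l + 1 => by rw [hist, List.length_cons, length_hist_C0 p l]

theorem hC0 (hSH : StSH) : StC0 := by
  classical
  intro X A₂ n τ P f τ' P' f' hP hP' s A hA A' hA' Q hQ hf hcl
  set E : Set (Tre A₂) := A' ∩ f' ⁻¹' {s} with hE
  have hEP : E ∈ P' 0 := hP'.rich.fP A' hA' s
  have hEA : E ⊆ A' := inter_subset_left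
  have hEcl : IsClosed[τ' 0] E := hP'.rich.cl 0 (Nat.zero_le _) E hEP
  obtain ⟨m, hm, hc⟩ := (@PolishSpace.toIsCompletelyMetrizableSpace _ (τ' 0) hP'.rich.pol).complete
  -- the balls are open
  have hball : ∀ z (ε : ℝ), IsOpen[τ' 0] (@Metric.ball _ m.toPseudoMetricSpace z ε) := by
    intro z ε
    rw [← hm]
    exact @Metric.isOpen_ball _ m.toPseudoMetricSpace z ε
  -- good answers
  let G : Set X × Set (Tre A₂) → ℕ → Set (Tre A₂) → Set (Tre A₂) → Prop := fun mv k R Q₁ =>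
    Q₁ ∈ P' 1 ∧ Q₁ ⊆ mv.2 ∩ R ∧ (∃ z, z ∈ Q₁ ∩ E ∧ Q₁ ⊆ Cyl k z ∧
      Q₁ ⊆ @Metric.ball _ m.toPseudoMetricSpace z ((1 / 2 : ℝ) ^ k)) ∧
      Q₁ ⊆ closure[τ' 1] (Q₁ ∩ E)
  let step : Set X × Set (Tre A₂) → ℕ → Set (Tre A₂) → Set (Tre A₂) := fun mv k R =>
    if h : ∃ Q₁, G mv k R Q₁ then h.choose else ∅
  let σ : Hist X (Tre A₂) → Set (Tre A₂) := strat_C0 Q step
  have hσ0 : σ [] = Q := rfl
  have hσ1 : ∀ mv h, σ (mv :: h) = step mv h.length (σ h) := fun _ _ => rfl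
  -- an answer exists
  have hex : ∀ (mv : Set X × Set (Tre A₂)) (k : ℕ) (R : Set (Tre A₂)), R ∈ P' 1 →
      A' ∩ R ⊆ closure[τ' 1] (R ∩ E) → IsOpen[τ' 1] mv.2 → (mv.2 ∩ R ∩ A').Nonempty →
      ∃ Q₁, G mv k R Q₁ := by
    intro mv k R hR hRc hmo hne
    obtain ⟨y, ⟨hy1, hy2⟩, hy3⟩ := hne
    have hy := hRc ⟨hy3, hy2⟩
    obtain ⟨z, hz1, hz2, hz3⟩ := (@mem_closure_iff _ (τ' 1) _ _).1 hy mv.2 hmo hy1
    have hU : IsOpen[τ' 0] (mv.2 ∩ R ∩ @Metric.ball _ m.toPseudoMetricSpace z ((1 / 2 : ℝ) ^ k)) :=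
      @IsOpen.inter _ (τ' 0) _ _ (@IsOpen.inter _ (τ' 0) _ _ (hP'.rich.tow.mono 0 _ hmo)
        (hP'.rich.op 0 (Nat.zero_le _) R hR)) (hball z _)
    have hzb : z ∈ @Metric.ball _ m.toPseudoMetricSpace z ((1 / 2 : ℝ) ^ k) :=
      @Metric.mem_ball_self _ m.toPseudoMetricSpace z _ (by positivity)
    obtain ⟨Q₁, hQ1, hQz, hQU, hQC, hQcl⟩ := hSH A₂ n τ' P' f' hP' 0 (Nat.zero_le _) E hEP z hz3 _
      hU ⟨⟨hz1, hz2⟩, hzb⟩ k
    exact ⟨Q₁, hQ1, fun y hy => (hQU hy).1, ⟨z, ⟨hQz, hz3⟩, hQC, fun y hy => (hQU hy).2⟩, hQcl⟩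
  -- the invariant
  have hinv : ∀ h, Legal (P 1) A (τ' 1) A' σ h →
      σ h ∈ P' 1 ∧ A' ∩ σ h ⊆ closure[τ' 1] (σ h ∩ E) := by
    intro h
    induction h with
    | nil => intro _; exact ⟨hQ, fun y hy => hcl hy⟩
    | cons mv h ih =>
      intro hl
      obtain ⟨hl0, -, -, -, ho, hne⟩ := hl
      have hg := hex mv h.length (σ h) (ih hl0).1 (ih hl0).2 ho hne
      have hs : G mv h.length (σ h) (σ (mv :: h)) := by
        rw [hσ1]
        simp only [step, dif_pos hg]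
        exact hg.choose_spec
      exact ⟨hs.1, fun y hy => hs.2.2.2 hy.2⟩
  have hgood : ∀ mv h, Legal (P 1) A (τ' 1) A' σ (mv :: h) → G mv h.length (σ h) (σ (mv :: h)) := by
    intro mv h hl
    obtain ⟨hl0, -, -, -, ho, hne⟩ := hl
    have hg := hex mv h.length (σ h) (hinv h hl0).1 (hinv h hl0).2 ho hne
    rw [hσ1]
    simp only [step, dif_pos hg]
    exact hg.choose_spec
  refine ⟨σ, hσ0, ?_, ?_⟩
  · intro mv h hl
    obtain ⟨g1, g2, ⟨z, hz, -, -⟩, -⟩ := hgood mv h hl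
    exact ⟨g1, g2, ⟨z, hz.1, hEA hz.2⟩⟩
  · intro p hp x hx hxp _
    have hg : ∀ l, σ (hist p (l + 1)) ∈ P' 1 ∧ σ (hist p (l + 1)) ⊆ (p l).2 ∩ σ (hist p l) ∧
        (∃ z, z ∈ σ (hist p (l + 1)) ∩ E ∧ σ (hist p (l + 1)) ⊆ Cyl l z ∧
          σ (hist p (l + 1)) ⊆ @Metric.ball _ m.toPseudoMetricSpace z ((1 / 2 : ℝ) ^ l)) ∧
        σ (hist p (l + 1)) ⊆ closure[τ' 1] (σ (hist p (l + 1)) ∩ E) := by
      intro l
      have := hgood (p l) (hist p l) (hp (l + 1))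
      rwa [length_hist_C0] at this
    have g2 := fun l => (hg l).2.1
    choose z hz hzC hzB using fun l => (hg l).2.2.1
    have hsub : ∀ l k, l ≤ k → σ (hist p k) ⊆ σ (hist p l) := by
      intro l k hlk
      induction hlk with
      | refl => exact subset_rfl
      | step _ ih => exact fun y hy => ih (g2 _ hy).2
    -- the points form a Cauchy sequence
    have hd : ∀ l, @dist _ m.toDist (z l) (z (l + 1)) ≤ (1 : ℝ) * (1 / 2 : ℝ) ^ l := by
      intro l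
      have h1 : z (l + 1) ∈ σ (hist p (l + 1)) := (g2 _ (hz (l + 1)).1).2
      have h2 := hzB l h1
      have h3 : @dist _ m.toDist (z (l + 1)) (z l) < (1 / 2 : ℝ) ^ l := h2
      rw [@dist_comm _ m.toPseudoMetricSpace, one_mul]
      exact h3.le
    have hcau : @CauchySeq _ _ m.toUniformSpace _ z :=
      @cauchySeq_of_le_geometric _ m.toPseudoMetricSpace _ _ z (by norm_num) hd
    obtain ⟨x', hx'⟩ := @cauchySeq_tendsto_of_complete _ _ m.toUniformSpace _ hc z hcau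
    have hx'2 : Filter.Tendsto z Filter.atTop (@nhds _ (τ' 0) x') := by
      rw [← hm]; exact hx'
    have hmem : ∀ C : Set (Tre A₂), IsClosed[τ' 0] C → (∃ l, ∀ k, l ≤ k → z k ∈ C) → x' ∈ C := by
      intro C hC hl
      obtain ⟨l, hl⟩ := hl
      letI : TopologicalSpace (Tre A₂) := τ' 0
      exact IsClosed.mem_of_tendsto hC hx'2 (Filter.eventually_atTop.2 ⟨l, hl⟩)
    have hxE : x' ∈ E := hmem E hEcl ⟨0, fun k _ => (hz k).2⟩
    have hxσ : ∀ l, x' ∈ σ (hist p l) := by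
      intro l
      refine hmem _ ?_ ⟨l, fun k hk => hsub l (k + 1) (by omega) (hz k).1⟩
      exact hP'.rich.cl 0 (Nat.zero_le _) _ (hP'.rich.anti 0 (hinv _ (hp l)).1)
    refine ⟨x', hEA hxE, hxσ, ?_, ?_⟩
    · rw [hf x hx]; exact hxE.2
    · intro k
      refine ⟨k + 1, fun y hy u hu => ?_⟩
      have h1 := hzC k (hxσ (k + 1)) u hu
      have h2 := hzC k hy u hu
      rw [h1, h2]

end Pool.Agent.Helper24.WH

end

section

/-!
# WH module CTA: simulation of a game of height `M` inside a game of height `M+1`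
-/

set_option autoImplicit false

namespace Pool.Agent.Helper24.WH

open Set TopologicalSpace Topology
open Ordinal hiding univ

section CTA

variable {X A₂ : Type}

/-! ### Bit strings -/

/-- intersection of the sets selected by a bit string (newest bit first) -/
def Gs_CTA (F : ℕ → Set X) : List Bool → Set X
  | [] => univ
  | b :: w => if b = true then Gs_CTA F w ∩ F w.length else Gs_CTA F w

open Classical in
/-- the string of length `k` of the set `O` (newest bit first) -/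
noncomputable def tw_CTA (F : ℕ → Set X) (B O : Set X) : ℕ → List Bool
  | 0 => []
  | (k + 1) => decide ((O ∩ B ∩ Gs_CTA F (tw_CTA F B O k) ∩ F k).Nonempty) :: tw_CTA F B O k

open Classical in
/-- the true string of the point `x` -/
noncomputable def tt_CTA (F : ℕ → Set X) (x : X) : ℕ → List Bool
  | 0 => []
  | (k + 1) => decide (x ∈ F k) :: tt_CTA F x k

theorem tw_len_CTA (F : ℕ → Set X) (B O : Set X) (k : ℕ) : (tw_CTA F B O k).length = k := by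
  induction k with
  | zero => rfl
  | succ k ih => simp [tw_CTA, ih]

theorem tt_len_CTA (F : ℕ → Set X) (x : X) (k : ℕ) : (tt_CTA F x k).length = k := by
  induction k with
  | zero => rfl
  | succ k ih => simp [tt_CTA, ih]

theorem Gs_cons_sub_CTA (F : ℕ → Set X) (b : Bool) (w : List Bool) :
    Gs_CTA F (b :: w) ⊆ Gs_CTA F w := by
  cases b with
  | false => intro x hx; simpa [Gs_CTA] using hx
  | true =>
    intro x hx
    have hx' : x ∈ Gs_CTA F w ∩ F w.length := by simpa [Gs_CTA] using hx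
    exact hx'.1

theorem Gs_mem_CTA (F : ℕ → Set X) (P1 : Set (Set X)) (hu : univ ∈ P1)
    (hi : ∀ B ∈ P1, ∀ B' ∈ P1, B ∩ B' ∈ P1) (hF : ∀ i, F i ∈ P1) (w : List Bool) :
    Gs_CTA F w ∈ P1 := by
  induction w with
  | nil => exact hu
  | cons b w ih =>
    unfold Gs_CTA
    split_ifs
    · exact hi _ ih _ (hF _)
    · exact ih

theorem tw_down_CTA (F : ℕ → Set X) (B O O' : Set X) (j : ℕ) (h : tw_CTA F B O j = tw_CTA F B O' j) :
    ∀ i ≤ j, tw_CTA F B O i = tw_CTA F B O' i := by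
  induction j with
  | zero => intro i hi; rw [Nat.le_zero.mp hi]; rfl
  | succ j ih =>
    intro i hi
    rcases Nat.lt_or_ge i (j + 1) with hlt | hge
    · have h2 : tw_CTA F B O j = tw_CTA F B O' j := by
        simp only [tw_CTA] at h
        exact (List.cons.inj h).2
      exact ih h2 i (Nat.lt_succ_iff.mp hlt)
    · have : i = j + 1 := le_antisymm hi hge
      rw [this]; exact h

theorem tw_ne_CTA (F : ℕ → Set X) (B O : Set X) (h : (O ∩ B).Nonempty) (k : ℕ) :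
    (O ∩ B ∩ Gs_CTA F (tw_CTA F B O k)).Nonempty := by
  induction k with
  | zero => simpa [tw_CTA, Gs_CTA] using h
  | succ k ih =>
    by_cases hb : (O ∩ B ∩ Gs_CTA F (tw_CTA F B O k) ∩ F k).Nonempty
    · have : Gs_CTA F (tw_CTA F B O (k + 1)) = Gs_CTA F (tw_CTA F B O k) ∩ F k := by
        simp [tw_CTA, Gs_CTA, hb, tw_len_CTA]
      rw [this, ← inter_assoc]
      exact hb
    · have : Gs_CTA F (tw_CTA F B O (k + 1)) = Gs_CTA F (tw_CTA F B O k) := by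
        simp [tw_CTA, Gs_CTA, hb]
      rw [this]
      exact ih

theorem tt_mem_CTA (F : ℕ → Set X) (x : X) (k : ℕ) : x ∈ Gs_CTA F (tt_CTA F x k) := by
  induction k with
  | zero => exact mem_univ x
  | succ k ih =>
    by_cases hb : x ∈ F k
    · have : Gs_CTA F (tt_CTA F x (k + 1)) = Gs_CTA F (tt_CTA F x k) ∩ F k := by
        simp [tt_CTA, Gs_CTA, hb, tt_len_CTA]
      rw [this]
      exact ⟨ih, hb⟩
    · have : Gs_CTA F (tt_CTA F x (k + 1)) = Gs_CTA F (tt_CTA F x k) := by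
        simp [tt_CTA, Gs_CTA, hb]
      rw [this]
      exact ih

theorem tt_sub_CTA (F : ℕ → Set X) (x : X) (k : ℕ) (hx : x ∈ F k) :
    Gs_CTA F (tt_CTA F x (k + 1)) ⊆ F k := by
  have : Gs_CTA F (tt_CTA F x (k + 1)) = Gs_CTA F (tt_CTA F x k) ∩ F k := by
    simp [tt_CTA, Gs_CTA, hx, tt_len_CTA]
  rw [this]
  exact inter_subset_right

open Classical in
/-- the strings converge to the true string -/
theorem tw_conv_CTA (F : ℕ → Set X) (B : Set X) (x : X) (hxB : x ∈ B) (O : ℕ → Set X)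
    (hanti : ∀ l l', l ≤ l' → O l' ⊆ O l) (hx : ∀ l, x ∈ O l)
    (hF : ∀ i, x ∉ F i → ∃ l, O l ∩ B ⊆ (F i)ᶜ) (i : ℕ) :
    ∃ l₀, ∀ l, l₀ ≤ l → tw_CTA F B (O l) i = tt_CTA F x i := by
  induction i with
  | zero => exact ⟨0, fun _ _ => rfl⟩
  | succ i ih =>
    obtain ⟨l₀, hl₀⟩ := ih
    by_cases hb : x ∈ F i
    · refine ⟨l₀, fun l hl => ?_⟩
      have : (O l ∩ B ∩ Gs_CTA F (tw_CTA F B (O l) i) ∩ F i).Nonempty :=
        ⟨x, ⟨⟨hx l, hxB⟩, by rw [hl₀ l hl]; exact tt_mem_CTA F x i⟩, hb⟩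
      have h1 := decide_eq_true this
      have h2 := decide_eq_true hb
      simp only [tw_CTA, tt_CTA]
      rw [h1, h2, hl₀ l hl]
    · obtain ⟨l₁, hl₁⟩ := hF i hb
      refine ⟨max l₀ l₁, fun l hl => ?_⟩
      have : ¬ (O l ∩ B ∩ Gs_CTA F (tw_CTA F B (O l) i) ∩ F i).Nonempty := by
        rintro ⟨y, ⟨⟨hy1, hy2⟩, _⟩, hy3⟩
        exact hl₁ ⟨hanti l₁ l (le_trans (le_max_right _ _) hl) hy1, hy2⟩ hy3
      have h1 := decide_eq_false this
      have h2 := decide_eq_false hb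
      simp only [tw_CTA, tt_CTA]
      rw [h1, h2, hl₀ l (le_trans (le_max_left _ _) hl)]

/-! ### Histories -/

theorem hist_congr_CTA {Y : Type} (s s' : ℕ → Set X × Set Y) (k : ℕ) (h : ∀ i, i < k → s i = s' i) :
    hist s k = hist s' k := by
  induction k with
  | zero => rfl
  | succ k ih =>
    simp only [hist]
    rw [h k (Nat.lt_succ_self k), ih (fun i hi => h i (Nat.lt_succ_of_lt hi))]

theorem hist_len_CTA {Y : Type} (s : ℕ → Set X × Set Y) (k : ℕ) : (hist s k).length = k := by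
  induction k with
  | zero => rfl
  | succ k ih => simp [hist, ih]

theorem legal_down_CTA {Y : Type} (P : Set (Set X)) (A : Set X) (τ' : TopologicalSpace Y) (A' : Set Y)
    (σ : Hist X Y → Set Y) (s : ℕ → Set X × Set Y) (k : ℕ) (h : Legal P A τ' A' σ (hist s k)) :
    ∀ i ≤ k, Legal P A τ' A' σ (hist s i) := by
  induction k with
  | zero => intro i hi; rw [Nat.le_zero.mp hi]; exact h
  | succ k ih =>
    intro i hi
    rcases Nat.lt_or_ge i (k + 1) with hlt | hge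
    · exact ih h.1 i (Nat.lt_succ_iff.mp hlt)
    · have : i = k + 1 := le_antisymm hi hge
      rw [this]; exact h

theorem ans_down_CTA (P : Set (Set X)) (A : Set X) (τ' : TopologicalSpace (Tre A₂)) (A' : Set (Tre A₂))
    (σ : Hist X (Tre A₂) → Set (Tre A₂)) (s : ℕ → Set X × Set (Tre A₂))
    (hm : ∀ mv h, Legal P A τ' A' σ (mv :: h) → σ (mv :: h) ⊆ mv.2 ∩ σ h)
    (k : ℕ) (h : Legal P A τ' A' σ (hist s k)) :
    ∀ i ≤ k, σ (hist s k) ⊆ σ (hist s i) := by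
  induction k with
  | zero => intro i hi; rw [Nat.le_zero.mp hi]
  | succ k ih =>
    intro i hi
    rcases Nat.lt_or_ge i (k + 1) with hlt | hge
    · exact ((hm _ _ h).trans inter_subset_right).trans (ih h.1 i (Nat.lt_succ_iff.mp hlt))
    · have : i = k + 1 := le_antisymm hi hge
      rw [this]

/-! ### The simulation -/

/-- state of the simulation: last real source set, length and entries of the simulated play, real answer -/
structure Sim_CTA (X Y : Type) where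
  O : Set X
  k : ℕ
  s : ℕ → Set X × Set Y
  R : Set Y

/-- acceptable answers -/
def ok_CTA (P2 : Set (Set (Tre A₂))) (τ2 : TopologicalSpace (Tre A₂)) (E U : Set (Tre A₂)) (n : ℕ)
    (Q₁ : Set (Tre A₂)) : Prop :=
  Q₁ ∈ P2 ∧ Q₁ ⊆ U ∧ (∃ z ∈ E, z ∈ Q₁ ∧ Q₁ ⊆ Cyl n z) ∧ Q₁ ⊆ closure[τ2] (Q₁ ∩ E)

open Classical in
/-- number of surviving entries -/
noncomputable def jj_CTA (F : ℕ → Set X) (B : Set X) (st : Sim_CTA X (Tre A₂)) (O : Set X) : ℕ :=
  Nat.findGreatest (fun j => tw_CTA F B st.O j = tw_CTA F B O j) st.k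

/-- new entries -/
noncomputable def ss_CTA (F : ℕ → Set X) (B : Set X) (st : Sim_CTA X (Tre A₂)) (mv : Set X × Set (Tre A₂)) :
    ℕ → Set X × Set (Tre A₂) :=
  Function.update st.s (jj_CTA F B st mv.1)
    (mv.1 ∩ Gs_CTA F (tw_CTA F B mv.1 (jj_CTA F B st mv.1 + 1)), mv.2 ∩ st.R)

open Classical in
/-- one step of the simulation -/
noncomputable def nxt_CTA (F : ℕ → Set X) (B : Set X) (P2 : Set (Set (Tre A₂))) (τ2 : TopologicalSpace (Tre A₂))
    (σp : Hist X (Tre A₂) → Set (Tre A₂)) (H' : Set (Tre A₂)) (st : Sim_CTA X (Tre A₂))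
    (mv : Set X × Set (Tre A₂)) (n : ℕ) : Sim_CTA X (Tre A₂) where
  O := mv.1
  k := jj_CTA F B st mv.1 + 1
  s := ss_CTA F B st mv
  R := if h : ∃ Q₁, ok_CTA P2 τ2 (σp (hist (ss_CTA F B st mv) (jj_CTA F B st mv.1 + 1)) ∩ H') (mv.2 ∩ st.R) n Q₁
    then h.choose else ∅

/-- the run of the simulation -/
noncomputable def run_CTA (F : ℕ → Set X) (B : Set X) (P2 : Set (Set (Tre A₂))) (τ2 : TopologicalSpace (Tre A₂))
    (σp : Hist X (Tre A₂) → Set (Tre A₂)) (H' Q : Set (Tre A₂)) : Hist X (Tre A₂) → Sim_CTA X (Tre A₂)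
  | [] => ⟨univ, 0, fun _ => (univ, univ), Q⟩
  | mv :: h => nxt_CTA F B P2 τ2 σp H' (run_CTA F B P2 τ2 σp H' Q h) mv h.length

/-- invariant -/
structure Inv_CTA (F : ℕ → Set X) (B : Set X) (P1 : Set (Set X)) (P2 : Set (Set (Tre A₂)))
    (τ1 τ2 : TopologicalSpace (Tre A₂)) (σp : Hist X (Tre A₂) → Set (Tre A₂)) (H' A' : Set (Tre A₂))
    (st : Sim_CTA X (Tre A₂)) : Prop where
  leg : Legal P1 B τ1 H' σp (hist st.s st.k)
  R : st.R ∈ P2
  den : A' ∩ st.R ⊆ closure[τ2] (st.R ∩ (σp (hist st.s st.k) ∩ H'))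
  ent : ∀ i, i < st.k → ∃ O', st.O ⊆ O' ∧ (st.s i).1 = O' ∩ Gs_CTA F (tw_CTA F B O' (i + 1)) ∧
    tw_CTA F B O' (i + 1) = tw_CTA F B st.O (i + 1)

theorem jj_spec_CTA (F : ℕ → Set X) (B : Set X) (st : Sim_CTA X (Tre A₂)) (O : Set X) :
    jj_CTA F B st O ≤ st.k ∧ tw_CTA F B st.O (jj_CTA F B st O) = tw_CTA F B O (jj_CTA F B st O) ∧
    ∀ i ≤ st.k, tw_CTA F B st.O i = tw_CTA F B O i → i ≤ jj_CTA F B st O := by
  classical
  refine ⟨Nat.findGreatest_le _, ?_, ?_⟩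
  · unfold jj_CTA
    exact Nat.findGreatest_spec (P := fun j => tw_CTA F B st.O j = tw_CTA F B O j) (Nat.zero_le _) rfl
  · intro i hi h
    unfold jj_CTA
    exact Nat.le_findGreatest hi h

theorem ss_old_CTA (F : ℕ → Set X) (B : Set X) (st : Sim_CTA X (Tre A₂)) (mv : Set X × Set (Tre A₂)) (i : ℕ)
    (hi : i < jj_CTA F B st mv.1) : ss_CTA F B st mv i = st.s i := by
  unfold ss_CTA
  rw [Function.update_of_ne (Nat.ne_of_lt hi)]

theorem ss_new_CTA (F : ℕ → Set X) (B : Set X) (st : Sim_CTA X (Tre A₂)) (mv : Set X × Set (Tre A₂)) :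
    ss_CTA F B st mv (jj_CTA F B st mv.1) =
      (mv.1 ∩ Gs_CTA F (tw_CTA F B mv.1 (jj_CTA F B st mv.1 + 1)), mv.2 ∩ st.R) := by
  unfold ss_CTA
  rw [Function.update_self]

/-- hypotheses of the simulation -/
structure Hyp_CTA (F : ℕ → Set X) (B : Set X) (P1 P2s : Set (Set X)) (P1' P2 : Set (Set (Tre A₂)))
    (τ1 τ2 : TopologicalSpace (Tre A₂)) (σp : Hist X (Tre A₂) → Set (Tre A₂)) (H' A' : Set (Tre A₂)) : Prop where
  u : univ ∈ P1
  i : ∀ C ∈ P1, ∀ C' ∈ P1, C ∩ C' ∈ P1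
  F : ∀ i, F i ∈ P1
  P21 : P2s ⊆ P1
  o21 : ∀ U, IsOpen[τ2] U → IsOpen[τ1] U
  op : ∀ U ∈ P2, IsOpen[τ1] U
  mv : ∀ mv h, Legal P1 B τ1 H' σp (mv :: h) →
    σp (mv :: h) ∈ P1' ∧ σp (mv :: h) ⊆ mv.2 ∩ σp h ∧ (σp (mv :: h) ∩ H').Nonempty
  sh : ∀ E, E ∈ P1' → ∀ z ∈ E ∩ H', ∀ U, IsOpen[τ1] U → z ∈ U → ∀ k : ℕ,
    ∃ Q₁ ∈ P2, z ∈ Q₁ ∧ Q₁ ⊆ U ∧ Q₁ ⊆ Cyl k z ∧ Q₁ ⊆ closure[τ2] (Q₁ ∩ (E ∩ H'))
  HA : H' ⊆ A'

theorem step_CTA (F : ℕ → Set X) (B : Set X) (P1 P2s : Set (Set X)) (P1' P2 : Set (Set (Tre A₂)))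
    (τ1 τ2 : TopologicalSpace (Tre A₂)) (σp : Hist X (Tre A₂) → Set (Tre A₂)) (H' A' : Set (Tre A₂))
    (hy : Hyp_CTA F B P1 P2s P1' P2 τ1 τ2 σp H' A') (st : Sim_CTA X (Tre A₂))
    (hst : Inv_CTA F B P1 P2 τ1 τ2 σp H' A' st) (mv : Set X × Set (Tre A₂)) (n : ℕ)
    (h1 : mv.1 ∈ P2s) (h2 : mv.1 ⊆ st.O) (h3 : (mv.1 ∩ B).Nonempty) (h4 : IsOpen[τ2] mv.2)
    (h5 : (mv.2 ∩ st.R ∩ A').Nonempty) :
    Inv_CTA F B P1 P2 τ1 τ2 σp H' A' (nxt_CTA F B P2 τ2 σp H' st mv n) ∧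
    (nxt_CTA F B P2 τ2 σp H' st mv n).R ⊆ mv.2 ∩ st.R ∧
    ((nxt_CTA F B P2 τ2 σp H' st mv n).R ∩ A').Nonempty ∧
    (∃ z, (nxt_CTA F B P2 τ2 σp H' st mv n).R ⊆ Cyl n z) := by
  classical
  obtain ⟨hj1, hj2, -⟩ := jj_spec_CTA F B st mv.1
  set j := jj_CTA F B st mv.1 with hj
  set s' := ss_CTA F B st mv with hs'
  have hold : ∀ i, i < j → s' i = st.s i := fun i hi => ss_old_CTA F B st mv i hi
  have hnew : s' j = (mv.1 ∩ Gs_CTA F (tw_CTA F B mv.1 (j + 1)), mv.2 ∩ st.R) := ss_new_CTA F B st mv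
  have hhist : hist s' j = hist st.s j := hist_congr_CTA _ _ _ hold
  have hlj : Legal P1 B τ1 H' σp (hist s' j) := by
    rw [hhist]; exact legal_down_CTA _ _ _ _ _ _ _ hst.leg j hj1
  have hans : σp (hist st.s st.k) ⊆ σp (hist s' j) := by
    rw [hhist]
    exact ans_down_CTA P1 B τ1 H' σp st.s (fun mv h hl => (hy.mv mv h hl).2.1) _ hst.leg j hj1
  -- the new simulated move is legal
  have hmeet : (mv.2 ∩ st.R ∩ σp (hist s' j) ∩ H').Nonempty := by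
    obtain ⟨y, ⟨hy1, hy2⟩, hy3⟩ := h5
    have hcl := hst.den ⟨hy3, hy2⟩
    rw [@mem_closure_iff _ τ2] at hcl
    obtain ⟨w, hw1, hw2, hw3, hw4⟩ := hcl mv.2 h4 hy1
    exact ⟨w, ⟨⟨hw1, hw2⟩, hans hw3⟩, hw4⟩
  have hlast : mv.1 ∩ Gs_CTA F (tw_CTA F B mv.1 (j + 1)) ⊆ lastO (hist s' j) := by
    rcases Nat.eq_zero_or_pos j with h0 | hpos
    · rw [h0]; exact subset_univ _
    · obtain ⟨i, hi⟩ := Nat.exists_eq_succ_of_ne_zero (Nat.pos_iff_ne_zero.mp hpos)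
      have hij : i < j := by omega
      obtain ⟨O', hO1, hO2, hO3⟩ := hst.ent i (lt_of_lt_of_le hij hj1)
      have : lastO (hist s' j) = (s' i).1 := by rw [hi]; rfl
      rw [this, hold i hij, hO2, hO3]
      have e1 : tw_CTA F B st.O (i + 1) = tw_CTA F B mv.1 (i + 1) := by
        have := hj2
        rw [hi] at this
        exact this
      rw [e1]
      refine inter_subset_inter (h2.trans hO1) ?_
      rw [hi]
      exact Gs_cons_sub_CTA F _ _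
  have hleg : Legal P1 B τ1 H' σp (hist s' (j + 1)) := by
    refine ⟨hlj, ?_, ?_, ?_, ?_, ?_⟩
    · rw [hnew]; exact hy.i _ (hy.P21 h1) _ (Gs_mem_CTA F P1 hy.u hy.i hy.F _)
    · rw [hnew]; exact hlast
    · rw [hnew]
      have := tw_ne_CTA F B mv.1 h3 (j + 1)
      obtain ⟨x, ⟨hx1, hx2⟩, hx3⟩ := this
      exact ⟨x, ⟨hx1, hx3⟩, hx2⟩
    · rw [hnew]
      exact @IsOpen.inter _ τ1 _ _ (hy.o21 _ h4) (hy.op _ hst.R)
    · rw [hnew]; exact hmeet
  obtain ⟨hm1, hm2, hm3⟩ := hy.mv _ _ hleg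
  have hex : ∃ Q₁, ok_CTA P2 τ2 (σp (hist s' (j + 1)) ∩ H') (mv.2 ∩ st.R) n Q₁ := by
    obtain ⟨z, hz1, hz2⟩ := hm3
    have hzU : z ∈ mv.2 ∩ st.R := by
      have := (hm2 hz1).1
      rw [hnew] at this
      exact this
    obtain ⟨Q₁, hQ1, hQ2, hQ3, hQ4, hQ5⟩ := hy.sh _ hm1 z ⟨hz1, hz2⟩ (mv.2 ∩ st.R)
      (@IsOpen.inter _ τ1 _ _ (hy.o21 _ h4) (hy.op _ hst.R)) hzU n
    exact ⟨Q₁, hQ1, hQ3, ⟨z, ⟨hz1, hz2⟩, hQ2, hQ4⟩, hQ5⟩
  have hR : ok_CTA P2 τ2 (σp (hist s' (j + 1)) ∩ H') (mv.2 ∩ st.R) n (nxt_CTA F B P2 τ2 σp H' st mv n).R := by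
    have : (nxt_CTA F B P2 τ2 σp H' st mv n).R = hex.choose := by
      unfold nxt_CTA
      simp only
      rw [dif_pos hex]
    rw [this]
    exact hex.choose_spec
  obtain ⟨hR1, hR2, ⟨z, hz, hzR, hzC⟩, hR4⟩ := hR
  refine ⟨⟨hleg, hR1, ?_, ?_⟩, hR2, ⟨z, hzR, hy.HA hz.2⟩, ⟨z, hzC⟩⟩
  · exact inter_subset_right.trans hR4
  · intro i hi
    have hi' : i < j + 1 := hi
    rcases Nat.lt_or_ge i j with hlt | hge
    · obtain ⟨O', hO1, hO2, hO3⟩ := hst.ent i (lt_of_lt_of_le hlt hj1)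
      refine ⟨O', h2.trans hO1, ?_, ?_⟩
      · have : (nxt_CTA F B P2 τ2 σp H' st mv n).s i = st.s i := hold i hlt
        rw [this]; exact hO2
      · rw [hO3]
        exact tw_down_CTA F B _ _ j hj2 (i + 1) hlt
    · have hij : i = j := by omega
      subst hij
      refine ⟨mv.1, Subset.rfl, ?_, rfl⟩
      have : (nxt_CTA F B P2 τ2 σp H' st mv n).s j = _ := hnew
      rw [this]

theorem inv_CTA (F : ℕ → Set X) (B : Set X) (P1 P2s : Set (Set X)) (P1' P2 : Set (Set (Tre A₂)))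
    (τ1 τ2 : TopologicalSpace (Tre A₂)) (σp : Hist X (Tre A₂) → Set (Tre A₂)) (H' A' Q : Set (Tre A₂))
    (hy : Hyp_CTA F B P1 P2s P1' P2 τ1 τ2 σp H' A') (hσ : σp [] = Q) (hQ : Q ∈ P2)
    (hd : A' ∩ Q ⊆ closure[τ2] (Q ∩ H')) (h : Hist X (Tre A₂))
    (hl : Legal P2s B τ2 A' (fun h => (run_CTA F B P2 τ2 σp H' Q h).R) h) :
    (run_CTA F B P2 τ2 σp H' Q h).O = lastO h ∧
    Inv_CTA F B P1 P2 τ1 τ2 σp H' A' (run_CTA F B P2 τ2 σp H' Q h) := by
  induction h with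
  | nil =>
    refine ⟨rfl, trivial, hQ, ?_, ?_⟩
    · change A' ∩ Q ⊆ closure[τ2] (Q ∩ (σp [] ∩ H'))
      rw [hσ, ← inter_assoc, inter_self]
      exact hd
    · intro i hi
      exact absurd hi (Nat.not_lt_zero _)
  | cons mv h ih =>
    obtain ⟨hl0, hl1, hl2, hl3, hl4, hl5⟩ := hl
    obtain ⟨ih1, ih2⟩ := ih hl0
    refine ⟨rfl, ?_⟩
    exact (step_CTA F B P1 P2s P1' P2 τ1 τ2 σp H' A' hy _ ih2 mv h.length hl1 (by rw [ih1]; exact hl2) hl3 hl4 hl5).1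

theorem lim_CTA (F : ℕ → Set X) (B : Set X) (P1 P2s : Set (Set X)) (P1' P2 : Set (Set (Tre A₂)))
    (τM : TopologicalSpace X) (f : X → Bool) (f' : Tre A₂ → Bool)
    (τ1 τ2 : TopologicalSpace (Tre A₂)) (σp : Hist X (Tre A₂) → Set (Tre A₂)) (H' A' Q : Set (Tre A₂))
    (hy : Hyp_CTA F B P1 P2s P1' P2 τ1 τ2 σp H' A') (hσ : σp [] = Q) (hQ : Q ∈ P2)
    (hd : A' ∩ Q ⊆ closure[τ2] (Q ∩ H'))
    (p : ℕ → Set X × Set (Tre A₂))
    (hp : ∀ l, Legal P2s B τ2 A' (fun h => (run_CTA F B P2 τ2 σp H' Q h).R) (hist p l))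
    (x : X) (hxB : x ∈ B) (hx : ∀ l, x ∈ (p l).1)
    (hFc : ∀ i, x ∉ F i → ∃ l, (p l).1 ∩ B ⊆ (F i)ᶜ)
    (hbas : ∀ U, IsOpen[τM] U → x ∈ U → ∃ i, x ∈ F i ∧ F i ⊆ U)
    (hlim : ∀ q : ℕ → Set X × Set (Tre A₂), (∀ i, Legal P1 B τ1 H' σp (hist q i)) → ∀ x ∈ B, (∀ i, x ∈ (q i).1) →
      (∀ U, IsOpen[τM] U → x ∈ U → ∃ i, (q i).1 ∩ B ⊆ U) →
      ∃ x' ∈ H', (∀ i, x' ∈ σp (hist q i)) ∧ f' x' = f x ∧ ∀ k, ∃ l, σp (hist q l) ⊆ Cyl k x') :
    ∃ x' ∈ A', (∀ l, x' ∈ (run_CTA F B P2 τ2 σp H' Q (hist p l)).R) ∧ f' x' = f x ∧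
      ∀ k, ∃ l, (run_CTA F B P2 τ2 σp H' Q (hist p l)).R ⊆ Cyl k x' := by
  classical
  set st : ℕ → Sim_CTA X (Tre A₂) := fun l => run_CTA F B P2 τ2 σp H' Q (hist p l) with hst
  have hinv : ∀ l, (st l).O = lastO (hist p l) ∧ Inv_CTA F B P1 P2 τ1 τ2 σp H' A' (st l) :=
    fun l => inv_CTA F B P1 P2s P1' P2 τ1 τ2 σp H' A' Q hy hσ hQ hd (hist p l) (hp l)
  have ha : ∀ l, st (l + 1) = nxt_CTA F B P2 τ2 σp H' (st l) (p l) l := by
    intro l
    change nxt_CTA F B P2 τ2 σp H' (st l) (p l) (hist p l).length = _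
    rw [hist_len_CTA]
  have hO : ∀ l, (st (l + 1)).O = (p l).1 := fun l => by rw [ha]; rfl
  have hk : ∀ l, (st (l + 1)).k = jj_CTA F B (st l) (p l).1 + 1 := fun l => by rw [ha]; rfl
  have hs : ∀ l, (st (l + 1)).s = ss_CTA F B (st l) (p l) := fun l => by rw [ha]; rfl
  have hanti1 : ∀ l, (p (l + 1)).1 ⊆ (p l).1 := fun l => (hp (l + 2)).2.2.1
  have hanti : ∀ l l', l ≤ l' → (p l').1 ⊆ (p l).1 := by
    intro l l' h
    induction l', h using Nat.le_induction with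
    | base => exact Subset.rfl
    | succ m _ ih => exact (hanti1 m).trans ih
  have hstep : ∀ l, (st (l + 1)).R ⊆ (p l).2 ∩ (st l).R ∧ ∃ z, (st (l + 1)).R ⊆ Cyl l z := by
    intro l
    obtain ⟨-, h1, h2, h3, h4, h5⟩ := hp (l + 1)
    have := step_CTA F B P1 P2s P1' P2 τ1 τ2 σp H' A' hy (st l) (hinv l).2 (p l) l h1
      (by rw [(hinv l).1]; exact h2) h3 h4 h5
    rw [ha]
    exact ⟨this.2.1, this.2.2.2⟩
  have hRanti : ∀ l l', l ≤ l' → (st l').R ⊆ (st l).R := by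
    intro l l' h
    induction l', h using Nat.le_induction with
    | base => exact Subset.rfl
    | succ m _ ih => exact ((hstep m).1.trans inter_subset_right).trans ih
  have hkl : ∀ l, (st l).k ≤ l := by
    intro l
    induction l with
    | zero => exact le_refl 0
    | succ l ih =>
      rw [hk]
      have := (jj_spec_CTA F B (st l) (p l).1).1
      omega
  -- entries
  have hent : ∀ l i, i < (st l).k → ∃ l', i ≤ l' ∧
      (st l).s i = ((p l').1 ∩ Gs_CTA F (tw_CTA F B (p l').1 (i + 1)), (p l').2 ∩ (st l').R) ∧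
      tw_CTA F B (p l').1 (i + 1) = tw_CTA F B (st l).O (i + 1) := by
    intro l
    induction l with
    | zero => intro i hi; exact absurd hi (Nat.not_lt_zero _)
    | succ l ih =>
      intro i hi
      rw [hk] at hi
      obtain ⟨hj1, hj2, -⟩ := jj_spec_CTA F B (st l) (p l).1
      rcases Nat.lt_or_ge i (jj_CTA F B (st l) (p l).1) with hlt | hge
      · obtain ⟨l', h1, h2, h3⟩ := ih i (lt_of_lt_of_le hlt hj1)
        refine ⟨l', h1, ?_, ?_⟩
        · rw [hs, ss_old_CTA F B (st l) (p l) i hlt]; exact h2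
        · rw [h3, hO]; exact tw_down_CTA F B _ _ _ hj2 (i + 1) hlt
      · have hij : i = jj_CTA F B (st l) (p l).1 := by omega
        refine ⟨l, ?_, ?_, ?_⟩
        · rw [hij]; exact hj1.trans (hkl l)
        · rw [hs]
          conv_lhs => rw [hij]
          rw [ss_new_CTA, ← hij]
        · rw [hO]
  have hconv := fun i => tw_conv_CTA F B x hxB (fun l => (p l).1) hanti hx hFc i
  have hlarge : ∀ i, ∃ l₁, ∀ l, l₁ ≤ l → i ≤ (st l).k ∧ tw_CTA F B (st l).O i = tt_CTA F x i := by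
    intro i
    obtain ⟨l₀, hl₀⟩ := hconv i
    have hOi : ∀ l, l₀ + 1 ≤ l → tw_CTA F B (st l).O i = tt_CTA F x i := by
      intro l hl
      obtain ⟨m, rfl⟩ : ∃ m, l = m + 1 := ⟨l - 1, by omega⟩
      rw [hO]
      exact hl₀ m (by omega)
    have hgrow : ∀ t, min (i + 1) t ≤ (st (l₀ + 1 + t)).k := by
      intro t
      induction t with
      | zero => simp
      | succ t ih =>
        have e : l₀ + 1 + (t + 1) = (l₀ + 1 + t) + 1 := by omega
        rw [e, hk]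
        obtain ⟨-, -, hj3⟩ := jj_spec_CTA F B (st (l₀ + 1 + t)) (p (l₀ + 1 + t)).1
        have h1 : tw_CTA F B (st (l₀ + 1 + t)).O i = tw_CTA F B (p (l₀ + 1 + t)).1 i := by
          rw [hOi _ (by omega)]
          exact (hl₀ _ (by omega)).symm
        have h2 := tw_down_CTA F B _ _ _ h1 (min i (st (l₀ + 1 + t)).k) (min_le_left _ _)
        have h3 := hj3 _ (min_le_right _ _) h2
        omega
    refine ⟨l₀ + 1 + i, fun l hl => ⟨?_, hOi l (by omega)⟩⟩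
    have := hgrow (l - (l₀ + 1))
    have e : l₀ + 1 + (l - (l₀ + 1)) = l := by omega
    rw [e] at this
    omega
  have hstab : ∀ i, ∃ e : Set X × Set (Tre A₂), ∃ l₂, ∀ l, l₂ ≤ l → i < (st l).k ∧ (st l).s i = e ∧
      tw_CTA F B (st l).O (i + 1) = tt_CTA F x (i + 1) := by
    intro i
    obtain ⟨l₁, hl₁⟩ := hlarge (i + 1)
    refine ⟨(st l₁).s i, l₁, fun l hl => ?_⟩
    refine ⟨(hl₁ l hl).1, ?_, (hl₁ l hl).2⟩
    induction l, hl using Nat.le_induction with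
    | base => rfl
    | succ m hm ih =>
      rw [← ih, hs]
      refine ss_old_CTA F B (st m) (p m) i ?_
      obtain ⟨-, -, hj3⟩ := jj_spec_CTA F B (st m) (p m).1
      refine hj3 (i + 1) (hl₁ m hm).1 ?_
      rw [(hl₁ m hm).2, ← hO, (hl₁ (m + 1) (by omega)).2]
  choose q l₂ hq using hstab
  have hhist : ∀ i, ∃ l₃, ∀ l, l₃ ≤ l → hist q i = hist (st l).s i := by
    intro i
    induction i with
    | zero => exact ⟨0, fun _ _ => rfl⟩
    | succ i ih =>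
      obtain ⟨l₃, hl₃⟩ := ih
      refine ⟨max l₃ (l₂ i), fun l hl => ?_⟩
      simp only [hist]
      rw [hl₃ l (le_trans (le_max_left _ _) hl), (hq i l (le_trans (le_max_right _ _) hl)).2.1]
  have hleg : ∀ i, Legal P1 B τ1 H' σp (hist q i) := by
    intro i
    obtain ⟨l₃, hl₃⟩ := hhist i
    obtain ⟨l₁, hl₁⟩ := hlarge i
    have h1 := hl₃ (max l₃ l₁) (le_max_left _ _)
    have h2 := (hl₁ (max l₃ l₁) (le_max_right _ _)).1
    rw [h1]
    exact legal_down_CTA _ _ _ _ _ _ _ (hinv _).2.leg i h2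
  have hqe : ∀ i, ∃ l', i ≤ l' ∧ q i = ((p l').1 ∩ Gs_CTA F (tt_CTA F x (i + 1)), (p l').2 ∩ (st l').R) := by
    intro i
    obtain ⟨h1, h2, h3⟩ := hq i (l₂ i) (le_refl _)
    obtain ⟨l', h4, h5, h6⟩ := hent (l₂ i) i h1
    refine ⟨l', h4, ?_⟩
    rw [← h2, h5, h6, h3]
  have hxq : ∀ i, x ∈ (q i).1 := by
    intro i
    obtain ⟨l', -, h⟩ := hqe i
    rw [h]
    exact ⟨hx l', tt_mem_CTA F x (i + 1)⟩
  have hcv : ∀ U, IsOpen[τM] U → x ∈ U → ∃ i, (q i).1 ∩ B ⊆ U := by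
    intro U hU hxU
    obtain ⟨i, hi1, hi2⟩ := hbas U hU hxU
    refine ⟨i, ?_⟩
    obtain ⟨l', -, h⟩ := hqe i
    rw [h]
    exact (inter_subset_left.trans inter_subset_right).trans ((tt_sub_CTA F x i hi1).trans hi2)
  obtain ⟨x', hx'H, hx'σ, hx'f, -⟩ := hlim q hleg x hxB hxq hcv
  have hx'R : ∀ l, x' ∈ (st l).R := by
    intro l
    obtain ⟨l', hl', h⟩ := hqe l
    have h1 := (hy.mv _ _ (hleg (l + 1))).2.1 (hx'σ (l + 1))
    have h2 : x' ∈ (q l).2 := h1.1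
    rw [h] at h2
    exact hRanti l l' hl' h2.2
  refine ⟨x', hy.HA hx'H, hx'R, hx'f, fun k => ⟨k + 1, ?_⟩⟩
  obtain ⟨z, hz⟩ := (hstep k).2
  intro y hy' u hu
  have h1 := hz hy' u hu
  have h2 := hz (hx'R (k + 1)) u hu
  rw [h1, h2]

end CTA

theorem hCTA (hSH : StSH) : StCTA := by
  intro X A₂ n τ P f τ' P' f' hr hr' M hM B hB A' hA' H' hH' Q hQ hHA hd hW
  obtain ⟨σp, hσ0, hσ⟩ := hW
  obtain ⟨F, hF⟩ : ∃ F : ℕ → Set X, P (M + 1) = range F :=
    (hr.cnt (M + 1)).exists_eq_range ⟨_, hr.univ (M + 1)⟩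
  have hPd : ∀ m, P' m ⊆ P' 0 := by
    intro m
    induction m with
    | zero => exact Subset.rfl
    | succ m ih => exact (hr'.rich.anti m).trans ih
  have hy : Hyp_CTA F B (P (M + 1)) (P (M + 2)) (P' (M + 1)) (P' (M + 2)) (τ' (M + 1)) (τ' (M + 2)) σp H' A' := by
    refine ⟨hr.univ _, hr.inter _, fun i => by rw [hF]; exact mem_range_self i, hr.anti _,
      fun U hU => hr'.rich.tow.mono (M + 1) U hU, fun U hU => hr'.rich.op (M + 1) hM U hU,
      hσ.move, ?_, hHA⟩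
    intro E hE z hz U hU hzU k
    exact hSH A₂ n τ' P' f' hr' (M + 1) hM (E ∩ H')
      (hPd (M + 1) (hr'.rich.inter _ _ hE _ hH')) z hz U hU hzU k
  refine ⟨fun h => (run_CTA F B (P' (M + 2)) (τ' (M + 2)) σp H' Q h).R, rfl, ⟨?_, ?_⟩, ?_⟩
  · intro mv h hl
    obtain ⟨hl0, h1, h2, h3, h4, h5⟩ := hl
    obtain ⟨i1, i2⟩ := inv_CTA F B _ _ _ _ _ _ σp H' A' Q hy hσ0 hQ hd h hl0
    have := step_CTA F B _ _ _ _ _ _ σp H' A' hy _ i2 mv h.length h1 (by rw [i1]; exact h2) h3 h4 h5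
    exact ⟨this.1.R, this.2.1, this.2.2.1⟩
  · intro p hp x hxB hx hU
    refine lim_CTA F B _ _ _ _ (τ M) f f' _ _ σp H' A' Q hy hσ0 hQ hd p hp x hxB hx ?_ ?_ hσ.lim
    · intro i hi
      refine hU (F i)ᶜ ?_ hi
      have : F i ∈ P (M + 1) := by rw [hF]; exact mem_range_self i
      exact (hr.cl (M + 1) hM _ this).isOpen_compl
    · intro U hU hxU
      obtain ⟨O, hO1, hO2, hO3⟩ := hr.basis M (by omega) x U hU hxU
      rw [hF] at hO1
      obtain ⟨i, rfl⟩ := hO1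
      exact ⟨i, hO2, hO3⟩
  · intro h hl
    obtain ⟨-, i2⟩ := inv_CTA F B _ _ _ _ _ _ σp H' A' Q hy hσ0 hQ hd h hl
    refine i2.den.trans ?_
    refine @closure_mono _ (τ' (M + 2)) _ _ ?_
    exact inter_subset_inter Subset.rfl inter_subset_right

end Pool.Agent.Helper24.WH

end

section

/-!
# Module CTI of project WH: the comparison theorem
-/

set_option autoImplicit false

namespace Pool.Agent.Helper24.WH

open Set TopologicalSpace Topology
open Ordinal hiding univ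

theorem hCTI (HC0 : StC0) (HCTA : StCTA) (HCTB : StCTB) (HHC : StHC) (HRA : StRA) (HCB : StCB) (HUZ : StUZ)
    (HCA : StCA) : StCTI := by
  intro X A₂ n τ P f τ' P' f' R R' M
  induction M with
  | zero =>
    intro _ r s _ _ A hA A' hA' Q hQ hZ hQ2
    refine HC0 X A₂ n τ P f τ' P' f' R R' s A hA A' hA' Q hQ ?_ ?_
    · intro x hx
      by_contra hne
      have h1 : f x = !s := by
        cases hfx : f x <;> cases s <;> simp_all
      have h2 : x ∈ Zo τ f 0 r (!s) A := by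
        rw [(HUZ X τ f).2.2.1]
        exact ⟨hx, h1⟩
      rw [hZ] at h2
      exact h2
    · have h1 := (HUZ (Tre A₂) τ' f').2.2.1 r s A'
      rw [h1] at hQ2
      exact hQ2
  | succ M ih =>
    intro hM r
    have hwfo := (HCB (M + 1)).2.2.2.2.2.2.2.2.2.2
    -- well founded induction on `r`
    suffices H : ∀ r : {c : Cd (M + 1) // Cd.wf (M + 1) c}, ∀ s : Bool, Cd.vd (M + 1) r.1 →
        ∀ A ∈ P (M + 1), ∀ A' ∈ P' (M + 1), ∀ Q ∈ P' (M + 1 + 1), Zo τ f (M + 1) r.1 (!s) A = ∅ →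
        A' ∩ Q ⊆ closure[τ' (M + 1 + 1)] (Q ∩ Zo τ' f' (M + 1) r.1 s A') →
        WinG τ P f τ' P' f' (M + 1) A A' Q by
      intro s hw hv A hA A' hA' Q hQ hZ hQ2
      exact H ⟨r, hw⟩ s hv A hA A' hA' Q hQ hZ hQ2
    intro r
    induction r using hwfo.induction with
    | _ r IH =>
    obtain ⟨r, hw⟩ := r
    intro s hv A hA A' hA' Q hQ hZ hQ2
    obtain ⟨l₀, ρ', hr, hρv⟩ := hv
    have hre : r = Cd.ext (Cd.of l₀) ρ' 0 := hr
    have hv' : Cd.vd (M + 1) r := ⟨l₀, ρ', hr, hρv⟩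
    have hCAM := HCA M
    have hext := hCAM.2.2.2.2.2.1 (Cd.of l₀) ρ' 0 (by rw [← hre]; exact hw)
    obtain ⟨hγw, hρw, hρb, hγr⟩ := hext
    rw [← hre] at hγr
    set γ : Cd (M + 1) := Cd.of l₀ with hγ
    have hB : Vo τ f (M + 1) γ A ∈ P (M + 1) := R.VP (M + 1) hM γ hγw A hA
    have hUZ := (HUZ X τ f).2.2.2.2.2.2.2.2 M γ ρ' 0 (!s) A
    have hUZ' := (HUZ (Tre A₂) τ' f').2.2.2.2.2.2.2.2 M γ ρ' 0 s A'
    rw [← hre] at hUZ hUZ'
    -- the source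
    have hZB : Zo τ f M ρ' (!s) (Vo τ f (M + 1) γ A) = ∅ := by
      have h1 := HHC X n τ P f R M hM ρ' hρw hρv (!s) _ hB
      rw [← hUZ] at h1
      change Zo τ f (M + 1) r (!s) A = ∅ at hZ
      rw [hZ] at h1
      rw [← Set.subset_empty_iff, h1]
      exact @subset_closure X (τ (M + 1)) _
    -- the target
    have hH' : Zo τ' f' (M + 1) r s A' ∈ P' (M + 1) := R'.rich.ZP (M + 1) hM r hw hv' s A' hA'
    have hH'A : Zo τ' f' (M + 1) r s A' ⊆ A' := (HRA (Tre A₂) τ' f' (M + 1)).2.2.2.1 r s A'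
    have hcl : Zo τ' f' (M + 1) r s A' ⊆
        closure[τ' (M + 1)] (Zo τ' f' M ρ' s (Zo τ' f' (M + 1) r s A')) := by
      have h1 := (HRA (Tre A₂) τ' f' M).2.2.2.2.2.2.2.2.2.2.2.1 ρ' s (Vo τ' f' (M + 1) γ A') hρw hρv
      rw [← hUZ'] at h1
      exact h1
    have hQM : Q ∈ P' (M + 1) := R'.rich.anti (M + 1) hQ
    have hQo : IsOpen[τ' (M + 1)] Q := R'.rich.op (M + 1) hM Q hQ
    have hwin : WinG τ P f τ' P' f' M (Vo τ f (M + 1) γ A) (Zo τ' f' (M + 1) r s A') Q := by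
      refine ih (by omega) ρ' s hρw hρv _ (R.anti M hB) _ (R'.rich.anti M hH') Q hQM hZB ?_
      rintro x ⟨hx1, hx2⟩
      have hx3 := hcl hx1
      rw [@mem_closure_iff _ (τ' (M + 1))] at hx3 ⊢
      intro o ho hxo
      obtain ⟨y, hy1, hy2⟩ := hx3 (o ∩ Q) (@IsOpen.inter _ (τ' (M + 1)) _ _ ho hQo) ⟨hxo, hx2⟩
      exact ⟨y, hy1.1, hy1.2, hy2⟩
    have hcta := HCTA X A₂ n τ P f τ' P' f' R R' M hM _ hB A' hA' _ hH' Q hQ hH'A hQ2 hwin
    refine HCTB X A₂ n τ P f τ' P' f' R R' M hM A hA A' hA' _ hH' Q hQ γ r hγw hw hγr hH'A hQ2 hcta ?_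
    intro r₁ s₁ hw₁ hv₁ hr₁ O hO Q₁ hQ₁ hZ₁ hQ₁2
    refine IH ⟨r₁, hw₁⟩ hr₁ s₁ hv₁ (A ∩ O) (R.inter (M + 1) A hA O (R.anti (M + 1) hO)) A' hA' Q₁ hQ₁ hZ₁ ?_
    refine hQ₁2.trans ?_
    apply @closure_mono _ (τ' (M + 1 + 1))
    apply Set.inter_subset_inter_right
    exact (HRA (Tre A₂) τ' f' (M + 1)).2.2.2.2.2.2.2.2.2.2.2.2.2 r₁ r s₁ s A' hw₁ hv₁ hw hv' hr₁

end Pool.Agent.Helper24.WH

end

section

/-!
# Project WH, module DC
-/

set_option autoImplicit false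

namespace Pool.Agent.Helper24.WH

open Set TopologicalSpace Topology
open Ordinal hiding univ

theorem hDC (hCM : StCM) (hRA : StRA) : StDC := by
  intro A₁ A₂ _ _ _ _ f f' n r r' sd sd' d d' hr
  obtain ⟨τ, P, hR, hτ, hV, hZ⟩ := d.ex
  obtain ⟨τ', P', hR', hτ', hV', hZ'⟩ := d'.ex
  obtain ⟨s', hs'⟩ := d'.side
  rcases hr with hr | ⟨rfl, hsd⟩
  · obtain ⟨-, -, -, -, -, -, -, ha, hb, -, -, -, -, -⟩ := hRA (Tre A₁) τ f n
    refine hCM A₁ A₂ n τ P f τ' P' f' hR hR' hτ hτ' r' d'.wf d'.vd ?_ ⟨s', (hZ' s').1 hs'⟩ ?_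
    · exact subset_empty_iff.1 ((ha r r' univ d.wf d'.wf hr.le).trans hV.le)
    · intro s hs
      have h := (hb r' r s univ d'.wf d'.vd d.wf hr).trans hV.le
      rw [subset_empty_iff.1 h] at hs
      exact absurd hs Set.not_nonempty_empty
  · exact hCM A₁ A₂ n τ P f τ' P' f' hR hR' hτ hτ' r d.wf d.vd hV ⟨s', (hZ' s').1 hs'⟩
      fun s hs => (hZ' s).1 (hsd s ((hZ s).2 hs))

end Pool.Agent.Helper24.WH

end

section

set_option autoImplicit false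

namespace Pool.Agent.Helper24.WH

open Set TopologicalSpace Topology
open Ordinal hiding univ

/-- player I plays the cylinders around `x` -/
private def pl_RE {A₁ : Type} (Y : Type) (x : Tre A₁) (l : ℕ) : Set (Tre A₁) × Set Y := (Cyl l x, univ)

private theorem anti_RE {A : Type} (x : Tre A) {j l : ℕ} (h : j ≤ l) : Cyl l x ⊆ Cyl j x :=
  fun _ ht u hu => ht u (hu.trans_le h)

private theorem self_RE {A : Type} (x : Tre A) (l : ℕ) : x ∈ Cyl l x := fun _ _ => rfl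

private theorem eq_RE {A : Type} {x y : Tre A} {j l : ℕ} (h : j ≤ l) (hy : y ∈ Cyl l x) :
    Cyl j y = Cyl j x := by
  have h1 : ∀ u : List Bool, u.length < j → y u = x u := fun u hu => hy u (hu.trans_le h)
  ext t
  constructor
  · intro ht u hu
    rw [ht u hu, h1 u hu]
  · intro ht u hu
    rw [ht u hu, h1 u hu]

private theorem hist_RE {A₁ Y : Type} {x y : Tre A₁} {l : ℕ} (hy : y ∈ Cyl l x) :
    ∀ j, j ≤ l → hist (pl_RE Y y) j = hist (pl_RE Y x) j := by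
  intro j
  induction j with
  | zero => intro _; rfl
  | succ j ih =>
    intro hj
    show pl_RE Y y j :: hist (pl_RE Y y) j = pl_RE Y x j :: hist (pl_RE Y x) j
    rw [ih (by omega)]
    congr 1
    unfold pl_RE
    rw [eq_RE (by omega : j ≤ l) hy]

private theorem nbhd_RE {A : Type} (U : Set (Tre A)) (hU : IsOpen[pT A] U) (x : Tre A) (hx : x ∈ U) :
    ∃ l, Cyl l x ⊆ U := by
  obtain ⟨I, u, h1, h2⟩ := (@isOpen_pi_iff (List Bool) (fun _ => A) (fun _ => ⊥) U).1 hU x hx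
  refine ⟨I.sup List.length + 1, fun t ht => h2 ?_⟩
  intro i hi
  have h3 : t i = x i := ht i (Nat.lt_succ_of_le (Finset.le_sup (f := List.length) hi))
  rw [h3]
  exact (h1 i hi).2

theorem hRE : StRE := by
  intro A₁ A₂ _ _ _ n τ P f τ' P' f' hR hR' hτ hτ' A hA hW
  classical
  obtain ⟨σ, hσ0, hw⟩ := hW
  have hleg : ∀ x ∈ A, ∀ l, Legal (P (n + 1)) A (τ' (n + 1)) univ σ (hist (pl_RE (Tre A₂) x) l) ∧
      (σ (hist (pl_RE (Tre A₂) x) l)).Nonempty := by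
    intro x hx l
    induction l with
    | zero =>
      refine ⟨trivial, ?_⟩
      show (σ []).Nonempty
      rw [hσ0]
      exact ⟨fun _ => Classical.arbitrary A₂, mem_univ _⟩
    | succ l ih =>
      have h1 : Legal (P (n + 1)) A (τ' (n + 1)) univ σ (pl_RE (Tre A₂) x l :: hist (pl_RE (Tre A₂) x) l) := by
        refine ⟨ih.1, hR.cyl _ _ _, ?_, ⟨x, self_RE x l, hx⟩, @isOpen_univ _ (τ' (n + 1)), ?_⟩
        · cases l with
          | zero => exact subset_univ _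
          | succ l => exact anti_RE x (Nat.le_succ l)
        · obtain ⟨y, hy⟩ := ih.2
          exact ⟨y, ⟨mem_univ _, hy⟩, mem_univ _⟩
      refine ⟨h1, ?_⟩
      obtain ⟨y, hy⟩ := (hw.move _ _ h1).2.2
      exact ⟨y, hy.1⟩
  have hlim : ∀ x ∈ A, ∃ x' : Tre A₂, (∀ l, x' ∈ σ (hist (pl_RE (Tre A₂) x) l)) ∧ f' x' = f x ∧
      ∀ k, ∃ l, σ (hist (pl_RE (Tre A₂) x) l) ⊆ Cyl k x' := by
    intro x hx
    obtain ⟨x', -, h1⟩ := hw.lim (pl_RE (Tre A₂) x) (fun l => (hleg x hx l).1) x hx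
      (fun l => self_RE x l) (by
        intro U hU hxU
        rw [hτ] at hU
        obtain ⟨l, hl⟩ := nbhd_RE U hU x hxU
        exact ⟨l, fun y hy => hl hy.1⟩)
    exact ⟨x', h1⟩
  haveI : Nonempty (Tre A₂) := ⟨fun _ => Classical.arbitrary A₂⟩
  choose! φ hφ1 hφ2 hφ3 using hlim
  refine ⟨φ, hφ2, ?_⟩
  intro x hx k
  obtain ⟨l, hl⟩ := hφ3 x hx k
  refine ⟨l, fun y hy hyl => hl ?_⟩
  rw [← hist_RE hyl l le_rfl]
  exact hφ1 y hy l

end Pool.Agent.Helper24.WH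

end

section

/-!
# PROJECT WH (MP_76577a_lc), module SH : the shrinking lemma
-/

set_option autoImplicit false

namespace Pool.Agent.Helper24.WH

open Set TopologicalSpace Topology

private lemma anti_SH {X : Type} {P : ℕ → Set (Set X)} (h : ∀ M, P (M + 1) ⊆ P M) :
    ∀ M, P M ⊆ P 0 := by
  intro M
  induction M with
  | zero => exact le_rfl
  | succ M ih => exact (h M).trans ih

theorem hSH : StSH := by
  intro A₂ n τ' P' f' hT j hj E hE z hz U hU hzU k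
  have hR := hT.rich
  obtain ⟨O, hO, hzO, hOU⟩ := hR.basis j hj z U hU hzU
  have hzC : z ∈ Cyl k z := fun u _ => rfl
  set R : Set (Tre A₂) := O ∩ Cyl k z with hRdef
  have hRP : R ∈ P' (j + 1) := hR.inter (j + 1) O hO _ (hT.cyl (j + 1) k z)
  have hzR : z ∈ R := ⟨hzO, hzC⟩
  have hRE : R ∩ E ∈ P' 0 := hR.inter 0 R (anti_SH hR.anti _ hRP) E hE
  have hcl : closure[τ' (j + 1)] (R ∩ E) ∈ P' (j + 1) := hR.clo (j + 1) (by omega) _ hRE
  have hsub : R ∩ E ⊆ closure[τ' (j + 1)] (R ∩ E) := @subset_closure _ (τ' (j + 1)) _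
  refine ⟨R ∩ closure[τ' (j + 1)] (R ∩ E), hR.inter (j + 1) R hRP _ hcl, ⟨hzR, hsub ⟨hzR, hz⟩⟩,
    fun x hx => hOU hx.1.1, fun x hx => hx.1.2, fun x hx => ?_⟩
  have hm : R ∩ E ⊆ R ∩ closure[τ' (j + 1)] (R ∩ E) ∩ E := fun y hy => ⟨⟨hy.1, hsub hy⟩, hy.2⟩
  exact (@closure_mono _ (τ' (j + 1)) _ _ hm) hx.2

end Pool.Agent.Helper24.WH

end

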