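import Pool.Agent.Helper24.WH.St6

/-! Modules of project WH / WL merged into one file to shorten the build. -/

section

/-!
# PROJECT WH (MP_76577a_lc), module CM: comparison at the top (9.1)
-/

set_option autoImplicit false

namespace Pool.Agent.Helper24.WH

open Set TopologicalSpace Topology
open Ordinal hiding univ

private theorem compact_CM (A : Type) [Finite A] : @CompactSpace (Tre A) (pT A) := by
  let _ : TopologicalSpace A := ⊥
  exact (inferInstance : CompactSpace (List Bool → A))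

private theorem openAux_CM (A : Type) (l : ℕ) (x : List Bool → A) :
    @IsOpen (List Bool → A) (@Pi.topologicalSpace (List Bool) (fun _ => A) (fun _ => ⊥))
      {t | ∀ u : List Bool, u.length < l → t u = x u} := by
  let _ : TopologicalSpace A := ⊥
  have : DiscreteTopology A := ⟨rfl⟩
  have e : {t : List Bool → A | ∀ u : List Bool, u.length < l → t u = x u} =
      ⋂ u ∈ {u : List Bool | u.length < l}, (fun t : List Bool → A => t u) ⁻¹' {x u} := by
    ext t
    simp
  have h : IsOpen (⋂ u ∈ {u : List Bool | u.length < l}, (fun t : List Bool → A => t u) ⁻¹' {x u}) :=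
    (List.finite_length_lt Bool l).isOpen_biInter fun u _ =>
      (isOpen_discrete _).preimage (continuous_apply u)
  rw [e]
  exact h

private theorem openCyl_CM (A : Type) (l : ℕ) (x : Tre A) : IsOpen[pT A] (Cyl l x) :=
  openAux_CM A l x

private theorem cylBasis_CM (A : Type) (U : Set (Tre A)) (hU : IsOpen[pT A] U) (x : Tre A) (hx : x ∈ U) :
    ∃ l, Cyl l x ⊆ U := by
  let _ : TopologicalSpace A := ⊥
  have hU' : @IsOpen (List Bool → A) _ U := hU
  obtain ⟨I, u, h1, h2⟩ := isOpen_pi_iff.1 hU' x hx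
  refine ⟨I.sup List.length + 1, fun t ht => h2 ?_⟩
  intro i hi
  have hlen : i.length < I.sup List.length + 1 := Nat.lt_succ_of_le (Finset.le_sup (f := List.length) hi)
  rw [ht i hlen]
  exact (h1 i hi).2

private theorem cont_CM (A₁ A₂ : Type) (φ : Tre A₁ → Tre A₂)
    (h : ∀ x k, ∃ l, ∀ y, y ∈ Cyl l x → φ y ∈ Cyl k (φ x)) : @Continuous _ _ (pT A₁) (pT A₂) φ := by
  let _ : TopologicalSpace A₂ := ⊥
  have : DiscreteTopology A₂ := ⟨rfl⟩
  let _ : TopologicalSpace (Tre A₁) := pT A₁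
  have key : Continuous (fun t : Tre A₁ => (fun u => φ t u : List Bool → A₂)) := by
    refine continuous_pi fun u => ?_
    rw [continuous_discrete_rng]
    intro a
    rw [isOpen_iff_mem_nhds]
    intro x hx
    obtain ⟨l, hl⟩ := h x (u.length + 1)
    refine Filter.mem_of_superset ((openCyl_CM A₁ l x).mem_nhds (fun u _ => rfl)) fun y hy => ?_
    have := hl y hy u (Nat.lt_succ_self _)
    show φ y u = a
    rw [this]
    exact hx
  exact key

private theorem sep_CM {X : Type} (τ : TopologicalSpace X) (P : Set (Set X)) (h0 : ∅ ∈ P)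
    (hun : ∀ B ∈ P, ∀ B' ∈ P, B ∪ B' ∈ P) (hop : ∀ B ∈ P, IsOpen[τ] B)
    (hbas : ∀ x U, IsOpen[τ] U → x ∈ U → ∃ O ∈ P, x ∈ O ∧ O ⊆ U) (K U : Set X)
    (hK : @IsCompact X τ K) (hU : IsOpen[τ] U) (hKU : K ⊆ U) : ∃ A ∈ P, K ⊆ A ∧ A ⊆ U := by
  let _ := τ
  refine hK.induction_on (p := fun s => ∃ A ∈ P, s ⊆ A ∧ A ⊆ U) ⟨∅, h0, subset_rfl, empty_subset _⟩
    ?_ ?_ ?_
  · rintro s t hst ⟨A, hA, h1, h2⟩
    exact ⟨A, hA, hst.trans h1, h2⟩
  · rintro s t ⟨A, hA, h1, h2⟩ ⟨B, hB, h3, h4⟩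
    exact ⟨A ∪ B, hun A hA B hB, union_subset_union h1 h3, union_subset h2 h4⟩
  · intro x hx
    obtain ⟨O, hO, hxO, hOU⟩ := hbas x U hU (hKU hx)
    exact ⟨O, mem_nhdsWithin_of_mem_nhds ((hop O hO).mem_nhds hxO), O, hO, subset_rfl, hOU⟩

private theorem clTop_CM {X : Type} (B : Set X) (hB : B.Nonempty) :
    closure[(⊤ : TopologicalSpace X)] B = univ := by
  have h1 : IsOpen[(⊤ : TopologicalSpace X)] (closure[(⊤ : TopologicalSpace X)] B)ᶜ :=
    @IsClosed.isOpen_compl _ ⊤ _ (@isClosed_closure _ ⊤ B)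
  rcases (TopologicalSpace.isOpen_top_iff _).1 h1 with h | h
  · exact compl_empty_iff.1 h
  · exfalso
    rw [compl_univ_iff] at h
    obtain ⟨t, ht⟩ := hB
    have := @subset_closure _ ⊤ B t ht
    rw [h] at this
    exact this

theorem hCM (hCTI : StCTI) (hRE : StRE) (hRA : StRA) (hRB : StRB) : StCM := by
  intro A₁ A₂ _ _ _ _ n τ P f τ' P' f' hR hR' hτ hτ' r hwf hvd hV hex himp
  classical
  have hn := hR.rich
  have hn' := hR'.rich
  -- winning on a set without one side
  have win : ∀ s, (Zo τ' f' n r s univ).Nonempty → ∀ A ∈ P n, Zo τ f n r (!s) A = ∅ →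
      WinG τ P f τ' P' f' n A univ univ := by
    intro s hs A hA hZ
    refine hCTI (Tre A₁) A₂ n τ P f τ' P' f' hn hR' n le_rfl r s hwf hvd A hA univ (hn'.univ n) univ
      (hn'.univ (n + 1)) hZ ?_
    rw [hn'.top (n + 1) (Nat.lt_succ_self n), univ_inter, univ_inter, clTop_CM _ hs]
  by_cases hone : ∃ s, (Zo τ' f' n r s univ).Nonempty ∧ Zo τ f n r (!s) univ = ∅
  · obtain ⟨s, hs, hZ⟩ := hone
    obtain ⟨φ, h1, h2⟩ := hRE A₁ A₂ n τ P f τ' P' f' hR hR' hτ hτ' univ (hn.univ _)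
      (win s hs univ (hn.univ n) hZ)
    refine ⟨φ, cont_CM A₁ A₂ φ fun x k => ?_, fun x => h1 x (mem_univ x)⟩
    obtain ⟨l, hl⟩ := h2 x (mem_univ x) k
    exact ⟨l, fun y hy => hl y (mem_univ y) hy⟩
  · push Not at hone
    -- both sides of the source are nonempty
    have hboth : ∀ s, (Zo τ' f' n r s univ).Nonempty := by
      obtain ⟨s, hs⟩ := hex
      have h1 : (Zo τ f n r (!s) univ).Nonempty := hone s hs
      have h2 : (Zo τ' f' n r (!s) univ).Nonempty := himp _ h1
      intro s'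
      by_cases h : s' = s
      · rw [h]; exact hs
      · have : s' = !s := by cases s <;> cases s' <;> simp_all
        rw [this]; exact h2
    have hd : ∀ s, IsDer (τ n) (Zo τ f n r s) := ((hRB (Tre A₁) τ f hn.tow hn.fib n).2.1 r)
    have hdis : Zo τ f n r false univ ∩ Zo τ f n r true univ = ∅ := by
      rw [← (hRA (Tre A₁) τ f n).2.2.2.2.2.2.2.2.2.1 r univ hwf hvd, hV]
    have hclZ : ∀ s, IsClosed[τ n] (Zo τ f n r s univ) := fun s =>
      (hd s).closed univ (@isClosed_univ _ (τ n))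
    have hcomp : @CompactSpace (Tre A₁) (τ n) := by rw [hτ]; exact compact_CM A₁
    have hop : ∀ B ∈ P (n + 1), IsOpen[τ n] B := hn.op n le_rfl
    have hclP : ∀ B ∈ P (n + 1), IsClosed[τ n] B := fun B hB => hn.cl n le_rfl B (hn.anti n hB)
    have sep := sep_CM (τ n) (P (n + 1)) (hn.empty _) (hn.union _) hop (hn.basis n le_rfl)
    obtain ⟨A, hA, hKA, hAU⟩ := sep (Zo τ f n r false univ) (Zo τ f n r true univ)ᶜ
      (@IsClosed.isCompact _ (τ n) _ hcomp (hclZ false))
      (@IsClosed.isOpen_compl _ (τ n) _ (hclZ true))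
      (fun x hx hx' => by
        have : x ∈ Zo τ f n r false univ ∩ Zo τ f n r true univ := ⟨hx, hx'⟩
        rw [hdis] at this
        exact this)
    have hAc : Aᶜ ∈ P (n + 1) := by
      have h1 : IsOpen[τ n] Aᶜ := @IsClosed.isOpen_compl _ (τ n) _ (hclP A hA)
      have h2 : IsClosed[τ n] Aᶜ := @IsOpen.isClosed_compl _ (τ n) _ (hop A hA)
      obtain ⟨B, hB, h3, h4⟩ := sep Aᶜ Aᶜ (@IsClosed.isCompact _ (τ n) _ hcomp h2) h1 subset_rfl
      rwa [← subset_antisymm h4 h3]
    have hloc : ∀ s, ∀ B ∈ P (n + 1), Zo τ f n r s B = Zo τ f n r s univ ∩ B := by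
      intro s B hB
      have := (hd s).loc B univ ⟨hclP B hB, hop B hB⟩
      rwa [univ_inter] at this
    have hZA : Zo τ f n r (!false) A = ∅ := by
      rw [Bool.not_false, hloc true A hA, inter_comm]
      exact Set.subset_empty_iff.1 fun x hx => hAU hx.1 hx.2
    have hZAc : Zo τ f n r (!true) Aᶜ = ∅ := by
      rw [Bool.not_true, hloc false Aᶜ hAc]
      exact Set.subset_empty_iff.1 fun x hx => hx.2 (hKA hx.1)
    obtain ⟨φ₁, h1, h2⟩ := hRE A₁ A₂ n τ P f τ' P' f' hR hR' hτ hτ' A hA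
      (win false (hboth false) A (hn.anti n hA) hZA)
    obtain ⟨φ₂, h3, h4⟩ := hRE A₁ A₂ n τ P f τ' P' f' hR hR' hτ hτ' Aᶜ hAc
      (win true (hboth true) Aᶜ (hn.anti n hAc) hZAc)
    have hopA : IsOpen[pT A₁] A := by rw [← hτ]; exact hop A hA
    have hopAc : IsOpen[pT A₁] Aᶜ := by rw [← hτ]; exact hop Aᶜ hAc
    refine ⟨fun x => if x ∈ A then φ₁ x else φ₂ x, cont_CM A₁ A₂ _ fun x k => ?_, fun x => ?_⟩
    · by_cases hx : x ∈ A
      · obtain ⟨l, hl⟩ := h2 x hx k
        obtain ⟨l', hl'⟩ := cylBasis_CM A₁ A hopA x hx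
        refine ⟨max l l', fun y hy => ?_⟩
        have hyA : y ∈ A := hl' fun u hu => hy u (lt_of_lt_of_le hu (le_max_right _ _))
        simp only [hx, hyA, if_true]
        exact hl y hyA fun u hu => hy u (lt_of_lt_of_le hu (le_max_left _ _))
      · obtain ⟨l, hl⟩ := h4 x hx k
        obtain ⟨l', hl'⟩ := cylBasis_CM A₁ Aᶜ hopAc x hx
        refine ⟨max l l', fun y hy => ?_⟩
        have hyA : y ∈ Aᶜ := hl' fun u hu => hy u (lt_of_lt_of_le hu (le_max_right _ _))
        have hyA' : y ∉ A := hyA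
        simp only [hx, hyA', if_false]
        exact hl y hyA fun u hu => hy u (lt_of_lt_of_le hu (le_max_left _ _))
    · by_cases hx : x ∈ A
      · simp only [hx, if_true]
        exact h1 x hx
      · simp only [hx, if_false]
        exact h3 x hx

end Pool.Agent.Helper24.WH

end

section

/-!
# PROJECT WH (MP_76577a_lc), module CTB: combination at height `M+1`
-/

set_option autoImplicit false

namespace Pool.Agent.Helper24.WH

open Set TopologicalSpace Topology
open Ordinal hiding univ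

open Classical in
/-- the combined strategy: `σB` while the source set meets `B`, the waiting answer `W` afterwards -/
private noncomputable def sg_CTB {X Y : Type} (B : Set X) (Q : Set Y) (σB : Hist X Y → Set Y) (W : Set Y → Set Y) :
    Hist X Y → Set Y
  | [] => Q
  | mv :: h => if (mv.1 ∩ B).Nonempty then σB (mv :: h) else W (mv.2 ∩ sg_CTB B Q σB W h)

private theorem sg_nil_CTB {X Y : Type} (B : Set X) (Q : Set Y) (σB : Hist X Y → Set Y) (W : Set Y → Set Y) :
    sg_CTB B Q σB W [] = Q := rfl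

private theorem sg_pos_CTB {X Y : Type} (B : Set X) (Q : Set Y) (σB : Hist X Y → Set Y) (W : Set Y → Set Y)
    (mv : Set X × Set Y) (h : Hist X Y) (hp : (mv.1 ∩ B).Nonempty) :
    sg_CTB B Q σB W (mv :: h) = σB (mv :: h) := by
  simp only [sg_CTB]
  exact if_pos hp

private theorem sg_neg_CTB {X Y : Type} (B : Set X) (Q : Set Y) (σB : Hist X Y → Set Y) (W : Set Y → Set Y)
    (mv : Set X × Set Y) (h : Hist X Y) (hp : ¬ (mv.1 ∩ B).Nonempty) :
    sg_CTB B Q σB W (mv :: h) = W (mv.2 ∩ sg_CTB B Q σB W h) := by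
  rw [sg_CTB]
  exact if_neg hp

/-- while the source set meets `B`, the history is legal against `σB` and the answers agree -/
private theorem sg_agree_CTB {X Y : Type} (P : Set (Set X)) (A B : Set X) (τ' : TopologicalSpace Y) (A' Q : Set Y)
    (σB : Hist X Y → Set Y) (W : Set Y → Set Y) (h0 : σB [] = Q) :
    ∀ h : Hist X Y, Legal P A τ' A' (sg_CTB B Q σB W) h → (lastO h ∩ B).Nonempty →
      Legal P B τ' A' σB h ∧ sg_CTB B Q σB W h = σB h := by
  intro h
  induction h with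
  | nil =>
    intro _ _
    exact ⟨trivial, by rw [sg_nil_CTB, h0]⟩
  | cons mv h ih =>
    intro hl hB
    obtain ⟨hl1, hP, hsub, hA, hop, hne⟩ := hl
    have hB' : (mv.1 ∩ B).Nonempty := hB
    have hB2 : (lastO h ∩ B).Nonempty := hB'.mono (inter_subset_inter_left _ hsub)
    obtain ⟨hl2, he⟩ := ih hl1 hB2
    refine ⟨⟨hl2, hP, hsub, hB', hop, ?_⟩, sg_pos_CTB _ _ _ _ _ _ hB'⟩
    rw [← he]
    exact hne

private theorem anti_CTB {X : Type} (P : ℕ → Set (Set X)) (ha : ∀ M, P (M + 1) ⊆ P M) : ∀ M, P M ⊆ P 0 := by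
  intro M
  induction M with
  | zero => exact Subset.rfl
  | succ M ih => exact (ha M).trans ih

theorem hCTB (hSH : StSH) (hSW : StSW) (hRX : StRX) (hRB : StRB) : StCTB := by
  intro X A₂ n τ P f τ' P' f' hR hR' M hMn A hA A' hA' H' hH' Q hQ γ ρ hγ hρ hγρ hHA hcl hσB hIH
  obtain ⟨σB, hσ0, hσW, hσI⟩ := hσB
  obtain ⟨hVD, hZD, -, -⟩ := hRB X τ f hR.tow hR.fib (M + 1)
  have hBA : Vo τ f (M + 1) γ A ⊆ A := (hVD γ).le A
  have hH0 : H' ∈ P' 0 := anti_CTB P' hR'.rich.anti (M + 1) hH'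
  -- the waiting answers
  have hWex : ∀ U : Set (Tre A₂), ∃ V : Set (Tre A₂), IsOpen[τ' (M + 1)] U → (U ∩ H').Nonempty →
      V ∈ P' (M + 2) ∧ V ⊆ U ∧ (V ∩ H').Nonempty ∧ V ⊆ closure[τ' (M + 2)] (V ∩ H') := by
    intro U
    by_cases hU : IsOpen[τ' (M + 1)] U ∧ (U ∩ H').Nonempty
    · obtain ⟨hUo, z, hzU, hzH⟩ := hU
      obtain ⟨Q₁, hQ1, hz1, hQU, -, hQc⟩ := hSH A₂ n τ' P' f' hR' (M + 1) hMn H' hH0 z hzH U hUo hzU 0
      exact ⟨Q₁, fun _ _ => ⟨hQ1, hQU, ⟨z, hz1, hzH⟩, hQc⟩⟩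
    · exact ⟨U, fun h1 h2 => absurd ⟨h1, h2⟩ hU⟩
  choose W hW using hWex
  -- invariant and legal answers
  have hinv : ∀ h : Hist X (Tre A₂),
      Legal (P (M + 2)) A (τ' (M + 2)) A' (sg_CTB (Vo τ f (M + 1) γ A) Q σB W) h →
      sg_CTB (Vo τ f (M + 1) γ A) Q σB W h ∈ P' (M + 2) ∧
        A' ∩ sg_CTB (Vo τ f (M + 1) γ A) Q σB W h ⊆
          closure[τ' (M + 2)] (sg_CTB (Vo τ f (M + 1) γ A) Q σB W h ∩ H') ∧
        ∀ mv h', h = mv :: h' →
          sg_CTB (Vo τ f (M + 1) γ A) Q σB W h ⊆ mv.2 ∩ sg_CTB (Vo τ f (M + 1) γ A) Q σB W h' ∧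
          (sg_CTB (Vo τ f (M + 1) γ A) Q σB W h ∩ A').Nonempty := by
    intro h
    induction h with
    | nil =>
      intro _
      refine ⟨hQ, hcl, ?_⟩
      intro mv h' he
      exact absurd he (by simp)
    | cons mv h ih =>
      intro hl
      obtain ⟨ihP, ihc, -⟩ := ih hl.1
      by_cases hp : (mv.1 ∩ Vo τ f (M + 1) γ A).Nonempty
      · -- the case of `σB`
        obtain ⟨hlB, heq⟩ := sg_agree_CTB (P (M + 2)) A (Vo τ f (M + 1) γ A) (τ' (M + 2)) A' Q σB W hσ0 (mv :: h) hl hp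
        have hp2 : (lastO h ∩ Vo τ f (M + 1) γ A).Nonempty := hp.mono (inter_subset_inter_left _ hl.2.2.1)
        obtain ⟨-, heq2⟩ := sg_agree_CTB (P (M + 2)) A (Vo τ f (M + 1) γ A) (τ' (M + 2)) A' Q σB W hσ0 h hl.1 hp2
        obtain ⟨hm1, hm2, hm3⟩ := hσW.move mv h hlB
        refine ⟨?_, ?_, ?_⟩
        · rw [heq]; exact hm1
        · rw [heq]; exact hσI (mv :: h) hlB
        · intro mv' h' he
          have e1 : mv = mv' := (List.cons.inj he).1
          have e2 : h = h' := (List.cons.inj he).2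
          subst e1; subst e2
          rw [heq, heq2]
          exact ⟨hm2, hm3⟩
      · -- the waiting case
        obtain ⟨hl1, hP, hsub, hAne, hop, y, ⟨hy1, hy2⟩, hyA⟩ := hl
        have hUo : IsOpen[τ' (M + 1)] (mv.2 ∩ sg_CTB (Vo τ f (M + 1) γ A) Q σB W h) := by
          have o1 : IsOpen[τ' (M + 1)] mv.2 := hR'.rich.tow.mono (M + 1) _ hop
          have o2 : IsOpen[τ' (M + 1)] (sg_CTB (Vo τ f (M + 1) γ A) Q σB W h) := hR'.rich.op (M + 1) hMn _ ihP
          exact @IsOpen.inter _ (τ' (M + 1)) _ _ o1 o2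
        have hUne : ((mv.2 ∩ sg_CTB (Vo τ f (M + 1) γ A) Q σB W h) ∩ H').Nonempty := by
          have hyc := ihc ⟨hyA, hy2⟩
          have := (@mem_closure_iff _ (τ' (M + 2)) _ _).1 hyc mv.2 hop hy1
          obtain ⟨z, hz1, hz2, hz3⟩ := this
          exact ⟨z, ⟨hz1, hz2⟩, hz3⟩
        obtain ⟨hw1, hw2, hw3, hw4⟩ := hW _ hUo hUne
        have heq := sg_neg_CTB (Vo τ f (M + 1) γ A) Q σB W mv h hp
        refine ⟨?_, ?_, ?_⟩
        · rw [heq]; exact hw1
        · rw [heq]; exact inter_subset_right.trans hw4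
        · intro mv' h' he
          have e1 : mv = mv' := (List.cons.inj he).1
          have e2 : h = h' := (List.cons.inj he).2
          subst e1; subst e2
          rw [heq]
          exact ⟨hw2, hw3.mono (inter_subset_inter_right _ hHA)⟩
  -- switching
  refine hSW X A₂ (P (M + 2)) (τ (M + 1)) (P' (M + 2)) (τ' (M + 2)) f f' A A'
    (sg_CTB (Vo τ f (M + 1) γ A) Q σB W)
    (fun O => ∃ (r : Cd (M + 1)) (s : Bool), Cd.wf (M + 1) r ∧ Cd.vd (M + 1) r ∧ r < ρ ∧
      Zo τ f (M + 1) r (!s) (A ∩ O) = ∅) ?_ ?_ ?_ ?_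
  · -- events are inherited by subsets
    intro O O' hO hE
    obtain ⟨r, s, h1, h2, h3, h4⟩ := hE
    refine ⟨r, s, h1, h2, h3, ?_⟩
    exact subset_eq_empty ((hZD r (!s)).mono _ _ (inter_subset_inter_right _ hO)) h4
  · -- legal answers
    intro mv h hl
    obtain ⟨h1, -, h3⟩ := hinv (mv :: h) hl
    obtain ⟨h4, h5⟩ := h3 mv h rfl
    exact ⟨h1, h4, h5⟩
  · -- the event happens
    intro mv h hl hE
    obtain ⟨r, s, h1, h2, h3, h4⟩ := hE
    obtain ⟨g1, g2, -⟩ := hinv (mv :: h) hl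
    exact hIH r s h1 h2 h3 mv.1 hl.2.1 _ g1 h4 g2
  · -- plays without the event
    intro p hleg hnoE x hxA hxp hconv
    have hxB : x ∈ Vo τ f (M + 1) γ A := by
      by_contra hxB
      obtain ⟨r, s, hrw, hrv, -, hrc, -, hrz⟩ := hRX X n τ P f hR (M + 1) hMn A hA x hxA
      have hrγ : r ≤ γ := by
        by_contra hlt
        exact hxB (hrc γ hγ (not_le.1 hlt))
      have hcl2 : IsClosed[τ (M + 1)] (Zo τ f (M + 1) r (!s) A) :=
        (hZD r (!s)).closed A (hR.cl (M + 1) hMn A hA)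
      obtain ⟨l, hl⟩ := hconv (Zo τ f (M + 1) r (!s) A)ᶜ hcl2.isOpen_compl hrz
      apply hnoE l
      refine ⟨r, s, hrw, hrv, lt_of_le_of_lt hrγ hγρ, ?_⟩
      have hPl : (p l).1 ∈ P (M + 2) := (hleg (l + 1)).2.1
      have hclp : Clp (τ (M + 1)) (p l).1 :=
        ⟨hR.cl (M + 1) hMn _ (hR.anti (M + 1) hPl), hR.op (M + 1) hMn _ hPl⟩
      rw [(hZD r (!s)).loc _ _ hclp]
      apply eq_empty_of_forall_notMem
      intro y hy
      exact hl ⟨hy.2, (hZD r (!s)).le A hy.1⟩ hy.1
    have hall : ∀ l, (lastO (hist p l) ∩ Vo τ f (M + 1) γ A).Nonempty := by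
      intro l
      cases l with
      | zero => exact ⟨x, mem_univ x, hxB⟩
      | succ l => exact ⟨x, hxp l, hxB⟩
    have hag := fun l => sg_agree_CTB (P (M + 2)) A (Vo τ f (M + 1) γ A) (τ' (M + 2)) A' Q σB W hσ0
      (hist p l) (hleg l) (hall l)
    obtain ⟨x', hx'A, hx'1, hx'2, hx'3⟩ := hσW.lim p (fun l => (hag l).1) x hxB hxp (by
      intro U hU hxU
      obtain ⟨l, hl⟩ := hconv U hU hxU
      exact ⟨l, (inter_subset_inter_right _ hBA).trans hl⟩)
    refine ⟨x', hx'A, ?_, hx'2, ?_⟩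
    · intro l
      rw [(hag l).2]
      exact hx'1 l
    · intro k
      obtain ⟨l, hl⟩ := hx'3 k
      refine ⟨l, ?_⟩
      rw [(hag l).2]
      exact hl

end Pool.Agent.Helper24.WH

end

section

/-! WH module DE: existence of data -/

set_option autoImplicit false

namespace Pool.Agent.Helper24.WH

open Set TopologicalSpace Topology

private theorem cyl_DE {A : Type} (Q : Set (Set (Tre A))) (h0 : univ ∈ Q)
    (hi : ∀ B ∈ Q, ∀ B' ∈ Q, B ∩ B' ∈ Q) (hc : ∀ (u : List Bool) (a : A), {t : Tre A | t u = a} ∈ Q)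
    (k : ℕ) (t : Tre A) : Cyl k t ∈ Q := by
  have key : ∀ F : Set (List Bool), F.Finite → {t' : Tre A | ∀ u ∈ F, t' u = t u} ∈ Q := by
    intro F hF
    induction F, hF using Set.Finite.induction_on with
    | empty =>
      have : {t' : Tre A | ∀ u ∈ (∅ : Set (List Bool)), t' u = t u} = univ := by
        ext t'
        simp
      rw [this]
      exact h0
    | @insert a s _ _ ih =>
      have : {t' : Tre A | ∀ u ∈ insert a s, t' u = t u} =
          {t' : Tre A | t' a = t a} ∩ {t' : Tre A | ∀ u ∈ s, t' u = t u} := by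
        ext t'
        simp
      rw [this]
      exact hi _ (hc a (t a)) _ ih
  have h1 := key {u : List Bool | u.length < k} (List.finite_length_lt Bool k)
  exact h1

theorem hDE (hFT4 : StFT4) (hRI : StRI) (hIV : StIV) : StDE := by
  intro A S _ _ _ n g Ga h hyp
  obtain ⟨τ, P, N, h1, h2, h3, h4, h5⟩ := hFT4 A S n g Ga hyp
  have h6 : IsRich n τ P (h ∘ g) := hRI (Tre A) S n N τ g h P h1 h2 h3
  have h7 : IsRichT n τ P (h ∘ g) :=
    ⟨h6, fun M k t => cyl_DE (P M) (h6.univ M) (h6.inter M) (h5 M) k t⟩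
  obtain ⟨r, h8, h9, h10, h11⟩ := hIV A n τ P (h ∘ g) h7 h4
  exact ⟨r, fun s => (Zo τ (h ∘ g) n r s univ).Nonempty, h8, h9, h11,
    ⟨τ, P, h7, h4, h10, fun s => Iff.rfl⟩⟩

end Pool.Agent.Helper24.WH

end

section

/-!
# PROJECT WH: module DN (data of the complement)
-/

set_option autoImplicit false

namespace Pool.Agent.Helper24.WH

open Set TopologicalSpace Topology
open Ordinal hiding univ

private theorem pre_DN {X : Type} (f : X → Bool) (s : Bool) :
    (fun t => !(f t)) ⁻¹' {s} = f ⁻¹' {!s} := by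
  ext x
  simp only [mem_preimage, mem_singleton_iff]
  cases f x <;> cases s <;> simp

private theorem delOf_DN {X : Type} (τ : TopologicalSpace X) (m : ℕ) (z z' : Cd m → Bool → Set X → Set X)
    (h : ∀ c s, z' c s = z c (!s)) : delOf τ m z' = delOf τ m z := by
  funext c Y
  ext x
  simp only [delOf, mem_inter_iff, mem_iInter]
  constructor
  · rintro ⟨h1, h2⟩
    refine ⟨h1, fun c' hc' s => ?_⟩
    have := h2 c' hc' (!s)
    rwa [h, Bool.not_not] at this
  · rintro ⟨h1, h2⟩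
    refine ⟨h1, fun c' hc' s => ?_⟩
    rw [h]
    exact h2 c' hc' (!s)

private theorem VZ_DN {X : Type} (τ : ℕ → TopologicalSpace X) (f : X → Bool) :
    ∀ m : ℕ, (VZ τ (fun t => !(f t)) m).1 = (VZ τ f m).1 ∧
      ∀ c s, (VZ τ (fun t => !(f t)) m).2 c s = (VZ τ f m).2 c (!s)
  | 0 => by
    refine ⟨rfl, fun c s => ?_⟩
    funext B
    show B ∩ (fun t => !(f t)) ⁻¹' {s} = B ∩ f ⁻¹' {!s}
    rw [pre_DN]
  | (m + 1) => by
    obtain ⟨-, h2⟩ := VZ_DN τ f m
    have h3 : foldV (τ (m + 1)) m (VZ τ (fun t => !(f t)) m).2 = foldV (τ (m + 1)) m (VZ τ f m).2 := by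
      unfold foldV
      rw [delOf_DN (τ (m + 1)) m _ _ h2]
    constructor
    · show (fun l B => foldV (τ (m + 1)) m (VZ τ (fun t => !(f t)) m).2 (Cd.L l) B) = _
      rw [h3]
      rfl
    · intro c s
      show (fun B => HomOp (τ (m + 1)) ((VZ τ (fun t => !(f t)) m).2 (lastc c.L) s)
        (foldV (τ (m + 1)) m (VZ τ (fun t => !(f t)) m).2 (c.L.dropLast) B)) = _
      rw [h3, h2]
      rfl

private theorem Vo_DN {X : Type} (τ : ℕ → TopologicalSpace X) (f : X → Bool) (m : ℕ) (c : Cd m) (B : Set X) :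
    Vo τ (fun t => !(f t)) m c B = Vo τ f m c B := by
  unfold Vo
  rw [(VZ_DN τ f m).1]

private theorem Zo_DN {X : Type} (τ : ℕ → TopologicalSpace X) (f : X → Bool) (m : ℕ) (c : Cd m) (s : Bool)
    (B : Set X) : Zo τ (fun t => !(f t)) m c s B = Zo τ f m c (!s) B := by
  unfold Zo
  rw [(VZ_DN τ f m).2]

private theorem rich_DN {X : Type} {n : ℕ} {τ : ℕ → TopologicalSpace X} {P : ℕ → Set (Set X)} {f : X → Bool}
    (h : IsRich n τ P f) : IsRich n τ P (fun t => !(f t)) where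
  tow := h.tow
  fib s := by rw [pre_DN]; exact h.fib (!s)
  top := h.top
  anti := h.anti
  cl := h.cl
  op := h.op
  op0 := h.op0
  basis := h.basis
  cnt := h.cnt
  univ := h.univ
  empty := h.empty
  inter := h.inter
  union := h.union
  clo := h.clo
  fP B hB s := by rw [pre_DN]; exact h.fP B hB (!s)
  VP m hm c hc B hB := by rw [Vo_DN]; exact h.VP m hm c hc B hB
  ZP m hm c hc hv s B hB := by rw [Zo_DN]; exact h.ZP m hm c hc hv (!s) B hB
  us m hm r hr hv := by
    obtain ⟨c, hc, hcr, hB⟩ := h.us m hm r hr hv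
    refine ⟨c, hc, hcr, fun B hBm => ?_⟩
    rw [Vo_DN, Zo_DN, Zo_DN, Set.union_comm]
    exact hB B hBm
  tm m hm := by
    obtain ⟨c, hc, hB⟩ := h.tm m hm
    refine ⟨c, hc, fun B hBm => ?_⟩
    rw [Vo_DN]
    exact hB B hBm
  pol := h.pol

theorem hDN : StDN := by
  intro A₁ f n r sd h
  refine ⟨h.wf, h.vd, ?_, ?_⟩
  · obtain ⟨s, hs⟩ := h.side
    exact ⟨!s, by simpa using hs⟩
  · obtain ⟨τ, P, hR, hτ, hV, hs⟩ := h.ex
    refine ⟨τ, P, ⟨rich_DN hR.rich, hR.cyl⟩, hτ, ?_, fun s => ?_⟩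
    · rw [Vo_DN]; exact hV
    · rw [Zo_DN]; exact hs (!s)

end Pool.Agent.Helper24.WH

end

section

/-!
# Module DP of project WH: padding of data
-/

set_option autoImplicit false

namespace Pool.Agent.Helper24.WH

open Set TopologicalSpace Topology
open Ordinal hiding univ

theorem hDP (HPA : StPA) (HCB : StCB) : StDP := by
  intro A₁ f n r sd D
  obtain ⟨τ, P, hT, htop, hV, hs⟩ := D.ex
  obtain ⟨hR, hop⟩ := HPA (Tre A₁) n τ P f hT.rich
  refine ⟨(HCB n).2.2.2.2.2.2.1 r D.wf, ((HCB n).2.2.2.2.2.2.2.1 r).1 D.vd, D.side,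
    padT τ, padP P, ⟨hR, ?_⟩, htop, ?_, ?_⟩
  · intro M k t
    cases M with
    | zero => exact hT.cyl 0 k t
    | succ M => exact hT.cyl M k t
  · rw [(hop n r univ D.wf).1]
    exact hV
  · intro s
    rw [(hop n r univ D.wf).2 D.vd s]
    exact hs s

end Pool.Agent.Helper24.WH

end

section

/-!
# Project WH, module IV: the invariant
-/

set_option autoImplicit false

namespace Pool.Agent.Helper24.WH

open Set TopologicalSpace Topology
open Ordinal hiding univ

private lemma cs_IV (A : Type) [Finite A] : @CompactSpace (Tre A) (pT A) := by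
  let _ : TopologicalSpace A := ⊥
  exact (inferInstance : CompactSpace (List Bool → A))

private lemma cpt_IV {X ι : Type} (τ : TopologicalSpace X) (hX : @CompactSpace X τ) [Nonempty ι]
    (t : ι → Set X) (hd : Directed (· ⊇ ·) t) (hn : ∀ i, (t i).Nonempty)
    (hc : ∀ i, IsClosed[τ] (t i)) : (⋂ i, t i).Nonempty := by
  let := τ
  have := hX
  exact IsCompact.nonempty_iInter_of_directed_nonempty_isCompact_isClosed t hd hn
    (fun i => (hc i).isCompact) hc

/-- **IV (9.1)** the invariant -/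
theorem hIV (hRA : StRA) (hCA : StCA) (hCB : StCB) (hUZ : StUZ) : StIV := by
  intro A₁ _ _ n τ P f hR hτ
  have hrich := hR.rich
  obtain ⟨-, -, -, -, -, -, -, hanti, -, -, hlim, -⟩ := hRA (Tre A₁) τ f n
  obtain ⟨-, hbot, hwfbot, -⟩ := hCA n
  obtain ⟨-, -, -, -, -, -, -, -, -, -, hwell⟩ := hCB n
  obtain ⟨-, -, -, -, hVbot, -⟩ := hUZ (Tre A₁) τ f
  obtain ⟨a⟩ := ‹Nonempty A₁›
  have hne : (univ : Set (Tre A₁)).Nonempty := ⟨fun _ => a, trivial⟩
  have huniv : (univ : Set (Tre A₁)) ∈ P n := hrich.univ n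
  set T : Set {c : Cd n // Cd.wf n c} := {c | Vo τ f n c.1 univ = ∅} with hT
  have hTne : T.Nonempty := by
    obtain ⟨c, hc, hc'⟩ := hrich.tm n le_rfl
    exact ⟨⟨c, hc⟩, hc' univ huniv⟩
  obtain ⟨⟨r, hwf⟩, hr, hmin⟩ := hwell.has_min T hTne
  replace hr : Vo τ f n r univ = ∅ := hr
  have hmin' : ∀ c, Cd.wf n c → c < r → (Vo τ f n c univ).Nonempty := by
    intro c hc hcr
    rw [nonempty_iff_ne_empty]
    intro h
    exact hmin ⟨c, hc⟩ h hcr
  have hrb : r ≠ Cd.bot n := by
    rintro rfl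
    rw [hVbot] at hr
    rw [hr] at hne
    exact not_nonempty_empty hne
  have hbr : Cd.bot n < r := lt_of_le_of_ne (hbot r) (Ne.symm hrb)
  have hvd : Cd.vd n r := by
    by_contra hnv
    have hι : Nonempty {c : Cd n // Cd.wf n c ∧ c < r} := ⟨⟨Cd.bot n, hwfbot, hbr⟩⟩
    have hcs : @CompactSpace (Tre A₁) (τ n) := by
      rw [hτ]
      exact cs_IV A₁
    obtain ⟨x, hx⟩ := cpt_IV (τ n) hcs
      (fun c : {c : Cd n // Cd.wf n c ∧ c < r} => Vo τ f n c.1 univ)
      (by
        intro c c'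
        rcases le_total c.1 c'.1 with h | h
        · exact ⟨c', hanti c.1 c'.1 univ c.2.1 c'.2.1 h, Subset.rfl⟩
        · exact ⟨c, Subset.rfl, hanti c'.1 c.1 univ c'.2.1 c.2.1 h⟩)
      (fun c => hmin' c.1 c.2.1 c.2.2)
      (fun c => hrich.cl n le_rfl _ (hrich.VP n le_rfl c.1 c.2.1 univ huniv))
    have hx' := hlim r univ hwf hnv hrb x (fun c' hc' hcr =>
      (mem_iInter.mp hx) ⟨c', hc', hcr⟩)
    rw [hr] at hx'
    exact hx'
  refine ⟨r, hwf, hvd, hr, ?_⟩
  obtain ⟨c, hc, hcr, hus⟩ := hrich.us n le_rfl r hwf hvd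
  obtain ⟨x, hx⟩ := hmin' c hc hcr
  rcases hus univ huniv hx with h | h
  · exact ⟨false, x, h⟩
  · exact ⟨true, x, h⟩

end Pool.Agent.Helper24.WH

end

section

/-!
# PROJECT WH (MP_76577a_lc), module OR: the ordinal of the data is strictly monotone for strict Wadge reducibility
-/

set_option autoImplicit false

namespace Pool.Agent.Helper24.WH

open Set TopologicalSpace Topology
open Ordinal hiding univ

/-- padding to any larger height -/
private theorem pad_OR (hDP : StDP) (hCB : StCB) {A₁ : Type} (f : Tre A₁ → Bool) (n : ℕ) (r : Cd n) (sd : Bool → Prop)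
    (h : Dat f n r sd) (N : ℕ) (hN : n ≤ N) : ∃ r₁ : Cd N, Dat f N r₁ sd ∧ Cd.pi N r₁ = Cd.pi n r := by
  induction N, hN using Nat.le_induction with
  | base => exact ⟨r, h, rfl⟩
  | succ N _ ih =>
    obtain ⟨r₁, h₁, e₁⟩ := ih
    refine ⟨Cd.up N r₁, hDP A₁ f N r₁ sd h₁, ?_⟩
    rw [(hCB N).2.2.2.2.1 r₁, e₁]

/-- complementing a reduction -/
private theorem wred_compl_OR {A₁ A₂ : Type} {f : Tre A₁ → Bool} {f' : Tre A₂ → Bool} (h : WRed f f') :
    WRed (fun t => !(f t)) (fun t => !(f' t)) := by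
  obtain ⟨φ, hc, hφ⟩ := h
  exact ⟨φ, hc, fun x => by simp only [hφ x]⟩

private theorem wred_trans_OR {A₁ A₂ A₃ : Type} {f : Tre A₁ → Bool} {f' : Tre A₂ → Bool} {f'' : Tre A₃ → Bool}
    (h : WRed f f') (h' : WRed f' f'') : WRed f f'' := by
  obtain ⟨φ, hc, hφ⟩ := h
  obtain ⟨ψ, hd, hψ⟩ := h'
  refine ⟨ψ ∘ φ, ?_, fun x => by simp only [Function.comp_apply, hψ, hφ]⟩
  let _ : TopologicalSpace (Tre A₁) := pT A₁
  let _ : TopologicalSpace (Tre A₂) := pT A₂
  let _ : TopologicalSpace (Tre A₃) := pT A₃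
  exact Continuous.comp hd hc

/-- arithmetic below `ε₀` -/
private theorem lt_eps_OR {a : Ordinal.{0}} (ha : a < Ordinal.epsilon 0) (k : Ordinal.{0}) (hk : k ≤ 1) :
    (2 : Ordinal.{0}) * a + k < Ordinal.epsilon 0 := by
  have e1 : (ω : Ordinal.{0}) ^ (ω ^ (Ordinal.epsilon 0)) = Ordinal.epsilon 0 := by
    rw [omega0_opow_epsilon, omega0_opow_epsilon]
  have h2 : (2 : Ordinal.{0}) < Ordinal.epsilon 0 := by
    have := natCast_lt_epsilon 2 0
    exact_mod_cast this
  have h1 : (1 : Ordinal.{0}) < Ordinal.epsilon 0 := by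
    have := natCast_lt_epsilon 1 0
    exact_mod_cast this
  have hm : (2 : Ordinal.{0}) * a < Ordinal.epsilon 0 := by
    have := isPrincipal_mul_omega0_opow_opow (Ordinal.epsilon 0)
    rw [e1] at this
    exact this h2 ha
  have hp := isPrincipal_add_omega0_opow (Ordinal.epsilon 0)
  rw [omega0_opow_epsilon] at hp
  exact hp hm (lt_of_le_of_lt hk h1)

private theorem two_mul_lt_OR {a b : Ordinal.{0}} (h : a < b) (k k' : Ordinal.{0}) (hk : k ≤ 1) :
    (2 : Ordinal.{0}) * a + k < 2 * b + k' := by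
  have h1 : a + 1 ≤ b := Order.add_one_le_of_lt h
  calc (2 : Ordinal.{0}) * a + k ≤ 2 * a + 1 := by gcongr
    _ < 2 * a + 2 := by
      have : (1 : Ordinal.{0}) < 2 := one_lt_two
      gcongr
    _ = 2 * (a + 1) := by rw [mul_add, mul_one]
    _ ≤ 2 * b := by gcongr
    _ ≤ 2 * b + k' := le_self_add

/-- **OR** -/
theorem hOR (hDP : StDP) (hDC : StDC) (hDN : StDN) (hCB : StCB) : StOR := by
  classical
  intro A₁ A₂ _ _ _ _ f f' n n' r r' sd sd' hd hd'
  have hk : ∀ sd : Bool → Prop, (if sd false ∧ sd true then (1 : Ordinal.{0}) else 0) ≤ 1 := by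
    intro sd
    split_ifs
    · exact le_rfl
    · exact zero_le_one
  refine ⟨?_, ?_⟩
  · unfold ordD
    exact lt_eps_OR ((hCB n).2.1 r) _ (hk sd)
  intro hff hnff
  obtain ⟨N, hNa, hNb⟩ : ∃ N : ℕ, n ≤ N ∧ n' ≤ N := ⟨max n n', le_max_left _ _, le_max_right _ _⟩
  obtain ⟨r₁, hd₁, e₁⟩ := pad_OR hDP hCB f n r sd hd N hNa
  obtain ⟨r₁', hd₁', e₁'⟩ := pad_OR hDP hCB f' n' r' sd' hd' N hNb
  unfold ordD
  rw [← e₁, ← e₁']
  rcases lt_trichotomy r₁ r₁' with hlt | heq | hgt
  · exact two_mul_lt_OR ((hCB N).1 r₁ r₁' hd₁.wf hd₁'.wf hlt) _ _ (hk sd)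
  · subst heq
    by_cases h2 : sd false ∧ sd true
    · exfalso
      apply hnff
      refine hDC A₂ A₁ f' f N r₁ r₁ sd' sd hd₁' hd₁ (Or.inr ⟨rfl, ?_⟩)
      rintro (_ | _) _
      · exact h2.1
      · exact h2.2
    · by_cases h2' : sd' false ∧ sd' true
      · rw [if_neg h2, if_pos h2', add_zero]
        exact lt_add_of_pos_right _ zero_lt_one
      · exfalso
        apply hnff
        obtain ⟨s, hs⟩ := hd₁.side
        obtain ⟨s', hs'⟩ := hd₁'.side
        by_cases hss : s = s'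
        · subst hss
          refine hDC A₂ A₁ f' f N r₁ r₁ sd' sd hd₁' hd₁ (Or.inr ⟨rfl, ?_⟩)
          intro t ht
          by_cases hts : t = s
          · rw [hts]; exact hs
          · exfalso
            apply h2'
            cases s <;> cases t <;> simp_all
        · have hN1 : Dat (fun t => !(f' t)) N r₁ (fun s => sd' (!s)) := hDN A₂ f' N r₁ sd' hd₁'
          have hw : WRed (fun t => !(f' t)) f := by
            refine hDC A₂ A₁ _ f N r₁ r₁ _ sd hN1 hd₁ (Or.inr ⟨rfl, ?_⟩)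
            intro t ht
            by_cases hts : t = s
            · rw [hts]; exact hs
            · exfalso
              apply h2'
              cases s <;> cases t <;> cases s' <;> simp_all
          have h3 : WRed (fun t => !(f' t)) f' := wred_trans_OR hw hff
          have h4 : WRed f' (fun t => !(f' t)) := by
            have := wred_compl_OR h3
            simpa using this
          exact wred_trans_OR h4 hw
  · exfalso
    exact hnff (hDC A₂ A₁ f' f N r₁' r₁ sd' sd hd₁' hd₁ (Or.inl hgt))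

end Pool.Agent.Helper24.WH

end

section

/-!
# PROJECT WH (MP_76577a_lc), module SW: switching of strategies
-/

set_option autoImplicit false

namespace Pool.Agent.Helper24.WH

open Set TopologicalSpace Topology
open Ordinal hiding univ

section SW

variable {X Y : Type}

open Classical in
/-- state after a history: the move of the first event, the history before it, the history since then -/
private noncomputable def st_SW (E : Set X → Prop) :
    Hist X Y → Option ((Set X × Set Y) × Hist X Y × Hist X Y)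
  | [] => none
  | mv :: h => match st_SW E h with
    | some (m, h₀, t) => some (m, h₀, mv :: t)
    | none => if E mv.1 then some (mv, h, []) else none

/-- the combined strategy -/
private noncomputable def sg_SW (E : Set X → Prop) (σ₁ : Hist X Y → Set Y)
    (S : Set X × Set Y → Hist X Y → Hist X Y → Set Y) (h : Hist X Y) : Set Y :=
  match st_SW E h with
  | some (m, h₀, t) => S m h₀ t
  | none => σ₁ h

private theorem st_some_SW (E : Set X → Prop) {mv m : Set X × Set Y} {h h₀ t : Hist X Y}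
    (hs : st_SW E h = some (m, h₀, t)) : st_SW E (mv :: h) = some (m, h₀, mv :: t) := by
  rw [st_SW, hs]

private theorem st_none_SW (E : Set X → Prop) {mv : Set X × Set Y} {h : Hist X Y}
    (hs : st_SW E h = none) (hE : ¬ E mv.1) : st_SW E (mv :: h) = none := by
  rw [st_SW, hs]
  exact if_neg hE

private theorem st_new_SW (E : Set X → Prop) {mv : Set X × Set Y} {h : Hist X Y}
    (hs : st_SW E h = none) (hE : E mv.1) : st_SW E (mv :: h) = some (mv, h, []) := by
  rw [st_SW, hs]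
  exact if_pos hE

private theorem sg_some_SW (E : Set X → Prop) (σ₁ : Hist X Y → Set Y)
    (S : Set X × Set Y → Hist X Y → Hist X Y → Set Y) {m : Set X × Set Y} {h h₀ t : Hist X Y}
    (hs : st_SW E h = some (m, h₀, t)) : sg_SW E σ₁ S h = S m h₀ t := by
  rw [sg_SW, hs]

private theorem sg_none_SW (E : Set X → Prop) (σ₁ : Hist X Y → Set Y)
    (S : Set X × Set Y → Hist X Y → Hist X Y → Set Y) {h : Hist X Y}
    (hs : st_SW E h = none) : sg_SW E σ₁ S h = σ₁ h := by
  rw [sg_SW, hs]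

variable {P : Set (Set X)} {A : Set X} {τ' : TopologicalSpace Y} {A' : Set Y}

/-- the invariant -/
private theorem inv_SW (E : Set X → Prop) (σ₁ : Hist X Y → Set Y)
    (S : Set X × Set Y → Hist X Y → Hist X Y → Set Y) (h : Hist X Y)
    (hL : Legal P A τ' A' (sg_SW E σ₁ S) h) :
    (st_SW E h = none → Legal P A τ' A' σ₁ h) ∧
    ∀ m h₀ t, st_SW E h = some (m, h₀, t) → Legal P A τ' A' σ₁ (m :: h₀) ∧ E m.1 ∧
      Legal P (A ∩ m.1) τ' A' (S m h₀) t ∧ lastO h ⊆ m.1 ∧ lastO h ⊆ lastO t := by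
  induction h with
  | nil =>
    refine ⟨fun _ => trivial, fun m h₀ t hs => ?_⟩
    rw [st_SW] at hs
    cases hs
  | cons mv h ih =>
    obtain ⟨hL1, hP, hsub, ⟨x, hx⟩, hop, hne⟩ := hL
    obtain ⟨ih1, ih2⟩ := ih hL1
    rcases hst : st_SW E h with _ | ⟨m', h', t'⟩
    · have hL₁ := ih1 hst
      rw [sg_none_SW E σ₁ S hst] at hne
      have hL₂ : Legal P A τ' A' σ₁ (mv :: h) := ⟨hL₁, hP, hsub, ⟨x, hx⟩, hop, hne⟩
      refine ⟨fun _ => hL₂, fun m h₀ t hs => ?_⟩
      by_cases hE : E mv.1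
      · rw [st_new_SW E hst hE] at hs
        obtain ⟨rfl, rfl, rfl⟩ : mv = m ∧ h = h₀ ∧ [] = t := by
          have := Option.some.inj hs
          simpa [Prod.ext_iff] using this
        exact ⟨hL₂, hE, trivial, subset_rfl, Set.subset_univ _⟩
      · rw [st_none_SW E hst hE] at hs
        cases hs
    · obtain ⟨a1, a2, a3, a4, a5⟩ := ih2 m' h' t' hst
      refine ⟨fun hs => ?_, fun m h₀ t hs => ?_⟩
      · rw [st_some_SW E hst] at hs
        cases hs
      · rw [st_some_SW E hst] at hs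
        have hs' := Option.some.inj hs
        have e1 : m' = m := congrArg Prod.fst hs'
        have e2 : h' = h₀ := congrArg (fun z => z.2.1) hs'
        have e3 : mv :: t' = t := congrArg (fun z => z.2.2) hs'
        subst e1
        subst e2
        subst e3
        rw [sg_some_SW E σ₁ S hst] at hne
        refine ⟨a1, a2, ⟨a3, hP, hsub.trans a5, ⟨x, hx.1, hx.2, a4 (hsub hx.1)⟩, hop, hne⟩,
          hsub.trans a4, subset_rfl⟩

private theorem hist_SW {X Y : Type} (p : ℕ → Set X × Set Y) (l : ℕ) :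
    hist p (l + 1) = p l :: hist p l := rfl

end SW

/-- **SW** switching of strategies -/
theorem hSW : StSW := by
  intro X A₂ P τX P' τ' f f' A A' σ₁ E hE hmove hsw hlim
  have hch : ∀ (mv : Set X × Set (Tre A₂)) (h : Hist X (Tre A₂)),
      ∃ σ₂ : Hist X (Tre A₂) → Set (Tre A₂), Legal P A τ' A' σ₁ (mv :: h) → E mv.1 →
        σ₂ [] = σ₁ (mv :: h) ∧ Wins P τX P' τ' f f' (A ∩ mv.1) A' σ₂ := by
    intro mv h
    by_cases hc : Legal P A τ' A' σ₁ (mv :: h) ∧ E mv.1
    · obtain ⟨σ₂, h2⟩ := hsw mv h hc.1 hc.2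
      exact ⟨σ₂, fun _ _ => h2⟩
    · exact ⟨fun _ => ∅, fun a b => absurd ⟨a, b⟩ hc⟩
  choose S hS using hch
  have hmv : ∀ mv h, Legal P A τ' A' (sg_SW E σ₁ S) (mv :: h) →
      sg_SW E σ₁ S (mv :: h) ∈ P' ∧ sg_SW E σ₁ S (mv :: h) ⊆ mv.2 ∩ sg_SW E σ₁ S h ∧
        (sg_SW E σ₁ S (mv :: h) ∩ A').Nonempty := by
    intro mv h hL
    obtain ⟨i1, i2⟩ := inv_SW E σ₁ S _ hL
    obtain ⟨j1, j2⟩ := inv_SW E σ₁ S _ hL.1
    rcases hst : st_SW E h with _ | ⟨m', h', t'⟩
    · by_cases hEv : E mv.1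
      · have hn := st_new_SW (mv := mv) E hst hEv
        obtain ⟨a1, a2, _, _, _⟩ := i2 _ _ _ hn
        rw [sg_some_SW E σ₁ S hn, sg_none_SW E σ₁ S hst, (hS mv h a1 a2).1]
        exact hmove mv h a1
      · have hn := st_none_SW (mv := mv) E hst hEv
        rw [sg_none_SW E σ₁ S hn, sg_none_SW E σ₁ S hst]
        exact hmove mv h (i1 hn)
    · have hn := st_some_SW (mv := mv) E hst
      obtain ⟨a1, a2, a3, _, _⟩ := i2 _ _ _ hn
      rw [sg_some_SW E σ₁ S hn, sg_some_SW E σ₁ S hst]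
      exact (hS m' h' a1 a2).2.move mv t' a3
  refine ⟨sg_SW E σ₁ S, ?_, hmv, ?_⟩
  · exact sg_none_SW E σ₁ S (by rw [st_SW])
  · intro p hp x hx hxp hconv
    by_cases hall : ∀ l, st_SW E (hist p l) = none
    · have hnoE : ∀ l, ¬ E (p l).1 := by
        intro l hEl
        have h1 := hall (l + 1)
        rw [hist_SW, st_new_SW E (hall l) hEl] at h1
        cases h1
      have hleg : ∀ l, Legal P A τ' A' σ₁ (hist p l) := fun l => (inv_SW E σ₁ S _ (hp l)).1 (hall l)
      obtain ⟨x', hx', h2, h3, h4⟩ := hlim p hleg hnoE x hx hxp hconv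
      refine ⟨x', hx', fun l => ?_, h3, fun k => ?_⟩
      · rw [sg_none_SW E σ₁ S (hall l)]
        exact h2 l
      · obtain ⟨l, hl⟩ := h4 k
        refine ⟨l, ?_⟩
        rw [sg_none_SW E σ₁ S (hall l)]
        exact hl
    · push Not at hall
      classical
      -- the first event
      have hex : ∃ l, st_SW E (hist p l) ≠ none := hall
      obtain ⟨l₀, hl₀, hl₁⟩ : ∃ l₀, st_SW E (hist p l₀) = none ∧
          st_SW E (hist p (l₀ + 1)) ≠ none := by
        by_contra hcon
        push Not at hcon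
        obtain ⟨l, hl⟩ := hex
        apply hl
        induction l with
        | zero => rw [hist, st_SW]
        | succ l ih =>
          by_cases h0 : st_SW E (hist p l) = none
          · exact hcon l h0
          · exact absurd (ih h0) h0
      have hE₀ : E (p l₀).1 := by
        by_contra hne
        exact hl₁ (by rw [hist_SW]; exact st_none_SW E hl₀ hne)
      set p' : ℕ → Set X × Set (Tre A₂) := fun i => p (l₀ + 1 + i) with hp'
      have hst : ∀ j, st_SW E (hist p (l₀ + 1 + j)) = some (p l₀, hist p l₀, hist p' j) := by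
        intro j
        induction j with
        | zero => exact st_new_SW E hl₀ hE₀
        | succ j ih => exact st_some_SW E ih
      have hinv := fun j => (inv_SW E σ₁ S _ (hp (l₀ + 1 + j))).2 _ _ _ (hst j)
      obtain ⟨b1, b2, _, _, _⟩ := hinv 0
      have hanti : ∀ l, (p (l + 1)).1 ⊆ (p l).1 := fun l => (hp (l + 2)).2.2.1
      have hanti' : ∀ l j, (p (l + j)).1 ⊆ (p l).1 := by
        intro l j
        induction j with
        | zero => exact subset_rfl
        | succ j ih => exact (hanti (l + j)).trans ih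
      have hW := (hS (p l₀) (hist p l₀) b1 b2).2
      obtain ⟨x', hx', h2, h3, h4⟩ := hW.lim p' (fun j => (hinv j).2.2.1) x ⟨hx, hxp l₀⟩
        (fun j => hxp _) (fun U hU hxU => by
          obtain ⟨l, hl⟩ := hconv U hU hxU
          refine ⟨l, fun y hy => hl ⟨?_, hy.2.1⟩⟩
          have h5 : (p (l + (l₀ + 1))).1 ⊆ (p l).1 := hanti' l (l₀ + 1)
          apply h5
          rw [add_comm l (l₀ + 1)]
          exact hy.1)
      have hsg : ∀ j, sg_SW E σ₁ S (hist p (l₀ + 1 + j)) = S (p l₀) (hist p l₀) (hist p' j) :=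
        fun j => sg_some_SW E σ₁ S (hst j)
      have hdec : ∀ l j, sg_SW E σ₁ S (hist p (l + j)) ⊆ sg_SW E σ₁ S (hist p l) := by
        intro l j
        induction j with
        | zero => exact subset_rfl
        | succ j ih =>
          refine Set.Subset.trans ?_ ih
          exact (hmv (p (l + j)) (hist p (l + j)) (hp (l + j + 1))).2.1.trans
            Set.inter_subset_right
      refine ⟨x', hx', fun l => ?_, h3, fun k => ?_⟩
      · have h5 := hdec l (l₀ + 1)
        apply h5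
        rw [add_comm l (l₀ + 1), hsg l]
        exact h2 l
      · obtain ⟨l, hl⟩ := h4 k
        refine ⟨l₀ + 1 + l, ?_⟩
        rw [hsg l]
        exact hl

end Pool.Agent.Helper24.WH

end

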