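import Pool.Agent.Helper24.WH.St7

/-! Modules of project WH / WL merged into one file to shorten the build. -/

section

set_option autoImplicit false

namespace Pool.Agent.Helper24.WH

open Set

private theorem ec_mono_F1 {α : Type} {X Y : Set α} {v w : ℕ → Set α} (hX : X ⊆ Y)
    (h : ∀ n, v n ⊆ w n) : ∀ n, ec X v n ⊆ ec Y w n := by
  intro n
  cases n with
  | zero => exact hX
  | succ n => exact h n

private theorem ec_eq_F1 {P : Type} (t : Tre (Set P)) (V : ℕ → Set (Tre (Set P)))
    (Y : Set (Tre (Set P))) :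
    ec {w : List Bool | t.sub w ∈ Y} (fun n => {w | t.sub w ∈ V n})
      = fun n => {w | t.sub w ∈ ec Y V n} := by
  funext n
  cases n <;> rfl

private theorem sem_mono_F1 {P : Type} (t : Tre (Set P)) (φ : Fm P) :
    ∀ v w : ℕ → Set (List Bool), (∀ n, v n ⊆ w n) → φ.sem t v ⊆ φ.sem t w := by
  induction φ with
  | prop p => intro v w _; exact subset_rfl
  | nprop p => intro v w _; exact subset_rfl
  | top => intro v w _; exact subset_rfl
  | bot => intro v w _; exact subset_rfl
  | var n => intro v w h; exact h n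
  | and φ ψ h1 h2 => intro v w h; exact inter_subset_inter (h1 v w h) (h2 v w h)
  | or φ ψ h1 h2 => intro v w h; exact union_subset_union (h1 v w h) (h2 v w h)
  | dia φ h1 => intro v w h u hu; obtain ⟨b, hb⟩ := hu; exact ⟨b, h1 v w h hb⟩
  | box φ h1 => intro v w h u hu b; exact h1 v w h (hu b)
  | mu φ h1 =>
    intro v w h u hu X hX
    exact hu X (subset_trans (h1 _ _ (ec_mono_F1 subset_rfl h)) hX)
  | nu φ h1 =>
    intro v w h u hu
    obtain ⟨X, hX, huX⟩ := hu
    exact ⟨X, subset_trans hX (h1 _ _ (ec_mono_F1 subset_rfl h)), huX⟩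

private theorem sub_sub_F1 {P : Type} (t : Tre (Set P)) (u w : List Bool) :
    (t.sub u).sub w = t.sub (u ++ w) := by
  funext x
  simp [Tre.sub, List.append_assoc]

/-- **F1** -/
theorem hF1 : StF1 := by
  intro P φ t
  induction φ with
  | prop p => intro V u; simp [Fm.sem, Fm.SEM, Tre.sub]
  | nprop p => intro V u; simp [Fm.sem, Fm.SEM, Tre.sub]
  | top => intro V u; simp [Fm.sem, Fm.SEM]
  | bot => intro V u; simp [Fm.sem, Fm.SEM]
  | var n => intro V u; rfl
  | and φ ψ h1 h2 => intro V u; exact and_congr (h1 V u) (h2 V u)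
  | or φ ψ h1 h2 => intro V u; exact or_congr (h1 V u) (h2 V u)
  | dia φ h1 =>
    intro V u
    show (∃ b : Bool, u ++ [b] ∈ φ.sem t _) ↔ (∃ b : Bool, (t.sub u).sub [b] ∈ φ.SEM V)
    refine exists_congr fun b => ?_
    rw [sub_sub_F1]
    exact h1 V _
  | box φ h1 =>
    intro V u
    show (∀ b : Bool, u ++ [b] ∈ φ.sem t _) ↔ (∀ b : Bool, (t.sub u).sub [b] ∈ φ.SEM V)
    refine forall_congr' fun b => ?_
    rw [sub_sub_F1]
    exact h1 V _
  | mu φ h1 =>
    intro V u
    constructor
    · intro hu Y hY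
      refine hu {w | t.sub w ∈ Y} ?_
      intro w hw
      rw [ec_eq_F1] at hw
      exact hY ((h1 _ _).mp hw)
    · intro hu X hX
      have h2 : t.sub u ∈ {s : Tre (Set P) | ∀ w, t.sub w = s → w ∈ X} := by
        refine hu _ ?_
        intro s hs w hw
        rw [← hw] at hs
        have h3 := (h1 _ _).mpr hs
        rw [← ec_eq_F1] at h3
        refine hX (sem_mono_F1 t φ _ _ (ec_mono_F1 ?_ fun n => subset_rfl) h3)
        intro w' hw'
        exact hw' w' rfl
      exact h2 u rfl
  | nu φ h1 =>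
    intro V u
    constructor
    · rintro ⟨X, hX, hu⟩
      refine ⟨{s : Tre (Set P) | ∃ w ∈ X, t.sub w = s}, ?_, ⟨u, hu, rfl⟩⟩
      rintro s ⟨w, hw, rfl⟩
      refine (h1 _ _).mp ?_
      rw [← ec_eq_F1]
      refine sem_mono_F1 t φ _ _ (ec_mono_F1 ?_ fun n => subset_rfl) (hX hw)
      intro w' hw'
      exact ⟨w', hw', rfl⟩
    · rintro ⟨Y, hY, hu⟩
      refine ⟨{w | t.sub w ∈ Y}, ?_, hu⟩
      intro w hw
      show w ∈ φ.sem t _
      rw [ec_eq_F1]
      exact (h1 _ _).mpr (hY hw)

end Pool.Agent.Helper24.WH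

end

section

/-!
# PROJECT WH (MP_76577a_lc), module F2: the sandwich lemma
-/

set_option autoImplicit false

namespace Pool.Agent.Helper24.WH

open Set TopologicalSpace Topology
open Ordinal hiding univ

private theorem ec_mono_F2 {α : Type} {X Y : Set α} {V R : ℕ → Set α} (h : X ⊆ Y) (hV : ∀ i, V i ⊆ R i) :
    ∀ i, ec X V i ⊆ ec Y R i
  | 0 => h
  | (n + 1) => hV n

/-- monotonicity of the tree-set semantics -/
private theorem mono_F2 {P : Type} (φ : Fm P) : ∀ V R : ℕ → Set (Tre (Set P)), (∀ i, V i ⊆ R i) →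
    φ.SEM V ⊆ φ.SEM R := by
  induction φ with
  | prop p => intro V R h; exact subset_rfl
  | nprop p => intro V R h; exact subset_rfl
  | top => intro V R h; exact subset_rfl
  | bot => intro V R h; exact subset_rfl
  | var n => intro V R h; exact h n
  | and φ ψ hφ hψ => intro V R h; exact inter_subset_inter (hφ V R h) (hψ V R h)
  | or φ ψ hφ hψ => intro V R h; exact union_subset_union (hφ V R h) (hψ V R h)
  | dia φ hφ => intro V R h t ht; obtain ⟨b, hb⟩ := ht; exact ⟨b, hφ V R h hb⟩
  | box φ hφ => intro V R h t ht b; exact hφ V R h (ht b)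
  | mu φ hφ =>
    intro V R h t ht X hX
    exact ht X ((hφ _ _ (ec_mono_F2 subset_rfl h)).trans hX)
  | nu φ hφ =>
    intro V R h t ht
    obtain ⟨X, hX, htX⟩ := ht
    exact ⟨X, hX.trans (hφ _ _ (ec_mono_F2 subset_rfl h)), htX⟩

/-- dependence on the free variables only -/
private theorem free_F2 {P : Type} (φ : Fm P) : ∀ V R : ℕ → Set (Tre (Set P)), (∀ i, φ.free i → V i = R i) →
    φ.SEM V = φ.SEM R := by
  induction φ with
  | prop p => intro V R h; rfl
  | nprop p => intro V R h; rfl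
  | top => intro V R h; rfl
  | bot => intro V R h; rfl
  | var n => intro V R h; exact h n rfl
  | and φ ψ hφ hψ =>
    intro V R h
    show φ.SEM V ∩ ψ.SEM V = φ.SEM R ∩ ψ.SEM R
    rw [hφ V R (fun i hi => h i (Or.inl hi)), hψ V R (fun i hi => h i (Or.inr hi))]
  | or φ ψ hφ hψ =>
    intro V R h
    show φ.SEM V ∪ ψ.SEM V = φ.SEM R ∪ ψ.SEM R
    rw [hφ V R (fun i hi => h i (Or.inl hi)), hψ V R (fun i hi => h i (Or.inr hi))]
  | dia φ hφ =>
    intro V R h
    show {t | ∃ b : Bool, Tre.sub t [b] ∈ φ.SEM V} = {t | ∃ b : Bool, Tre.sub t [b] ∈ φ.SEM R}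
    rw [hφ V R (fun i hi => h i hi)]
  | box φ hφ =>
    intro V R h
    show {t | ∀ b : Bool, Tre.sub t [b] ∈ φ.SEM V} = {t | ∀ b : Bool, Tre.sub t [b] ∈ φ.SEM R}
    rw [hφ V R (fun i hi => h i hi)]
  | mu φ hφ =>
    intro V R h
    have key : ∀ X, φ.SEM (ec X V) = φ.SEM (ec X R) := by
      intro X
      apply hφ
      intro i hi
      cases i with
      | zero => rfl
      | succ n => exact h n hi
    show ⋂₀ {X | φ.SEM (ec X V) ⊆ X} = ⋂₀ {X | φ.SEM (ec X R) ⊆ X}
    simp only [key]
  | nu φ hφ =>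
    intro V R h
    have key : ∀ X, φ.SEM (ec X V) = φ.SEM (ec X R) := by
      intro X
      apply hφ
      intro i hi
      cases i with
      | zero => rfl
      | succ n => exact h n hi
    show ⋃₀ {X | X ⊆ φ.SEM (ec X V)} = ⋃₀ {X | X ⊆ φ.SEM (ec X R)}
    simp only [key]

private theorem head_F2 {P : Type} (φ : Fm P) (E : ℕ → Set (Tre (Set P))) : φ.SEM E ∈ φ.subs E := by
  cases φ <;> simp [Fm.subs, Fm.SEM]

/-- the least fixed point is a prefixpoint -/
private theorem lfp_F2 {P : Type} (φ : Fm P) (V : ℕ → Set (Tre (Set P))) :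
    φ.SEM (ec ((Fm.mu φ).SEM V) V) ⊆ (Fm.mu φ).SEM V := by
  intro t ht X hX
  apply hX
  have hsub : (Fm.mu φ).SEM V ⊆ X := fun s hs => hs X hX
  exact mono_F2 φ _ _ (ec_mono_F2 hsub (fun i => subset_rfl)) ht

/-- the greatest fixed point is a postfixpoint -/
private theorem gfp_F2 {P : Type} (φ : Fm P) (V : ℕ → Set (Tre (Set P))) :
    (Fm.nu φ).SEM V ⊆ φ.SEM (ec ((Fm.nu φ).SEM V) V) := by
  intro t ht
  obtain ⟨X, hX, htX⟩ := ht
  have hsub : X ⊆ (Fm.nu φ).SEM V := fun s hs => ⟨X, hX, hs⟩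
  exact mono_F2 φ _ _ (ec_mono_F2 hsub (fun i => subset_rfl)) (hX htX)

private theorem subf_F2 {A : Type} (a : A) (p : Tre A × Tre A) : (Tre.mk a p).sub [false] = p.1 := rfl

private theorem subt_F2 {A : Type} (a : A) (p : Tre A × Tre A) : (Tre.mk a p).sub [true] = p.2 := rfl

/-- the sandwich lemma -/
private theorem sand_F2 {P : Type} (φ : Fm P) : ∀ (V E R : ℕ → Set (Tre (Set P))) (a : Set P)
    (p p' : Tre (Set P) × Tre (Set P)),
    (∀ i, V i ⊆ E i) → (∀ i, E i ⊆ R i) → (∀ F ∈ φ.subs E, (p.1 ∈ F ↔ p'.1 ∈ F) ∧ (p.2 ∈ F ↔ p'.2 ∈ F)) →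
    (∀ i, Tre.mk a p ∈ V i → Tre.mk a p' ∈ R i) → Tre.mk a p ∈ φ.SEM V → Tre.mk a p' ∈ φ.SEM R := by
  induction φ with
  | prop q => intro V E R a p p' h1 h2 hs hv h; exact h
  | nprop q => intro V E R a p p' h1 h2 hs hv h; exact h
  | top => intro V E R a p p' h1 h2 hs hv h; trivial
  | bot => intro V E R a p p' h1 h2 hs hv h; exact h
  | var n => intro V E R a p p' h1 h2 hs hv h; exact hv n h
  | and φ ψ hφ hψ =>
    intro V E R a p p' h1 h2 hs hv h
    refine ⟨hφ V E R a p p' h1 h2 (fun F hF => hs F ?_) hv h.1, hψ V E R a p p' h1 h2 (fun F hF => hs F ?_) hv h.2⟩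
    · exact List.mem_cons_of_mem _ (List.mem_append_left _ hF)
    · exact List.mem_cons_of_mem _ (List.mem_append_right _ hF)
  | or φ ψ hφ hψ =>
    intro V E R a p p' h1 h2 hs hv h
    rcases h with h | h
    · exact Or.inl (hφ V E R a p p' h1 h2
        (fun F hF => hs F (List.mem_cons_of_mem _ (List.mem_append_left _ hF))) hv h)
    · exact Or.inr (hψ V E R a p p' h1 h2
        (fun F hF => hs F (List.mem_cons_of_mem _ (List.mem_append_right _ hF))) hv h)
  | dia φ hφ =>
    intro V E R a p p' h1 h2 hs hv h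
    have hh := hs (φ.SEM E) (List.mem_cons_of_mem _ (head_F2 φ E))
    obtain ⟨b, hb⟩ := h
    refine ⟨b, ?_⟩
    have hb' := mono_F2 φ V E h1 hb
    apply mono_F2 φ E R h2
    cases b with
    | false => exact hh.1.1 hb'
    | true => exact hh.2.1 hb'
  | box φ hφ =>
    intro V E R a p p' h1 h2 hs hv h b
    have hh := hs (φ.SEM E) (List.mem_cons_of_mem _ (head_F2 φ E))
    have hb' := mono_F2 φ V E h1 (h b)
    apply mono_F2 φ E R h2
    cases b with
    | false => exact hh.1.1 hb'
    | true => exact hh.2.1 hb'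
  | mu φ hφ =>
    intro V E R a p p' h1 h2 hs hv h
    by_contra hcon
    have hVE : (Fm.mu φ).SEM V ⊆ (Fm.mu φ).SEM E := mono_F2 (Fm.mu φ) V E h1
    have hER : (Fm.mu φ).SEM E ⊆ (Fm.mu φ).SEM R := mono_F2 (Fm.mu φ) E R h2
    set Y : Set (Tre (Set P)) := (Fm.mu φ).SEM V \ {Tre.mk a p} with hY
    have hnot : Tre.mk a p ∉ φ.SEM (ec Y V) := by
      intro hin
      apply hcon
      apply lfp_F2
      refine hφ (ec Y V) (ec ((Fm.mu φ).SEM E) E) (ec ((Fm.mu φ).SEM R) R) a p p'
        (ec_mono_F2 (sdiff_subset.trans hVE) h1) (ec_mono_F2 hER h2)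
        (fun F hF => hs F (List.mem_cons_of_mem _ hF)) ?_ hin
      intro i
      cases i with
      | zero => intro hi; exact absurd rfl hi.2
      | succ n => exact hv n
    have hpre : φ.SEM (ec Y V) ⊆ Y := by
      intro t ht
      refine ⟨lfp_F2 φ V (mono_F2 φ _ _ (ec_mono_F2 sdiff_subset (fun i => subset_rfl)) ht), ?_⟩
      intro heq
      rw [mem_singleton_iff] at heq
      rw [heq] at ht
      exact hnot ht
    exact (h Y hpre).2 rfl
  | nu φ hφ =>
    intro V E R a p p' h1 h2 hs hv h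
    have hVE : (Fm.nu φ).SEM V ⊆ (Fm.nu φ).SEM E := mono_F2 (Fm.nu φ) V E h1
    have hER : (Fm.nu φ).SEM E ⊆ (Fm.nu φ).SEM R := mono_F2 (Fm.nu φ) E R h2
    set Y : Set (Tre (Set P)) := (Fm.nu φ).SEM R ∪ {Tre.mk a p'} with hY
    refine ⟨Y, ?_, Or.inr rfl⟩
    rintro t (ht | ht)
    · exact mono_F2 φ _ _ (ec_mono_F2 subset_union_left (fun i => subset_rfl)) (gfp_F2 φ R ht)
    · rw [mem_singleton_iff] at ht
      rw [ht]
      refine hφ (ec ((Fm.nu φ).SEM V) V) (ec ((Fm.nu φ).SEM E) E) (ec Y R) a p p'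
        (ec_mono_F2 hVE h1) (ec_mono_F2 (hER.trans subset_union_left) h2)
        (fun F hF => hs F (List.mem_cons_of_mem _ hF)) ?_ (gfp_F2 φ V h)
      intro i
      cases i with
      | zero => intro _; exact Or.inr rfl
      | succ n => exact hv n

theorem hF2 : StF2 := fun _ φ => ⟨mono_F2 φ, free_F2 φ, sand_F2 φ⟩

end Pool.Agent.Helper24.WH

end

section

/-!
# Project WH, module F3
-/

set_option autoImplicit false

namespace Pool.Agent.Helper24.WH

open Set TopologicalSpace Topology
open Ordinal hiding univ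

/-- the list of the values of the subformulas depends only on the free variables -/
theorem subs_congr_F3 (h2 : StF2) {P : Type} (φ : Fm P) :
    ∀ V R : ℕ → Set (Tre (Set P)), (∀ i, φ.free i → V i = R i) → φ.subs V = φ.subs R := by
  induction φ with
  | prop p => intro V R _; rfl
  | nprop p => intro V R _; rfl
  | top => intro V R _; rfl
  | bot => intro V R _; rfl
  | var n =>
    intro V R h
    show [V n] = [R n]
    rw [h n rfl]
  | and φ ψ ih1 ih2 =>
    intro V R h
    show (Fm.and φ ψ).SEM V :: (φ.subs V ++ ψ.subs V) = (Fm.and φ ψ).SEM R :: (φ.subs R ++ ψ.subs R)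
    rw [(h2 P (Fm.and φ ψ)).2.1 V R h, ih1 V R (fun i hi => h i (Or.inl hi)),
      ih2 V R (fun i hi => h i (Or.inr hi))]
  | or φ ψ ih1 ih2 =>
    intro V R h
    show (Fm.or φ ψ).SEM V :: (φ.subs V ++ ψ.subs V) = (Fm.or φ ψ).SEM R :: (φ.subs R ++ ψ.subs R)
    rw [(h2 P (Fm.or φ ψ)).2.1 V R h, ih1 V R (fun i hi => h i (Or.inl hi)),
      ih2 V R (fun i hi => h i (Or.inr hi))]
  | dia φ ih =>
    intro V R h
    show (Fm.dia φ).SEM V :: φ.subs V = (Fm.dia φ).SEM R :: φ.subs R
    rw [(h2 P (Fm.dia φ)).2.1 V R h, ih V R h]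
  | box φ ih =>
    intro V R h
    show (Fm.box φ).SEM V :: φ.subs V = (Fm.box φ).SEM R :: φ.subs R
    rw [(h2 P (Fm.box φ)).2.1 V R h, ih V R h]
  | mu φ ih =>
    intro V R h
    show (Fm.mu φ).SEM V :: φ.subs (ec ((Fm.mu φ).SEM V) V) =
      (Fm.mu φ).SEM R :: φ.subs (ec ((Fm.mu φ).SEM R) R)
    rw [(h2 P (Fm.mu φ)).2.1 V R h, ih (ec ((Fm.mu φ).SEM R) V) (ec ((Fm.mu φ).SEM R) R)]
    intro i hi
    cases i with
    | zero => rfl
    | succ i => exact h i hi
  | nu φ ih =>
    intro V R h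
    show (Fm.nu φ).SEM V :: φ.subs (ec ((Fm.nu φ).SEM V) V) =
      (Fm.nu φ).SEM R :: φ.subs (ec ((Fm.nu φ).SEM R) R)
    rw [(h2 P (Fm.nu φ)).2.1 V R h, ih (ec ((Fm.nu φ).SEM R) V) (ec ((Fm.nu φ).SEM R) R)]
    intro i hi
    cases i with
    | zero => rfl
    | succ i => exact h i hi

private theorem head_F3 (h2 : StF2) {P : Type} (φ : Fm P) (E : ℕ → Set (Tre (Set P))) (a : Set P)
    (p p' : Tre (Set P) × Tre (Set P))
    (h1 : ∀ i, φ.free i → (Tre.mk a p ∈ E i ↔ Tre.mk a p' ∈ E i))
    (hs : ∀ F ∈ φ.subs E, (p.1 ∈ F ↔ p'.1 ∈ F) ∧ (p.2 ∈ F ↔ p'.2 ∈ F)) :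
    Tre.mk a p ∈ φ.SEM E ↔ Tre.mk a p' ∈ φ.SEM E := by
  classical
  obtain ⟨E', hE'⟩ : ∃ E' : ℕ → Set (Tre (Set P)), E' = fun i => if φ.free i then E i else ∅ :=
    ⟨_, rfl⟩
  have hE : ∀ i, φ.free i → E' i = E i := by
    intro i hi
    rw [hE']
    exact if_pos hi
  have e1 : φ.SEM E' = φ.SEM E := (h2 P φ).2.1 E' E hE
  have e2 : φ.subs E' = φ.subs E := subs_congr_F3 h2 φ E' E hE
  have h1' : ∀ i, (Tre.mk a p ∈ E' i ↔ Tre.mk a p' ∈ E' i) := by
    intro i
    by_cases hi : φ.free i
    · rw [hE i hi]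
      exact h1 i hi
    · have h0 : E' i = ∅ := by
        rw [hE']
        exact if_neg hi
      rw [h0]
      exact Iff.rfl
  rw [← e2] at hs
  rw [← e1]
  constructor
  · exact (h2 P φ).2.2 E' E' E' a p p' (fun _ => Subset.rfl) (fun _ => Subset.rfl) hs
      (fun i => (h1' i).1)
  · exact (h2 P φ).2.2 E' E' E' a p' p (fun _ => Subset.rfl) (fun _ => Subset.rfl)
      (fun F hF => ⟨(hs F hF).1.symm, (hs F hF).2.symm⟩) (fun i => (h1' i).2)

theorem hF3 (h2 : StF2) : StF3 := by
  intro P φ
  induction φ with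
  | prop p =>
    intro E a p p' h1 hs F hF
    obtain rfl : F = _ := List.mem_singleton.1 hF
    exact head_F3 h2 _ E a p p' h1 hs
  | nprop p =>
    intro E a p p' h1 hs F hF
    obtain rfl : F = _ := List.mem_singleton.1 hF
    exact head_F3 h2 _ E a p p' h1 hs
  | top =>
    intro E a p p' h1 hs F hF
    obtain rfl : F = _ := List.mem_singleton.1 hF
    exact head_F3 h2 _ E a p p' h1 hs
  | bot =>
    intro E a p p' h1 hs F hF
    obtain rfl : F = _ := List.mem_singleton.1 hF
    exact head_F3 h2 _ E a p p' h1 hs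
  | var n =>
    intro E a p p' h1 hs F hF
    obtain rfl : F = _ := List.mem_singleton.1 hF
    exact h1 n rfl
  | and φ ψ ih1 ih2 =>
    intro E a p p' h1 hs F hF
    have hh := head_F3 h2 _ E a p p' h1 hs
    rcases List.mem_cons.1 hF with rfl | hF
    · exact hh
    · rcases List.mem_append.1 hF with hF | hF
      · exact ih1 E a p p' (fun i hi => h1 i (Or.inl hi))
          (fun G hG => hs G (List.mem_cons_of_mem _ (List.mem_append_left _ hG))) F hF
      · exact ih2 E a p p' (fun i hi => h1 i (Or.inr hi))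
          (fun G hG => hs G (List.mem_cons_of_mem _ (List.mem_append_right _ hG))) F hF
  | or φ ψ ih1 ih2 =>
    intro E a p p' h1 hs F hF
    have hh := head_F3 h2 _ E a p p' h1 hs
    rcases List.mem_cons.1 hF with rfl | hF
    · exact hh
    · rcases List.mem_append.1 hF with hF | hF
      · exact ih1 E a p p' (fun i hi => h1 i (Or.inl hi))
          (fun G hG => hs G (List.mem_cons_of_mem _ (List.mem_append_left _ hG))) F hF
      · exact ih2 E a p p' (fun i hi => h1 i (Or.inr hi))
          (fun G hG => hs G (List.mem_cons_of_mem _ (List.mem_append_right _ hG))) F hF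
  | dia φ ih =>
    intro E a p p' h1 hs F hF
    have hh := head_F3 h2 _ E a p p' h1 hs
    rcases List.mem_cons.1 hF with rfl | hF
    · exact hh
    · exact ih E a p p' h1 (fun G hG => hs G (List.mem_cons_of_mem _ hG)) F hF
  | box φ ih =>
    intro E a p p' h1 hs F hF
    have hh := head_F3 h2 _ E a p p' h1 hs
    rcases List.mem_cons.1 hF with rfl | hF
    · exact hh
    · exact ih E a p p' h1 (fun G hG => hs G (List.mem_cons_of_mem _ hG)) F hF
  | mu φ ih =>
    intro E a p p' h1 hs F hF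
    have hh := head_F3 h2 _ E a p p' h1 hs
    rcases List.mem_cons.1 hF with rfl | hF
    · exact hh
    · refine ih (ec ((Fm.mu φ).SEM E) E) a p p' ?_
        (fun G hG => hs G (List.mem_cons_of_mem _ hG)) F hF
      intro i hi
      cases i with
      | zero => exact hh
      | succ i => exact h1 i hi
  | nu φ ih =>
    intro E a p p' h1 hs F hF
    have hh := head_F3 h2 _ E a p p' h1 hs
    rcases List.mem_cons.1 hF with rfl | hF
    · exact hh
    · refine ih (ec ((Fm.nu φ).SEM E) E) a p p' ?_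
        (fun G hG => hs G (List.mem_cons_of_mem _ hG)) F hF
      intro i hi
      cases i with
      | zero => exact hh
      | succ i => exact h1 i hi

end Pool.Agent.Helper24.WH

end

section

/-!
# Project WH, module F4: alternation-free implies `okM`, `okN`
-/

set_option autoImplicit false

namespace Pool.Agent.Helper24.WH

theorem hF4 : StF4 := by
  intro P φ
  induction φ with
  | prop p => intro _; exact ⟨fun _ => by simp [Fm.okM], fun _ => by simp [Fm.okN]⟩
  | nprop p => intro _; exact ⟨fun _ => by simp [Fm.okM], fun _ => by simp [Fm.okN]⟩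
  | top => intro _; exact ⟨fun _ => by simp [Fm.okM], fun _ => by simp [Fm.okN]⟩
  | bot => intro _; exact ⟨fun _ => by simp [Fm.okM], fun _ => by simp [Fm.okN]⟩
  | var n => intro _; exact ⟨fun _ => by simp [Fm.okM], fun _ => by simp [Fm.okN]⟩
  | and φ ψ ih1 ih2 =>
    intro h
    simp only [Fm.altFree] at h
    obtain ⟨h1, h2⟩ := h
    constructor
    · intro hd
      simp only [Fm.free, Fm.nuDep] at hd
      simp only [Fm.okM]
      exact ⟨(ih1 h1).1 fun i hi hn => hd i (Or.inl hi) (Or.inl hn),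
        (ih2 h2).1 fun i hi hn => hd i (Or.inr hi) (Or.inr hn)⟩
    · intro hd
      simp only [Fm.free, Fm.muDep] at hd
      simp only [Fm.okN]
      exact ⟨(ih1 h1).2 fun i hi hn => hd i (Or.inl hi) (Or.inl hn),
        (ih2 h2).2 fun i hi hn => hd i (Or.inr hi) (Or.inr hn)⟩
  | or φ ψ ih1 ih2 =>
    intro h
    simp only [Fm.altFree] at h
    obtain ⟨h1, h2⟩ := h
    constructor
    · intro hd
      simp only [Fm.free, Fm.nuDep] at hd
      simp only [Fm.okM]
      exact ⟨(ih1 h1).1 fun i hi hn => hd i (Or.inl hi) (Or.inl hn),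
        (ih2 h2).1 fun i hi hn => hd i (Or.inr hi) (Or.inr hn)⟩
    · intro hd
      simp only [Fm.free, Fm.muDep] at hd
      simp only [Fm.okN]
      exact ⟨(ih1 h1).2 fun i hi hn => hd i (Or.inl hi) (Or.inl hn),
        (ih2 h2).2 fun i hi hn => hd i (Or.inr hi) (Or.inr hn)⟩
  | dia φ ih =>
    intro h
    simp only [Fm.altFree] at h
    constructor
    · intro hd
      simp only [Fm.free, Fm.nuDep] at hd
      simp only [Fm.okM]
      exact (ih h).1 hd
    · intro hd
      simp only [Fm.free, Fm.muDep] at hd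
      simp only [Fm.okN]
      exact (ih h).2 hd
  | box φ ih =>
    intro h
    simp only [Fm.altFree] at h
    constructor
    · intro hd
      simp only [Fm.free, Fm.nuDep] at hd
      simp only [Fm.okM]
      exact (ih h).1 hd
    · intro hd
      simp only [Fm.free, Fm.muDep] at hd
      simp only [Fm.okN]
      exact (ih h).2 hd
  | mu φ ih =>
    intro h
    simp only [Fm.altFree] at h
    obtain ⟨h1, h2⟩ := h
    constructor
    · intro hd
      simp only [Fm.free, Fm.nuDep] at hd
      simp only [Fm.okM]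
      refine (ih h1).1 fun i hi => ?_
      cases i with
      | zero => exact h2
      | succ i => exact hd i hi
    · intro hd
      simp only [Fm.free, Fm.muDep] at hd
      have h3 : ∀ n, ¬ φ.free (n + 1) := fun n hn => hd n hn hn
      simp only [Fm.okN]
      refine ⟨h3, (ih h1).1 fun i hi => ?_⟩
      cases i with
      | zero => exact h2
      | succ i => exact absurd hi (h3 i)
  | nu φ ih =>
    intro h
    simp only [Fm.altFree] at h
    obtain ⟨h1, h2⟩ := h
    constructor
    · intro hd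
      simp only [Fm.free, Fm.nuDep] at hd
      have h3 : ∀ n, ¬ φ.free (n + 1) := fun n hn => hd n hn hn
      simp only [Fm.okM]
      refine ⟨h3, (ih h1).2 fun i hi => ?_⟩
      cases i with
      | zero => exact h2
      | succ i => exact absurd hi (h3 i)
    · intro hd
      simp only [Fm.free, Fm.muDep] at hd
      simp only [Fm.okN]
      refine (ih h1).2 fun i hi => ?_
      cases i with
      | zero => exact h2
      | succ i => exact hd i hi

end Pool.Agent.Helper24.WH

end

section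

/-!
# PROJECT WH, module F5: openness in the base tower
-/

set_option autoImplicit false

namespace Pool.Agent.Helper24.WH

open Set TopologicalSpace Topology
open Ordinal hiding univ

private theorem bT_eq_nt_F5 {A S : Type} (g : Tre A → S) (j : ℕ) :
    ∃ G : Set (Set (Tre A)), bT g j = nt G := by
  cases j with
  | zero => exact ⟨∅, rfl⟩
  | succ j => exact ⟨_, rfl⟩

private theorem cyl_open_F5 {A S : Type} (g : Tre A → S) (j : ℕ) (Q : A → Prop) :
    IsOpen[bT g j] {t : Tre A | Q (t [])} := by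
  obtain ⟨G, hG⟩ := bT_eq_nt_F5 g j
  rw [hG]
  have h1 : {t : Tre A | Q (t [])} = ⋃ a ∈ {a : A | Q a}, {t : Tre A | t [] = a} := by
    ext t
    simp only [mem_setOf_eq, mem_iUnion, exists_prop]
    constructor
    · intro h; exact ⟨_, h, rfl⟩
    · rintro ⟨a, ha, h⟩; rw [h]; exact ha
  rw [h1]
  letI := nt G
  refine isOpen_biUnion fun a _ => ?_
  exact isOpen_generateFrom_of_mem (Or.inl ⟨[], a, rfl⟩)

private theorem cyl_closed_F5 {A S : Type} (g : Tre A → S) (j : ℕ) (Q : A → Prop) :
    IsClosed[bT g j] {t : Tre A | Q (t [])} := by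
  have h1 := cyl_open_F5 g j (fun a => ¬ Q a)
  have h2 : {t : Tre A | Q (t [])} = {t : Tre A | ¬ Q (t [])}ᶜ := by
    ext t; simp
  rw [h2]
  letI := bT g j
  exact h1.isClosed_compl

/-- least fixed point -/
private theorem lfp_open_F5 {X : Type} (τ : TopologicalSpace X) (F : Set X → Set X)
    (hm : ∀ A B, A ⊆ B → F A ⊆ F B) (ho : ∀ A, IsOpen[τ] A → IsOpen[τ] (F A)) :
    IsOpen[τ] (⋂₀ {X | F X ⊆ X}) := by
  letI := τ
  set L := ⋂₀ {X | F X ⊆ X} with hL
  have h1 : F L ⊆ L := by
    apply subset_sInter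
    intro X hX
    exact (hm _ _ (sInter_subset_of_mem hX)).trans hX
  have h2 : F (interior L) ⊆ interior L :=
    interior_maximal ((hm _ _ interior_subset).trans h1) (ho _ isOpen_interior)
  have h3 : L ⊆ interior L := sInter_subset_of_mem h2
  have h4 : interior L = L := Subset.antisymm interior_subset h3
  rw [← h4]
  exact isOpen_interior

/-- greatest fixed point -/
private theorem gfp_closed_F5 {X : Type} (τ : TopologicalSpace X) (F : Set X → Set X)
    (hm : ∀ A B, A ⊆ B → F A ⊆ F B) (ho : ∀ A, IsClosed[τ] A → IsClosed[τ] (F A)) :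
    IsClosed[τ] (⋃₀ {X | X ⊆ F X}) := by
  letI := τ
  set L := ⋃₀ {X | X ⊆ F X} with hL
  have h1 : L ⊆ F L := by
    apply sUnion_subset
    intro X hX
    exact hX.trans (hm _ _ (subset_sUnion_of_mem hX))
  have h2 : closure L ⊆ F (closure L) :=
    closure_minimal (h1.trans (hm _ _ subset_closure)) (ho _ isClosed_closure)
  have h3 : closure L ⊆ L := subset_sUnion_of_mem h2
  have h4 : closure L = L := Subset.antisymm h3 subset_closure
  rw [← h4]
  exact isClosed_closure

theorem hF5 (hF2 : StF2) (hNT : StNT) (hBB : StBB) : StF5 := by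
  intro P S _ _ g Ga hg
  -- monotonicity of the base tower
  have hmono : ∀ j k, j ≤ k → bT g k ≤ bT g j := by
    intro j k hjk
    induction k, hjk using Nat.le_induction with
    | base => exact le_rfl
    | succ k _ ih => exact (hBB (Set P) S g Ga hg k).1.trans ih
  have hOpen : ∀ j k, j ≤ k → ∀ U, IsOpen[bT g j] U → IsOpen[bT g k] U :=
    fun j k hjk U hU => hmono j k hjk U hU
  have hClosed : ∀ j k, j ≤ k → ∀ U, IsClosed[bT g j] U → IsClosed[bT g k] U :=
    fun j k hjk U hU => IsClosed.mono hU (hmono j k hjk)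
  -- a definable closed set is open at the next level
  have hNext : ∀ j (K : Set S), IsClosed[bT g j] (g ⁻¹' K) → IsOpen[bT g (j + 1)] (g ⁻¹' K) := by
    intro j K hK
    obtain ⟨-, hop, -⟩ := hNT (Set P)
    exact hop {F | ∃ K : Set S, F = g ⁻¹' K ∧ IsClosed[bT g j] F} _ ⟨K, rfl, hK⟩
  have hNext' : ∀ j (K : Set S), IsOpen[bT g j] (g ⁻¹' K) → IsClosed[bT g (j + 1)] (g ⁻¹' K) := by
    intro j K hK
    have h1 : IsClosed[bT g j] (g ⁻¹' Kᶜ) := by
      letI := bT g j
      rw [preimage_compl]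
      exact IsOpen.isClosed_compl hK
    have h2 := hNext j Kᶜ h1
    letI := bT g (j + 1)
    rw [preimage_compl] at h2
    exact isOpen_compl_iff.mp h2
  have hcont : ∀ j (u : List Bool), @Continuous _ _ (bT g j) (bT g j)
      (fun t : Tre (Set P) => t.sub u) := by
    intro j u
    obtain ⟨G, hG⟩ := bT_eq_nt_F5 g j
    rw [hG]
    exact (hNT (Set P)).2.2.1 G u
  intro φ
  induction φ with
  | prop p =>
    intro E _
    exact ⟨0, fun j _ => ⟨fun _ V _ => cyl_open_F5 g j (fun a => p ∈ a),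
      fun _ V _ => cyl_closed_F5 g j (fun a => p ∈ a)⟩⟩
  | nprop p =>
    intro E _
    exact ⟨0, fun j _ => ⟨fun _ V _ => cyl_open_F5 g j (fun a => p ∉ a),
      fun _ V _ => cyl_closed_F5 g j (fun a => p ∉ a)⟩⟩
  | top =>
    intro E _
    exact ⟨0, fun j _ => ⟨fun _ V _ => @isOpen_univ _ (bT g j),
      fun _ V _ => @isClosed_univ _ (bT g j)⟩⟩
  | bot =>
    intro E _
    exact ⟨0, fun j _ => ⟨fun _ V _ => @isOpen_empty _ (bT g j),
      fun _ V _ => @isClosed_empty _ (bT g j)⟩⟩
  | var n =>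
    intro E _
    exact ⟨0, fun j _ => ⟨fun _ V hV => hV n rfl, fun _ V hV => hV n rfl⟩⟩
  | and φ ψ ihφ ihψ =>
    intro E hE
    obtain ⟨J₁, h₁⟩ := ihφ E (fun F hF => hE F (List.mem_cons_of_mem _ (List.mem_append_left _ hF)))
    obtain ⟨J₂, h₂⟩ := ihψ E (fun F hF => hE F (List.mem_cons_of_mem _ (List.mem_append_right _ hF)))
    refine ⟨max J₁ J₂, fun j hj => ⟨?_, ?_⟩⟩
    · intro hok V hV
      have a1 := ((h₁ j ((le_max_left _ _).trans hj)).1 hok.1 V (fun i hi => hV i (Or.inl hi)))
      have a2 := ((h₂ j ((le_max_right _ _).trans hj)).1 hok.2 V (fun i hi => hV i (Or.inr hi)))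
      letI := bT g j
      exact a1.inter a2
    · intro hok V hV
      have a1 := ((h₁ j ((le_max_left _ _).trans hj)).2 hok.1 V (fun i hi => hV i (Or.inl hi)))
      have a2 := ((h₂ j ((le_max_right _ _).trans hj)).2 hok.2 V (fun i hi => hV i (Or.inr hi)))
      letI := bT g j
      exact a1.inter a2
  | or φ ψ ihφ ihψ =>
    intro E hE
    obtain ⟨J₁, h₁⟩ := ihφ E (fun F hF => hE F (List.mem_cons_of_mem _ (List.mem_append_left _ hF)))
    obtain ⟨J₂, h₂⟩ := ihψ E (fun F hF => hE F (List.mem_cons_of_mem _ (List.mem_append_right _ hF)))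
    refine ⟨max J₁ J₂, fun j hj => ⟨?_, ?_⟩⟩
    · intro hok V hV
      have a1 := ((h₁ j ((le_max_left _ _).trans hj)).1 hok.1 V (fun i hi => hV i (Or.inl hi)))
      have a2 := ((h₂ j ((le_max_right _ _).trans hj)).1 hok.2 V (fun i hi => hV i (Or.inr hi)))
      letI := bT g j
      exact a1.union a2
    · intro hok V hV
      have a1 := ((h₁ j ((le_max_left _ _).trans hj)).2 hok.1 V (fun i hi => hV i (Or.inl hi)))
      have a2 := ((h₂ j ((le_max_right _ _).trans hj)).2 hok.2 V (fun i hi => hV i (Or.inr hi)))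
      letI := bT g j
      exact a1.union a2
  | dia φ ih =>
    intro E hE
    obtain ⟨J, h⟩ := ih E (fun F hF => hE F (List.mem_cons_of_mem _ hF))
    refine ⟨J, fun j hj => ⟨?_, ?_⟩⟩
    · intro hok V hV
      have h1 := (h j hj).1 hok V hV
      have h2 : (Fm.dia φ).SEM V = ⋃ b : Bool, (fun t : Tre (Set P) => t.sub [b]) ⁻¹' (φ.SEM V) := by
        ext t; simp [Fm.SEM]
      rw [h2]
      letI := bT g j
      exact isOpen_iUnion fun b => h1.preimage (hcont j [b])
    · intro hok V hV
      have h1 := (h j hj).2 hok V hV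
      have h2 : (Fm.dia φ).SEM V = ⋃ b : Bool, (fun t : Tre (Set P) => t.sub [b]) ⁻¹' (φ.SEM V) := by
        ext t; simp [Fm.SEM]
      rw [h2]
      letI := bT g j
      exact isClosed_iUnion_of_finite fun b => h1.preimage (hcont j [b])
  | box φ ih =>
    intro E hE
    obtain ⟨J, h⟩ := ih E (fun F hF => hE F (List.mem_cons_of_mem _ hF))
    refine ⟨J, fun j hj => ⟨?_, ?_⟩⟩
    · intro hok V hV
      have h1 := (h j hj).1 hok V hV
      have h2 : (Fm.box φ).SEM V = ⋂ b : Bool, (fun t : Tre (Set P) => t.sub [b]) ⁻¹' (φ.SEM V) := by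
        ext t; simp [Fm.SEM]
      rw [h2]
      letI := bT g j
      exact isOpen_iInter_of_finite fun b => h1.preimage (hcont j [b])
    · intro hok V hV
      have h1 := (h j hj).2 hok V hV
      have h2 : (Fm.box φ).SEM V = ⋂ b : Bool, (fun t : Tre (Set P) => t.sub [b]) ⁻¹' (φ.SEM V) := by
        ext t; simp [Fm.SEM]
      rw [h2]
      letI := bT g j
      exact isClosed_iInter fun b => h1.preimage (hcont j [b])
  | mu φ ih =>
    intro E hE
    obtain ⟨J, h⟩ := ih (ec ((Fm.mu φ).SEM E) E)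
      (fun F hF => hE F (List.mem_cons_of_mem _ hF))
    have hlfp : ∀ j, J ≤ j → φ.okM → ∀ V : ℕ → Set (Tre (Set P)),
        (∀ i, (Fm.mu φ).free i → IsOpen[bT g j] (V i)) → IsOpen[bT g j] ((Fm.mu φ).SEM V) := by
      intro j hj hok V hV
      apply lfp_open_F5 (bT g j) (fun X => φ.SEM (ec X V))
      · intro A B hAB
        apply (hF2 P φ).1
        intro i
        cases i with
        | zero => exact hAB
        | succ i => exact Subset.rfl
      · intro A hA
        apply (h j hj).1 hok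
        intro i hi
        cases i with
        | zero => exact hA
        | succ i => exact hV i hi
    refine ⟨J + 1, fun j hj => ⟨?_, ?_⟩⟩
    · intro hok V hV
      exact hlfp j (by omega) hok V hV
    · rintro ⟨hfree, hok⟩ V _
      have hfree' : ∀ i, ¬ (Fm.mu φ).free i := hfree
      have h1 : IsOpen[bT g J] ((Fm.mu φ).SEM E) :=
        hlfp J le_rfl hok E (fun i hi => absurd hi (hfree' i))
      obtain ⟨K, hK⟩ := hE ((Fm.mu φ).SEM E) (List.mem_cons_self)
      have h2 : (Fm.mu φ).SEM V = (Fm.mu φ).SEM E :=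
        (hF2 P (Fm.mu φ)).2.1 V E (fun i hi => absurd hi (hfree' i))
      rw [h2, hK]
      rw [hK] at h1
      exact hClosed (J + 1) j hj _ (hNext' J K h1)
  | nu φ ih =>
    intro E hE
    obtain ⟨J, h⟩ := ih (ec ((Fm.nu φ).SEM E) E)
      (fun F hF => hE F (List.mem_cons_of_mem _ hF))
    have hgfp : ∀ j, J ≤ j → φ.okN → ∀ V : ℕ → Set (Tre (Set P)),
        (∀ i, (Fm.nu φ).free i → IsClosed[bT g j] (V i)) → IsClosed[bT g j] ((Fm.nu φ).SEM V) := by
      intro j hj hok V hV
      apply gfp_closed_F5 (bT g j) (fun X => φ.SEM (ec X V))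
      · intro A B hAB
        apply (hF2 P φ).1
        intro i
        cases i with
        | zero => exact hAB
        | succ i => exact Subset.rfl
      · intro A hA
        apply (h j hj).2 hok
        intro i hi
        cases i with
        | zero => exact hA
        | succ i => exact hV i hi
    refine ⟨J + 1, fun j hj => ⟨?_, ?_⟩⟩
    · rintro ⟨hfree, hok⟩ V _
      have hfree' : ∀ i, ¬ (Fm.nu φ).free i := hfree
      have h1 : IsClosed[bT g J] ((Fm.nu φ).SEM E) :=
        hgfp J le_rfl hok E (fun i hi => absurd hi (hfree' i))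
      obtain ⟨K, hK⟩ := hE ((Fm.nu φ).SEM E) (List.mem_cons_self)
      have h2 : (Fm.nu φ).SEM V = (Fm.nu φ).SEM E :=
        (hF2 P (Fm.nu φ)).2.1 V E (fun i hi => absurd hi (hfree' i))
      rw [h2, hK]
      rw [hK] at h1
      exact hOpen (J + 1) j hj _ (hNext J K h1)
    · intro hok V hV
      exact hgfp j (by omega) hok V hV

end Pool.Agent.Helper24.WH

end

section

/-!
# Project WH, module F7 (front end)
-/

set_option autoImplicit false

namespace Pool.Agent.Helper24.WH

open Set TopologicalSpace Topology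

private theorem subs_head_F7 {P : Type} (φ : Fm P) (v : ℕ → Set (Tre (Set P))) :
    ∃ l, φ.subs v = φ.SEM v :: l := by
  cases φ with
  | prop p => exact ⟨[], rfl⟩
  | nprop p => exact ⟨[], rfl⟩
  | top => exact ⟨[], rfl⟩
  | bot => exact ⟨[], rfl⟩
  | var n => exact ⟨[], rfl⟩
  | and φ ψ => exact ⟨_, rfl⟩
  | or φ ψ => exact ⟨_, rfl⟩
  | dia φ => exact ⟨_, rfl⟩
  | box φ => exact ⟨_, rfl⟩
  | mu φ => exact ⟨_, rfl⟩
  | nu φ => exact ⟨_, rfl⟩

theorem hF7 (h1 : StF1) (h3 : StF3) (h4 : StF4) (h6 : StF6) : StF7 := by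
  classical
  intro P _ L hL
  obtain ⟨φ, hfree, halt, hlang⟩ := hL
  set E : ℕ → Set (Tre (Set P)) := fun _ => ∅ with hE
  set l := φ.subs E with hl
  -- the labelling
  set g : Tre (Set P) → Set (Fin l.length) := fun t => {i | t ∈ l.get i} with hg
  have hgmem : ∀ t t' : Tre (Set P), g t = g t' → ∀ F ∈ l, (t ∈ F ↔ t' ∈ F) := by
    intro t t' h F hF
    obtain ⟨i, hi⟩ := List.get_of_mem hF
    have h2 : i ∈ g t ↔ i ∈ g t' := by rw [h]
    rw [← hi]
    exact h2
  have hsame : ∀ (a : Set P) (p p' : Tre (Set P) × Tre (Set P)), g p.1 = g p'.1 → g p.2 = g p'.2 →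
      g (Tre.mk a p) = g (Tre.mk a p') := by
    intro a p p' e1 e2
    have h := h3 P φ E a p p' (fun i hi => absurd hi (hfree i))
      (fun F hF => ⟨hgmem _ _ e1 F hF, hgmem _ _ e2 F hF⟩)
    ext i
    exact h (l.get i) (List.get_mem l i)
  set Ga : Set P → Set (Fin l.length) × Set (Fin l.length) → Set (Fin l.length) := fun a s =>
    if h : ∃ p : Tre (Set P) × Tre (Set P), g p.1 = s.1 ∧ g p.2 = s.2 then g (Tre.mk a h.choose) else ∅ with hGa
  have hhom : ∀ a p, g (Tre.mk a p) = Ga a (g p.1, g p.2) := by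
    intro a p
    have hex : ∃ p' : Tre (Set P) × Tre (Set P), g p'.1 = g p.1 ∧ g p'.2 = g p.2 := ⟨p, rfl, rfl⟩
    have e : Ga a (g p.1, g p.2) = g (Tre.mk a hex.choose) := by
      rw [hGa]
      exact dif_pos hex
    rw [e]
    exact hsame a _ _ hex.choose_spec.1.symm hex.choose_spec.2.symm
  have hK : ∀ F ∈ φ.subs E, ∃ K : Set (Set (Fin l.length)), F = g ⁻¹' K := by
    intro F hF
    obtain ⟨i, hi⟩ := List.get_of_mem (show F ∈ l from hF)
    refine ⟨{s | i ∈ s}, ?_⟩
    ext t
    rw [← hi]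
    rfl
  have hokM : φ.okM := (h4 P φ halt).1 fun i hi => absurd hi (hfree i)
  obtain ⟨J, hJ⟩ := h6 P (Set (Fin l.length)) g Ga hhom φ E hK
  have hclp := (hJ J le_rfl).1 hokM (fun i hi => absurd hi (hfree i))
  obtain ⟨l', hl'⟩ := subs_head_F7 φ E
  have hpos : 0 < l.length := by
    rw [hl, hl']
    exact Nat.succ_pos _
  have hhead : l.get ⟨0, hpos⟩ = φ.SEM E := by
    have : l = φ.SEM E :: l' := hl'
    simp [this]
  refine ⟨Set (Fin l.length), inferInstance, J + 1, g, Ga, fun s => decide ((⟨0, hpos⟩ : Fin l.length) ∈ s), ⟨hhom, ?_⟩, ?_⟩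
  · intro s
    have e : g ⁻¹' {s} = ⋂ i : Fin l.length, (if i ∈ s then l.get i else (l.get i)ᶜ) := by
      ext t
      rw [mem_preimage, mem_singleton_iff, mem_iInter]
      constructor
      · intro h i
        have hi : i ∈ g t ↔ t ∈ l.get i := Iff.rfl
        split_ifs with his
        · rw [← hi, h]
          exact his
        · intro hcon
          apply his
          rw [← h]
          exact hcon
      · intro h
        ext i
        have hi := h i
        constructor
        · intro hit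
          by_contra his
          rw [if_neg his] at hi
          exact hi hit
        · intro his
          rw [if_pos his] at hi
          exact hi
    rw [e]
    have hc : ∀ i : Fin l.length, Clp (bT g (J + 1)) (if i ∈ s then l.get i else (l.get i)ᶜ) := by
      intro i
      have h := hclp (l.get i) (List.get_mem l i)
      split_ifs
      · exact h
      · unfold Clp at h ⊢
        letI := bT g (J + 1)
        exact h.compl
    unfold Clp at hc ⊢
    letI := bT g (J + 1)
    exact isClopen_iInter_of_finite hc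
  · rw [← hlang]
    ext t
    show [] ∈ φ.sem t (fun _ => ∅) ↔ decide ((⟨0, hpos⟩ : Fin l.length) ∈ g t) = true
    rw [decide_eq_true_iff]
    have h := h1 P φ t E []
    have e : (fun n => {w : List Bool | t.sub w ∈ E n}) = (fun _ => (∅ : Set (List Bool))) := by
      funext n
      ext w
      simp [hE]
    rw [e] at h
    rw [h]
    show t ∈ φ.SEM E ↔ t ∈ l.get ⟨0, hpos⟩
    rw [hhead]

end Pool.Agent.Helper24.WH

end

section

/-!
# Project WH (MP_76577a_lc), module UB: the upper bound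
-/

set_option autoImplicit false

namespace Pool.Agent.Helper24.WH

open Set TopologicalSpace Topology
open Ordinal hiding univ

/-- the ranks of a well-founded relation are bounded by any strictly monotone ordinal valued function -/
private theorem rank_le_UB {X : Type} {R : X → X → Prop} (h : WellFounded R) (o : X → Ordinal.{0})
    (ho : ∀ x y, R x y → o x < o y) (x : X) : (h.apply x).rank ≤ o x := by
  refine h.induction (C := fun x => (h.apply x).rank ≤ o x) x ?_
  intro x ih
  rw [Acc.rank_eq]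
  refine Ordinal.iSup_le ?_
  rintro ⟨y, hy⟩
  exact Order.succ_le_of_lt (lt_of_le_of_lt (ih y hy) (ho y x hy))

theorem hUB (hF7 : StF7) (hDE : StDE) (hOR : StOR) : StUB := by
  classical
  intro P _
  -- one ordinal valued function
  have key : ∀ L : {L : Set (Tre (Set P)) // Definable L}, ∃ (f : Tre (Set P) → Bool) (n : ℕ) (r : Cd n) (sd : Bool → Prop),
      Dat f n r sd ∧ L.1 = {t | f t = true} := by
    rintro ⟨L, hL⟩
    obtain ⟨S, _, n, g, Ga, h, hyp, e⟩ := hF7 P L hL
    obtain ⟨r, sd, hd⟩ := hDE (Set P) S n g Ga h hyp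
    exact ⟨h ∘ g, n, r, sd, hd, e⟩
  choose f n r sd hd hf using key
  set o : {L : Set (Tre (Set P)) // Definable L} → Ordinal.{0} := fun L => ordD (r L) (sd L) with hodef
  have hred : ∀ L L', WLe L.1 L'.1 ↔ WRed (f L) (f L') := by
    intro L L'
    constructor
    · rintro ⟨F, hc, hF⟩
      refine ⟨F, hc, fun x => ?_⟩
      have h1 : f L' (F x) = true ↔ f L x = true := by
        have h2 : x ∈ F ⁻¹' L'.1 ↔ x ∈ L.1 := by rw [hF]
        rw [hf L, hf L'] at h2
        exact h2
      exact Bool.eq_iff_iff.mpr h1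
    · rintro ⟨F, hc, hF⟩
      refine ⟨F, hc, ?_⟩
      ext x
      rw [hf L, hf L']
      show f L' (F x) = true ↔ f L x = true
      rw [hF x]
  have ho : ∀ L L', wlt P L L' → o L < o L' := by
    rintro L L' ⟨h1, h2⟩
    exact (hOR (Set P) (Set P) (f L) (f L') (n L) (n L') (r L) (r L') (sd L) (sd L') (hd L) (hd L')).2
      ((hred L L').1 h1) (fun h3 => h2 ((hred L' L).2 h3))
  have hoe : ∀ L, o L < Ordinal.epsilon 0 := fun L =>
    (hOR (Set P) (Set P) (f L) (f L) (n L) (n L) (r L) (r L) (sd L) (sd L) (hd L) (hd L)).1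
  have hw : WellFounded (wlt P) := Subrelation.wf (fun {a b} h => ho a b h) (InvImage.wf o Ordinal.lt_wf)
  exact ⟨hw, fun L => lt_of_le_of_lt (rank_le_UB hw o ho L) (hoe L)⟩

end Pool.Agent.Helper24.WH

end

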