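import Pool.Agent.Helper24.WH.St1
import Pool.Agent.Helper79.WHM.G01

/-! Modules of project WH / WL merged into one file to shorten the build. -/

section

/-!
# WH, module UF: finite versions of UN and AD
-/

set_option autoImplicit false

namespace Pool.Agent.Helper24.WH

open Set TopologicalSpace Ordinal Topology

private theorem uf_der_UF (hUN : StUN) (hIT : StIT) {X : Type} {τ : TopologicalSpace X} (hZ : ZD τ)
    {ι : Type} (d : ι → Set X → Set X) (hd : ∀ i, IsDer τ (d i)) (s : Finset ι) :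
    IsDer τ (fun B => ⋃ i ∈ s, d i B) ∧
    ∀ (B : Set X) (x : Ordinal.{0}), IsClosed[τ] B →
      iter (fun B => ⋃ i ∈ s, d i B) B (ω ^ x) = ⋃ i ∈ s, iter (d i) B (ω ^ x) := by
  classical
  induction s using Finset.induction_on with
  | empty =>
    have h0 : (fun B : Set X => ⋃ i ∈ (∅ : Finset ι), d i B) = fun _ => (∅ : Set X) := by
      funext B; simp
    rw [h0]
    refine ⟨⟨fun _ _ _ => Subset.rfl, fun _ => empty_subset _, fun O B _ => by simp,
      fun B _ => @isClosed_empty X τ⟩, fun B x _ => ?_⟩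
    obtain ⟨_, h2, h3, _⟩ := hIT X (fun _ : Set X => (∅ : Set X)) (fun _ _ _ => Subset.rfl)
      (fun _ => empty_subset _)
    have h5 : iter (fun _ : Set X => (∅ : Set X)) B (0 + 1) = ∅ := h2 B 0
    have h6 : (0 : Ordinal.{0}) + 1 ≤ ω ^ x := by
      rw [zero_add]
      exact Order.one_le_iff_pos.2 (Ordinal.opow_pos x Ordinal.omega0_pos)
    have h7 := h3 B (0 + 1) (ω ^ x) h6
    rw [h5] at h7
    rw [subset_empty_iff.1 h7]
    simp
  | insert a s ha ih =>
    have h0 : (fun B : Set X => ⋃ i ∈ insert a s, d i B) =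
        fun B => d a B ∪ (fun B : Set X => ⋃ i ∈ s, d i B) B := by
      funext B
      exact Finset.set_biUnion_insert a s (fun i => d i B)
    obtain ⟨h1, h2⟩ := hUN X τ hZ (d a) (fun B : Set X => ⋃ i ∈ s, d i B) (hd a) ih.1
    rw [h0]
    refine ⟨h1, fun B x hB => ?_⟩
    rw [h2 B x hB, ih.2 B x hB]
    exact (Finset.set_biUnion_insert a s (fun i => iter (d i) B (ω ^ x))).symm

private theorem uf_add_UF (hAD : StAD) (hIT : StIT) {X : Type} {τ : TopologicalSpace X} (hZ : ZD τ)
    {ι : Type} (d : Set X → Set X) (hd : IsDer τ d) (B : ι → Set X) (x : Ordinal.{0})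
    (hB : ∀ i, IsClosed[τ] (B i)) (hx : 1 ≤ x) (s : Finset ι) :
    IsClosed[τ] (⋃ i ∈ s, B i) ∧
      iter d (⋃ i ∈ s, B i) (ω ^ x) = ⋃ i ∈ s, iter d (B i) (ω ^ x) := by
  classical
  induction s using Finset.induction_on with
  | empty =>
    have h0 : (⋃ i ∈ (∅ : Finset ι), B i) = (∅ : Set X) := by simp
    rw [h0]
    refine ⟨@isClosed_empty X τ, ?_⟩
    obtain ⟨_, _, _, _, _, h6, _⟩ := hIT X d hd.mono hd.le
    rw [subset_empty_iff.1 (h6 ∅ (ω ^ x))]
    simp
  | insert a s ha ih =>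
    have h0 : (⋃ i ∈ insert a s, B i) = B a ∪ ⋃ i ∈ s, B i :=
      Finset.set_biUnion_insert a s B
    rw [h0]
    refine ⟨@IsClosed.union X _ _ τ (hB a) ih.1, ?_⟩
    rw [hAD X τ hZ d hd (B a) _ x (hB a) ih.1 hx, ih.2]
    exact (Finset.set_biUnion_insert a s (fun i => iter d (B i) (ω ^ x))).symm

theorem hUF (hUN : StUN) (hAD : StAD) : StUF := by
  intro X τ hZ ι _
  classical
  have := Fintype.ofFinite ι
  constructor
  · intro d hd
    have h := uf_der_UF hUN hIT hZ d hd Finset.univ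
    simpa using h
  · intro d hd B x hB hx
    have h := (uf_add_UF hAD hIT hZ d hd B x hB hx Finset.univ).2
    simpa using h

end Pool.Agent.Helper24.WH

end

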