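import Pool.Agent.Helper24.WH.St4
import Pool.Agent.Helper79.WHM.G01
import Pool.Agent.Helper79.WHM.G04

/-! Modules of project WH / WL merged into one file to shorten the build. -/

section

/-!
# PROJECT WH (MP_76577a_lc), module EX
-/

set_option autoImplicit false

namespace Pool.Agent.Helper24.WH

open Set TopologicalSpace Topology
open Ordinal hiding univ

theorem ex_le_of_EX {X : Type} {d : Set X → Set X} {B : Set X} {x : Ordinal.{0}}
    (h : iter d B (ω ^ x) = ∅) : ex d B ≤ (x : WithTop Ordinal.{0}) := by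
  unfold ex
  rw [if_pos ⟨x, h⟩, WithTop.coe_le_coe]
  exact csInf_le' h

theorem iter_of_ex_EX {X : Type} {d : Set X → Set X} {B : Set X} {x : Ordinal.{0}}
    (h : ex d B ≤ (x : WithTop Ordinal.{0})) : iter d B (ω ^ x) = ∅ := by
  unfold ex at h
  split_ifs at h with h1
  · rw [WithTop.coe_le_coe] at h
    have h2 : iter d B (ω ^ (sInf {x : Ordinal.{0} | iter d B (ω ^ x) = ∅})) = ∅ :=
      csInf_mem (s := {x : Ordinal.{0} | iter d B (ω ^ x) = ∅}) h1
    have h3 : iter d B (ω ^ x) ⊆ iter d B (ω ^ (sInf {x : Ordinal.{0} | iter d B (ω ^ x) = ∅})) :=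
      iter_anti_IT B (opow_le_opow_right omega0_pos h)
    rw [h2] at h3
    exact subset_empty_iff.1 h3
  · simp at h

theorem ex_le_iff_EX {X : Type} {d : Set X → Set X} {B : Set X} {x : Ordinal.{0}} :
    ex d B ≤ (x : WithTop Ordinal.{0}) ↔ iter d B (ω ^ x) = ∅ :=
  ⟨iter_of_ex_EX, ex_le_of_EX⟩

theorem ex_mono_EX {X : Type} {d d' : Set X → Set X} {A B : Set X}
    (h : ∀ α, iter d' A α ⊆ iter d B α) : ex d' A ≤ ex d B := by
  rcases h1 : ex d B with _ | x
  · exact le_top
  · have h2 : iter d B (ω ^ x) = ∅ := iter_of_ex_EX (le_of_eq h1)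
    refine ex_le_of_EX (subset_empty_iff.1 ?_)
    rw [← h2]
    exact h _

theorem hEX : StEX := by
  intro X d hm hl
  obtain ⟨h0, h1, -, h3, -, -, -, -, -, h9⟩ := hIT X d hm hl
  refine ⟨fun B x => ex_le_iff_EX, fun A B hAB => ex_mono_EX fun α => h3 A B α hAB,
    fun d' hd' B => ex_mono_EX fun α => h9 d' hd' B α, fun B hB => ?_⟩
  have h : ex d B ≤ ((0 : Ordinal.{0}) : WithTop Ordinal.{0}) := by
    refine ex_le_of_EX ?_
    have := h1 B 0
    rw [h0, hB] at this
    rw [opow_zero, ← zero_add (1 : Ordinal.{0})]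
    exact this
  exact le_antisymm h bot_le

end Pool.Agent.Helper24.WH

end

section

/-!
# PROJECT WH (MP_76577a_lc), module FT2 (5.2): finitely many exponents over all pieces
-/

set_option autoImplicit false

namespace Pool.Agent.Helper24.WH

open Set TopologicalSpace Topology
open Ordinal hiding univ

variable {A S : Type}

/-- `Z` depends only on the topologies of index at most `m` -/
private theorem zCongr_FT2 {X : Type} (τ τ' : ℕ → TopologicalSpace X) (g : X → S) (m : ℕ)
    (h : ∀ k ≤ m, τ k = τ' k) : ∀ t : TT S m, Z τ g m t = Z τ' g m t := by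
  induction m with
  | zero =>
    intro s
    funext B
    simp only [Z]
  | succ m ih =>
    intro t
    funext B
    have e : (fun U => HomOp (τ (m + 1)) (Z τ g m U)) = (fun U => HomOp (τ' (m + 1)) (Z τ' g m U)) := by
      funext U
      rw [h (m + 1) le_rfl, ih (fun k hk => h k (by omega)) U]
    show ZTr (fun U => HomOp (τ (m + 1)) (Z τ g m U)) t B = ZTr (fun U => HomOp (τ' (m + 1)) (Z τ' g m U)) t B
    rw [e]

private theorem dLCongr_FT2 {X : Type} (τ τ' : ℕ → TopologicalSpace X) (g : X → S) (m : ℕ)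
    (h : ∀ k ≤ m + 1, τ k = τ' k) (L : ℕ → TT S m) : dL τ g m L = dL τ' g m L := by
  funext B
  unfold dL hom
  refine iInter_congr fun i => ?_
  rw [h (m + 1) le_rfl, zCongr_FT2 τ τ' g m (fun k hk => h k (by omega)) (L i)]

private theorem nonneg_FT2 (v : WithTop Ordinal.{0}) : 0 ≤ v := by
  induction v using WithTop.recTopCoe with
  | top => exact le_top
  | coe x => exact WithTop.coe_le_coe.2 (zero_le (a := x))

private theorem iUnion₂_eq_empty_iff_FT2 {α ι : Type} (C : Set ι) (f : ι → Set α) :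
    (⋃ i ∈ C, f i) = ∅ ↔ ∀ i ∈ C, f i = ∅ := by
  simp only [iUnion_eq_empty]

/-- a value determined by a finite set of values -/
private theorem sup_FT2 {F : Set (WithTop Ordinal.{0})} (hF : F.Finite) (v : WithTop Ordinal.{0})
    (h : ∀ x : Ordinal.{0}, v ≤ x ↔ ∀ w ∈ F, w ≤ x) : v = 0 ∨ v ∈ F := by
  by_cases hne : F.Nonempty
  · obtain ⟨w₀, hw₀, hmax⟩ := Set.exists_max_image F id hF hne
    right
    have e : v = w₀ := by
      refine eq_of_forall_ge_iff fun c => ?_
      induction c using WithTop.recTopCoe with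
      | top => exact ⟨fun _ => le_top, fun _ => le_top⟩
      | coe x => exact ⟨fun hv => (h x).1 hv w₀ hw₀, fun hw => (h x).2 fun w hwF => (hmax w hwF).trans hw⟩
    rw [e]
    exact hw₀
  · left
    have h0 := (h 0).2 (fun w hw => absurd ⟨w, hw⟩ hne)
    exact le_antisymm h0 (nonneg_FT2 v)

/-- the exponent of a union -/
private theorem union_FT2 (hEX : StEX) (hAD : StAD) {X : Type} {τ : TopologicalSpace X} (hZD : ZD τ)
    {d : Set X → Set X} (hd : IsDer τ d) {B₁ B₂ : Set X} (h₁ : IsClosed[τ] B₁) (h₂ : IsClosed[τ] B₂) :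
    ex d (B₁ ∪ B₂) = 0 ∨ ex d (B₁ ∪ B₂) = 1 ∨ ex d (B₁ ∪ B₂) = ex d B₁ ∨
      ex d (B₁ ∪ B₂) = ex d B₂ := by
  obtain ⟨hle, hmono, -, -⟩ := hEX X d hd.mono hd.le
  have key : ∀ x : Ordinal.{0}, 1 ≤ x → ex d B₁ ≤ x → ex d B₂ ≤ x → ex d (B₁ ∪ B₂) ≤ x := by
    intro x hx h1 h2
    rw [hle] at h1 h2 ⊢
    rw [hAD X τ hZD d hd B₁ B₂ x h₁ h₂ hx, h1, h2, union_empty]
  have m1 := hmono B₁ (B₁ ∪ B₂) subset_union_left
  have m2 := hmono B₂ (B₁ ∪ B₂) subset_union_right
  -- the maximum of the two values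
  have hmax : ∀ w : WithTop Ordinal.{0}, ex d B₁ ≤ w → ex d B₂ ≤ w → w ≤ ex d (B₁ ∪ B₂) →
      ex d (B₁ ∪ B₂) = 0 ∨ ex d (B₁ ∪ B₂) = 1 ∨ ex d (B₁ ∪ B₂) = w := by
    intro w h1 h2 h3
    induction w using WithTop.recTopCoe with
    | top => exact Or.inr (Or.inr (top_le_iff.1 h3))
    | coe y =>
      by_cases hy : 1 ≤ y
      · exact Or.inr (Or.inr (le_antisymm (key y hy h1 h2) h3))
      · have hy1 : y ≤ 1 := (not_le.1 hy).le
        have h4 : ex d (B₁ ∪ B₂) ≤ ((1 : Ordinal.{0}) : WithTop Ordinal.{0}) :=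
          key 1 le_rfl (h1.trans (WithTop.coe_le_coe.2 hy1)) (h2.trans (WithTop.coe_le_coe.2 hy1))
        generalize ex d (B₁ ∪ B₂) = v at h4
        induction v using WithTop.recTopCoe with
        | top => exact absurd h4 (by simp)
        | coe z =>
          have hz := WithTop.coe_le_coe.1 h4
          rcases Order.le_one_iff.1 hz with rfl | rfl
          · exact Or.inl rfl
          · exact Or.inr (Or.inl rfl)
  rcases le_total (ex d B₁) (ex d B₂) with h | h
  · rcases hmax _ h le_rfl m2 with h' | h' | h'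
    · exact Or.inl h'
    · exact Or.inr (Or.inl h')
    · exact Or.inr (Or.inr (Or.inr h'))
  · rcases hmax _ le_rfl h m1 with h' | h' | h'
    · exact Or.inl h'
    · exact Or.inr (Or.inl h')
    · exact Or.inr (Or.inr (Or.inl h'))

theorem hFT2 (hNV : StNV) (hFO : StFO) (hEX : StEX) (hAD : StAD) (hEZ : StEZ) (hRD : StRD)
    (hPZ : StPZ) (hPT : StPT) (hSG : StSG) (hSU : StSU) (hPI : StPI) (hZM : StZM) (hZA : StZA) :
    StFT2 := by
  intro A S _ _ _ n g Ga hH i₀ h₀ m hm
  obtain ⟨hst, -⟩ := hSG A S n g Ga hH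
  obtain ⟨hT, hF, hCE⟩ := hst i₀
  obtain ⟨-, -, -, hmono, -⟩ := hSU A S n g
  obtain ⟨-, -, -, -, hcl, -, -⟩ := hPI A S n g Ga hH (m + 1)
  obtain ⟨-, -, hder⟩ := hZM (Tre A) S (stg n g i₀) g hT hF m
  obtain ⟨-, -, hanti, -⟩ := hZA (Tre A) S (stg n g i₀) g m
  have hE := fun L : ℕ → TT S m =>
    hEX (Tre A) (dL (stg n g i₀) g m L) (hder L).mono (hder L).le
  have hclosed : ∀ B, Pc n g (m + 1) B → IsClosed[stg n g i₀ (m + 1)] B := by
    intro B hB
    obtain ⟨i, hi⟩ := hcl B hB
    have h1 : IsClosed[stg n g (max i i₀) (m + 1)] B :=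
      hi.mono (hmono i (max i i₀) (m + 1) (le_max_left _ _))
    rwa [h₀ _ (le_max_right _ _)] at h1
  have hdL : ∀ L : ℕ → TT S m, dL (fT n g i₀) g m L = dL (stg n g i₀) g m L :=
    fun L => dLCongr_FT2 _ _ g m (fun k hk => if_pos (by omega)) L
  -- the exponents of the names
  set E₀ : Set (WithTop Ordinal.{0}) := range (fun q : {q : Nm S × (ℕ → TT S m) // ∃ h i, GN n g q.1 h i} =>
    ex (dL (stg n g i₀) g m q.1.2) (vl n g q.1.1)) with hE₀
  have hE₀f : E₀.Finite := by
    refine hFO {q : Nm S × (ℕ → TT S m) // ∃ h i, GN n g q.1 h i}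
      (fun a b => Dom (TT.Le m) a.1.2 b.1.2 ∧ vl n g b.1.1 ⊆ vl n g a.1.1) (WithTop Ordinal.{0}) _ ?_ ?_
    · intro f
      exact (hNV A S n g Ga hH (fun k => (f k).1.1) (fun k => (f k).2)).2 m (fun k => (f k).1.2)
    · rintro a b ⟨h1, h2⟩
      exact ((hE b.1.2).2.1 _ _ h2).trans
        ((hE a.1.2).2.2.1 _ (fun B => hanti _ _ h1 B) _)
  have main : ∀ B, Pc n g (m + 1) B → ∀ L : ℕ → TT S m,
      ex (dL (stg n g i₀) g m L) B ∈ insert 0 (insert 1 E₀) := by
    intro B hB
    induction hB with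
    | nm N i hN =>
      intro L
      exact Or.inr (Or.inr ⟨⟨(N, L), m + 1, i, hN⟩, rfl⟩)
    | empty =>
      intro L
      left
      have h1 : ex (dL (stg n g i₀) g m L) (∅ : Set (Tre A)) ≤ ((0 : Ordinal.{0}) : WithTop Ordinal.{0}) := by
        rw [(hE L).1]
        exact subset_empty_iff.1 ((hIT (Tre A) _ (hder L).mono (hder L).le).2.2.2.2.2.1 ∅ _)
      exact le_antisymm h1 (nonneg_FT2 _)
    | union C₀ C₁ hC₀ hC₁ ih₀ ih₁ =>
      intro L
      rcases union_FT2 hEX hAD (hT.zd (m + 1)) (hder L) (hclosed _ hC₀) (hclosed _ hC₁) with h | h | h | h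
      · exact Or.inl h
      · exact Or.inr (Or.inl h)
      · rw [h]; exact ih₀ L
      · rw [h]; exact ih₁ L
    | mk a C₀ C₁ hC₀ hC₁ ih₀ ih₁ =>
      intro L
      obtain ⟨-, C, hCf, hC⟩ := hRD (S × S) S (Ga a) m L
      obtain ⟨hPTt, hPTf⟩ := hPT (Tre A) (Tre A) S S (stg n g i₀) (stg n g i₀) g g hT hT hF hF
      have hga : g ∘ Tre.mk a = Ga a ∘ Prod.map g g := by
        funext p
        exact hH.hom a p
      have hcp : IsClosed[prodT (stg n g i₀) (stg n g i₀) (m + 1)] (C₀ ×ˢ C₁) := by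
        let _ := stg n g i₀ (m + 1)
        exact (hclosed _ hC₀).prod (hclosed _ hC₁)
      obtain ⟨-, -, hEZ3⟩ := hEZ (Tre A × Tre A) (Tre A) S (prodT (stg n g i₀) (stg n g i₀))
        (stg n g i₀) g (Tre.mk a) (fun M => hCE a M) m
      obtain ⟨-, -, hPZ3⟩ := hPZ (Tre A) (Tre A) S S (stg n g i₀) (stg n g i₀) g g m
      obtain ⟨-, hCx⟩ := hC (Tre A × Tre A) (prodT (stg n g i₀) (stg n g i₀)) (Prod.map g g) hPTt hPTf
        (C₀ ×ˢ C₁) hcp
      have hval : ∀ x : Ordinal.{0}, ex (dL (stg n g i₀) g m L) (Tre.mk a '' (C₀ ×ˢ C₁)) ≤ x ↔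
          ∀ w ∈ (fun L' : ℕ → TT (S × S) m =>
            min (ex (dL (stg n g i₀) g m (fun i => TT.map Prod.fst m (L' i))) C₀)
              (ex (dL (stg n g i₀) g m (fun i => TT.map Prod.snd m (L' i))) C₁)) '' C, w ≤ x := by
        intro x
        rw [(hE L).1, hEZ3, hga, hCx x, image_eq_empty, iUnion₂_eq_empty_iff_FT2]
        constructor
        · rintro h w ⟨L', hL', rfl⟩
          have h1 := h L' hL'
          rw [hPZ3, prod_eq_empty_iff] at h1
          rcases h1 with h1 | h1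
          · exact min_le_of_left_le (((hE _).1 _ _).2 h1)
          · exact min_le_of_right_le (((hE _).1 _ _).2 h1)
        · intro h L' hL'
          have h1 := h _ ⟨L', hL', rfl⟩
          rw [hPZ3, prod_eq_empty_iff]
          rcases min_le_iff.1 h1 with h1 | h1
          · exact Or.inl (((hE _).1 _ _).1 h1)
          · exact Or.inr (((hE _).1 _ _).1 h1)
      rcases sup_FT2 (hCf.image _) _ hval with h | ⟨L', hL', h⟩
      · exact Or.inl h
      · rw [← h]
        rcases min_choice (ex (dL (stg n g i₀) g m (fun i => TT.map Prod.fst m (L' i))) C₀)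
              (ex (dL (stg n g i₀) g m (fun i => TT.map Prod.snd m (L' i))) C₁) with h' | h'
        · rw [show (fun L' : ℕ → TT (S × S) m =>
            min (ex (dL (stg n g i₀) g m (fun i => TT.map Prod.fst m (L' i))) C₀)
              (ex (dL (stg n g i₀) g m (fun i => TT.map Prod.snd m (L' i))) C₁)) L' = _ from h']
          exact ih₀ _
        · rw [show (fun L' : ℕ → TT (S × S) m =>
            min (ex (dL (stg n g i₀) g m (fun i => TT.map Prod.fst m (L' i))) C₀)
              (ex (dL (stg n g i₀) g m (fun i => TT.map Prod.snd m (L' i))) C₁)) L' = _ from h']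
          exact ih₁ _
  refine ((hE₀f.insert 1).insert 0).subset ?_
  rintro v ⟨L, B, hB, rfl⟩
  rw [hdL]
  exact main B hB L

end Pool.Agent.Helper24.WH

end

section

/-!
# WH, module FT4: summary of part 4
-/

set_option autoImplicit false

namespace Pool.Agent.Helper24.WH

open Set TopologicalSpace Topology
open Ordinal hiding univ

private theorem hom_mono_FT4 {X S : Type} (τ : ℕ → TopologicalSpace X) (g : X → S) (m : ℕ) (U : TT S m)
    (A B : Set X) (h : A ⊆ B) : hom τ g m U A ⊆ hom τ g m U B := by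
  rintro x ⟨W, ⟨hW1, hW2⟩, hx⟩
  exact ⟨W, ⟨hW1.trans h, hW2⟩, hx⟩

private theorem hom_le_FT4 {X S : Type} (τ : ℕ → TopologicalSpace X) (g : X → S) (m : ℕ) (U : TT S m)
    (B : Set X) : hom τ g m U B ⊆ B := by
  rintro x ⟨W, ⟨hW1, _⟩, hx⟩
  exact hW1 hx

private theorem dL_mono_FT4 {X S : Type} (τ : ℕ → TopologicalSpace X) (g : X → S) (m : ℕ) (L : ℕ → TT S m)
    (A B : Set X) (h : A ⊆ B) : dL τ g m L A ⊆ dL τ g m L B := by
  intro x hx
  unfold dL at hx ⊢
  rw [mem_iInter] at hx ⊢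
  exact fun i => hom_mono_FT4 τ g m (L i) A B h (hx i)

private theorem dL_le_FT4 {X S : Type} (τ : ℕ → TopologicalSpace X) (g : X → S) (m : ℕ) (L : ℕ → TT S m)
    (B : Set X) : dL τ g m L B ⊆ B := by
  intro x hx
  unfold dL at hx
  rw [mem_iInter] at hx
  exact hom_le_FT4 τ g m (L 0) B (hx 0)

/-- a fixed iterate stays fixed -/
private theorem fix_FT4 {X : Type} (d : Set X → Set X) (hm : ∀ A B, A ⊆ B → d A ⊆ d B)
    (hl : ∀ B, d B ⊆ B) (B : Set X) (α β : Ordinal.{0}) (hαβ : α ≤ β)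
    (h : iter d B α ⊆ d (iter d B α)) : iter d B β ⊆ d (iter d B β) := by
  obtain ⟨_, _, h3, _, _, h6, _, _, h9, _⟩ := hIT X d hm hl
  have h1 : iter d B α ⊆ iter d B β := h9 B (iter d B α) β (h6 B α) h
  have h2 : iter d B β ⊆ iter d B α := h3 B α β hαβ
  exact (h2.trans h).trans (hm _ _ h1)

theorem hFT4 (hRS : StRS) (hFT2 : StFT2) (hFT3 : StFT3) (hNT : StNT) (hPI : StPI) : StFT4 := by
  intro A S _ _ _ n g Ga hyp
  obtain ⟨i₀, hsys, htop, hstab⟩ := hRS A S n g Ga hyp
  have hN : ∀ m : ℕ, ∃ N : ℕ, m + 1 ≤ n → ∀ (L : ℕ → TT S m), ∀ B ∈ PP n g (m + 1),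
      iter (dL (fT n g i₀) g m L) B (ω ^ (N : Ordinal.{0})) ⊆
        dL (fT n g i₀) g m L (iter (dL (fT n g i₀) g m L) B (ω ^ (N : Ordinal.{0}))) := by
    intro m
    by_cases hm : m + 1 ≤ n
    · obtain ⟨N, hN⟩ := hFT3 (Tre A) S n (fT n g i₀) g (PP n g) hsys m hm
        (hFT2 A S n g Ga hyp i₀ hstab m hm)
      exact ⟨N, fun _ => hN⟩
    · exact ⟨0, fun h => absurd h hm⟩
  choose Nf hNf using hN
  refine ⟨fT n g i₀, PP n g, 1 + (Finset.range n).sup Nf, hsys, ?_, by omega, ?_, ?_⟩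
  · intro m hm L B hB
    have h1 : Nf m ≤ 1 + (Finset.range n).sup Nf := by
      have := Finset.le_sup (f := Nf) (Finset.mem_range.2 (by omega : m < n))
      omega
    have h2 : (ω : Ordinal.{0}) ^ ((Nf m : ℕ) : Ordinal.{0}) ≤
        ω ^ ((1 + (Finset.range n).sup Nf : ℕ) : Ordinal.{0}) :=
      Ordinal.opow_le_opow_right Ordinal.omega0_pos (by exact_mod_cast h1)
    exact fix_FT4 (dL (fT n g i₀) g m L) (dL_mono_FT4 _ _ _ _) (dL_le_FT4 _ _ _ _) B _ _ h2
      (hNf m hm L B hB)
  · obtain ⟨_, _, _, _, _, _, _, h8, _⟩ := hNT A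
    rw [htop, h8]
  · intro M u a
    obtain ⟨_, _, _, _, _, _, h7⟩ := hPI A S n g Ga hyp M
    cases M with
    | zero =>
      refine ⟨fun _ => {t | t u = a}, fun _ => h7 u a, ?_⟩
      ext t
      rw [mem_iUnion]
      constructor
      · intro ht
        exact ⟨g t, ht, rfl⟩
      · rintro ⟨s, ht, _⟩
        exact ht
    | succ M => exact h7 u a

end Pool.Agent.Helper24.WH

end

section

/-!
# PROJECT WH, module SO: soundness of the order of names
-/

set_option autoImplicit false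

namespace Pool.Agent.Helper24.WH

open Set TopologicalSpace Topology
open Ordinal hiding univ

/-- value of a tree -/
private def tv_SO {A S : Type} (n : ℕ) (g : Tre A → S) (l : Lab S) (kids : Nm S) : Set (Tre A) :=
  match l with
  | .base _ K => g ⁻¹' K
  | .cl M s j => closure[stg n g j M] (g ⁻¹' {s} ∩ vl n g kids)
  | .dd m L x j => iter (dL (stg n g j) g m L) (vl n g kids) (ω ^ (x : Ordinal.{0}))

/-- a tree is good -/
private def tg_SO {A S : Type} (n : ℕ) (g : Tre A → S) (l : Lab S) (kids : Nm S) (h : ℕ)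
    (i : Ordinal.{0}) : Prop :=
  match l with
  | .base M K => h ≤ M ∧ 1 ≤ M ∧ M ≤ n ∧ okb n g M K ∧ kids = .nil
  | .cl M _ j => h ≤ M ∧ 1 ≤ M ∧ M ≤ n ∧ j < i ∧ GN n g kids 0 j
  | .dd m _ _ j => h ≤ m + 1 ∧ m + 1 ≤ n ∧ j < i ∧ GN n g kids (m + 1) j

private theorem vl_cons_SO {A S : Type} (n : ℕ) (g : Tre A → S) (l : Lab S) (kids rest : Nm S) :
    vl n g (.cons l kids rest) = tv_SO n g l kids ∩ vl n g rest := by
  cases l <;> rfl

private theorem GN_cons_SO {A S : Type} (n : ℕ) (g : Tre A → S) (l : Lab S) (kids rest : Nm S)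
    (h : ℕ) (i : Ordinal.{0}) :
    GN n g (.cons l kids rest) h i ↔ tg_SO n g l kids h i ∧ GN n g rest h i := by
  cases l <;> simp only [GN, Good, tg_SO, and_assoc]

/-- the stage of a label is below `i` -/
private def sl_SO {S : Type} (l : Lab S) (i : Ordinal.{0}) : Prop :=
  match l with
  | .base _ _ => True
  | .cl _ _ j => j < i
  | .dd _ _ _ j => j < i

private theorem sl_mono_SO {S : Type} (l : Lab S) (i i' : Ordinal.{0}) (h : i ≤ i')
    (hl : sl_SO l i) : sl_SO l i' := by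
  cases l with
  | base M K => trivial
  | cl M s j => exact lt_of_lt_of_le hl h
  | dd m L x j => exact lt_of_lt_of_le hl h

private theorem sl_of_le_SO {A S : Type} (n : ℕ) (g : Tre A → S) (l l' : Lab S) (kids' : Nm S)
    (h' : ℕ) (i' : Ordinal.{0}) (hll : Lab.Le l l') (hg : tg_SO n g l' kids' h' i') :
    sl_SO l i' := by
  cases hll with
  | base M K => trivial
  | cl M s j j' hj => exact lt_of_le_of_lt hj hg.2.2.2.1
  | dd m L L' x x' j j' _ _ hj => exact lt_of_le_of_lt hj hg.2.2.1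

private theorem find_sl_SO {A S : Type} (n : ℕ) (g : Tre A → S) (l : Lab S) (P : Nm S → Prop)
    (N' : Nm S) : ∀ (h' : ℕ) (i' : Ordinal.{0}), GN n g N' h' i' →
      Fo.FindT Lab.Le Lab.ht l P N' → sl_SO l i' := by
  induction N' with
  | nil => intro h' i' _ hf; exact hf.elim
  | leaf a rest ih => exact a.elim
  | cons l' kids' rest' ihk ihr =>
    intro h' i' hG hf
    rw [GN_cons_SO] at hG
    rcases hf with ⟨hll, _⟩ | ⟨_, hf⟩ | hf
    · exact sl_of_le_SO n g l l' kids' h' i' hll hG.1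
    · cases l' with
      | base M K =>
        have : kids' = .nil := hG.1.2.2.2.2
        rw [this] at hf
        exact hf.elim
      | cl M s j =>
        have hj : j < i' := hG.1.2.2.2.1
        exact sl_mono_SO l j i' hj.le (ihk 0 j hG.1.2.2.2.2 hf)
      | dd m L x j =>
        have hj : j < i' := hG.1.2.2.1
        exact sl_mono_SO l j i' hj.le (ihk (m + 1) j hG.1.2.2.2 hf)
    · exact ihr h' i' hG.2 hf

/-- a good tree stays good after lowering the height and changing the stage -/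
private theorem tg_change_SO {A S : Type} (n : ℕ) (g : Tre A → S) (l : Lab S) (kids : Nm S)
    (h : ℕ) (i : Ordinal.{0}) (hg : tg_SO n g l kids h i) (h' : ℕ) (hh : h' ≤ l.ht)
    (i' : Ordinal.{0}) (hs : sl_SO l i') : tg_SO n g l kids h' i' := by
  cases l with
  | base M K => exact ⟨hh, hg.2.1, hg.2.2.1, hg.2.2.2.1, hg.2.2.2.2⟩
  | cl M s j => exact ⟨hh, hg.2.1, hg.2.2.1, hs, hg.2.2.2.2⟩
  | dd m L x j => exact ⟨hh, hg.2.1, hs, hg.2.2.2⟩

/-- match -/
private theorem match_SO (hSU : StSU) {A S : Type} [Finite A] [Finite S] (n : ℕ)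
    (g : Tre A → S) (l l' : Lab S) (kids kids' : Nm S) (hll : Lab.Le l l')
    (hk : vl n g kids' ⊆ vl n g kids) : tv_SO n g l' kids' ⊆ tv_SO n g l kids := by
  obtain ⟨-, -, -, hmono, -⟩ := hSU A S n g
  cases hll with
  | base M K => exact Subset.rfl
  | cl M s j j' hj =>
    have h1 : stg n g j' M ≤ stg n g j M := hmono j j' M hj
    show closure[stg n g j' M] (g ⁻¹' {s} ∩ vl n g kids') ⊆
      closure[stg n g j M] (g ⁻¹' {s} ∩ vl n g kids)
    refine @closure_minimal _ (stg n g j' M) _ _ ?_ ?_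
    · refine Subset.trans (inter_subset_inter_right _ hk) ?_
      exact @subset_closure _ (stg n g j M) _
    · exact IsClosed.mono (@isClosed_closure _ (stg n g j M) _) h1
  | dd m L L' x x' j j' hL hx hj =>
    have h1 : ∀ M, stg n g j' M ≤ stg n g j M := fun M => hmono j j' M hj
    obtain ⟨-, -, hdL, -⟩ := hZA (Tre A) S (stg n g j) g m
    obtain ⟨-, hdLf, -⟩ := hZF (Tre A) S (stg n g j) (stg n g j') g h1 m
    have hmonoH : ∀ (τ : ℕ → TopologicalSpace (Tre A)) (L : ℕ → TT S m) (P Q : Set (Tre A)),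
        P ⊆ Q → dL τ g m L P ⊆ dL τ g m L Q := by
      intro τ L P Q hPQ
      refine iInter_mono fun k => ?_
      obtain ⟨-, -, -, hZm⟩ := hZA (Tre A) S τ g m
      refine sUnion_subset fun W hW => ?_
      exact subset_sUnion_of_mem (⟨hW.1.trans hPQ, hW.2⟩ : _ ∧ _)
    have hleH : ∀ (τ : ℕ → TopologicalSpace (Tre A)) (L : ℕ → TT S m) (P : Set (Tre A)),
        dL τ g m L P ⊆ P := by
      intro τ L P
      refine (iInter_subset _ 0).trans ?_
      exact sUnion_subset fun W hW => hW.1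
    have hsub : ∀ P : Set (Tre A), dL (stg n g j') g m L' P ⊆ dL (stg n g j) g m L P :=
      fun P => (hdLf L' P).trans (hdL L L' hL P)
    obtain ⟨-, -, hanti, hmon, -, -, -, -, -, hlast⟩ :=
      hIT (Tre A) (dL (stg n g j) g m L) (hmonoH _ _) (hleH _ _)
    show iter (dL (stg n g j') g m L') (vl n g kids') (ω ^ (x' : Ordinal.{0})) ⊆
      iter (dL (stg n g j) g m L) (vl n g kids) (ω ^ (x : Ordinal.{0}))
    refine (hlast (dL (stg n g j') g m L') hsub _ _).trans ?_
    refine (hmon _ _ _ hk).trans ?_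
    apply hanti
    exact Ordinal.opow_le_opow_right Ordinal.omega0_pos (by exact_mod_cast hx)

/-- found trees -/
private theorem find_SO (hSG : StSG) (hSU : StSU) {A S : Type} [Finite A] [Finite S] (n : ℕ)
    (g : Tre A → S) (Ga : A → S × S → S) (hyp : Hyp n g Ga) (l : Lab S) (kids : Nm S)
    (h : ℕ) (i : Ordinal.{0}) (hgl : tg_SO n g l kids h i)
    (ih : ∀ (N' : Nm S) (h' : ℕ) (i' : Ordinal.{0}), GN n g N' h' i' → Nm.Emb kids N' →
      vl n g N' ⊆ vl n g kids) (N' : Nm S) :
    ∀ (h' : ℕ) (i' : Ordinal.{0}), GN n g N' h' i' →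
      Fo.FindT Lab.Le Lab.ht l (Fo.Emb Lab.Le (fun _ _ => True) Lab.ht kids) N' →
      vl n g N' ⊆ tv_SO n g l kids := by
  induction N' with
  | nil => intro h' i' _ hf; exact hf.elim
  | leaf a rest ih => exact a.elim
  | cons l' kids' rest' ihk ihr =>
    intro h' i' hG hf
    rw [GN_cons_SO] at hG
    rw [vl_cons_SO]
    rcases hf with ⟨hll, hE⟩ | ⟨hht, hf⟩ | hf
    · refine inter_subset_left.trans ?_
      apply match_SO hSU n g l l' kids kids' hll
      cases l' with
      | base M K =>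
        have hkn : kids' = .nil := hG.1.2.2.2.2
        exact ih kids' 0 0 (by rw [hkn]; trivial) hE
      | cl M s j => exact ih kids' 0 j hG.1.2.2.2.2 hE
      | dd m L x j => exact ih kids' (m + 1) j hG.1.2.2.2 hE
    · refine inter_subset_left.trans ?_
      cases l' with
      | base M K =>
        have : kids' = .nil := hG.1.2.2.2.2
        rw [this] at hf
        exact hf.elim
      | cl M s j =>
        have hGk : GN n g kids' 0 j := hG.1.2.2.2.2
        have hsub : vl n g kids' ⊆ tv_SO n g l kids := ihk 0 j hGk hf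
        have hs : sl_SO l j := find_sl_SO n g l _ kids' 0 j hGk hf
        have htg : tg_SO n g l kids M j := tg_change_SO n g l kids h i hgl M hht j hs
        have hGt : GN n g (.cons l kids .nil) M j := by
          rw [GN_cons_SO]
          exact ⟨htg, trivial⟩
        have hcl : IsClosed[stg n g j M] (vl n g (.cons l kids .nil)) :=
          ((hSG A S n g Ga hyp).2 _ M j hGt).1
        rw [vl_cons_SO] at hcl
        have hval : tv_SO n g l kids ∩ vl n g (Fo.nil : Nm S) = tv_SO n g l kids := by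
          show tv_SO n g l kids ∩ univ = tv_SO n g l kids
          exact inter_univ _
        rw [hval] at hcl
        show closure[stg n g j M] (g ⁻¹' {s} ∩ vl n g kids') ⊆ tv_SO n g l kids
        exact @closure_minimal _ (stg n g j M) _ _ (inter_subset_right.trans hsub) hcl
      | dd m L x j =>
        have hGk : GN n g kids' (m + 1) j := hG.1.2.2.2
        have hsub : vl n g kids' ⊆ tv_SO n g l kids := ihk (m + 1) j hGk hf
        refine Subset.trans ?_ hsub
        show iter (dL (stg n g j) g m L) (vl n g kids') (ω ^ (x : Ordinal.{0})) ⊆ vl n g kids'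
        rw [iter]
        exact inter_subset_left
    · exact inter_subset_right.trans (ihr h' i' hG.2 hf)

theorem hSO (hSG : StSG) (hSU : StSU) : StSO := by
  intro A S _ _ n g Ga hyp N
  induction N with
  | nil => intro N' h h' i i' _ _ _; exact subset_univ _
  | leaf a rest ih => exact a.elim
  | cons l kids rest ihk ihr =>
    intro N' h h' i i' hG hG' hE
    rw [GN_cons_SO] at hG
    obtain ⟨hf, hE⟩ := hE
    rw [vl_cons_SO]
    apply subset_inter
    · have hGk : ∃ hk ik, GN n g kids hk ik := by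
        cases l with
        | base M K =>
          have hkn : kids = .nil := hG.1.2.2.2.2
          exact ⟨0, 0, by rw [hkn]; trivial⟩
        | cl M s j => exact ⟨0, j, hG.1.2.2.2.2⟩
        | dd m L x j => exact ⟨m + 1, j, hG.1.2.2.2⟩
      obtain ⟨hk, ik, hGk⟩ := hGk
      exact find_SO hSG hSU n g Ga hyp l kids h i hG.1
        (fun N'' h'' i'' hG'' hE'' => ihk N'' hk h'' ik i'' hGk hG'' hE'') N' h' i' hG' hf
    · exact ihr N' h h' i i' hG.2 hG' hE

end Pool.Agent.Helper24.WH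

end

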