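import Pool.Agent.Helper24.WH.St7
import Pool.Agent.Helper79.WHM.G06

/-! Modules of project WH / WL merged into one file to shorten the build. -/

section

set_option autoImplicit false

namespace Pool.Agent.Helper24.WH

open Set TopologicalSpace Topology
open Ordinal hiding univ

private theorem mem_subs_F6 {P : Type} (φ : Fm P) (E : ℕ → Set (Tre (Set P))) : φ.SEM E ∈ φ.subs E := by
  cases φ <;> simp [Fm.subs, Fm.SEM]

section

variable {P S : Type} [Finite P] [Finite S] {g : Tre (Set P) → S} {Ga : Set P → S × S → S}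

private theorem step_F6 (hom : ∀ a p, g (Tre.mk a p) = Ga a (g p.1, g p.2)) {j : ℕ} {F : Set (Tre (Set P))}
    (h : IsOpen[bT g j] F) : IsOpen[bT g (j + 1)] F :=
  (hBB hNT (Set P) S g Ga hom j).1 F h

private theorem cl_F6 {j : ℕ} {F : Set (Tre (Set P))} (hd : ∃ K : Set S, F = g ⁻¹' K)
    (h : IsClosed[bT g j] F) : IsOpen[bT g (j + 1)] F := by
  obtain ⟨K, hK⟩ := hd
  exact (hNT (Set P)).2.1 {F | ∃ K : Set S, F = g ⁻¹' K ∧ IsClosed[bT g j] F} F ⟨K, hK, h⟩

private theorem clo_F6 (hom : ∀ a p, g (Tre.mk a p) = Ga a (g p.1, g p.2)) {j : ℕ}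
    {F : Set (Tre (Set P))} (hd : ∃ K : Set S, F = g ⁻¹' K) (h : IsClosed[bT g j] F) :
    Clp (bT g (j + 1)) F := by
  refine ⟨?_, cl_F6 hd h⟩
  rw [← @isOpen_compl_iff _ _ (bT g (j + 1))]
  refine step_F6 hom ?_
  rw [@isOpen_compl_iff _ _ (bT g j)]
  exact h

private theorem opn_F6 (hom : ∀ a p, g (Tre.mk a p) = Ga a (g p.1, g p.2)) {j : ℕ}
    {F : Set (Tre (Set P))} (hd : ∃ K : Set S, F = g ⁻¹' K) (h : IsOpen[bT g j] F) :
    Clp (bT g (j + 1)) F := by
  have hd' : ∃ K : Set S, Fᶜ = g ⁻¹' K := by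
    obtain ⟨K, hK⟩ := hd
    exact ⟨Kᶜ, by rw [hK, preimage_compl]⟩
  have h' : IsClosed[bT g j] Fᶜ := by
    rw [@isClosed_compl_iff _ (bT g j)]
    exact h
  have h2 := clo_F6 hom hd' h'
  exact ⟨(@isOpen_compl_iff _ _ (bT g (j + 1))).1 h2.2, by
    have := h2.1
    rwa [@isClosed_compl_iff _ (bT g (j + 1))] at this⟩

end

theorem hF6 (hF5 : StF5) : StF6 := by
  intro P S _ _ g Ga hom φ
  -- the value of the formula itself
  have head : ∀ (φ : Fm P) (E : ℕ → Set (Tre (Set P))), (∀ F ∈ φ.subs E, ∃ K : Set S, F = g ⁻¹' K) →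
      ∃ J, ∀ j, J ≤ j →
        (φ.okM → (∀ i, φ.free i → IsOpen[bT g j] (E i)) →
          IsOpen[bT g j] (φ.SEM E) ∧ Clp (bT g (j + 1)) (φ.SEM E)) ∧
        (φ.okN → (∀ i, φ.free i → IsClosed[bT g j] (E i)) →
          IsClosed[bT g j] (φ.SEM E) ∧ Clp (bT g (j + 1)) (φ.SEM E)) := by
    intro φ E hE
    obtain ⟨J, hJ⟩ := hF5 P S g Ga hom φ E hE
    refine ⟨J, fun j hj => ⟨fun hM hop => ?_, fun hN hcl => ?_⟩⟩
    · have h1 := (hJ j hj).1 hM E hop
      exact ⟨h1, opn_F6 hom (hE _ (mem_subs_F6 φ E)) h1⟩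
    · have h1 := (hJ j hj).2 hN E hcl
      exact ⟨h1, clo_F6 hom (hE _ (mem_subs_F6 φ E)) h1⟩
  induction φ with
  | prop p =>
    intro E hE
    obtain ⟨J, hJ⟩ := head (Fm.prop p) E hE
    refine ⟨J, fun j hj => ⟨fun hM ho F hF => ?_, fun hN hc F hF => ?_⟩⟩
    · rw [List.mem_singleton.1 hF]
      exact ((hJ j hj).1 hM ho).2
    · rw [List.mem_singleton.1 hF]
      exact ((hJ j hj).2 hN hc).2
  | nprop p =>
    intro E hE
    obtain ⟨J, hJ⟩ := head (Fm.nprop p) E hE
    refine ⟨J, fun j hj => ⟨fun hM ho F hF => ?_, fun hN hc F hF => ?_⟩⟩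
    · rw [List.mem_singleton.1 hF]
      exact ((hJ j hj).1 hM ho).2
    · rw [List.mem_singleton.1 hF]
      exact ((hJ j hj).2 hN hc).2
  | top =>
    intro E hE
    obtain ⟨J, hJ⟩ := head Fm.top E hE
    refine ⟨J, fun j hj => ⟨fun hM ho F hF => ?_, fun hN hc F hF => ?_⟩⟩
    · rw [List.mem_singleton.1 hF]
      exact ((hJ j hj).1 hM ho).2
    · rw [List.mem_singleton.1 hF]
      exact ((hJ j hj).2 hN hc).2
  | bot =>
    intro E hE
    obtain ⟨J, hJ⟩ := head Fm.bot E hE
    refine ⟨J, fun j hj => ⟨fun hM ho F hF => ?_, fun hN hc F hF => ?_⟩⟩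
    · rw [List.mem_singleton.1 hF]
      exact ((hJ j hj).1 hM ho).2
    · rw [List.mem_singleton.1 hF]
      exact ((hJ j hj).2 hN hc).2
  | var n =>
    intro E hE
    obtain ⟨J, hJ⟩ := head (Fm.var n) E hE
    refine ⟨J, fun j hj => ⟨fun hM ho F hF => ?_, fun hN hc F hF => ?_⟩⟩
    · rw [List.mem_singleton.1 hF]
      exact ((hJ j hj).1 hM ho).2
    · rw [List.mem_singleton.1 hF]
      exact ((hJ j hj).2 hN hc).2
  | and φ ψ ihφ ihψ =>
    intro E hE
    obtain ⟨J, hJ⟩ := head (Fm.and φ ψ) E hE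
    obtain ⟨J1, hJ1⟩ := ihφ E (fun F hF => hE F (List.mem_cons_of_mem _ (List.mem_append_left _ hF)))
    obtain ⟨J2, hJ2⟩ := ihψ E (fun F hF => hE F (List.mem_cons_of_mem _ (List.mem_append_right _ hF)))
    refine ⟨max J (max J1 J2), fun j hj => ?_⟩
    have hj0 : J ≤ j := le_trans (le_max_left _ _) hj
    have hj1 : J1 ≤ j := le_trans (le_trans (le_max_left _ _) (le_max_right _ _)) hj
    have hj2 : J2 ≤ j := le_trans (le_trans (le_max_right _ _) (le_max_right _ _)) hj
    refine ⟨fun hM ho F hF => ?_, fun hN hc F hF => ?_⟩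
    · rcases List.mem_cons.1 hF with h | h
      · rw [h]
        exact ((hJ j hj0).1 hM ho).2
      · rcases List.mem_append.1 h with h | h
        · exact (hJ1 j hj1).1 (by simpa [Fm.okM] using hM.1) (fun i hi => ho i (Or.inl hi)) F h
        · exact (hJ2 j hj2).1 (by simpa [Fm.okM] using hM.2) (fun i hi => ho i (Or.inr hi)) F h
    · rcases List.mem_cons.1 hF with h | h
      · rw [h]
        exact ((hJ j hj0).2 hN hc).2
      · rcases List.mem_append.1 h with h | h
        · exact (hJ1 j hj1).2 (by simpa [Fm.okN] using hN.1) (fun i hi => hc i (Or.inl hi)) F h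
        · exact (hJ2 j hj2).2 (by simpa [Fm.okN] using hN.2) (fun i hi => hc i (Or.inr hi)) F h
  | or φ ψ ihφ ihψ =>
    intro E hE
    obtain ⟨J, hJ⟩ := head (Fm.or φ ψ) E hE
    obtain ⟨J1, hJ1⟩ := ihφ E (fun F hF => hE F (List.mem_cons_of_mem _ (List.mem_append_left _ hF)))
    obtain ⟨J2, hJ2⟩ := ihψ E (fun F hF => hE F (List.mem_cons_of_mem _ (List.mem_append_right _ hF)))
    refine ⟨max J (max J1 J2), fun j hj => ?_⟩
    have hj0 : J ≤ j := le_trans (le_max_left _ _) hj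
    have hj1 : J1 ≤ j := le_trans (le_trans (le_max_left _ _) (le_max_right _ _)) hj
    have hj2 : J2 ≤ j := le_trans (le_trans (le_max_right _ _) (le_max_right _ _)) hj
    refine ⟨fun hM ho F hF => ?_, fun hN hc F hF => ?_⟩
    · rcases List.mem_cons.1 hF with h | h
      · rw [h]
        exact ((hJ j hj0).1 hM ho).2
      · rcases List.mem_append.1 h with h | h
        · exact (hJ1 j hj1).1 hM.1 (fun i hi => ho i (Or.inl hi)) F h
        · exact (hJ2 j hj2).1 hM.2 (fun i hi => ho i (Or.inr hi)) F h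
    · rcases List.mem_cons.1 hF with h | h
      · rw [h]
        exact ((hJ j hj0).2 hN hc).2
      · rcases List.mem_append.1 h with h | h
        · exact (hJ1 j hj1).2 hN.1 (fun i hi => hc i (Or.inl hi)) F h
        · exact (hJ2 j hj2).2 hN.2 (fun i hi => hc i (Or.inr hi)) F h
  | dia φ ih =>
    intro E hE
    obtain ⟨J, hJ⟩ := head (Fm.dia φ) E hE
    obtain ⟨J1, hJ1⟩ := ih E (fun F hF => hE F (List.mem_cons_of_mem _ hF))
    refine ⟨max J J1, fun j hj => ?_⟩
    have hj0 : J ≤ j := le_trans (le_max_left _ _) hj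
    have hj1 : J1 ≤ j := le_trans (le_max_right _ _) hj
    refine ⟨fun hM ho F hF => ?_, fun hN hc F hF => ?_⟩
    · rcases List.mem_cons.1 hF with h | h
      · rw [h]
        exact ((hJ j hj0).1 hM ho).2
      · exact (hJ1 j hj1).1 hM ho F h
    · rcases List.mem_cons.1 hF with h | h
      · rw [h]
        exact ((hJ j hj0).2 hN hc).2
      · exact (hJ1 j hj1).2 hN hc F h
  | box φ ih =>
    intro E hE
    obtain ⟨J, hJ⟩ := head (Fm.box φ) E hE
    obtain ⟨J1, hJ1⟩ := ih E (fun F hF => hE F (List.mem_cons_of_mem _ hF))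
    refine ⟨max J J1, fun j hj => ?_⟩
    have hj0 : J ≤ j := le_trans (le_max_left _ _) hj
    have hj1 : J1 ≤ j := le_trans (le_max_right _ _) hj
    refine ⟨fun hM ho F hF => ?_, fun hN hc F hF => ?_⟩
    · rcases List.mem_cons.1 hF with h | h
      · rw [h]
        exact ((hJ j hj0).1 hM ho).2
      · exact (hJ1 j hj1).1 hM ho F h
    · rcases List.mem_cons.1 hF with h | h
      · rw [h]
        exact ((hJ j hj0).2 hN hc).2
      · exact (hJ1 j hj1).2 hN hc F h
  | mu φ ih =>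
    intro E hE
    obtain ⟨J, hJ⟩ := head (Fm.mu φ) E hE
    obtain ⟨J1, hJ1⟩ := ih (ec ((Fm.mu φ).SEM E) E) (fun F hF => hE F (List.mem_cons_of_mem _ hF))
    refine ⟨max J J1, fun j hj => ?_⟩
    have hj0 : J ≤ j := le_trans (le_max_left _ _) hj
    have hj1 : J1 ≤ j := le_trans (le_max_right _ _) hj
    refine ⟨fun hM ho F hF => ?_, fun hN hc F hF => ?_⟩
    · rcases List.mem_cons.1 hF with h | h
      · rw [h]
        exact ((hJ j hj0).1 hM ho).2
      · have hM' : φ.okM := by simpa [Fm.okM] using hM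
        refine (hJ1 j hj1).1 hM' (fun i hi => ?_) F h
        cases i with
        | zero => exact ((hJ j hj0).1 hM ho).1
        | succ i => exact ho i hi
    · rcases List.mem_cons.1 hF with h | h
      · rw [h]
        exact ((hJ j hj0).2 hN hc).2
      · have hN' : (∀ n, ¬ φ.free (n + 1)) ∧ φ.okM := by simpa [Fm.okN] using hN
        have hM : (Fm.mu φ).okM := by simpa [Fm.okM] using hN'.2
        refine (hJ1 j hj1).1 hN'.2 (fun i hi => ?_) F h
        cases i with
        | zero => exact ((hJ j hj0).1 hM (fun i hi => absurd hi (hN'.1 i))).1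
        | succ i => exact absurd hi (hN'.1 i)
  | nu φ ih =>
    intro E hE
    obtain ⟨J, hJ⟩ := head (Fm.nu φ) E hE
    obtain ⟨J1, hJ1⟩ := ih (ec ((Fm.nu φ).SEM E) E) (fun F hF => hE F (List.mem_cons_of_mem _ hF))
    refine ⟨max J J1, fun j hj => ?_⟩
    have hj0 : J ≤ j := le_trans (le_max_left _ _) hj
    have hj1 : J1 ≤ j := le_trans (le_max_right _ _) hj
    refine ⟨fun hM ho F hF => ?_, fun hN hc F hF => ?_⟩
    · rcases List.mem_cons.1 hF with h | h
      · rw [h]
        exact ((hJ j hj0).1 hM ho).2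
      · have hM' : (∀ n, ¬ φ.free (n + 1)) ∧ φ.okN := by simpa [Fm.okM] using hM
        have hN : (Fm.nu φ).okN := by simpa [Fm.okN] using hM'.2
        refine (hJ1 j hj1).2 hM'.2 (fun i hi => ?_) F h
        cases i with
        | zero => exact ((hJ j hj0).2 hN (fun i hi => absurd hi (hM'.1 i))).1
        | succ i => exact absurd hi (hM'.1 i)
    · rcases List.mem_cons.1 hF with h | h
      · rw [h]
        exact ((hJ j hj0).2 hN hc).2
      · have hN' : φ.okN := by simpa [Fm.okN] using hN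
        refine (hJ1 j hj1).2 hN' (fun i hi => ?_) F h
        cases i with
        | zero => exact ((hJ j hj0).2 hN hc).1
        | succ i => exact hc i hi

end Pool.Agent.Helper24.WH

end

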