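import Pool.Agent.Helper30.WL.St

/-! Modules of project WH / WL merged into one file to shorten the build. -/

section

set_option autoImplicit false

namespace Pool.Agent.Helper30.WL

open Set

private theorem gs_res {X Y : Type} {i : Bits X} {i' : Bits Y} {f : Y → X} (hf : Cts i' i f) (p : Set Y) (q : Set X)
    (h : ∀ y ∈ p, f y ∈ q) : Cts (res i' p) (res i q) (fun z => ⟨f z.1, h z.1 z.2⟩) := by
  intro n y
  obtain ⟨n', hn'⟩ := hf n y.1
  exact ⟨n', fun y' h' => hn' y'.1 h'⟩

private theorem gs_ag_mono {X : Type} {i : Bits X} {m n : ℕ} {x y : X} (hmn : m ≤ n) (h : Ag i n x y) : Ag i m x y :=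
  fun k hk => h k (lt_of_lt_of_le hk hmn)

private theorem gs_cl_empty {X : Type} (i : Bits X) : Cl i (∅ : Set X) := by
  intro x _
  exact ⟨0, fun y _ => fun hy => hy⟩

private theorem gs_empty {U E : Cls} (hU : Good U) (hE : Good E) (X : Type) (i : Bits X) : SumC U E X i ∅ := by
  refine ⟨∅, gs_cl_empty i, ?_, ?_⟩
  · have h : tr (∅ : Set X) (∅ : Set X) = ∅ := by
      ext z
      exact ⟨fun h => h, fun h => h⟩
    rw [h]
    exact hE.empty _ _
  · intro x _
    refine ⟨0, disjoint_empty _, Or.inl ?_⟩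
    have h : tr (Cy i 0 x) (∅ : Set X) = ∅ := by
      ext z
      exact ⟨fun h => h, fun h => h⟩
    rw [h]
    exact hU.empty _ _

private theorem gs_pre {U E : Cls} (hU : Good U) (hE : Good E) (X Y : Type) (i : Bits X) (i' : Bits Y) (f : Y → X)
    (A : Set X) (hf : Cts i' i f) (hA : SumC U E X i A) : SumC U E Y i' (f ⁻¹' A) := by
  obtain ⟨B, hB, hEB, hoff⟩ := hA
  refine ⟨f ⁻¹' B, ?_, ?_, ?_⟩
  · intro y hy
    obtain ⟨n, hn⟩ := hB (f y) hy
    obtain ⟨n', hn'⟩ := hf n y
    exact ⟨n', fun y' hy' => hn (hn' y' hy')⟩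
  · exact hE.pre B (f ⁻¹' B : Set Y) (res i B) (res i' (f ⁻¹' B)) (fun z => ⟨f z.1, z.2⟩) (tr B A)
      (gs_res hf (f ⁻¹' B) B (fun y hy => hy)) hEB
  · intro y hy
    obtain ⟨n, hd, hU'⟩ := hoff (f y) hy
    obtain ⟨n', hn'⟩ := hf n y
    have hmap : ∀ z ∈ Cy i' n' y, f z ∈ Cy i n (f y) := fun z hz => hn' z hz
    refine ⟨n', ?_, ?_⟩
    · rw [Set.disjoint_left]
      intro z hz hzB
      exact (Set.disjoint_left.mp hd) (hmap z hz) hzB
    · rcases hU' with h | h
      · exact Or.inl (hU.pre (Cy i n (f y)) (Cy i' n' y) _ _ (fun z => ⟨f z.1, hmap z.1 z.2⟩) _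
          (gs_res hf _ _ hmap) h)
      · exact Or.inr (hU.pre (Cy i n (f y)) (Cy i' n' y) _ _ (fun z => ⟨f z.1, hmap z.1 z.2⟩) _
          (gs_res hf _ _ hmap) h)

private theorem gs_paste {U E : Cls} (hU : Good U) (hE : Good E) (X : Type) (i : Bits X) (κ : X → ℕ) (A : Set X)
    (hκ : ∀ x, ∃ n, ∀ y, Ag i n x y → κ y = κ x)
    (hP : ∀ c, SumC U E {x | κ x = c} (res i {x | κ x = c}) (tr {x | κ x = c} A)) : SumC U E X i A := by
  choose B hBcl hBE hBoff using hP
  have hmem : ∀ (x : X) (c : ℕ) (h : κ x = c),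
      ((⟨x, rfl⟩ : {x' | κ x' = κ x}) ∈ B (κ x) ↔ (⟨x, h⟩ : {x' | κ x' = c}) ∈ B c) := by
    intro x c h
    subst h
    exact Iff.rfl
  let BB : Set X := {x | (⟨x, rfl⟩ : {x' | κ x' = κ x}) ∈ B (κ x)}
  have hBB : ∀ x, x ∈ BB ↔ (⟨x, rfl⟩ : {x' | κ x' = κ x}) ∈ B (κ x) := fun x => Iff.rfl
  refine ⟨BB, ?_, ?_, ?_⟩
  · intro x hx
    obtain ⟨N1, h1⟩ := hκ x
    obtain ⟨N2, h2⟩ := hBcl (κ x) ⟨x, rfl⟩ (fun h => hx ((hBB x).mpr h))
    refine ⟨max N1 N2, fun y hy => ?_⟩
    have hc : κ y = κ x := h1 y (gs_ag_mono (le_max_left _ _) hy)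
    have hy2 : (⟨y, hc⟩ : {x' | κ x' = κ x}) ∈ (B (κ x))ᶜ :=
      h2 (fun k hk => hy k (lt_of_lt_of_le hk (le_max_right _ _)))
    exact fun hyB => hy2 ((hmem y (κ x) hc).mp hyB)
  · refine hE.paste BB (res i BB) (fun z => κ z.1) (tr BB A) ?_ ?_
    · intro z
      obtain ⟨N1, h1⟩ := hκ z.1
      exact ⟨N1, fun y hy => h1 y.1 hy⟩
    · intro c
      refine hE.pre (B c) {z : BB | κ z.1 = c} (res (res i {x | κ x = c}) (B c)) (res (res i BB) {z : BB | κ z.1 = c})
        (fun z => ⟨⟨z.1.1, z.2⟩, (hmem z.1.1 c z.2).mp z.1.2⟩) (tr (B c) (tr {x | κ x = c} A)) ?_ (hBE c)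
      intro n y
      exact ⟨n, fun y' h' => h'⟩
  · intro x hx
    obtain ⟨N1, h1⟩ := hκ x
    obtain ⟨N2, hd, hU'⟩ := hBoff (κ x) ⟨x, rfl⟩ (fun h => hx ((hBB x).mpr h))
    have hc : ∀ z ∈ Cy i (max N1 N2) x, κ z = κ x := fun z hz => h1 z (gs_ag_mono (le_max_left _ _) hz)
    have hcy : ∀ (z : X) (hz : z ∈ Cy i (max N1 N2) x),
        (⟨z, hc z hz⟩ : {x' | κ x' = κ x}) ∈ Cy (res i {x' | κ x' = κ x}) N2 ⟨x, rfl⟩ :=
      fun z hz k hk => hz k (lt_of_lt_of_le hk (le_max_right _ _))
    refine ⟨max N1 N2, ?_, ?_⟩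
    · rw [Set.disjoint_left]
      intro z hz hzB
      exact (Set.disjoint_left.mp hd) (hcy z hz) ((hmem z (κ x) (hc z hz)).mp hzB)
    · have hg : ∀ D : Set {x' | κ x' = κ x}, U (Cy (res i {x' | κ x' = κ x}) N2 ⟨x, rfl⟩)
          (res (res i {x' | κ x' = κ x}) (Cy (res i {x' | κ x' = κ x}) N2 ⟨x, rfl⟩))
          (tr (Cy (res i {x' | κ x' = κ x}) N2 ⟨x, rfl⟩) D) →
          U (Cy i (max N1 N2) x) (res i (Cy i (max N1 N2) x))
            {z | (⟨z.1, hc z.1 z.2⟩ : {x' | κ x' = κ x}) ∈ D} := by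
        intro D hD
        let g : Cy i (max N1 N2) x → Cy (res i {x' | κ x' = κ x}) N2 ⟨x, rfl⟩ :=
          fun z => ⟨⟨z.1, hc z.1 z.2⟩, hcy z.1 z.2⟩
        exact hU.pre _ _ _ (res i (Cy i (max N1 N2) x)) g _ (fun n y => ⟨n, fun y' h' => h'⟩) hD
      rcases hU' with h | h
      · exact Or.inl (hg _ h)
      · exact Or.inr (hg _ h)

theorem hGS : StGS := fun _ _ hU hE =>
  { pre := gs_pre hU hE
    paste := gs_paste hU hE
    empty := gs_empty hU hE }

end Pool.Agent.Helper30.WL

end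

section

set_option autoImplicit false

namespace Pool.Agent.Helper30.WL

open Set
open Pool.Agent.Helper24.WH (Tre pT)

/-- the reversed word of the first `n` bits -/
private def pre_HE {X : Type} (j : Bits X) (x : X) : ℕ → List Bool
  | 0 => []
  | n + 1 => j x n :: pre_HE j x n

private lemma pre_inj_HE {X : Type} (j : Bits X) (x y : X) :
    ∀ n, pre_HE j x n = pre_HE j y n → Ag j n x y := by
  intro n
  induction n with
  | zero => intro _ k hk; omega
  | succ n ih =>
    intro h k hk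
    simp only [pre_HE, List.cons.injEq] at h
    rcases Nat.lt_succ_iff_lt_or_eq.1 hk with hk' | rfl
    · exact ih h.2 k hk'
    · exact h.1

open Classical in
/-- the letter of `k` read off from the reversed word of the first bits -/
private noncomputable def K_HE {X Q : Type} (j : Bits X) (k : X → Tre (Lt3 Q)) (s u : List Bool) :
    Lt3 Q :=
  if h : ∃ x', pre_HE j x' u.length = s then k h.choose u else fun _ => false

private lemma K_eq_HE {X Q : Type} (j : Bits X) (k : X → Tre (Lt3 Q)) (hk : Ctr j k) (x : X)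
    (u : List Bool) : K_HE j k (pre_HE j x u.length) u = k x u := by
  have h : ∃ x', pre_HE j x' u.length = pre_HE j x u.length := ⟨x, rfl⟩
  unfold K_HE
  rw [dif_pos h]
  exact hk u _ _ (pre_inj_HE j _ _ _ h.choose_spec)

private def Vi_HE {X : Type} (i j : Bits X) (x : X) (m N : ℕ) : Prop :=
  ∀ y, Ag i N x y → j y m = false

private lemma Vi_congr_HE {X : Type} (i j : Bits X) (x y : X) (m N : ℕ) (h : Ag i N x y) :
    Vi_HE i j x m N ↔ Vi_HE i j y m N := by
  constructor
  · intro hx z hz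
    exact hx z (fun l hl => (h l hl).trans (hz l hl))
  · intro hy z hz
    exact hy z (fun l hl => (h l hl).symm.trans (hz l hl))

open Classical in
/-- the tree below the logical node `(s, u)` -/
private noncomputable def psi_HE {X Q : Type} (i j : Bits X) (k : X → Tre (Lt3 Q)) (x : X) :
    List Bool → List Bool → List Bool → Lt3 (Q ⊕ Fin 3)
  | s, u, [] => fun p => match p with
    | Sum.inl q => K_HE j k s u q
    | Sum.inr a => if a = 1 ∧ s.head? = some false then true else false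
  | _, _, [_] => fun _ => false
  | s, _, _ :: false :: v => fun p => match p with
    | Sum.inl _ => false
    | Sum.inr a => if a = 0 ∨ (a = 2 ∧ Vi_HE i j x s.length v.length) then true else false
  | _, _, [_, true] => fun _ => false
  | s, u, e :: true :: σ :: v => psi_HE i j k x (σ :: s) (u ++ [e]) v

private lemma psi_sub_HE {X Q : Type} (i j : Bits X) (k : X → Tre (Lt3 Q)) (x : X)
    (s u : List Bool) (e σ : Bool) :
    Tre.sub (psi_HE i j k x s u) [e, true, σ] = psi_HE i j k x (σ :: s) (u ++ [e]) := by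
  funext v
  show psi_HE i j k x s u (e :: true :: σ :: v) = _
  rw [psi_HE]

private lemma psi_ctr_HE {X Q : Type} (i j : Bits X) (k : X → Tre (Lt3 Q)) (x y : X) :
    ∀ (n : ℕ) (v s u : List Bool), v.length ≤ n → Ag i v.length x y →
      psi_HE i j k x s u v = psi_HE i j k y s u v := by
  intro n
  induction n with
  | zero =>
    intro v s u hv _
    have : v = [] := List.length_eq_zero_iff.1 (by omega)
    subst this
    rw [psi_HE, psi_HE]
  | succ n ih =>
    intro v s u hv hag
    match v with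
    | [] => rw [psi_HE, psi_HE]
    | [_] => rw [psi_HE, psi_HE]
    | e :: false :: v =>
      rw [psi_HE, psi_HE]
      have h : Vi_HE i j x s.length v.length ↔ Vi_HE i j y s.length v.length :=
        Vi_congr_HE i j x y _ _ (fun l hl => hag l (by simp; omega))
      funext p
      rcases p with p | a
      · rfl
      · by_cases h0 : a = 0 ∨ (a = 2 ∧ Vi_HE i j x s.length v.length)
        · have h0' : a = 0 ∨ (a = 2 ∧ Vi_HE i j y s.length v.length) :=
            h0.imp id (fun h' => ⟨h'.1, h.1 h'.2⟩)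
          exact (if_pos h0).trans (if_pos h0').symm
        · have h0' : ¬ (a = 0 ∨ (a = 2 ∧ Vi_HE i j y s.length v.length)) :=
            fun h1 => h0 (h1.imp id (fun h' => ⟨h'.1, h.2 h'.2⟩))
          exact (if_neg h0).trans (if_neg h0').symm
    | [_, true] => rw [psi_HE, psi_HE]
    | e :: true :: σ :: v =>
      rw [psi_HE, psi_HE]
      apply ih
      · simp at hv
        omega
      · intro l hl
        exact hag l (by simp; omega)

private lemma dk_HE {X Q : Type} (i j : Bits X) (k : X → Tre (Lt3 Q)) (x : X)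
    (s u : List Bool) (e : Bool) :
    dk (Tre.sub (psi_HE i j k x s u) [e]) = true := by
  show psi_HE i j k x s u [e, false] (Sum.inr 0) = true
  rw [psi_HE]
  simp

private lemma m1_HE {X Q : Type} (i j : Bits X) (k : X → Tre (Lt3 Q)) (x : X)
    (s u : List Bool) (e σ : Bool) :
    psi_HE i j k x s u [e, true, σ] (Sum.inr 1) = !σ := by
  rw [psi_HE, psi_HE]
  cases σ <;> simp

private lemma wf_HE {X Q : Type} (i j : Bits X) (k : X → Tre (Lt3 Q)) (x : X) :
    ∀ (n : ℕ) (s u : List Bool), WFn n (psi_HE i j k x s u : Tre (Lt3 (Q ⊕ Fin 3))) := by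
  intro n
  induction n with
  | zero => intro s u; trivial
  | succ n ih =>
    intro s u e
    rw [dk_HE]
    refine ⟨?_, ?_, ?_⟩
    · have h1 : psi_HE i j k x s u [e, false] (Sum.inr 0) = true := by rw [psi_HE]; simp
      have h2 : psi_HE i j k x s u [e, true] (Sum.inr 0) = false := by rw [psi_HE]
      rw [h1, h2]
      simp
    · rw [m1_HE, m1_HE]
      simp
    · intro σ
      rw [psi_sub_HE]
      exact ih _ _

private lemma nb_HE {X Q : Type} (i j : Bits X) (k : X → Tre (Lt3 Q)) (x : X)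
    (hcl : ∀ m, Cl i {x | j x m = true}) (s u : List Bool) (e : Bool) :
    NB (Tre.sub (psi_HE i j k x s u) [e]) ↔ j x s.length = true := by
  have hV : j x s.length = false ↔ ∃ N, Vi_HE i j x s.length N := by
    constructor
    · intro h
      obtain ⟨N, hN⟩ := hcl s.length x (by simp [h])
      refine ⟨N, fun y hy => ?_⟩
      have := hN hy
      simpa using this
    · rintro ⟨N, hN⟩
      exact hN x (fun _ _ => rfl)
  have hc : ∀ v, Tre.sub (psi_HE i j k x s u) [e] v = psi_HE i j k x s u (e :: v) := fun v => rfl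
  constructor
  · intro h
    by_contra hne
    have h0 : j x s.length = false := by simpa using hne
    obtain ⟨N, hN⟩ := hV.1 h0
    have h1 := h (false :: List.replicate N false) (by simp) (by
      intro w hw hpre
      match w with
      | [] => exact absurd rfl hw
      | b :: w =>
        have hb : b = false := by
          obtain ⟨r, hr⟩ := hpre
          simp only [List.cons_append, List.cons.injEq] at hr
          exact hr.1
        subst hb
        rw [hc, psi_HE]
        simp)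
    rw [hc, psi_HE] at h1
    simp [hN] at h1
  · intro h v hv hw
    match v with
    | [] => exact absurd rfl hv
    | true :: v =>
      exfalso
      have h1 := hw [true] (by simp) ⟨v, rfl⟩
      rw [hc, psi_HE] at h1
      exact absurd h1 (by simp)
    | false :: v =>
      rw [hc, psi_HE]
      have h2 : ¬ Vi_HE i j x s.length v.length := by
        intro hVi
        have := hV.2 ⟨_, hVi⟩
        rw [h] at this
        exact absurd this (by simp)
      simp [h2]

private lemma sel_HE {X Q : Type} (i j : Bits X) (k : X → Tre (Lt3 Q)) (x : X)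
    (hcl : ∀ m, Cl i {x | j x m = true}) (s u : List Bool) (e : Bool) :
    sel (Tre.sub (psi_HE i j k x s u) [e]) = [true, j x s.length] := by
  unfold sel
  rw [dk_HE]
  have h1 : Tre.sub (psi_HE i j k x s u) [e] [true, false] (Sum.inr 1) = true := by
    show psi_HE i j k x s u [e, true, false] (Sum.inr 1) = true
    rw [m1_HE]
    rfl
  rw [h1]
  by_cases h : j x s.length = true
  · rw [if_pos ((nb_HE i j k x hcl s u e).2 h), h]
  · rw [if_neg (fun h' => h ((nb_HE i j k x hcl s u e).1 h'))]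
    have : j x s.length = false := by simpa using h
    rw [this]
    rfl

private lemma len_pre_HE {X : Type} (j : Bits X) (x : X) : ∀ n, (pre_HE j x n).length = n := by
  intro n
  induction n with
  | zero => rfl
  | succ n ih => simp [pre_HE, ih]

private lemma dec_HE {X Q : Type} (i j : Bits X) (k : X → Tre (Lt3 Q)) (hk : Ctr j k) (x : X)
    (hcl : ∀ m, Cl i {x | j x m = true}) :
    ∀ (u' u : List Bool), dec u' (psi_HE i j k x (pre_HE j x u.length) u) = k x (u ++ u') := by
  intro u'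
  induction u' with
  | nil =>
    intro u
    rw [List.append_nil]
    funext p
    show psi_HE i j k x (pre_HE j x u.length) u [] (Sum.inl p) = _
    rw [psi_HE, K_eq_HE j k hk]
  | cons e u' ih =>
    intro u
    show dec u' (Tre.sub (psi_HE i j k x (pre_HE j x u.length) u)
      (e :: sel (Tre.sub (psi_HE i j k x (pre_HE j x u.length) u) [e]))) = _
    rw [sel_HE i j k x hcl, psi_sub_HE, len_pre_HE]
    have h := ih (u ++ [e])
    rw [List.append_assoc] at h
    have e1 : pre_HE j x (u ++ [e]).length = j x u.length :: pre_HE j x u.length := by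
      rw [List.length_append]
      rfl
    rw [e1] at h
    exact h

theorem hHE : StHE := by
  intro Q C L hL X i A hA
  obtain ⟨j, hcl, hC⟩ := hA
  obtain ⟨k, hk, -, hAk⟩ := hL X j A hC
  refine ⟨fun x => psi_HE i j k x [] [], ?_, ?_, ?_⟩
  · intro u x y h
    exact psi_ctr_HE i j k x y u.length u [] [] le_rfl h
  · intro x
    show psi_HE i j k x [] [] [] (Sum.inr 0) = false
    rw [psi_HE]
    simp
  · intro x
    rw [hAk x]
    have h1 : (fun u => dec u (psi_HE i j k x [] [] : Tre (Lt3 (Q ⊕ Fin 3)))) = k x := by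
      funext u
      exact dec_HE i j k hk x hcl u []
    constructor
    · intro h
      refine ⟨fun n => wf_HE i j k x n [] [], ?_⟩
      show (fun u => dec u (psi_HE i j k x [] [] : Tre (Lt3 (Q ⊕ Fin 3)))) ∈ L
      rw [h1]
      exact h
    · intro h
      have h2 : (fun u => dec u (psi_HE i j k x [] [] : Tre (Lt3 (Q ⊕ Fin 3)))) ∈ L := h.2
      rw [h1] at h2
      exact h2

end Pool.Agent.Helper30.WL

end

section

set_option autoImplicit false

namespace Pool.Agent.Helper30.WL

open Set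
open Pool.Agent.Helper24.WH (Tre pT)

private lemma Ag_mono_HS {X : Type} (i : Bits X) {m n : ℕ} {x y : X} (h : Ag i n x y)
    (hmn : m ≤ n) : Ag i m x y := fun k hk => h k (by omega)

private lemma Ag_symm_HS {X : Type} (i : Bits X) {n : ℕ} {x y : X} (h : Ag i n x y) :
    Ag i n y x := fun k hk => (h k hk).symm

private lemma Cy_eq_HS {X : Type} (i : Bits X) {n : ℕ} {x y : X} (h : Ag i n x y) :
    Cy i n x = Cy i n y := by
  ext z
  constructor
  · intro hz k hk
    exact (h k hk).symm.trans (hz k hk)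
  · intro hz k hk
    exact (h k hk).trans (hz k hk)

/-- the empty tree -/
private def junk_HS (Q : Type) : Tre (Lt3 Q) := fun _ _ => false

/-- the tree with spine letters `sp` and other parts `pa` -/
private def psi_HS {Q : Type} (sp : ℕ → Lt3 Q) (pa : ℕ → Tre (Lt3 Q)) :
    ℕ → List Bool → Lt3 Q
  | m, [] => sp m
  | m, true :: v => psi_HS sp pa (m + 1) v
  | m, false :: v => pa m v

/-- the same as a tree -/
private def T_HS {Q : Type} (sp : ℕ → Lt3 Q) (pa : ℕ → Tre (Lt3 Q)) (m : ℕ) : Tre (Lt3 Q) :=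
  psi_HS sp pa m

section tree

variable {Q : Type} (sp : ℕ → Lt3 Q) (pa : ℕ → Tre (Lt3 Q))

private lemma T0_HS (m : ℕ) : T_HS sp pa m [] = sp m := by
  show psi_HS sp pa m [] = sp m
  rw [psi_HS]

private lemma Tt_HS (m : ℕ) (v : List Bool) : T_HS sp pa m (true :: v) = T_HS sp pa (m + 1) v := by
  show psi_HS sp pa m (true :: v) = psi_HS sp pa (m + 1) v
  rw [psi_HS]

private lemma Tf_HS (m : ℕ) (v : List Bool) : T_HS sp pa m (false :: v) = pa m v := by
  show psi_HS sp pa m (false :: v) = pa m v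
  rw [psi_HS]

private lemma dX_HS (h1 : ∀ m, pa m [] (Sum.inr 0) = false) (m : ℕ) :
    dX (T_HS sp pa m) = true := by
  unfold dX
  rw [Tf_HS, h1]
  rfl

private lemma nx_HS (h1 : ∀ m, pa m [] (Sum.inr 0) = false) (m : ℕ) :
    nx (T_HS sp pa m) = T_HS sp pa (m + 1) := by
  unfold nx
  rw [dX_HS sp pa h1]
  funext v
  exact Tt_HS sp pa m v

private lemma pt_HS (h1 : ∀ m, pa m [] (Sum.inr 0) = false) (m : ℕ) :
    pt (T_HS sp pa m) = pa m := by
  unfold pt
  rw [dX_HS sp pa h1]
  funext v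
  exact Tf_HS sp pa m v

private lemma nxn_HS (h1 : ∀ m, pa m [] (Sum.inr 0) = false) (n : ℕ) :
    nx^[n] (T_HS sp pa 0) = T_HS sp pa n := by
  induction n with
  | zero => rfl
  | succ n ih => rw [Function.iterate_succ_apply', ih, nx_HS sp pa h1]

private lemma wf_HS (h1 : ∀ m, pa m [] (Sum.inr 0) = false)
    (h2 : ∀ m, sp (m + 1) (Sum.inr 0) = true) (m : ℕ) : wfX (T_HS sp pa m) := by
  unfold wfX
  rw [Tf_HS, Tt_HS, T0_HS, h1, h2]
  simp

private lemma stay_HS (h1 : ∀ m, pa m [] (Sum.inr 0) = false)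
    (h2 : ∀ m, sp (m + 1) (Sum.inr 0) = true) (m : ℕ) :
    stay (T_HS sp pa m) ↔ sp m (Sum.inr 1) = false := by
  unfold stay
  rw [T0_HS]
  exact ⟨fun h => h.2, fun h => ⟨wf_HS sp pa h1 h2 m, h⟩⟩

private lemma sw_HS (K : Set (Tre (Lt3 Q))) (h1 : ∀ m, pa m [] (Sum.inr 0) = false)
    (h2 : ∀ m, sp (m + 1) (Sum.inr 0) = true) (m : ℕ) :
    Sw K (T_HS sp pa m) ↔ sp m (Sum.inr 1) = true ∧
      (pa m ∈ K ↔ sp m (Sum.inr 2) = false) := by
  unfold Sw
  rw [T0_HS, pt_HS sp pa h1]
  exact ⟨fun h => h.2, fun h => ⟨wf_HS sp pa h1 h2 m, h⟩⟩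

private lemma mem_HS (K H : Set (Tre (Lt3 Q))) (h1 : ∀ m, pa m [] (Sum.inr 0) = false)
    (h2 : ∀ m, sp (m + 1) (Sum.inr 0) = true) :
    T_HS sp pa 0 ∈ Su K H ↔
      (∃ n, (∀ m, m < n → sp m (Sum.inr 1) = false) ∧ sp n (Sum.inr 1) = true ∧
        (pa n ∈ K ↔ sp n (Sum.inr 2) = false)) ∨
      ((∀ n, sp n (Sum.inr 1) = false) ∧ pa 0 ∈ H) := by
  have e : (T_HS sp pa 0 ∈ Su K H) =
      ((∃ n, (∀ m, m < n → stay (nx^[m] (T_HS sp pa 0))) ∧ Sw K (nx^[n] (T_HS sp pa 0))) ∨
      ((∀ n, stay (nx^[n] (T_HS sp pa 0))) ∧ pt (T_HS sp pa 0) ∈ H)) := rfl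
  rw [e]
  simp only [nxn_HS sp pa h1, stay_HS sp pa h1 h2, sw_HS sp pa K h1 h2, pt_HS sp pa h1]

end tree

private lemma ctr_HS {X Q : Type} (i : Bits X) (sp : X → ℕ → Lt3 Q)
    (pa : X → ℕ → Tre (Lt3 Q)) (x y : X) (h1 : ∀ m, Ag i m x y → sp x m = sp y m)
    (h2 : ∀ m v, Ag i (m + v.length) x y → pa x m v = pa y m v) :
    ∀ (v : List Bool) (m : ℕ), Ag i (m + v.length) x y →
      T_HS (sp x) (pa x) m v = T_HS (sp y) (pa y) m v := by
  intro v
  induction v with
  | nil =>
    intro m h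
    rw [T0_HS, T0_HS]
    exact h1 m (by simpa using h)
  | cons e v ih =>
    intro m h
    rw [List.length_cons] at h
    cases e with
    | false =>
      rw [Tf_HS, Tf_HS]
      exact h2 m v (Ag_mono_HS i h (by omega))
    | true =>
      rw [Tt_HS, Tt_HS]
      exact ih (m + 1) (Ag_mono_HS i h (by omega))

private lemma ext_HS {X Q : Type} (i : Bits X) (O : Set X) (C : Cls) (A : Set X)
    (L : Set (Tre (Lt3 Q))) (hL : Hard C L) (hC : C O (res i O) (tr O A)) :
    ∃ k : X → Tre (Lt3 Q), (∀ x ∈ O, ∀ y ∈ O, ∀ u : List Bool, Ag i u.length x y →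
      k x u = k y u) ∧ (∀ x, k x [] (Sum.inr 0) = false) ∧ ∀ x ∈ O, (x ∈ A ↔ k x ∈ L) := by
  classical
  obtain ⟨k, hk1, hk2, hk3⟩ := hL O (res i O) (tr O A) hC
  let k' : X → Tre (Lt3 Q) := fun x => if h : x ∈ O then k ⟨x, h⟩ else junk_HS Q
  have hpos : ∀ x (hx : x ∈ O), k' x = k ⟨x, hx⟩ := fun x hx => dif_pos hx
  have hneg : ∀ x, x ∉ O → k' x = junk_HS Q := fun x hx => dif_neg hx
  refine ⟨k', ?_, ?_, ?_⟩
  · intro x hx y hy u h
    rw [hpos x hx, hpos y hy]
    exact hk1 u ⟨x, hx⟩ ⟨y, hy⟩ h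
  · intro x
    by_cases hx : x ∈ O
    · rw [hpos x hx]
      exact hk2 _
    · rw [hneg x hx]
      rfl
  · intro x hx
    rw [hpos x hx]
    exact hk3 ⟨x, hx⟩

private lemma off_HS {X Q : Type} (i : Bits X) (B A O : Set X) (U : Cls)
    (K : Set (Tre (Lt3 Q))) (hK : Hard U K) (hO : Off U i B A O) :
    ∃ (g : Bool) (k : X → Tre (Lt3 Q)), (∀ x ∈ O, ∀ y ∈ O, ∀ u : List Bool,
      Ag i u.length x y → k x u = k y u) ∧ (∀ x, k x [] (Sum.inr 0) = false) ∧
      ∀ x ∈ O, (x ∈ A ↔ (k x ∈ K ↔ g = false)) := by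
  rcases hO.2 with h | h
  · obtain ⟨k, h1, h2, h3⟩ := ext_HS i O U A K hK h
    refine ⟨false, k, h1, h2, ?_⟩
    intro x hx
    rw [h3 x hx]
    simp
  · obtain ⟨k, h1, h2, h3⟩ := ext_HS i O U Aᶜ K hK h
    refine ⟨true, k, h1, h2, ?_⟩
    intro x hx
    have h4 := h3 x hx
    rw [Set.mem_compl_iff] at h4
    rw [← h4]
    simp

theorem hHS : StHS := by
  classical
  intro Q U E K H hK hH X i A hA
  obtain ⟨B, hBcl, hBE, hBU⟩ := hA
  obtain ⟨kB, hB1, hB2, hB3⟩ := ext_HS i B E A H hH hBE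
  have hOff : ∀ O, Off U i B A O → ∃ (g : Bool) (k : X → Tre (Lt3 Q)), (∀ x ∈ O, ∀ y ∈ O,
      ∀ u : List Bool, Ag i u.length x y → k x u = k y u) ∧ (∀ x, k x [] (Sum.inr 0) = false) ∧
      ∀ x ∈ O, (x ∈ A ↔ (k x ∈ K ↔ g = false)) := fun O hO => off_HS i B A O U K hK hO
  haveI : Nonempty (Tre (Lt3 Q)) := ⟨junk_HS Q⟩
  choose! g k hk1 hk2 hk3 using hOff
  let P : X → ℕ → Prop := fun x n => Off U i B A (Cy i n x)
  let F : X → ℕ → Prop := fun x n => P x n ∧ ∀ m, m < n → ¬ P x m
  have hPc : ∀ x y n, Ag i n x y → (P x n ↔ P y n) := by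
    intro x y n h
    show Off U i B A (Cy i n x) ↔ Off U i B A (Cy i n y)
    rw [Cy_eq_HS i h]
  have hFc : ∀ x y n, Ag i n x y → (F x n ↔ F y n) := by
    intro x y n h
    have h2 : ∀ m, m < n → (P x m ↔ P y m) := fun m hm => hPc x y m (Ag_mono_HS i h (by omega))
    constructor
    · rintro ⟨h3, h4⟩
      exact ⟨(hPc x y n h).1 h3, fun m hm h5 => h4 m hm ((h2 m hm).2 h5)⟩
    · rintro ⟨h3, h4⟩
      exact ⟨(hPc x y n h).2 h3, fun m hm h5 => h4 m hm ((h2 m hm).1 h5)⟩
  have hxC : ∀ (x : X) (n : ℕ), x ∈ Cy i n x := fun x n _ _ => rfl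
  have hPB : ∀ x, x ∈ B → ∀ n, ¬ P x n := by
    intro x hx n hP
    exact Set.disjoint_left.1 hP.1 (hxC x n) hx
  have hFex : ∀ x, x ∉ B → ∃ n, F x n := by
    intro x hx
    have hex : ∃ n, P x n := hBU x hx
    exact ⟨Nat.find hex, Nat.find_spec hex, fun m hm => Nat.find_min hex hm⟩
  have hFu : ∀ x m n, F x m → P x n → m ≤ n := by
    intro x m n hm hn
    by_contra h
    exact hm.2 n (by omega) hn
  -- spine letters
  let sp : X → ℕ → Lt3 Q := fun x m p => match p with
    | Sum.inl _ => false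
    | Sum.inr a => decide ((a = 0 ∧ m ≠ 0) ∨ (a = 1 ∧ ∃ n, n < m ∧ P x n) ∨
        (a = 2 ∧ ∃ n, n < m ∧ F x n ∧ g (Cy i n x) = true))
  let pa : X → ℕ → Tre (Lt3 Q) := fun x m v => match m with
    | 0 => if h : (B ∩ Cy i v.length x).Nonempty then kB h.some v else fun _ => false
    | n + 1 => if F x n then k (Cy i n x) x v else fun _ => false
  have hsp : ∀ x y m, Ag i m x y → sp x m = sp y m := by
    intro x y m h
    have e1 : (∃ n, n < m ∧ P x n) ↔ ∃ n, n < m ∧ P y n := by
      apply exists_congr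
      intro n
      apply and_congr_right
      intro hn
      exact hPc x y n (Ag_mono_HS i h (by omega))
    have e2 : (∃ n, n < m ∧ F x n ∧ g (Cy i n x) = true) ↔
        ∃ n, n < m ∧ F y n ∧ g (Cy i n y) = true := by
      apply exists_congr
      intro n
      apply and_congr_right
      intro hn
      rw [hFc x y n (Ag_mono_HS i h (by omega)), Cy_eq_HS i (Ag_mono_HS i h (by omega : n ≤ m))]
    funext p
    rcases p with p | a
    · rfl
    · show decide ((a = 0 ∧ m ≠ 0) ∨ (a = 1 ∧ ∃ n, n < m ∧ P x n) ∨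
        (a = 2 ∧ ∃ n, n < m ∧ F x n ∧ g (Cy i n x) = true)) =
        decide ((a = 0 ∧ m ≠ 0) ∨ (a = 1 ∧ ∃ n, n < m ∧ P y n) ∨
        (a = 2 ∧ ∃ n, n < m ∧ F y n ∧ g (Cy i n y) = true))
      rw [decide_eq_decide, e1, e2]
  have hpa : ∀ x y m (v : List Bool), Ag i (m + v.length) x y → pa x m v = pa y m v := by
    intro x y m v h
    match m with
    | 0 =>
      have e : B ∩ Cy i v.length x = B ∩ Cy i v.length y := by
        rw [Cy_eq_HS i (Ag_mono_HS i h (by omega))]
      show (if h : (B ∩ Cy i v.length x).Nonempty then kB h.some v else fun _ => false) =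
        (if h : (B ∩ Cy i v.length y).Nonempty then kB h.some v else fun _ => false)
      rw [e]
    | n + 1 =>
      show (if F x n then k (Cy i n x) x v else (fun _ => false : Lt3 Q)) =
        (if F y n then k (Cy i n y) y v else (fun _ => false : Lt3 Q))
      have hn : Ag i n x y := Ag_mono_HS i h (by omega)
      by_cases hF : F x n
      · rw [if_pos hF, if_pos ((hFc x y n hn).1 hF), ← Cy_eq_HS i hn]
        exact hk1 _ hF.1 x (hxC x n) y hn v (Ag_mono_HS i h (by omega))
      · rw [if_neg hF, if_neg (fun h' => hF ((hFc x y n hn).2 h'))]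
  have hp0 : ∀ x m, pa x m [] (Sum.inr 0) = false := by
    intro x m
    match m with
    | 0 =>
      show (if h : (B ∩ Cy i ([] : List Bool).length x).Nonempty then kB h.some [] else
        fun _ => false) (Sum.inr 0) = false
      by_cases h : (B ∩ Cy i ([] : List Bool).length x).Nonempty
      · rw [dif_pos h]
        exact hB2 _
      · rw [dif_neg h]
    | n + 1 =>
      show (if F x n then k (Cy i n x) x [] else (fun _ => false : Lt3 Q)) (Sum.inr 0) = false
      by_cases hF : F x n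
      · rw [if_pos hF]
        exact hk2 _ hF.1 x
      · rw [if_neg hF]
  have hs0 : ∀ x m, sp x (m + 1) (Sum.inr 0) = true := by
    intro x m
    show decide (_ ∨ _) = true
    rw [decide_eq_true_eq]
    exact Or.inl ⟨rfl, Nat.succ_ne_zero m⟩
  have hs1 : ∀ x m, (sp x m (Sum.inr 1) = true ↔ ∃ n, n < m ∧ P x n) := by
    intro x m
    show (decide (((1 : Fin 3) = 0 ∧ m ≠ 0) ∨ ((1 : Fin 3) = 1 ∧ ∃ n, n < m ∧ P x n) ∨
        ((1 : Fin 3) = 2 ∧ ∃ n, n < m ∧ F x n ∧ g (Cy i n x) = true)) = true) ↔ _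
    rw [decide_eq_true_eq]
    simp
  have hs1' : ∀ x m, (sp x m (Sum.inr 1) = false ↔ ¬ ∃ n, n < m ∧ P x n) := by
    intro x m
    rw [← hs1]
    simp
  have hs2 : ∀ x m, (sp x m (Sum.inr 2) = false ↔
      ¬ ∃ n, n < m ∧ F x n ∧ g (Cy i n x) = true) := by
    intro x m
    show (decide (((2 : Fin 3) = 0 ∧ m ≠ 0) ∨ ((2 : Fin 3) = 1 ∧ ∃ n, n < m ∧ P x n) ∨
        ((2 : Fin 3) = 2 ∧ ∃ n, n < m ∧ F x n ∧ g (Cy i n x) = true)) = false) ↔ _
    rw [decide_eq_false_iff_not]
    simp
  refine ⟨fun x => T_HS (sp x) (pa x) 0, ?_, ?_, ?_⟩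
  · intro u x y h
    exact ctr_HS i sp pa x y (hsp x y) (hpa x y) u 0 (by simpa using h)
  · intro x
    show T_HS (sp x) (pa x) 0 [] (Sum.inr 0) = false
    rw [T0_HS]
    show decide (((0 : Fin 3) = 0 ∧ (0 : ℕ) ≠ 0) ∨ ((0 : Fin 3) = 1 ∧ ∃ n, n < 0 ∧ P x n) ∨
        ((0 : Fin 3) = 2 ∧ ∃ n, n < 0 ∧ F x n ∧ g (Cy i n x) = true)) = false
    rw [decide_eq_false_iff_not]
    simp
  · intro x
    show x ∈ A ↔ T_HS (sp x) (pa x) 0 ∈ Su K H
    rw [mem_HS (sp x) (pa x) K H (hp0 x) (hs0 x)]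
    by_cases hx : x ∈ B
    · have hno : ∀ n, ¬ ∃ m, m < n ∧ P x m := by
        rintro n ⟨m, -, hm⟩
        exact hPB x hx m hm
      have hpa0 : pa x 0 = kB x := by
        funext v
        have hne : (B ∩ Cy i v.length x).Nonempty := ⟨x, hx, hxC x _⟩
        show (if h : (B ∩ Cy i v.length x).Nonempty then kB h.some v else fun _ => false) = _
        rw [dif_pos hne]
        exact hB1 _ hne.some_mem.1 x hx v (Ag_symm_HS i hne.some_mem.2)
      rw [hpa0, hB3 x hx]
      constructor
      · intro h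
        exact Or.inr ⟨fun n => (hs1' x n).2 (hno n), h⟩
      · rintro (⟨n, -, h3, -⟩ | ⟨-, h3⟩)
        · exact absurd ((hs1 x n).1 h3) (hno n)
        · exact h3
    · obtain ⟨N, hN⟩ := hFex x hx
      have hlow : ∀ m, m ≤ N → ¬ ∃ n, n < m ∧ P x n := by
        rintro m hm ⟨n, hn, hP⟩
        exact hN.2 n (by omega) hP
      have hpaN : pa x (N + 1) = k (Cy i N x) x := by
        funext v
        show (if F x N then k (Cy i N x) x v else (fun _ => false : Lt3 Q)) = _
        rw [if_pos hN]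
      have hg : sp x (N + 1) (Sum.inr 2) = false ↔ g (Cy i N x) = false := by
        rw [hs2]
        constructor
        · intro h
          by_contra hne
          exact h ⟨N, Nat.lt_succ_self N, hN, by simpa using hne⟩
        · rintro h ⟨n, hn, hF, hgt⟩
          have e : n = N := le_antisymm (by omega) (hFu x N n hN hF.1)
          subst e
          rw [h] at hgt
          exact absurd hgt (by simp)
      have hkey := hk3 (Cy i N x) hN.1 x (hxC x N)
      rw [hkey]
      constructor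
      · intro h
        refine Or.inl ⟨N + 1, fun m hm => (hs1' x m).2 (hlow m (by omega)),
          (hs1 x _).2 ⟨N, Nat.lt_succ_self N, hN.1⟩, ?_⟩
        rw [hpaN, hg]
        exact h
      · rintro (⟨n, h3, h4, h5⟩ | ⟨h3, -⟩)
        · have h6 : n = N + 1 := by
            rcases lt_trichotomy n (N + 1) with h7 | h7 | h7
            · exact absurd ((hs1 x n).1 h4) (hlow n (by omega))
            · exact h7
            · exact absurd ⟨N, Nat.lt_succ_self N, hN.1⟩ ((hs1' x _).1 (h3 (N + 1) h7))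
          subst h6
          rw [hpaN, hg] at h5
          exact h5
        · exact absurd ⟨N, Nat.lt_succ_self N, hN.1⟩ ((hs1' x _).1 (h3 (N + 1)))

end Pool.Agent.Helper30.WL

end

section

/-!
# PROJECT WL: module KEY (absorption)
-/

set_option autoImplicit false

namespace Pool.Agent.Helper30.WL

open Set
open Pool.Agent.Helper24.WH (Tre pT)
open Ordinal hiding univ

theorem hKEY (hCLS : StCLS) (hLT : StLT) : StKEY := by
  intro U V C C' hU hC' hCC hV X i A hA
  obtain ⟨-, -, -, h4⟩ := hLT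
  have hE : LtC (ExpC C) (ExpC C') := h4 C C' hCC
  rcases hA with ⟨B, hB, hBE, hoff⟩ | ⟨B, hB, hBE, hoff⟩
  · refine hCLS U C' hU hC' X i A B hB (hE _ _ _ (Or.inl hBE)) fun x hx => ?_
    obtain ⟨n, hd, hn⟩ := hoff x hx
    exact ⟨n, hd, hV _ _ _ hn⟩
  · refine hCLS U C' hU hC' X i A B hB (hE _ _ _ (Or.inr hBE)) fun x hx => ?_
    obtain ⟨n, hd, hn⟩ := hoff x hx
    rw [compl_compl] at hn
    exact ⟨n, hd, hV _ _ _ hn.symm⟩

end Pool.Agent.Helper30.WL

end

section

/-! Project WL (MP_76577a_lc), module MS (helper93): the sum of two languages is in the sum class. -/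

set_option autoImplicit false

namespace Pool.Agent.Helper30.WL

open Set
open Pool.Agent.Helper24.WH (Tre pT)
open Ordinal hiding univ

/-- agreement up to depth `D` -/
private def Agd {A : Type} (D : ℕ) (t t' : Tre A) : Prop := ∀ u : List Bool, u.length ≤ D → t u = t' u

private theorem Ag_mono_MS {X : Type} {i : Bits X} {n n' : ℕ} (h : n' ≤ n) {x y : X}
    (hx : Ag i n x y) : Ag i n' x y := fun k hk => hx k (lt_of_lt_of_le hk h)

private theorem fin_MS {P : Type} [Countable P]
    (h2 : ∀ u : List Bool, ∃ N, ∀ t t' : Tre (P → Bool), Ag std N t t' → t u = t' u) (D : ℕ) :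
    ∃ N, ∀ t t' : Tre (P → Bool), Ag std N t t' → Agd D t t' := by
  choose f hf using h2
  have hfin : {l : List Bool | l.length ≤ D}.Finite := List.finite_length_le Bool D
  obtain ⟨N, hN⟩ := (hfin.image f).bddAbove
  refine ⟨N, fun t t' h u hu => hf u t t' (Ag_mono_MS ?_ h)⟩
  exact hN ⟨u, hu, rfl⟩

private theorem cts_MS {P : Type} [Countable P]
    (h1 : ∀ (n : ℕ) (t t' : Tre (P → Bool)), (∀ u : List Bool, u.length ≤ n → t u = t' u) →
      std t n = std t' n)
    (h2 : ∀ u : List Bool, ∃ N, ∀ t t' : Tre (P → Bool), Ag std N t t' → t u = t' u)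
    (p : Set (Tre (P → Bool))) (f : Tre (P → Bool) → Tre (P → Bool)) (c : ℕ)
    (hf : ∀ D, ∀ t ∈ p, ∀ t' ∈ p, Agd (D + c) t t' → Agd D (f t) (f t')) :
    Cts (res (std : Bits (Tre (P → Bool))) p) std (fun t : p => f t.1) := by
  intro n y
  obtain ⟨N, hN⟩ := fin_MS h2 (n + c)
  refine ⟨N, fun y' hy k hk => ?_⟩
  have h3 := hf n y.1 y.2 y'.1 y'.2 (hN y.1 y'.1 hy)
  exact h1 k _ _ fun u hu => h3 u (by omega)

section path

variable {Q : Type}

private theorem dX_MS {t t' : Tre (Lt3 Q)} {D : ℕ} (h : Agd (D + 1) t t') : dX t = dX t' := by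
  unfold dX
  rw [h [false] (by simp)]

private theorem sub_MS {t t' : Tre (Lt3 Q)} {D : ℕ} (w : List Bool) (h : Agd (D + w.length) t t') :
    Agd D (t.sub w) (t'.sub w) := by
  intro u hu
  exact h (w ++ u) (by rw [List.length_append]; omega)

private theorem nx_MS {t t' : Tre (Lt3 Q)} {D : ℕ} (h : Agd (D + 1) t t') : Agd D (nx t) (nx t') := by
  unfold nx
  rw [dX_MS h]
  exact sub_MS _ h

private theorem nxn_MS {D : ℕ} (n : ℕ) : ∀ {t t' : Tre (Lt3 Q)}, Agd (D + n) t t' →
    Agd D (nx^[n] t) (nx^[n] t') := by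
  induction n with
  | zero => exact fun h => h
  | succ n ih =>
      intro t t' h
      rw [Function.iterate_succ_apply, Function.iterate_succ_apply]
      exact ih (nx_MS h)

private theorem wfX_MS {t t' : Tre (Lt3 Q)} (h : Agd 1 t t') : wfX t ↔ wfX t' := by
  unfold wfX
  rw [h [false] (by simp), h [true] (by simp)]

private theorem stay_MS {t t' : Tre (Lt3 Q)} (h : Agd 1 t t') : stay t ↔ stay t' := by
  unfold stay
  rw [wfX_MS h, h [] (by simp)]

/-- the path of the spine -/
private def pa : ℕ → Tre (Lt3 Q) → List Bool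
  | 0, _ => []
  | n + 1, t => dX t :: pa n (nx t)

private theorem pa_MS (n : ℕ) : ∀ t : Tre (Lt3 Q), nx^[n] t = t.sub (pa n t) := by
  induction n with
  | zero => intro t; rfl
  | succ n ih =>
      intro t
      rw [Function.iterate_succ_apply, ih (nx t)]
      rfl

private theorem pa_congr_MS (n : ℕ) : ∀ {t t' : Tre (Lt3 Q)}, Agd n t t' → pa n t = pa n t' := by
  induction n with
  | zero => intro t t' _; rfl
  | succ n ih =>
      intro t t' h
      show dX t :: pa n (nx t) = dX t' :: pa n (nx t')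
      rw [dX_MS h, ih (nx_MS h)]

end path

theorem hMS (hSB : StSB) : StMS := by
  intro Q _ U E K H hU hE hK hH
  obtain ⟨h1, h2, -⟩ := hSB (Q ⊕ Fin 3)
  have hne : ∀ (t : Tre (Lt3 Q)), Sw K t → ¬ stay t := by
    rintro t ⟨-, h3, -⟩ ⟨-, h4⟩
    rw [h3] at h4
    exact Bool.noConfusion h4
  refine ⟨{t | ∀ n, stay (nx^[n] t)}, ?_, ?_, ?_⟩
  · -- closed
    intro t ht
    have ht' : ∃ n, ¬ stay (nx^[n] t) := by
      by_contra hcon
      push Not at hcon
      exact ht hcon
    obtain ⟨n, hn⟩ := ht'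
    obtain ⟨N, hN⟩ := fin_MS h2 (1 + n)
    refine ⟨N, fun t' ht' hB => hn ?_⟩
    exact (stay_MS (nxn_MS n (hN t t' ht'))).2 (hB n)
  · -- the trace on the closed set
    have htr : tr {t : Tre (Lt3 Q) | ∀ n, stay (nx^[n] t)} (Su K H) =
        (fun t : {t : Tre (Lt3 Q) | ∀ n, stay (nx^[n] t)} => pt t.1) ⁻¹' H := by
      ext t
      constructor
      · rintro (⟨n, -, hs⟩ | ⟨-, hs⟩)
        · exact absurd (t.2 n) (hne _ hs)
        · exact hs
      · intro hs
        exact Or.inr ⟨t.2, hs⟩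
    rw [htr]
    refine hE.pre _ _ _ _ _ _ (cts_MS h1 h2 _ pt 1 ?_) hH
    intro D t _ t' _ h
    unfold pt
    rw [dX_MS h]
    exact sub_MS _ h
  · -- off the closed set
    intro t ht
    have ht' : ∃ n, ¬ stay (nx^[n] t) := by
      by_contra hcon
      push Not at hcon
      exact ht hcon
    classical
    obtain ⟨n, hn, hmin⟩ : ∃ n, ¬ stay (nx^[n] t) ∧ ∀ m, m < n → stay (nx^[m] t) :=
      ⟨Nat.find ht', Nat.find_spec ht', fun m hm => not_not.1 (Nat.find_min ht' hm)⟩
    obtain ⟨N, hN⟩ := fin_MS h2 (1 + n)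
    have hag : ∀ t' ∈ Cy std N t, Agd (1 + n) t t' := fun t' h => hN t t' h
    have hSu : ∀ t' ∈ Cy std N t, (t' ∈ Su K H ↔ Sw K (nx^[n] t')) := by
      intro t' h
      have h3 : ¬ stay (nx^[n] t') := fun h4 => hn ((stay_MS (nxn_MS n (hag t' h))).2 h4)
      have h4 : ∀ m, m < n → stay (nx^[m] t') := by
        intro m hm
        refine (stay_MS (nxn_MS m (D := 1) fun u hu => hag t' h u ?_)).1 (hmin m hm)
        omega
      constructor
      · rintro (⟨m, hm, hs⟩ | ⟨hs, -⟩)
        · have h5 : m = n := by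
            rcases lt_trichotomy m n with h5 | h5 | h5
            · exact absurd (h4 m h5) (hne _ hs)
            · exact h5
            · exact absurd (hm n h5) h3
          rw [← h5]
          exact hs
        · exact absurd (hs n) h3
      · intro hs
        exact Or.inl ⟨n, h4, hs⟩
    refine ⟨N, ?_, ?_⟩
    · rw [Set.disjoint_left]
      intro t' h hB
      exact hn ((stay_MS (nxn_MS n (hag t' h))).2 (hB n))
    · by_cases hw : wfX (nx^[n] t)
      · -- the switch
        have hr1 : (nx^[n] t) [] (Sum.inr 1) = true := by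
          by_contra h3
          exact hn ⟨hw, by simpa using h3⟩
        have hpt : ∀ t' ∈ Cy std N t, pt (nx^[n] t') =
            t'.sub (pa n t ++ [!(dX (nx^[n] t))]) := by
          intro t' h
          have h3 := hag t' h
          have h4 : pa n t' = pa n t :=
            (pa_congr_MS n fun u hu => (h3 u (by omega))).symm
          have h5 : dX (nx^[n] t') = dX (nx^[n] t) := (dX_MS (D := 0) (nxn_MS n h3)).symm
          unfold pt
          rw [h5, pa_MS n t', h4]
          funext u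
          show t' (pa n t ++ ([!(dX (nx^[n] t))] ++ u)) = t' ((pa n t ++ [!(dX (nx^[n] t))]) ++ u)
          rw [List.append_assoc]
        have hroot : ∀ t' ∈ Cy std N t, (nx^[n] t') [] = (nx^[n] t) [] := fun t' h =>
          (nxn_MS n (hag t' h) [] (by simp)).symm
        have hSu2 : ∀ t' ∈ Cy std N t, (t' ∈ Su K H ↔
            (t'.sub (pa n t ++ [!(dX (nx^[n] t))]) ∈ K ↔ (nx^[n] t) [] (Sum.inr 2) = false)) := by
          intro t' h
          rw [hSu t' h]
          unfold Sw
          rw [hpt t' h, hroot t' h]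
          constructor
          · rintro ⟨-, -, h3⟩
            exact h3
          · intro h3
            exact ⟨(wfX_MS (nxn_MS n (hag t' h))).1 hw, hr1, h3⟩
        have hcts : Cts (res (std : Bits (Tre (Lt3 Q))) (Cy std N t)) std
            (fun t' : (Cy std N t : Set (Tre (Lt3 Q))) =>
              t'.1.sub (pa n t ++ [!(dX (nx^[n] t))])) :=
          cts_MS h1 h2 _ (fun t' => t'.sub (pa n t ++ [!(dX (nx^[n] t))])) _
            (fun D t' _ t'' _ h => sub_MS _ h)
        rcases Bool.eq_false_or_eq_true ((nx^[n] t) [] (Sum.inr 2)) with hb | hb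
        · right
          have htr : tr (Cy std N t) (Su K H)ᶜ =
              (fun t' : (Cy std N t : Set (Tre (Lt3 Q))) =>
                t'.1.sub (pa n t ++ [!(dX (nx^[n] t))])) ⁻¹' K := by
            ext t'
            show ¬ (t'.1 ∈ Su K H) ↔ _
            rw [hSu2 t'.1 t'.2, hb]
            simp
          rw [htr]
          exact hU.pre _ _ _ _ _ _ hcts hK
        · left
          have htr : tr (Cy std N t) (Su K H) =
              (fun t' : (Cy std N t : Set (Tre (Lt3 Q))) =>
                t'.1.sub (pa n t ++ [!(dX (nx^[n] t))])) ⁻¹' K := by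
            ext t'
            show (t'.1 ∈ Su K H) ↔ _
            rw [hSu2 t'.1 t'.2, hb]
            simp
          rw [htr]
          exact hU.pre _ _ _ _ _ _ hcts hK
      · left
        have htr : tr (Cy std N t) (Su K H) = ∅ := by
          ext t'
          constructor
          · intro h
            have h3 := (hSu t'.1 t'.2).1 h
            exact hw ((wfX_MS (nxn_MS n (hag t'.1 t'.2))).2 h3.1)
          · intro h
            exact absurd h (Set.notMem_empty _)
        rw [htr]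
        exact hU.empty _ _

end Pool.Agent.Helper30.WL

end

section

set_option autoImplicit false

/-!
Project WL (MP_76577a_lc): complete languages are not self dual.
-/

namespace Pool.Agent.Helper30.WL

open Set
open Pool.Agent.Helper24.WH (Tre pT)

private lemma ag_mono_NS {X : Type} (i : Bits X) {m n : ℕ} (h : m ≤ n) {x y : X}
    (hxy : Ag i n x y) : Ag i m x y := fun k hk => hxy k (lt_of_lt_of_le hk h)

theorem hNS (hSB : StSB) : StNS := by
  intro Q _ C C' L L' hC hL
  obtain ⟨sb1, sb2, sb3⟩ := hSB (Q ⊕ Fin 3)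
  have hag : ∀ (n : ℕ) (t t' : Tre (Lt3 Q)), (∀ u : List Bool, u.length < n → t u = t' u) →
      Ag std n t t' := by
    intro n t t' h m hm
    exact sb1 m t t' (fun u hu => h u (lt_of_le_of_lt hu hm))
  have hcts : ∀ k : Tre (Lt3 Q) → Tre (Lt3 Q), Ctr std k → Cts std std k := by
    intro k hk n y
    refine ⟨n, fun y' hy => hag n _ _ (fun u hu => hk u y y' (ag_mono_NS std hu.le hy))⟩
  have hcont : ∀ k : Tre (Lt3 Q) → Tre (Lt3 Q), Ctr std k →
      @Continuous _ _ (pT (Lt3 Q)) (pT (Lt3 Q)) k :=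
    fun k hk => (sb3 (Q ⊕ Fin 3) k).1 (hcts k hk)
  have hfix : ∀ k : Tre (Lt3 Q) → Tre (Lt3 Q), Ctr std k → ∃ t, k t = t := by
    intro k hk
    let t : ℕ → Tre (Lt3 Q) := fun n => k^[n] (fun _ _ => false)
    have hts : ∀ n, t (n + 1) = k (t n) := fun n => Function.iterate_succ_apply' k n _
    have hstep : ∀ n, ∀ u : List Bool, u.length < n → t n u = t (n + 1) u := by
      intro n
      induction n with
      | zero => intro u hu; exact absurd hu (Nat.not_lt_zero _)
      | succ n ih =>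
        intro u hu
        rw [hts n, hts (n + 1)]
        exact hk u _ _ (ag_mono_NS std (Nat.lt_succ_iff.1 hu) (hag n _ _ ih))
    have hst : ∀ (u : List Bool) (d : ℕ), t (u.length + 1 + d) u = t (u.length + 1) u := by
      intro u d
      induction d with
      | zero => rfl
      | succ d ih =>
        rw [← ih]
        exact (hstep (u.length + 1 + d) u (by omega)).symm
    refine ⟨fun u => t (u.length + 1) u, ?_⟩
    funext u
    have h1 : Ag std u.length (fun v => t (v.length + 1) v) (t (u.length + 1)) := by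
      apply hag
      intro v hv
      have := hst v (u.length - v.length)
      have e : v.length + 1 + (u.length - v.length) = u.length + 1 := by omega
      rw [e] at this
      exact this.symm
    rw [hk u _ _ h1, ← hts]
    exact hst u 1
  have hpart1 : ¬ ∃ f : Tre (Lt3 Q) → Tre (Lt3 Q),
      @Continuous _ _ (pT (Lt3 Q)) (pT (Lt3 Q)) f ∧ ∀ t, t ∉ L ↔ f t ∈ L := by
    rintro ⟨f, hf, hfL⟩
    have hpre : C (Tre (Lt3 Q)) std (f ⁻¹' L) := by
      exact hC.pre _ _ std std f L ((sb3 (Q ⊕ Fin 3) f).2 hf) hL.1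
    obtain ⟨k, hk, -, hkL⟩ := hL.2 _ _ _ hpre
    obtain ⟨t, ht⟩ := hfix k hk
    have h1 := hkL t
    rw [ht] at h1
    have h2 := hfL t
    have h3 : t ∈ f ⁻¹' L ↔ f t ∈ L := Iff.rfl
    tauto
  refine ⟨hpart1, ?_⟩
  intro hlt hL'
  refine ⟨?_, ?_⟩
  · obtain ⟨k, hk, -, hkL⟩ := hL'.2 _ _ _ (hlt _ _ L (Or.inl hL.1))
    exact ⟨k, hcont k hk, hkL⟩
  · rintro ⟨f, hf, hfL⟩
    have hc : C' (Tre (Lt3 Q)) std Lᶜ := hlt _ _ Lᶜ (Or.inr (by rw [compl_compl]; exact hL.1))
    obtain ⟨k, hk, -, hkL⟩ := hL'.2 _ _ _ hc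
    apply hpart1
    refine ⟨fun t => f (k t), ?_, ?_⟩
    · exact @Continuous.comp _ _ _ (pT (Lt3 Q)) (pT (Lt3 Q)) (pT (Lt3 Q)) k f hf (hcont k hk)
    · intro t
      have h1 := hkL t
      have h2 := hfL (k t)
      rw [mem_compl_iff] at h1
      tauto

end Pool.Agent.Helper30.WL

end

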