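import Pool.Agent.Helper30.WL.St2

/-! Modules of project WH / WL merged into one file to shorten the build. -/

section

set_option autoImplicit false

namespace Pool.Agent.Helper30.WL

open Set
open Pool.Agent.Helper24.WH
open Ordinal hiding univ

private theorem dfb_empty_CN (P : Type) : Dfb (∅ : Set (Tre (P → Bool))) := by
  refine ⟨Fm.bot, fun n h => h, trivial, ?_⟩
  ext t
  constructor
  · intro h; exact h.elim
  · intro h; exact h.elim

private theorem th_CN (m : ℕ) : th m = (fun a : Ordinal.{0} => ω ^ a)^[m + 1] 0 := by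
  induction m with
  | zero => simp [th]
  | succ m ih =>
    rw [Function.iterate_succ_apply', ← ih]
    rfl

theorem hCN (hST : StST) (hHZ : StHZ) (hGE : StGE) : StCN := by
  constructor
  · intro m
    induction m with
    | zero =>
      have hF : Finite (QQ 0) := inferInstanceAs (Finite Empty)
      refine ⟨hF, fun _ => C0, fun _ => ∅, ?_⟩
      constructor
      · intro a _; exact hGE.1
      · intro a _; exact hHZ (QQ 0)
      · intro a b hab hb
        have h1 : b < 1 := hb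
        rw [Order.lt_one_iff] at h1
        rw [h1] at hab
        exact absurd hab not_lt_zero
      · intro a _; exact dfb_empty_CN _
    | succ m ih =>
      obtain ⟨hF, C, L, h⟩ := ih
      obtain ⟨C', L', h'⟩ := hST (QQ m) (th m) C L h
      have hF' : Finite (QQ (m + 1)) := inferInstanceAs (Finite (QQ m ⊕ Fin 3))
      exact ⟨hF', C', L', h'⟩
  · intro a ha
    obtain ⟨n, hn⟩ := Ordinal.lt_epsilon_zero.mp ha
    cases n with
    | zero => exact absurd hn not_lt_zero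
    | succ n => exact ⟨n, by rw [th_CN]; exact hn⟩

end Pool.Agent.Helper30.WL

end

section

set_option autoImplicit false

namespace Pool.Agent.Helper30.WL

open Set
open Pool.Agent.Helper24.WH
open Ordinal hiding univ

theorem bt_free_DE {Q : Type} (n : ℕ) : ¬ (bt (Q := Q)).free n := by
  rintro (h | h | h)
  · exact h
  · exact h
  · exact absurd h (Nat.succ_ne_zero n).symm

theorem nb_free_DE {Q : Type} (n : ℕ) : ¬ (nb (Q := Q)).free n := by
  rintro (h | h | h)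
  · exact h
  · exact h
  · exact absurd h (Nat.succ_ne_zero n).symm

theorem bt_nu_DE {Q : Type} (n : ℕ) : ¬ (bt (Q := Q)).nuDep n := by
  rintro (h | h | h) <;> exact h

theorem nb_mu_DE {Q : Type} (n : ℕ) : ¬ (nb (Q := Q)).muDep n := by
  rintro (h | h | h) <;> exact h

theorem bt_mu_DE {Q : Type} (n : ℕ) : ¬ (bt (Q := Q)).muDep n := by
  rintro (h | h | h)
  · exact h
  · exact h
  · exact absurd h (Nat.succ_ne_zero n).symm

theorem nb_nu_DE {Q : Type} (n : ℕ) : ¬ (nb (Q := Q)).nuDep n := by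
  rintro (h | h | h)
  · exact h
  · exact h
  · exact absurd h (Nat.succ_ne_zero n).symm

theorem bt_alt_DE {Q : Type} : (bt (Q := Q)).altFree := by
  refine ⟨⟨trivial, trivial, trivial⟩, ?_⟩
  rintro (h | h | h) <;> exact h

theorem nb_alt_DE {Q : Type} : (nb (Q := Q)).altFree := by
  refine ⟨⟨trivial, trivial, trivial⟩, ?_⟩
  rintro (h | h | h) <;> exact h

theorem slf_free_DE {Q : Type} (ψ : Fm (Q ⊕ Fin 3)) (n : ℕ) : (slf ψ).free n ↔ ψ.free n := by
  constructor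
  · rintro ((h | h | h | h) | (h | h | h | h))
    · exact absurd h (bt_free_DE n)
    · exact h.elim
    · exact h.elim
    · exact h
    · exact absurd h (nb_free_DE n)
    · exact h.elim
    · exact h.elim
    · exact h
  · intro h
    exact Or.inl (Or.inr (Or.inr (Or.inr h)))

theorem slf_nu_DE {Q : Type} (ψ : Fm (Q ⊕ Fin 3)) (n : ℕ) : (slf ψ).nuDep n ↔ ψ.nuDep n := by
  constructor
  · rintro ((h | h | h | h) | (h | h | h | h))
    · exact absurd h (bt_nu_DE n)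
    · exact h.elim
    · exact h.elim
    · exact h
    · exact absurd h (nb_nu_DE n)
    · exact h.elim
    · exact h.elim
    · exact h
  · intro h
    exact Or.inl (Or.inr (Or.inr (Or.inr h)))

theorem slf_mu_DE {Q : Type} (ψ : Fm (Q ⊕ Fin 3)) (n : ℕ) : (slf ψ).muDep n ↔ ψ.muDep n := by
  constructor
  · rintro ((h | h | h | h) | (h | h | h | h))
    · exact absurd h (bt_mu_DE n)
    · exact h.elim
    · exact h.elim
    · exact h
    · exact absurd h (nb_mu_DE n)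
    · exact h.elim
    · exact h.elim
    · exact h
  · intro h
    exact Or.inl (Or.inr (Or.inr (Or.inr h)))

theorem slf_alt_DE {Q : Type} (ψ : Fm (Q ⊕ Fin 3)) : (slf ψ).altFree ↔ ψ.altFree := by
  constructor
  · rintro ⟨⟨_, _, _, h⟩, _⟩
    exact h
  · intro h
    exact ⟨⟨bt_alt_DE, trivial, trivial, h⟩, ⟨nb_alt_DE, trivial, trivial, h⟩⟩

theorem trf_free_DE {Q : Type} (φ : Fm Q) : ∀ n, (trf φ).free n ↔ φ.free n := by
  induction φ with
  | prop p => intro n; exact Iff.rfl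
  | nprop p => intro n; exact Iff.rfl
  | top => intro n; exact Iff.rfl
  | bot => intro n; exact Iff.rfl
  | var k => intro n; exact Iff.rfl
  | and φ ψ h1 h2 => intro n; exact or_congr (h1 n) (h2 n)
  | or φ ψ h1 h2 => intro n; exact or_congr (h1 n) (h2 n)
  | dia φ h => intro n; exact (slf_free_DE (trf φ) n).trans (h n)
  | box φ h => intro n; exact (slf_free_DE (trf φ) n).trans (h n)
  | mu φ h => intro n; exact h (n + 1)
  | nu φ h => intro n; exact h (n + 1)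

theorem trf_nu_DE {Q : Type} (φ : Fm Q) : ∀ n, (trf φ).nuDep n ↔ φ.nuDep n := by
  induction φ with
  | prop p => intro n; exact Iff.rfl
  | nprop p => intro n; exact Iff.rfl
  | top => intro n; exact Iff.rfl
  | bot => intro n; exact Iff.rfl
  | var k => intro n; exact Iff.rfl
  | and φ ψ h1 h2 => intro n; exact or_congr (h1 n) (h2 n)
  | or φ ψ h1 h2 => intro n; exact or_congr (h1 n) (h2 n)
  | dia φ h => intro n; exact (slf_nu_DE (trf φ) n).trans (h n)
  | box φ h => intro n; exact (slf_nu_DE (trf φ) n).trans (h n)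
  | mu φ h => intro n; exact h (n + 1)
  | nu φ h => intro n; exact trf_free_DE φ (n + 1)

theorem trf_mu_DE {Q : Type} (φ : Fm Q) : ∀ n, (trf φ).muDep n ↔ φ.muDep n := by
  induction φ with
  | prop p => intro n; exact Iff.rfl
  | nprop p => intro n; exact Iff.rfl
  | top => intro n; exact Iff.rfl
  | bot => intro n; exact Iff.rfl
  | var k => intro n; exact Iff.rfl
  | and φ ψ h1 h2 => intro n; exact or_congr (h1 n) (h2 n)
  | or φ ψ h1 h2 => intro n; exact or_congr (h1 n) (h2 n)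
  | dia φ h => intro n; exact (slf_mu_DE (trf φ) n).trans (h n)
  | box φ h => intro n; exact (slf_mu_DE (trf φ) n).trans (h n)
  | mu φ h => intro n; exact trf_free_DE φ (n + 1)
  | nu φ h => intro n; exact h (n + 1)

theorem trf_alt_DE {Q : Type} (φ : Fm Q) : (trf φ).altFree ↔ φ.altFree := by
  induction φ with
  | prop p => exact Iff.rfl
  | nprop p => exact Iff.rfl
  | top => exact Iff.rfl
  | bot => exact Iff.rfl
  | var k => exact Iff.rfl
  | and φ ψ h1 h2 => exact and_congr h1 h2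
  | or φ ψ h1 h2 => exact and_congr h1 h2
  | dia φ h => exact (slf_alt_DE (trf φ)).trans h
  | box φ h => exact (slf_alt_DE (trf φ)).trans h
  | mu φ h => exact and_congr h (not_congr (trf_nu_DE φ 0))
  | nu φ h => exact and_congr h (not_congr (trf_mu_DE φ 0))

theorem wff_free_DE {Q : Type} (n : ℕ) : ¬ (wff (Q := Q)).free n := by
  rintro ((h | h) | (h | (h | h) | h))
  · exact h
  · exact h
  · exact h
  · exact h
  · exact h
  · exact absurd h (Nat.succ_ne_zero n).symm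

theorem wff_alt_DE {Q : Type} : (wff (Q := Q)).altFree := by
  refine ⟨⟨⟨trivial, trivial⟩, ⟨trivial, ⟨trivial, trivial⟩, trivial⟩⟩, ?_⟩
  rintro ((h | h) | (h | (h | h) | h)) <;> exact h

theorem toB_dcS_DE {Q : Type} (t : Tre (Set (Q ⊕ Fin 3))) : toB (dcS t) = fun u => dec u (toB t) := by
  have h : ∀ (b : Bool) (i : Decidable (b = true)), @decide (b = true) i = b := by
    intro b i
    cases b
    · exact decide_eq_false (fun h => Bool.noConfusion h)
    · exact decide_eq_true rfl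
  funext u p
  exact h (dec u (toB t) p) _

theorem hDE (hTA : StTA) (hTL : StTL) (hLG : StLG) : StDE := by
  rintro Q L ⟨φ, hf, ha, hl⟩
  refine ⟨.and wff (trf φ), ?_, ⟨wff_alt_DE, (trf_alt_DE φ).mpr ha⟩, ?_⟩
  · rintro n (h | h)
    · exact wff_free_DE n h
    · exact hf n ((trf_free_DE φ n).mp h)
  · have hc : ∀ n, ¬ (Fm.and wff (trf φ)).free n := by
      rintro n (h | h)
      · exact wff_free_DE n h
      · exact hf n ((trf_free_DE φ n).mp h)
    rw [hLG _ _ hc (fun _ => ∅)]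
    ext t
    have h1 := (hTA Q (fun _ => ∅)).2.2.1
    have h2 := hTL Q φ (fun _ => ∅) (fun _ => ∅) (fun n t _ => Iff.rfl) t
    have h3 : (t ∈ (Fm.and wff (trf φ)).SEM (fun _ => ∅)) ↔
        (t ∈ (wff (Q := Q)).SEM (fun _ => ∅) ∧ t ∈ (trf φ).SEM (fun _ => ∅)) := Iff.rfl
    rw [h3, h1]
    have h4 : dcS t ∈ φ.SEM (fun _ => ∅) ↔ toB (dcS t) ∈ L := by
      rw [← hLG _ _ hf (fun _ => ∅), hl]
      exact Iff.rfl
    have h5 : (t ∈ {t : Tre (Set (Q ⊕ Fin 3)) | toB t ∈ Ex L}) ↔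
        ((∀ n, WFn n (toB t)) ∧ (fun u => dec u (toB t)) ∈ L) := Iff.rfl
    have h6 : (fun u => dec u (toB t)) ∈ L ↔ toB (dcS t) ∈ L := by
      rw [toB_dcS_DE]
      exact Iff.rfl
    rw [h5]
    constructor
    · rintro ⟨ha1, hb⟩
      exact ⟨ha1, h6.mpr (h4.mp ((h2 ha1).mp hb))⟩
    · rintro ⟨ha1, hb⟩
      exact ⟨ha1, (h2 ha1).mpr (h4.mpr (h6.mp hb))⟩

end Pool.Agent.Helper30.WL

end

section

/-!
# WL module DS: the sum of two definable languages is definable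
-/

set_option autoImplicit false

namespace Pool.Agent.Helper30.WL

open Set
open Pool.Agent.Helper24.WH
open Ordinal hiding univ

section DS

variable {Q : Type}

/-- well formedness of a spine node -/
def wf_DS : Fm (Q ⊕ Fin 3) := .and (.dia (.prop (.inr 0))) (.dia (.nprop (.inr 0)))

/-- the spine goes on with the variable `0` -/
def go_DS : Fm (Q ⊕ Fin 3) :=
  .and wf_DS (.and (.nprop (.inr 1)) (.dia (.and (.prop (.inr 0)) (.var 0))))

/-- the spine stays forever -/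
def N_DS : Fm (Q ⊕ Fin 3) := .nu go_DS

/-- the switch case -/
def sw_DS (k k' : Fm (Q ⊕ Fin 3)) : Fm (Q ⊕ Fin 3) :=
  .and wf_DS (.and (.prop (.inr 1)) (.or (.and (.nprop (.inr 2)) (.dia (.and (.nprop (.inr 0)) k)))
    (.and (.prop (.inr 2)) (.dia (.and (.nprop (.inr 0)) k')))))

/-- a switch is reached -/
def M_DS (k k' : Fm (Q ⊕ Fin 3)) : Fm (Q ⊕ Fin 3) := .mu (.or (sw_DS k k') go_DS)

/-- the formula -/
def F_DS (k k' h : Fm (Q ⊕ Fin 3)) : Fm (Q ⊕ Fin 3) :=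
  .or (M_DS k k') (.and N_DS (.dia (.and (.nprop (.inr 0)) h)))

/-- the next spine node, letters in `Set` -/
noncomputable def nxS_DS (t : Tre (Set (Q ⊕ Fin 3))) : Tre (Set (Q ⊕ Fin 3)) := t.sub [dX (toB t)]

theorem toB_nxS_DS (t : Tre (Set (Q ⊕ Fin 3))) : toB (nxS_DS t) = nx (toB t) := rfl

theorem toB_it_DS (n : ℕ) (t : Tre (Set (Q ⊕ Fin 3))) : toB (nxS_DS^[n] t) = nx^[n] (toB t) := by
  induction n generalizing t with
  | zero => rfl
  | succ n ih => rw [Function.iterate_succ_apply, Function.iterate_succ_apply, ih, toB_nxS_DS]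

theorem mark_DS (t : Tre (Set (Q ⊕ Fin 3))) (u : List Bool) (p : Q ⊕ Fin 3) :
    (toB t u p = true ↔ p ∈ t u) ∧ (toB t u p = false ↔ p ∉ t u) := by
  classical
  have h : toB t u p = decide (p ∈ t u) := by
    unfold toB
    congr
  rw [h]
  exact ⟨decide_eq_true_iff, decide_eq_false_iff_not⟩

theorem wfX_DS (t : Tre (Set (Q ⊕ Fin 3))) :
    wfX (toB t) ↔ ((∃ b : Bool, (Sum.inr 0 : Q ⊕ Fin 3) ∈ t [b]) ∧ ∃ b : Bool, (Sum.inr 0 : Q ⊕ Fin 3) ∉ t [b]) := by
  unfold wfX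
  have h1 := mark_DS t [false] (Sum.inr 0)
  have h2 := mark_DS t [true] (Sum.inr 0)
  constructor
  · intro h
    by_cases hf : (Sum.inr 0 : Q ⊕ Fin 3) ∈ t [false]
    · by_cases ht : (Sum.inr 0 : Q ⊕ Fin 3) ∈ t [true]
      · exact absurd ((h1.1.mpr hf).trans (h2.1.mpr ht).symm) h
      · exact ⟨⟨false, hf⟩, ⟨true, ht⟩⟩
    · by_cases ht : (Sum.inr 0 : Q ⊕ Fin 3) ∈ t [true]
      · exact ⟨⟨true, ht⟩, ⟨false, hf⟩⟩
      · exact absurd ((h1.2.mpr hf).trans (h2.2.mpr ht).symm) h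
  · rintro ⟨⟨b, hb⟩, ⟨b', hb'⟩⟩ h
    rcases b with _ | _ <;> rcases b' with _ | _
    · exact hb' hb
    · have e1 := h1.1.mpr hb
      rw [h] at e1
      exact hb' (h2.1.mp e1)
    · have e1 := h2.1.mpr hb
      rw [← h] at e1
      exact hb' (h1.1.mp e1)
    · exact hb' hb

theorem dir_DS (t : Tre (Set (Q ⊕ Fin 3))) (hw : wfX (toB t)) (b : Bool) :
    ((Sum.inr 0 : Q ⊕ Fin 3) ∈ t [b] ↔ b = dX (toB t)) ∧ ((Sum.inr 0 : Q ⊕ Fin 3) ∉ t [b] ↔ b = !(dX (toB t))) := by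
  unfold wfX at hw
  have h1 := mark_DS t [false] (Sum.inr 0)
  have h2 := mark_DS t [true] (Sum.inr 0)
  unfold dX
  rcases b with _ | _
  · rcases hf : toB t [false] (Sum.inr 0) with _ | _
    · have := h1.2.mp hf
      simp [this]
    · have := h1.1.mp hf
      simp [this]
  · rcases hf : toB t [false] (Sum.inr 0) with _ | _
    · have h3 : toB t [true] (Sum.inr 0) = true := by
        rcases ht : toB t [true] (Sum.inr 0) with _ | _
        · exact absurd (hf.trans ht.symm) hw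
        · rfl
      have := h2.1.mp h3
      simp [this]
    · have h3 : toB t [true] (Sum.inr 0) = false := by
        rcases ht : toB t [true] (Sum.inr 0) with _ | _
        · rfl
        · exact absurd (hf.trans ht.symm) hw
      have := h2.2.mp h3
      simp [this]

theorem wfSEM_DS (V : ℕ → Set (Tre (Set (Q ⊕ Fin 3)))) : wf_DS.SEM V = {t | wfX (toB t)} := by
  ext t
  rw [mem_ofPred_eq, wfX_DS]
  rfl

theorem diaX_DS (ψ : Fm (Q ⊕ Fin 3)) (V : ℕ → Set (Tre (Set (Q ⊕ Fin 3)))) (t : Tre (Set (Q ⊕ Fin 3)))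
    (hw : wfX (toB t)) : t ∈ (Fm.dia (.and (.prop (.inr 0)) ψ)).SEM V ↔ nxS_DS t ∈ ψ.SEM V := by
  have h0 : t ∈ (Fm.dia (.and (.prop (.inr 0)) ψ)).SEM V ↔
      ∃ b : Bool, (Sum.inr 0 : Q ⊕ Fin 3) ∈ t [b] ∧ t.sub [b] ∈ ψ.SEM V := Iff.rfl
  rw [h0]
  constructor
  · rintro ⟨b, hb, hψ⟩
    rw [(dir_DS t hw b).1] at hb
    rw [hb] at hψ
    exact hψ
  · intro h
    exact ⟨dX (toB t), ((dir_DS t hw _).1).mpr rfl, h⟩

theorem diaN_DS (ψ : Fm (Q ⊕ Fin 3)) (V : ℕ → Set (Tre (Set (Q ⊕ Fin 3)))) (t : Tre (Set (Q ⊕ Fin 3)))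
    (hw : wfX (toB t)) : t ∈ (Fm.dia (.and (.nprop (.inr 0)) ψ)).SEM V ↔ t.sub [!(dX (toB t))] ∈ ψ.SEM V := by
  have h0 : t ∈ (Fm.dia (.and (.nprop (.inr 0)) ψ)).SEM V ↔
      ∃ b : Bool, (Sum.inr 0 : Q ⊕ Fin 3) ∉ t [b] ∧ t.sub [b] ∈ ψ.SEM V := Iff.rfl
  rw [h0]
  constructor
  · rintro ⟨b, hb, hψ⟩
    rw [(dir_DS t hw b).2] at hb
    rw [hb] at hψ
    exact hψ
  · intro h
    exact ⟨!(dX (toB t)), ((dir_DS t hw _).2).mpr rfl, h⟩

theorem goSEM_DS (V : ℕ → Set (Tre (Set (Q ⊕ Fin 3)))) (t : Tre (Set (Q ⊕ Fin 3))) :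
    t ∈ go_DS.SEM V ↔ stay (toB t) ∧ nxS_DS t ∈ V 0 := by
  have h0 : t ∈ go_DS.SEM V ↔ t ∈ wf_DS.SEM V ∧ (Sum.inr 1 : Q ⊕ Fin 3) ∉ t [] ∧
      t ∈ (Fm.dia (.and (.prop (.inr 0)) (.var 0))).SEM V := Iff.rfl
  rw [h0, wfSEM_DS]
  constructor
  · rintro ⟨h1, h2, h3⟩
    exact ⟨⟨h1, (mark_DS t [] _).2.mpr h2⟩, (diaX_DS (.var 0) V t h1).mp h3⟩
  · rintro ⟨⟨h1, h2⟩, h3⟩
    exact ⟨h1, (mark_DS t [] _).2.mp h2, (diaX_DS (.var 0) V t h1).mpr h3⟩

theorem swSEM_DS (K : Set (Tre (Lt3 Q))) (k k' : Fm (Q ⊕ Fin 3)) (V : ℕ → Set (Tre (Set (Q ⊕ Fin 3))))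
    (hk : k.SEM V = {t | toB t ∈ K}) (hk' : k'.SEM V = {t | toB t ∉ K})
    (t : Tre (Set (Q ⊕ Fin 3))) : t ∈ (sw_DS k k').SEM V ↔ Sw K (toB t) := by
  have h0 : t ∈ (sw_DS k k').SEM V ↔ t ∈ wf_DS.SEM V ∧ (Sum.inr 1 : Q ⊕ Fin 3) ∈ t [] ∧
      (((Sum.inr 2 : Q ⊕ Fin 3) ∉ t [] ∧ t ∈ (Fm.dia (.and (.nprop (.inr 0)) k)).SEM V) ∨
       ((Sum.inr 2 : Q ⊕ Fin 3) ∈ t [] ∧ t ∈ (Fm.dia (.and (.nprop (.inr 0)) k')).SEM V)) := Iff.rfl
  rw [h0, wfSEM_DS]
  unfold Sw
  have e0 : toB (t.sub [!(dX (toB t))]) = pt (toB t) := rfl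
  constructor
  · rintro ⟨h1, h2, h3⟩
    refine ⟨h1, (mark_DS t [] _).1.mpr h2, ?_⟩
    rcases h3 with ⟨h4, h5⟩ | ⟨h4, h5⟩
    · rw [diaN_DS k V t h1, hk, mem_ofPred_eq, e0] at h5
      exact ⟨fun _ => (mark_DS t [] _).2.mpr h4, fun _ => h5⟩
    · rw [diaN_DS k' V t h1, hk', mem_ofPred_eq, e0] at h5
      exact ⟨fun h => absurd h h5, fun h => absurd h4 ((mark_DS t [] _).2.mp h)⟩
  · rintro ⟨h1, h2, h3⟩
    refine ⟨h1, (mark_DS t [] _).1.mp h2, ?_⟩
    by_cases h4 : (Sum.inr 2 : Q ⊕ Fin 3) ∈ t []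
    · right
      refine ⟨h4, ?_⟩
      rw [diaN_DS k' V t h1, hk', mem_ofPred_eq, e0]
      intro h5
      exact (mark_DS t [] _).2.mp (h3.mp h5) h4
    · left
      refine ⟨h4, ?_⟩
      rw [diaN_DS k V t h1, hk, mem_ofPred_eq, e0]
      exact h3.mpr ((mark_DS t [] _).2.mpr h4)

theorem NSEM_DS (V : ℕ → Set (Tre (Set (Q ⊕ Fin 3)))) :
    N_DS.SEM V = {t | ∀ n, stay (nx^[n] (toB t))} := by
  have h0 : N_DS.SEM V = ⋃₀ {X | X ⊆ go_DS.SEM (ec X V)} := rfl
  rw [h0]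
  ext t
  constructor
  · rintro ⟨X, hX, htX⟩ n
    induction n generalizing t with
    | zero => exact ((goSEM_DS _ t).mp (hX htX)).1
    | succ n ih =>
      have h1 : nxS_DS t ∈ X := ((goSEM_DS _ t).mp (hX htX)).2
      have := ih (nxS_DS t) h1
      rw [toB_nxS_DS] at this
      exact this
  · intro ht
    refine ⟨{t | ∀ n, stay (nx^[n] (toB t))}, ?_, ht⟩
    intro s hs
    rw [goSEM_DS]
    refine ⟨hs 0, fun n => ?_⟩
    rw [toB_nxS_DS]
    exact hs (n + 1)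

theorem MSEM_DS (K : Set (Tre (Lt3 Q))) (k k' : Fm (Q ⊕ Fin 3)) (V : ℕ → Set (Tre (Set (Q ⊕ Fin 3))))
    (hk : ∀ V, k.SEM V = {t | toB t ∈ K}) (hk' : ∀ V, k'.SEM V = {t | toB t ∉ K}) :
    (M_DS k k').SEM V = {t | ∃ n, (∀ m, m < n → stay (nx^[m] (toB t))) ∧ Sw K (nx^[n] (toB t))} := by
  have h0 : (M_DS k k').SEM V = ⋂₀ {X | (sw_DS k k').SEM (ec X V) ∪ go_DS.SEM (ec X V) ⊆ X} := rfl
  rw [h0]
  ext t
  constructor
  · intro ht
    refine ht _ ?_
    rintro s (hs | hs)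
    · rw [swSEM_DS K k k' _ (hk _) (hk' _)] at hs
      exact ⟨0, fun m hm => absurd hm (Nat.not_lt_zero m), hs⟩
    · rw [goSEM_DS] at hs
      obtain ⟨h1, n, h2, h3⟩ := hs
      rw [toB_nxS_DS] at h2 h3
      refine ⟨n + 1, ?_, h3⟩
      intro m hm
      rcases m with _ | m
      · exact h1
      · exact h2 m (by omega)
  · rintro ⟨n, h1, h2⟩ X hX
    induction n generalizing t with
    | zero =>
      refine hX (Or.inl ?_)
      rw [swSEM_DS K k k' _ (hk _) (hk' _)]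
      exact h2
    | succ n ih =>
      refine hX (Or.inr ?_)
      rw [goSEM_DS]
      refine ⟨h1 0 (Nat.succ_pos n), ih (nxS_DS t) ?_ ?_⟩
      · intro m hm
        rw [toB_nxS_DS]
        exact h1 (m + 1) (by omega)
      · rw [toB_nxS_DS]
        exact h2

theorem FSEM_DS (K H : Set (Tre (Lt3 Q))) (k k' h : Fm (Q ⊕ Fin 3)) (V : ℕ → Set (Tre (Set (Q ⊕ Fin 3))))
    (hk : ∀ V, k.SEM V = {t | toB t ∈ K}) (hk' : ∀ V, k'.SEM V = {t | toB t ∉ K})
    (hh : ∀ V, h.SEM V = {t | toB t ∈ H}) :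
    (F_DS k k' h).SEM V = {t | toB t ∈ Su K H} := by
  ext t
  have h0 : t ∈ (F_DS k k' h).SEM V ↔ t ∈ (M_DS k k').SEM V ∨
      (t ∈ N_DS.SEM V ∧ t ∈ (Fm.dia (.and (.nprop (.inr 0)) h)).SEM V) := Iff.rfl
  rw [h0, MSEM_DS K k k' V hk hk', NSEM_DS]
  have e0 : toB (t.sub [!(dX (toB t))]) = pt (toB t) := rfl
  constructor
  · rintro (h1 | ⟨h1, h2⟩)
    · exact Or.inl h1
    · rw [diaN_DS h V t (h1 0).1, hh, mem_ofPred_eq, e0] at h2
      exact Or.inr ⟨h1, h2⟩
  · rintro (h1 | ⟨h1, h2⟩)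
    · exact Or.inl h1
    · refine Or.inr ⟨h1, ?_⟩
      rw [diaN_DS h V t (h1 0).1, hh, mem_ofPred_eq, e0]
      exact h2

end DS

theorem hDS (_hF2 : StF2) (hNG : StNG) (hLG : StLG) (hDP : StDPN) : StDS := by
  intro Q K H hK hH
  obtain ⟨k, hk1, hk2, hk3⟩ := hK
  obtain ⟨h, hh1, hh2, hh3⟩ := hH
  obtain ⟨k', hk'1, hk'2, hk'3⟩ := hNG _ k hk1 hk2
  have hk : ∀ V, k.SEM V = {t | toB t ∈ K} := fun V => by rw [← hLG _ k hk1 V, hk3]
  have hh : ∀ V, h.SEM V = {t | toB t ∈ H} := fun V => by rw [← hLG _ h hh1 V, hh3]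
  have hk' : ∀ V, k'.SEM V = {t | toB t ∉ K} := by
    intro V
    have := hk'3 (fun n => (V n)ᶜ)
    simp only [compl_compl] at this
    rw [this, hk]
    rfl
  have hfree : ∀ n, ¬ (F_DS k k' h).free n := by
    intro n hn
    simp only [F_DS, M_DS, sw_DS, go_DS, N_DS, wf_DS, Fm.free] at hn
    have a1 := hk1 (n + 1)
    have a2 := hk'1 (n + 1)
    have a3 := hh1 n
    simp_all
  refine ⟨F_DS k k' h, hfree, ?_, ?_⟩
  · have b1 : ¬ k.nuDep 0 := fun hc => hk1 0 ((hDP _ k 0).1 hc)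
    have b2 : ¬ k'.nuDep 0 := fun hc => hk'1 0 ((hDP _ k' 0).1 hc)
    simp only [F_DS, M_DS, sw_DS, go_DS, N_DS, wf_DS, Fm.altFree, Fm.nuDep, Fm.muDep]
    simp [hk2, hk'2, hh2, b1, b2]
  · rw [hLG _ (F_DS k k' h) hfree (fun _ => ∅)]
    exact FSEM_DS K H k k' h _ hk hk' hh

end Pool.Agent.Helper30.WL

end

section

/-!
# PROJECT WL (MP_76577a_lc), modules LG and DPN
-/

set_option autoImplicit false

namespace Pool.Agent.Helper30.WL

open Set
open Pool.Agent.Helper24.WH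

theorem hLG (hF1 : StF1) (hF2 : StF2) : StLG := by
  intro P φ hφ V
  have h1 : φ.SEM (fun _ => ∅) = φ.SEM V :=
    (hF2 P φ).2.1 _ _ fun i hi => absurd hi (hφ i)
  rw [← h1]
  ext t
  have h2 := hF1 P φ t (fun _ => ∅) []
  have h3 : (fun n : ℕ => {w : List Bool | t.sub w ∈ ((fun _ => ∅ : ℕ → Set (Tre (Set P))) n)}) =
      fun _ => ∅ := by
    funext n
    ext w
    simp
  rw [h3] at h2
  have h4 : t.sub [] = t := rfl
  rw [h4] at h2
  exact h2

theorem hDPN : StDPN := by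
  intro P φ
  induction φ with
  | prop p => exact fun n => ⟨id, id⟩
  | nprop p => exact fun n => ⟨id, id⟩
  | top => exact fun n => ⟨id, id⟩
  | bot => exact fun n => ⟨id, id⟩
  | var k => exact fun n => ⟨fun h => h.elim, fun h => h.elim⟩
  | and φ ψ h1 h2 =>
    exact fun n => ⟨Or.imp (h1 n).1 (h2 n).1, Or.imp (h1 n).2 (h2 n).2⟩
  | or φ ψ h1 h2 =>
    exact fun n => ⟨Or.imp (h1 n).1 (h2 n).1, Or.imp (h1 n).2 (h2 n).2⟩
  | dia φ h1 => exact fun n => h1 n
  | box φ h1 => exact fun n => h1 n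
  | mu φ h1 => exact fun n => ⟨(h1 (n + 1)).1, id⟩
  | nu φ h1 => exact fun n => ⟨id, (h1 (n + 1)).2⟩

end Pool.Agent.Helper30.WL

end

section

set_option autoImplicit false

namespace Pool.Agent.Helper30.WL

open Set
open Pool.Agent.Helper24.WH
open Ordinal hiding univ

/-- inverse of `toB` -/
def ofB_LO {P : Type} (t : Tre (P → Bool)) : Tre (Set P) := fun u => {p | t u p = true}

theorem toB_ofB_LO {P : Type} (t : Tre (P → Bool)) : toB (ofB_LO t) = t := by
  classical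
  funext u p
  have h1 : (toB (ofB_LO t) u p = true) ↔ t u p = true := by
    unfold toB
    rw [decide_eq_true_iff]
    exact Iff.rfl
  cases h : t u p
  · rw [h] at h1
    simpa using h1
  · exact h1.mpr h

theorem ofB_toB_LO {P : Type} (t : Tre (Set P)) : ofB_LO (toB t) = t := by
  funext u
  ext p
  simp [toB, ofB_LO]

/-- a letterwise map of trees is continuous -/
theorem letter_cont_LO (A B : Type) (φ : A → B) :
    @Continuous (Tre A) (Tre B) (pT A) (pT B) (fun t u => φ (t u)) := by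
  let tA : TopologicalSpace A := ⊥
  let tB : TopologicalSpace B := ⊥
  have : DiscreteTopology A := ⟨rfl⟩
  change @Continuous (List Bool → A) (List Bool → B) Pi.topologicalSpace Pi.topologicalSpace (fun t u => φ (t u))
  refine continuous_pi (fun u => ?_)
  exact (continuous_of_discreteTopology (f := φ)).comp (continuous_apply u)

theorem toB_cont_LO (P : Type) : @Continuous _ _ (pT (Set P)) (pT (P → Bool)) (toB (P := P)) := by
  classical
  exact letter_cont_LO (Set P) (P → Bool) (fun s p => decide (p ∈ s))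

theorem ofB_cont_LO (P : Type) : @Continuous _ _ (pT (P → Bool)) (pT (Set P)) (ofB_LO (P := P)) :=
  letter_cont_LO (P → Bool) (Set P) (fun f => {p | f p = true})

/-- transfer of reductions from the boolean form -/
theorem red_LO {P : Type} (K K' : Set (Tre (P → Bool)))
    (h : ∃ f : Tre (P → Bool) → Tre (P → Bool), @Continuous _ _ (pT (P → Bool)) (pT (P → Bool)) f ∧ ∀ t, t ∈ K ↔ f t ∈ K') :
    WLe {t : Tre (Set P) | toB t ∈ K} {t : Tre (Set P) | toB t ∈ K'} := by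
  obtain ⟨f, hf, hfK⟩ := h
  refine ⟨fun t => ofB_LO (f (toB t)), ?_, ?_⟩
  · exact @Continuous.comp _ _ _ (pT (Set P)) (pT (P → Bool)) (pT (Set P)) _ _ (ofB_cont_LO P)
      (@Continuous.comp _ _ _ (pT (Set P)) (pT (P → Bool)) (pT (P → Bool)) _ _ hf (toB_cont_LO P))
  · ext t
    simp only [mem_preimage, mem_ofPred_eq, toB_ofB_LO]
    exact (hfK (toB t)).symm

/-- transfer of reductions to the boolean form -/
theorem red'_LO {P : Type} (K K' : Set (Tre (P → Bool)))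
    (h : WLe {t : Tre (Set P) | toB t ∈ K} {t : Tre (Set P) | toB t ∈ K'}) :
    ∃ f : Tre (P → Bool) → Tre (P → Bool), @Continuous _ _ (pT (P → Bool)) (pT (P → Bool)) f ∧ ∀ t, t ∈ K ↔ f t ∈ K' := by
  obtain ⟨F, hF, hFK⟩ := h
  refine ⟨fun t => toB (F (ofB_LO t)), ?_, ?_⟩
  · exact @Continuous.comp _ _ _ (pT (P → Bool)) (pT (Set P)) (pT (P → Bool)) _ _ (toB_cont_LO P)
      (@Continuous.comp _ _ _ (pT (P → Bool)) (pT (Set P)) (pT (Set P)) _ _ hF (ofB_cont_LO P))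
  · intro t
    have h1 : ofB_LO t ∈ F ⁻¹' {t : Tre (Set P) | toB t ∈ K'} ↔ ofB_LO t ∈ {t : Tre (Set P) | toB t ∈ K} := by
      rw [hFK]
    simp only [mem_preimage, mem_ofPred_eq, toB_ofB_LO] at h1
    exact h1.symm

theorem hLO (hCN : StCN) (hNS : StNS) : StLO := by
  intro a ha
  obtain ⟨hch, hth⟩ := hCN
  obtain ⟨m, hm⟩ := hth a ha
  obtain ⟨hfin, C, L, hC⟩ := hch m
  have := hfin
  refine ⟨QQ m ⊕ Fin 3, inferInstance, ⟨_, hC.df a hm⟩, ?_⟩
  intro h
  have key : ∀ b : Ordinal.{0}, ∀ hb : b ≤ a,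
      b ≤ (h.apply (⟨_, hC.df b (lt_of_le_of_lt hb hm)⟩ : {L : Set (Tre (Set (QQ m ⊕ Fin 3))) // Definable L})).rank := by
    intro b
    induction b using WellFoundedLT.induction with
    | ind b ih =>
      intro hb
      refine le_of_forall_lt (fun c hc => ?_)
      have hca : c ≤ a := (hc.le).trans hb
      refine lt_of_le_of_lt (ih c hc hca) ?_
      refine Acc.rank_lt_of_rel _ ?_
      have hcθ : c < th m := lt_of_le_of_lt hca hm
      have hbθ : b < th m := lt_of_le_of_lt hb hm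
      have hns := (hNS (QQ m) (C c) (C b) (L c) (L b) (hC.good c hcθ) (hC.cpl c hcθ)).2
        (hC.lt c b hc hbθ) (hC.cpl b hbθ)
      refine ⟨red_LO (L c) (L b) hns.1, ?_⟩
      intro hw
      exact hns.2 (red'_LO (L b) (L c) hw)
  exact key a le_rfl

end Pool.Agent.Helper30.WL

end

section

set_option autoImplicit false

namespace Pool.Agent.Helper30.WL

open Set
open Pool.Agent.Helper24.WH
open Ordinal hiding univ

/-- negation of formulas -/
def ng_NG {P : Type} : Fm P → Fm P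
  | .prop p => .nprop p
  | .nprop p => .prop p
  | .top => .bot
  | .bot => .top
  | .var n => .var n
  | .and φ ψ => .or (ng_NG φ) (ng_NG ψ)
  | .or φ ψ => .and (ng_NG φ) (ng_NG ψ)
  | .dia φ => .box (ng_NG φ)
  | .box φ => .dia (ng_NG φ)
  | .mu φ => .nu (ng_NG φ)
  | .nu φ => .mu (ng_NG φ)

theorem free_NG {P : Type} (φ : Fm P) : ∀ n, (ng_NG φ).free n ↔ φ.free n := by
  induction φ with
  | prop p => intro n; exact Iff.rfl
  | nprop p => intro n; exact Iff.rfl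
  | top => intro n; exact Iff.rfl
  | bot => intro n; exact Iff.rfl
  | var k => intro n; exact Iff.rfl
  | and φ ψ h1 h2 => intro n; exact or_congr (h1 n) (h2 n)
  | or φ ψ h1 h2 => intro n; exact or_congr (h1 n) (h2 n)
  | dia φ h => intro n; exact h n
  | box φ h => intro n; exact h n
  | mu φ h => intro n; exact h (n + 1)
  | nu φ h => intro n; exact h (n + 1)

theorem dep_NG {P : Type} (φ : Fm P) :
    ∀ n, ((ng_NG φ).nuDep n ↔ φ.muDep n) ∧ ((ng_NG φ).muDep n ↔ φ.nuDep n) := by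
  induction φ with
  | prop p => intro n; exact ⟨Iff.rfl, Iff.rfl⟩
  | nprop p => intro n; exact ⟨Iff.rfl, Iff.rfl⟩
  | top => intro n; exact ⟨Iff.rfl, Iff.rfl⟩
  | bot => intro n; exact ⟨Iff.rfl, Iff.rfl⟩
  | var k => intro n; exact ⟨Iff.rfl, Iff.rfl⟩
  | and φ ψ h1 h2 => intro n; exact ⟨or_congr (h1 n).1 (h2 n).1, or_congr (h1 n).2 (h2 n).2⟩
  | or φ ψ h1 h2 => intro n; exact ⟨or_congr (h1 n).1 (h2 n).1, or_congr (h1 n).2 (h2 n).2⟩
  | dia φ h => intro n; exact h n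
  | box φ h => intro n; exact h n
  | mu φ h => intro n; exact ⟨free_NG φ (n + 1), (h (n + 1)).2⟩
  | nu φ h => intro n; exact ⟨(h (n + 1)).1, free_NG φ (n + 1)⟩

theorem alt_NG {P : Type} (φ : Fm P) : (ng_NG φ).altFree ↔ φ.altFree := by
  induction φ with
  | prop p => exact Iff.rfl
  | nprop p => exact Iff.rfl
  | top => exact Iff.rfl
  | bot => exact Iff.rfl
  | var k => exact Iff.rfl
  | and φ ψ h1 h2 => exact and_congr h1 h2
  | or φ ψ h1 h2 => exact and_congr h1 h2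
  | dia φ h => exact h
  | box φ h => exact h
  | mu φ h => exact and_congr h (not_congr (dep_NG φ 0).2)
  | nu φ h => exact and_congr h (not_congr (dep_NG φ 0).1)

theorem ec_NG {α : Type} (X : Set α) (V : ℕ → Set α) :
    ec Xᶜ (fun n => (V n)ᶜ) = fun n => (ec X V n)ᶜ := by
  funext n
  cases n <;> rfl

theorem sem_NG {P : Type} (φ : Fm P) :
    ∀ V : ℕ → Set (Tre (Set P)), (ng_NG φ).SEM (fun n => (V n)ᶜ) = (φ.SEM V)ᶜ := by
  induction φ with
  | prop p => intro V; rfl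
  | nprop p =>
    intro V
    ext t
    show p ∈ t [] ↔ ¬ (p ∉ t [])
    exact not_not.symm
  | top =>
    intro V
    show (∅ : Set (Tre (Set P))) = univᶜ
    exact compl_univ.symm
  | bot =>
    intro V
    show (univ : Set (Tre (Set P))) = ∅ᶜ
    exact compl_empty.symm
  | var k => intro V; rfl
  | and φ ψ h1 h2 =>
    intro V
    show (ng_NG φ).SEM _ ∪ (ng_NG ψ).SEM _ = (φ.SEM V ∩ ψ.SEM V)ᶜ
    rw [h1, h2, compl_inter]
  | or φ ψ h1 h2 =>
    intro V
    show (ng_NG φ).SEM _ ∩ (ng_NG ψ).SEM _ = (φ.SEM V ∪ ψ.SEM V)ᶜ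
    rw [h1, h2, compl_union]
  | dia φ h =>
    intro V
    ext t
    show (∀ b : Bool, t.sub [b] ∈ (ng_NG φ).SEM (fun n => (V n)ᶜ)) ↔
      ¬ ∃ b : Bool, t.sub [b] ∈ φ.SEM V
    rw [h V]
    exact not_exists.symm
  | box φ h =>
    intro V
    ext t
    show (∃ b : Bool, t.sub [b] ∈ (ng_NG φ).SEM (fun n => (V n)ᶜ)) ↔
      ¬ ∀ b : Bool, t.sub [b] ∈ φ.SEM V
    rw [h V]
    exact not_forall.symm
  | mu φ h =>
    intro V
    ext t
    show t ∈ ⋃₀ {X | X ⊆ (ng_NG φ).SEM (ec X (fun n => (V n)ᶜ))} ↔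
      ¬ t ∈ ⋂₀ {X | φ.SEM (ec X V) ⊆ X}
    constructor
    · rintro ⟨X, hX, ht⟩ h2
      have hX' : X ⊆ (ng_NG φ).SEM (ec X (fun n => (V n)ᶜ)) := hX
      have h3 : t ∈ Xᶜ := by
        apply h2
        show φ.SEM (ec Xᶜ V) ⊆ Xᶜ
        have h4 := h (ec Xᶜ V)
        rw [← ec_NG, compl_compl] at h4
        rw [h4] at hX'
        exact subset_compl_comm.mp hX'
      exact h3 ht
    · intro h2
      have h3 : ∃ X, φ.SEM (ec X V) ⊆ X ∧ t ∉ X := by
        by_contra hcon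
        apply h2
        intro X hX
        by_contra hx
        exact hcon ⟨X, hX, hx⟩
      obtain ⟨X, hX, hx⟩ := h3
      refine ⟨Xᶜ, ?_, hx⟩
      show Xᶜ ⊆ (ng_NG φ).SEM (ec Xᶜ (fun n => (V n)ᶜ))
      rw [ec_NG, h]
      exact compl_subset_compl.mpr hX
  | nu φ h =>
    intro V
    ext t
    show t ∈ ⋂₀ {X | (ng_NG φ).SEM (ec X (fun n => (V n)ᶜ)) ⊆ X} ↔
      ¬ t ∈ ⋃₀ {X | X ⊆ φ.SEM (ec X V)}
    constructor
    · rintro h2 ⟨X, hX, ht⟩
      have hX' : X ⊆ φ.SEM (ec X V) := hX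
      have h3 : t ∈ Xᶜ := by
        apply h2
        show (ng_NG φ).SEM (ec Xᶜ (fun n => (V n)ᶜ)) ⊆ Xᶜ
        rw [ec_NG, h]
        exact compl_subset_compl.mpr hX'
      exact h3 ht
    · intro h2 X hX
      have hX' : (ng_NG φ).SEM (ec X (fun n => (V n)ᶜ)) ⊆ X := hX
      by_contra hx
      apply h2
      refine ⟨Xᶜ, ?_, hx⟩
      show Xᶜ ⊆ φ.SEM (ec Xᶜ V)
      have h4 := h (ec Xᶜ V)
      rw [← ec_NG, compl_compl] at h4
      rw [h4] at hX'
      exact compl_subset_comm.mp hX'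

theorem hNG : StNG := by
  intro P φ hf ha
  refine ⟨ng_NG φ, fun n hn => hf n ((free_NG φ n).mp hn), (alt_NG φ).mpr ha, sem_NG φ⟩

end Pool.Agent.Helper30.WL

end

section

/-!
# PROJECT WL, module ST: from chains of length `θ` to chains of length `ω ^ θ`
-/

set_option autoImplicit false

namespace Pool.Agent.Helper30.WL

open Set
open Pool.Agent.Helper24.WH
open Ordinal hiding univ

private theorem dfb_empty_ST (P : Type) : Dfb (∅ : Set (Tre (P → Bool))) :=
  ⟨.bot, fun _ h => h, trivial, by ext t; simp [Fm.lang, Fm.sem]⟩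

private theorem fold_zero_ST {W : Type 1} (st : W → Ordinal.{0} → W) (w : W) : fold st 0 w = w := by
  rw [fold]
  simp

private theorem fold_ne_ST {W : Type 1} (st : W → Ordinal.{0} → W) {b : Ordinal.{0}} (hb : b ≠ 0)
    (w : W) : fold st b w = fold st (b - ω ^ log ω b) (st w (log ω b)) := by
  rw [fold]
  simp [hb]

private theorem log_lt_ST {b θ : Ordinal.{0}} (hb : b ≠ 0) (h : b < ω ^ θ) : log ω b < θ :=
  (lt_opow_iff_log_lt one_lt_omega0 hb).1 h

/-- Invariants of the fold. -/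
private theorem ind_ST {W : Type 1} (st : W → Ordinal.{0} → W) (θ : Ordinal.{0}) (P : W → Prop)
    (hst : ∀ w a, a < θ → P w → P (st w a)) : ∀ b : Ordinal.{0}, b < ω ^ θ → ∀ w, P w → P (fold st b w) := by
  intro b
  induction b using WellFoundedLT.induction with
  | ind b ih =>
    intro hb w hw
    by_cases h0 : b = 0
    · subst h0
      rwa [fold_zero_ST]
    · rw [fold_ne_ST st h0]
      have h1 := sub_log_lt b h0
      exact ih _ h1 (h1.trans hb) _ (hst _ _ (log_lt_ST h0 hb) hw)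

/-- The first component of the fold. -/
private theorem fst_ST {Q : Type} (C : Ordinal.{0} → Cls) (L : Ordinal.{0} → Set (Tre (Lt3 Q))) :
    ∀ (b : Ordinal.{0}) (w : Cls × Set (Tre (Lt3 (Q ⊕ Fin 3)))),
      (fold (fun (w : Cls × Set (Tre (Lt3 (Q ⊕ Fin 3)))) a => (SumC w.1 (ExpC (C a)), Su w.2 (Ex (L a)))) b w).1 =
        fold (fun U a => SumC U (ExpC (C a))) b w.1 := by
  intro b
  induction b using WellFoundedLT.induction with
  | ind b ih =>
    intro w
    by_cases h0 : b = 0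
    · subst h0
      rw [fold_zero_ST, fold_zero_ST]
    · rw [fold_ne_ST _ h0, fold_ne_ST _ h0, ih _ (sub_log_lt b h0)]

theorem hST (hFD : StFD) (hGE : StGE) (hHZ : StHZ) (hHE : StHE) (hHS : StHS) (hME : StME)
    (hMS : StMS) (hDS : StDS) (hDE : StDE) (hGS : StGS) : StST := by
  intro Q _ θ C L h
  let st : Cls × Set (Tre (Lt3 (Q ⊕ Fin 3))) → Ordinal.{0} → Cls × Set (Tre (Lt3 (Q ⊕ Fin 3))) :=
    fun w a => (SumC w.1 (ExpC (C a)), Su w.2 (Ex (L a)))
  have hinv := ind_ST st θ (fun w => Good w.1 ∧ Cpl w.1 w.2 ∧ Dfb w.2) (by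
    rintro w a ha ⟨hg, ⟨hm, hh⟩, hd⟩
    have hE : Good (ExpC (C a)) := hGE.2 _ (h.good a ha)
    have hc := h.cpl a ha
    refine ⟨hGS _ _ hg hE, ⟨?_, ?_⟩, ?_⟩
    · exact hMS _ _ _ _ _ hg hE hm (hME Q (C a) (L a) (h.good a ha) hc.1)
    · exact hHS _ _ _ _ _ hh (hHE Q (C a) (L a) hc.2)
    · exact hDS _ _ _ hd (hDE _ _ (h.df a ha)))
  have h0 : Good C0 ∧ Cpl C0 (∅ : Set (Tre (Lt3 (Q ⊕ Fin 3)))) ∧
      Dfb (∅ : Set (Tre (Lt3 (Q ⊕ Fin 3)))) := ⟨hGE.1, hHZ _, dfb_empty_ST _⟩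
  have hfd := (hFD C θ h.good h.lt C0 hGE.1).2
  refine ⟨fun b => (fold st b (C0, ∅)).1, fun b => (fold st b (C0, ∅)).2, ?_⟩
  constructor
  · intro b hb
    exact (hinv b hb _ h0).1
  · intro b hb
    exact (hinv b hb _ h0).2.1
  · intro b b' hbb hb'
    have h1 := hfd b b' hbb hb'
    have e1 : (fold st b (C0, ∅)).1 = fold (fun U a => SumC U (ExpC (C a))) b C0 := fst_ST C L b _
    have e2 : (fold st b' (C0, ∅)).1 = fold (fun U a => SumC U (ExpC (C a))) b' C0 := fst_ST C L b' _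
    show LtC (fold st b (C0, ∅)).1 (fold st b' (C0, ∅)).1
    rw [e1, e2]
    exact h1
  · intro b hb
    exact (hinv b hb _ h0).2.2

end Pool.Agent.Helper30.WL

end

section

/-! WL module TA: the tests -/

set_option autoImplicit false

namespace Pool.Agent.Helper30.WL

open Set
open Pool.Agent.Helper24.WH

variable {Q : Type}

private theorem toB_sub_TA (t : Tre (Set (Q ⊕ Fin 3))) (u : List Bool) :
    toB (t.sub u) = (toB t).sub u := rfl

private theorem toB_true_TA (t : Tre (Set (Q ⊕ Fin 3))) (u : List Bool) (p : Q ⊕ Fin 3) :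
    toB t u p = true ↔ p ∈ t u := by
  unfold toB
  exact @decide_eq_true_iff _ (Classical.propDecidable _)

private theorem toB_false_TA (t : Tre (Set (Q ⊕ Fin 3))) (u : List Bool) (p : Q ⊕ Fin 3) :
    toB t u p = false ↔ p ∉ t u := by
  unfold toB
  exact @decide_eq_false_iff_not _ (Classical.propDecidable _)

/-- one step of the operator of `nb` -/
private def stepN_TA (X : Set (Tre (Set (Q ⊕ Fin 3)))) (t : Tre (Set (Q ⊕ Fin 3))) : Prop :=
  ∀ b : Bool, Sum.inr 0 ∉ t [b] ∨ (Sum.inr 2 ∉ t [b] ∧ t.sub [b] ∈ X)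

private theorem nb_post_TA (t : Tre (Set (Q ⊕ Fin 3))) (h : NB (toB t)) :
    stepN_TA {t | NB (toB t)} t := by
  intro b
  by_cases h0 : (Sum.inr 0 : Q ⊕ Fin 3) ∈ t [b]
  · right
    refine ⟨?_, ?_⟩
    · rw [← toB_false_TA]
      refine h [b] (by simp) ?_
      intro w hw hwb
      rcases List.prefix_cons_iff.1 hwb with h1 | ⟨w', h1, h2⟩
      · exact absurd h1 hw
      · rw [List.prefix_nil] at h2
        rw [h1, h2, toB_true_TA]
        exact h0
    · intro v hv hm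
      refine h (b :: v) (by simp) ?_
      intro w hw hwb
      rcases List.prefix_cons_iff.1 hwb with h1 | ⟨w', h1, h2⟩
      · exact absurd h1 hw
      · rw [h1]
        by_cases h3 : w' = []
        · rw [h3, toB_true_TA]
          exact h0
        · exact hm w' h3 h2
  · left
    exact h0

private theorem nb_max_TA (X : Set (Tre (Set (Q ⊕ Fin 3)))) (hX : ∀ t ∈ X, stepN_TA X t) :
    ∀ v : List Bool, ∀ t ∈ X, v ≠ [] →
      (∀ w : List Bool, w ≠ [] → w <+: v → toB t w (Sum.inr 0) = true) →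
        toB t v (Sum.inr 2) = false := by
  intro v
  induction v with
  | nil =>
    intro t _ hv
    exact absurd rfl hv
  | cons b v ih =>
    intro t ht _ hm
    have h0 : toB t [b] (Sum.inr 0) = true := hm [b] (by simp) (by simp)
    rw [toB_true_TA] at h0
    rcases hX t ht b with h1 | ⟨h1, h2⟩
    · exact absurd h0 h1
    · by_cases hv : v = []
      · rw [hv, toB_false_TA]
        exact h1
      · refine ih (t.sub [b]) h2 hv ?_
        intro w hw hwv
        exact hm (b :: w) (by simp) (List.cons_prefix_cons.2 ⟨rfl, hwv⟩)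

private theorem nb_SEM_TA (V : ℕ → Set (Tre (Set (Q ⊕ Fin 3)))) :
    (nb : Fm (Q ⊕ Fin 3)).SEM V = {t | NB (toB t)} := by
  apply Set.Subset.antisymm
  · rintro t ⟨X, hX, ht⟩
    intro v hv hm
    exact nb_max_TA X (fun s hs b => hX hs b) v t ht hv hm
  · intro t ht
    exact ⟨{t | NB (toB t)}, fun s hs b => nb_post_TA s hs b, ht⟩

private theorem bt_SEM_TA (V : ℕ → Set (Tre (Set (Q ⊕ Fin 3)))) :
    (bt : Fm (Q ⊕ Fin 3)).SEM V = {t | ¬ NB (toB t)} := by
  apply Set.Subset.antisymm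
  · intro t ht
    have h1 : t ∈ ⋂₀ {X | ((Fm.dia (.and (.prop (.inr 0)) (.or (.prop (.inr 2)) (.var 0)))) :
        Fm (Q ⊕ Fin 3)).SEM (ec X V) ⊆ X} := ht
    refine h1 {t | ¬ NB (toB t)} ?_
    rintro s ⟨b, hb0, hb⟩ hs
    rcases nb_post_TA s hs b with h2 | ⟨h2, h3⟩
    · exact h2 hb0
    · rcases hb with hb | hb
      · exact h2 hb
      · exact hb h3
  · intro t ht X hX
    by_contra hc
    apply ht
    intro v hv hm
    refine nb_max_TA Xᶜ ?_ v t hc hv hm
    intro s hs b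
    by_cases h0 : (Sum.inr 0 : Q ⊕ Fin 3) ∈ s [b]
    · right
      refine ⟨fun h2 => hs (hX ⟨b, h0, Or.inl h2⟩), fun h2 => hs (hX ⟨b, h0, Or.inr h2⟩)⟩
    · left
      exact h0

private theorem wf_post_TA (t : Tre (Set (Q ⊕ Fin 3))) (h : ∀ n, WFn n (toB t)) (e : Bool) :
    ((∃ b : Bool, (Sum.inr 0 : Q ⊕ Fin 3) ∈ t [e, b]) ∧ (∃ b : Bool, (Sum.inr 0 : Q ⊕ Fin 3) ∉ t [e, b])) ∧
      ∀ b : Bool, (Sum.inr 0 : Q ⊕ Fin 3) ∈ t [e, b] ∨
        (((∃ s : Bool, (Sum.inr 1 : Q ⊕ Fin 3) ∈ t [e, b, s]) ∧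
          (∃ s : Bool, (Sum.inr 1 : Q ⊕ Fin 3) ∉ t [e, b, s])) ∧
          ∀ s : Bool, ∀ n, WFn n (toB (t.sub [e, b, s]))) := by
  have h1 := h 1 e
  have hdk : dk ((toB t).sub [e]) = toB t [e, false] (Sum.inr 0) := rfl
  refine ⟨?_, ?_⟩
  · have h2 := h1.1
    rcases hf : toB t [e, false] (Sum.inr 0) with _ | _
    · rcases ht : toB t [e, true] (Sum.inr 0) with _ | _
      · rw [hf, ht] at h2
        exact absurd rfl h2
      · exact ⟨⟨true, (toB_true_TA _ _ _).1 ht⟩, ⟨false, (toB_false_TA _ _ _).1 hf⟩⟩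
    · rcases ht : toB t [e, true] (Sum.inr 0) with _ | _
      · exact ⟨⟨false, (toB_true_TA _ _ _).1 hf⟩, ⟨true, (toB_false_TA _ _ _).1 ht⟩⟩
      · rw [hf, ht] at h2
        exact absurd rfl h2
  · intro b
    by_cases h0 : (Sum.inr 0 : Q ⊕ Fin 3) ∈ t [e, b]
    · left
      exact h0
    · right
      have hb : b = dk ((toB t).sub [e]) := by
        rw [hdk]
        rw [← toB_false_TA] at h0
        cases b with
        | false => exact h0.symm
        | true =>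
          have h2 := h1.1
          rw [h0] at h2
          rcases hf : toB t [e, false] (Sum.inr 0) with _ | _
          · exact absurd hf h2
          · rfl
      rw [hb]
      refine ⟨?_, fun s n => (h (n + 1) e).2.2 s⟩
      have h2 := h1.2.1
      rcases hf : toB t [e, dk ((toB t).sub [e]), false] (Sum.inr 1) with _ | _
      · rcases ht : toB t [e, dk ((toB t).sub [e]), true] (Sum.inr 1) with _ | _
        · rw [hf, ht] at h2
          exact absurd rfl h2
        · exact ⟨⟨true, (toB_true_TA _ _ _).1 ht⟩, ⟨false, (toB_false_TA _ _ _).1 hf⟩⟩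
      · rcases ht : toB t [e, dk ((toB t).sub [e]), true] (Sum.inr 1) with _ | _
        · exact ⟨⟨false, (toB_true_TA _ _ _).1 hf⟩, ⟨true, (toB_false_TA _ _ _).1 ht⟩⟩
        · rw [hf, ht] at h2
          exact absurd rfl h2

private theorem ne_of_TA (t : Tre (Set (Q ⊕ Fin 3))) (u : List Bool → List Bool) (p : Q ⊕ Fin 3)
    (h1 : ∃ b : Bool, p ∈ t (u [b])) (h2 : ∃ b : Bool, p ∉ t (u [b])) :
    toB t (u [false]) p ≠ toB t (u [true]) p := by
  intro h3
  obtain ⟨b, hb⟩ := h1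
  obtain ⟨b', hb'⟩ := h2
  rw [← toB_true_TA] at hb
  rw [← toB_false_TA] at hb'
  cases b <;> cases b' <;> simp_all

private theorem wf_max_TA (X : Set (Tre (Set (Q ⊕ Fin 3))))
    (hX : ∀ t ∈ X, ∀ e : Bool,
      ((∃ b : Bool, (Sum.inr 0 : Q ⊕ Fin 3) ∈ t [e, b]) ∧ (∃ b : Bool, (Sum.inr 0 : Q ⊕ Fin 3) ∉ t [e, b])) ∧
      ∀ b : Bool, (Sum.inr 0 : Q ⊕ Fin 3) ∈ t [e, b] ∨
        (((∃ s : Bool, (Sum.inr 1 : Q ⊕ Fin 3) ∈ t [e, b, s]) ∧
          (∃ s : Bool, (Sum.inr 1 : Q ⊕ Fin 3) ∉ t [e, b, s])) ∧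
          ∀ s : Bool, t.sub [e, b, s] ∈ X)) :
    ∀ n, ∀ t ∈ X, WFn n (toB t) := by
  intro n
  induction n with
  | zero =>
    intro t _
    exact trivial
  | succ n ih =>
    intro t ht e
    obtain ⟨⟨h1, h2⟩, h3⟩ := hX t ht e
    have hne : toB t [e, false] (Sum.inr 0) ≠ toB t [e, true] (Sum.inr 0) :=
      ne_of_TA t (fun l => e :: l) _ h1 h2
    have hdk : dk ((toB t).sub [e]) = toB t [e, false] (Sum.inr 0) := rfl
    have h0 : (Sum.inr 0 : Q ⊕ Fin 3) ∉ t [e, dk ((toB t).sub [e])] := by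
      rw [← toB_false_TA]
      rcases hf : toB t [e, false] (Sum.inr 0) with _ | _
      · rw [hdk, hf]
        exact hf
      · rw [hdk, hf]
        rcases hg : toB t [e, true] (Sum.inr 0) with _ | _
        · rfl
        · rw [hf, hg] at hne
          exact absurd rfl hne
    rcases h3 (dk ((toB t).sub [e])) with h4 | ⟨⟨h5, h6⟩, h7⟩
    · exact absurd h4 h0
    · exact ⟨hne, ne_of_TA t (fun l => e :: dk ((toB t).sub [e]) :: l) _ h5 h6,
        fun s => ih _ (h7 s)⟩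

private theorem wff_SEM_TA (V : ℕ → Set (Tre (Set (Q ⊕ Fin 3)))) :
    (wff : Fm (Q ⊕ Fin 3)).SEM V = {t | ∀ n, WFn n (toB t)} := by
  apply Set.Subset.antisymm
  · rintro t ⟨X, hX, ht⟩
    intro n
    exact wf_max_TA X (fun s hs e => hX hs e) n t ht
  · intro t ht
    exact ⟨{t | ∀ n, WFn n (toB t)}, fun s hs e => wf_post_TA s hs e, ht⟩

theorem hTA : StTA := by
  intro Q V
  refine ⟨nb_SEM_TA V, bt_SEM_TA V, wff_SEM_TA V, ?_⟩
  intro t ht e n
  exact (ht (n + 1) e).2.2 _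

end Pool.Agent.Helper30.WL

end

section

/-!
# PROJECT WL, module TL: the translation lemma
-/

set_option autoImplicit false

namespace Pool.Agent.Helper30.WL

open Set
open Pool.Agent.Helper24.WH
open Ordinal hiding univ

private theorem toB_sub_TL {P : Type} (t : Tre (Set P)) (w : List Bool) : toB (t.sub w) = (toB t).sub w := rfl

private theorem toB_iff_TL {P : Type} (t : Tre (Set P)) (u : List Bool) (p : P) : toB t u p = true ↔ p ∈ t u := by
  simp [toB]

private theorem toB_false_TL {P : Type} (t : Tre (Set P)) (u : List Bool) (p : P) : toB t u p = false ↔ p ∉ t u := by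
  simp [toB]

private theorem sub_sub_TL {A : Type} (t : Tre A) (u v : List Bool) : (t.sub u).sub v = t.sub (u ++ v) := by
  funext w
  simp [Tre.sub, List.append_assoc]

private theorem dcS_sub_TL {Q : Type} (t : Tre (Set (Q ⊕ Fin 3))) (e : Bool) :
    dcS (t.sub (e :: sel (toB (t.sub [e])))) = (dcS t).sub [e] := rfl

/-- the selected node -/
private theorem slf_TL (hTA : StTA) {Q : Type} (ψ : Fm (Q ⊕ Fin 3)) (V : ℕ → Set (Tre (Set (Q ⊕ Fin 3))))
    (c : Tre (Set (Q ⊕ Fin 3))) (h0 : toB c [false] (Sum.inr 0) ≠ toB c [true] (Sum.inr 0))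
    (h1 : toB c [dk (toB c), false] (Sum.inr 1) ≠ toB c [dk (toB c), true] (Sum.inr 1)) :
    c ∈ (slf ψ).SEM V ↔ c.sub (sel (toB c)) ∈ ψ.SEM V := by
  obtain ⟨hnb, hbt, -, -⟩ := hTA Q V
  have hA : ∀ b : Bool, (Sum.inr 0 ∉ c [b] ↔ b = dk (toB c)) := by
    intro b
    rw [← toB_false_TL]
    simp only [dk]
    revert h0
    cases b <;> cases toB c [false] (Sum.inr 0) <;> cases toB c [true] (Sum.inr 0) <;> simp
  have hB : ∀ s : Bool, (Sum.inr 1 ∈ c [dk (toB c), s] ↔ s = !(toB c [dk (toB c), false] (Sum.inr 1))) := by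
    intro s
    rw [← toB_iff_TL]
    revert h1
    cases s <;> cases toB c [dk (toB c), false] (Sum.inr 1) <;> cases toB c [dk (toB c), true] (Sum.inr 1) <;> simp
  have hC : ∀ s : Bool, (Sum.inr 1 ∉ c [dk (toB c), s] ↔ s = toB c [dk (toB c), false] (Sum.inr 1)) := by
    intro s
    rw [← toB_false_TL]
    revert h1
    cases s <;> cases toB c [dk (toB c), false] (Sum.inr 1) <;> cases toB c [dk (toB c), true] (Sum.inr 1) <;> simp
  have hS : c ∈ (slf ψ).SEM V ↔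
      (c ∈ bt.SEM V ∧ ∃ b : Bool, Sum.inr 0 ∉ c [b] ∧ ∃ s : Bool, Sum.inr 1 ∈ c [b, s] ∧ c.sub [b, s] ∈ ψ.SEM V) ∨
      (c ∈ nb.SEM V ∧ ∃ b : Bool, Sum.inr 0 ∉ c [b] ∧ ∃ s : Bool, Sum.inr 1 ∉ c [b, s] ∧ c.sub [b, s] ∈ ψ.SEM V) :=
    Iff.rfl
  rw [hS, hbt, hnb]
  simp only [Set.mem_ofPred_eq]
  by_cases hN : NB (toB c)
  · have hsel : sel (toB c) = [dk (toB c), toB c [dk (toB c), false] (Sum.inr 1)] := by
      simp [sel, hN]
    rw [hsel]
    constructor
    · rintro (⟨h, -⟩ | ⟨-, b, hb, s, hs, h⟩)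
      · exact absurd hN h
      · rw [hA] at hb
        subst hb
        rw [hC] at hs
        rw [← hs]
        exact h
    · intro h
      exact Or.inr ⟨hN, dk (toB c), (hA _).2 rfl, _, (hC _).2 rfl, h⟩
  · have hsel : sel (toB c) = [dk (toB c), !(toB c [dk (toB c), false] (Sum.inr 1))] := by
      simp [sel, hN]
    rw [hsel]
    constructor
    · rintro (⟨-, b, hb, s, hs, h⟩ | ⟨h, -⟩)
      · rw [hA] at hb
        subst hb
        rw [hB] at hs
        rw [← hs]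
        exact h
      · exact absurd h hN
    · intro h
      exact Or.inl ⟨hN, dk (toB c), (hA _).2 rfl, _, (hB _).2 rfl, h⟩

private theorem lfp_TL (hF2 : StF2) {P : Type} (φ : Fm P) (V : ℕ → Set (Tre (Set P))) :
    φ.SEM (ec ((Fm.mu φ).SEM V) V) ⊆ (Fm.mu φ).SEM V := by
  intro t ht X hX
  refine hX ((hF2 P φ).1 _ _ ?_ ht)
  rintro (_ | i)
  · exact fun s hs => hs X hX
  · exact subset_rfl

private theorem gfp_TL (hF2 : StF2) {P : Type} (φ : Fm P) (V : ℕ → Set (Tre (Set P))) :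
    (Fm.nu φ).SEM V ⊆ φ.SEM (ec ((Fm.nu φ).SEM V) V) := by
  rintro t ⟨X, hX, ht⟩
  refine (hF2 P φ).1 _ _ ?_ (hX ht)
  rintro (_ | i)
  · exact fun s hs => ⟨X, hX, hs⟩
  · exact subset_rfl

private theorem mono_TL (hF2 : StF2) {P : Type} (φ : Fm P) (V : ℕ → Set (Tre (Set P))) (A B : Set (Tre (Set P)))
    (h : A ⊆ B) : φ.SEM (ec A V) ⊆ φ.SEM (ec B V) := by
  refine (hF2 P φ).1 _ _ ?_
  rintro (_ | i)
  · exact h
  · exact subset_rfl

theorem hTL (hTA : StTA) (hF2 : StF2) : StTL := by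
  intro Q φ
  induction φ with
  | prop p =>
    intro V' V hV t ht
    show Sum.inl p ∈ t [] ↔ toB t [] (Sum.inl p) = true
    rw [toB_iff_TL]
  | nprop p =>
    intro V' V hV t ht
    show Sum.inl p ∉ t [] ↔ ¬ (toB t [] (Sum.inl p) = true)
    rw [toB_iff_TL]
  | top => intro V' V hV t ht; exact Iff.rfl
  | bot => intro V' V hV t ht; exact Iff.rfl
  | var n => intro V' V hV t ht; exact hV n t ht
  | and φ ψ ih1 ih2 =>
    intro V' V hV t ht
    exact and_congr (ih1 V' V hV t ht) (ih2 V' V hV t ht)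
  | or φ ψ ih1 ih2 =>
    intro V' V hV t ht
    exact or_congr (ih1 V' V hV t ht) (ih2 V' V hV t ht)
  | dia φ ih =>
    intro V' V hV t ht
    refine exists_congr fun e => ?_
    have h := ht 1 e
    rw [slf_TL hTA (trf φ) V' (t.sub [e]) h.1 h.2.1, sub_sub_TL]
    have h2 := ih V' V hV (t.sub (e :: sel (toB (t.sub [e])))) ((hTA Q V').2.2.2 t ht e)
    rw [dcS_sub_TL] at h2
    exact h2
  | box φ ih =>
    intro V' V hV t ht
    refine forall_congr' fun e => ?_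
    have h := ht 1 e
    rw [slf_TL hTA (trf φ) V' (t.sub [e]) h.1 h.2.1, sub_sub_TL]
    have h2 := ih V' V hV (t.sub (e :: sel (toB (t.sub [e])))) ((hTA Q V').2.2.2 t ht e)
    rw [dcS_sub_TL] at h2
    exact h2
  | mu φ ih =>
    intro V' V hV t ht
    constructor
    · intro h
      have key : (trf φ).SEM (ec {s | (∀ m, WFn m (toB s)) → dcS s ∈ (Fm.mu φ).SEM V} V') ⊆
          {s | (∀ m, WFn m (toB s)) → dcS s ∈ (Fm.mu φ).SEM V} := by
        intro s hs hsW
        refine lfp_TL hF2 φ V ((ih _ (ec ((Fm.mu φ).SEM V) V) ?_ s hsW).1 hs)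
        rintro (_ | n) x hx
        · exact ⟨fun h => h hx, fun h _ => h⟩
        · exact hV n x hx
      exact h _ key ht
    · intro h
      have key : φ.SEM (ec {y | ∀ s, (∀ m, WFn m (toB s)) → dcS s = y → s ∈ (Fm.mu (trf φ)).SEM V'} V) ⊆
          {y | ∀ s, (∀ m, WFn m (toB s)) → dcS s = y → s ∈ (Fm.mu (trf φ)).SEM V'} := by
        intro y hy s hs hsy
        subst hsy
        refine lfp_TL hF2 (trf φ) V' (mono_TL hF2 (trf φ) V'
          {x | (∀ m, WFn m (toB x)) ∧ dcS x ∈ {y | ∀ s, (∀ m, WFn m (toB s)) → dcS s = y → s ∈ (Fm.mu (trf φ)).SEM V'}} _ ?_ ?_)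
        · rintro x ⟨hx1, hx2⟩
          exact hx2 x hx1 rfl
        · refine (ih _ _ ?_ s hs).2 hy
          rintro (_ | n) x hx
          · exact ⟨fun h => h.2, fun h => ⟨hx, h⟩⟩
          · exact hV n x hx
      exact h _ key t ht rfl
  | nu φ ih =>
    intro V' V hV t ht
    constructor
    · intro h
      refine ⟨{y | ∃ s, (∀ m, WFn m (toB s)) ∧ dcS s = y ∧ s ∈ (Fm.nu (trf φ)).SEM V'}, ?_, ⟨t, ht, rfl, h⟩⟩
      rintro y ⟨s, hs, rfl, hs2⟩
      refine (ih (ec {x | (∀ m, WFn m (toB x)) → dcS x ∈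
        {y | ∃ s, (∀ m, WFn m (toB s)) ∧ dcS s = y ∧ s ∈ (Fm.nu (trf φ)).SEM V'}} V') _ ?_ s hs).1 ?_
      · rintro (_ | n) x hx
        · exact ⟨fun h => h hx, fun h _ => h⟩
        · exact hV n x hx
      · refine mono_TL hF2 (trf φ) V' _ _ ?_ (gfp_TL hF2 (trf φ) V' hs2)
        intro x hx hxW
        exact ⟨x, hxW, rfl, hx⟩
    · intro h
      refine ⟨{x | (∀ m, WFn m (toB x)) ∧ dcS x ∈ (Fm.nu φ).SEM V}, ?_, ⟨ht, h⟩⟩
      rintro x ⟨hx1, hx2⟩
      refine (ih _ (ec ((Fm.nu φ).SEM V) V) ?_ x hx1).2 (gfp_TL hF2 φ V hx2)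
      rintro (_ | n) z hz
      · exact ⟨fun h => h.2, fun h => ⟨hz, h⟩⟩
      · exact hV n z hz

end Pool.Agent.Helper30.WL

end

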