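import Pool.Agent.Helper30.WL.St

/-! Modules of project WH / WL merged into one file to shorten the build. -/

section

set_option autoImplicit false

namespace Pool.Agent.Helper30.WL

open Set

private theorem ag_refl_CLS {X : Type} (i : Bits X) (n : ℕ) (x : X) : Ag i n x x := fun _ _ => rfl

private theorem ag_mono_CLS {X : Type} {i : Bits X} {m n : ℕ} {x y : X} (h : m ≤ n) (hn : Ag i n x y) : Ag i m x y :=
  fun k hk => hn k (lt_of_lt_of_le hk h)

private theorem ag_symm_CLS {X : Type} {i : Bits X} {n : ℕ} {x y : X} (hn : Ag i n x y) : Ag i n y x :=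
  fun k hk => (hn k hk).symm

/-- the word of the first `n` bits -/
private def pre_CLS {X : Type} (i : Bits X) (n : ℕ) (x : X) : List Bool := (List.range n).map (i x)

private theorem pre_len_CLS {X : Type} (i : Bits X) (n : ℕ) (x : X) : (pre_CLS i n x).length = n := by
  simp [pre_CLS]

private theorem pre_eq_CLS {X : Type} (i : Bits X) (n : ℕ) (x y : X) :
    pre_CLS i n x = pre_CLS i n y ↔ Ag i n x y := by
  unfold pre_CLS Ag
  rw [List.map_inj_left]
  constructor
  · intro h k hk
    exact h k (List.mem_range.mpr hk)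
  · intro h k hk
    exact h k (List.mem_range.mp hk)

/-- cylinder of a word -/
private def cyl_CLS {X : Type} (i : Bits X) (w : List Bool) : Set X := {y | pre_CLS i w.length y = w}

private theorem cy_eq_CLS {X : Type} (i : Bits X) (n : ℕ) (x : X) : Cy i n x = cyl_CLS i (pre_CLS i n x) := by
  ext y
  unfold Cy cyl_CLS
  rw [mem_ofPred_eq, mem_ofPred_eq, pre_len_CLS, pre_eq_CLS]
  exact ⟨ag_symm_CLS, ag_symm_CLS⟩

/-- `b` with the bits `j` is a witness for `ExpC C` at the trace of `A` -/
private structure EO_CLS (C : Cls) {X : Type} (i : Bits X) (A b : Set X) (j : Bits X) : Prop where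
  cl : ∀ k x, x ∈ b → j x k = false → ∃ n, ∀ y ∈ b, Ag i n x y → j y k = false
  mem : C b (fun y => j y.1) (tr b A)

open Classical in
private theorem eo_of_CLS (C : Cls) {X : Type} (i : Bits X) (A b : Set X)
    (h : ExpC C b (res i b) (tr b A)) : ∃ j : Bits X, EO_CLS C i A b j := by
  obtain ⟨j, hj, hm⟩ := h
  refine ⟨fun x k => if hx : x ∈ b then j ⟨x, hx⟩ k else false, ?_, ?_⟩
  · intro k x hx hjx
    rw [dif_pos hx] at hjx
    have h1 : (⟨x, hx⟩ : b) ∈ {x | j x k = true}ᶜ := by
      simp [hjx]
    obtain ⟨n, hn⟩ := hj k ⟨x, hx⟩ h1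
    refine ⟨n, fun y hy hxy => ?_⟩
    rw [dif_pos hy]
    have h2 : (⟨y, hy⟩ : b) ∈ Cy (res i b) n ⟨x, hx⟩ := hxy
    have h3 := hn h2
    simpa using h3
  · have : (fun y : b => (fun (x : X) (k : ℕ) => if hx : x ∈ b then j ⟨x, hx⟩ k else false) y.1) = j := by
      funext y k
      simp [y.2]
    rw [this]
    exact hm

/-- the data of `SumC U (ExpC C)` on a subset `O`, in terms of subsets of `X` -/
private structure SO_CLS (U C : Cls) {X : Type} (i : Bits X) (A O b : Set X) (j : Bits X) : Prop where
  sub : b ⊆ O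
  cl : ∀ x ∈ O, x ∉ b → ∃ n, ∀ y ∈ O, Ag i n x y → y ∉ b
  eo : EO_CLS C i A b j
  off : ∀ x ∈ O, x ∉ b → ∃ n, ∃ O' : Set X, (∀ y ∈ O, Ag i n x y → y ∈ O') ∧ Disjoint O' b ∧
    (U O' (res i O') (tr O' A) ∨ U O' (res i O') (tr O' Aᶜ))

private theorem so_of_CLS (U C : Cls) (hU : Good U) (hC : Good C) {X : Type} (i : Bits X) (A O : Set X)
    (h : SumC U (ExpC C) O (res i O) (tr O A)) : ∃ (b : Set X) (j : Bits X), SO_CLS U C i A O b j := by
  obtain ⟨B, hB, hE, hoff⟩ := h
  let b : Set X := {x | ∃ hx : x ∈ O, (⟨x, hx⟩ : O) ∈ B}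
  have hbO : b ⊆ O := fun x hx => hx.1
  have hEb : ExpC C b (res i b) (tr b A) := by
    obtain ⟨j, hj, hm⟩ := hE
    let f : b → B := fun x => ⟨⟨x.1, x.2.1⟩, x.2.2⟩
    refine ⟨fun x => j (f x), ?_, ?_⟩
    · intro k x hx
      have h1 : f x ∈ {x | j x k = true}ᶜ := hx
      obtain ⟨n, hn⟩ := hj k (f x) h1
      refine ⟨n, fun y hy => ?_⟩
      exact hn (show f y ∈ Cy (res (res i O) B) n (f x) from hy)
    · exact hC.pre B b j (fun x => j (f x)) f (tr B (tr O A)) (fun n y => ⟨n, fun y' h => h⟩) hm
  obtain ⟨j, hj⟩ := eo_of_CLS C i A b hEb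
  refine ⟨b, j, hbO, ?_, hj, ?_⟩
  · intro x hx hxb
    have h1 : (⟨x, hx⟩ : O) ∈ Bᶜ := fun h => hxb ⟨hx, h⟩
    obtain ⟨n, hn⟩ := hB ⟨x, hx⟩ h1
    refine ⟨n, fun y hy hxy hyb => ?_⟩
    exact hn (show (⟨y, hy⟩ : O) ∈ Cy (res i O) n ⟨x, hx⟩ from hxy) hyb.2
  · intro x hx hxb
    have h1 : (⟨x, hx⟩ : O) ∉ B := fun h => hxb ⟨hx, h⟩
    obtain ⟨n, hd, hUU⟩ := hoff ⟨x, hx⟩ h1
    let O' : Set X := {y | ∃ hy : y ∈ O, (⟨y, hy⟩ : O) ∈ Cy (res i O) n ⟨x, hx⟩}
    refine ⟨n, O', fun y hy hxy => ⟨hy, hxy⟩, ?_, ?_⟩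
    · rw [Set.disjoint_left] at hd ⊢
      intro y hy hyb
      exact hd hy.2 hyb.2
    · let g : O' → (Cy (res i O) n ⟨x, hx⟩) := fun y => ⟨⟨y.1, y.2.1⟩, y.2.2⟩
      have hg : Cts (res i O') (res (res i O) (Cy (res i O) n ⟨x, hx⟩)) g := fun n y => ⟨n, fun y' h => h⟩
      rcases hUU with h | h
      · exact Or.inl (hU.pre _ _ _ _ g _ hg h)
      · exact Or.inr (hU.pre _ _ _ _ g _ hg h)

open Classical in
theorem hCLS : StCLS := by
  intro U C hU hC X i A B hB hEB hoff
  -- the property of words
  let W : Set X → Prop := fun O => Disjoint O B ∧ SumC U (ExpC C) O (res i O) (tr O A)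
  let R : List Bool → Prop := fun w => W (cyl_CLS i w)
  have hoff' : ∀ x, x ∉ B → ∃ n, R (pre_CLS i n x) := by
    intro x hx
    obtain ⟨n, h1, h2⟩ := hoff x hx
    refine ⟨n, ?_⟩
    rw [cy_eq_CLS] at h1 h2
    exact ⟨h1, h2⟩
  obtain ⟨jB, hjB⟩ := eo_of_CLS C i A B hEB
  have hch : ∀ w : List Bool, ∃ (b : Set X) (j : Bits X), R w → SO_CLS U C i A (cyl_CLS i w) b j := by
    intro w
    by_cases hw : R w
    · obtain ⟨b, j, h⟩ := so_of_CLS U C hU hC i A (cyl_CLS i w) hw.2
      exact ⟨b, j, fun _ => h⟩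
    · exact ⟨∅, fun _ _ => false, fun h => absurd h hw⟩
  choose bw jw hw using hch
  let Nx : X → ℕ := fun x => if h : ∃ n, R (pre_CLS i n x) then Nat.find h else 0
  let wx : X → List Bool := fun x => pre_CLS i (Nx x) x
  have hR : ∀ x, x ∉ B → R (wx x) := by
    intro x hx
    have h := hoff' x hx
    show R (pre_CLS i (if h : ∃ n, R (pre_CLS i n x) then Nat.find h else 0) x)
    rw [dif_pos h]
    exact Nat.find_spec h
  have hmemcyl : ∀ x, x ∈ cyl_CLS i (wx x) := by
    intro x
    show pre_CLS i (pre_CLS i (Nx x) x).length x = pre_CLS i (Nx x) x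
    rw [pre_len_CLS]
  have hNx : ∀ x y, x ∉ B → Ag i (Nx x) x y → y ∉ B ∧ wx y = wx x := by
    intro x y hx hxy
    have hy : y ∈ cyl_CLS i (wx x) := by
      show pre_CLS i (pre_CLS i (Nx x) x).length y = pre_CLS i (Nx x) x
      rw [pre_len_CLS, pre_eq_CLS]
      exact ag_symm_CLS hxy
    have hyB : y ∉ B := fun h => Set.disjoint_left.mp (hR x hx).1 hy h
    refine ⟨hyB, ?_⟩
    have h1 := hoff' x hx
    have h2 := hoff' y hyB
    have e1 : Nx x = Nat.find h1 := dif_pos h1
    have e2 : Nx y = Nat.find h2 := dif_pos h2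
    have hle : Nx y ≤ Nx x := by
      rw [e2]
      apply Nat.find_min'
      have : pre_CLS i (Nx x) y = pre_CLS i (Nx x) x := by
        rw [pre_eq_CLS]
        exact ag_symm_CLS hxy
      rw [this]
      exact hR x hx
    have hge : Nx x ≤ Nx y := by
      rw [e1]
      apply Nat.find_min'
      have : pre_CLS i (Nx y) x = pre_CLS i (Nx y) y := by
        rw [pre_eq_CLS]
        exact ag_mono_CLS hle hxy
      rw [this]
      exact hR y hyB
    have e : Nx y = Nx x := le_antisymm hle hge
    show pre_CLS i (Nx y) y = pre_CLS i (Nx x) x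
    rw [e, pre_eq_CLS]
    exact ag_symm_CLS hxy
  let B' : Set X := {x | x ∈ B ∨ (x ∉ B ∧ x ∈ bw (wx x))}
  have hB'1 : ∀ x, x ∉ B' → x ∉ B ∧ x ∉ bw (wx x) := by
    intro x hx
    have h1 : x ∉ B := fun h => hx (Or.inl h)
    exact ⟨h1, fun h => hx (Or.inr ⟨h1, h⟩)⟩
  have hnot : ∀ x y, x ∉ B → Ag i (Nx x) x y → y ∉ bw (wx x) → y ∉ B' := by
    intro x y hx hxy hy hyB'
    obtain ⟨h1, h2⟩ := hNx x y hx hxy
    rcases hyB' with h | h
    · exact h1 h
    · rw [h2] at h
      exact hy h.2
  refine ⟨B', ?_, ?_, ?_⟩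
  · -- closed
    intro x hx
    obtain ⟨h1, h2⟩ := hB'1 x hx
    obtain ⟨n1, hn1⟩ := (hw (wx x) (hR x h1)).cl x (hmemcyl x) h2
    refine ⟨max n1 (Nx x), fun y hy => ?_⟩
    have hy1 : Ag i (Nx x) x y := ag_mono_CLS (le_max_right _ _) hy
    have hyc : y ∈ cyl_CLS i (wx x) := by
      have := hmemcyl y
      rw [(hNx x y h1 hy1).2] at this
      exact this
    exact hnot x y h1 hy1 (hn1 y hyc (ag_mono_CLS (le_max_left _ _) hy))
  · -- the class on B'
    let J : Bits X := fun x n => match n.unpair with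
      | (0, _) => decide (x ∈ B)
      | (1, b) => i x b
      | (2, b) => decide (x ∈ B) && jB x b
      | (a + 3, b) => decide (x ∉ B ∧ Encodable.encode (wx x) = a) && jw (wx x) x b
    have J0 : ∀ x b, J x (Nat.pair 0 b) = decide (x ∈ B) := by
      intro x b
      simp [J]
    have J1 : ∀ x b, J x (Nat.pair 1 b) = i x b := by
      intro x b
      simp [J]
    have J2 : ∀ x b, J x (Nat.pair 2 b) = (decide (x ∈ B) && jB x b) := by
      intro x b
      simp [J]
    have J3 : ∀ x a b, J x (Nat.pair (a + 3) b) =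
        (decide (x ∉ B ∧ Encodable.encode (wx x) = a) && jw (wx x) x b) := by
      intro x a b
      simp [J]
    refine ⟨fun x => J x.1, ?_, ?_⟩
    · intro n
      -- closedness
      have key : ∀ x ∈ B', J x n = false → ∃ m, ∀ y ∈ B', Ag i m x y → J y n = false := by
        intro x hx hJ
        obtain ⟨a, b, rfl⟩ : ∃ a b, n = Nat.pair a b := ⟨n.unpair.1, n.unpair.2, (Nat.pair_unpair n).symm⟩
        match a with
        | 0 =>
          rw [J0] at hJ
          have hxB : x ∉ B := by simpa using hJ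
          refine ⟨Nx x, fun y _ hxy => ?_⟩
          rw [J0]
          simpa using (hNx x y hxB hxy).1
        | 1 =>
          rw [J1] at hJ
          refine ⟨b + 1, fun y _ hxy => ?_⟩
          rw [J1, ← hxy b (Nat.lt_succ_self b)]
          exact hJ
        | 2 =>
          rw [J2] at hJ
          by_cases hxB : x ∈ B
          · have hj : jB x b = false := by simpa [hxB] using hJ
            obtain ⟨m, hm⟩ := hjB.cl b x hxB hj
            refine ⟨m, fun y _ hxy => ?_⟩
            rw [J2]
            by_cases hyB : y ∈ B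
            · simp [hyB, hm y hyB hxy]
            · simp [hyB]
          · refine ⟨Nx x, fun y _ hxy => ?_⟩
            rw [J2]
            simp [(hNx x y hxB hxy).1]
        | a + 3 =>
          rw [J3] at hJ
          by_cases hxB : x ∈ B
          · by_cases hex : ∃ w : List Bool, Encodable.encode w = a
            · obtain ⟨w, hwa⟩ := hex
              refine ⟨w.length, fun y _ hxy => ?_⟩
              rw [J3]
              by_cases hy : y ∉ B ∧ Encodable.encode (wx y) = a
              · exfalso
                have hwy : wx y = w := Encodable.encode_injective (hy.2.trans hwa.symm)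
                have hRw : R w := by
                  rw [← hwy]
                  exact hR y hy.1
                have hyc : y ∈ cyl_CLS i w := by
                  rw [← hwy]
                  exact hmemcyl y
                have hxc : x ∈ cyl_CLS i w := by
                  have h1 : pre_CLS i w.length y = w := hyc
                  show pre_CLS i w.length x = w
                  rw [← h1, pre_len_CLS, pre_eq_CLS]
                  exact hxy
                exact Set.disjoint_left.mp hRw.1 hxc hxB
              · simp only [hy, decide_false, Bool.false_and]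
            · refine ⟨0, fun y _ _ => ?_⟩
              rw [J3]
              have hy : ¬ (y ∉ B ∧ Encodable.encode (wx y) = a) := fun h => hex ⟨_, h.2⟩
              simp only [hy, decide_false, Bool.false_and]
          · by_cases ha : Encodable.encode (wx x) = a
            · have hj : jw (wx x) x b = false := by simpa [hxB, ha] using hJ
              have hxb : x ∈ bw (wx x) := by
                rcases hx with h | h
                · exact absurd h hxB
                · exact h.2
              obtain ⟨m, hm⟩ := (hw (wx x) (hR x hxB)).eo.cl b x hxb hj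
              refine ⟨max m (Nx x), fun y hy hxy => ?_⟩
              obtain ⟨hyB, hwy⟩ := hNx x y hxB (ag_mono_CLS (le_max_right _ _) hxy)
              rw [J3]
              have hyb : y ∈ bw (wx x) := by
                rcases hy with h | h
                · exact absurd h hyB
                · rw [← hwy]
                  exact h.2
              rw [hwy, hm y hyb (ag_mono_CLS (le_max_left _ _) hxy), Bool.and_false]
            · refine ⟨Nx x, fun y _ hxy => ?_⟩
              obtain ⟨_, hwy⟩ := hNx x y hxB hxy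
              rw [J3]
              have hy : ¬ (y ∉ B ∧ Encodable.encode (wx y) = a) := by
                rw [hwy]
                exact fun h => ha h.2
              simp only [hy, decide_false, Bool.false_and]
      intro x hx
      have hJ : J x.1 n = false := by simpa using hx
      obtain ⟨m, hm⟩ := key x.1 x.2 hJ
      refine ⟨m, fun y hy => ?_⟩
      have : J y.1 n = false := hm y.1 y.2 hy
      simp [this]
    · -- paste
      let κ : B' → ℕ := fun x => if x.1 ∈ B then 0 else 1 + Encodable.encode (wx x.1)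
      have hJmem : ∀ (x y : B'), (∃ n, Nat.pair 0 0 < n ∧ Ag (fun x : B' => J x.1) n x y) → (x.1 ∈ B ↔ y.1 ∈ B) := by
        rintro x y ⟨n, hn, h⟩
        have h1 : J x.1 (Nat.pair 0 0) = J y.1 (Nat.pair 0 0) := h _ hn
        rw [J0, J0] at h1
        simpa using h1
      refine hC.paste B' _ κ (tr B' A) ?_ ?_
      · intro x
        by_cases hxB : x.1 ∈ B
        · refine ⟨Nat.pair 0 0 + 1, fun y hxy => ?_⟩
          have hyB := (hJmem x y ⟨_, Nat.lt_succ_self _, hxy⟩).mp hxB
          show (if y.1 ∈ B then 0 else 1 + Encodable.encode (wx y.1)) =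
            (if x.1 ∈ B then 0 else 1 + Encodable.encode (wx x.1))
          rw [if_pos hyB, if_pos hxB]
        · refine ⟨Nat.pair 0 0 + 1 + Nat.pair 1 (Nx x.1), fun y hxy => ?_⟩
          have hyB : y.1 ∉ B := fun h => hxB ((hJmem x y ⟨_, by omega, hxy⟩).mpr h)
          have hag : Ag i (Nx x.1) x.1 y.1 := by
            intro k hk
            have h2 : Nat.pair 1 k < Nat.pair 0 0 + 1 + Nat.pair 1 (Nx x.1) := by
              have := Nat.pair_lt_pair_right 1 hk
              omega
            have h1 : J x.1 (Nat.pair 1 k) = J y.1 (Nat.pair 1 k) := hxy _ h2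
            rw [J1, J1] at h1
            exact h1
          show (if y.1 ∈ B then 0 else 1 + Encodable.encode (wx y.1)) =
            (if x.1 ∈ B then 0 else 1 + Encodable.encode (wx x.1))
          rw [if_neg hyB, if_neg hxB, (hNx x.1 y.1 hxB hag).2]
      · intro c
        by_cases hne : ∃ x : B', κ x = c
        · obtain ⟨x0, hx0⟩ := hne
          by_cases hx0B : x0.1 ∈ B
          · have hc : c = 0 := by
              rw [← hx0]
              exact if_pos hx0B
            subst hc
            have hpB : ∀ x : B', κ x = 0 → x.1 ∈ B := by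
              intro x hx
              by_contra h
              have : κ x = 1 + Encodable.encode (wx x.1) := if_neg h
              omega
            let f : {x : B' | κ x = 0} → B := fun x => ⟨x.1.1, hpB x.1 x.2⟩
            refine hC.pre B _ (fun y => jB y.1) _ f (tr B A) ?_ hjB.mem
            intro n y
            refine ⟨Nat.pair 2 n, fun y' h k hk => ?_⟩
            have h1 : J y.1.1 (Nat.pair 2 k) = J y'.1.1 (Nat.pair 2 k) := h _ (Nat.pair_lt_pair_right 2 hk)
            rw [J2, J2] at h1
            simpa [hpB y.1 y.2, hpB y'.1 y'.2] using h1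
          · set w := wx x0.1 with hwdef
            have hc : c = 1 + Encodable.encode w := by
              rw [← hx0]
              exact if_neg hx0B
            subst hc
            have hp : ∀ x : B', κ x = 1 + Encodable.encode w → x.1 ∉ B ∧ wx x.1 = w ∧ x.1 ∈ bw w := by
              intro x hx
              have hxB : x.1 ∉ B := by
                intro h
                have : κ x = 0 := if_pos h
                omega
              have h1 : κ x = 1 + Encodable.encode (wx x.1) := if_neg hxB
              have h2 : wx x.1 = w := Encodable.encode_injective (by omega)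
              refine ⟨hxB, h2, ?_⟩
              rcases x.2 with h | h
              · exact absurd h hxB
              · rw [← h2]
                exact h.2
            let f : {x : B' | κ x = 1 + Encodable.encode w} → bw w := fun x => ⟨x.1.1, (hp x.1 x.2).2.2⟩
            refine hC.pre (bw w) _ (fun y => jw w y.1) _ f (tr (bw w) A) ?_ (hw w (hR x0.1 hx0B)).eo.mem
            intro n y
            refine ⟨Nat.pair (Encodable.encode w + 3) n, fun y' h k hk => ?_⟩
            have h1 : J y.1.1 (Nat.pair (Encodable.encode w + 3) k) = J y'.1.1 (Nat.pair (Encodable.encode w + 3) k) :=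
              h _ (Nat.pair_lt_pair_right _ hk)
            rw [J3, J3] at h1
            obtain ⟨a1, a2, _⟩ := hp y.1 y.2
            obtain ⟨b1, b2, _⟩ := hp y'.1 y'.2
            simpa [a1, a2, b1, b2] using h1
        · have : tr {x : B' | κ x = c} (tr B' A) = ∅ := by
            ext x
            exact ⟨fun _ => hne ⟨x.1, x.2⟩, fun h => h.elim⟩
          rw [this]
          exact hC.empty _ _
  · -- off B'
    intro x hx
    obtain ⟨h1, h2⟩ := hB'1 x hx
    have hS := hw (wx x) (hR x h1)
    obtain ⟨n1, O', hO', hd, hUU⟩ := hS.off x (hmemcyl x) h2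
    have hsub : ∀ y, y ∈ Cy i (max n1 (Nx x)) x → y ∈ O' := by
      intro y hy
      have hy1 : Ag i (Nx x) x y := ag_mono_CLS (le_max_right _ _) hy
      have hyc : y ∈ cyl_CLS i (wx x) := by
        have := hmemcyl y
        rw [(hNx x y h1 hy1).2] at this
        exact this
      exact hO' y hyc (ag_mono_CLS (le_max_left _ _) hy)
    refine ⟨max n1 (Nx x), ?_, ?_⟩
    · rw [Set.disjoint_left]
      intro y hy
      exact hnot x y h1 (ag_mono_CLS (le_max_right _ _) hy) (Set.disjoint_left.mp hd (hsub y hy))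
    · let g : (Cy i (max n1 (Nx x)) x) → O' := fun y => ⟨y.1, hsub y.1 y.2⟩
      have hg : Cts (res i (Cy i (max n1 (Nx x)) x)) (res i O') g := fun n y => ⟨n, fun y' h => h⟩
      rcases hUU with h | h
      · exact Or.inl (hU.pre _ _ _ _ g _ hg h)
      · exact Or.inr (hU.pre _ _ _ _ g _ hg h)

end Pool.Agent.Helper30.WL

end

section

/-!
# PROJECT WL (MP_76577a_lc), module FD: the fold along the Cantor normal form is strictly increasing
-/

set_option autoImplicit false

namespace Pool.Agent.Helper30.WL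

open Set
open Ordinal hiding univ

private theorem fold_zero_FD {W : Type 1} (st : W → Ordinal.{0} → W) (w : W) : fold st 0 w = w := by
  rw [fold]
  simp

private theorem fold_ne_FD {W : Type 1} (st : W → Ordinal.{0} → W) {b : Ordinal.{0}} (hb : b ≠ 0) (w : W) :
    fold st b w = fold st (b - ω ^ log ω b) (st w (log ω b)) := by
  rw [fold, dif_neg hb]

theorem hFD (hGE : StGE) (hGS : StGS) (hLT : StLT) (hKEY : StKEY) : StFD := by
  obtain ⟨hL1, hL2, hL3, -⟩ := hLT
  intro C θ hC hlt U hU
  set st : Cls → Ordinal.{0} → Cls := fun U a => SumC U (ExpC (C a)) with hst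
  have hE : ∀ a, a < θ → Good (ExpC (C a)) := fun a ha => hGE.2 _ (hC a ha)
  have hstG : ∀ a, a < θ → ∀ V, Good V → Good (st V a) := fun a ha V hV => hGS _ _ hV (hE a ha)
  have hlog : ∀ b : Ordinal.{0}, ∀ c : Ordinal.{0}, b ≠ 0 → b < ω ^ c → log ω b < c := by
    intro b c hb hbc
    exact (Ordinal.lt_opow_iff_log_lt one_lt_omega0 hb).mp hbc
  have hG : ∀ b : Ordinal.{0}, b < ω ^ θ → ∀ V, Good V → Good (fold st b V) := by
    intro b
    induction b using WellFoundedLT.induction with
    | _ b ih =>
      intro hb V hV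
      by_cases h0 : b = 0
      · rw [h0, fold_zero_FD]
        exact hV
      · rw [fold_ne_FD st h0]
        have h1 := sub_log_lt b h0
        exact ih _ h1 (h1.trans hb) _ (hstG _ (hlog b θ h0 hb) V hV)
  have hA : ∀ g, g < θ → ∀ W : Cls, Good W → ∀ b : Ordinal.{0}, b < ω ^ g → ∀ V : Cls, LtC V (st W g) →
      LtC (fold st b V) (st W g) := by
    intro g hg W hW b
    induction b using WellFoundedLT.induction with
    | _ b ih =>
      intro hb V hV
      by_cases h0 : b = 0
      · rw [h0, fold_zero_FD]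
        exact hV
      · rw [fold_ne_FD st h0]
        have h1 := sub_log_lt b h0
        have h2 := hlog b g h0 hb
        exact ih _ h1 (h1.trans hb) _ (hKEY W V (C (log ω b)) (C g) hW (hC g hg) (hlt _ _ h2 hg) hV)
  have hB : ∀ b : Ordinal.{0}, b < ω ^ θ → ∀ V, Good V → LeC V (fold st b V) := by
    intro b
    induction b using WellFoundedLT.induction with
    | _ b ih =>
      intro hb V hV
      by_cases h0 : b = 0
      · rw [h0, fold_zero_FD]
        exact fun _ _ _ h => h
      · rw [fold_ne_FD st h0]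
        have h1 := sub_log_lt b h0
        have h2 := hlog b θ h0 hb
        have h3 : LeC V (st V (log ω b)) := hL1 _ _ (hL3 V _ hV (hE _ h2))
        have h4 := ih _ h1 (h1.trans hb) _ (hstG _ h2 V hV)
        exact fun X i A h => h4 X i A (h3 X i A h)
  have hD : ∀ b' : Ordinal.{0}, b' < ω ^ θ → ∀ b, b < b' → ∀ V, Good V → LtC (fold st b V) (fold st b' V) := by
    intro b'
    induction b' using WellFoundedLT.induction with
    | _ b' ih =>
      intro hb' b hb V hV
      have h0 : b' ≠ 0 := (bot_le.trans_lt hb).ne'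
      have h1 := sub_log_lt b' h0
      have h2 := hlog b' θ h0 hb'
      rw [fold_ne_FD st h0]
      by_cases hc : b < ω ^ log ω b'
      · have h3 : LtC (fold st b V) (st V (log ω b')) := hA _ h2 V hV b hc V (hL3 V _ hV (hE _ h2))
        exact hL2 _ _ _ h3 (hB _ (h1.trans hb') _ (hstG _ h2 V hV))
      · rw [not_lt] at hc
        have hb0 : b ≠ 0 := by
          rintro rfl
          exact absurd hc (not_le.mpr (opow_pos _ omega0_pos))
        have hlb : log ω b = log ω b' := by
          refine le_antisymm (Ordinal.log_mono_right _ hb.le) ?_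
          exact (Ordinal.opow_le_iff_le_log one_lt_omega0 hb0).mp hc
        rw [fold_ne_FD st hb0, hlb]
        refine ih _ h1 (h1.trans hb') _ ?_ _ (hstG _ h2 V hV)
        by_contra hcon
        rw [not_lt] at hcon
        have h5 : ω ^ log ω b' + (b' - ω ^ log ω b') = b' :=
          Ordinal.add_sub_cancel_of_le (opow_log_le_self ω h0)
        have h6 : ω ^ log ω b' + (b - ω ^ log ω b') = b := Ordinal.add_sub_cancel_of_le hc
        have h7 : b' ≤ b := by
          rw [← h5, ← h6]
          exact add_le_add_right hcon _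
        exact absurd hb (not_lt.mpr h7)
  exact ⟨fun b hb => hG b hb U hU, fun b b' hbb hb' => hD b' hb' b hbb U hU⟩

end Pool.Agent.Helper30.WL

end

section

/-!
# PROJECT WL, module GE: `C0` and `ExpC C` are good
-/

set_option autoImplicit false

namespace Pool.Agent.Helper30.WL

open Set
open Pool.Agent.Helper24.WH (Tre pT)

private theorem good_C0_GE : Good C0 where
  pre := by
    intro X Y i i' f A _ hA
    change A = ∅ at hA
    subst hA
    rfl
  paste := by
    intro X i κ A _ h
    change A = ∅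
    ext x
    simp only [mem_empty_iff_false, iff_false]
    intro hx
    have h1 : tr {y | κ y = κ x} A = ∅ := h (κ x)
    have h2 : (⟨x, rfl⟩ : {y | κ y = κ x}) ∈ tr {y | κ y = κ x} A := hx
    rw [h1] at h2
    exact h2
  empty := fun X i => rfl

open Classical in
/-- new bits for pasting, two indices -/
private noncomputable def nbp_GE {X : Type} (κ : X → ℕ) (j : (c : ℕ) → Bits {x | κ x = c}) (x : X) : ℕ → ℕ → Bool
  | 0, b => decide (κ x = b)
  | c + 1, b => if h : κ x = c then j c ⟨x, h⟩ b else false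

/-- new bits for pasting -/
private noncomputable def nb_GE {X : Type} (κ : X → ℕ) (j : (c : ℕ) → Bits {x | κ x = c}) : Bits X := fun x n =>
  nbp_GE κ j x n.unpair.1 n.unpair.2

private theorem nb0_GE {X : Type} (κ : X → ℕ) (j : (c : ℕ) → Bits {x | κ x = c}) (x : X) (b : ℕ) :
    nb_GE κ j x (Nat.pair 0 b) = true ↔ κ x = b := by
  simp [nb_GE, nbp_GE]

private theorem nb1_GE {X : Type} (κ : X → ℕ) (j : (c : ℕ) → Bits {x | κ x = c}) (c : ℕ) (x : {x | κ x = c}) (b : ℕ) :
    nb_GE κ j x.1 (Nat.pair (c + 1) b) = j c x b := by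
  have h : κ x.1 = c := x.2
  simp only [nb_GE, Nat.unpair_pair, nbp_GE]
  exact dif_pos h

private theorem nb2_GE {X : Type} (κ : X → ℕ) (j : (c : ℕ) → Bits {x | κ x = c}) (c : ℕ) (x : X) (h : κ x ≠ c) (b : ℕ) :
    nb_GE κ j x (Nat.pair (c + 1) b) = false := by
  simp only [nb_GE, Nat.unpair_pair, nbp_GE]
  exact dif_neg h

private theorem Ag_mono_GE {X : Type} {i : Bits X} {n m : ℕ} {x y : X} (h : n ≤ m) (hxy : Ag i m x y) : Ag i n x y :=
  fun k hk => hxy k (lt_of_lt_of_le hk h)

theorem hGE : StGE := by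
  refine ⟨good_C0_GE, fun C hC => ⟨?_, ?_, ?_⟩⟩
  · rintro X Y i i' f A hf ⟨j, hj, hA⟩
    refine ⟨fun y => j (f y), fun k => ?_, ?_⟩
    · intro y hy
      have h1 : f y ∈ {x | j x k = true}ᶜ := hy
      obtain ⟨n, hn⟩ := hj k (f y) h1
      obtain ⟨n', hn'⟩ := hf n y
      refine ⟨n', fun y' hy' => ?_⟩
      exact hn (hn' y' hy')
    · exact hC.pre X Y j (fun y => j (f y)) f A (fun n y => ⟨n, fun y' hy' => hy'⟩) hA
  · intro X i κ A hκ h
    choose j hj hjC using h
    refine ⟨nb_GE κ j, fun k => ?_, ?_⟩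
    · intro x hx
      obtain ⟨n₀, hn₀⟩ := hκ x
      obtain ⟨a, b, rfl⟩ : ∃ a b, k = Nat.pair a b := ⟨k.unpair.1, k.unpair.2, (Nat.pair_unpair k).symm⟩
      cases a with
      | zero =>
        refine ⟨n₀, fun y hy => ?_⟩
        intro hy'
        apply hx
        change nb_GE κ j y (Nat.pair 0 b) = true at hy'
        change nb_GE κ j x (Nat.pair 0 b) = true
        rw [nb0_GE] at hy' ⊢
        rw [← hn₀ y hy]
        exact hy'
      | succ c =>
        by_cases hxc : κ x = c
        · have h1 : (⟨x, hxc⟩ : {x | κ x = c}) ∈ {x | j c x b = true}ᶜ := by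
            intro h2
            apply hx
            change nb_GE κ j x (Nat.pair (c + 1) b) = true
            rw [nb1_GE κ j c ⟨x, hxc⟩ b]
            exact h2
          obtain ⟨n₁, hn₁⟩ := hj c b ⟨x, hxc⟩ h1
          refine ⟨max n₀ n₁, fun y hy => ?_⟩
          have hyc : κ y = c := (hn₀ y (Ag_mono_GE (le_max_left _ _) hy)).trans hxc
          have h2 : (⟨y, hyc⟩ : {x | κ x = c}) ∈ {x | j c x b = true}ᶜ :=
            hn₁ (show Ag (res i {x | κ x = c}) n₁ ⟨x, hxc⟩ ⟨y, hyc⟩ from
              fun k hk => hy k (lt_of_lt_of_le hk (le_max_right _ _)))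
          intro hy'
          apply h2
          change nb_GE κ j y (Nat.pair (c + 1) b) = true at hy'
          rw [nb1_GE κ j c ⟨y, hyc⟩ b] at hy'
          exact hy'
        · refine ⟨n₀, fun y hy => ?_⟩
          intro hy'
          change nb_GE κ j y (Nat.pair (c + 1) b) = true at hy'
          rw [nb2_GE κ j c y (by rw [hn₀ y hy]; exact hxc) b] at hy'
          exact Bool.false_ne_true hy'
    · refine hC.paste X (nb_GE κ j) κ A (fun x => ?_) (fun c => ?_)
      · refine ⟨Nat.pair 0 (κ x) + 1, fun y hy => ?_⟩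
        have h1 := hy (Nat.pair 0 (κ x)) (Nat.lt_succ_self _)
        have h2 : nb_GE κ j x (Nat.pair 0 (κ x)) = true := (nb0_GE κ j x (κ x)).2 rfl
        rw [h2] at h1
        exact (nb0_GE κ j y (κ x)).1 h1.symm
      · refine hC.pre {x | κ x = c} {x | κ x = c} (j c) (res (nb_GE κ j) {x | κ x = c}) id (tr {x | κ x = c} A)
          (fun n y => ⟨Nat.pair (c + 1) n + 1, fun y' hy' b hb => ?_⟩) (hjC c)
        have h1 : Nat.pair (c + 1) b < Nat.pair (c + 1) n + 1 :=
          lt_trans (Nat.pair_lt_pair_right (c + 1) hb) (Nat.lt_succ_self _)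
        have h2 := hy' _ h1
        change nb_GE κ j y.1 (Nat.pair (c + 1) b) = nb_GE κ j y'.1 (Nat.pair (c + 1) b) at h2
        rw [nb1_GE, nb1_GE] at h2
        exact h2
  · intro X i
    refine ⟨fun _ _ => false, fun k x _ => ⟨0, fun y _ => ?_⟩, hC.empty X _⟩
    intro hy
    exact Bool.false_ne_true hy

end Pool.Agent.Helper30.WL

end

section

/-!
# PROJECT WL, modules LT and HZ
-/

set_option autoImplicit false

namespace Pool.Agent.Helper30.WL

open Set
open Pool.Agent.Helper24.WH (Tre pT)
open Ordinal hiding univ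

private theorem cts_val_LT {X : Type} (i : Bits X) (O : Set X) :
    Cts (res i O) i (Subtype.val : O → X) := by
  intro n y
  exact ⟨n, fun y' h => h⟩

theorem hLT : StLT := by
  refine ⟨?_, ?_, ?_, ?_⟩
  · intro C C' h X i A hA
    exact h X i A (Or.inl hA)
  · intro C C' C'' h h' X i A hA
    exact h' X i A (h X i A hA)
  · intro U E hU hE X i A hA
    refine ⟨∅, ?_, ?_, ?_⟩
    · intro x _
      exact ⟨0, fun y _ => by simp⟩
    · have h1 : tr (∅ : Set X) A = ∅ := by
        ext x
        exact absurd x.2 (Set.notMem_empty _)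
      rw [h1]
      exact hE.empty _ _
    · intro x _
      refine ⟨0, Set.disjoint_empty _, ?_⟩
      rcases hA with hA | hA
      · exact Or.inl (hU.pre X _ i _ Subtype.val A (cts_val_LT i _) hA)
      · exact Or.inr (hU.pre X _ i _ Subtype.val Aᶜ (cts_val_LT i _) hA)
  · intro C C' h X i A hA
    rcases hA with ⟨j, hj, hA⟩ | ⟨j, hj, hA⟩
    · exact ⟨j, hj, h X j A (Or.inl hA)⟩
    · exact ⟨j, hj, h X j A (Or.inr hA)⟩

theorem hHZ : StHZ := by
  intro Q _
  refine ⟨rfl, ?_⟩
  intro X i A hA
  refine ⟨fun _ _ _ => false, ?_, fun _ => rfl, ?_⟩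
  · intro u x y _
    rfl
  · intro x
    have hA' : A = ∅ := hA
    rw [hA']
    simp

end Pool.Agent.Helper30.WL

end

section

/-!
# PROJECT WL (MP_76577a_lc), module ME: membership of the exponential language
-/

set_option autoImplicit false

namespace Pool.Agent.Helper30.WL

open Set
open Pool.Agent.Helper24.WH (Tre pT)
open Ordinal hiding univ

section ME

private theorem ag_mono_ME {X : Type} {i : Bits X} {m n : ℕ} {x y : X} (h : m ≤ n)
    (hA : Ag i n x y) : Ag i m x y := fun k hk => hA k (hk.trans_le h)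

private theorem finite_ME {X U : Type} (i : Bits X) (x : X) (R : U → X → Prop)
    (h : ∀ u, ∃ N, ∀ y, Ag i N x y → R u y) (F : Set U) (hF : F.Finite) :
    ∃ N, ∀ y, Ag i N x y → ∀ u ∈ F, R u y := by
  choose N hN using h
  exact ⟨hF.toFinset.sup N, fun y hy u hu =>
    hN u y (ag_mono_ME (Finset.le_sup (hF.mem_toFinset.2 hu)) hy)⟩

private theorem sub_sub_ME {A : Type} (t : Tre A) (v w : List Bool) :
    (t.sub v).sub w = t.sub (v ++ w) := by
  funext u
  change t (v ++ (w ++ u)) = t (v ++ w ++ u)
  rw [List.append_assoc]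

variable {Q : Type}

/-- `WFn n` depends on the letters at nodes of length at most `3 * n` -/
private theorem WFn_congr_ME (n : ℕ) : ∀ t t' : Tre (Lt3 Q),
    (∀ u : List Bool, u.length ≤ 3 * n → t u = t' u) → WFn n t → WFn n t' := by
  induction n with
  | zero => intro t t' _ _; trivial
  | succ n ih =>
    intro t t' h hw e
    obtain ⟨h1, h2, h3⟩ := hw e
    have e1 : ∀ s : Bool, t [e, s] = t' [e, s] := fun s => h [e, s] (by
      simp only [List.length_cons, List.length_nil]; omega)
    have ed : dk (t.sub [e]) = dk (t'.sub [e]) := by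
      change t [e, false] (Sum.inr 0) = t' [e, false] (Sum.inr 0)
      rw [e1]
    have e2 : ∀ d s : Bool, t [e, d, s] = t' [e, d, s] := fun d s => h [e, d, s] (by
      simp only [List.length_cons, List.length_nil]; omega)
    refine ⟨?_, ?_, ?_⟩
    · rw [← e1, ← e1]; exact h1
    · rw [← ed, ← e2, ← e2]; exact h2
    · intro s
      rw [← ed]
      refine ih _ _ (fun u hu => ?_) (h3 s)
      exact h _ (by simp only [List.length_append, List.length_cons, List.length_nil]; omega)

open Classical in
/-- the new bits -/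
private noncomputable def jj_ME [Countable Q] : Bits (Tre (Lt3 Q)) := fun t n =>
  if n.unpair.1 = 0 then std t n.unpair.2
  else if n.unpair.1 = 1 then decide (∀ n, WFn n t)
  else match (Encodable.decode n.unpair.2 : Option (List Bool)) with
    | some v => decide (NB (t.sub v))
    | none => false

private theorem jj1_ME [Countable Q] (t : Tre (Lt3 Q)) :
    jj_ME t (Nat.pair 1 0) = true ↔ ∀ n, WFn n t := by
  classical
  unfold jj_ME
  rw [Nat.unpair_pair, if_neg (show ¬ (1, 0).1 = 0 from one_ne_zero),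
    if_pos (show (1, 0).1 = 1 from rfl)]
  exact decide_eq_true_iff

private theorem jj2_ME [Countable Q] (t : Tre (Lt3 Q)) (v : List Bool) :
    jj_ME t (Nat.pair 2 (Encodable.encode v)) = true ↔ NB (t.sub v) := by
  classical
  unfold jj_ME
  rw [Nat.unpair_pair, if_neg (show ¬ (2, Encodable.encode v).1 = 0 from two_ne_zero),
    if_neg (show ¬ (2, Encodable.encode v).1 = 1 by norm_num)]
  simp only [Encodable.encodek]
  exact decide_eq_true_iff

variable [Finite Q]

/-- small cylinders fix all letters up to a given length -/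
private theorem len_ME (hSB : StSB) (m : ℕ) : ∃ N, ∀ t t' : Tre (Lt3 Q), Ag std N t t' →
    ∀ u : List Bool, u.length ≤ m → t u = t' u := by
  obtain ⟨_, h2, _⟩ := hSB (Q ⊕ Fin 3)
  choose N hN using h2
  have hF : {u : List Bool | u.length ≤ m}.Finite := List.finite_length_le Bool m
  refine ⟨hF.toFinset.sup N, fun t t' h u hu => ?_⟩
  exact hN u t t' (ag_mono_ME (Finset.le_sup (hF.mem_toFinset.2 hu)) h)

private theorem closed_ME (hSB : StSB) (k : ℕ) :
    Cl (std : Bits (Tre (Lt3 Q))) {t | jj_ME t k = true} := by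
  classical
  intro t ht
  have ht' : ¬ jj_ME t k = true := ht
  by_cases h0 : k.unpair.1 = 0
  · refine ⟨k.unpair.2 + 1, fun t' h' hc => ht' ?_⟩
    have hc' : jj_ME t' k = true := hc
    unfold jj_ME at hc' ⊢
    rw [if_pos h0] at hc' ⊢
    rw [← hc']
    exact h' _ (Nat.lt_succ_self _)
  · by_cases h1 : k.unpair.1 = 1
    · unfold jj_ME at ht'
      rw [if_neg h0, if_pos h1, decide_eq_true_iff] at ht'
      push Not at ht'
      obtain ⟨n, hn⟩ := ht'
      obtain ⟨N, hN⟩ := len_ME (Q := Q) hSB (3 * n)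
      refine ⟨N, fun t' h' hc => hn ?_⟩
      have hc' : jj_ME t' k = true := hc
      unfold jj_ME at hc'
      rw [if_neg h0, if_pos h1, decide_eq_true_iff] at hc'
      exact WFn_congr_ME n t' t (fun u hu => (hN t t' h' u hu).symm) (hc' n)
    · rcases hd : (Encodable.decode k.unpair.2 : Option (List Bool)) with _ | v
      · refine ⟨0, fun t' _ hc => ?_⟩
        have hc' : jj_ME t' k = true := hc
        unfold jj_ME at hc'
        rw [if_neg h0, if_neg h1, hd] at hc'
        exact absurd hc' (by simp)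
      · unfold jj_ME at ht'
        rw [if_neg h0, if_neg h1, hd] at ht'
        have ht2 : ¬ NB (t.sub v) := fun h => ht' (decide_eq_true h)
        unfold NB at ht2
        push Not at ht2
        obtain ⟨w, hw, hw1, hw2⟩ := ht2
        obtain ⟨N, hN⟩ := len_ME (Q := Q) hSB (v.length + w.length)
        refine ⟨N, fun t' h' hc => ?_⟩
        have hc' : jj_ME t' k = true := hc
        unfold jj_ME at hc'
        rw [if_neg h0, if_neg h1, hd] at hc'
        have hnb : NB (t'.sub v) := of_decide_eq_true hc'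
        refine hw2 ?_
        have e : ∀ w' : List Bool, w' <+: w → (t.sub v) w' = (t'.sub v) w' := fun w' hw' =>
          hN t t' h' (v ++ w') (by rw [List.length_append]; exact Nat.add_le_add_left hw'.length_le _)
        rw [e w (List.prefix_refl w)]
        refine hnb w hw (fun w' hw' hp => ?_)
        rw [← e w' hp]
        exact hw1 w' hw' hp

/-- the new bits fix the standard bits -/
private theorem ag_std_ME (N : ℕ) : ∃ M, ∀ t t' : Tre (Lt3 Q), Ag jj_ME M t t' → Ag std N t t' := by
  classical
  refine ⟨Nat.pair 0 N, fun t t' h k hk => ?_⟩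
  have h1 := h (Nat.pair 0 k) (Nat.pair_lt_pair_right 0 hk)
  unfold jj_ME at h1
  simpa only [Nat.unpair_pair, if_true] using h1

private theorem letter_ME (hSB : StSB) (v : List Bool) : ∃ M, ∀ t t' : Tre (Lt3 Q),
    Ag jj_ME M t t' → t v = t' v := by
  obtain ⟨N, hN⟩ := len_ME (Q := Q) hSB v.length
  obtain ⟨M, hM⟩ := ag_std_ME (Q := Q) N
  exact ⟨M, fun t t' h => hN t t' (hM t t' h) v le_rfl⟩

private theorem nb_ME (v : List Bool) : ∃ M, ∀ t t' : Tre (Lt3 Q),
    Ag jj_ME M t t' → (NB (t.sub v) ↔ NB (t'.sub v)) := by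
  classical
  refine ⟨Nat.pair 2 (Encodable.encode v) + 1, fun t t' h => ?_⟩
  have h1 := h (Nat.pair 2 (Encodable.encode v)) (Nat.lt_succ_self _)
  rw [← jj2_ME, ← jj2_ME, h1]

private theorem sel_ME (hSB : StSB) (v : List Bool) (t : Tre (Lt3 Q)) : ∃ M, ∀ t' : Tre (Lt3 Q),
    Ag jj_ME M t t' → sel (t.sub v) = sel (t'.sub v) := by
  obtain ⟨M1, h1⟩ := letter_ME (Q := Q) hSB (v ++ [false])
  obtain ⟨M2, h2⟩ := letter_ME (Q := Q) hSB (v ++ [dk (t.sub v), false])
  obtain ⟨M3, h3⟩ := nb_ME (Q := Q) v
  refine ⟨max M1 (max M2 M3), fun t' h => ?_⟩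
  have e1 := h1 t t' (ag_mono_ME (le_max_left _ _) h)
  have e2 := h2 t t' (ag_mono_ME ((le_max_left _ _).trans (le_max_right _ _)) h)
  have e3 := h3 t t' (ag_mono_ME ((le_max_right _ _).trans (le_max_right _ _)) h)
  have ed : dk (t.sub v) = dk (t'.sub v) := congrFun e1 (Sum.inr 0)
  have e4 : (t.sub v) [dk (t.sub v), false] (Sum.inr 1) =
      (t'.sub v) [dk (t.sub v), false] (Sum.inr 1) := congrFun e2 (Sum.inr 1)
  unfold sel
  rw [← ed, ← e4]
  by_cases h5 : NB (t.sub v)
  · rw [if_pos h5, if_pos (e3.1 h5)]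
  · rw [if_neg h5, if_neg (fun h6 => h5 (e3.2 h6))]

private theorem dec_ME (hSB : StSB) (u : List Bool) : ∀ (v : List Bool) (t : Tre (Lt3 Q)),
    ∃ M, ∀ t' : Tre (Lt3 Q), Ag jj_ME M t t' → dec u (t.sub v) = dec u (t'.sub v) := by
  induction u with
  | nil =>
    intro v t
    obtain ⟨M, hM⟩ := letter_ME (Q := Q) hSB (v ++ [])
    refine ⟨M, fun t' h => ?_⟩
    funext p
    exact congrFun (hM t t' h) (Sum.inl p)
  | cons e u ih =>
    intro v t
    obtain ⟨M1, h1⟩ := sel_ME (Q := Q) hSB (v ++ [e]) t
    obtain ⟨M2, h2⟩ := ih (v ++ (e :: sel (t.sub (v ++ [e])))) t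
    refine ⟨max M1 M2, fun t' h => ?_⟩
    have e1 := h1 t' (ag_mono_ME (le_max_left _ _) h)
    have e2 := h2 t' (ag_mono_ME (le_max_right _ _) h)
    simp only [dec, sub_sub_ME]
    rw [e2, e1]

private theorem cts_ME (hSB : StSB) (S : Set (Tre (Lt3 Q))) :
    Cts (res jj_ME S) (std : Bits (Tre (Q → Bool))) (fun x : S => fun u => dec u x.1) := by
  intro n y
  have h := dec_ME (Q := Q) hSB
  obtain ⟨N, hN⟩ := finite_ME (jj_ME : Bits (Tre (Lt3 Q))) y.1
    (fun (u : List Bool) t' => dec u y.1 = dec u t') (fun u => h u [] y.1)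
    {u : List Bool | u.length ≤ n} (List.finite_length_le Bool n)
  refine ⟨N, fun y' hy' k hk => ?_⟩
  refine (hSB Q).1 k _ _ (fun u hu => ?_)
  exact hN y'.1 hy' u (hu.trans hk.le)

end ME

/-- **ME** -/
theorem hME (hSB : StSB) : StME := by
  classical
  intro Q _ C L hC hL
  refine ⟨jj_ME, closed_ME hSB, ?_⟩
  set κ : Tre (Lt3 (Q ⊕ Fin 3)) → ℕ := fun t => if ∀ n, WFn n t then 0 else 1 with hκ
  refine hC.paste _ jj_ME κ _ (fun x => ⟨Nat.pair 1 0 + 1, fun y hy => ?_⟩) (fun c => ?_)
  · have h1 := hy (Nat.pair 1 0) (Nat.lt_succ_self _)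
    have h2 : (∀ n, WFn n x) ↔ ∀ n, WFn n y := by
      rw [← jj1_ME, ← jj1_ME, h1]
    simp only [hκ, h2]
  · by_cases hc : c = 0
    · subst hc
      have e : tr {x | κ x = 0} (Ex L) =
          (fun x : {x | κ x = 0} => (fun u => dec u x.1 : Tre (Lt3 Q))) ⁻¹' L := by
        ext ⟨x, hx⟩
        have hw : ∀ n, WFn n x := by
          by_contra hn
          have hx' : κ x = 0 := hx
          simp only [hκ, if_neg hn] at hx'
          exact absurd hx' (by norm_num)
        exact ⟨fun h => h.2, fun h => ⟨hw, h⟩⟩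
      rw [e]
      exact hC.pre _ _ std _ _ L (cts_ME hSB _) hL
    · have e : tr {x | κ x = c} (Ex L) = ∅ := by
        ext ⟨x, hx⟩
        refine ⟨fun h => hc ?_, fun h => absurd h (Set.notMem_empty _)⟩
        have hx' : κ x = c := hx
        have hw : ∀ n, WFn n x := h.1
        simp only [hκ, if_pos hw] at hx'
        exact hx'.symm
      rw [e]
      exact hC.empty _ _

end Pool.Agent.Helper30.WL

end

section

/-!
# PROJECT WL, module SB: the standard bits of trees
-/

set_option autoImplicit false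

namespace Pool.Agent.Helper30.WL

open Set
open Pool.Agent.Helper24.WH (Tre pT)

/-- neighbourhoods in a product of discrete spaces -/
theorem nhdsPi_SB {A : Type} (t : List Bool → A) (S : Set (List Bool → A)) :
    S ∈ @nhds _ (@Pi.topologicalSpace (List Bool) (fun _ => A) (fun _ => ⊥)) t ↔
      ∃ I : Finset (List Bool), ∀ t' : List Bool → A, (∀ u ∈ I, t' u = t u) → t' ∈ S := by
  let _ : TopologicalSpace A := ⊥
  have : DiscreteTopology A := ⟨rfl⟩
  change S ∈ nhds t ↔ _
  rw [nhds_pi]
  simp only [nhds_discrete]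
  constructor
  · intro h
    obtain ⟨I, hI, V, hV, hS⟩ := Filter.mem_pi.mp h
    refine ⟨hI.toFinset, fun t' ht' => hS ?_⟩
    intro u hu
    have h1 : t' u = t u := ht' u (hI.mem_toFinset.mpr hu)
    have h2 : t u ∈ V u := by simpa using hV u
    rw [h1]
    exact h2
  · rintro ⟨I, hI⟩
    refine Filter.mem_pi.mpr ⟨(I : Set (List Bool)), I.finite_toSet, fun u => {t u}, fun u => by simp, ?_⟩
    intro t' ht'
    exact hI t' (fun u hu => ht' u hu)

/-- neighbourhoods in the product topology of discrete letters -/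
theorem nhds_SB {A : Type} (t : Tre A) (S : Set (Tre A)) :
    S ∈ @nhds _ (pT A) t ↔ ∃ I : Finset (List Bool), ∀ t' : Tre A, (∀ u ∈ I, t' u = t u) → t' ∈ S :=
  nhdsPi_SB t S

/-- continuity of maps of trees -/
theorem cont_iff_SB {A B : Type} (f : Tre A → Tre B) :
    @Continuous _ _ (pT A) (pT B) f ↔
      ∀ (t : Tre A) (J : Finset (List Bool)), ∃ I : Finset (List Bool), ∀ t' : Tre A,
        (∀ u ∈ I, t' u = t u) → ∀ v ∈ J, f t' v = f t v := by
  constructor
  · intro h t J
    have h1 : Filter.Tendsto f (@nhds _ (pT A) t) (@nhds _ (pT B) (f t)) :=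
      @Continuous.tendsto _ _ (pT A) (pT B) f h t
    have h2 : {s : Tre B | ∀ v ∈ J, s v = f t v} ∈ @nhds _ (pT B) (f t) :=
      (nhds_SB _ _).mpr ⟨J, fun t' ht' => ht'⟩
    obtain ⟨I, hI⟩ := (nhds_SB _ _).mp (h1 h2)
    exact ⟨I, fun t' ht' => hI t' ht'⟩
  · intro h
    refine (@continuous_iff_continuousAt _ _ (pT A) (pT B) f).mpr ?_
    intro t S hS
    obtain ⟨J, hJ⟩ := (nhds_SB _ _).mp hS
    obtain ⟨I, hI⟩ := h t J
    exact (nhds_SB _ _).mpr ⟨I, fun t' ht' => hJ _ (hI t' ht')⟩

/-- part 1 -/
theorem std_congr_SB (P : Type) [Countable P] (n : ℕ) (t t' : Tre (P → Bool))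
    (h : ∀ u : List Bool, u.length ≤ n → t u = t' u) : std t n = std t' n := by
  unfold std
  split
  · next u p _ =>
    by_cases hu : u.length ≤ n
    · rw [if_pos hu, if_pos hu, h u hu]
    · rw [if_neg hu, if_neg hu]
  · rfl

/-- value of a standard bit -/
theorem std_val_SB (P : Type) [Countable P] (u : List Bool) (p : P) :
    ∃ n : ℕ, ∀ t : Tre (P → Bool), std t n = t u p := by
  refine ⟨Nat.pair (@Encodable.encode (List Bool × P) (Encodable.ofCountable _) (u, p)) u.length, fun t => ?_⟩
  unfold std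
  have h1 : @Encodable.decode (List Bool × P) (Encodable.ofCountable _)
      (Nat.pair (@Encodable.encode (List Bool × P) (Encodable.ofCountable _) (u, p)) u.length).unpair.1 =
        some (u, p) := by
    rw [Nat.unpair_pair]
    exact @Encodable.encodek _ (Encodable.ofCountable _) (u, p)
  rw [h1]
  simp only
  rw [if_pos (Nat.right_le_pair _ _)]

/-- part 2 -/
theorem std_sep_SB (P : Type) [Finite P] (u : List Bool) :
    ∃ N, ∀ t t' : Tre (P → Bool), Ag std N t t' → t u = t' u := by
  choose n hn using fun p : P => std_val_SB P u p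
  obtain ⟨M, hM⟩ := (Set.finite_range n).bddAbove
  refine ⟨M + 1, fun t t' h => ?_⟩
  funext p
  have h1 : n p < M + 1 := Nat.lt_succ_of_le (hM ⟨p, rfl⟩)
  rw [← hn p t, ← hn p t']
  exact h _ h1

/-- finitely many letters -/
theorem std_sepF_SB (P : Type) [Finite P] (I : Finset (List Bool)) :
    ∃ N, ∀ t t' : Tre (P → Bool), Ag std N t t' → ∀ u ∈ I, t u = t' u := by
  choose N hN using fun u => std_sep_SB P u
  refine ⟨I.sup N, fun t t' h u hu => hN u t t' ?_⟩
  intro k hk
  exact h k (lt_of_lt_of_le hk (Finset.le_sup (f := N) hu))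

/-- **SB** -/
theorem hSB : StSB := by
  intro P _
  refine ⟨fun n t t' h => std_congr_SB P n t t' h, fun u => std_sep_SB P u, ?_⟩
  intro P' _ f
  rw [cont_iff_SB]
  constructor
  · intro h t J
    obtain ⟨N, hN⟩ := std_sepF_SB P' J
    obtain ⟨n', hn'⟩ := h N t
    have hfin : {u : List Bool | u.length ≤ n'}.Finite := List.finite_length_le Bool n'
    refine ⟨hfin.toFinset, fun t' ht' v hv => ?_⟩
    have h1 : Ag std n' t t' := by
      intro k hk
      refine std_congr_SB P k t t' (fun u hu => ?_)
      exact (ht' u (hfin.mem_toFinset.mpr (by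
        change u.length ≤ n'
        omega))).symm
    exact (hN _ _ (hn' t' h1) v hv).symm
  · intro h n t
    have hfin : {u : List Bool | u.length ≤ n}.Finite := List.finite_length_le Bool n
    obtain ⟨I, hI⟩ := h t hfin.toFinset
    obtain ⟨N, hN⟩ := std_sepF_SB P I
    refine ⟨N, fun t' ht' => ?_⟩
    intro k hk
    refine std_congr_SB P' k (f t) (f t') (fun v hv => ?_)
    refine (hI t' (fun u hu => (hN t t' ht' u hu).symm) v (hfin.mem_toFinset.mpr ?_)).symm
    change v.length ≤ n
    omega

end Pool.Agent.Helper30.WL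

end

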