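import Pool.Agent.Helper24.WH.St4
import Pool.Agent.Helper79.WHM.G01
import Pool.Agent.Helper79.WHM.G02
import Pool.Agent.Helper79.WHM.G04
import Pool.Agent.Helper79.WHM.G17
import Pool.Agent.Helper79.WHM.G18

/-! Modules of project WH / WL merged into one file to shorten the build. -/

section

/-!
# PROJECT WH (MP_76577a_lc), module FT3: the gap argument
-/

set_option autoImplicit false

namespace Pool.Agent.Helper24.WH

open Set TopologicalSpace Topology
open Ordinal hiding univ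

/-- the situation of the gap argument -/
private structure Sit {X : Type} (τ : TopologicalSpace X) (d : Set X → Set X) (P : Set (Set X))
    (Q : Set (Set X)) : Prop where
  der : IsDer τ d
  cl : ∀ B ∈ P, IsClosed[τ] B
  clp : ∀ O ∈ Q, Clp τ O
  basis : ∀ (x : X) (U : Set X), IsOpen[τ] U → x ∈ U → ∃ O ∈ Q, x ∈ O ∧ O ⊆ U
  inter : ∀ B ∈ P, ∀ O ∈ Q, B ∩ O ∈ P

private theorem iter_loc_FT3 {X : Type} {τ : TopologicalSpace X} {d : Set X → Set X}
    {P Q : Set (Set X)} (h : Sit τ d P Q) {B O : Set X} (hO : O ∈ Q) (α : Ordinal.{0}) :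
    iter d (B ∩ O) α = iter d B α ∩ O :=
  (hIL X τ d h.der α).loc O B (h.clp O hO)

private theorem gap_FT3 {X : Type} {τ : TopologicalSpace X} {d : Set X → Set X}
    {P Q : Set (Set X)} (h : Sit τ d P Q) {Y : Set X} (hY : Y ∈ P) {v w : Ordinal.{0}}
    (hv : ex d Y = v) (hw : w < v)
    (hE : ∀ O ∈ Q, ex d (Y ∩ O) < (v : WithTop Ordinal.{0}) → ex d (Y ∩ O) ≤ (w : WithTop Ordinal.{0})) :
    v ≤ w + 1 := by
  obtain ⟨h0, h1, h2, h3, -, h5, -, -, h8, -⟩ := hIT X d h.der.mono h.der.le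
  have hmon : ∀ O, ex d (Y ∩ O) ≤ (v : WithTop Ordinal.{0}) := fun O => by
    rw [← hv]; exact ex_mono_EX fun α => h3 _ _ α inter_subset_left
  set C : Set X := {y | y ∈ Y ∧ ∀ O ∈ Q, y ∈ O → ex d (Y ∩ O) = v} with hC
  have hsub : iter d Y (ω ^ w) ⊆ C := by
    intro y hy
    refine ⟨h5 Y _ hy, fun O hO hyO => ?_⟩
    by_contra hne
    have h6 : ex d (Y ∩ O) ≤ (w : WithTop Ordinal.{0}) := hE O hO (lt_of_le_of_ne (hmon O) hne)
    have h7 := iter_of_ex_EX h6
    rw [iter_loc_FT3 h hO] at h7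
    have : y ∈ iter d Y (ω ^ w) ∩ O := ⟨hy, hyO⟩
    rw [h7] at this
    exact this
  have hne : (iter d Y (ω ^ w)).Nonempty := by
    rw [nonempty_iff_ne_empty]
    intro h6
    have := ex_le_of_EX h6
    rw [hv, WithTop.coe_le_coe] at this
    exact absurd hw (not_lt.2 this)
  have hCY : C ⊆ Y := fun y hy => hy.1
  have hCcl : IsClosed[τ] C := by
    have : C = Y ∩ ⋂ O ∈ {O | O ∈ Q ∧ ex d (Y ∩ O) ≠ v}, Oᶜ := by
      ext y
      simp only [hC, mem_setOf_eq, mem_inter_iff, mem_iInter, mem_compl_iff]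
      constructor
      · rintro ⟨a, b⟩
        exact ⟨a, fun O hO hy => hO.2 (b O hO.1 hy)⟩
      · rintro ⟨a, b⟩
        exact ⟨a, fun O hO hy => by by_contra hh; exact b O ⟨hO, hh⟩ hy⟩
    rw [this]
    letI := τ
    refine (h.cl Y hY).inter (isClosed_biInter fun O hO => ?_)
    exact (h.clp O hO.1).2.isClosed_compl
  have hnot : ¬ C ⊆ d C := by
    intro h6
    have h7 := h8 Y C (ω ^ v) hCY h6
    rw [iter_of_ex_EX (le_of_eq hv)] at h7
    obtain ⟨y, hy⟩ := hne
    exact h7 (hsub hy)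
  obtain ⟨y, hyC, hyd⟩ := not_subset.1 hnot
  have hdC : IsClosed[τ] (d C) := h.der.closed C hCcl
  obtain ⟨O, hO, hyO, hOd⟩ := h.basis y (d C)ᶜ (by letI := τ; exact hdC.isOpen_compl) hyd
  have h6 : iter d (Y ∩ O) (ω ^ w + 1) = ∅ := by
    rw [iter_loc_FT3 h hO, h1, subset_empty_iff.symm]
    rintro z ⟨hz, hzO⟩
    exact hOd hzO (h.der.mono _ _ hsub hz)
  have h7 : iter d (Y ∩ O) (ω ^ (w + 1)) = ∅ := by
    rw [subset_empty_iff.symm, ← h6]
    refine h2 _ _ _ ?_
    have : ω ^ w < ω ^ (w + 1) :=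
      (opow_lt_opow_iff_right one_lt_omega0).2 (Order.lt_add_one_iff.2 le_rfl)
    exact Order.add_one_le_of_lt this
  have h8' := ex_le_of_EX h7
  rw [hyC.2 O hO hyO, WithTop.coe_le_coe] at h8'
  exact h8'

private theorem fix_FT3 {X : Type} {τ : TopologicalSpace X} {d : Set X → Set X}
    {P Q : Set (Set X)} (h : Sit τ d P Q) {N : Ordinal.{0}} {B : Set X} (hB : B ∈ P)
    (hN : ∀ O ∈ Q, ∀ v : Ordinal.{0}, ex d (B ∩ O) = v → v ≤ N) :
    iter d B (ω ^ N) ⊆ d (iter d B (ω ^ N)) := by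
  obtain ⟨h0, h1, h2, h3, -, h5, -, -, h8, -⟩ := hIT X d h.der.mono h.der.le
  -- the kernel
  have key : ∀ y ∈ iter d B (ω ^ N), ∀ α : Ordinal.{0}, y ∈ iter d B α := by
    intro y hy α
    by_contra hcon
    have hcl : IsClosed[τ] (iter d B α) := (hIL X τ d h.der α).closed B (h.cl B hB)
    obtain ⟨O, hO, hyO, hOd⟩ := h.basis y (iter d B α)ᶜ (by letI := τ; exact hcl.isOpen_compl) hcon
    have h6 : iter d (B ∩ O) α = ∅ := by
      rw [iter_loc_FT3 h hO, subset_empty_iff.symm]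
      rintro z ⟨hz, hzO⟩
      exact hOd hzO hz
    have h7 : iter d (B ∩ O) (ω ^ α) = ∅ := by
      rw [subset_empty_iff.symm, ← h6]
      exact h2 _ _ _ (right_le_opow _ one_lt_omega0)
    have h9 := ex_le_of_EX h7
    obtain ⟨v, hv⟩ := WithTop.ne_top_iff_exists.1 (ne_top_of_le_ne_top WithTop.coe_ne_top h9)
    have h10 : v ≤ N := hN O hO v hv.symm
    have h11 : iter d (B ∩ O) (ω ^ N) = ∅ := by
      refine iter_of_ex_EX ?_
      rw [← hv, WithTop.coe_le_coe]
      exact h10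
    rw [iter_loc_FT3 h hO] at h11
    have : y ∈ iter d B (ω ^ N) ∩ O := ⟨hy, hyO⟩
    rw [h11] at this
    exact this
  intro y hy
  have h6 := key y hy (ω ^ N + 1)
  rwa [h1] at h6

theorem hFT3 : StFT3 := by
  intro X S _ n τ g P hs m hm hfin
  set E := {v | ∃ (L : ℕ → TT S m) (B : Set X), B ∈ P (m + 1) ∧ v = ex (dL τ g m L) B} with hE
  have sit : ∀ L : ℕ → TT S m, Sit (τ (m + 1)) (dL τ g m L) (P (m + 1)) (P (m + 1 + 1)) := fun L =>
    { der := (hZM X S τ g hs.tow hs.fib m).2.2 L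
      cl := fun B hB => hs.cl (m + 1) hm B hB
      clp := fun O hO => ⟨hs.cl (m + 1) hm O (hs.anti _ hO), hs.op (m + 1) hm O hO⟩
      basis := fun x U hU hx => hs.basis (m + 1) hm x U hU hx
      inter := fun B hB O hO => hs.inter (m + 1) B hB O (hs.anti _ hO) }
  -- a bound for the finite elements
  obtain ⟨N, hN⟩ : ∃ N : ℕ, ∀ v : Ordinal.{0}, (v : WithTop Ordinal.{0}) ∈ E → v < ω → v ≤ N := by
    have hf : {k : ℕ | (((k : Ordinal.{0}) : WithTop Ordinal.{0})) ∈ E}.Finite := by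
      refine hfin.preimage ?_
      intro a _ b _ hab
      simpa using hab
    obtain ⟨N, hN⟩ := hf.bddAbove
    refine ⟨N, fun v hv hvw => ?_⟩
    obtain ⟨k, rfl⟩ := lt_omega0.1 hvw
    exact_mod_cast hN hv
  have hall : ∀ v : Ordinal.{0}, (v : WithTop Ordinal.{0}) ∈ E → v ≤ N := by
    intro v
    induction v using WellFoundedLT.induction with
    | ind v ih =>
      intro hv
      rcases lt_or_ge v ω with h1 | h1
      · exact hN v hv h1
      · exfalso
        obtain ⟨L, Y, hY, hvY⟩ := hv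
        have hlt : (N : Ordinal.{0}) < v := (nat_lt_omega0 N).trans_le h1
        have h2 : v ≤ (N : Ordinal.{0}) + 1 := by
          refine gap_FT3 (sit L) hY hvY.symm hlt fun O hO hlt2 => ?_
          obtain ⟨u, hu⟩ := WithTop.ne_top_iff_exists.1 (ne_top_of_lt hlt2)
          rw [← hu, WithTop.coe_lt_coe] at hlt2
          rw [← hu, WithTop.coe_le_coe]
          exact ih u hlt2 ⟨L, Y ∩ O, (sit L).inter Y hY O hO, hu⟩
        have h3 : (N : Ordinal.{0}) + 1 < ω := by exact_mod_cast nat_lt_omega0 (N + 1)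
        exact absurd (h1.trans h2) (not_le.2 h3)
  refine ⟨N, fun L B hB => fix_FT3 (sit L) hB fun O hO v hv => hall v ⟨L, B ∩ O, (sit L).inter B hB O hO, hv.symm⟩⟩

end Pool.Agent.Helper24.WH

end

section

/-!
# Project WH, module SA (4.1, 4.2): names of stage below `i`, if all stages below `i` are fine

First closedness of the values of all good names (induction on the name), then the splitting along
`Tre.mk a` (induction on the name; the closedness of the split names is used for `SD`).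
-/

set_option autoImplicit false

namespace Pool.Agent.Helper24.WH

open Set TopologicalSpace Topology
open Ordinal hiding univ

/-- closed sets of a coarser topology are closed in a finer one -/
private theorem closed_mono_SA {X : Type} {τ τ' : TopologicalSpace X} (h : τ ≤ τ') {F : Set X}
    (hF : IsClosed[τ'] F) : IsClosed[τ] F := hF.mono h

/-- the stage topologies are monotone in the height (all heights) -/
private theorem stg_height_SA (hSU : StSU) {A S : Type} [Finite A] [Finite S] (n : ℕ) (g : Tre A → S)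
    (i : Ordinal.{0}) {M M' : ℕ} (h : M ≤ M') : stg n g i M ≤ stg n g i M' := by
  induction M', h using Nat.le_induction with
  | base => exact le_refl _
  | succ k _ ih => exact le_trans ih ((hSU A S n g).2.2.2.2.1 i k)

/-- splitting with an arbitrary finite index type -/
private def Spl_SA {A S : Type} (n : ℕ) (g : Tre A → S) (h : ℕ) (i : Ordinal.{0}) (a : A)
    (P : Set (Tre A)) : Prop :=
  ∃ (ι : Type) (_ : Finite ι) (N₀ N₁ : ι → Nm S), (∀ q, GN n g (N₀ q) h i ∧ GN n g (N₁ q) h i) ∧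
    P ∩ range (Tre.mk a) = ⋃ q, Tre.mk a '' (vl n g (N₀ q) ×ˢ vl n g (N₁ q))

private theorem mk_inj_SA {A : Type} (a : A) : Function.Injective (Tre.mk a) := by
  intro p p' h
  apply Prod.ext
  · funext v
    exact congrFun h (false :: v)
  · funext v
    exact congrFun h (true :: v)

/-- intersections of splittings -/
private theorem Spl_inter_SA (hSU : StSU) {A S : Type} [Finite A] [Finite S] (n : ℕ) (g : Tre A → S)
    (h : ℕ) (i : Ordinal.{0}) (a : A) (P R : Set (Tre A)) (hP : Spl_SA n g h i a P)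
    (hR : Spl_SA n g h i a R) : Spl_SA n g h i a (P ∩ R) := by
  obtain ⟨ι, hι, N₀, N₁, hN, hPe⟩ := hP
  obtain ⟨κ, hκ, M₀, M₁, hM, hRe⟩ := hR
  have hI := (hSU A S n g).2.2.2.2.2.2.2.2
  have h0 : ∀ q : ι × κ, ∃ N'' : Nm S, GN n g N'' h i ∧
      vl n g N'' = vl n g (N₀ q.1) ∩ vl n g (M₀ q.2) := fun q =>
    hI (N₀ q.1) (M₀ q.2) h i (hN q.1).1 (hM q.2).1
  have h1 : ∀ q : ι × κ, ∃ N'' : Nm S, GN n g N'' h i ∧
      vl n g N'' = vl n g (N₁ q.1) ∩ vl n g (M₁ q.2) := fun q =>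
    hI (N₁ q.1) (M₁ q.2) h i (hN q.1).2 (hM q.2).2
  choose Q₀ hQ₀ using h0
  choose Q₁ hQ₁ using h1
  refine ⟨ι × κ, inferInstance, Q₀, Q₁, fun q => ⟨(hQ₀ q).1, (hQ₁ q).1⟩, ?_⟩
  have e1 : (P ∩ R) ∩ range (Tre.mk a) = (P ∩ range (Tre.mk a)) ∩ (R ∩ range (Tre.mk a)) := by
    ext t
    simp only [mem_inter_iff]
    tauto
  rw [e1, hPe, hRe]
  ext t
  simp only [mem_inter_iff, mem_iUnion, mem_image]
  constructor
  · rintro ⟨⟨q, p, hp, rfl⟩, ⟨r, p', hp', he⟩⟩
    have := mk_inj_SA a he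
    subst this
    refine ⟨(q, r), p', ?_, rfl⟩
    rw [mem_prod] at hp hp' ⊢
    rw [(hQ₀ (q, r)).2, (hQ₁ (q, r)).2]
    exact ⟨⟨hp.1, hp'.1⟩, ⟨hp.2, hp'.2⟩⟩
  · rintro ⟨q, p, hp, rfl⟩
    rw [mem_prod, (hQ₀ q).2, (hQ₁ q).2] at hp
    exact ⟨⟨q.1, p, ⟨hp.1.1, hp.2.1⟩, rfl⟩, ⟨q.2, p, ⟨hp.1.2, hp.2.2⟩, rfl⟩⟩

/-- finite intersections of names -/
private theorem biInter_SA (hSU : StSU) {A S : Type} [Finite A] [Finite S] (n : ℕ) (g : Tre A → S)
    (h : ℕ) (i : Ordinal.{0}) {κ : Type} [Finite κ] (J : Set κ) (F : κ → Nm S)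
    (hF : ∀ q, GN n g (F q) h i) : ∃ N : Nm S, GN n g N h i ∧ vl n g N = ⋂ q ∈ J, vl n g (F q) := by
  have hI := (hSU A S n g).2.2.2.2.2.2.2.2
  refine Set.Finite.induction_on (motive := fun J _ => ∃ N : Nm S, GN n g N h i ∧
    vl n g N = ⋂ q ∈ J, vl n g (F q)) J J.toFinite ?_ ?_
  · refine ⟨Fo.nil, trivial, ?_⟩
    simp [vl, val]
  · intro b J' _ _ ih
    obtain ⟨N, hN, hNe⟩ := ih
    obtain ⟨N'', h1, h2⟩ := hI (F b) N h i (hF b) hN
    refine ⟨N'', h1, ?_⟩
    rw [h2, hNe, biInter_insert]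

/-- closedness of the values of all good names -/
private theorem closed_SA (hSU : StSU) {A S : Type} [Finite A] [Finite S] (n : ℕ)
    (g : Tre A → S) (N : Nm S) : ∀ (h : ℕ) (i : Ordinal.{0}), (∀ j < i, StageOK n g j) →
      GN n g N h i → IsClosed[stg n g i h] (vl n g N) := by
  induction N with
  | nil => intro h i _ _; exact @isClosed_univ _ (stg n g i h)
  | leaf a rest _ => exact a.elim
  | cons l kids rest ihk ihr =>
    intro h i hst hG
    have hmono := (hSU A S n g).2.2.2.1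
    cases l with
    | base M K =>
      obtain ⟨h1, _, h3, h4, _, h6⟩ := hG
      have hr := ihr h i hst h6
      have hP : IsClosed[stg n g i h] (g ⁻¹' K) :=
        closed_mono_SA (le_trans (stg_height_SA hSU n g i h1) ((hSU A S n g).2.2.2.2.2.1 i M h3)) h4
      exact @IsClosed.inter _ _ _ (stg n g i h) hP hr
    | cl M s j =>
      obtain ⟨h1, _, h3, h4, h5, h6⟩ := hG
      have hr := ihr h i hst h6
      have hP : IsClosed[stg n g i h] (closure[stg n g j M] (g ⁻¹' {s} ∩ vl n g kids)) :=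
        closed_mono_SA (le_trans (stg_height_SA hSU n g i h1) (hmono j i M h4.le))
          (@isClosed_closure _ (stg n g j M) _)
      exact @IsClosed.inter _ _ _ (stg n g i h) hP hr
    | dd m L x j =>
      obtain ⟨h1, _, h4, h5, h6⟩ := hG
      have hr := ihr h i hst h6
      have hk := ihk (m + 1) j (fun j' hj' => hst j' (lt_trans hj' h4)) h5
      have hd := (hZM (Tre A) S (stg n g j) g (hst j h4).1 (hst j h4).2.1 m).2.2 L
      have hit := (hIL (Tre A) (stg n g j (m + 1)) _ hd (ω ^ (x : Ordinal.{0}))).closed _ hk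
      have hP : IsClosed[stg n g i h] (iter (dL (stg n g j) g m L) (vl n g kids) (ω ^ (x : Ordinal.{0}))) :=
        closed_mono_SA (le_trans (stg_height_SA hSU n g i h1) (hmono j i (m + 1) h4.le)) hit
      exact @IsClosed.inter _ _ _ (stg n g i h) hP hr

/-- **SA** -/
theorem hSA (hBB : StBB) (hSU : StSU) (hSD : StSD) : StSA := by
  intro A S _ _ n g Ga hyp N h i hst hG
  refine ⟨closed_SA hSU n g N h i hst hG, ?_⟩
  have key : ∀ (N : Nm S) (a : A) (h : ℕ) (i : Ordinal.{0}), (∀ j < i, StageOK n g j) →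
      GN n g N h i → Spl_SA n g h i a (vl n g N) := by
    intro N a
    induction N with
    | nil =>
      intro h i _ _
      refine ⟨Unit, inferInstance, fun _ => Fo.nil, fun _ => Fo.nil, fun _ => ⟨trivial, trivial⟩, ?_⟩
      rw [iUnion_const]
      simp [vl, val]
    | leaf a rest _ => exact a.elim
    | cons l kids rest ihk ihr =>
      intro h i hst hG
      cases l with
      | base M K =>
        obtain ⟨h1, h2, h3, h4, _, h6⟩ := hG
        have hr := ihr h i hst h6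
        refine Spl_inter_SA hSU n g h i a (g ⁻¹' K) (vl n g rest) ?_ hr
        obtain ⟨k, K₀, K₁, c0, c1, he⟩ := (hBB A S g Ga hyp.hom (n - M)).2.2.2 K h4 a
        refine ⟨Fin k, inferInstance, fun q => Fo.cons (Lab.base M (K₀ q)) Fo.nil Fo.nil,
          fun q => Fo.cons (Lab.base M (K₁ q)) Fo.nil Fo.nil, fun q =>
          ⟨⟨h1, h2, h3, c0 q, rfl, trivial⟩, ⟨h1, h2, h3, c1 q, rfl, trivial⟩⟩, ?_⟩
        simpa [vl, val] using he
      | cl M s j =>
        obtain ⟨h1, h2, h3, h4, h5, h6⟩ := hG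
        have hr := ihr h i hst h6
        refine Spl_inter_SA hSU n g h i a (closure[stg n g j M] (g ⁻¹' {s} ∩ vl n g kids))
          (vl n g rest) ?_ hr
        obtain ⟨ι, hι, N₀, N₁, hN, hke⟩ := ihk 0 j (fun j' hj' => hst j' (lt_trans hj' h4)) h5
        obtain ⟨k, ⟨eq⟩⟩ := Finite.exists_equiv_fin ι
        have hke' : vl n g kids ∩ range (Tre.mk a) = ⋃ q : Fin k, Tre.mk a ''
            (vl n g (N₀ (eq.symm q)) ×ˢ vl n g (N₁ (eq.symm q))) := by
          rw [hke]
          exact (eq.symm.surjective.iUnion_comp (fun q => Tre.mk a ''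
            (vl n g (N₀ q) ×ˢ vl n g (N₁ q)))).symm
        have hsc := hSC (Tre A) S (stg n g j M) g (Tre.mk a) (Ga a) (hyp.hom a) ((hst j h4).2.2 a M) s k
          _ _ (vl n g kids) hke'
        refine ⟨Fin k × {p : S × S | Ga a p = s}, inferInstance,
          fun q => Fo.cons (Lab.cl M q.2.1.1 j) (N₀ (eq.symm q.1)) Fo.nil,
          fun q => Fo.cons (Lab.cl M q.2.1.2 j) (N₁ (eq.symm q.1)) Fo.nil, fun q =>
          ⟨⟨h1, h2, h3, h4, (hN _).1, trivial⟩, ⟨h1, h2, h3, h4, (hN _).2, trivial⟩⟩, ?_⟩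
        rw [hsc]
        ext t
        simp only [mem_iUnion, vl, val, inter_univ]
        constructor
        · rintro ⟨q, p, hp, ht⟩
          exact ⟨(q, ⟨p, hp⟩), ht⟩
        · rintro ⟨⟨q, ⟨p, hp⟩⟩, ht⟩
          exact ⟨q, p, hp, ht⟩
      | dd m L x j =>
        obtain ⟨h1, h2, h4, h5, h6⟩ := hG
        have hr := ihr h i hst h6
        refine Spl_inter_SA hSU n g h i a
          (iter (dL (stg n g j) g m L) (vl n g kids) (ω ^ (x : Ordinal.{0}))) (vl n g rest) ?_ hr
        have hst' : ∀ j' < j, StageOK n g j' := fun j' hj' => hst j' (lt_trans hj' h4)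
        obtain ⟨ι, hι, N₀, N₁, hN, hke⟩ := ihk (m + 1) j hst' h5
        obtain ⟨k, ⟨eq⟩⟩ := Finite.exists_equiv_fin ι
        have hke' : vl n g kids ∩ range (Tre.mk a) = ⋃ q : Fin k, Tre.mk a ''
            (vl n g (N₀ (eq.symm q)) ×ˢ vl n g (N₁ (eq.symm q))) := by
          rw [hke]
          exact (eq.symm.surjective.iUnion_comp (fun q => Tre.mk a ''
            (vl n g (N₀ q) ×ˢ vl n g (N₁ q)))).symm
        obtain ⟨K, J, L₀, L₁, _, hsd⟩ := hSD (Tre A) S (stg n g j) g (Tre.mk a) (Ga a) (hst j h4).1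
          (hst j h4).2.1 (hyp.hom a) ((hst j h4).2.2 a) m L x k _ _ (vl n g kids)
          (fun q => closed_SA hSU n g (N₀ (eq.symm q)) (m + 1) j hst' (hN _).1)
          (fun q => closed_SA hSU n g (N₁ (eq.symm q)) (m + 1) j hst' (hN _).2)
          (closed_SA hSU n g kids (m + 1) j hst' h5) hke'
        have g0 : ∀ r : Fin K, ∃ N : Nm S, GN n g N h i ∧ vl n g N = ⋂ q ∈ J r,
            vl n g (Fo.cons (Lab.dd m (L₀ r q) x j) (N₀ (eq.symm q)) Fo.nil) := fun r =>
          biInter_SA hSU n g h i (J r)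
            (fun q => Fo.cons (Lab.dd m (L₀ r q) x j) (N₀ (eq.symm q)) Fo.nil)
            (fun q => ⟨h1, h2, h4, (hN _).1, trivial⟩)
        have g1 : ∀ r : Fin K, ∃ N : Nm S, GN n g N h i ∧ vl n g N = ⋂ q ∈ J r,
            vl n g (Fo.cons (Lab.dd m (L₁ r q) x j) (N₁ (eq.symm q)) Fo.nil) := fun r =>
          biInter_SA hSU n g h i (J r)
            (fun q => Fo.cons (Lab.dd m (L₁ r q) x j) (N₁ (eq.symm q)) Fo.nil)
            (fun q => ⟨h1, h2, h4, (hN _).2, trivial⟩)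
        choose Q₀ hQ₀ using g0
        choose Q₁ hQ₁ using g1
        refine ⟨Fin K, inferInstance, Q₀, Q₁, fun r => ⟨(hQ₀ r).1, (hQ₁ r).1⟩, ?_⟩
        rw [hsd]
        refine iUnion_congr fun r => ?_
        rw [(hQ₀ r).2, (hQ₁ r).2]
        simp only [vl, val, inter_univ]
  intro a
  obtain ⟨ι, hι, N₀, N₁, hN, he⟩ := key N a h i hst hG
  obtain ⟨k, ⟨eq⟩⟩ := Finite.exists_equiv_fin ι
  refine ⟨k, fun q => N₀ (eq.symm q), fun q => N₁ (eq.symm q), fun q => hN _, ?_⟩
  rw [he]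
  exact (eq.symm.surjective.iUnion_comp (fun q => Tre.mk a ''
    (vl n g (N₀ q) ×ˢ vl n g (N₁ q)))).symm

end Pool.Agent.Helper24.WH

end

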